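import Pool.Agent.Helper28H.FE.Stm

/-!
# Project FE, piece CYC: adjoining square roots (by helper12)
-/

set_option autoImplicit false
set_option linter.all false

open Polynomial IsDedekindDomain Matrix WithZero
open scoped Classical

namespace Pool.Agent.Helper28H.FE

namespace Cyc

section main

variable {k K E₁ E₂ : Type} [Field k] [Field K] [Algebra k[X] K] [IsFractionRing k[X] K]
  [Field E₁] [Algebra K E₁] [Algebra k[X] E₁] [IsScalarTower k[X] K E₁]
  [FiniteDimensional K E₁] [Algebra.IsSeparable K E₁]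
  [Field E₂] [Algebra K E₂] [Algebra k[X] E₂] [IsScalarTower k[X] K E₂]
  [FiniteDimensional K E₂] [Algebra.IsSeparable K E₂]

theorem two_unit {A : Type} [CommRing A] [Algebra k[X] A] (h2 : (2 : k) ≠ 0) :
    ∃ c : k[X], algebraMap k[X] A c * 2 = 1 := by
  refine ⟨C (2 : k)⁻¹, ?_⟩
  have e : (2 : A) = algebraMap k[X] A (C (2 : k)) := by
    rw [map_ofNat, map_ofNat]
  rw [e, ← map_mul, ← C_mul, inv_mul_cancel₀ h2, C_1, map_one]

/-- one more square root: the prime stays unramified -/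
theorem unr (h2 : (2 : k) ≠ 0) {P₀ P : k[X]} (hP₀ : Irreducible P₀) (hP : ¬ P₀ ∣ P)
    (φ : E₁ →ₐ[K] E₂) (σ : E₂ →ₐ[K] E₂) (hσ : ∀ a : E₁, σ (φ a) = φ a) (s : E₂) (hs : s ^ 2 = algebraMap k[X] E₂ P)
    (hσs : σ s = -s) (hgen : ∀ x : E₂, ∃ a b : E₁, x = φ a + φ b * s) (hu : UnrAt E₁ P₀) :
    UnrAt E₂ P₀ := by
  haveI hd1 : IsDedekindDomain (integralClosure k[X] E₁) := integralClosure.isDedekindDomain k[X] K E₁
  haveI hd2 : IsDedekindDomain (integralClosure k[X] E₂) := integralClosure.isDedekindDomain k[X] K E₂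
  let φ' : E₁ →ₐ[k[X]] E₂ := φ.restrictScalars k[X]
  let σ' : E₂ →ₐ[k[X]] E₂ := σ.restrictScalars k[X]
  have hφ' : ∀ x, φ' x = φ x := fun x => rfl
  let j : integralClosure k[X] E₁ →ₐ[k[X]] integralClosure k[X] E₂ :=
    { toFun := fun x => ⟨φ' x, x.2.map φ'⟩
      map_one' := Subtype.ext (map_one φ')
      map_mul' := fun x y => Subtype.ext (map_mul φ' _ _)
      map_zero' := Subtype.ext (map_zero φ')
      map_add' := fun x y => Subtype.ext (map_add φ' _ _)
      commutes' := fun r => Subtype.ext (φ'.commutes r) }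
  have hj : ∀ x, ((j x : integralClosure k[X] E₂) : E₂) = φ (x : E₁) := fun x => rfl
  intro w hw hw2
  have hwp : w.asIdeal.IsPrime := w.isPrime
  -- `P` is not in `w`
  have hPw : algebraMap k[X] (integralClosure k[X] E₂) P ∉ w.asIdeal := by
    intro h
    obtain ⟨a, b, hab⟩ := (hP₀.coprime_iff_not_dvd).2 hP
    apply hwp.ne_top
    rw [Ideal.eq_top_iff_one]
    have e : (1 : integralClosure k[X] E₂) = algebraMap k[X] _ a * algebraMap k[X] _ P₀ +
        algebraMap k[X] _ b * algebraMap k[X] _ P := by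
      rw [← map_mul, ← map_mul, ← map_add, hab, map_one]
    rw [e]
    exact Ideal.add_mem _ (Ideal.mul_mem_left _ _ hw) (Ideal.mul_mem_left _ _ h)
  -- the prime below
  have hinj : Function.Injective (algebraMap k[X] (integralClosure k[X] E₁)) := by
    intro a b hab
    have h3 := congrArg (fun x : integralClosure k[X] E₁ => (x : E₁)) hab
    have h4 : algebraMap k[X] E₁ a = algebraMap k[X] E₁ b := h3
    rw [IsScalarTower.algebraMap_apply k[X] K E₁, IsScalarTower.algebraMap_apply k[X] K E₁] at h4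
    exact IsFractionRing.injective k[X] K ((algebraMap K E₁).injective h4)
  let w₁ : HeightOneSpectrum (integralClosure k[X] E₁) := ⟨w.asIdeal.comap j.toRingHom,
    Ideal.comap_isPrime _ _, by
      intro h
      have h3 : algebraMap k[X] (integralClosure k[X] E₁) P₀ ∈ w.asIdeal.comap j.toRingHom := by
        rw [Ideal.mem_comap]
        have : j.toRingHom (algebraMap k[X] (integralClosure k[X] E₁) P₀) =
            algebraMap k[X] (integralClosure k[X] E₂) P₀ := j.commutes P₀
        rw [this]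
        exact hw
      rw [h, Ideal.mem_bot, map_eq_zero_iff _ hinj] at h3
      exact hP₀.ne_zero h3⟩
  have hw1 : ∀ x, x ∈ w₁.asIdeal ↔ j x ∈ w.asIdeal := fun x => Iff.rfl
  have hP1 : algebraMap k[X] (integralClosure k[X] E₁) P₀ ∈ w₁.asIdeal := by
    rw [hw1, AlgHom.commutes]
    exact hw
  have hP2 := hu w₁ hP1
  obtain ⟨J, hJ⟩ := Ideal.dvd_iff_le.2 ((Ideal.span_singleton_le_iff_mem _).2 hP1)
  have hJ1 : ¬ J ≤ w₁.asIdeal := by
    intro h
    apply hP2
    rw [sq]
    have h3 : algebraMap k[X] (integralClosure k[X] E₁) P₀ ∈ w₁.asIdeal * J := by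
      rw [← hJ]
      exact Ideal.mem_span_singleton_self _
    exact Ideal.mul_mono_right h h3
  obtain ⟨b, hbJ, hbw⟩ := Set.not_subset.1 hJ1
  have hB : ∀ y ∈ w₁.asIdeal, j y ∈ w.asIdeal ^ 2 := by
    intro y hy
    have h3 : y * b ∈ Ideal.span {algebraMap k[X] (integralClosure k[X] E₁) P₀} := by
      rw [hJ]
      exact Ideal.mul_mem_mul hy hbJ
    obtain ⟨z, hz⟩ := Ideal.mem_span_singleton'.1 h3
    have h4 : j b * j y ∈ w.asIdeal ^ 2 := by
      have e : j b * j y = j z * algebraMap k[X] (integralClosure k[X] E₂) P₀ := by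
        rw [← AlgHom.commutes j, ← map_mul, ← map_mul, hz, mul_comm]
      rw [e]
      exact Ideal.mul_mem_left _ _ hw2
    exact (Ideal.IsPrime.mul_mem_pow w.asIdeal h4).resolve_left hbw
  -- the contradiction
  obtain ⟨x, hx1, hx2⟩ := Ideal.exists_mem_pow_notMem_pow_succ w.asIdeal w.ne_bot hwp.ne_top 1
  rw [pow_one] at hx1
  obtain ⟨a, b', hab⟩ := hgen (x : E₂)
  obtain ⟨c2, hc2⟩ := two_unit (A := E₂) h2
  have hinjφ : Function.Injective φ := φ.toRingHom.injective
  have hsi : IsIntegral k[X] s := by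
    refine IsIntegral.of_pow (n := 2) two_pos ?_
    rw [hs]
    exact isIntegral_algebraMap
  have hσx : IsIntegral k[X] (σ (x : E₂)) := x.2.map σ'
  have hσx' : σ (x : E₂) = φ a - φ b' * s := by
    rw [hab, map_add, map_mul, hσ, hσ, hσs]
    ring
  have hai : IsIntegral k[X] a := by
    have h3 : IsIntegral k[X] (φ' a) := by
      have e : φ' a = algebraMap k[X] E₂ c2 * ((x : E₂) + σ (x : E₂)) := by
        rw [hσx', hab, hφ']
        linear_combination (-φ a) * hc2
      rw [e]
      exact isIntegral_algebraMap.mul (x.2.add hσx)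
    exact (isIntegral_algHom_iff φ' hinjφ).1 h3
  have hbi : IsIntegral k[X] (algebraMap k[X] E₁ P * b') := by
    have h3 : IsIntegral k[X] (φ' (algebraMap k[X] E₁ P * b')) := by
      have e : φ' (algebraMap k[X] E₁ P * b') = algebraMap k[X] E₂ c2 * (((x : E₂) - σ (x : E₂)) * s) := by
        rw [map_mul, AlgHom.commutes, hσx', hab, hφ', ← hs]
        linear_combination (-φ b' * s ^ 2) * hc2
      rw [e]
      exact isIntegral_algebraMap.mul ((x.2.sub hσx).mul hsi)
    exact (isIntegral_algHom_iff φ' hinjφ).1 h3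
  obtain ⟨S, hSs⟩ : ∃ S : integralClosure k[X] E₂, (S : E₂) = s := ⟨⟨s, hsi⟩, rfl⟩
  have hS2 : S ^ 2 = algebraMap k[X] (integralClosure k[X] E₂) P := by
    apply Subtype.ext
    have e : ((S ^ 2 : integralClosure k[X] E₂) : E₂) = (S : E₂) ^ 2 := rfl
    rw [e, hSs]
    exact hs
  obtain ⟨α, β, hy⟩ : ∃ α β : integralClosure k[X] E₁,
      algebraMap k[X] (integralClosure k[X] E₂) P * x = j α + j β * S := by
    refine ⟨algebraMap k[X] _ P * ⟨a, hai⟩, ⟨algebraMap k[X] E₁ P * b', hbi⟩, ?_⟩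
    apply Subtype.ext
    show algebraMap k[X] E₂ P * (x : E₂) = φ' (algebraMap k[X] E₁ P * a) + φ' (algebraMap k[X] E₁ P * b') * (S : E₂)
    rw [map_mul, map_mul, AlgHom.commutes, hab, hφ', hφ', hSs]
    ring
  set y := algebraMap k[X] (integralClosure k[X] E₂) P * x with hyd
  have hy1 : y ∈ w.asIdeal := Ideal.mul_mem_left _ _ hx1
  have hy2 : y ∉ w.asIdeal ^ 2 := by
    intro h
    rcases Ideal.IsPrime.mul_mem_pow w.asIdeal h with h3 | h3
    · exact hPw h3
    · exact hx2 h3
  have hSw : S ∉ w.asIdeal := by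
    intro h
    apply hPw
    rw [← hS2]
    exact Ideal.pow_mem_of_mem _ h 2 two_pos
  have hyy : (j α - j β * S) * y = j (α ^ 2 - β ^ 2 * algebraMap k[X] _ P) := by
    rw [hy, map_sub, map_mul, map_pow, map_pow, AlgHom.commutes, ← hS2]
    ring
  have h3 : α ^ 2 - β ^ 2 * algebraMap k[X] _ P ∈ w₁.asIdeal := by
    rw [hw1, ← hyy]
    exact Ideal.mul_mem_left _ _ hy1
  have h4 : (j α - j β * S) * y ∈ w.asIdeal ^ 2 := by
    rw [hyy]
    exact hB _ h3
  have h5 : j α - j β * S ∈ w.asIdeal := (Ideal.IsPrime.mul_mem_pow w.asIdeal h4).resolve_right hy2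
  have h6 : α ∈ w₁.asIdeal := by
    rw [hw1]
    obtain ⟨c, hc⟩ := two_unit (A := integralClosure k[X] E₂) h2
    have e : j α = algebraMap k[X] _ c * ((j α - j β * S) + y) := by
      rw [hy]
      linear_combination (-j α) * hc
    rw [e]
    exact Ideal.mul_mem_left _ _ (Ideal.add_mem _ h5 hy1)
  have h7 : j β * S ∈ w.asIdeal := by
    have e : j β * S = y - j α := by rw [hy]; ring
    rw [e]
    exact Ideal.sub_mem _ hy1 h6
  have h8 : β ∈ w₁.asIdeal := by
    rw [hw1]
    exact (hwp.mem_or_mem h7).resolve_right hSw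
  apply hy2
  rw [hy]
  exact Ideal.add_mem _ (hB _ h6) (Ideal.mul_mem_right _ _ (hB _ h8))

end main

theorem root_sq {E : Type} [Field E] (q : E[X]) (p : E) (hq : q = X ^ 2 - C p) :
    (AdjoinRoot.root q) ^ 2 = AdjoinRoot.of q p := by
  subst hq
  have h3 : AdjoinRoot.mk (X ^ 2 - C p) (X ^ 2 - C p) = 0 := AdjoinRoot.mk_self
  conv at h3 => 
    lhs
    rw [map_sub, map_pow, AdjoinRoot.mk_X, AdjoinRoot.mk_C]
  exact sub_eq_zero.1 h3

theorem map_q {E : Type} [Field E] (q : E[X]) (p : E) (hq : q = X ^ 2 - C p) :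
    q.map (algebraMap E (AdjoinRoot q)) = (X - C (AdjoinRoot.root q)) * (X - C (-AdjoinRoot.root q)) := by
  have e1 : algebraMap E (AdjoinRoot q) p = (AdjoinRoot.root q) ^ 2 := (root_sq q p hq).symm
  have e2 : q.map (algebraMap E (AdjoinRoot q)) = X ^ 2 - C (algebraMap E (AdjoinRoot q) p) := by
    conv_lhs => 
      rw [Polynomial.map]
    rw [eval₂_congr rfl rfl hq]
    simp
  rw [e2, e1, C_pow, C_neg]
  ring

theorem neg_root {E : Type} [Field E] (q : E[X]) (p : E) (hq : q = X ^ 2 - C p) :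
    eval₂ (algebraMap E (AdjoinRoot q)) (-AdjoinRoot.root q) q = 0 := by
  rw [eval₂_eq_eval_map, map_q q p hq]
  simp

/-- adjoining one square root -/
theorem step (k K E₁ : Type) [Field k] [Field K] [Algebra k[X] K] [IsFractionRing k[X] K]
    [Field E₁] [Algebra K E₁] [Algebra k[X] E₁] [IsScalarTower k[X] K E₁]
    [FiniteDimensional K E₁] [IsGalois K E₁] (h2 : (2 : k) ≠ 0) (P₀ P : k[X])
    (hP₀ : Irreducible P₀) (hP : ¬ P₀ ∣ P) (hu : UnrAt E₁ P₀) :
    ∃ (E : Type) (_ : Field E) (_ : Algebra K E) (_ : Algebra k[X] E) (_ : IsScalarTower k[X] K E)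
      (_ : FiniteDimensional K E) (_ : IsGalois K E), Nonempty (E₁ →ₐ[K] E) ∧ UnrAt E P₀ ∧
      IsSquare (algebraMap k[X] E P) := by
  by_cases hsq : IsSquare (algebraMap k[X] E₁ P)
  · exact ⟨E₁, inferInstance, inferInstance, inferInstance, inferInstance, inferInstance,
      inferInstance, ⟨AlgHom.id K E₁⟩, hu, hsq⟩
  have hP0 : P ≠ 0 := by
    rintro rfl
    exact hP (dvd_zero _)
  have hinj : Function.Injective (algebraMap k[X] E₁) := by
    rw [IsScalarTower.algebraMap_eq k[X] K E₁]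
    exact (algebraMap K E₁).injective.comp (IsFractionRing.injective k[X] K)
  set p : E₁ := algebraMap k[X] E₁ P with hp
  have hp0 : p ≠ 0 := by
    rwa [hp, Ne, map_eq_zero_iff _ hinj]
  have h2E : (2 : E₁) ≠ 0 := by
    obtain ⟨c, hc⟩ := two_unit (A := E₁) h2
    intro h
    rw [h, mul_zero] at hc
    exact zero_ne_one hc
  set q : E₁[X] := X ^ 2 - C p with hq
  have hqm : q.Monic := monic_X_pow_sub_C p two_ne_zero
  have hqd : q.natDegree = 2 := natDegree_X_pow_sub_C
  have hqi : Irreducible q := X_pow_sub_C_irreducible_of_prime Nat.prime_two fun b hb =>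
    hsq ⟨b, by rw [← hb, sq]⟩
  haveI : Fact (Irreducible q) := ⟨hqi⟩
  let E := AdjoinRoot q
  have hfin1 : FiniteDimensional E₁ E := hqm.finite_adjoinRoot
  have hfin : FiniteDimensional K E := FiniteDimensional.trans K E₁ E
  have hroot : (AdjoinRoot.root q) ^ 2 = AdjoinRoot.of q p := root_sq q p hq
  have hsplit : IsSplittingField E₁ E q := by
    refine ⟨?_, ?_⟩
    · have e : q.map (algebraMap E₁ E) = (X - C (AdjoinRoot.root q)) * (X - C (-AdjoinRoot.root q)) :=
        map_q q p hq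
      rw [e]
      exact (Splits.X_sub_C _).mul (Splits.X_sub_C _)
    · rw [eq_top_iff, ← AdjoinRoot.adjoinRoot_eq_top (f := q)]
      refine Algebra.adjoin_mono ?_
      intro x hx
      rw [Set.mem_singleton_iff] at hx
      rw [hx, mem_rootSet]
      refine ⟨hqi.ne_zero, ?_⟩
      rw [AdjoinRoot.aeval_eq]
      exact AdjoinRoot.mk_self
  have hsep : q.Separable := separable_X_pow_sub_C p (by exact_mod_cast h2E) hp0
  have hgal1 : IsGalois E₁ E := IsGalois.of_separable_splitting_field hsep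
  haveI : Algebra.IsSeparable E₁ E := hgal1.to_isSeparable
  haveI : Algebra.IsSeparable K E := Algebra.IsSeparable.trans K E₁ E
  obtain ⟨f, hfs, hf⟩ := IsGalois.is_separable_splitting_field K E₁
  have hqK : q = (X ^ 2 - C (algebraMap k[X] K P) : K[X]).map (algebraMap K E₁) := by
    rw [hq, Polynomial.map_sub, Polynomial.map_pow, map_X, map_C, hp, ← IsScalarTower.algebraMap_apply]
  haveI : IsSplittingField E₁ E ((X ^ 2 - C (algebraMap k[X] K P) : K[X]).map (algebraMap K E₁)) := by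
    rw [← hqK]
    exact hsplit
  have hmul : IsSplittingField K E (f * (X ^ 2 - C (algebraMap k[X] K P))) :=
    IsSplittingField.mul (K := E₁) E f _ hfs.ne_zero (monic_X_pow_sub_C _ two_ne_zero).ne_zero
  haveI : Normal K E := Normal.of_isSplittingField (f * (X ^ 2 - C (algebraMap k[X] K P)))
  have hgal : IsGalois K E := {}
  let σ : E →ₐ[E₁] E := AdjoinRoot.liftAlgHom q (Algebra.ofId E₁ E) (-AdjoinRoot.root q) (neg_root q p hq)
  refine ⟨E, inferInstance, inferInstance, inferInstance, inferInstance, hfin, hgal,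
    ⟨IsScalarTower.toAlgHom K E₁ E⟩, ?_, ⟨AdjoinRoot.root q, ?_⟩⟩
  · refine unr h2 hP₀ hP (IsScalarTower.toAlgHom K E₁ E) (σ.restrictScalars K) (fun a => σ.commutes a)
      (AdjoinRoot.root q) hroot ?_ ?_ hu
    · show σ (AdjoinRoot.root q) = _
      exact AdjoinRoot.liftAlgHom_root ..
    · intro x
      obtain ⟨u, rfl⟩ := AdjoinRoot.mk_surjective x
      have h3 : AdjoinRoot.mk q u = AdjoinRoot.mk q (u %ₘ q) := by
        rw [AdjoinRoot.mk_eq_mk]
        exact ⟨u /ₘ q, by rw [sub_eq_iff_eq_add']; exact (modByMonic_add_div u q).symm⟩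
      have h4 : (u %ₘ q).natDegree ≤ 1 := by
        have h5 := natDegree_modByMonic_lt u hqm (by
          intro h
          rw [h, natDegree_one] at hqd
          omega)
        omega
      obtain ⟨a, b, hab⟩ := exists_eq_X_add_C_of_natDegree_le_one h4
      refine ⟨b, a, ?_⟩
      rw [h3, hab, map_add, map_mul, AdjoinRoot.mk_C, AdjoinRoot.mk_C, AdjoinRoot.mk_X, add_comm]
      rfl
  · rw [← sq]
    exact hroot.symm

end Cyc

/-- **Piece CYC.** -/
theorem cyc : E_CYC := by
  intro k K E₀ _ _ _ _ _ _ _ _ _ _ _ P₀ T h2 hP₀ hu hT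
  induction T using Finset.induction_on with
  | empty =>
    exact ⟨E₀, inferInstance, inferInstance, inferInstance, inferInstance, inferInstance,
      inferInstance, ⟨AlgHom.id K E₀⟩, hu, fun P hP => absurd hP (Finset.notMem_empty P)⟩
  | insert P T hPT ih =>
    obtain ⟨E₁, _, _, _, _, _, _, ⟨φ⟩, hu1, hs1⟩ := ih fun Q hQ => hT Q (Finset.mem_insert_of_mem hQ)
    obtain ⟨E₂, _, _, _, _, _, _, ⟨ψ⟩, hu2, hs2⟩ :=
      Cyc.step k K E₁ h2 P₀ P hP₀ (hT P (Finset.mem_insert_self P T)) hu1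
    refine ⟨E₂, inferInstance, inferInstance, inferInstance, inferInstance, inferInstance,
      inferInstance, ⟨ψ.comp φ⟩, hu2, fun Q hQ => ?_⟩
    rcases Finset.mem_insert.1 hQ with rfl | hQ
    · exact hs2
    · have e : algebraMap k[X] E₂ Q = ψ (algebraMap k[X] E₁ Q) := by
        rw [IsScalarTower.algebraMap_apply k[X] K E₂, IsScalarTower.algebraMap_apply k[X] K E₁, ψ.commutes]
      rw [e]
      exact (hs1 Q hQ).map ψ

end Pool.Agent.Helper28H.FE
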