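import Pool.Agent.Helper28H.FE.Stm2

/-!
# Project FE, piece ASM: the assembly (port of `H30T/Asm.lean`, `Asm2.lean`, `Irr.lean`)

By helper85.
-/

set_option autoImplicit false
set_option linter.all false

open Polynomial IsDedekindDomain Matrix WithZero
open scoped Classical

namespace Pool.Agent.Helper28H.FE

open Pool.Agent.N352.PJ (Mt IsGen dsc Cg Crd res)
open Pool.Agent.N874.PP (Ov Ev Sq1 U0)
open Pool.Agent.N874.JM (LocF)
open Pool.Agent.N352.JB (SelTriv)

namespace ASM

/-! ## The polynomial is irreducible -/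

theorem sepK {g : ℕ} {k K : Type} [Field k] [Field K] [Algebra k[X] K] [IsFractionRing k[X] K]
    {f : k[X][X]} (hm : f.Monic) (hd : f.natDegree = 2 * g + 1) (h0 : dsc g f ≠ 0) :
    (f.map (algebraMap k[X] K)).Separable := by
  set F := f.map (algebraMap k[X] K) with hF
  have hdeg : F.natDegree = 2 * g + 1 := by rw [hF, hm.natDegree_map, hd]
  have h1 : F.resultant (derivative F) (2 * g + 1) (2 * g) ≠ 0 := by
    rw [hF, derivative_map, resultant_map_map]
    intro h
    rw [IsFractionRing.to_map_eq_zero_iff (R := k[X])] at h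
    exact h0 h
  have h2 : F.resultant (derivative F) ≠ 0 := by
    intro h3
    apply h1
    have hle : (derivative F).natDegree ≤ 2 * g := by
      have := natDegree_derivative_le F
      omega
    obtain ⟨j, hj⟩ := Nat.exists_eq_add_of_le hle
    have h5 := resultant_add_right_deg F (derivative F) (2 * g + 1) (derivative F).natDegree j
      le_rfl
    rw [← hj, ← hdeg, h3, mul_zero] at h5
    rw [← hdeg, h5]
  have h3 := mt resultant_eq_zero_iff.2 h2
  rw [not_and, not_not] at h3
  exact h3 (Or.inl (hm.map _).ne_zero)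

theorem irr_of_card {K : Type} [Field K] (p : K[X]) (hm : p.Monic) (hs : p.Separable)
    (h0 : p.natDegree ≠ 0) (hc : Nat.card p.Gal = (p.natDegree).factorial) : Irreducible p := by
  let N := p.SplittingField
  have hsp : (p.map (algebraMap K N)).Splits := SplittingField.splits p
  haveI : Fact ((p.map (algebraMap K N)).Splits) := ⟨hsp⟩
  haveI : Normal K N := Normal.of_isSplittingField p
  have hcardN := card_rootSet_eq_natDegree (K := N) hs hsp
  have hsurj : Function.Surjective (Gal.galActionHom p N) := by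
    have h1 := Gal.galActionHom_injective p N
    have h2 : Nat.card p.Gal = Nat.card (Equiv.Perm (p.rootSet N)) := by
      rw [hc, Nat.card_perm, Nat.card_eq_fintype_card, hcardN]
    exact ((Nat.bijective_iff_injective_and_card _).2 ⟨h1, h2⟩).2
  have hρ : ∀ π : Equiv.Perm (p.rootSet N), ∃ a : N ≃ₐ[K] N, ∀ x : p.rootSet N,
      ((π x : p.rootSet N) : N) = a x := by
    intro π
    obtain ⟨b, hb⟩ := hsurj π
    obtain ⟨a, ha⟩ := Gal.restrict_surjective p N b
    refine ⟨a, fun x => ?_⟩
    rw [← hb, ← ha]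
    exact Gal.galActionHom_restrict p N a x
  have hne : Nonempty (p.rootSet N) := by
    rw [← Fintype.card_pos_iff, hcardN]
    omega
  obtain ⟨⟨x, hx⟩⟩ := hne
  have hint : IsIntegral K x := Algebra.IsIntegral.isIntegral x
  have hne0 : minpoly K x ≠ 0 := minpoly.ne_zero hint
  have hdvd : minpoly K x ∣ p := minpoly.dvd K x (mem_rootSet.1 hx).2
  have hle : p.natDegree ≤ (minpoly K x).natDegree := by
    rw [← hcardN]
    have h1 : p.rootSet N ⊆ (minpoly K x).rootSet N := by
      intro y hy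
      obtain ⟨c, hc⟩ := hρ (Equiv.swap ⟨x, hx⟩ ⟨y, hy⟩)
      have h2 := hc ⟨x, hx⟩
      rw [Equiv.swap_apply_left] at h2
      rw [mem_rootSet]
      refine ⟨hne0, ?_⟩
      have h3 : y = (c : N →ₐ[K] N) x := h2
      rw [h3, aeval_algHom_apply, minpoly.aeval, map_zero]
    have h2 : (p.rootSet N).toFinset ⊆ ((minpoly K x).rootSet N).toFinset := by
      simpa using h1
    calc Fintype.card (p.rootSet N) = (p.rootSet N).toFinset.card := (Set.toFinset_card _).symm
      _ ≤ ((minpoly K x).rootSet N).toFinset.card := Finset.card_le_card h2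
      _ = ((minpoly K x).aroots N).toFinset.card := by
          congr 1
          ext z
          rw [Set.mem_toFinset, rootSet, Finset.mem_coe, Multiset.mem_toFinset]
      _ ≤ (minpoly K x).natDegree := by
          refine (Multiset.toFinset_card_le _).trans ?_
          refine (card_roots' _).trans ?_
          exact natDegree_map_le
  have heq : minpoly K x = p :=
    (eq_of_monic_of_dvd_of_natDegree_le (minpoly.monic hint) hm hdvd hle).symm
  rw [← heq]
  exact minpoly.irreducible hint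

theorem dsc_ne {g : ℕ} {k K : Type} [Field k] [Field K] [Algebra k[X] K] {f : k[X][X]} {P₀ : k[X]}
    (H : Hyp K g f P₀) : dsc g f ≠ 0 := by
  intro h
  apply H.ndvd
  rw [h]
  exact dvd_zero _

theorem irrK {g : ℕ} {k K : Type} [Field k] [Field K] [Algebra k[X] K] [IsFractionRing k[X] K]
    {f : k[X][X]} {P₀ : k[X]} (H : Hyp K g f P₀) : Irreducible (f.map (algebraMap k[X] K)) := by
  have hdeg : (f.map (algebraMap k[X] K)).natDegree = 2 * g + 1 := by
    rw [H.mon.natDegree_map, H.deg]
  exact irr_of_card _ (H.mon.map _) (sepK H.mon H.deg (dsc_ne H)) (by omega)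
    (by rw [hdeg]; exact H.gal)

/-! ## The field -/

theorem algebraMap_adj {k K : Type} [Field k] [Field K] [Algebra k[X] K] (F : K[X]) (c : k[X]) :
    algebraMap k[X] (AdjoinRoot F) c = AdjoinRoot.of F (algebraMap k[X] K c) := by
  rw [IsScalarTower.algebraMap_apply k[X] K (AdjoinRoot F)]
  rfl

theorem isGen_adj {k K : Type} [Field k] [Field K] [Algebra k[X] K] {g : ℕ} {f : k[X][X]}
    (hm : f.Monic) (hd : f.natDegree = 2 * g + 1)
    [hf : Fact (Irreducible (f.map (algebraMap k[X] K)))] :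
    IsGen g K f (AdjoinRoot.root (f.map (algebraMap k[X] K))) where
  mon := hm
  deg := hd
  root := by
    have h := AdjoinRoot.eval₂_root (f.map (algebraMap k[X] K))
    rw [eval₂_map] at h
    have e : (algebraMap k[X] (AdjoinRoot (f.map (algebraMap k[X] K)))) =
        (AdjoinRoot.of (f.map (algebraMap k[X] K))).comp (algebraMap k[X] K) := by
      refine RingHom.ext fun c => ?_
      exact algebraMap_adj _ c
    rw [e]
    exact h
  rank := by
    have hm' : (f.map (algebraMap k[X] K)).Monic := hm.map _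
    rw [(AdjoinRoot.powerBasis hm'.ne_zero).finrank, AdjoinRoot.powerBasis_dim,
      hm.natDegree_map, hd]
  gen := by
    intro x
    have hm' : (f.map (algebraMap k[X] K)).Monic := hm.map _
    have hd' : (f.map (algebraMap k[X] K)).natDegree = 2 * g + 1 := by rw [hm.natDegree_map, hd]
    obtain ⟨p, rfl⟩ := AdjoinRoot.mk_surjective x
    generalize (f.map (algebraMap k[X] K)) = F at hf hm' hd' p
    have h1 : AdjoinRoot.mk F p = AdjoinRoot.mk F (p %ₘ F) := by
      rw [AdjoinRoot.mk_eq_mk, modByMonic_eq_sub_mul_div p F]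
      rw [sub_sub_cancel]
      exact dvd_mul_right _ _
    have hlt : (p %ₘ F).natDegree < 2 * g + 1 := by
      rw [← hd']
      exact natDegree_modByMonic_lt p hm' (by
        intro h
        rw [h] at hd'
        simp at hd')
    refine ⟨fun i => (p %ₘ F).coeff i, ?_⟩
    rw [h1]
    conv_lhs => rw [(p %ₘ F).as_sum_range_C_mul_X_pow' hlt]
    rw [map_sum, Finset.sum_range]
    refine Finset.sum_congr rfl fun i _ => ?_
    rw [map_mul, map_pow, AdjoinRoot.mk_X, AdjoinRoot.mk_C, AdjoinRoot.algebraMap_eq]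

theorem sep_adj {K : Type} [Field K] {F : K[X]} (hs : F.Separable) [hf : Fact (Irreducible F)] :
    Algebra.IsSeparable K (AdjoinRoot F) := by
  have hint : IsIntegral K (AdjoinRoot.root F) := AdjoinRoot.isIntegral_root hf.out.ne_zero
  have hr : IsSeparable K (AdjoinRoot.root F) := by
    unfold IsSeparable
    refine hs.of_dvd (minpoly.dvd _ _ ?_)
    rw [aeval_def]
    exact AdjoinRoot.eval₂_root _
  haveI := (IntermediateField.isSeparable_adjoin_simple_iff_isSeparable K (AdjoinRoot F)).2 hr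
  have htop : IntermediateField.adjoin K {AdjoinRoot.root F} = ⊤ := by
    rw [← IntermediateField.toSubalgebra_inj, IntermediateField.top_toSubalgebra,
      IntermediateField.adjoin_simple_toSubalgebra_of_isAlgebraic hint.isAlgebraic]
    exact AdjoinRoot.adjoinRoot_eq_top
  rw [htop] at this
  exact AlgEquiv.Algebra.isSeparable (IntermediateField.topEquiv (F := K) (E := AdjoinRoot F))

/-! ## Translation -/

theorem irr_comp {R : Type} [CommRing R] {h : R[X]} (hirr : Irreducible h) (c : R) :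
    Irreducible (h.comp (X + C c)) := by
  let φ : R[X] ≃ₐ[R] R[X] := Polynomial.algEquivAevalXAddC c
  have e : φ h = h.comp (X + C c) := by
    change aeval (X + C c) h = _
    rw [Polynomial.comp, aeval_def]
    rfl
  rw [← e]
  exact (MulEquiv.irreducible_iff φ).2 hirr

theorem irr_back {R : Type} [CommRing R] {h : R[X]} (c : R)
    (hirr : Irreducible (h.comp (X + C c))) : Irreducible h := by
  have h1 := irr_comp hirr (-c)
  rw [comp_assoc] at h1
  have e : (X + C c).comp (X + C (-c)) = X := by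
    rw [add_comp, X_comp, C_comp, C_neg, neg_add_cancel_right]
  rwa [e, comp_X] at h1

theorem scale_comp {R : Type} [CommRing R] [IsDomain R] (p : R[X]) (s c : R) (hs : s ≠ 0) :
    (p.comp (X + C c)).scaleRoots s = (p.scaleRoots s).comp (X + C (s * c)) := by
  have key : ∀ q : R[X], (q.scaleRoots s).comp (C s * X) = C (s ^ q.natDegree) * q := by
    intro q
    ext i
    rw [comp_C_mul_X_coeff, coeff_scaleRoots, coeff_C_mul]
    by_cases hi : i ≤ q.natDegree
    · have e1 : s ^ q.natDegree = s ^ (q.natDegree - i) * s ^ i := by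
        rw [← pow_add, Nat.sub_add_cancel hi]
      rw [e1]
      ring
    · rw [coeff_eq_zero_of_natDegree_lt (not_le.1 hi)]
      ring
  have hinj : ∀ q q' : R[X], q.comp (C s * X) = q'.comp (C s * X) → q = q' := by
    intro q q' h
    ext i
    have h1 := congrArg (fun r => coeff r i) h
    simp only [comp_C_mul_X_coeff] at h1
    exact mul_right_cancel₀ (pow_ne_zero _ hs) h1
  apply hinj
  rw [key, comp_assoc]
  have e1 : (X + C (s * c)).comp (C s * X) = (C s * X : R[X]).comp (X + C c) := by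
    rw [add_comp, X_comp, C_comp, mul_comp, C_comp, X_comp, C_mul]
    ring
  rw [e1, ← comp_assoc, key, mul_comp, C_comp, natDegree_comp, natDegree_X_add_C, mul_one]

theorem map_comp_C {R R' : Type} [CommRing R] [CommRing R'] (φ : R →+* R') (p : R[X]) (c : R) :
    (p.comp (X + C c)).map φ = (p.map φ).comp (X + C (φ c)) := by
  rw [Polynomial.map_comp, Polynomial.map_add, map_X, map_C]

/-- The translated generator. -/
theorem gen_comp {g : ℕ} {k K L : Type} [Field k] [Field K] [Algebra k[X] K] [Field L]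
    [Algebra K L] [Algebra k[X] L] [IsScalarTower k[X] K L] {f : k[X][X]} {θ : L}
    (hG : IsGen g K f θ) (c : k[X]) :
    IsGen g K (f.comp (X + C c)) (θ - algebraMap k[X] L c) where
  mon := hG.mon.comp_X_add_C c
  deg := by rw [natDegree_comp, natDegree_X_add_C, mul_one, hG.deg]
  root := by
    rw [eval₂_comp, eval₂_add, eval₂_X, eval₂_C, sub_add_cancel]
    exact hG.root
  rank := hG.rank
  gen := by
    intro x
    obtain ⟨b, rfl⟩ := hG.gen x
    set p : K[X] := ∑ i : Fin (2 * g + 1), C (b i) * X ^ (i : ℕ) with hp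
    have hpd : p.natDegree ≤ 2 * g := by
      refine natDegree_sum_le_of_forall_le _ _ fun i _ => ?_
      refine (natDegree_C_mul_X_pow_le _ _).trans ?_
      have := i.isLt
      omega
    have h1 : aeval θ p = ∑ i, algebraMap K L (b i) * θ ^ (i : ℕ) := by
      rw [hp, map_sum]
      refine Finset.sum_congr rfl fun i _ => ?_
      rw [map_mul, aeval_C, map_pow, aeval_X]
    set q : K[X] := p.comp (X + C (algebraMap k[X] K c)) with hq
    have hqd : q.natDegree < 2 * g + 1 := by
      rw [hq, natDegree_comp, natDegree_X_add_C, mul_one]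
      omega
    have h2 : aeval (θ - algebraMap k[X] L c) q = aeval θ p := by
      rw [hq, aeval_comp, map_add, aeval_X, aeval_C, ← IsScalarTower.algebraMap_apply k[X] K L,
        sub_add_cancel]
    refine ⟨fun i => q.coeff i, ?_⟩
    rw [← h1, ← h2, aeval_eq_sum_range' hqd, Finset.sum_range]
    refine Finset.sum_congr rfl fun i _ => ?_
    rw [Algebra.smul_def]

/-- Chinese remainder theorem. -/
theorem crt {k : Type} [Field k] (S : Finset k[X]) (e : k[X] → k[X])
    (hS : ∀ Q ∈ S, Q.Monic ∧ Irreducible Q) : ∃ c : k[X], ∀ Q ∈ S, Q ∣ c - e Q := by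
  obtain ⟨r, hr⟩ := Ideal.exists_forall_sub_mem_ideal
    (I := fun Q : S => Ideal.span {(Q : k[X])}) (fun P Q hPQ => by
      change IsCoprime (Ideal.span {(P : k[X])}) (Ideal.span {(Q : k[X])})
      rw [Ideal.isCoprime_span_singleton_iff]
      rw [(hS P P.2).2.coprime_iff_not_dvd]
      intro h
      apply hPQ
      apply Subtype.ext
      have h1 := (hS P P.2).2.associated_of_dvd (hS Q Q.2).2 h
      exact eq_of_monic_of_associated (hS P P.2).1 (hS Q Q.2).1 h1) (fun Q => e Q)
  exact ⟨r, fun Q hQ => Ideal.mem_span_singleton.1 (hr ⟨Q, hQ⟩)⟩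

theorem goodU {g : ℕ} {k : Type} [Field k] {f : k[X][X]} {S : Finset k[X]} {e : k[X] → k[X]}
    {h : k[X] → k[X][X]} {c : k[X]}
    (hS : ∀ Q ∈ S, Q.Monic ∧ Irreducible Q ∧ (h Q).Monic ∧ (h Q).natDegree = 2 * g ∧
      Irreducible ((h Q).map (Ideal.Quotient.mk (Ideal.span {Q}))) ∧
      Cg Q f ((X - C (e Q)) * h Q)) (hc : ∀ Q ∈ S, Q ∣ c - e Q) :
    GoodU g S (fun Q => (h Q).comp (X + C c)) ∧
    ∀ Q ∈ S, Cg Q (f.comp (X + C c)) (X * (h Q).comp (X + C c)) := by
  refine ⟨fun Q hQ => ?_, fun Q hQ => ?_⟩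
  · obtain ⟨a1, a2, a3, a4, a5, a6⟩ := hS Q hQ
    refine ⟨a1, a2, a3.comp_X_add_C c, ?_, ?_⟩
    · rw [natDegree_comp, natDegree_X_add_C, mul_one, a4]
    · rw [map_comp_C]
      exact irr_comp a5 _
  · obtain ⟨a1, a2, a3, a4, a5, a6⟩ := hS Q hQ
    have h1 : f.map (Ideal.Quotient.mk (Ideal.span {Q})) =
        ((X - C (e Q)) * h Q).map (Ideal.Quotient.mk (Ideal.span {Q})) := by
      ext j
      rw [coeff_map, coeff_map]
      exact Ideal.Quotient.eq.2 (Ideal.mem_span_singleton.2 (a6 j))
    have h2 : Ideal.Quotient.mk (Ideal.span {Q}) c = Ideal.Quotient.mk (Ideal.span {Q}) (e Q) :=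
      Ideal.Quotient.eq.2 (Ideal.mem_span_singleton.2 (hc Q hQ))
    have h3 : (f.comp (X + C c)).map (Ideal.Quotient.mk (Ideal.span {Q})) =
        (X * (h Q).comp (X + C c)).map (Ideal.Quotient.mk (Ideal.span {Q})) := by
      rw [map_comp_C, h1, Polynomial.map_mul, Polynomial.map_mul, mul_comp, map_comp_C]
      congr 1
      rw [Polynomial.map_sub, map_X, map_C, sub_comp, X_comp, C_comp, h2, add_sub_cancel_right]
    intro j
    have h4 := congrArg (fun p => coeff p j) h3
    simp only [coeff_map] at h4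
    exact Ideal.mem_span_singleton.1 (Ideal.Quotient.eq.1 h4)

/-! ## The set of bad primes -/

/-- The constant and the bad primes. -/
noncomputable def bad {k : Type} [Field k] (a : k) (d : k[X]) : Finset k[X] :=
  insert (C a) ((UniqueFactorizationMonoid.normalizedFactors d).toFinset.filter
    fun P => P ^ 2 ∣ d)

theorem mem_bad {k : Type} [Field k] {a : k} {d : k[X]} (hd : d ≠ 0) {P : k[X]} (hm : P.Monic)
    (hP : Irreducible P) (h : P ^ 2 ∣ d) : P ∈ bad a d := by
  rw [bad, Finset.mem_insert, Finset.mem_filter, Multiset.mem_toFinset,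
    UniqueFactorizationMonoid.mem_normalizedFactors_iff' hd]
  exact Or.inr ⟨⟨hP, hm.normalize_eq_self, (dvd_pow_self P two_ne_zero).trans h⟩, h⟩

theorem not_dvd_bad {k : Type} [Field k] {a : k} (ha : a ≠ 0) {d P₀ : k[X]} (hd : d ≠ 0)
    (hP₀ : Irreducible P₀) (hn : ¬ P₀ ^ 2 ∣ d) : ∀ P ∈ bad a d, ¬ P₀ ∣ P := by
  intro P hP h
  rw [bad, Finset.mem_insert, Finset.mem_filter, Multiset.mem_toFinset] at hP
  rcases hP with rfl | ⟨h1, h2⟩
  · have hu : IsUnit (C a) := isUnit_C.2 (isUnit_iff_ne_zero.2 ha)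
    exact hP₀.not_isUnit (isUnit_of_dvd_unit h hu)
  · have h3 := UniqueFactorizationMonoid.irreducible_of_normalized_factor P h1
    have h4 := hP₀.associated_of_dvd h3 h
    exact hn ((pow_dvd_pow_of_dvd h4.dvd 2).trans h2)

theorem isSquare_prod {k K : Type} [Field k] [Field K] [Algebra k[X] K] {E : Type} [Field E]
    [Algebra K E] (J : Finset k[X])
    (h : ∀ Q ∈ J, IsSquare (algebraMap K E (algebraMap k[X] K Q))) :
    IsSquare (algebraMap K E (algebraMap k[X] K (∏ Q ∈ J, Q))) := by
  rw [map_prod, map_prod]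
  induction J using Finset.induction_on with
  | empty => exact ⟨1, by simp⟩
  | insert a T ha ih =>
    rw [Finset.prod_insert ha]
    exact (h a (Finset.mem_insert_self _ _)).mul
      (ih fun Q hQ => h Q (Finset.mem_insert_of_mem hQ))

end ASM

open ASM in
/-- The assembly for a given field `L` and ring `O`. -/
theorem asm_mid (hcore : C_CORE) (hselm : C_SELM) (hsel : E_SELECT) (hcyc : E_CYC) (hspl : E_SPL)
    (hqr : E_QR) (hsql : D_SQL) (htrl : D_TRL) (hdsc : D_DSC) (g : ℕ) (k K L O : Type) [Field k]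
    [Finite k] [Field K] [Algebra k[X] K] [IsFractionRing k[X] K] [Field L] [Algebra K L]
    [Algebra k[X] L] [IsScalarTower k[X] K L] [FiniteDimensional K L] [Algebra.IsSeparable K L]
    [CommRing O] [IsDedekindDomain O] [Algebra O L] [IsFractionRing O L] [Algebra k[X] O]
    [IsScalarTower k[X] O L] [IsIntegralClosure O k[X] L] [Module.Finite k[X] O] (f : k[X][X])
    (θ : L) (P₀ : k[X]) (R₁ : Type) [CommRing R₁]
    [IsDedekindDomain R₁] [Algebra R₁ K] [IsFractionRing R₁ K] (v₁ : HeightOneSpectrum R₁)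
    (E₀ : Type) [Field E₀] [Algebra K E₀] [Algebra k[X] E₀] [IsScalarTower k[X] K E₀]
    [FiniteDimensional K E₀] [IsGalois K E₀] (B : ℕ) (H : Hyp K g f P₀) (hG : IsGen g K f θ)
    (hinf : IsInf k (K := K) v₁) (hunr : UnrAt E₀ P₀) :
    ∃ J : Finset k[X], (∀ Q ∈ J, Q.Monic ∧ Irreducible Q ∧ B < Q.natDegree ∧ Even Q.natDegree ∧
      SplitsIn E₀ Q) ∧
    (∀ (P : k[X]) (v : HeightOneSpectrum k[X]), Irreducible P → v.asIdeal = Ideal.span {P} →
      P ^ 2 ∣ dsc g f →
      IsSquare (algebraMap K (v.adicCompletion K) (algebraMap k[X] K (∏ Q ∈ J, Q)))) ∧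
    ∀ δ : k[X], AdmD g K v₁ f δ →
    ∀ (M R : Type) [Field M] [Algebra K M] [Algebra k[X] M] [IsScalarTower k[X] K M]
      [FiniteDimensional K M] [CommRing R] [IsDedekindDomain R]
      [Algebra R M] [IsFractionRing R M] [Algebra k[X] R] [IsScalarTower k[X] R M]
      [IsIntegralClosure R k[X] M], AdmM g K M v₁ f (∏ Q ∈ J, Q) →
      Irreducible ((f.scaleRoots ((∏ Q ∈ J, Q) * δ)).map (algebraMap k[X] M)) ∧
      SelTriv (Plc K R v₁) ((f.scaleRoots ((∏ Q ∈ J, Q) * δ)).map (algebraMap k[X] M)) := by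
  have hg := H.one
  have h2 := H.two
  have hm := H.mon
  have hd := H.deg
  have hd0 : dsc g f ≠ 0 := dsc_ne H
  have hchar : ringChar k ≠ 2 := by
    intro h
    apply h2
    have h1 : ((ringChar k : ℕ) : k) = 0 := ringChar.Nat.cast_ringChar
    rw [h] at h1
    exact_mod_cast h1
  obtain ⟨a, ha⟩ := FiniteField.exists_nonsquare hchar
  have ha0 : a ≠ 0 := by
    rintro rfl
    exact ha ⟨0, by simp⟩
  obtain ⟨E, iF, iA, iA', iT, iFD, iG, ⟨κ⟩, hunrE, hsqE⟩ := hcyc k K E₀ P₀ (bad a (dsc g f)) h2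
    H.prime hunr (not_dvd_bad ha0 hd0 H.prime H.ndvd)
  obtain ⟨S, e, h, hS, hstr⟩ := hsel g k K L E O f P₀ θ H hG hunrE (max B (dsc g f).natDegree)
  obtain ⟨c, hc⟩ := crt S e fun Q hQ => ⟨(hS Q hQ).1, (hS Q hQ).2.1⟩
  have hG' : IsGen g K (f.comp (X + C c)) (θ - algebraMap k[X] L c) := gen_comp hG c
  have hdc : dsc g (f.comp (X + C c)) = dsc g f := (hdsc g k f hm hd).1 c
  obtain ⟨hGU, hCg⟩ := goodU (g := g) (f := f) (S := S) (e := e) (h := h) (c := c)
    (fun Q hQ => by
      obtain ⟨a1, a2, a3, a4, a5, a6, a7, a8⟩ := hS Q hQ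
      exact ⟨a1, a2, a4, a5, a6, a7⟩) hc
  obtain ⟨J, hJS, hJ⟩ := hcore g k K L O (f.comp (X + C c)) (θ - algebraMap k[X] L c) S
    (fun Q => (h Q).comp (X + C c)) R₁ v₁ hg h2 hG' hGU hCg hinf (by
      intro α hα hN hev hsq
      refine hstr α hα hN (fun 𝔓 h𝔓 => hev 𝔓 fun P hP hPO hbad => ?_) fun Q hQ 𝔓 hQO hv => ?_
      · rw [hdc] at hbad
        apply h𝔓
        obtain ⟨y, hy⟩ := (dvd_pow_self P two_ne_zero).trans hbad
        change algebraMap k[X] O (dsc g f) ∈ 𝔓.asIdeal
        rw [hy, map_mul]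
        exact Ideal.mul_mem_right _ _ hPO
      · refine hsq Q hQ 𝔓 hQO ?_
        have h1 : 𝔓.valuation L (algebraMap k[X] L (c - e Q)) < 1 := by
          rw [IsScalarTower.algebraMap_apply k[X] O L, HeightOneSpectrum.valuation_lt_one_iff_mem]
          obtain ⟨y, hy⟩ := hc Q hQ
          rw [hy, map_mul]
          exact Ideal.mul_mem_right _ _ hQO
        have e1 : θ - algebraMap k[X] L c = (θ - algebraMap k[X] L (e Q)) -
            algebraMap k[X] L (c - e Q) := by
          rw [map_sub]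
          ring
        rw [e1, Valuation.map_sub_eq_of_lt_left _ (by rw [hv]; exact h1), hv])
  -- the primes
  have hQ2 : ∀ Q ∈ J, ∀ P ∈ bad a (dsc g f), ∃ z : k[X], Q ∣ P - z ^ 2 := fun Q hQ P hP => by
    obtain ⟨a1, a2, a3, a4, a5, a6, a7, a8⟩ := hS Q (hJS hQ)
    exact (hspl k K E Q a2 a8).2 P (hsqE P hP)
  have heven : ∀ Q ∈ J, Even Q.natDegree := fun Q hQ => by
    obtain ⟨a1, a2, -⟩ := hS Q (hJS hQ)
    exact (hqr k h2 Q a1 a2).2 a ha (hQ2 Q hQ (C a) (Finset.mem_insert_self _ _))
  have hmonD : (∏ Q ∈ J, Q).Monic := monic_prod_of_monic _ _ fun Q hQ => (hS Q (hJS hQ)).1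
  have hD0 : (∏ Q ∈ J, Q) ≠ 0 := hmonD.ne_zero
  have hinfD : IsSquare (algebraMap K (v₁.adicCompletion K) (algebraMap k[X] K (∏ Q ∈ J, Q))) := by
    refine (hsql k K h2).1 R₁ v₁ hinf _ hmonD ?_
    rw [natDegree_prod_of_monic _ _ fun Q hQ => (hS Q (hJS hQ)).1]
    exact Finset.even_sum _ fun Q hQ => heven Q hQ
  have hbadD : ∀ (P : k[X]) (v : HeightOneSpectrum k[X]), Irreducible P →
      v.asIdeal = Ideal.span {P} → P ^ 2 ∣ dsc g f →
      IsSquare (algebraMap K (v.adicCompletion K) (algebraMap k[X] K (∏ Q ∈ J, Q))) := by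
    intro P v hP hv hPd
    refine isSquare_prod J fun Q hQ => ?_
    obtain ⟨a1, a2, a3, -⟩ := hS Q (hJS hQ)
    have hlt : (dsc g f).natDegree < Q.natDegree := (le_max_right _ _).trans_lt a3
    have hassoc : Associated P (normalize P) := associated_normalize P
    have hm' : (normalize P).Monic := monic_normalize hP.ne_zero
    have hP' : Irreducible (normalize P) := (hassoc.irreducible_iff).1 hP
    have hPd' : (normalize P) ^ 2 ∣ dsc g f := (pow_dvd_pow_of_dvd hassoc.symm.dvd 2).trans hPd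
    have hdeg : ∀ P' : k[X], P' ∣ dsc g f → P'.natDegree < Q.natDegree := fun P' h' =>
      (natDegree_le_of_dvd h' hd0).trans_lt hlt
    have hne : normalize P ≠ Q := by
      intro h'
      have := hdeg (normalize P) ((dvd_pow_self _ two_ne_zero).trans hPd')
      rw [h'] at this
      exact lt_irrefl _ this
    obtain ⟨z, hz⟩ := (hqr k h2 Q a1 a2).1 (normalize P) hm' hP' hne (heven Q hQ)
      (hQ2 Q hQ _ (mem_bad hd0 hm' hP' hPd'))
    refine (hsql k K h2).2 P Q z v hP hv ?_ (hassoc.dvd.trans hz)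
    intro h'
    have h3 := hP.associated_of_dvd a2 h'
    have h4 := hdeg P ((dvd_pow_self _ two_ne_zero).trans hPd)
    rw [natDegree_eq_of_degree_eq (degree_eq_degree_of_associated h3)] at h4
    exact lt_irrefl _ h4
  refine ⟨J, fun Q hQ => ?_, hbadD, ?_⟩
  · obtain ⟨a1, a2, a3, a4, a5, a6, a7, a8⟩ := hS Q (hJS hQ)
    exact ⟨a1, a2, (le_max_left _ _).trans_lt a3, heven Q hQ, (hspl k K E Q a2 a8).1 E₀ κ⟩
  · intro δ hδ M R _ _ _ _ _ _ _ _ _ _ _ _ hM
    have hirrP : ∀ P : k[X], Irreducible (f.map (Ideal.Quotient.mk (Ideal.span {P}))) →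
        Irreducible ((f.comp (X + C c)).map (Ideal.Quotient.mk (Ideal.span {P}))) := by
      intro P hP
      rw [map_comp_C]
      exact irr_comp hP _
    obtain ⟨h3, h4⟩ := hselm g k K L O (f.comp (X + C c)) (θ - algebraMap k[X] L c) S J
      (fun Q => (h Q).comp (X + C c)) R₁ v₁ hg h2 hG' hGU hCg hJS hJ
      (fun P v hP hv hPd => hbadD P v hP hv (by rwa [hdc] at hPd)) hinfD δ
      { ne := hδ.ne
        irr := fun P hP hPδ => hirrP P (hδ.irr P hP hPδ)
        bad := fun P v hP hv hPd => hδ.bad P v hP hv (by rwa [hdc] at hPd)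
        inf := hδ.inf } M R
      { gal := hM.gal
        deg := hM.deg
        bad := fun P hP hPd => hM.bad P hP (by rwa [hdc] at hPd)
        spl := hM.spl
        ram := fun P hP hPu => hirrP P (hM.ram P hP hPu)
        inf := hM.inf }
    have hDδ : (∏ Q ∈ J, Q) * δ ≠ 0 := mul_ne_zero hD0 hδ.ne
    rw [scale_comp _ _ _ hDδ, map_comp_C] at h3 h4
    refine ⟨irr_back _ h3, htrl M _ _ _ (((monic_scaleRoots_iff _).2 hm).map _) h4⟩

open ASM in
/-- Piece ASM. -/
theorem asm (hcore : C_CORE) (hselm : C_SELM) (hsel : E_SELECT) (hcyc : E_CYC) (hspl : E_SPL)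
    (hqr : E_QR) (hsql : D_SQL) (htrl : D_TRL) (hdsc : D_DSC) : C_MAIN := by
  intro g k K _ _ _ _ _ f P₀ R₁ _ _ _ _ v₁ E₀ _ _ _ _ _ _ B H hinf hunr
  haveI hfact : Fact (Irreducible (f.map (algebraMap k[X] K))) := ⟨irrK H⟩
  have hG := isGen_adj (K := K) H.mon H.deg
  haveI : FiniteDimensional K (AdjoinRoot (f.map (algebraMap k[X] K))) :=
    (H.mon.map _).finite_adjoinRoot
  haveI : Algebra.IsSeparable K (AdjoinRoot (f.map (algebraMap k[X] K))) :=
    sep_adj (sepK H.mon H.deg (dsc_ne H))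
  haveI : IsDedekindDomain (integralClosure k[X] (AdjoinRoot (f.map (algebraMap k[X] K)))) :=
    integralClosure.isDedekindDomain k[X] K _
  haveI : IsFractionRing (integralClosure k[X] (AdjoinRoot (f.map (algebraMap k[X] K))))
      (AdjoinRoot (f.map (algebraMap k[X] K))) :=
    integralClosure.isFractionRing_of_finite_extension K _
  haveI : Module.Finite k[X] (integralClosure k[X] (AdjoinRoot (f.map (algebraMap k[X] K)))) :=
    IsIntegralClosure.finite k[X] K (AdjoinRoot (f.map (algebraMap k[X] K))) _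
  exact asm_mid hcore hselm hsel hcyc hspl hqr hsql htrl hdsc g k K
    (AdjoinRoot (f.map (algebraMap k[X] K)))
    (integralClosure k[X] (AdjoinRoot (f.map (algebraMap k[X] K)))) f
    (AdjoinRoot.root (f.map (algebraMap k[X] K))) P₀ R₁ v₁ E₀ B H hG hinf hunr

end Pool.Agent.Helper28H.FE
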