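import Pool.Agent.Helper28H.FE.Stm
import Pool.Agent.TH115.TC.Compl
import Pool.Agent.N874.TW.Gen

/-!
# Project FE, piece BACK (helper30): the completion at a completely split prime
-/

set_option autoImplicit false
set_option linter.all false

open Polynomial IsDedekindDomain Module WithZero Filter Topology MonoidWithZeroHom
open scoped Classical

namespace Pool.Agent.Helper28H.FE.Back

open Pool.Agent.TH115.GD (exists_compl_map)

section nh

variable {A K : Type} [CommRing A] [IsDedekindDomain A] [Field K] [Algebra A K] [IsFractionRing A K]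
  (v : HeightOneSpectrum A)

theorem mem_nh {s : Set (v.adicCompletion K)} : s ∈ 𝓝 (0 : v.adicCompletion K) ↔
    ∃ n : ℕ, ∀ x : v.adicCompletion K, Valued.v x ≤ exp (-(n : ℤ)) → x ∈ s := by
  constructor
  · intro hs
    obtain ⟨γ, hγ⟩ := Valued.mem_nhds_zero.1 hs
    have hg : ValueGroup₀.embedding γ.1 ≠ 0 := by
      rw [Ne, map_eq_zero]
      exact γ.ne_zero
    obtain ⟨n, hn, -⟩ := exists_exp_neg_natCast_lt_and_lt hg hg
    refine ⟨n, fun x hx => hγ ?_⟩
    show (Valued.v (R := v.adicCompletion K)).restrict x < γ
    rw [Valuation.restrict_lt_iff_lt_embedding]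
    exact lt_of_le_of_lt hx hn
  · rintro ⟨n, hn⟩
    obtain ⟨π, hπ⟩ := v.valuation_exists_uniformizer K
    have hπ0 : π ≠ 0 := by
      rintro rfl
      rw [map_zero] at hπ
      exact exp_ne_zero hπ.symm
    have hv : Valued.v (algebraMap K (v.adicCompletion K) (π ^ n)) = exp (-(n : ℤ)) := by
      have h1 := HeightOneSpectrum.valuedAdicCompletion_eq_valuation' (K := K) v (π ^ n)
      refine h1.trans ?_
      rw [map_pow, hπ, ← exp_nsmul]
      congr 1
      simp
    have hne : (Valued.v (R := v.adicCompletion K)).restrict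
        (algebraMap K (v.adicCompletion K) (π ^ n)) ≠ 0 := by
      rw [Valuation.ne_zero_iff]
      intro h
      rw [h, map_zero] at hv
      exact exp_ne_zero hv.symm
    rw [Valued.mem_nhds_zero]
    refine ⟨Units.mk0 _ hne, fun x hx => hn x ?_⟩
    have hx' : Valued.v x < Valued.v (algebraMap K (v.adicCompletion K) (π ^ n)) :=
      (Valuation.restrict_lt_iff _).1 hx
    rw [hv] at hx'
    exact hx'.le

end nh

section back

variable {F M R R' : Type} [Field F] [Field M] [Algebra F M] [CommRing R] [IsDedekindDomain R]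
  [Algebra R F] [IsFractionRing R F] [CommRing R'] [IsDedekindDomain R'] [Algebra R' M]
  [IsFractionRing R' M]

theorem val_eq_iso (v : HeightOneSpectrum R) (w : HeightOneSpectrum R')
    (hv : ∀ x : F, w.valuation M (algebraMap F M x) = v.valuation F x)
    (ι : v.adicCompletion F →+* w.adicCompletion M)
    (h1 : ∀ x : F, ι (algebraMap F (v.adicCompletion F) x) =
      algebraMap M (w.adicCompletion M) (algebraMap F M x))
    (h2 : ∀ y, Valued.v y ≤ 1 → Valued.v (ι y) ≤ 1) (y : v.adicCompletion F) :
    Valued.v (ι y) = Valued.v y := by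
  by_cases hy : y = 0
  · rw [hy, map_zero, map_zero, map_zero]
  have hvy : Valued.v y ≠ 0 := (Valuation.ne_zero_iff _).2 hy
  obtain ⟨x, hx⟩ := v.valuation_surjective (K := F) (Valued.v y)
  have hx0 : x ≠ 0 := by
    rintro rfl
    rw [map_zero] at hx
    exact hvy hx.symm
  have hvx : Valued.v (algebraMap F (v.adicCompletion F) x) = Valued.v y := by
    rw [← hx]
    exact HeightOneSpectrum.valuedAdicCompletion_eq_valuation' (K := F) v x
  have hvx' : Valued.v (ι (algebraMap F (v.adicCompletion F) x)) = Valued.v y := by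
    rw [h1, ← hx, ← hv]
    exact HeightOneSpectrum.valuedAdicCompletion_eq_valuation' (K := M) w (algebraMap F M x)
  have a1 : Valued.v (ι (y / algebraMap F (v.adicCompletion F) x)) ≤ 1 := by
    apply h2
    rw [map_div₀, hvx, div_self hvy]
  have a2 : Valued.v (ι (algebraMap F (v.adicCompletion F) x / y)) ≤ 1 := by
    apply h2
    rw [map_div₀, hvx, div_self hvy]
  rw [map_div₀, map_div₀, hvx'] at a1 a2
  have hiy : Valued.v (ι y) ≠ 0 := by
    rw [Valuation.ne_zero_iff, Ne, map_eq_zero]
    exact hy
  refine le_antisymm ?_ ?_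
  · rwa [div_le_one₀ (zero_lt_iff.2 hvy)] at a1
  · rwa [div_le_one₀ (zero_lt_iff.2 hiy)] at a2

/-- At a completely split prime there is a map of the completions in the other direction. -/
theorem exists_back (v : HeightOneSpectrum R) (w : HeightOneSpectrum R')
    (hv : ∀ x : F, w.valuation M (algebraMap F M x) = v.valuation F x)
    (hd : ∀ s : M, s ≠ 0 → ∃ s₀ : F, w.valuation M (s - algebraMap F M s₀) < w.valuation M s) :
    ∃ j : w.adicCompletion M →+* v.adicCompletion F,
      ∀ x : F, j (algebraMap M (w.adicCompletion M) (algebraMap F M x)) =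
        algebraMap F (v.adicCompletion F) x := by
  obtain ⟨ι, h1, h2, -⟩ := exists_compl_map v w (algebraMap F M) (fun x hx => by rwa [hv])
    (fun x hx => by rwa [hv])
  have hiso := val_eq_iso v w hv ι h1 h2
  have hnh : 𝓝 (0 : v.adicCompletion F) = comap ι (𝓝 (0 : w.adicCompletion M)) := by
    ext s
    rw [mem_comap, mem_nh]
    constructor
    · rintro ⟨n, hn⟩
      refine ⟨{y | Valued.v y ≤ exp (-(n : ℤ))}, (mem_nh w).2 ⟨n, fun x hx => hx⟩, fun x hx => ?_⟩
      apply hn
      rw [← hiso]
      exact hx
    · rintro ⟨t, ht, hts⟩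
      obtain ⟨n, hn⟩ := (mem_nh w).1 ht
      refine ⟨n, fun x hx => hts ?_⟩
      apply hn
      rw [hiso]
      exact hx
  have hind : IsInducing ι.toAddMonoidHom := by
    rw [IsTopologicalAddGroup.isInducing_iff_nhds_zero]
    exact hnh
  have hui : IsUniformInducing ι.toAddMonoidHom := AddMonoidHom.isUniformInducing_of_isInducing hind
  have hcl : IsClosed (Set.range ι.toAddMonoidHom) :=
    (hui.isComplete_range).isClosed
  have hsurj : Function.Surjective ι := by
    intro z
    have hz : z ∈ closure (Set.range ι.toAddMonoidHom) := by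
      rw [mem_closure_iff_nhds]
      intro t ht
      have ht' : {y : w.adicCompletion M | z - y ∈ (fun u => z - u) '' t} ∈ 𝓝 z := by
        refine Filter.mem_of_superset ht fun y hy => ⟨y, hy, rfl⟩
      have ht0 : {u : w.adicCompletion M | z - u ∈ t} ∈ 𝓝 (0 : w.adicCompletion M) := by
        have hc : Continuous fun u : w.adicCompletion M => z - u := by fun_prop
        have := hc.tendsto 0
        rw [sub_zero] at this
        exact this ht
      obtain ⟨n, hn⟩ := (mem_nh w).1 ht0
      -- approximation by an element of `M`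
      obtain ⟨m, hm⟩ : ∃ m : M, Valued.v (z - algebraMap M (w.adicCompletion M) m) ≤
          exp (-(n : ℤ)) := by
        have hs : {y : w.adicCompletion M | Valued.v (z - y) ≤ exp (-(n : ℤ))} ∈ 𝓝 z := by
          have hc : Continuous fun u : w.adicCompletion M => z - u := by fun_prop
          have := hc.tendsto z
          rw [sub_self] at this
          exact this ((mem_nh w).2 ⟨n, fun x hx => hx⟩)
        obtain ⟨y, hy, m, rfl⟩ := mem_closure_iff_nhds.1
          (HeightOneSpectrum.denseRange_algebraMap (K := M) (v := w) z) _ hs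
        exact ⟨m, hy⟩
      obtain ⟨x, hx⟩ := Pool.Agent.N874.TW.dens2 (K := F) (F := M) R' w hd m
        (ε := exp (-(n : ℤ))) exp_ne_zero
      refine ⟨algebraMap M (w.adicCompletion M) (algebraMap F M x), ?_,
        ⟨algebraMap F (v.adicCompletion F) x, h1 x⟩⟩
      have e : algebraMap M (w.adicCompletion M) (algebraMap F M x) =
          z - (z - algebraMap M (w.adicCompletion M) (algebraMap F M x)) := by ring
      rw [e]
      apply hn
      have e2 : z - algebraMap M (w.adicCompletion M) (algebraMap F M x) =
          (z - algebraMap M (w.adicCompletion M) m) +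
            algebraMap M (w.adicCompletion M) (m - algebraMap F M x) := by
        rw [map_sub]
        ring
      rw [e2]
      refine (Valuation.map_add _ _ _).trans (max_le hm ?_)
      have h3 := HeightOneSpectrum.valuedAdicCompletion_eq_valuation' (K := M) w
        (m - algebraMap F M x)
      exact (le_of_eq h3).trans hx.le
    rw [hcl.closure_eq] at hz
    exact hz
  obtain ⟨e, he⟩ : ∃ e : v.adicCompletion F ≃+* w.adicCompletion M, ∀ x, e x = ι x :=
    ⟨RingEquiv.ofBijective ι ⟨ι.injective, hsurj⟩, fun x => rfl⟩
  refine ⟨e.symm.toRingHom, fun x => ?_⟩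
  change e.symm (algebraMap M (w.adicCompletion M) (algebraMap F M x)) = _
  rw [← h1, ← he, e.symm_apply_apply]

end back


end Pool.Agent.Helper28H.FE.Back

namespace Pool.Agent.Helper28H.FE

theorem back : D_BACK := fun K M R R' _ _ _ _ _ _ _ _ _ _ _ v w hv hd => Back.exists_back v w hv hd

end Pool.Agent.Helper28H.FE
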