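import Pool.Agent.Helper28H.FE.Stm
import Pool.Agent.N769.PJ.Int
import Pool.Agent.N227.PJ.Par

/-!
# Project FE, group A: tools
-/

set_option autoImplicit false
set_option linter.all false

open Polynomial IsDedekindDomain WithZero UniqueFactorizationMonoid
open scoped Classical

namespace Pool.Agent.Helper28H.FE.BasA

open Pool.Agent.N352.PJ
open Pool.Agent.N769.PJ (dsc_map deg_der isSep)
open Pool.Agent.N227.PJ (fd)
open Pool.Agent.N862.PP (cn)

/-- locally at `P` the ring of integers is `k[t][θ]` -/
def LI (g : ℕ) {k L : Type} [Field k] [Field L] [Algebra k[X] L] (θ : L) (P : k[X]) : Prop :=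
  ∀ x : L, IsIntegral k[X] x → ∃ (s : k[X]) (v : Fin (2 * g + 1) → k[X]), ¬ P ∣ s ∧
    Crd g θ v (algebraMap k[X] L s * x)

/-- inverses modulo `P` -/
theorem exists_inv {k : Type} [Field k] {P s : k[X]} (hP : Irreducible P) (hs : ¬ P ∣ s) :
    ∃ s' : k[X], P ∣ s' * s - 1 := by
  obtain ⟨a, b, hab⟩ := (hP.coprime_iff_not_dvd).2 hs
  exact ⟨b, ⟨-a, by linear_combination hab⟩⟩

/-- a separable reduction -/
theorem not_dvd_dsc {g : ℕ} {k : Type} [Field k] {f : k[X][X]} (hm : f.Monic)
    (hd : f.natDegree = 2 * g + 1) {P : k[X]} (hP : Irreducible P)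
    (hs : (f.map (Ideal.Quotient.mk (Ideal.span {P}))).Separable) : ¬ P ∣ dsc g f := by
  have hmax : (Ideal.span {P} : Ideal k[X]).IsMaximal :=
    PrincipalIdealRing.isMaximal_of_irreducible hP
  letI : Field (k[X] ⧸ Ideal.span {P}) := Ideal.Quotient.field _
  intro hdvd
  set φ := Ideal.Quotient.mk (Ideal.span {P}) with hφ
  have h0 : φ (dsc g f) = 0 := Ideal.Quotient.eq_zero_iff_mem.2 (Ideal.mem_span_singleton.2 hdvd)
  set F := f.map φ with hF
  have hdeg : F.natDegree = 2 * g + 1 := by
    rw [hF, hm.natDegree_map, hd]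
  have hFm : F.Monic := hm.map _
  have h1 : F.resultant (derivative F) (2 * g + 1) (2 * g) = 0 := by
    rw [← h0, hF, derivative_map, resultant_map_map, dsc]
  have hle : (derivative F).natDegree ≤ 2 * g := by
    refine (natDegree_derivative_le _).trans ?_
    rw [hdeg]
    omega
  obtain ⟨j, hj⟩ := Nat.exists_eq_add_of_le hle
  have h5 := resultant_add_right_deg F (derivative F) (2 * g + 1) (derivative F).natDegree j
    le_rfl
  rw [← hj, h1] at h5
  have h6 : F.resultant (derivative F) (2 * g + 1) (derivative F).natDegree = 0 := by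
    have h7 : (F.coeff (2 * g + 1)) = 1 := by
      rw [← hdeg]
      exact hFm
    rw [h7, one_pow, one_mul] at h5
    exact h5.symm
  rw [← hdeg] at h6
  rcases resultant_eq_zero_iff.1 h6 with ⟨_, h8⟩
  exact h8 hs

/-- an irreducible polynomial over a finite residue field is separable -/
theorem sep_of_irr {k : Type} [Field k] [Finite k] {P : k[X]} (hP : Irreducible P)
    {r : (k[X] ⧸ Ideal.span {P})[X]} (hr : Irreducible r) : r.Separable := by
  have hmax : (Ideal.span {P} : Ideal k[X]).IsMaximal :=
    PrincipalIdealRing.isMaximal_of_irreducible hP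
  letI : Field (k[X] ⧸ Ideal.span {P}) := Ideal.Quotient.field _
  haveI : Finite (k[X] ⧸ Ideal.span {P}) := by
    have h1 : Module.Finite k (AdjoinRoot P) := (AdjoinRoot.powerBasis hP.ne_zero).finite
    exact Module.finite_of_finite k (M := AdjoinRoot P)
  exact PerfectField.separable_of_irreducible hr

/-- the primes of the set `S` do not divide the discriminant -/
theorem not_dvd_dsc_Q {g : ℕ} {k : Type} [Field k] [Finite k] {f : k[X][X]} {S : Finset k[X]}
    {h : k[X] → k[X][X]} {Q : k[X]} (hg : 1 ≤ g) (hm : f.Monic) (hd : f.natDegree = 2 * g + 1)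
    (hS : GoodU g S h) (hQS : Q ∈ S) (hC : Cg Q f (X * h Q)) : ¬ Q ∣ dsc g f := by
  obtain ⟨hQm, hQ, hhm, hhd, hhi⟩ := hS Q hQS
  refine not_dvd_dsc hm hd hQ ?_
  have hmax : (Ideal.span {Q} : Ideal k[X]).IsMaximal :=
    PrincipalIdealRing.isMaximal_of_irreducible hQ
  letI : Field (k[X] ⧸ Ideal.span {Q}) := Ideal.Quotient.field _
  have e : f.map (Ideal.Quotient.mk (Ideal.span {Q})) =
      X * (h Q).map (Ideal.Quotient.mk (Ideal.span {Q})) := by
    have e1 : f.map (Ideal.Quotient.mk (Ideal.span {Q})) =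
        (X * h Q).map (Ideal.Quotient.mk (Ideal.span {Q})) := by
      ext j
      rw [coeff_map, coeff_map]
      exact Ideal.Quotient.eq.2 (Ideal.mem_span_singleton.2 (hC j))
    rw [e1, Polynomial.map_mul, map_X]
  rw [e]
  refine separable_X.mul (sep_of_irr hQ hhi) ?_
  refine (irreducible_X.coprime_iff_not_dvd).2 fun hdv => ?_
  have h1 : Associated X ((h Q).map (Ideal.Quotient.mk (Ideal.span {Q}))) :=
    irreducible_X.associated_of_dvd hhi hdv
  have h2 := natDegree_eq_of_degree_eq (degree_eq_degree_of_associated h1)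
  rw [natDegree_X, hhm.natDegree_map, hhd] at h2
  omega

section

variable {g : ℕ} {k K L : Type} [Field k] [Field K] [Algebra k[X] K] [IsFractionRing k[X] K]
  [Field L] [Algebra K L] [Algebra k[X] L] [IsScalarTower k[X] K L] {f : k[X][X]} {θ : L}

theorem fin_O (O : Type) [CommRing O] [IsDedekindDomain O] [Algebra O L] [IsFractionRing O L]
    [Algebra k[X] O] [IsScalarTower k[X] O L] [IsIntegralClosure O k[X] L]
    (h : IsGen g K f θ) (hd : dsc g f ≠ 0) : Module.Finite k[X] O := by
  have := isSep h hd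
  have := fd h
  exact IsIntegralClosure.finite k[X] K L O

/-- the norm of `P` -/
theorem cn_P (O : Type) [CommRing O] [IsDedekindDomain O] [Algebra O L] [IsFractionRing O L]
    [Algebra k[X] O] [IsScalarTower k[X] O L] [IsIntegralClosure O k[X] L]
    [Module.Finite k[X] O] [Module.IsTorsionFree k[X] O]
    (h : IsGen g K f θ) {P : k[X]} (hP : Irreducible P) :
    cn k[X] (Ideal.span {P}) (Ideal.span {algebraMap k[X] O P} : Ideal O) = 2 * g + 1 := by
  have hfd := fd h
  have hn1 : Algebra.intNorm k[X] O (algebraMap k[X] O P) = P ^ (2 * g + 1) := by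
    apply IsFractionRing.injective k[X] K
    rw [Algebra.algebraMap_intNorm (L := L), ← IsScalarTower.algebraMap_apply k[X] O L,
      IsScalarTower.algebraMap_apply k[X] K L, Algebra.norm_algebraMap, h.rank, map_pow]
  have hirr : Irreducible (Ideal.span {P} : Ideal k[X]) :=
    (Ideal.prime_of_isPrime (by simpa using hP.ne_zero)
      ((Ideal.span_singleton_prime hP.ne_zero).mpr hP.prime)).irreducible
  unfold cn
  rw [Ideal.relNorm_singleton, hn1, ← Ideal.span_singleton_pow, normalizedFactors_pow,
    Multiset.count_nsmul, normalizedFactors_irreducible hirr, normalize_eq,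
    Multiset.count_singleton_self, mul_one]

end

end Pool.Agent.Helper28H.FE.BasA
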