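import Pool.Agent.Helper28H.FE.Stm2
import Pool.Agent.N352.PJ.Sel
import Pool.Agent.N539.PP.Cls
import Pool.Agent.N498.PP.Lin
import Pool.Agent.N891.PQ.TwA

/-!
# Project FE, piece CORE: the choice of the twist (helper32)

Port of `H30T/Core.lean` and of `core2` in `N874/JM/Core.lean`.
-/

set_option autoImplicit false
set_option linter.all false

open Polynomial IsDedekindDomain Matrix WithZero
open scoped Classical

namespace Pool.Agent.Helper28H.FE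

open Pool.Agent.N352.PJ (Mt IsGen dsc Cg Crd res not_ev_exp)
open Pool.Agent.N874.PP (Ov Ev Sq1 U0 cl cl_add_aux exists_below)
open Pool.Agent.N874.JM (LocF)

namespace Core

/-- two irreducible polynomials below the same prime -/
theorem below_dvd {k O : Type} [Field k] [CommRing O] [IsDedekindDomain O] [Algebra k[X] O]
    {𝔓 : HeightOneSpectrum O} {P Q : k[X]} (hPi : Irreducible P)
    (h : Ov P 𝔓) (h' : Ov Q 𝔓) : P ∣ Q := by
  by_contra hne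
  obtain ⟨u, v, huv⟩ := hPi.coprime_iff_not_dvd.2 hne
  apply 𝔓.isPrime.ne_top
  rw [Ideal.eq_top_iff_one]
  have h1 : algebraMap k[X] O (u * P + v * Q) ∈ 𝔓.asIdeal := by
    rw [map_add, map_mul, map_mul]
    exact Ideal.add_mem _ (Ideal.mul_mem_left _ _ h) (Ideal.mul_mem_left _ _ h')
  rwa [huv, map_one] at h1

theorem locF_one {M : Type} (E : Type) [Field M] [Field E] [Algebra M E] (f : M[X]) :
    LocF E f 1 := by
  have h := Pool.Agent.N891.PQ.locIm_one E (f.map (algebraMap M E))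
  have e : (1 : M[X]).map (algebraMap M E) = 1 := Polynomial.map_one _
  rw [← e] at h
  exact h

theorem locF_mul {M : Type} {E : Type} [Field M] [Field E] [Algebra M E] {f h h' : M[X]}
    (H : LocF E f h) (H' : LocF E f h') : LocF E f (h * h') := by
  have h1 := Pool.Agent.N891.PQ.LocIm.mul (F := E) (f := f.map (algebraMap M E)) H H'
  rw [← Polynomial.map_mul] at h1
  exact h1

end Core

open Core

theorem core (hEXQ : A_EXQ) (hCSQ : A_CSQ) (hSDB : B_SDB) (hSDG : B_SDG) (hREC : B_REC) :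
    C_CORE := by
  have hCLS := Pool.Agent.N539.PP.cls
  have hLIN := Pool.Agent.N498.PP.lin
  intro g k K L O _ _ _ _ _ _ _ _ _ _ _ _ _ _ _ _ _ f θ S s R₁ _ _ _ _ v₁ hg h2 hG hS hcon hinf hstr
  haveI : Algebra.IsIntegral k[X] O := IsIntegralClosure.isIntegral_algebra k[X] L
  have hex : ∀ Q ∈ S, ∃ 𝔓₁ 𝔮 : HeightOneSpectrum O, Ov Q 𝔓₁ ∧ Ov Q 𝔮 ∧
      𝔓₁.valuation L θ < 1 ∧ 𝔮.valuation L θ = 1 ∧ ¬ Ev 𝔮 (algebraMap k[X] L Q * θ) ∧
      ∀ 𝔓 : HeightOneSpectrum O, Ov Q 𝔓 → 𝔓 = 𝔓₁ ∨ 𝔓 = 𝔮 := by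
    intro Q hQ
    obtain ⟨𝔓₁, 𝔮, a1, a2, a3, a4, a5, a6, a7⟩ :=
      hEXQ g k K L O f θ S s hg hG hS Q hQ (hcon Q hQ)
    refine ⟨𝔓₁, 𝔮, a1, a2, a3, a4, not_ev_exp ?_, a7⟩
    rw [map_mul, a6, a4, mul_one]
  haveI hne : Nonempty (HeightOneSpectrum O) := by
    have hinj : Function.Injective (algebraMap k[X] O) := by
      have h1 : Function.Injective (algebraMap k[X] L) := by
        rw [IsScalarTower.algebraMap_eq k[X] K L]
        exact (algebraMap K L).injective.comp (IsFractionRing.injective k[X] K)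
      rw [IsScalarTower.algebraMap_eq k[X] O L] at h1
      exact Function.Injective.of_comp h1
    have hnf : ¬ IsField O := fun h => Polynomial.not_isField k
      (isField_of_isIntegral_of_isField hinj h)
    obtain ⟨m, hm⟩ := Ideal.exists_maximal O
    exact ⟨⟨m, hm.isPrime, Ring.ne_bot_of_isMaximal_of_not_isField hm hnf⟩⟩
  obtain ⟨𝔭, h𝔭⟩ : ∃ 𝔭 : k[X] → HeightOneSpectrum O, 𝔭 = fun Q =>
    if hQ : Q ∈ S then (hex Q hQ).choose else Classical.arbitrary _ := ⟨_, rfl⟩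
  obtain ⟨𝔮, h𝔮⟩ : ∃ 𝔮 : k[X] → HeightOneSpectrum O, 𝔮 = fun Q =>
    if hQ : Q ∈ S then (hex Q hQ).choose_spec.choose else Classical.arbitrary _ := ⟨_, rfl⟩
  have hpq : ∀ Q ∈ S, Ov Q (𝔭 Q) ∧ Ov Q (𝔮 Q) ∧ (𝔭 Q).valuation L θ < 1 ∧
      (𝔮 Q).valuation L θ = 1 ∧ ¬ Ev (𝔮 Q) (algebraMap k[X] L Q * θ) ∧
      ∀ 𝔓 : HeightOneSpectrum O, Ov Q 𝔓 → 𝔓 = 𝔭 Q ∨ 𝔓 = 𝔮 Q := by
    intro Q hQ
    have h := (hex Q hQ).choose_spec.choose_spec
    rw [h𝔭, h𝔮]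
    simp only [dif_pos hQ]
    exact h
  -- the primes in `S` are good
  have hndv : ∀ Q ∈ S, ¬ Q ∣ dsc g f := fun Q hQ =>
    (hCSQ g k K L O f θ S s hg hG hS Q hQ (hcon Q hQ)).2.1
  have hgdQ : ∀ Q ∈ S, ∀ P : k[X], Irreducible P → Ov P (𝔮 Q) → Gd g f P := by
    intro Q hQ P hP hO hdv
    refine hndv Q hQ ((below_dvd (hS Q hQ).2.1 (hpq Q hQ).2.1 hO).trans ?_)
    exact (dvd_pow_self P two_ne_zero).trans hdv
  -- the group `M`
  obtain ⟨M, hMd⟩ : ∃ M : Set L, M = {α | α ≠ 0 ∧ IsSquare (Algebra.norm K α) ∧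
    (∀ 𝔓 : HeightOneSpectrum O, (∀ P : k[X], Irreducible P → Ov P 𝔓 → Gd g f P) →
      (∀ Q ∈ S, 𝔓 ≠ 𝔮 Q) → Ev 𝔓 α) ∧
    ∃ h₀ : K[X], aeval θ h₀ = α ∧
      (∀ (P : k[X]) (v : HeightOneSpectrum k[X]), Irreducible P → v.asIdeal = Ideal.span {P} →
        ¬ Gd g f P → LocF (v.adicCompletion K) (f.map (algebraMap k[X] K)) h₀) ∧
      LocF (v₁.adicCompletion K) (f.map (algebraMap k[X] K)) h₀} := ⟨_, rfl⟩
  have hMm : ∀ α, α ∈ M ↔ α ≠ 0 ∧ IsSquare (Algebra.norm K α) ∧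
    (∀ 𝔓 : HeightOneSpectrum O, (∀ P : k[X], Irreducible P → Ov P 𝔓 → Gd g f P) →
      (∀ Q ∈ S, 𝔓 ≠ 𝔮 Q) → Ev 𝔓 α) ∧
    ∃ h₀ : K[X], aeval θ h₀ = α ∧
      (∀ (P : k[X]) (v : HeightOneSpectrum k[X]), Irreducible P → v.asIdeal = Ideal.span {P} →
        ¬ Gd g f P → LocF (v.adicCompletion K) (f.map (algebraMap k[X] K)) h₀) ∧
      LocF (v₁.adicCompletion K) (f.map (algebraMap k[X] K)) h₀ := by
    intro α
    rw [hMd]
    rfl
  obtain ⟨ψ, hψd⟩ : ∃ ψ : L → (S → ZMod 2 × ZMod 2), ψ = fun (α : L) (Q : S) =>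
    cl (𝔮 (Q : k[X])) (algebraMap k[X] L Q * θ) α := ⟨_, rfl⟩
  have hϖ : ∀ Q ∈ S, algebraMap k[X] L Q * θ ≠ 0 := by
    intro Q hQ h0
    exact (hpq Q hQ).2.2.2.2.1 (by rw [h0]; exact ⟨0, by simp⟩)
  have hψ : ∀ α β : L, α ≠ 0 → β ≠ 0 → ψ (α * β) = ψ α + ψ β := by
    intro α β hα hβ
    rw [hψd]
    funext Q
    have h := hCLS k L O Q (𝔮 Q) (algebraMap k[X] L Q * θ) h2 (hS Q Q.2).2.1 (hpq Q Q.2).2.1
      (hϖ Q Q.2) (hpq Q Q.2).2.2.2.2.1 α β hα hβ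
    exact Prod.ext (cl_add_aux h.1) (cl_add_aux h.2)
  have hEvmul : ∀ (𝔓 : HeightOneSpectrum O) (x y : L), Ev 𝔓 x → Ev 𝔓 y → Ev 𝔓 (x * y) := by
    rintro 𝔓 x y ⟨u, hu⟩ ⟨v, hv⟩
    exact ⟨u * v, by rw [map_mul, map_mul, hu, hv, mul_pow]⟩
  have hMmul : ∀ α β, α ∈ M → β ∈ M → α * β ∈ M := by
    intro α β hα hβ
    rw [hMm] at hα hβ ⊢
    obtain ⟨h1, h2, h3, a, h4, h5, h6⟩ := hα
    obtain ⟨h1', h2', h3', b, h4', h5', h6'⟩ := hβ
    refine ⟨mul_ne_zero h1 h1', ?_,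
      fun 𝔓 hgd h𝔓 => hEvmul 𝔓 _ _ (h3 𝔓 hgd h𝔓) (h3' 𝔓 hgd h𝔓), a * b, ?_, ?_, ?_⟩
    · rw [map_mul]
      exact h2.mul h2'
    · rw [map_mul, h4, h4']
    · intro P v hP hv hgd
      exact locF_mul (h5 P v hP hv hgd) (h5' P v hP hv hgd)
    · exact locF_mul h6 h6'
  have hM1 : (1 : L) ∈ M := by
    rw [hMm]
    refine ⟨one_ne_zero, by rw [map_one]; exact IsSquare.one,
      fun 𝔓 _ _ => ⟨1, by rw [map_one, one_pow]⟩,
      1, by rw [map_one], ?_, ?_⟩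
    · intro P v _ _ _
      exact locF_one _ _
    · exact locF_one _ _
  let Λ : AddSubgroup (S → ZMod 2 × ZMod 2) :=
    { carrier := {l | ∃ α ∈ M, ψ α = l}
      add_mem' := by
        rintro _ _ ⟨α, hα, rfl⟩ ⟨β, hβ, rfl⟩
        exact ⟨α * β, hMmul α β hα hβ, hψ α β ((hMm α).1 hα).1 ((hMm β).1 hβ).1⟩
      zero_mem' := by
        refine ⟨1, hM1, ?_⟩
        have h := hψ 1 1 one_ne_zero one_ne_zero
        rw [mul_one] at h
        exact left_eq_add.1 h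
      neg_mem' := by
        rintro _ ⟨α, hα, rfl⟩
        refine ⟨α, hα, ?_⟩
        rw [eq_neg_iff_add_eq_zero]
        funext Q
        exact Prod.ext (CharTwo.add_self_eq_zero _) (CharTwo.add_self_eq_zero _) }
  have hiso : ∀ l ∈ Λ, ∑ Q : S, (l Q).1 * (l Q).2 = 0 := by
    rintro _ ⟨α, hα, rfl⟩
    obtain ⟨b1, b2, b3, h₀, b4, b5, b6⟩ := (hMm α).1 hα
    have hα0 : aeval θ h₀ ≠ 0 := by rw [b4]; exact b1
    have hα2 : IsSquare (Algebra.norm K (aeval θ h₀)) := by rw [b4]; exact b2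
    have hloc1 : SDL hG v₁ α := by
      have := hSDB g k K L f θ hG R₁ v₁ h2 (Or.inr hinf) h₀ hα0 hα2 b6
      rwa [b4] at this
    have hloc : ∀ v : HeightOneSpectrum k[X],
        (∀ Q ∈ S, v.asIdeal = Ideal.span {Q} → Ev (𝔮 Q) α) → SDL hG v α := by
      intro v hv
      obtain ⟨P, hP⟩ := (IsPrincipalIdealRing.principal v.asIdeal).principal
      change v.asIdeal = Ideal.span {P} at hP
      have hP0 : P ≠ 0 := by
        rintro rfl
        apply v.ne_bot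
        rw [hP]
        simp
      have hPi : Irreducible P := by
        have h1 := v.isPrime
        rw [hP, Ideal.span_singleton_prime hP0] at h1
        exact h1.irreducible
      by_cases hgd : Gd g f P
      · refine (hSDG g k K L O f θ hG α hg b1 b2).1 P v hPi hP hgd fun 𝔓 h𝔓 => ?_
        by_cases hq : ∀ Q ∈ S, 𝔓 ≠ 𝔮 Q
        · refine b3 𝔓 (fun P' hP' hO' => ?_) hq
          intro hdv
          apply hgd
          exact (pow_dvd_pow_of_dvd (below_dvd hPi h𝔓 hO') 2).trans hdv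
        · push Not at hq
          obtain ⟨Q, hQ, rfl⟩ := hq
          refine hv Q hQ ?_
          rw [hP, Ideal.span_singleton_eq_span_singleton]
          exact associated_of_dvd_dvd (below_dvd hPi h𝔓 (hpq Q hQ).2.1)
            (below_dvd (hS Q hQ).2.1 (hpq Q hQ).2.1 h𝔓)
      · have := hSDB g k K L f θ hG k[X] v h2
          (Or.inl fun p => v.valuation_le_one p) h₀ hα0 hα2 (b5 P v hPi hP hgd)
        rwa [b4] at this
    have h := hREC g k K L O f θ S s R₁ v₁ hg h2 hG hS hcon hinf 𝔮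
      (fun Q hQ => ⟨(hpq Q hQ).2.1, (hpq Q hQ).2.2.2.1⟩) α b1 b2 hloc hloc1
    have e1 : ∑ Q : S, (ψ α Q).1 * (ψ α Q).2 = ∑ Q ∈ S,
        (if ¬ Ev (𝔮 Q) α ∧ ¬ Sq1 (𝔮 Q) (α * (algebraMap k[X] L Q * θ)) then (1 : ZMod 2) else 0) := by
      rw [← Finset.sum_coe_sort S]
      refine Finset.sum_congr rfl fun Q _ => ?_
      simp only [hψd, cl]
      by_cases he : Ev (𝔮 Q) α
      · rw [if_pos he, zero_mul, if_neg (fun h => h.1 he)]
      · by_cases hs : Sq1 (𝔮 Q) (α * (algebraMap k[X] L Q * θ))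
        · have hu : U0 (𝔮 Q) (algebraMap k[X] L Q * θ) α := ⟨fun h => absurd h he, fun _ => hs⟩
          rw [if_neg he, if_pos hu, mul_zero, if_neg (fun h => h.2 hs)]
        · have hu : ¬ U0 (𝔮 Q) (algebraMap k[X] L Q * θ) α := fun h => hs (h.2 he)
          rw [if_neg he, if_neg hu, mul_one, if_pos ⟨he, hs⟩]
    rw [e1, Finset.sum_ite, Finset.sum_const_zero, add_zero, Finset.sum_const, nsmul_eq_mul,
      mul_one]
    exact (ZMod.natCast_eq_zero_iff_even).2 h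
  obtain ⟨J, hJ⟩ := hLIN S Λ hiso
  obtain ⟨J', hJ'd⟩ : ∃ J' : Finset k[X], J' = S.filter fun Q => ∃ h : Q ∈ S, (⟨Q, h⟩ : S) ∈ J :=
    ⟨_, rfl⟩
  have hJ'S : J' ⊆ S := by rw [hJ'd]; exact Finset.filter_subset _ _
  refine ⟨J', hJ'S, fun h hα hN hev0 hu0 hloc hlocI => ?_⟩
  obtain ⟨α, hαdef⟩ : ∃ α : L, α = aeval θ h := ⟨_, rfl⟩
  rw [← hαdef] at hα hN hev0 hu0 ⊢
  have hαM : α ∈ M := by
    rw [hMm]
    refine ⟨hα, hN, fun 𝔓 hgd h𝔓 => ?_, h, hαdef.symm, hloc, hlocI⟩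
    refine hev0 𝔓 hgd fun Q hQ hO => ?_
    rcases (hpq Q (hJ'S hQ)).2.2.2.2.2 𝔓 hO with rfl | rfl
    · exact (hpq Q (hJ'S hQ)).2.2.1.ne
    · exact absurd rfl (h𝔓 Q (hJ'S hQ))
  have hz : ψ α = 0 := by
    refine hJ _ ⟨α, hαM, rfl⟩ (fun Q hQ => ?_) (fun Q hQ => ?_)
    · have hQJ : (Q : k[X]) ∈ J' := by
        rw [hJ'd]
        exact Finset.mem_filter.2 ⟨Q.2, Q.2, hQ⟩
      rw [hψd]
      exact if_pos (hu0 Q hQJ _ (hpq Q Q.2).2.1 (hpq Q Q.2).2.2.2.1)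
    · have hQJ : (Q : k[X]) ∉ J' := by
        rw [hJ'd]
        exact fun h => hQ (Finset.mem_filter.1 h).2.2
      rw [hψd]
      refine if_pos (hev0 (𝔮 Q) (hgdQ Q Q.2) fun Q' hQ' hO => ?_)
      have hS' := hS Q' (hJ'S hQ')
      have : Q' = (Q : k[X]) := Pool.Agent.N874.PP.below_unique hS'.1 hS'.2.1 (hS Q Q.2).1
        (hS Q Q.2).2.1 hO (hpq Q Q.2).2.1
      rw [this] at hQ'
      exact absurd hQ' hQJ
  have hz1 : ∀ Q ∈ S, Ev (𝔮 Q) α ∧ U0 (𝔮 Q) (algebraMap k[X] L Q * θ) α := by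
    intro Q hQ
    have h1 := congrFun hz ⟨Q, hQ⟩
    rw [hψd] at h1
    have h2 := congrArg Prod.fst h1
    have h3 := congrArg Prod.snd h1
    constructor
    · by_contra hn
      have : (if Ev (𝔮 Q) α then (0 : ZMod 2) else 1) = 0 := h2
      rw [if_neg hn] at this
      exact one_ne_zero this
    · by_contra hn
      have : (if U0 (𝔮 Q) (algebraMap k[X] L Q * θ) α then (0 : ZMod 2) else 1) = 0 := h3
      rw [if_neg hn] at this
      exact one_ne_zero this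
  refine hstr α hα hN (fun 𝔓 hgd => ?_) fun Q hQ 𝔓 h𝔓 hv => ?_
  · by_cases h : ∀ Q ∈ S, 𝔓 ≠ 𝔮 Q
    · exact ((hMm α).1 hαM).2.2.1 𝔓 hgd h
    · push Not at h
      obtain ⟨Q, hQ, rfl⟩ := h
      exact (hz1 Q hQ).1
  · rcases (hpq Q hQ).2.2.2.2.2 𝔓 h𝔓 with rfl | rfl
    · exact absurd hv (hpq Q hQ).2.2.1.ne
    · exact (hz1 Q hQ).2.1 (hz1 Q hQ).1

end Pool.Agent.Helper28H.FE
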