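import Pool.Agent.Helper28H.FE.ResA

/-!
# Project FE, piece RES: the square class at the prime, the generator, complete splitting
-/

set_option autoImplicit false
set_option linter.all false

open Polynomial IsDedekindDomain

namespace Pool.Agent.Helper28H.FE.ResA

open Pool.Agent.N352.PJ (IsGen dsc Cg Crd)
open Pool.Agent.N874.PP (Ov Ev Sq1)

theorem s_pow {k K N A : Type} [Field k] [Field K] [Field N] [Algebra K N] [CommRing A]
    [Algebra k[X] A] [Algebra A N] (σ : N ≃ₐ[K] N) (s : A ≃ₐ[k[X]] A)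
    (hs : ∀ x, algebraMap A N (s x) = σ (algebraMap A N x)) (i : ℕ) (x : A) :
    algebraMap A N ((s ^ i) x) = (σ ^ i) (algebraMap A N x) := by
  induction i generalizing x with
  | zero => rw [pow_zero, pow_zero]; rfl
  | succ i ih => rw [pow_succ, pow_succ, AlgEquiv.mul_apply, AlgEquiv.mul_apply, ih, hs]

/-- The case where `α` is a square at `𝔓` is impossible. -/
theorem sq_part {k K L N O A Ω : Type} [Field k] [Field K] [Algebra k[X] K] [IsFractionRing k[X] K]
    [Field L] [Algebra K L] [Algebra k[X] L] [IsScalarTower k[X] K L]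
    [Field N] [Algebra K N] [Algebra k[X] N] [IsScalarTower k[X] K N]
    [CommRing O] [IsDedekindDomain O]
    [Algebra O L] [IsFractionRing O L] [Algebra k[X] O] [IsScalarTower k[X] O L]
    [IsIntegralClosure O k[X] L] [CommRing A] [Algebra k[X] A] [Algebra A N]
    [IsScalarTower k[X] A N] [IsIntegralClosure A k[X] N] [Field Ω] (g q j : ℕ) (hq : Odd q)
    (σ : N ≃ₐ[K] N) (ι₂ : L →ₐ[K] N) (β₂ : N)
    (s : A ≃ₐ[k[X]] A) (hs : ∀ x, algebraMap A N (s x) = σ (algebraMap A N x))
    (i2 : O →ₐ[k[X]] A) (hi2 : ∀ x, algebraMap A N (i2 x) = ι₂ (algebraMap O L x))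
    (φ : A →+* Ω) (hφ : ∀ x, φ (s x) = φ x ^ q) (h2 : (2 : Ω) ≠ 0)
    (hfix : ∀ x : L, (σ ^ (2 * g)) (ι₂ x) = ι₂ x) (α : L) (hβ : β₂ ^ 2 = ι₂ α)
    (hσβ : (σ ^ (2 * g)) β₂ = -β₂) (a b : O) (hb : b ≠ 0)
    (hα : α = algebraMap O L a / algebraMap O L b) (hc : φ (i2 (a * b)) ≠ 0)
    (𝔓 : HeightOneSpectrum O) (ψ : O →+* Ω)
    (hψ : ∀ x, ψ x = 0 ↔ x ∈ 𝔓.asIdeal)
    (hψφ : ∀ x, ψ x = φ ((s ^ j) (i2 x))) : ¬ Sq1 𝔓 α := by
  rintro ⟨s₁, hs₁⟩
  have hAinj : Function.Injective (algebraMap A N) := IsIntegralClosure.algebraMap_injective A k[X] N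
  have hbL : (algebraMap O L b) ≠ 0 := by
    rw [Ne, map_eq_zero_iff _ (IsFractionRing.injective O L)]
    exact hb
  have hsq0 : (ι₂ (algebraMap O L b) * β₂) ^ 2 = algebraMap A N (i2 (a * b)) := by
    rw [mul_pow, hβ, hα, hi2, ← map_pow, ← map_mul]
    congr 1
    rw [map_mul]
    field_simp
  -- the element `β`
  have hβint : IsIntegral k[X] (ι₂ (algebraMap O L b) * β₂) := by
    refine IsIntegral.of_pow (n := 2) (by norm_num) ?_
    rw [hsq0]
    exact IsIntegralClosure.isIntegral k[X] N _ |>.algebraMap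
  obtain ⟨β, hβ'⟩ := (IsIntegralClosure.isIntegral_iff (A := A)).1 hβint
  have hββ : β ^ 2 = i2 (a * b) := by
    apply hAinj
    rw [map_pow, hβ', hsq0]
  have hσβ' : (s ^ (2 * g)) β = -β := by
    apply hAinj
    rw [s_pow σ s hs, hβ', map_neg, hβ', map_mul, hfix, hσβ]
    ring
  have hfix' : ∀ x : O, (s ^ (2 * g)) (i2 x) = i2 x := by
    intro x
    apply hAinj
    rw [s_pow σ s hs, hi2, hfix]
  -- the valuations
  have hcψ : ψ (a * b) ≠ 0 := by
    rw [hψφ, frob_pow hφ]
    exact pow_ne_zero _ hc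
  have hcv : 𝔓.valuation L (algebraMap O L (a * b)) = 1 := by
    rw [𝔓.valuation_eq_one_iff_notMem]
    intro h
    exact hcψ ((hψ _).2 h)
  have hlt : 𝔓.valuation L ((algebraMap O L (a * b)) - ((algebraMap O L b) * s₁) ^ 2) < 1 := by
    have h1 : (algebraMap O L (a * b)) - ((algebraMap O L b) * s₁) ^ 2 =
        (algebraMap O L b) ^ 2 * (α - s₁ ^ 2) := by
      rw [hα, map_mul]
      field_simp
    have h2 : (algebraMap O L (a * b)) = (algebraMap O L b) ^ 2 * α := by
      rw [hα, map_mul]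
      field_simp
    rw [h1, map_mul, ← hcv, h2, map_mul]
    refine (mul_lt_mul_iff_right₀ ?_).2 hs₁
    rw [zero_lt_iff, Valuation.ne_zero_iff]
    exact pow_ne_zero _ hbL
  have hle : 𝔓.valuation L ((algebraMap O L b) * s₁) ≤ 1 := by
    have h1 : 𝔓.valuation L (((algebraMap O L b) * s₁) ^ 2) ≤ 1 := by
      have h2 : ((algebraMap O L b) * s₁) ^ 2 = (algebraMap O L (a * b)) -
          ((algebraMap O L (a * b)) - ((algebraMap O L b) * s₁) ^ 2) := by
        ring
      rw [h2]
      exact (Valuation.map_sub _ _ _).trans (max_le hcv.le hlt.le)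
    rw [map_pow] at h1
    exact (pow_le_one_iff (by norm_num)).1 h1
  obtain ⟨x, ⟨y, hy⟩, hxy⟩ := HeightOneSpectrum.exists_primeCompl_mul_eq_of_integer 𝔓 _ hle
  have hyv : 𝔓.valuation L (algebraMap O L y) = 1 := by
    rw [𝔓.valuation_eq_one_iff_notMem]
    exact hy
  have hmem : a * b * y ^ 2 - x ^ 2 ∈ 𝔓.asIdeal := by
    refine (𝔓.valuation_lt_one_iff_mem (K := L) _).1 ?_
    have h1 : (algebraMap O L (a * b * y ^ 2 - x ^ 2)) =
        (algebraMap O L y) ^ 2 * ((algebraMap O L (a * b)) - ((algebraMap O L b) * s₁) ^ 2) := by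
      have h2 : ((algebraMap O L b) * s₁) * (algebraMap O L y) = (algebraMap O L x) := hxy
      rw [map_sub, map_mul, map_pow, map_pow, ← h2]
      ring
    change 𝔓.valuation L (algebraMap O L (a * b * y ^ 2 - x ^ 2)) < 1
    rw [h1, map_mul, map_pow, hyv, one_pow, one_mul]
    exact hlt
  have hψxy := (hψ _).2 hmem
  rw [map_sub, map_mul, map_pow, map_pow, sub_eq_zero] at hψxy
  have hyψ : ψ y ≠ 0 := fun h => hy ((hψ _).1 h)
  -- the Frobenius automorphism
  obtain ⟨u, hu⟩ : ∃ u, u = φ ((s ^ j) β) := ⟨_, rfl⟩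
  have hu2 : u ^ 2 = ψ (a * b) := by
    rw [hu, hψφ, ← hββ, ← map_pow, ← map_pow]
  have hu0 : u ≠ 0 := by
    intro h
    rw [h] at hu2
    exact hcψ (by rw [← hu2]; ring)
  have hcomm : ∀ z : A, φ ((s ^ j) z) ^ (q ^ (2 * g)) = φ ((s ^ j) ((s ^ (2 * g)) z)) := by
    intro z
    rw [← frob_pow hφ, ← AlgEquiv.mul_apply, ← AlgEquiv.mul_apply, ← pow_add, ← pow_add, add_comm]
  have hxF : ψ x ^ (q ^ (2 * g)) = ψ x := by
    rw [hψφ, hcomm, hfix']
  have hyF : ψ y ^ (q ^ (2 * g)) = ψ y := by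
    rw [hψφ, hcomm, hfix']
  have huF : u ^ (q ^ (2 * g)) = -u := by
    rw [hu, hcomm, hσβ', map_neg, map_neg]
  have hsq : (u * ψ y - ψ x) * (u * ψ y + ψ x) = 0 := by
    have h1 : u ^ 2 * ψ y ^ 2 = ψ x ^ 2 := by rw [hu2]; exact hψxy
    linear_combination h1
  have hodd : Odd (q ^ (2 * g)) := hq.pow
  have key : -(u * ψ y) = u * ψ y := by
    rcases mul_eq_zero.1 hsq with h | h
    · have h1 : u * ψ y = ψ x := sub_eq_zero.1 h
      have h2 := congrArg (fun z => z ^ (q ^ (2 * g))) h1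
      simp only [mul_pow, huF, hyF, hxF] at h2
      rw [← neg_mul, h2, h1]
    · have h1 : u * ψ y = -ψ x := eq_neg_of_add_eq_zero_left h
      have h2 := congrArg (fun z => z ^ (q ^ (2 * g))) h1
      simp only [mul_pow, huF, hyF] at h2
      rw [hodd.neg_pow, hxF] at h2
      rw [← neg_mul, h2, h1]
  have h3 : (2 : Ω) * (u * ψ y) = 0 := by
    linear_combination -key
  rcases mul_eq_zero.1 h3 with h | h
  · exact h2 h
  · exact mul_ne_zero hu0 hyψ h

/-- `w` is a maximal ideal of the integral closure which contains the prime `Q`. -/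
theorem isMaximal_span {k : Type} [Field k] {Q : k[X]} (hQ : Irreducible Q) :
    (Ideal.span {Q}).IsMaximal :=
  PrincipalIdealRing.isMaximal_of_irreducible hQ

theorem card_quot {k : Type} [Field k] [Finite k] {Q : k[X]} (hQ : Irreducible Q) :
    Finite (k[X] ⧸ Ideal.span {Q}) ∧ Nat.card (k[X] ⧸ Ideal.span {Q}) = Nat.card k ^ Q.natDegree := by
  have h1 : Module.finrank k (k[X] ⧸ Ideal.span {Q}) = Q.natDegree :=
    finrank_quotient_span_eq_natDegree
  have h2 : Module.Finite k (k[X] ⧸ Ideal.span {Q}) := by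
    have := (AdjoinRoot.powerBasis hQ.ne_zero).finite
    exact this
  have h3 : Finite (k[X] ⧸ Ideal.span {Q}) := Module.finite_of_finite k
  refine ⟨h3, ?_⟩
  rw [← h1]
  exact Module.natCard_eq_pow_finrank

theorem isMaximal_of_mem {k A : Type} [Field k] [CommRing A] [Algebra k[X] A]
    [Algebra.IsIntegral k[X] A] {Q : k[X]} (hQ : Irreducible Q) (p : Ideal A) [hp : p.IsPrime]
    (h : algebraMap k[X] A Q ∈ p) : p.IsMaximal := by
  have h1 : p.comap (algebraMap k[X] A) = Ideal.span {Q} := by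
    symm
    refine (isMaximal_span hQ).eq_of_le (Ideal.IsPrime.under k[X] p).ne_top ?_
    rw [Ideal.span_le, Set.singleton_subset_iff]
    exact h
  exact Ideal.isMaximal_of_isIntegral_of_isMaximal_comap p (h1 ▸ isMaximal_span hQ)

/-- the primes with a Frobenius element fixing `E` split completely -/
theorem splits_part {k K E N : Type} [Field k] [Finite k] [Field K] [Algebra k[X] K]
    [IsFractionRing k[X] K]
    [Field E] [Algebra K E] [Algebra k[X] E] [IsScalarTower k[X] K E] [FiniteDimensional K E]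
    [IsGalois K E] [Field N] [Algebra K N] [Algebra k[X] N] [IsScalarTower k[X] K N]
    (κ : E →ₐ[K] N) (σ : N ≃ₐ[K] N) (hσ : ∀ y : E, σ (κ y) = κ y) :
    ∃ M : ℕ, ∀ (Q : k[X]) (a : ℕ) (w : HeightOneSpectrum (integralClosure k[X] N)),
      Irreducible Q → M < Q.natDegree → algebraMap k[X] (integralClosure k[X] N) Q ∈ w.asIdeal →
      (∀ x y : integralClosure k[X] N, (σ ^ a) (x : N) = y →
        y - x ^ (Nat.card k ^ Q.natDegree) ∈ w.asIdeal) → SplitsIn E Q := by
  set B := integralClosure k[X] E with hB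
  set A := integralClosure k[X] N with hA
  have hKE : Algebra.IsSeparable K E := inferInstance
  have hDD : IsDedekindDomain B := IsIntegralClosure.isDedekindDomain k[X] K E B
  have hfr : IsFractionRing B E := IsIntegralClosure.isFractionRing_of_finite_extension k[X] K E B
  have hfin : Module.Finite k[X] B := IsIntegralClosure.finite k[X] K E B
  have hKE' : FaithfulSMul k[X] E := by
    rw [faithfulSMul_iff_algebraMap_injective, IsScalarTower.algebraMap_eq k[X] K E]
    exact (algebraMap K E).injective.comp (IsFractionRing.injective k[X] K)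
  have htf : Module.IsTorsionFree k[X] B := by
    rw [Module.isTorsionFree_iff_algebraMap_injective]
    intro x y hxy
    apply (faithfulSMul_iff_algebraMap_injective k[X] E).1 hKE'
    rw [IsScalarTower.algebraMap_apply k[X] B E, hxy, ← IsScalarTower.algebraMap_apply k[X] B E]
  have hdiff : differentIdeal k[X] B ≠ ⊥ := by
    rw [ne_eq, ← FractionalIdeal.coeIdeal_inj (K := E), coeIdeal_differentIdeal (K := K)]
    simp
  obtain ⟨z, hz, hz0⟩ := Submodule.exists_mem_ne_zero_of_ne_bot hdiff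
  obtain ⟨c, hc0, hc⟩ := exists_dvd (k := k) z hz0
  refine ⟨c.natDegree, fun Q a w hQ hdeg hQw hfrob => ?_⟩
  have hcQ : ¬ Q ∣ c := fun h => by
    have := natDegree_le_of_dvd h hc0
    omega
  obtain ⟨hF1, hF2⟩ := card_quot hQ
  have hmax := isMaximal_span hQ
  let _ : Field (k[X] ⧸ Ideal.span {Q}) := Ideal.Quotient.field _
  have hwmax : w.asIdeal.IsMaximal := isMaximal_of_mem hQ w.asIdeal hQw
  have hker : ∀ c : k[X], Ideal.Quotient.mk (Ideal.span {Q}) c = 0 ↔ Q ∣ c := fun c => by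
    rw [Ideal.Quotient.eq_zero_iff_mem, Ideal.mem_span_singleton]
  obtain ⟨φ, hφ, hφc⟩ := exists_residue (Ideal.Quotient.mk (Ideal.span {Q}))
    Ideal.Quotient.mk_surjective hker w.asIdeal hwmax hQw
  let κ' : B →ₐ[k[X]] A := galRestrict' k[X] B A κ
  have hκ' : ∀ x, algebraMap A N (κ' x) = κ (algebraMap B E x) := fun x =>
    algebraMap_galRestrict'_apply k[X] B A κ x
  have hσa : ∀ y : E, (σ ^ a) (κ y) = κ y := by
    intro y
    have h1 : ∀ n : ℕ, (σ ^ n) (κ y) = κ y := by
      intro n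
      induction n with
      | zero => rfl
      | succ n ih => rw [pow_succ, AlgEquiv.mul_apply, hσ, ih]
    exact h1 a
  have hfix : ∀ x : B, ∃ d : k[X], φ (κ' (x - algebraMap k[X] B d)) = 0 := by
    intro x
    have h1 := (hφ _).2 (hfrob (κ' x) (κ' x) (by
      change (σ ^ a) (algebraMap A N (κ' x)) = algebraMap A N (κ' x)
      rw [hκ', hσa]))
    rw [map_sub, map_pow, sub_eq_zero, ← hF2] at h1
    obtain ⟨y, hy⟩ := frob_fixed _ h1.symm
    obtain ⟨d, rfl⟩ := Ideal.Quotient.mk_surjective y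
    refine ⟨d, ?_⟩
    rw [map_sub, map_sub, AlgHom.commutes, hφc, ← hy]
    exact sub_self _
  intro v hv
  constructor
  · intro h2
    have h3 : v.asIdeal ^ 2 ∣ (Ideal.span {Q}).map (algebraMap k[X] B) := by
      rw [Ideal.dvd_iff_le, Ideal.map_span, Set.image_singleton, Ideal.span_le,
        Set.singleton_subset_iff]
      exact h2
    have h4 := pow_sub_one_dvd_differentIdeal_aux k[X] K E (p := Ideal.span {Q}) v.asIdeal
      (show (2 : ℕ) ≠ 0 by norm_num)
      (by rw [Ne, Ideal.span_singleton_eq_bot]; exact hQ.ne_zero) h3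
    rw [show 2 - 1 = 1 from rfl, pow_one, Ideal.dvd_iff_le] at h4
    have h5 : algebraMap k[X] B c ∈ v.asIdeal := by
      obtain ⟨e, he⟩ := hc
      rw [he]
      exact Ideal.mul_mem_right _ _ (h4 hz)
    obtain ⟨x₁, x₂, hx⟩ := (hQ.coprime_iff_not_dvd.2 hcQ)
    have h6 := congrArg (algebraMap k[X] B) hx
    rw [map_add, map_mul, map_mul, map_one] at h6
    apply v.isPrime.ne_top
    rw [Ideal.eq_top_iff_one, ← h6]
    exact v.asIdeal.add_mem (v.asIdeal.mul_mem_left _ hv) (v.asIdeal.mul_mem_left _ h5)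
  · intro y
    have hinv : Algebra.IsInvariant k[X] B (B ≃ₐ[k[X]] B) :=
      Algebra.isInvariant_of_isGalois' k[X] K E B
    have hfinG : Finite (B ≃ₐ[k[X]] B) :=
      Finite.of_equiv _ (galRestrict k[X] K E B).toEquiv
    set P : Ideal B := w.asIdeal.comap (κ' : B →+* A) with hP
    have hPp : P.IsPrime := Ideal.comap_isPrime _ _
    have hunder : P.under k[X] = v.asIdeal.under k[X] := by
      have h1 : P.under k[X] = Ideal.span {Q} := by
        symm
        refine hmax.eq_of_le (Ideal.IsPrime.under k[X] P).ne_top ?_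
        rw [Ideal.span_le, Set.singleton_subset_iff]
        change κ' (algebraMap k[X] B Q) ∈ w.asIdeal
        rw [AlgHom.commutes]
        exact hQw
      have h2 : v.asIdeal.under k[X] = Ideal.span {Q} := by
        symm
        refine hmax.eq_of_le (Ideal.IsPrime.under k[X] v.asIdeal).ne_top ?_
        rw [Ideal.span_le, Set.singleton_subset_iff]
        exact hv
      rw [h1, h2]
    obtain ⟨τ, hτ⟩ := Algebra.IsInvariant.exists_smul_of_under_eq k[X] B (B ≃ₐ[k[X]] B) P v.asIdeal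
      hunder
    obtain ⟨d, hd⟩ := hfix (τ⁻¹ • y)
    refine ⟨d, ?_⟩
    rw [hτ, Ideal.mem_pointwise_smul_iff_inv_smul_mem, smul_sub]
    have h1 : τ⁻¹ • algebraMap k[X] B d = algebraMap k[X] B d := AlgEquiv.commutes _ d
    rw [h1]
    exact (hφ _).1 hd

end Pool.Agent.Helper28H.FE.ResA
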