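import Pool.Agent.Helper28H.FE.Stm3
import Pool.Agent.Helper28H.FE.ResB

/-!
# Project FE, piece DEL: primes modulo which the polynomial is irreducible
-/

set_option autoImplicit false
set_option linter.all false

open Polynomial IsDedekindDomain

namespace Pool.Agent.Helper28H.FE

open Pool.Agent.N352.PJ (IsGen dsc Cg Crd)
open Pool.Agent.N874.PP (Ov Ev Sq1)

namespace DelA

open ResA

/-- The polynomial modulo `Q`. -/
theorem irr_part {k : Type} [Field k] {F : Type} [Field F] [Finite F] (r : k[X] →+* F) (n : ℕ)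
    (f : k[X][X]) (hmon : f.Monic) (hdeg : f.natDegree = n) (t : AlgebraicClosure F)
    (hf : f.map (rho r) = ∏ j ∈ Finset.range n, (X - C (t ^ (Nat.card F ^ j))))
    (hinj : ∀ i < n, ∀ j < n, t ^ (Nat.card F ^ i) = t ^ (Nat.card F ^ j) → i = j)
    (hn : 1 ≤ n) : Irreducible (f.map r) := by
  classical
  set fF := f.map r with hfF
  have hmap : fF.map (algebraMap F (AlgebraicClosure F)) = f.map (rho r) := by
    rw [hfF, Polynomial.map_map]
    rfl
  have hfm : fF.Monic := hmon.map _
  have hfd : fF.natDegree = n := by rw [hfF, hmon.natDegree_map, hdeg]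
  have hint : IsIntegral F t := (Algebra.IsAlgebraic.isAlgebraic t).isIntegral
  have hroots : ∀ j, aeval (t ^ (Nat.card F ^ j)) (minpoly F t) = 0 := by
    intro j
    induction j with
    | zero => rw [pow_zero, pow_one, minpoly.aeval]
    | succ j ih =>
      rw [pow_succ, pow_mul, aeval_frob, ih, zero_pow Nat.card_pos.ne']
  have hdvd : minpoly F t ∣ fF := by
    apply minpoly.dvd
    rw [← eval_map_algebraMap, hmap, hf, eval_prod]
    apply Finset.prod_eq_zero (Finset.mem_range.2 (show 0 < n by omega))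
    rw [pow_zero, pow_one, eval_sub, eval_X, eval_C, sub_self]
  have hcard : n ≤ (minpoly F t).natDegree := by
    have h0 : (minpoly F t).map (algebraMap F (AlgebraicClosure F)) ≠ 0 :=
      ((minpoly.monic hint).map _).ne_zero
    have h1 : ((Finset.range n).image fun j => t ^ (Nat.card F ^ j)).card = n := by
      rw [Finset.card_image_of_injOn, Finset.card_range]
      intro i hi j hj hij
      exact hinj i (Finset.mem_range.1 hi) j (Finset.mem_range.1 hj) hij
    have h2 : ((Finset.range n).image fun j => t ^ (Nat.card F ^ j)) ⊆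
        ((minpoly F t).map (algebraMap F (AlgebraicClosure F))).roots.toFinset := by
      intro y hy
      obtain ⟨j, -, rfl⟩ := Finset.mem_image.1 hy
      rw [Multiset.mem_toFinset, mem_roots h0, IsRoot.def, eval_map_algebraMap]
      exact hroots j
    have h3 := Finset.card_le_card h2
    rw [h1] at h3
    refine h3.trans ((Multiset.toFinset_card_le _).trans ((card_roots' _).trans ?_))
    rw [(minpoly.monic hint).natDegree_map]
  have heq : fF = minpoly F t :=
    eq_of_monic_of_dvd_of_natDegree_le (minpoly.monic hint) hfm hdvd (by rw [hfd]; exact hcard)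
  rw [heq]
  exact minpoly.irreducible hint

/-- The prime for given data. -/
theorem core {k K N : Type} [Field k] [Finite k] [Field K] [Algebra k[X] K]
    [IsFractionRing k[X] K]
    [Field N] [Algebra K N] [Algebra k[X] N] [IsScalarTower k[X] K N] [FiniteDimensional K N]
    [IsGalois K N]
    (g : ℕ) (f : k[X][X]) (P₀ : k[X]) (hyp : Hyp K g f P₀) (σ : N ≃ₐ[K] N) (x : N)
    (hf : f.map (algebraMap k[X] N) =
      ∏ j ∈ Finset.range (2 * g + 1), (X - C ((σ ^ j) x)))
    (hσ2 : (σ ^ (2 * g + 1)) x = x) :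
    ∃ M : ℕ, ∀ (Q : k[X]) (a : ℕ) (w : HeightOneSpectrum (integralClosure k[X] N)),
      Irreducible Q → M < Q.natDegree → algebraMap k[X] (integralClosure k[X] N) Q ∈ w.asIdeal →
      a.Coprime (orderOf σ) →
      (∀ x y : integralClosure k[X] N, (σ ^ a) (x : N) = y →
        y - x ^ (Nat.card k ^ Q.natDegree) ∈ w.asIdeal) →
        Irreducible (f.map (Ideal.Quotient.mk (Ideal.span {Q}))) := by
  classical
  obtain ⟨n, hn⟩ : ∃ n, n = 2 * g + 1 := ⟨_, rfl⟩
  have hn0 : 0 < n := by omega
  have hfd : f.natDegree = n := by rw [hn, hyp.deg]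
  set A := integralClosure k[X] N with hA
  have hjinj : Function.Injective (algebraMap k[X] N) := by
    rw [IsScalarTower.algebraMap_eq k[X] K N]
    exact (algebraMap K N).injective.comp (IsFractionRing.injective k[X] K)
  have hdisc : dsc g f ≠ 0 := fun h => hyp.ndvd (by rw [h]; exact dvd_zero _)
  have hsep := separable_of_dsc (algebraMap k[X] N) hjinj g f hyp.deg hdisc
  rw [← hn] at hf hσ2
  rw [hf] at hsep
  have hinj : ∀ i < n, ∀ j < n, (σ ^ i) x = (σ ^ j) x → i = j := by
    have h1 := separable_prod_X_sub_C_iff'.1 hsep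
    intro i hi j hj hij
    exact h1 i (Finset.mem_range.2 hi) j (Finset.mem_range.2 hj) hij
  have hper1 : ∀ m : ℕ, ((σ ^ n) ^ m) x = x := by
    intro m
    induction m with
    | zero => rfl
    | succ m ih => rw [pow_succ, AlgEquiv.mul_apply, hσ2, ih]
  have hper : ∀ m : ℕ, (σ ^ m) x = (σ ^ (m % n)) x := by
    intro m
    conv_lhs => rw [← Nat.mod_add_div m n, pow_add, pow_mul, AlgEquiv.mul_apply, hper1]
  have hord : n ∣ orderOf σ := by
    have h1 := hper (orderOf σ)
    rw [pow_orderOf_eq_one] at h1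
    have h2 := hinj (orderOf σ % n) (Nat.mod_lt _ hn0) 0 hn0 (by rw [← h1, pow_zero])
    exact Nat.dvd_of_mod_eq_zero h2
  -- the integral elements
  have hxint : IsIntegral k[X] x := by
    refine ⟨f, hyp.mon, ?_⟩
    rw [← eval_map, hf, eval_prod]
    apply Finset.prod_eq_zero (Finset.mem_range.2 hn0)
    rw [pow_zero, eval_sub, eval_X, eval_C]
    exact sub_self x
  obtain ⟨x₁, hx₁⟩ : ∃ x₁ : A, algebraMap A N x₁ = x :=
    (IsIntegralClosure.isIntegral_iff (A := A)).1 hxint
  let s : A ≃ₐ[k[X]] A := galRestrict k[X] K N A σ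
  have hs : ∀ x : A, algebraMap A N (s x) = σ (algebraMap A N x) := fun x =>
    algebraMap_galRestrict_apply k[X] σ x
  have hAinj : Function.Injective (algebraMap A N) :=
    IsIntegralClosure.algebraMap_injective A k[X] N
  -- the product of the elements which have to be units
  set E : A := ∏ i ∈ Finset.range n, ∏ j ∈ Finset.range n,
      (if i = j then 1 else (s ^ i) x₁ - (s ^ j) x₁) with hE
  have hE0 : E ≠ 0 := by
    rw [hE, Finset.prod_ne_zero_iff]
    intro i hi
    rw [Finset.prod_ne_zero_iff]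
    intro j hj
    split_ifs with hij
    · exact one_ne_zero
    · intro h
      apply hij
      have h1 := congrArg (algebraMap A N) (sub_eq_zero.1 h)
      rw [s_pow σ s hs, s_pow σ s hs, hx₁] at h1
      exact hinj i (Finset.mem_range.1 hi) j (Finset.mem_range.1 hj) h1
  obtain ⟨c, hc0, hEc⟩ := exists_dvd (k := k) E hE0
  refine ⟨c.natDegree, fun Q a w hQ hdeg hQw hcop hfrob => ?_⟩
  have hcQ : ¬ Q ∣ c := fun h => by
    have := natDegree_le_of_dvd h hc0
    omega
  obtain ⟨hF1, hF2⟩ := card_quot hQ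
  have hmax := isMaximal_span hQ
  let _ : Field (k[X] ⧸ Ideal.span {Q}) := Ideal.Quotient.field _
  have hwmax : w.asIdeal.IsMaximal := isMaximal_of_mem hQ w.asIdeal hQw
  have hker : ∀ c : k[X], Ideal.Quotient.mk (Ideal.span {Q}) c = 0 ↔ Q ∣ c := fun c => by
    rw [Ideal.Quotient.eq_zero_iff_mem, Ideal.mem_span_singleton]
  set r := Ideal.Quotient.mk (Ideal.span {Q}) with hr
  have hrs : Function.Surjective r := Ideal.Quotient.mk_surjective
  obtain ⟨φ, hφ, hφc⟩ := exists_residue r hrs hker w.asIdeal hwmax hQw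
  set q := Nat.card (k[X] ⧸ Ideal.span {Q}) with hq
  -- the automorphism
  have hcop2 : a.Coprime n := hcop.coprime_dvd_right hord
  let s' : A ≃ₐ[k[X]] A := s ^ a
  have hs' : ∀ x : A, algebraMap A N (s' x) = (σ ^ a) (algebraMap A N x) := fun x =>
    s_pow σ s hs a x
  have hφs : ∀ x : A, φ (s' x) = φ x ^ q := by
    intro x
    have h1 := (hφ _).2 (hfrob x (s' x) (hs' x).symm)
    rwa [map_sub, map_pow, sub_eq_zero, ← hF2] at h1
  have hmodinj : ∀ i < n, ∀ j < n, (a * i) % n = (a * j) % n → i = j := by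
    intro i hi j hj hij
    have h1 : i ≡ j [MOD n] := Nat.ModEq.cancel_left_of_coprime (c := a) (by
      rw [Nat.gcd_comm]; exact hcop2) hij
    have h2 : i % n = j % n := h1
    rwa [Nat.mod_eq_of_lt hi, Nat.mod_eq_of_lt hj] at h2
  have hsj : ∀ j : ℕ, (s' ^ j) x₁ = (s ^ ((a * j) % n)) x₁ := by
    intro j
    apply hAinj
    rw [s_pow σ s hs, s_pow (σ ^ a) s' hs', hx₁, ← pow_mul, hper]
  have hprod : ∏ j ∈ Finset.range n, (X - C ((s ^ j) x₁)) =
      ∏ j ∈ Finset.range n, (X - C ((s' ^ j) x₁)) := by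
    symm
    have hmaps : Set.MapsTo (fun j => (a * j) % n) (Finset.range n : Set ℕ)
        (Finset.range n : Set ℕ) := fun j _ =>
      Finset.mem_coe.2 (Finset.mem_range.2 (Nat.mod_lt _ hn0))
    have hinjOn : Set.InjOn (fun j => (a * j) % n) (Finset.range n : Set ℕ) :=
      fun i hi j hj hij => hmodinj i (Finset.mem_range.1 (Finset.mem_coe.1 hi)) j
        (Finset.mem_range.1 (Finset.mem_coe.1 hj)) hij
    refine Finset.prod_nbij (fun j => (a * j) % n) (fun j hj => hmaps hj) hinjOn ?_
      (fun j _ => by rw [hsj])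
    exact Finset.surjOn_of_injOn_of_card_le _ hmaps hinjOn le_rfl
  -- the units
  have hφE : φ E ≠ 0 := by
    intro h
    have h1 : φ (algebraMap k[X] A c) = 0 := by
      obtain ⟨e, he⟩ := hEc
      rw [he, map_mul, h, zero_mul]
    rw [hφc, rho_zero r hker] at h1
    exact hcQ h1
  rw [hE, map_prod, Finset.prod_ne_zero_iff] at hφE
  have hv1 : ∀ j, φ ((s' ^ j) x₁) = φ x₁ ^ (q ^ j) := fun j => frob_pow hφs j _
  have hv2 : ∀ i < n, ∀ j < n, φ x₁ ^ (q ^ i) = φ x₁ ^ (q ^ j) → i = j := by
    intro i hi j hj hij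
    apply hmodinj i hi j hj
    by_contra hne
    have h1 := hφE ((a * i) % n) (Finset.mem_range.2 (Nat.mod_lt _ hn0))
    rw [map_prod, Finset.prod_ne_zero_iff] at h1
    have h2 := h1 ((a * j) % n) (Finset.mem_range.2 (Nat.mod_lt _ hn0))
    rw [if_neg hne, map_sub, ← hsj, ← hsj, hv1, hv1, hij, sub_self] at h2
    exact h2 rfl
  -- the factorization
  have hfO : f.map (algebraMap k[X] A) =
      ∏ j ∈ Finset.range n, (X - C ((s' ^ j) x₁)) := by
    rw [← hprod]
    apply Polynomial.map_injective (algebraMap A N) hAinj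
    rw [Polynomial.map_map, Polynomial.map_prod]
    simp only [Polynomial.map_sub, map_X, map_C, s_pow σ s hs, hx₁]
    rw [← hf, ← IsScalarTower.algebraMap_eq]
  have hcompΩ : (φ.comp (algebraMap k[X] A)) = rho r := RingHom.ext hφc
  have hfΩ : f.map (rho r) = ∏ j ∈ Finset.range n, (X - C (φ x₁ ^ (q ^ j))) := by
    have h1 := congrArg (Polynomial.map φ) hfO
    rw [Polynomial.map_map, Polynomial.map_prod, hcompΩ] at h1
    simp only [Polynomial.map_sub, map_X, map_C, hv1] at h1
    exact h1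
  exact irr_part r n f hyp.mon hfd (φ x₁) hfΩ hv2 hn0

end DelA

open ResA

/-- **DEL.** -/
theorem t_del : F_DEL := by
  intro hFROB hGALN g k K E _ _ _ _ _ _ _ _ _ _ _ f P₀ hyp hunr B
  obtain ⟨N, _, _, _, _, σ, x, κ, hκ, hf, hσ2⟩ := hGALN g k K E f P₀ hyp hunr
  let _ : Algebra k[X] N := ((algebraMap K N).comp (algebraMap k[X] K)).toAlgebra
  have : IsScalarTower k[X] K N := IsScalarTower.of_algebraMap_eq' rfl
  obtain ⟨M₁, hM₁⟩ := splits_part (k := k) κ σ hκ
  obtain ⟨M₂, hM₂⟩ := DelA.core (k := k) g f P₀ hyp σ x hf hσ2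
  obtain ⟨Q, a, w, c1, c2, c3, c4, c5, c6⟩ := hFROB k K N σ (max B (max M₁ M₂))
  have d := hM₂ Q a w c2
    (lt_of_le_of_lt ((le_max_right _ _).trans (le_max_right _ _)) c3) c4 c5 c6
  exact ⟨Q, c1, c2, lt_of_le_of_lt (le_max_left _ _) c3,
    hM₁ Q a w c2 (lt_of_le_of_lt ((le_max_left _ _).trans (le_max_right _ _)) c3) c4 c6, d⟩

end Pool.Agent.Helper28H.FE
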