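import Pool.Agent.Helper28H.FE.BasA
import Pool.Agent.N765.PJ.Exq

/-!
# Project FE, piece EXQ (A_EXQ, A_CSQ): the two primes over `Q`

Port of `Pool/Agent/N765/PJ/Exq.lean` and `Base.lean` with the local statement `A_INT` instead of
`S_INT` (cf. `Pool/Agent/H30T/Exq.lean`), by helper98.
-/

set_option autoImplicit false
set_option linter.all false

open Polynomial IsDedekindDomain WithZero
open scoped Classical

namespace Pool.Agent.Helper28H.FE.Exq

open Pool.Agent.N352.PJ (Mt IsGen dsc Cg Crd)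
open Pool.Agent.N765.PJ
open Pool.Agent.N874.PP (Ov Ev Sq1 U0)
open Pool.Agent.Helper28H.FE.BasA (exists_inv not_dvd_dsc_Q sep_of_irr)

section main

variable {k K L O : Type} [Field k] [Field K] [Algebra k[X] K] [IsFractionRing k[X] K]
  [Field L] [Algebra K L] [Algebra k[X] L] [IsScalarTower k[X] K L] [CommRing O]
  [IsDedekindDomain O] [Algebra O L] [IsFractionRing O L] [Algebra k[X] O]
  [IsScalarTower k[X] O L] [IsIntegralClosure O k[X] L] {g : ℕ} {f : k[X][X]} {θ : L}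

theorem ev_C' (t : O) (c : k[X]) : ev t (C c) = algebraMap k[X] O c := by simp [ev]

/-- integers as values of polynomials, up to a factor prime to `P` -/
theorem ev_loc (hI : A_INT) (h : IsGen g K f θ) {t : O} (ht : algebraMap O L t = θ) {P : k[X]}
    (hP : Irreducible P) (hD : Gd g f P) (z : O) :
    ∃ (s : k[X]) (p : k[X][X]), ¬ P ∣ s ∧ ev t p = algebraMap k[X] O s * z := by
  obtain ⟨s, v, hs, hv⟩ := hI g k K L f θ h P hP hD _ ((int_iff (k := k) O _).2 ⟨z, rfl⟩)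
  have h1 : Crd g θ v (algebraMap O L (algebraMap k[X] O s * z)) := by
    rw [map_mul, mapO]
    exact hv
  obtain ⟨p, -, hp, -⟩ := crd_poly ht h1
  exact ⟨s, p, hs, hp⟩

/-- the same modulo `P` -/
theorem ev_one (hI : A_INT) (h : IsGen g K f θ) {t : O} (ht : algebraMap O L t = θ) {P : k[X]}
    (hP : Irreducible P) (hD : Gd g f P) (z : O) :
    ∃ (a : k[X]) (p : k[X][X]), P ∣ a ∧ ev t p = z + algebraMap k[X] O a * z := by
  obtain ⟨s, p, hs, hp'⟩ := ev_loc hI h ht hP hD z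
  obtain ⟨u, hu⟩ := exists_inv hP hs
  refine ⟨u * s - 1, C u * p, hu, ?_⟩
  rw [map_mul, ev_C', hp', ← mul_assoc, ← map_mul, map_sub, map_one]
  ring

/-- the map to `AdjoinRoot m` for a factor `m` of `f` modulo `P` -/
theorem ex_psiT (hI : A_INT) (h : IsGen g K f θ) {t : O} (ht : algebraMap O L t = θ) {P : k[X]}
    (hP : Irreducible P) (hD : Gd g f P) (m : (k[X] ⧸ Ideal.span {P})[X])
    (hm : m ∣ f.map (rd P)) : ∃ ψ : O →+* AdjoinRoot m,
      ∀ p : k[X][X], ψ (ev t p) = AdjoinRoot.mk m (p.map (rd P)) := by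
  set I : Ideal O := Ideal.span {algebraMap k[X] O P} with hIdef
  have hsurj : Function.Surjective ((Ideal.Quotient.mk I).comp (ev (k := k) t)) := by
    intro w
    obtain ⟨z, rfl⟩ := Ideal.Quotient.mk_surjective w
    obtain ⟨a, p, ⟨b, rfl⟩, hp'⟩ := ev_one hI h ht hP hD z
    refine ⟨p, ?_⟩
    rw [RingHom.comp_apply, hp', Ideal.Quotient.eq]
    have e : z + algebraMap k[X] O (P * b) * z - z =
        algebraMap k[X] O b * z * algebraMap k[X] O P := by
      rw [map_mul]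
      ring
    rw [e]
    exact I.mul_mem_left _ (Ideal.mem_span_singleton_self _)
  have hk : RingHom.ker ((Ideal.Quotient.mk I).comp (ev (k := k) t)) ≤
      RingHom.ker ((AdjoinRoot.mk m).comp (mapRingHom (rd P))) := by
    intro p hp'
    rw [RingHom.mem_ker, RingHom.comp_apply, Ideal.Quotient.eq_zero_iff_mem, hIdef,
      Ideal.mem_span_singleton'] at hp'
    obtain ⟨z, hz⟩ := hp'
    obtain ⟨s, r, hs, hr⟩ := ev_loc hI h ht hP hD z
    have h1 : ev t (C s * p - C P * r) = 0 := by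
      rw [map_sub, map_mul, map_mul, ev_C', ev_C', hr, ← hz]
      ring
    obtain ⟨c, hc⟩ := ev_ker (K := K) h ht h1
    have hP0 : rd P P = 0 := Ideal.Quotient.eq_zero_iff_mem.2 (Ideal.mem_span_singleton_self P)
    have h2 : C (rd P s) * p.map (rd P) = f.map (rd P) * c.map (rd P) := by
      rw [← Polynomial.map_mul, ← hc, Polynomial.map_sub, Polynomial.map_mul, Polynomial.map_mul,
        Polynomial.map_C, Polynomial.map_C, hP0, C_0, zero_mul, sub_zero]
    rw [RingHom.mem_ker, RingHom.comp_apply, coe_mapRingHom]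
    have h4 : AdjoinRoot.mk m (C (rd P s) * p.map (rd P)) = 0 := by
      rw [h2]
      exact AdjoinRoot.mk_eq_zero.2 (hm.mul_right _)
    obtain ⟨u, hu⟩ := exists_inv hP hs
    have h5 : rd P u * rd P s = 1 := by
      rw [← map_mul, ← map_one (rd P), Ideal.Quotient.eq]
      exact Ideal.mem_span_singleton.2 hu
    have h6 : p.map (rd P) = C (rd P u) * (C (rd P s) * p.map (rd P)) := by
      rw [← mul_assoc, ← C_mul, h5, C_1, one_mul]
    rw [h6, map_mul, h4, mul_zero]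
  refine ⟨(((Ideal.Quotient.mk I).comp (ev (k := k) t)).liftOfSurjective hsurj
    ⟨_, hk⟩).comp (Ideal.Quotient.mk I), fun p => ?_⟩
  have h1 := RingHom.liftOfRightInverse_comp_apply ((Ideal.Quotient.mk I).comp (ev (k := k) t))
    (Function.surjInv hsurj) (Function.rightInverse_surjInv hsurj) ⟨_, hk⟩ p
  exact h1

/-- a prime over `P` which contains `m(t)` -/
theorem eq_kerT (hI : A_INT) (h : IsGen g K f θ) {t : O} (ht : algebraMap O L t = θ) {P : k[X]}
    (hP : Irreducible P) (hD : Gd g f P) {m : k[X][X]}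
    (hm : Irreducible (m.map (rd P))) {ψ : O →+* AdjoinRoot (m.map (rd P))}
    (hψ : ∀ p : k[X][X], ψ (ev t p) = AdjoinRoot.mk (m.map (rd P)) (p.map (rd P)))
    {𝔓 : HeightOneSpectrum O} (hov : Ov P 𝔓) (hmem : ev t m ∈ 𝔓.asIdeal) :
    𝔓.asIdeal = RingHom.ker ψ := by
  symm
  refine (ker_max hP hm hψ).eq_of_le 𝔓.isPrime.ne_top fun z hz => ?_
  obtain ⟨s, p, hs, hp⟩ := ev_loc hI h ht hP hD z
  have h1 : ψ (ev t p) = 0 := by
    rw [hp, map_mul, (RingHom.mem_ker (f := ψ)).1 hz, mul_zero]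
  rw [hψ, AdjoinRoot.mk_eq_zero] at h1
  have h2 := mem_of_dvd hov hmem h1
  rw [hp] at h2
  rcases 𝔓.isPrime.mem_or_mem h2 with h3 | h3
  · exact absurd ((ov_iff hP hov s).1 h3) hs
  · exact h3

end main

/-- the reduction of `h Q` -/
theorem hbarU {k : Type} [Field k] {g : ℕ} {S : Finset k[X]} {h : k[X] → k[X][X]}
    (hS : GoodU g S h) {Q : k[X]} (hQ : Q ∈ S) (hg : 1 ≤ g) :
    ((h Q).map (rd Q)).natDegree = 2 * g ∧ ¬ (h Q).map (rd Q) ∣ X := by
  obtain ⟨h1, h2, h3, h4, h6⟩ := hS Q hQ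
  have hmax : (Ideal.span {Q} : Ideal k[X]).IsMaximal :=
    PrincipalIdealRing.isMaximal_of_irreducible h2
  let i1 : Field (k[X] ⧸ Ideal.span {Q}) := Ideal.Quotient.field _
  have h7 : ((h Q).map (rd Q)).natDegree = 2 * g := by
    rw [h3.natDegree_map, h4]
  refine ⟨h7, fun hd => ?_⟩
  have h8 : ((h Q).map (rd Q)).natDegree ≤ (X : (k[X] ⧸ Ideal.span {Q})[X]).natDegree :=
    natDegree_le_of_dvd hd X_ne_zero
  rw [h7, natDegree_X] at h8
  omega

/-- the reduction of `f` is separable -/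
theorem sep_f {k : Type} [Field k] [Finite k] {g : ℕ} {f : k[X][X]} {S : Finset k[X]}
    {h : k[X] → k[X][X]} (hS : GoodU g S h) {Q : k[X]} (hQ : Q ∈ S) (hg : 1 ≤ g)
    (hC : Cg Q f (X * h Q)) : (f.map (rd Q)).Separable := by
  obtain ⟨hbd, hbX⟩ := hbarU hS hQ hg
  obtain ⟨hQm, hQi, hm, hdeg, hirr⟩ := hS Q hQ
  have hmax : (Ideal.span {Q} : Ideal k[X]).IsMaximal :=
    PrincipalIdealRing.isMaximal_of_irreducible hQi
  letI : Field (k[X] ⧸ Ideal.span {Q}) := Ideal.Quotient.field _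
  have hfb : f.map (rd Q) = X * (h Q).map (rd Q) := by
    rw [map_eq_of_cg hC, Polynomial.map_mul, Polynomial.map_X]
  rw [hfb]
  exact separable_X.mul (sep_of_irr hQi hirr) ((hirr.coprime_iff_not_dvd).2 hbX).symm

end Pool.Agent.Helper28H.FE.Exq

namespace Pool.Agent.Helper28H.FE

open Pool.Agent.N352.PJ (Mt IsGen dsc Cg Crd)
open Pool.Agent.N765.PJ
open Pool.Agent.N874.PP (Ov Ev Sq1 U0)
open Pool.Agent.Helper28H.FE.BasA (exists_inv not_dvd_dsc_Q sep_of_irr)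
open Exq

/-- **EXQ.** -/
theorem a_exq (hI : A_INT) : A_EXQ := by
  intro g k K L O _ _ _ _ _ _ _ _ _ _ _ _ _ _ _ _ f θ S h hg hG hS Q hQS hcg
  have hnd := not_dvd_dsc_Q hg hG.mon hG.deg hS hQS hcg
  have hD : Gd g f Q := fun h1 => hnd ((dvd_pow_self Q two_ne_zero).trans h1)
  obtain ⟨hbd, hbX⟩ := hbarU hS hQS hg
  obtain ⟨hQm, hQ, hm, hdeg, hirr⟩ := hS Q hQS
  obtain ⟨t, ht⟩ := theta_ex O hG
  have hfb : f.map (rd Q) = X * (h Q).map (rd Q) := by
    rw [map_eq_of_cg hcg, Polynomial.map_mul, Polynomial.map_X]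
  have hQ0 : algebraMap k[X] O Q ≠ 0 := by
    intro h0
    exact hQ.ne_zero (injO K L O (by rw [h0, map_zero]))
  obtain ⟨ψ₁, hψ₁⟩ := ex_psiT (K := K) hI hG ht hQ hD ((X : k[X][X]).map (rd Q))
    (by rw [hfb, Polynomial.map_X]; exact Dvd.intro _ rfl)
  obtain ⟨ψ₂, hψ₂⟩ := ex_psiT (K := K) hI hG ht hQ hD ((h Q).map (rd Q))
    (by rw [hfb]; exact ⟨X, X_mul⟩)
  have hirX := irrX hQ
  have hm1 := ker_max hQ hirX hψ₁
  have hm2 := ker_max hQ hirr hψ₂
  have hrdQ : (C Q : k[X][X]).map (rd Q) = 0 := by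
    rw [Polynomial.map_C]
    have : rd Q Q = 0 := Ideal.Quotient.eq_zero_iff_mem.2 (Ideal.mem_span_singleton_self Q)
    rw [this, C_0]
  have hevC : ev t (C Q) = algebraMap k[X] O Q := by simp [ev]
  have q1 : algebraMap k[X] O Q ∈ RingHom.ker ψ₁ := by
    rw [RingHom.mem_ker, ← hevC, hψ₁, hrdQ, map_zero]
  have q2 : algebraMap k[X] O Q ∈ RingHom.ker ψ₂ := by
    rw [RingHom.mem_ker, ← hevC, hψ₂, hrdQ, map_zero]
  have hb1 : RingHom.ker ψ₁ ≠ ⊥ := fun h0 => hQ0 (by rwa [h0, Ideal.mem_bot] at q1)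
  have hb2 : RingHom.ker ψ₂ ≠ ⊥ := fun h0 => hQ0 (by rwa [h0, Ideal.mem_bot] at q2)
  let 𝔓₁ : HeightOneSpectrum O := ⟨RingHom.ker ψ₁, hm1.isPrime, hb1⟩
  let 𝔮 : HeightOneSpectrum O := ⟨RingHom.ker ψ₂, hm2.isPrime, hb2⟩
  have ov1 : Ov Q 𝔓₁ := q1
  have ov2 : Ov Q 𝔮 := q2
  have ht1 : t ∈ 𝔓₁.asIdeal := by
    show t ∈ RingHom.ker ψ₁
    rw [RingHom.mem_ker, ← ev_X (k := k) t, hψ₁]
    exact AdjoinRoot.mk_eq_zero.2 dvd_rfl
  have ht2 : t ∉ 𝔮.asIdeal := by
    show t ∉ RingHom.ker ψ₂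
    rw [RingHom.mem_ker, ← ev_X (k := k) t, hψ₂, AdjoinRoot.mk_eq_zero, Polynomial.map_X]
    exact hbX
  have hprod : 𝔓₁.asIdeal * 𝔮.asIdeal ≤ Ideal.span {algebraMap k[X] O Q} := by
    rw [Ideal.mul_le]
    intro x hx y hy
    obtain ⟨a, p, ⟨b, rfl⟩, hp⟩ := ev_one (K := K) hI hG ht hQ hD x
    obtain ⟨a', p', ⟨b', rfl⟩, hp'⟩ := ev_one (K := K) hI hG ht hQ hD y
    change x ∈ RingHom.ker ψ₁ at hx
    change y ∈ RingHom.ker ψ₂ at hy
    have hx' : ψ₁ (ev t p) = 0 := by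
      rw [hp, map_add, map_mul, (RingHom.mem_ker (f := ψ₁)).1 hx, mul_zero, add_zero]
    have hy' : ψ₂ (ev t p') = 0 := by
      rw [hp', map_add, map_mul, (RingHom.mem_ker (f := ψ₂)).1 hy, mul_zero, add_zero]
    rw [hψ₁, AdjoinRoot.mk_eq_zero, Polynomial.map_X] at hx'
    rw [hψ₂, AdjoinRoot.mk_eq_zero] at hy'
    have h1 : ev t (p * p') ∈ Ideal.span {algebraMap k[X] O Q} := by
      refine mem_of_dvd (m := f) (Ideal.mem_span_singleton_self _) ?_ ?_
      · rw [ev_f hG ht]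
        exact Ideal.zero_mem _
      · rw [hfb, Polynomial.map_mul]
        exact mul_dvd_mul hx' hy'
    rw [map_mul, hp, hp'] at h1
    have e : x * y = (x + algebraMap k[X] O (Q * b) * x) * (y + algebraMap k[X] O (Q * b') * y) -
        (algebraMap k[X] O b * (x * y) + algebraMap k[X] O b' *
          (x * y + algebraMap k[X] O (Q * b) * (x * y))) * algebraMap k[X] O Q := by
      rw [map_mul, map_mul]
      ring
    rw [e]
    exact Ideal.sub_mem _ h1 (Ideal.mul_mem_left _ _ (Ideal.mem_span_singleton_self _))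
  have hvt : 𝔮.valuation L θ = 1 := by
    rw [← ht]
    exact 𝔮.valuation_eq_one_iff_notMem.mpr ht2
  refine ⟨𝔓₁, 𝔮, ov1, ov2, ?_, hvt, ?_, ?_, ?_⟩
  · rw [← ht]
    exact (𝔓₁.valuation_lt_one_iff_mem _).mpr ht1
  · rw [IsScalarTower.algebraMap_apply k[X] O L]
    refine val_one hQ0 ov1 fun hmem => ?_
    have h1 : 𝔓₁.asIdeal * 𝔮.asIdeal ≤ 𝔓₁.asIdeal ^ 2 :=
      hprod.trans ((Ideal.span_singleton_le_iff_mem _).mpr hmem)
    rw [← Ideal.dvd_iff_le, sq] at h1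
    have h2 : 𝔓₁.asIdeal ∣ 𝔮.asIdeal := (mul_dvd_mul_iff_left (a := 𝔓₁.asIdeal) hb1).mp h1
    rw [Ideal.dvd_iff_le] at h2
    have h3 := hm2.eq_of_le 𝔓₁.isPrime.ne_top h2
    apply ht2
    show t ∈ RingHom.ker ψ₂
    rw [h3]
    exact ht1
  · rw [IsScalarTower.algebraMap_apply k[X] O L]
    refine val_one hQ0 ov2 fun hmem => ?_
    have h1 : 𝔓₁.asIdeal * 𝔮.asIdeal ≤ 𝔮.asIdeal ^ 2 :=
      hprod.trans ((Ideal.span_singleton_le_iff_mem _).mpr hmem)
    rw [← Ideal.dvd_iff_le, sq] at h1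
    have h2 : 𝔮.asIdeal ∣ 𝔓₁.asIdeal := (mul_dvd_mul_iff_right (a := 𝔮.asIdeal) hb2).mp h1
    rw [Ideal.dvd_iff_le] at h2
    exact ht2 (h2 ht1)
  · intro 𝔓 hov
    rcases mem_or hG ht hcg hov with hmm | hmm
    · left
      apply HeightOneSpectrum.ext
      exact eq_kerT (K := K) hI hG ht hQ hD hirX hψ₁ hov (by rw [ev_X]; exact hmm)
    · right
      apply HeightOneSpectrum.ext
      exact eq_kerT (K := K) hI hG ht hQ hD hirr hψ₂ hov hmm

/-- **CSQ.** -/
theorem a_csq (hI : A_INT) : A_CSQ := by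
  intro g k K L O _ _ _ _ _ _ _ _ _ _ _ _ _ _ _ _ f θ S h hg hG hS Q hQS hcg
  have hnd := not_dvd_dsc_Q hg hG.mon hG.deg hS hQS hcg
  have hD : Gd g f Q := fun h1 => hnd ((dvd_pow_self Q two_ne_zero).trans h1)
  obtain ⟨hbd, hbX⟩ := hbarU hS hQS hg
  have hsep := sep_f hS hQS hg hcg
  obtain ⟨hQm, hQ, hm, hdeg, hirr⟩ := hS Q hQS
  obtain ⟨t, ht⟩ := theta_ex O hG
  have hfb : f.map (rd Q) = X * (h Q).map (rd Q) := by
    rw [map_eq_of_cg hcg, Polynomial.map_mul, Polynomial.map_X]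
  refine ⟨?_, hnd, ?_⟩
  · intro 𝔮 hov hv
    obtain ⟨ψ, hψ⟩ := ex_psiT (K := K) hI hG ht hQ hD ((h Q).map (rd Q))
      (by rw [hfb]; exact ⟨X, X_mul⟩)
    have htn : t ∉ 𝔮.asIdeal := by
      rw [← ht] at hv
      exact 𝔮.valuation_eq_one_iff_notMem.mp hv
    have hker : 𝔮.asIdeal = RingHom.ker ψ :=
      eq_kerT (K := K) hI hG ht hQ hD hirr hψ hov ((mem_or hG ht hcg hov).resolve_left htn)
    obtain ⟨c1, c2, c3, c4⟩ := card_adj hQ hirr
    have hmax : (Ideal.span {Q} : Ideal k[X]).IsMaximal :=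
      PrincipalIdealRing.isMaximal_of_irreducible hQ
    let i1 : Field (k[X] ⧸ Ideal.span {Q}) := Ideal.Quotient.field _
    have i2 : Fact (Irreducible ((h Q).map (rd Q))) := ⟨hirr⟩
    constructor
    · intro c hc
      have hc0 : rd Q c ≠ 0 := fun h0 =>
        hc (Ideal.mem_span_singleton.1 (Ideal.Quotient.eq_zero_iff_mem.1 h0))
      have hsq' : IsSquare (AdjoinRoot.of ((h Q).map (rd Q)) (rd Q c)) :=
        sq_even (AdjoinRoot.of ((h Q).map (rd Q))) (g := g) (by rw [c1, hbd]) _ hc0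
      obtain ⟨a, ha⟩ := hsq'
      obtain ⟨z, rfl⟩ := psi_surj hψ a
      have hev : ev t (C c) = algebraMap k[X] O c := by simp [ev]
      have h1 : ψ (algebraMap k[X] O c - z ^ 2) = 0 := by
        rw [map_sub, map_pow, ← hev, hψ, Polynomial.map_C, AdjoinRoot.mk_C, ha]
        ring
      have h2 : algebraMap k[X] O c - z ^ 2 ∈ 𝔮.asIdeal := by
        rw [hker]; exact h1
      have h3 : algebraMap k[X] O c ∉ 𝔮.asIdeal := fun h4 => hc ((ov_iff hQ hov c).1 h4)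
      refine ⟨algebraMap O L z, ?_⟩
      rw [IsScalarTower.algebraMap_apply k[X] O L, ← map_pow, ← map_sub,
        𝔮.valuation_eq_one_iff_notMem.mpr h3]
      exact (𝔮.valuation_lt_one_iff_mem _).mpr h2
    · rw [hker, Nat.card_congr (RingHom.quotientKerEquivOfSurjective (psi_surj hψ)).toEquiv, c1, c2,
        hbd, ← pow_mul]
      congr 1
      ring
  · intro 𝔓 hov
    obtain ⟨a, b, hab⟩ := hsep
    obtain ⟨a, rfl⟩ := rd_surj Q a
    obtain ⟨b, rfl⟩ := rd_surj Q b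
    rw [← ev_L (k := k) (O := O) ht]
    refine 𝔓.valuation_eq_one_iff_notMem.mpr fun hmem => ?_
    have h1 : ev t (a * f + b * derivative f) ∈ 𝔓.asIdeal := by
      rw [map_add, map_mul, map_mul, ev_f hG ht, mul_zero, zero_add]
      exact Ideal.mul_mem_left _ _ hmem
    have h2 : (a * f + b * derivative f).map (rd Q) ∣ (1 : k[X][X]).map (rd Q) := by
      have e : (a * f + b * derivative f).map (rd Q) = 1 := by
        rw [Polynomial.map_add, Polynomial.map_mul, Polynomial.map_mul, ← derivative_map]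
        exact hab
      rw [e]
      exact one_dvd _
    have h3 := mem_of_dvd (m := a * f + b * derivative f) hov h1 h2
    rw [map_one] at h3
    exact 𝔓.isPrime.ne_top ((Ideal.eq_top_iff_one _).2 h3)

end Pool.Agent.Helper28H.FE
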