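import Pool.Agent.Helper28H.FE.Stm

/-!
# Project FE, piece FIN (helper13): the 2-Selmer group of a Dedekind domain over `k[t]` is finite

`sel`: a Dedekind domain with finite class group and finitely generated unit group (after
`K4H56/IF/Sel.lean`); `fg_units`: the units of the integral closure of `k[t]`, `k` finite.
-/

set_option autoImplicit false
set_option linter.all false

open Polynomial IsDedekindDomain WithZero
open scoped nonZeroDivisors

namespace Pool.Agent.Helper28H.FE

namespace FinU


/-- every multiset is `n` times a multiset plus a multiset with multiplicities less than `n` -/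
theorem multiset_split {α : Type*} [DecidableEq α] {n : ℕ} (hn : 1 ≤ n) (s : Multiset α) :
    ∃ t d : Multiset α, s = n • t + d ∧ ∀ x, d.count x < n := by
  induction s using Multiset.induction_on with
  | empty => exact ⟨0, 0, by simp, fun x => by rw [Multiset.count_zero]; omega⟩
  | cons p s ih =>
    obtain ⟨t, d, hs, hd⟩ := ih
    by_cases hp : d.count p + 1 < n
    · refine ⟨t, p ::ₘ d, ?_, fun x => ?_⟩
      · rw [hs, Multiset.add_cons]
      · rw [Multiset.count_cons]
        split_ifs with h
        · rw [h]; exact hp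
        · have := hd x
          omega
    · have hpn : d.count p + 1 = n := by
        have := hd p
        omega
      refine ⟨p ::ₘ t, d.filter (fun x => x ≠ p), ?_, fun x => ?_⟩
      · ext x
        rw [hs, Multiset.count_cons, Multiset.count_add, Multiset.count_nsmul,
          Multiset.count_add, Multiset.count_nsmul, Multiset.count_cons]
        by_cases h : x = p
        · rw [if_pos h, Multiset.count_filter_of_neg (by simpa using h), h]
          rw [Nat.mul_add, mul_one]
          omega
        · rw [if_neg h, Multiset.count_filter_of_pos (by simpa using h)]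
          ring
      · exact lt_of_le_of_lt (Multiset.count_le_of_le x (Multiset.filter_le _ _)) (hd x)

section sel

variable {O L : Type} [CommRing O] [IsDedekindDomain O] [Field L] [Algebra O L]
  [IsFractionRing O L]

/-- the valuation of a nonzero integer in terms of `normalizedFactors`. -/
theorem val_int (v : HeightOneSpectrum O) (r : O) (hr : r ≠ 0) :
    v.valuation L (algebraMap O L r) =
      exp (-((UniqueFactorizationMonoid.normalizedFactors (Ideal.span {r})).count v.asIdeal : ℤ)) := by
  rw [v.valuation_of_algebraMap, v.intValuation_if_neg hr,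
    Ideal.count_associates_factors_eq (by simpa using hr) v.isPrime v.ne_bot]

/-- structure of ideals with orders divisible by `n` away from `S` -/
theorem ideal_split {n : ℕ} (hn : 1 ≤ n) (S : Set (HeightOneSpectrum O)) (hS : S.Finite) :
    ∃ D : Finset (Ideal O), ∀ I : Ideal O, I ≠ 0 →
      (∀ v : HeightOneSpectrum O, v ∉ S →
        n ∣ (UniqueFactorizationMonoid.normalizedFactors I).count v.asIdeal) →
      ∃ d ∈ D, ∃ J : Ideal O, J ≠ 0 ∧ I = J ^ n * d := by
  classical
  set S' : Finset (Ideal O) := hS.toFinset.image (fun v => v.asIdeal) with hS'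
  refine ⟨((n • S'.val).powerset.toFinset).image (fun s => s.prod), fun I hI hev => ?_⟩
  obtain ⟨t, d, hs, hd⟩ := multiset_split hn (UniqueFactorizationMonoid.normalizedFactors I)
  have hdS : ∀ p ∈ d, p ∈ S' := by
    intro p hp
    have hpI : p ∈ UniqueFactorizationMonoid.normalizedFactors I := by
      rw [hs]; exact Multiset.mem_add.mpr (Or.inr hp)
    have hpp : Prime p := UniqueFactorizationMonoid.prime_of_normalized_factor p hpI
    let v : HeightOneSpectrum O := ⟨p, Ideal.isPrime_of_prime hpp, hpp.ne_zero⟩
    by_contra hn'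
    have hv : v ∉ S := by
      intro hv
      apply hn'
      rw [hS', Finset.mem_image]
      exact ⟨v, by simpa using hv, rfl⟩
    have h1 := hev v hv
    rw [hs, Multiset.count_add, Multiset.count_nsmul] at h1
    have h2 : n ∣ Multiset.count p d := (Nat.dvd_add_right (Dvd.intro _ rfl)).1 h1
    have h3 : 0 < Multiset.count p d := Multiset.count_pos.2 hp
    have h4 := Nat.le_of_dvd h3 h2
    have h5 := hd p
    omega
  refine ⟨d.prod, ?_, t.prod, ?_, ?_⟩
  · rw [Finset.mem_image]
    refine ⟨d, ?_, rfl⟩
    rw [Multiset.mem_toFinset, Multiset.mem_powerset, Multiset.le_iff_count]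
    intro x
    rw [Multiset.count_nsmul]
    by_cases hx : x ∈ d
    · have h1 : 1 ≤ Multiset.count x S'.val := Multiset.one_le_count_iff_mem.2 (hdS x hx)
      have h2 := hd x
      calc Multiset.count x d ≤ n * 1 := by omega
        _ ≤ n * Multiset.count x S'.val := Nat.mul_le_mul_left _ h1
    · rw [Multiset.count_eq_zero_of_notMem hx]
      exact Nat.zero_le _
  · intro h0
    rw [Multiset.prod_eq_zero_iff] at h0
    have : (0 : Ideal O) ∈ UniqueFactorizationMonoid.normalizedFactors I := by
      rw [hs]
      refine Multiset.mem_add.mpr (Or.inl ?_)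
      exact Multiset.mem_nsmul.2 ⟨by omega, h0⟩
    exact (UniqueFactorizationMonoid.prime_of_normalized_factor _ this).ne_zero rfl
  · have h2 : (UniqueFactorizationMonoid.normalizedFactors I).prod = I := by
      have := UniqueFactorizationMonoid.prod_normalizedFactors hI
      exact associated_iff_eq.mp this
    conv_lhs => rw [← h2, hs]
    rw [Multiset.prod_add, Multiset.prod_nsmul]

/-- finiteness of units modulo `n`-th powers -/
theorem units_pow (G : Type) [CommGroup G] (hG : Group.FG G) {n : ℕ} (hn : n ≠ 0) :
    ∃ T : Finset G, ∀ u : G, ∃ t ∈ T, ∃ w : G, u = t * w ^ n := by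
  classical
  have h := Subgroup.finiteIndex_range_powMonoidHom_of_fg G (n := n) hn
  have : Finite (G ⧸ (powMonoidHom (α := G) n).range) :=
    Subgroup.finite_quotient_of_finiteIndex
  have := Fintype.ofFinite (G ⧸ (powMonoidHom (α := G) n).range)
  refine ⟨Finset.univ.image (fun q : G ⧸ (powMonoidHom (α := G) n).range => q.out),
    fun u => ?_⟩
  refine ⟨(QuotientGroup.mk (s := (powMonoidHom (α := G) n).range) u).out,
    Finset.mem_image_of_mem _ (Finset.mem_univ _), ?_⟩
  have h1 : QuotientGroup.mk (s := (powMonoidHom (α := G) n).range)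
      (QuotientGroup.mk (s := (powMonoidHom (α := G) n).range) u).out =
      QuotientGroup.mk u := QuotientGroup.out_eq' _
  rw [QuotientGroup.eq] at h1
  obtain ⟨w, hw⟩ := h1
  refine ⟨w, ?_⟩
  rw [powMonoidHom_apply] at hw
  rw [hw, mul_inv_cancel_left]

/-- integral version of the finiteness of the Selmer group. -/
theorem sel_int [Finite (ClassGroup O)] (hG : Group.FG Oˣ) {n : ℕ} (hn : 1 ≤ n)
    (S : Set (HeightOneSpectrum O)) (hS : S.Finite) :
    ∃ T : Finset O, (∀ t ∈ T, t ≠ 0) ∧ ∀ a : O, a ≠ 0 →
      (∀ v : HeightOneSpectrum O, v ∉ S →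
        n ∣ (UniqueFactorizationMonoid.normalizedFactors (Ideal.span {a})).count v.asIdeal) →
      ∃ t ∈ T, ∃ x y : O, x ≠ 0 ∧ y ≠ 0 ∧ x ^ n * a = t * y ^ n := by
  classical
  have := Fintype.ofFinite (ClassGroup O)
  obtain ⟨D, hD⟩ := ideal_split hn S hS
  obtain ⟨U, hU⟩ := units_pow Oˣ hG (n := n) (by omega)
  -- the relation between integers and (ideal, class)
  let Rel : Ideal O × ClassGroup O → O → Prop := fun c a =>
    a ≠ 0 ∧ ∃ J : (Ideal O)⁰, Ideal.span {a} = (J : Ideal O) ^ n * c.1 ∧
      ClassGroup.mk0 J = c.2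
  let rep : Ideal O × ClassGroup O → O := fun c =>
    if h : ∃ a, Rel c a then Classical.choose h else 1
  have hrep0 : ∀ c, rep c ≠ 0 := by
    intro c
    simp only [rep]
    split_ifs with h
    · exact (Classical.choose_spec h).1
    · exact one_ne_zero
  let T : Finset O := ((D ×ˢ (Finset.univ : Finset (ClassGroup O))) ×ˢ U).image
    (fun c => rep c.1 * (c.2 : O))
  refine ⟨T, ?_, ?_⟩
  · intro t ht
    simp only [T, Finset.mem_image] at ht
    obtain ⟨c, -, rfl⟩ := ht
    exact mul_ne_zero (hrep0 _) (Units.ne_zero _)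
  · intro a ha hev
    have hI : Ideal.span {a} ≠ (0 : Ideal O) := by simpa using ha
    obtain ⟨d, hd, J, hJ, hIJ⟩ := hD _ hI hev
    set J' : (Ideal O)⁰ := ⟨J, mem_nonZeroDivisors_iff_ne_zero.mpr hJ⟩ with hJ'
    have hR : Rel (d, ClassGroup.mk0 J') a := ⟨ha, J', hIJ, rfl⟩
    have hex : ∃ a, Rel (d, ClassGroup.mk0 J') a := ⟨a, hR⟩
    have hrepe : rep (d, ClassGroup.mk0 J') = Classical.choose hex := by
      simp only [rep]
      rw [dif_pos hex]
    obtain ⟨hb0, J2, hJ2, hcl⟩ := Classical.choose_spec hex
    rw [← hrepe] at hb0 hJ2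
    set b := rep (d, ClassGroup.mk0 J') with hb
    obtain ⟨x, y, hx, hy, hxy⟩ := ClassGroup.mk0_eq_mk0_iff.mp hcl
    -- x J2 = y J
    have h1 : Ideal.span {y ^ n * a} = Ideal.span {x ^ n * b} := by
      rw [← Ideal.span_singleton_mul_span_singleton, ← Ideal.span_singleton_mul_span_singleton,
        ← Ideal.span_singleton_pow, ← Ideal.span_singleton_pow, hIJ, hJ2]
      have h2 : (Ideal.span {y} * (J' : Ideal O)) = Ideal.span {x} * (J2 : Ideal O) :=
        hxy.symm
      calc Ideal.span {y} ^ n * (J ^ n * d) = (Ideal.span {y} * J) ^ n * d := by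
            rw [mul_pow, mul_assoc]
        _ = (Ideal.span {x} * (J2 : Ideal O)) ^ n * d := by rw [← h2]
        _ = _ := by rw [mul_pow, mul_assoc]
    rw [Ideal.span_singleton_eq_span_singleton] at h1
    obtain ⟨u, hu⟩ := h1.symm
    obtain ⟨t, ht, w, hw⟩ := hU u
    refine ⟨b * (t : O), ?_, y, x * (w : O), hy, mul_ne_zero hx (Units.ne_zero _), ?_⟩
    · simp only [T, Finset.mem_image]
      refine ⟨((d, ClassGroup.mk0 J'), t), ?_, rfl⟩
      simp only [Finset.mem_product, Finset.mem_univ, and_true]
      exact ⟨hd, ht⟩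
    · rw [← hu, hw]
      push_cast
      ring

/-- **Finiteness of the Selmer group.** -/
theorem sel [Finite (ClassGroup O)] (hG : Group.FG Oˣ) (S : Set (HeightOneSpectrum O))
    (hS : S.Finite) :
    ∃ T : Finset L, (∀ t ∈ T, t ≠ 0) ∧ ∀ a : L, a ≠ 0 →
      (∀ v : HeightOneSpectrum O, v ∉ S → ∃ y : L, v.valuation L a = v.valuation L y ^ 2) →
      ∃ t ∈ T, ∃ b : L, b ≠ 0 ∧ a = t * b ^ 2 := by
  classical
  obtain ⟨T, hT0, hT⟩ := sel_int hG (n := 2) (by norm_num) S hS
  have hinj := IsFractionRing.injective O L
  refine ⟨T.image (fun t => algebraMap O L t), ?_, ?_⟩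
  · intro t ht
    obtain ⟨s, hs, rfl⟩ := Finset.mem_image.mp ht
    simpa using hT0 s hs
  · intro a ha hev
    obtain ⟨p, q, hq, hpq⟩ := IsFractionRing.div_surjective (A := O) a
    have hq0 : q ≠ 0 := nonZeroDivisors.ne_zero hq
    have hqK : algebraMap O L q ≠ 0 := by simpa using hq0
    have hp0 : p ≠ 0 := by
      rintro rfl
      rw [map_zero, zero_div] at hpq
      exact ha hpq.symm
    have hpK : algebraMap O L p ≠ 0 := by simpa using hp0
    obtain ⟨t, ht, x, y, hx, hy, hxy⟩ := hT (p * q)
      (mul_ne_zero hp0 hq0) (by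
      intro v hv
      have h1 := val_int (L := L) v (p * q) (mul_ne_zero hp0 hq0)
      have h2 : algebraMap O L (p * q) = a * (algebraMap O L q) ^ 2 := by
        rw [← hpq, map_mul]
        field_simp
      obtain ⟨z, hz⟩ := hev v hv
      rw [h2, map_mul, map_pow, hz, ← mul_pow, ← map_mul] at h1
      have hne : v.valuation L (z * algebraMap O L q) ≠ 0 := by
        intro h0
        rw [h0, zero_pow two_ne_zero] at h1
        exact exp_ne_zero h1.symm
      have h3 := congrArg log h1
      rw [log_pow, log_exp, nsmul_eq_mul] at h3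
      have h4 : ((UniqueFactorizationMonoid.normalizedFactors
          (Ideal.span {p * q})).count v.asIdeal : ℤ) =
          2 * (- log (v.valuation L (z * algebraMap O L q))) := by
        push_cast at h3
        linarith
      have h5 : (2 : ℤ) ∣ ((UniqueFactorizationMonoid.normalizedFactors
          (Ideal.span {p * q})).count v.asIdeal : ℤ) := ⟨_, h4⟩
      exact_mod_cast h5)
    have hxK : algebraMap O L x ≠ 0 := by simpa using hx
    have hyK : algebraMap O L y ≠ 0 := by simpa using hy
    refine ⟨algebraMap O L t, Finset.mem_image_of_mem _ ht,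
      algebraMap O L y / (algebraMap O L x * algebraMap O L q),
      div_ne_zero hyK (mul_ne_zero hxK hqK), ?_⟩
    have h4 := congrArg (algebraMap O L) hxy
    simp only [map_mul, map_pow] at h4
    rw [← hpq, div_pow, mul_pow]
    rw [div_eq_iff hqK, mul_div_assoc', div_mul_eq_mul_div, eq_div_iff
      (mul_ne_zero (pow_ne_zero _ hxK) (pow_ne_zero _ hqK))]
    linear_combination (algebraMap O L q) * h4

end sel



section units

/-- elements which are integral over `k[t]` and at infinity -/
theorem fin_int (k K L A : Type) [Field k] [Finite k] [Field K] [Algebra k[X] K]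
    [IsFractionRing k[X] K] [Field L] [Algebra K L] [Algebra k[X] L] [IsScalarTower k[X] K L]
    [FiniteDimensional K L] [CommRing A] [IsDomain A] [IsIntegrallyClosed A] [Algebra A K]
    [IsFractionRing A K] [Algebra A L] [IsScalarTower A K L]
    (hA : ∀ (p : k[X]) (a : A), algebraMap k[X] K p = algebraMap A K a → p.natDegree = 0) :
    {u : L | IsIntegral k[X] u ∧ IsIntegral A u}.Finite := by
  classical
  set N := Module.finrank K L with hN
  -- the polynomials
  let F : (Fin (N + 1) → k) → K[X] := fun c => ∑ i : Fin (N + 1),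
    monomial (i : ℕ) (algebraMap k[X] K (C (c i)))
  have hfin : (⋃ c ∈ {c : Fin (N + 1) → k | F c ≠ 0}, ((F c).rootSet L)).Finite :=
    Set.Finite.biUnion (Set.toFinite _) fun c _ => Polynomial.rootSet_finite _ _
  refine hfin.subset ?_
  rintro u ⟨hu1, hu2⟩
  have h1 := minpoly.isIntegrallyClosed_eq_field_fractions' K hu1
  have h2 := minpoly.isIntegrallyClosed_eq_field_fractions' K hu2
  have hint : IsIntegral K u := IsIntegral.of_finite K u
  have hdeg : (minpoly K u).natDegree ≤ N := minpoly.natDegree_le u
  have hc : ∀ i, ∃ c : k, (minpoly k[X] u).coeff i = C c := by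
    intro i
    have h3 : algebraMap k[X] K ((minpoly k[X] u).coeff i) =
        algebraMap A K ((minpoly A u).coeff i) := by
      rw [← Polynomial.coeff_map, ← Polynomial.coeff_map, ← h1, ← h2]
    have h4 := hA _ _ h3
    exact ⟨_, Polynomial.eq_C_of_natDegree_eq_zero h4⟩
  choose c hc using hc
  have hF : F (fun i => c i) = minpoly K u := by
    have h5 : minpoly K u = ∑ i ∈ Finset.range (N + 1), monomial i ((minpoly K u).coeff i) :=
      Polynomial.as_sum_range' _ _ (by omega)
    rw [h5, Finset.sum_range]
    refine Finset.sum_congr rfl fun i _ => ?_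
    have h6 : (minpoly K u).coeff i = algebraMap k[X] K (C (c i)) := by
      rw [h1, Polynomial.coeff_map, hc]
    rw [h6]
  rw [Set.mem_iUnion₂]
  refine ⟨fun i => c i, ?_, ?_⟩
  · show F _ ≠ 0
    rw [hF]
    exact minpoly.ne_zero hint
  · rw [hF, Polynomial.mem_rootSet]
    exact ⟨minpoly.ne_zero hint, minpoly.aeval K u⟩

/-- a group with a homomorphism with finite kernel to a finitely generated free abelian group is
finitely generated -/
theorem fg_of_ker (G ι : Type) [CommGroup G] [Finite ι] (φ : G →* (ι → Multiplicative ℤ))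
    (h : Finite φ.ker) : Group.FG G := by
  classical
  have := Fintype.ofFinite ι
  -- pass to additive groups
  let ψ : Additive G →+ (ι → ℤ) :=
    { toFun := fun x i => Multiplicative.toAdd (φ (Additive.toMul x) i)
      map_zero' := by
        funext i
        simp
      map_add' := fun x y => by
        funext i
        simp }
  let f : Additive G →ₗ[ℤ] (ι → ℤ) := ψ.toIntLinearMap
  have h1 : (Submodule.map f ⊤).FG := IsNoetherian.noetherian _
  have h2 : ((⊤ : Submodule ℤ (Additive G)) ⊓ LinearMap.ker f).FG := by
    rw [top_inf_eq]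
    have h3 : ((LinearMap.ker f : Submodule ℤ (Additive G)) : Set (Additive G)).Finite := by
      have h4 : ((φ.ker : Subgroup G) : Set G).Finite := Set.toFinite _
      have h5 := h4.image (Additive.ofMul)
      refine h5.subset ?_
      intro x hx
      refine ⟨Additive.toMul x, ?_, rfl⟩
      rw [SetLike.mem_coe, MonoidHom.mem_ker]
      funext i
      have h6 : f x = 0 := hx
      have h7 := congrFun h6 i
      exact h7
    rw [← Submodule.span_eq (LinearMap.ker f)]
    exact Submodule.fg_span h3
  have h8 : (⊤ : Submodule ℤ (Additive G)).FG := Submodule.fg_of_fg_map_of_fg_inf_ker f h1 h2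
  have h9 : Module.Finite ℤ (Additive G) := ⟨h8⟩
  have h10 : AddGroup.FG (Additive G) := Module.Finite.iff_addGroup_fg.1 h9
  exact GroupFG.iff_add_fg.2 h10

/-- the units, with the ring `A` at infinity -/
theorem fg_units (k K L A O : Type) [Field k] [Finite k] [Field K] [Algebra k[X] K]
    [IsFractionRing k[X] K] [Field L] [Algebra K L] [Algebra k[X] L] [IsScalarTower k[X] K L]
    [FiniteDimensional K L] [Algebra.IsSeparable K L] [CommRing A] [IsDomain A]
    [IsDiscreteValuationRing A] [Algebra A K]
    [IsFractionRing A K] [Algebra A L] [IsScalarTower A K L]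
    (hA : ∀ (p : k[X]) (a : A), algebraMap k[X] K p = algebraMap A K a → p.natDegree = 0)
    [CommRing O] [IsDedekindDomain O]
    [Algebra O L] [IsFractionRing O L] [Algebra k[X] O] [IsScalarTower k[X] O L]
    [IsIntegralClosure O k[X] L] : Group.FG Oˣ := by
  classical
  let B := integralClosure A L
  have hB : IsDedekindDomain B := integralClosure.isDedekindDomain A K L
  have hBL : IsFractionRing B L :=
    IsIntegralClosure.isFractionRing_of_finite_extension A K L B
  have hBf : Module.Finite A B := IsIntegralClosure.finite A K L B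
  have hinj : Function.Injective (algebraMap A L) := by
    rw [IsScalarTower.algebraMap_eq A K L]
    exact (algebraMap K L).injective.comp (IsFractionRing.injective A K)
  have hBt : Module.IsTorsionFree A B := by
    rw [Module.isTorsionFree_iff_algebraMap_injective]
    intro a b hab
    exact hinj (congrArg (algebraMap B L) hab)
  have hfin : Finite (HeightOneSpectrum B) := by
    have h1 : ((IsLocalRing.maximalIdeal A).primesOver B).Finite :=
      IsDedekindDomain.primesOver_finite _ _
    have h2 : ∀ w : HeightOneSpectrum B, w.asIdeal ∈ (IsLocalRing.maximalIdeal A).primesOver B := by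
      intro w
      refine ⟨w.isPrime, ⟨?_⟩⟩
      have h3 : w.asIdeal.under A ≠ ⊥ := by
        intro h0
        exact w.ne_bot (Ideal.eq_bot_of_comap_eq_bot h0)
      have h4 : (w.asIdeal.under A).IsPrime := inferInstance
      have h5 : (w.asIdeal.under A).IsMaximal := h4.isMaximal h3
      exact (IsLocalRing.eq_maximalIdeal h5).symm
    have h6 : Function.Injective (fun w : HeightOneSpectrum B =>
        (⟨w.asIdeal, h2 w⟩ : (IsLocalRing.maximalIdeal A).primesOver B)) := by
      intro w w' h
      exact HeightOneSpectrum.ext (congrArg Subtype.val h)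
    have := h1.to_subtype
    exact Finite.of_injective _ h6
  let φ : Oˣ →* (HeightOneSpectrum B → Multiplicative ℤ) :=
    (Pi.monoidHom fun w => w.valuationOfNeZero (K := L)).comp
      (Units.map (algebraMap O L).toMonoidHom)
  refine fg_of_ker Oˣ (HeightOneSpectrum B) φ ?_
  have h1 := fin_int k K L A hA
  have h2 := h1.to_subtype
  have h3 : ∀ u : φ.ker, algebraMap O L ((u : Oˣ) : O) ∈
      {u : L | IsIntegral k[X] u ∧ IsIntegral A u} := by
    rintro ⟨u, hu⟩
    refine ⟨(IsIntegralClosure.isIntegral k[X] L (u : O)).algebraMap, ?_⟩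
    have h4 : ∀ w : HeightOneSpectrum B, w.valuation L (algebraMap O L (u : O)) ≤ 1 := by
      intro w
      have h5 : φ u = 1 := hu
      have h6 := congrFun h5 w
      have h7 : w.valuationOfNeZero (Units.map (algebraMap O L).toMonoidHom u) = 1 := h6
      have h8 := w.valuationOfNeZero_eq (Units.map (algebraMap O L).toMonoidHom u)
      rw [h7] at h8
      have h9 : w.valuation L (algebraMap O L (u : O)) = 1 := h8.symm
      rw [h9]
    obtain ⟨b, hb⟩ := HeightOneSpectrum.mem_integers_of_valuation_le_one L _ h4
    have h10 : IsIntegral A (b : L) := b.2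
    have h11 : algebraMap B L b = (b : L) := rfl
    show IsIntegral A (algebraMap O L (u : O))
    rw [← hb]
    exact h10
  refine Finite.of_injective (fun u : φ.ker => (⟨_, h3 u⟩ :
    {u : L | IsIntegral k[X] u ∧ IsIntegral A u})) ?_
  intro u u' h
  have h12 : algebraMap O L ((u : Oˣ) : O) = algebraMap O L ((u' : Oˣ) : O) :=
    congrArg Subtype.val h
  exact Subtype.ext (Units.ext (IsFractionRing.injective O L h12))

end units



section inf

/-- the valuation ring at infinity -/
theorem exists_A (k K : Type) [Field k] [Field K] [Algebra k[X] K] [IsFractionRing k[X] K] :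
    ∃ (A : Type) (_ : CommRing A) (_ : IsDomain A) (_ : IsDiscreteValuationRing A)
      (_ : Algebra A K) (_ : IsFractionRing A K),
      ∀ (p : k[X]) (a : A), algebraMap k[X] K p = algebraMap A K a → p.natDegree = 0 := by
  classical
  let e : K ≃ₐ[k[X]] RatFunc k := IsLocalization.algEquiv (nonZeroDivisors k[X]) K (RatFunc k)
  let v : Valuation K ℤᵐ⁰ := (RatFunc.inftyValuation k).comap (e : K →+* RatFunc k)
  have hv : ∀ p : k[X], p ≠ 0 → v (algebraMap k[X] K p) = exp (p.natDegree : ℤ) := by
    intro p hp
    show RatFunc.inftyValuation k (e (algebraMap k[X] K p)) = _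
    rw [e.commutes, RatFunc.inftyValuation_apply, RatFunc.inftyValuation.polynomial _ hp]
  have hX : v (algebraMap k[X] K X) = exp 1 := by
    rw [hv X X_ne_zero, natDegree_X]; rfl
  have hnt : v.IsNontrivial := ⟨⟨algebraMap k[X] K X, by rw [hX]; exact exp_ne_zero, by
    rw [hX, ← exp_zero]
    intro h
    have := exp_injective h
    omega⟩⟩
  have hdvr : IsDiscreteValuationRing v.valuationSubring := inferInstance
  refine ⟨v.valuationSubring, inferInstance, inferInstance, hdvr, inferInstance, inferInstance, ?_⟩
  intro p a h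
  by_contra hp
  have hp0 : p ≠ 0 := by
    rintro rfl
    exact hp natDegree_zero
  have h1 : v (algebraMap k[X] K p) ≤ 1 := by
    rw [h]
    exact a.2
  rw [hv p hp0, ← exp_zero, exp_le_exp] at h1
  omega

end inf


end FinU

open Pool.Agent.N874.PP (Ev)

/-- Piece E-FIN. -/
theorem fin : E_FIN := by
  intro k K L O _ _ _ _ _ _ _ _ _ _ _ _ _ _ _ _ _ _ T hT
  classical
  have hft : Fintype k := Fintype.ofFinite k
  obtain ⟨A, _, _, _, _, _, hA⟩ := FinU.exists_A k K
  letI : Algebra A L := ((algebraMap K L).comp (algebraMap A K)).toAlgebra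
  haveI : IsScalarTower A K L := IsScalarTower.of_algebraMap_eq' rfl
  have hG : Group.FG Oˣ := FinU.fg_units k K L A O hA
  have hC : Finite (ClassGroup O) := by
    have := ClassGroup.fintypeOfAdmissibleOfFinite (R := k[X]) (S := O) K L
      (Polynomial.cardPowDegreeIsAdmissible :
        AbsoluteValue.IsAdmissible (Polynomial.cardPowDegree : AbsoluteValue k[X] ℤ))
    exact Finite.of_fintype _
  obtain ⟨R, hR0, hR⟩ := FinU.sel (L := L) hG T hT
  exact ⟨R, hR0, fun α hα hev => hR α hα fun v hv => hev v hv⟩

end Pool.Agent.Helper28H.FE
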