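import Mathlib

/-!
# Project FE, piece FROB, 1: counting primes of degree one in the fixed rings of subgroups
-/

set_option autoImplicit false

namespace Pool.Agent.Helper28H.FE.Fr

open scoped Pointwise Classical

section gen

variable {A OH ON G : Type} [CommRing A] [CommRing OH] [CommRing ON] [Algebra A OH]
  [Algebra OH ON] [Algebra A ON] [IsScalarTower A OH ON] [Group G] [Finite G]
  [MulSemiringAction G ON] [SMulCommClass G A ON]

theorem smul_alg (H : Subgroup G) [SMulCommClass H OH ON] (g : G) (hg : g ∈ H) (y : OH) :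
    g • (algebraMap OH ON y) = algebraMap OH ON y := by
  have h : (⟨g, hg⟩ : H) • (algebraMap OH ON y) = algebraMap OH ON y := by
    rw [Algebra.algebraMap_eq_smul_one, smul_comm, smul_one]
  exact h

/-- the decomposition group of a prime over a prime of degree one -/
theorem stab_le (H : Subgroup G) [SMulCommClass H OH ON] [Algebra.IsInvariant OH ON H]
    (w : Ideal ON) [w.IsPrime] (hI : ∀ g : G, (∀ x : ON, g • x - x ∈ w) → g = 1)
    (hdeg : ∀ y : OH, ∃ c : A, y - algebraMap A OH c ∈ w.under OH) {g : G}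
    (hg : g • w = w) : g ∈ H := by
  have hgs : g ∈ MulAction.stabilizer G w := hg
  let f0 := Ideal.Quotient.stabilizerHom w (w.under A) G ⟨g, hgs⟩
  have hf0 : ∀ x : ON, f0 (Ideal.Quotient.mk w x) = Ideal.Quotient.mk w (g • x) := fun x => rfl
  let f : (ON ⧸ w) ≃ₐ[OH ⧸ w.under OH] (ON ⧸ w) :=
    AlgEquiv.ofRingEquiv (f := (f0 : (ON ⧸ w) ≃+* (ON ⧸ w))) (by
      intro r
      obtain ⟨y, rfl⟩ := Ideal.Quotient.mk_surjective r
      obtain ⟨c, hc⟩ := hdeg y
      have h1 : algebraMap (OH ⧸ w.under OH) (ON ⧸ w) (Ideal.Quotient.mk _ y) =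
          Ideal.Quotient.mk w (algebraMap OH ON y) := rfl
      have h2 : Ideal.Quotient.mk w (algebraMap OH ON y) =
          Ideal.Quotient.mk w (algebraMap A ON c) := by
        rw [Ideal.Quotient.eq, IsScalarTower.algebraMap_apply A OH ON, ← map_sub]
        exact hc
      rw [h1, h2]
      show f0 (Ideal.Quotient.mk w (algebraMap A ON c)) = _
      rw [hf0, smul_algebraMap])
  obtain ⟨h, hh⟩ := Ideal.Quotient.stabilizerHom_surjective H (w.under OH) w f
  have h3 : ∀ x : ON, ((h : H) : G) • x - g • x ∈ w := by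
    intro x
    rw [← Ideal.Quotient.eq]
    have h4 := DFunLike.congr_fun hh (Ideal.Quotient.mk w x)
    exact h4
  have h5 : g⁻¹ * ((h : H) : G) = 1 := by
    apply hI
    intro x
    have h6 : g⁻¹ • (((h : H) : G) • x - g • x) ∈ g⁻¹ • w :=
      Ideal.smul_mem_pointwise_smul _ _ _ (h3 x)
    rw [smul_sub, smul_smul, inv_smul_smul] at h6
    have h7 : g⁻¹ • w = w := by
      rw [inv_smul_eq_iff, hg]
    rwa [h7] at h6
  rw [inv_mul_eq_one.1 h5]
  exact (h : H).2

omit [Finite G] in
/-- the elements of a finite domain -/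
theorem pow_card' (R : Type) [CommRing R] [IsDomain R] [Fintype R] (r : R) :
    r ^ Fintype.card R = r := by
  letI : Field R := Fintype.fieldOfDomain R
  exact FiniteField.pow_card r

/-- if the Frobenius element fixes the subring the prime is of degree one -/
theorem deg_one (H : Subgroup G) [SMulCommClass H OH ON] (w : Ideal ON) [w.IsPrime]
    [Finite (A ⧸ w.under A)] (g : G) (hg : g ∈ H)
    (hF : ∀ x : ON, g • x - x ^ Nat.card (A ⧸ w.under A) ∈ w) (y : OH) :
    ∃ c : A, y - algebraMap A OH c ∈ w.under OH := by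
  haveI : IsDomain (A ⧸ w.under A) := inferInstance
  haveI : Fintype (A ⧸ w.under A) := Fintype.ofFinite _
  have hq : Nat.card (A ⧸ w.under A) = Fintype.card (A ⧸ w.under A) := Nat.card_eq_fintype_card
  have h1lt : 1 < Fintype.card (A ⧸ w.under A) := Fintype.one_lt_card
  have h1 : algebraMap OH ON y - (algebraMap OH ON y) ^ Nat.card (A ⧸ w.under A) ∈ w := by
    have := hF (algebraMap OH ON y)
    rwa [smul_alg H g hg y] at this
  -- the roots of `X ^ q - X`
  obtain ⟨p, hp⟩ : ∃ p : Polynomial (ON ⧸ w),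
      p = Polynomial.X ^ Fintype.card (A ⧸ w.under A) - Polynomial.X := ⟨_, rfl⟩
  have hdeg : p.natDegree = Fintype.card (A ⧸ w.under A) := by
    rw [hp, Polynomial.natDegree_sub_eq_left_of_natDegree_lt, Polynomial.natDegree_X_pow]
    rw [Polynomial.natDegree_X, Polynomial.natDegree_X_pow]
    exact h1lt
  have hp0 : p ≠ 0 := by
    intro h0
    rw [h0, Polynomial.natDegree_zero] at hdeg
    omega
  have hinj : Function.Injective (algebraMap (A ⧸ w.under A) (ON ⧸ w)) :=
    Ideal.algebraMap_quotient_injective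
  have hsub : Finset.univ.image (algebraMap (A ⧸ w.under A) (ON ⧸ w)) ⊆ p.roots.toFinset := by
    intro z hz
    obtain ⟨r, -, rfl⟩ := Finset.mem_image.1 hz
    rw [Multiset.mem_toFinset, Polynomial.mem_roots hp0, Polynomial.IsRoot.def, hp]
    rw [Polynomial.eval_sub, Polynomial.eval_pow, Polynomial.eval_X, ← map_pow,
      pow_card', sub_self]
  have hcard : p.roots.toFinset.card ≤
      (Finset.univ.image (algebraMap (A ⧸ w.under A) (ON ⧸ w))).card := by
    rw [Finset.card_image_of_injective _ hinj, Finset.card_univ, ← hdeg]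
    exact (Multiset.toFinset_card_le _).trans (Polynomial.card_roots' p)
  have heq := Finset.eq_of_subset_of_card_le hsub hcard
  have hy : Ideal.Quotient.mk w (algebraMap OH ON y) ∈ p.roots.toFinset := by
    rw [Multiset.mem_toFinset, Polynomial.mem_roots hp0, Polynomial.IsRoot.def, hp]
    rw [Polynomial.eval_sub, Polynomial.eval_pow, Polynomial.eval_X, ← map_pow, sub_eq_zero,
      eq_comm, Ideal.Quotient.eq, ← hq]
    exact h1
  rw [← heq] at hy
  obtain ⟨r, -, hr⟩ := Finset.mem_image.1 hy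
  obtain ⟨c, rfl⟩ := Ideal.Quotient.mk_surjective r
  refine ⟨c, ?_⟩
  have h2 : Ideal.Quotient.mk w (algebraMap A ON c) = Ideal.Quotient.mk w (algebraMap OH ON y) := hr
  rw [eq_comm, Ideal.Quotient.eq, IsScalarTower.algebraMap_apply A OH ON, ← map_sub] at h2
  exact h2

/-- the fibre over a prime of degree one -/
theorem fibre (H : Subgroup G) [SMulCommClass H OH ON]
    [Algebra.IsInvariant OH ON H]
    (v : Ideal OH) (hdeg : ∀ y : OH, ∃ c : A, y - algebraMap A OH c ∈ v)
    (w₀ : Ideal ON) [w₀.IsPrime] (hw₀ : w₀.under OH = v)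
    (S : Finset (Ideal ON)) (hS : ∀ w, w ∈ S ↔ w.IsPrime ∧ w.under OH = v)
    (hI : ∀ w ∈ S, ∀ g : G, (∀ x : ON, g • x - x ∈ w) → g = 1) :
    ∑ w ∈ S, Nat.card (MulAction.stabilizer G w) = Nat.card H := by
  haveI : Fintype H := Fintype.ofFinite H
  have hun : ∀ (h : H) (w : Ideal ON), ((h : G) • w).under OH = w.under OH := fun h w =>
    Ideal.under_smul (A := OH) (g := h) (P := w)
  have h1 : ∀ h : H, (h : G) • w₀ ∈ S := by
    intro h
    rw [hS]
    exact ⟨Ideal.IsPrime.smul (h : G), by rw [hun, hw₀]⟩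
  rw [Nat.card_eq_fintype_card, ← Finset.card_univ,
    Finset.card_eq_sum_card_fiberwise (f := fun h : H => (h : G) • w₀) (t := S) (fun h _ => h1 h)]
  refine Finset.sum_congr rfl fun w hw => ?_
  obtain ⟨hwp, hwv⟩ := (hS w).1 hw
  obtain ⟨h, hh⟩ : ∃ h : H, w = (h : G) • w₀ :=
    Algebra.IsInvariant.exists_smul_of_under_eq OH ON H w₀ w (hw₀.trans hwv.symm)
  have hst : ∀ g : G, g • w = w → g ∈ H := fun g hg =>
    stab_le (A := A) (OH := OH) H w (hI w hw) (by rw [hwv]; exact hdeg) hg
  -- the bijection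
  have hgw : ∀ h' : H, ((h' * h⁻¹ : H) : G) • w = w ↔ (h' : G) • w₀ = w := by
    intro h'
    have h4 : ((h' * h⁻¹ : H) : G) • ((h : G) • w₀) = (h' : G) • w₀ := by
      rw [smul_smul]
      congr 1
      simp
    constructor
    · intro h5
      rw [← h4, ← hh]
      exact h5
    · intro h5
      have h6 : ((h' * h⁻¹ : H) : G) • w = ((h' * h⁻¹ : H) : G) • ((h : G) • w₀) := by rw [← hh]
      rw [h6, h4, h5]
  let e : MulAction.stabilizer G w ≃
      {h' : H // h' ∈ Finset.univ.filter fun h' : H => (h' : G) • w₀ = w} :=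
    { toFun := fun s => ⟨⟨s.1, hst s.1 (MulAction.mem_stabilizer_iff.1 s.2)⟩ * h, by
        rw [Finset.mem_filter]
        refine ⟨Finset.mem_univ _, (hgw _).1 ?_⟩
        rw [mul_inv_cancel_right]
        exact MulAction.mem_stabilizer_iff.1 s.2⟩
      invFun := fun h' => ⟨((h'.1 * h⁻¹ : H) : G), MulAction.mem_stabilizer_iff.2
        ((hgw h'.1).2 (Finset.mem_filter.1 h'.2).2)⟩
      left_inv := fun s => by
        apply Subtype.ext
        simp
      right_inv := fun h' => by
        apply Subtype.ext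
        apply Subtype.ext
        simp }
  rw [Nat.card_congr e, Nat.card_eq_fintype_card, Fintype.card_coe]

/-- the count -/
theorem count (H : Subgroup G) [SMulCommClass H OH ON]
    [Algebra.IsInvariant OH ON H] (hinj : Function.Injective (algebraMap OH ON))
    (P : Ideal A) [Finite (A ⧸ P)] (X : Finset (Ideal ON))
    (hX : ∀ w, w ∈ X ↔ w.IsPrime ∧ w.under A = P)
    (hI : ∀ w ∈ X, ∀ g : G, (∀ x : ON, g • x - x ∈ w) → g = 1)
    (φ : Ideal ON → G) (hφ : ∀ w ∈ X, ∀ x : ON, φ w • x - x ^ Nat.card (A ⧸ P) ∈ w) :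
    ∑ w ∈ X with φ w ∈ H, Nat.card (MulAction.stabilizer G w) =
      Nat.card H * {v : Ideal OH | v.IsPrime ∧ v.under A = P ∧
        ∀ y : OH, ∃ c : A, y - algebraMap A OH c ∈ v}.ncard := by
  haveI : Algebra.IsIntegral OH ON := Algebra.IsInvariant.isIntegral OH ON H
  have huu : ∀ w : Ideal ON, (w.under OH).under A = w.under A := fun w => by
    ext x
    simp only [Ideal.under_def, Ideal.mem_comap]
    rw [IsScalarTower.algebraMap_apply A OH ON]
  -- the degree of the prime below
  have hpq : ∀ w ∈ X, (φ w ∈ H ↔ ∀ y : OH, ∃ c : A, y - algebraMap A OH c ∈ w.under OH) := by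
    intro w hw
    obtain ⟨hwp, hwP⟩ := (hX w).1 hw
    haveI := hwp
    haveI : Finite (A ⧸ w.under A) := by rw [hwP]; infer_instance
    constructor
    · intro h
      exact deg_one H w (φ w) h (by rw [hwP]; exact hφ w hw)
    · intro h
      refine stab_le (A := A) (OH := OH) H w (hI w hw) h ?_
      have h1 : IsArithFrobAt A (φ w) w := by
        intro x
        have := hφ w hw x
        rw [← hwP] at this
        exact this
      exact h1.mem_stabilizer
  obtain ⟨V, hV⟩ : ∃ V : Finset (Ideal OH), V = (X.filter fun w => φ w ∈ H).image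
      fun w => w.under OH := ⟨_, rfl⟩
  have hVe : {v : Ideal OH | v.IsPrime ∧ v.under A = P ∧
        ∀ y : OH, ∃ c : A, y - algebraMap A OH c ∈ v} = (V : Set (Ideal OH)) := by
    ext v
    rw [Set.mem_ofPred_eq, Finset.mem_coe, hV, Finset.mem_image]
    constructor
    · rintro ⟨hv, hvP, hd⟩
      haveI := hv
      obtain ⟨w, -, hwp, hwv⟩ := Ideal.exists_ideal_over_prime_of_isIntegral v (⊥ : Ideal ON) (by
        intro x hx
        rw [Ideal.mem_comap, Ideal.mem_bot] at hx
        rw [(injective_iff_map_eq_zero _).1 hinj x hx]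
        exact zero_mem _)
      have hwv' : w.under OH = v := hwv
      have hwX : w ∈ X := (hX w).2 ⟨hwp, by rw [← huu, hwv', hvP]⟩
      exact ⟨w, Finset.mem_filter.2 ⟨hwX, (hpq w hwX).2 (by rw [hwv']; exact hd)⟩, hwv'⟩
    · rintro ⟨w, hw, rfl⟩
      rw [Finset.mem_filter] at hw
      obtain ⟨hwp, hwP⟩ := (hX w).1 hw.1
      haveI := hwp
      exact ⟨inferInstance, (huu w).trans hwP, (hpq w hw.1).1 hw.2⟩
  rw [hVe, Set.ncard_coe_finset]
  rw [← Finset.sum_fiberwise_of_maps_to (s := X.filter fun w => φ w ∈ H) (t := V)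
    (g := fun w => w.under OH) (fun w hw => by
      rw [hV]
      exact Finset.mem_image_of_mem _ hw)]
  rw [Finset.sum_congr rfl (g := fun _ => Nat.card H), Finset.sum_const, smul_eq_mul, mul_comm]
  intro v hv
  have hv' : v ∈ (V : Set (Ideal OH)) := hv
  rw [← hVe] at hv'
  obtain ⟨hvp, hvP, hvd⟩ := hv'
  rw [hV, Finset.mem_image] at hv
  obtain ⟨w₀, hw₀, hwv⟩ := hv
  rw [Finset.mem_filter] at hw₀
  haveI := ((hX w₀).1 hw₀.1).1
  refine fibre (A := A) (OH := OH) H v hvd w₀ hwv _ (fun w => ?_) (fun w hw => ?_)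
  · rw [Finset.mem_filter, Finset.mem_filter, hX]
    constructor
    · rintro ⟨⟨⟨h1, h2⟩, h3⟩, h4⟩
      exact ⟨h1, h4⟩
    · rintro ⟨h1, h4⟩
      have h2 : w.under A = P := by rw [← huu, h4, hvP]
      exact ⟨⟨⟨h1, h2⟩, (hpq w ((hX w).2 ⟨h1, h2⟩)).2 (by rw [h4]; exact hvd)⟩, h4⟩
  · rw [Finset.mem_filter, Finset.mem_filter] at hw
    exact hI w hw.1.1

end gen

end Pool.Agent.Helper28H.FE.Fr
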