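import Mathlib

/-!
# Project FE, piece FROB, 2: Moebius inversion over the subgroups of a cyclic group; a comparison
-/

set_option autoImplicit false

namespace Pool.Agent.Helper28H.FE.Fr

open scoped Classical

section grp

variable {G : Type} [Group G]

theorem moeb (n : ℕ) :
    ∑ d ∈ n.divisors, ArithmeticFunction.moebius d = if n = 1 then 1 else 0 := by
  rw [← ArithmeticFunction.coe_mul_zeta_apply, ArithmeticFunction.moebius_mul_coe_zeta,
    ArithmeticFunction.one_apply]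

/-- the indicator of the generators of `⟨σ⟩` -/
noncomputable def ind (σ g : G) : ℤ :=
  ∑ d ∈ (orderOf σ).divisors,
    ArithmeticFunction.moebius d * (if g ∈ Subgroup.zpowers (σ ^ d) then 1 else 0)

theorem mem_zp {σ : G} {d : ℕ} (hd : d ∣ orderOf σ) (j : ℕ) :
    σ ^ j ∈ Subgroup.zpowers (σ ^ d) ↔ d ∣ j := by
  constructor
  · intro h
    obtain ⟨m, hm⟩ := Subgroup.mem_zpowers_iff.1 h
    have h1 : σ ^ ((j : ℤ) - d * m) = 1 := by
      rw [zpow_sub, zpow_natCast, zpow_mul, zpow_natCast, hm, mul_inv_cancel]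
    have h2 : (orderOf σ : ℤ) ∣ (j : ℤ) - d * m := orderOf_dvd_iff_zpow_eq_one.2 h1
    have h3 : (d : ℤ) ∣ (j : ℤ) - d * m := (Int.natCast_dvd_natCast.2 hd).trans h2
    have h4 : (d : ℤ) ∣ (j : ℤ) := by
      have := dvd_add h3 (dvd_mul_right (d : ℤ) m)
      rwa [sub_add_cancel] at this
    exact Int.natCast_dvd_natCast.1 h4
  · rintro ⟨m, rfl⟩
    rw [pow_mul]
    exact Subgroup.pow_mem _ (Subgroup.mem_zpowers _) _

theorem ind_pow {σ : G} (hσ : orderOf σ ≠ 0) (j : ℕ) :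
    ind σ (σ ^ j) = if Nat.gcd (orderOf σ) j = 1 then 1 else 0 := by
  rw [← moeb, ind]
  have h1 : (Nat.gcd (orderOf σ) j).divisors = (orderOf σ).divisors.filter (fun d => d ∣ j) := by
    ext d
    rw [Finset.mem_filter, Nat.mem_divisors, Nat.mem_divisors, Nat.dvd_gcd_iff]
    constructor
    · rintro ⟨⟨h1, h2⟩, _⟩
      exact ⟨⟨h1, hσ⟩, h2⟩
    · rintro ⟨⟨h1, _⟩, h2⟩
      exact ⟨⟨h1, h2⟩, Nat.gcd_ne_zero_left hσ⟩
  rw [h1, Finset.sum_filter]
  refine Finset.sum_congr rfl fun d hd => ?_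
  have h2 := mem_zp (σ := σ) (Nat.dvd_of_mem_divisors hd) j
  by_cases h3 : d ∣ j
  · rw [if_pos h3, if_pos (h2.2 h3), mul_one]
  · rw [if_neg h3, if_neg (fun h => h3 (h2.1 h)), mul_zero]

theorem ind_not {σ g : G} (hg : g ∉ Subgroup.zpowers σ) : ind σ g = 0 := by
  rw [ind]
  refine Finset.sum_eq_zero fun d _ => ?_
  rw [if_neg, mul_zero]
  intro h
  apply hg
  have : Subgroup.zpowers (σ ^ d) ≤ Subgroup.zpowers σ := by
    rw [Subgroup.zpowers_le]
    exact Subgroup.pow_mem _ (Subgroup.mem_zpowers σ) d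
  exact this h

theorem ind_cases [Finite G] (σ g : G) :
    ind σ g = 0 ∨ (ind σ g = 1 ∧ ∃ a : ℕ, a.Coprime (orderOf σ) ∧ g = σ ^ a) := by
  by_cases hg : g ∈ Subgroup.zpowers σ
  · obtain ⟨j, rfl⟩ := (mem_powers_iff_mem_zpowers (x := σ) (y := g)).2 hg
    show ind σ (σ ^ j) = 0 ∨ _
    rw [ind_pow (orderOf_pos σ).ne']
    split_ifs with h
    · right
      exact ⟨rfl, j, Nat.Coprime.symm h, rfl⟩
    · left
      rfl
  · exact Or.inl (ind_not hg)

theorem ind_self [Finite G] (σ : G) : ind σ σ = 1 := by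
  have h := ind_pow (orderOf_pos σ).ne' 1
  rw [pow_one, if_pos (Nat.gcd_one_right _)] at h
  exact h

theorem sum_pos [Finite G] (σ : G) :
    0 < ∑ d ∈ (orderOf σ).divisors,
      ArithmeticFunction.moebius d * (Nat.card (Subgroup.zpowers (σ ^ d)) : ℤ) := by
  haveI : Fintype G := Fintype.ofFinite G
  have h1 : ∑ g : G, ind σ g = ∑ d ∈ (orderOf σ).divisors,
      ArithmeticFunction.moebius d * (Nat.card (Subgroup.zpowers (σ ^ d)) : ℤ) := by
    simp only [ind]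
    rw [Finset.sum_comm]
    refine Finset.sum_congr rfl fun d _ => ?_
    rw [← Finset.mul_sum]
    congr 1
    rw [Finset.sum_boole, Nat.card_eq_fintype_card]
    congr 1
    exact (Fintype.card_subtype _).symm
  rw [← h1]
  have h2 : ∀ g : G, 0 ≤ ind σ g := fun g => by
    rcases ind_cases σ g with h | ⟨h, _⟩
    · rw [h]
    · rw [h]; exact zero_le_one
  calc (0 : ℤ) < ind σ σ := by rw [ind_self]; exact one_pos
    _ ≤ ∑ g : G, ind σ g := Finset.single_le_sum (fun g _ => h2 g) (Finset.mem_univ σ)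

end grp

/-- the comparison -/
theorem ana {ι : Type} (D : Finset ι) (a : ι → ℝ) (F : ι → ℕ → ℝ) (B : ι → ℝ)
    (hF : ∀ d ∈ D, ∀ n : ℕ, |F d n - n| ≤ B d) (hS : 0 < ∑ d ∈ D, a d) (N₀ : ℕ) (C : ℝ)
    (hT : ∀ n : ℕ, N₀ ≤ n → ∑ d ∈ D, a d * F d n = C) : False := by
  obtain ⟨n, hn⟩ := exists_nat_gt ((C + ∑ d ∈ D, |a d| * B d) / ∑ d ∈ D, a d)
  rw [div_lt_iff₀ hS] at hn
  have h1 := hT (max n N₀) (le_max_right _ _)
  have h2 : |∑ d ∈ D, a d * F d (max n N₀) - ((max n N₀ : ℕ) : ℝ) * ∑ d ∈ D, a d| ≤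
      ∑ d ∈ D, |a d| * B d := by
    have h3 : ∑ d ∈ D, a d * F d (max n N₀) - ((max n N₀ : ℕ) : ℝ) * ∑ d ∈ D, a d =
        ∑ d ∈ D, a d * (F d (max n N₀) - ((max n N₀ : ℕ) : ℝ)) := by
      rw [Finset.mul_sum, ← Finset.sum_sub_distrib]
      refine Finset.sum_congr rfl fun d _ => ?_
      ring
    rw [h3]
    refine (Finset.abs_sum_le_sum_abs _ _).trans (Finset.sum_le_sum fun d hd => ?_)
    rw [abs_mul]
    exact mul_le_mul_of_nonneg_left (hF d hd _) (abs_nonneg _)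
  rw [h1] at h2
  have h4 := neg_le_of_abs_le h2
  have h5 : (n : ℝ) ≤ ((max n N₀ : ℕ) : ℝ) := by exact_mod_cast le_max_left n N₀
  have h6 : (n : ℝ) * ∑ d ∈ D, a d ≤ ((max n N₀ : ℕ) : ℝ) * ∑ d ∈ D, a d :=
    mul_le_mul_of_nonneg_right h5 hS.le
  linarith

end Pool.Agent.Helper28H.FE.Fr
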