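import Pool.Agent.Helper28H.FE.Stm
import Pool.Agent.Helper28H.FE.Frob1
import Pool.Agent.Helper28H.FE.Frob2

/-!
# Project FE, piece FROB: the theorem of Frobenius over `k(t)`
-/

set_option autoImplicit false

open Polynomial IsDedekindDomain
open scoped Classical Pointwise

namespace Pool.Agent.Helper28H.FE

open Pool.Agent.N874.PP (Ov)

namespace Fr

section setup

variable {k K N : Type} [Field k] [Field K] [Algebra k[X] K]
  [IsFractionRing k[X] K] [Field N] [Algebra K N] [Algebra k[X] N] [IsScalarTower k[X] K N]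

omit [IsFractionRing k[X] K] in
theorem comm1 : SMulCommClass (N ≃ₐ[K] N) k[X] N := ⟨fun g p x => by
  rw [Algebra.smul_def, Algebra.smul_def, AlgEquiv.smul_def, AlgEquiv.smul_def, map_mul,
    IsScalarTower.algebraMap_apply k[X] K N, g.commutes]⟩

attribute [local instance] comm1

/-- the quotients of `k[t]` -/
theorem card_quot [Finite k] {Q : k[X]} (hQ : Q ≠ 0) :
    Finite (k[X] ⧸ Ideal.span {Q}) ∧
      Nat.card (k[X] ⧸ Ideal.span {Q}) = Nat.card k ^ Q.natDegree := by
  have h1 : Module.Finite k (k[X] ⧸ Ideal.span {Q}) := by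
    exact (AdjoinRoot.powerBasis hQ).finite
  have h2 : Finite (k[X] ⧸ Ideal.span {Q}) := Module.finite_of_finite k
  refine ⟨h2, ?_⟩
  rw [Module.natCard_eq_pow_finrank (K := k), finrank_quotient_span_eq_natDegree]

/-- finitely many polynomials of bounded degree -/
theorem fin_deg [Finite k] (n : ℕ) :
    {Q : k[X] | Q.Monic ∧ Irreducible Q ∧ Q.natDegree ≤ n}.Finite := by
  haveI : Finite (Polynomial.degreeLT k (n + 1)) :=
    Finite.of_equiv _ (Polynomial.degreeLTEquiv k (n + 1)).toEquiv.symm
  refine (Set.toFinite (Polynomial.degreeLT k (n + 1) : Set k[X])).subset ?_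
  rintro Q ⟨_, _, hQ⟩
  rw [SetLike.mem_coe, Polynomial.mem_degreeLT]
  refine lt_of_le_of_lt Polynomial.degree_le_natDegree ?_
  exact_mod_cast Nat.lt_succ_of_le hQ

variable [FiniteDimensional K N] [IsGalois K N]

theorem dd (F : IntermediateField K N) : IsDedekindDomain (integralClosure k[X] F) :=
  integralClosure.isDedekindDomain k[X] K F

attribute [local instance] dd

/-- the ring of invariants of a subgroup -/
theorem count_H [Finite k] (H : Subgroup (N ≃ₐ[K] N)) (Q : k[X]) (hQ : Irreducible Q)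
    (X : Finset (Ideal (integralClosure k[X] N)))
    (hX : ∀ w, w ∈ X ↔ w.IsPrime ∧ w.under k[X] = Ideal.span {Q})
    (hI : ∀ w ∈ X, ∀ g : N ≃ₐ[K] N, (∀ x : integralClosure k[X] N, g • x - x ∈ w) → g = 1)
    (φ : Ideal (integralClosure k[X] N) → (N ≃ₐ[K] N))
    (hφ : ∀ w ∈ X, ∀ x : integralClosure k[X] N,
      φ w • x - x ^ Nat.card (k[X] ⧸ Ideal.span {Q}) ∈ w) :
    ∑ w ∈ X with φ w ∈ H, Nat.card (MulAction.stabilizer (N ≃ₐ[K] N) w) =
      Nat.card H * {v : HeightOneSpectrum (integralClosure k[X] (IntermediateField.fixedField H)) |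
        One Q v}.ncard := by
  obtain ⟨F, hF⟩ : ∃ F : IntermediateField K N, F = IntermediateField.fixedField H := ⟨_, rfl⟩
  rw [← hF]
  haveI : IsScalarTower k[X] F N := IsScalarTower.of_algebraMap_eq fun p => by
    rw [IsScalarTower.algebraMap_apply k[X] K N, IsScalarTower.algebraMap_apply k[X] K F,
      ← IsScalarTower.algebraMap_apply K F N]
  let j : integralClosure k[X] F →ₐ[k[X]] integralClosure k[X] N :=
    (IsScalarTower.toAlgHom k[X] F N).mapIntegralClosure
  have hj : ∀ y : integralClosure k[X] F, ((j y : integralClosure k[X] N) : N) = ((y : F) : N) :=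
    fun y => rfl
  letI : Algebra (integralClosure k[X] F) (integralClosure k[X] N) := j.toRingHom.toAlgebra
  have hja : ∀ y : integralClosure k[X] F,
      algebraMap (integralClosure k[X] F) (integralClosure k[X] N) y = j y := fun y => rfl
  haveI : IsScalarTower k[X] (integralClosure k[X] F) (integralClosure k[X] N) :=
    IsScalarTower.of_algebraMap_eq fun p => by
      rw [hja, j.commutes]
  have hfix : ∀ (h : H) (y : integralClosure k[X] F),
      (h : N ≃ₐ[K] N) • (algebraMap (integralClosure k[X] F) (integralClosure k[X] N) y) =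
        algebraMap (integralClosure k[X] F) (integralClosure k[X] N) y := by
    intro h y
    apply Subtype.ext
    show (h : N ≃ₐ[K] N) ((y : F) : N) = ((y : F) : N)
    have hy : ((y : F) : N) ∈ IntermediateField.fixedField H := by
      rw [← hF]
      exact (y : F).2
    exact hy h
  haveI : SMulCommClass H (integralClosure k[X] F) (integralClosure k[X] N) := ⟨fun h y x => by
    show (h : N ≃ₐ[K] N) • (y • x) = y • ((h : N ≃ₐ[K] N) • x)
    rw [Algebra.smul_def, Algebra.smul_def, smul_mul', hfix]⟩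
  haveI : Algebra.IsInvariant (integralClosure k[X] F) (integralClosure k[X] N) H := ⟨fun b hb => by
    have h1 : (b : N) ∈ F := by
      rw [hF]
      intro h
      exact congrArg Subtype.val (hb h)
    have h2 : IsIntegral k[X] (⟨b, h1⟩ : F) := by
      have h3 : IsIntegral k[X] (algebraMap F N ⟨b, h1⟩) := b.2
      exact (isIntegral_algebraMap_iff (algebraMap F N).injective).1 h3
    exact ⟨⟨⟨b, h1⟩, h2⟩, Subtype.ext rfl⟩⟩
  have hinj : Function.Injective
      (algebraMap (integralClosure k[X] F) (integralClosure k[X] N)) := by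
    intro y y' hyy
    have := congrArg (Subtype.val) hyy
    exact Subtype.ext (Subtype.ext this)
  obtain ⟨hfin, -⟩ := card_quot hQ.ne_zero
  rw [count (A := k[X]) (OH := integralClosure k[X] F) H hinj (Ideal.span {Q}) X hX hI φ hφ]
  congr 1
  have h1 : {v : Ideal (integralClosure k[X] F) | v.IsPrime ∧ v.under k[X] = Ideal.span {Q} ∧
        ∀ y : integralClosure k[X] F, ∃ c : k[X],
          y - algebraMap k[X] (integralClosure k[X] F) c ∈ v} =
      HeightOneSpectrum.asIdeal '' {v : HeightOneSpectrum (integralClosure k[X] F) | One Q v} := by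
    ext v
    constructor
    · rintro ⟨h2, h3, h4⟩
      refine ⟨⟨v, h2, ?_⟩, ⟨?_, h4⟩, rfl⟩
      · rintro rfl
        have h5 : Q ∈ (⊥ : Ideal (integralClosure k[X] F)).under k[X] := by
          rw [h3]
          exact Ideal.mem_span_singleton_self Q
        rw [Ideal.under_def, Ideal.mem_comap, Ideal.mem_bot] at h5
        have h6 := congrArg (fun z : integralClosure k[X] F => ((z : F) : N)) h5
        have h7 : algebraMap k[X] N Q = 0 := h6
        rw [IsScalarTower.algebraMap_apply k[X] K N, map_eq_zero,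
          IsFractionRing.to_map_eq_zero_iff] at h7
        exact hQ.ne_zero h7
      · show algebraMap k[X] (integralClosure k[X] F) Q ∈ v
        rw [← Ideal.mem_comap]
        have : Q ∈ v.under k[X] := by
          rw [h3]
          exact Ideal.mem_span_singleton_self Q
        exact this
    · rintro ⟨v, ⟨h2, h3⟩, rfl⟩
      refine ⟨v.isPrime, ?_, h3⟩
      have hmax : (Ideal.span {Q} : Ideal k[X]).IsMaximal :=
        PrincipalIdealRing.isMaximal_of_irreducible hQ
      haveI := v.isPrime
      refine (hmax.eq_of_le ?_ ?_).symm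
      · exact Ideal.IsPrime.ne_top inferInstance
      · rw [Ideal.span_singleton_le_iff_mem]
        exact h2
  rw [h1, Set.ncard_image_of_injective _ fun v v' h => HeightOneSpectrum.ext h]

/-- almost all primes are unramified -/
theorem inertia : ∃ D₀ : ℕ, ∀ Q : k[X], Irreducible Q → D₀ < Q.natDegree →
    ∀ w : Ideal (integralClosure k[X] N), w.under k[X] = Ideal.span {Q} →
    ∀ g : N ≃ₐ[K] N, (∀ x : integralClosure k[X] N, g • x - x ∈ w) → g = 1 := by
  haveI : IsFractionRing (integralClosure k[X] N) N :=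
    integralClosure.isFractionRing_of_finite_extension K N
  have key : ∀ g : N ≃ₐ[K] N, ∃ a : k[X], g ≠ 1 → a ≠ 0 ∧ ∃ x z : integralClosure k[X] N,
      algebraMap k[X] (integralClosure k[X] N) a = (g • x - x) * z := by
    intro g
    by_cases hg : g = 1
    · exact ⟨0, fun h => absurd hg h⟩
    obtain ⟨x, hx⟩ : ∃ x : integralClosure k[X] N, g • x ≠ x := by
      by_contra hc
      push Not at hc
      apply hg
      apply AlgEquiv.ext
      intro z
      obtain ⟨a, b, hb, rfl⟩ := IsFractionRing.div_surjective (A := integralClosure k[X] N) z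
      have h1 : g (algebraMap (integralClosure k[X] N) N a) =
          algebraMap (integralClosure k[X] N) N a := congrArg Subtype.val (hc a)
      have h2 : g (algebraMap (integralClosure k[X] N) N b) =
          algebraMap (integralClosure k[X] N) N b := congrArg Subtype.val (hc b)
      rw [map_div₀, h1, h2]
      rfl
    have h1 := Ideal.comap_ne_bot_of_integral_mem (R := k[X])
      (I := Ideal.span {g • x - x}) (sub_ne_zero.2 hx) (Ideal.mem_span_singleton_self _)
      (Algebra.IsIntegral.isIntegral _)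
    obtain ⟨a, ha, ha0⟩ := Submodule.exists_mem_ne_zero_of_ne_bot h1
    refine ⟨a, fun _ => ⟨ha0, x, ?_⟩⟩
    rw [Ideal.mem_comap, Ideal.mem_span_singleton] at ha
    exact ha
  choose a ha using key
  haveI : Fintype (N ≃ₐ[K] N) := Fintype.ofFinite _
  refine ⟨∑ g, (a g).natDegree, fun Q hQ hdeg w hw g hg => ?_⟩
  by_contra hg1
  obtain ⟨ha0, x, z, hxz⟩ := ha g hg1
  have h1 : a g ∈ w.under k[X] := by
    show algebraMap k[X] (integralClosure k[X] N) (a g) ∈ w
    rw [hxz]
    exact w.mul_mem_right z (hg x)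
  rw [hw, Ideal.mem_span_singleton] at h1
  have h2 := Polynomial.natDegree_le_of_dvd h1 ha0
  have h3 : (a g).natDegree ≤ ∑ g, (a g).natDegree :=
    Finset.single_le_sum (f := fun g => (a g).natDegree) (fun _ _ => Nat.zero_le _)
      (Finset.mem_univ g)
  omega

theorem inv1 : Algebra.IsInvariant k[X] (integralClosure k[X] N) (N ≃ₐ[K] N) := ⟨fun b hb => by
  have h1 : (b : N) ∈ (⊥ : IntermediateField K N) := by
    rw [IsGalois.mem_bot_iff_fixed]
    exact fun g => congrArg Subtype.val (hb g)
  obtain ⟨c, hc⟩ := IntermediateField.mem_bot.1 h1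
  have h2 : IsIntegral k[X] c := by
    have h3 : IsIntegral k[X] (algebraMap K N c) := by
      rw [hc]
      exact b.2
    exact (isIntegral_algebraMap_iff (algebraMap K N).injective).1 h3
  obtain ⟨p, hp⟩ := IsIntegrallyClosed.isIntegral_iff.1 h2
  refine ⟨p, Subtype.ext ?_⟩
  show algebraMap k[X] N p = b
  rw [IsScalarTower.algebraMap_apply k[X] K N, hp, hc]⟩

/-- the primes over `Q` and Frobenius elements -/
theorem exists_frob [Finite k] (Q : k[X]) (hQ : Irreducible Q) :
    ∃ (X : Finset (Ideal (integralClosure k[X] N)))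
      (φ : Ideal (integralClosure k[X] N) → (N ≃ₐ[K] N)),
      (∀ w, w ∈ X ↔ w.IsPrime ∧ w.under k[X] = Ideal.span {Q}) ∧
      ∀ w ∈ X, ∀ x : integralClosure k[X] N,
        φ w • x - x ^ Nat.card (k[X] ⧸ Ideal.span {Q}) ∈ w := by
  haveI := inv1 (k := k) (K := K) (N := N)
  haveI : Fintype (N ≃ₐ[K] N) := Fintype.ofFinite _
  obtain ⟨hfin, -⟩ := card_quot hQ.ne_zero
  have hmax : (Ideal.span {Q} : Ideal k[X]).IsMaximal :=
    PrincipalIdealRing.isMaximal_of_irreducible hQ
  haveI : (Ideal.span {Q} : Ideal k[X]).IsPrime := hmax.isPrime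
  have hinj : Function.Injective (algebraMap k[X] (integralClosure k[X] N)) := by
    intro a b hab
    have h1 : algebraMap k[X] N a = algebraMap k[X] N b := congrArg Subtype.val hab
    rw [IsScalarTower.algebraMap_apply k[X] K N, IsScalarTower.algebraMap_apply k[X] K N] at h1
    exact IsFractionRing.injective k[X] K ((algebraMap K N).injective h1)
  obtain ⟨w₀, -, hw₀p, hw₀⟩ := Ideal.exists_ideal_over_prime_of_isIntegral
    (Ideal.span {Q} : Ideal k[X]) (⊥ : Ideal (integralClosure k[X] N)) (by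
      intro x hx
      rw [Ideal.mem_comap, Ideal.mem_bot] at hx
      rw [(injective_iff_map_eq_zero _).1 hinj x hx]
      exact zero_mem _)
  have hw₀' : w₀.under k[X] = Ideal.span {Q} := hw₀
  haveI := hw₀p
  haveI : Module.Finite k[X] (integralClosure k[X] N) :=
    IsIntegralClosure.finite k[X] K N (integralClosure k[X] N)
  have hF : ∀ w : Ideal (integralClosure k[X] N), ∃ g : N ≃ₐ[K] N,
      w.IsPrime → w.under k[X] = Ideal.span {Q} → ∀ x : integralClosure k[X] N,
        g • x - x ^ Nat.card (k[X] ⧸ Ideal.span {Q}) ∈ w := by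
    intro w
    by_cases hw : w.IsPrime ∧ w.under k[X] = Ideal.span {Q}
    · obtain ⟨hw1, hw2⟩ := hw
      haveI := hw1
      haveI : Finite (k[X] ⧸ w.under k[X]) := by
        rw [hw2]
        exact hfin
      haveI : Module.Finite (k[X] ⧸ w.under k[X]) (integralClosure k[X] N ⧸ w) :=
        Module.Finite.of_restrictScalars_finite k[X] _ _
      haveI : Finite (integralClosure k[X] N ⧸ w) := Module.finite_of_finite (k[X] ⧸ w.under k[X])
      obtain ⟨g, hg⟩ := IsArithFrobAt.exists_of_isInvariant k[X] (N ≃ₐ[K] N) w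
      refine ⟨g, fun _ _ x => ?_⟩
      have := hg x
      rw [hw2] at this
      exact this
    · exact ⟨1, fun h1 h2 => absurd ⟨h1, h2⟩ hw⟩
  choose φ hφ using hF
  refine ⟨Finset.univ.image fun g : N ≃ₐ[K] N => g • w₀, φ, fun w => ?_, fun w hw => ?_⟩
  · rw [Finset.mem_image]
    constructor
    · rintro ⟨g, -, rfl⟩
      exact ⟨Ideal.IsPrime.smul g, by rw [Ideal.under_smul, hw₀']⟩
    · rintro ⟨h1, h2⟩
      haveI := h1
      obtain ⟨g, hg⟩ := Algebra.IsInvariant.exists_smul_of_under_eq k[X]
        (integralClosure k[X] N) (N ≃ₐ[K] N) w₀ w (hw₀'.trans h2.symm)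
      exact ⟨g, Finset.mem_univ _, hg.symm⟩
  · rw [Finset.mem_image] at hw
    obtain ⟨g, -, rfl⟩ := hw
    exact hφ _ (Ideal.IsPrime.smul g) (by rw [Ideal.under_smul, hw₀'])

end setup

end Fr

open Fr in
attribute [local instance] Fr.comm1 Fr.dd in
theorem frob (hM : E_MERT) : E_FROB := by
  intro k K N _ _ _ _ _ _ _ _ _ _ _ σ B
  by_contra hcon
  push Not at hcon
  obtain ⟨D₀, hD₀⟩ := inertia (k := k) (K := K) (N := N)
  -- the fixed fields
  obtain ⟨nn, hnn⟩ : ∃ nn : ℕ → k[X] → ℝ, ∀ d Q, nn d Q =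
      ({v : HeightOneSpectrum (integralClosure k[X]
        (IntermediateField.fixedField (Subgroup.zpowers (σ ^ d)))) | One Q v}.ncard : ℝ) :=
    ⟨_, fun d Q => rfl⟩
  obtain ⟨a, ha⟩ : ∃ a : ℕ → ℝ, ∀ d, a d = ((ArithmeticFunction.moebius d *
      (Nat.card (Subgroup.zpowers (σ ^ d)) : ℤ) : ℤ) : ℝ) := ⟨_, fun d => rfl⟩
  have key : ∀ Q : k[X], Q.Monic → Irreducible Q → max B D₀ < Q.natDegree →
      ∑ d ∈ (orderOf σ).divisors, a d * nn d Q = 0 := by
    intro Q hQm hQ hdeg
    obtain ⟨X, φ, hX, hφ⟩ := exists_frob (k := k) (K := K) (N := N) Q hQ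
    obtain ⟨-, hcard⟩ := card_quot hQ.ne_zero
    have hI : ∀ w ∈ X, ∀ g : N ≃ₐ[K] N, (∀ x : integralClosure k[X] N, g • x - x ∈ w) → g = 1 :=
      fun w hw => hD₀ Q hQ ((le_max_right _ _).trans_lt hdeg) w ((hX w).1 hw).2
    have h1 : ∀ w ∈ X, ind σ (φ w) = 0 := by
      intro w hw
      rcases ind_cases σ (φ w) with h | ⟨-, b, hb, hbφ⟩
      · exact h
      · exfalso
        obtain ⟨hwp, hwu⟩ := (hX w).1 hw
        have hQw : algebraMap k[X] (integralClosure k[X] N) Q ∈ w := by
          have : Q ∈ w.under k[X] := by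
            rw [hwu]
            exact Ideal.mem_span_singleton_self Q
          exact this
        have hwb : w ≠ ⊥ := by
          rintro rfl
          rw [Ideal.mem_bot] at hQw
          have h7 : algebraMap k[X] N Q = 0 := congrArg Subtype.val hQw
          rw [IsScalarTower.algebraMap_apply k[X] K N, map_eq_zero,
            IsFractionRing.to_map_eq_zero_iff] at h7
          exact hQ.ne_zero h7
        obtain ⟨x, y, hxy, hn⟩ := hcon Q b ⟨w, hwp, hwb⟩ hQm hQ
          ((le_max_left _ _).trans_lt hdeg) hQw hb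
        apply hn
        have h2 := hφ w hw x
        rw [hcard] at h2
        have h3 : φ w • x = y := by
          apply Subtype.ext
          rw [hbφ]
          exact hxy
        rw [h3] at h2
        exact h2
    have h2 : ∀ d : ℕ, (Nat.card (Subgroup.zpowers (σ ^ d)) : ℝ) * nn d Q =
        ∑ w ∈ X, (if φ w ∈ Subgroup.zpowers (σ ^ d) then 1 else 0 : ℝ) *
          (Nat.card (MulAction.stabilizer (N ≃ₐ[K] N) w) : ℝ) := by
      intro d
      have h3 := count_H (Subgroup.zpowers (σ ^ d)) Q hQ X hX hI φ hφ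
      rw [hnn, ← Nat.cast_mul, ← h3, Nat.cast_sum, Finset.sum_filter]
      refine Finset.sum_congr rfl fun w _ => ?_
      split_ifs
      · rw [one_mul]
      · rw [zero_mul]
    calc ∑ d ∈ (orderOf σ).divisors, a d * nn d Q
        = ∑ d ∈ (orderOf σ).divisors, (ArithmeticFunction.moebius d : ℝ) *
          ∑ w ∈ X, (if φ w ∈ Subgroup.zpowers (σ ^ d) then 1 else 0 : ℝ) *
          (Nat.card (MulAction.stabilizer (N ≃ₐ[K] N) w) : ℝ) := by
          refine Finset.sum_congr rfl fun d _ => ?_
          rw [ha, ← h2]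
          push_cast
          ring
      _ = ∑ w ∈ X, (ind σ (φ w) : ℝ) *
          (Nat.card (MulAction.stabilizer (N ≃ₐ[K] N) w) : ℝ) := by
          simp only [Finset.mul_sum]
          rw [Finset.sum_comm]
          refine Finset.sum_congr rfl fun w _ => ?_
          rw [ind]
          push_cast
          rw [Finset.sum_mul]
          refine Finset.sum_congr rfl fun d _ => ?_
          ring
      _ = 0 := Finset.sum_eq_zero fun w hw => by rw [h1 w hw, Int.cast_zero, zero_mul]
  -- the theorem of Mertens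
  obtain ⟨F, hF⟩ : ∃ F : ℕ → ℕ → ℝ, ∀ d n, F d n =
      ∑ᶠ Q ∈ {Q : k[X] | Q.Monic ∧ Irreducible Q ∧ Q.natDegree ≤ n},
        (Q.natDegree : ℝ) / (Nat.card k : ℝ) ^ Q.natDegree * nn d Q := ⟨_, fun d n => rfl⟩
  have hMd : ∀ d : ℕ, ∃ Bd : ℝ, ∀ n : ℕ, |F d n - n| ≤ Bd := by
    intro d
    haveI : IsFractionRing (integralClosure k[X]
      (IntermediateField.fixedField (Subgroup.zpowers (σ ^ d))))
      (IntermediateField.fixedField (Subgroup.zpowers (σ ^ d))) :=
      integralClosure.isFractionRing_of_finite_extension K _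
    obtain ⟨Bd, hBd⟩ := hM k K (IntermediateField.fixedField (Subgroup.zpowers (σ ^ d)))
      (integralClosure k[X] (IntermediateField.fixedField (Subgroup.zpowers (σ ^ d))))
    refine ⟨Bd, fun n => ?_⟩
    have := hBd n
    rw [hF]
    simp only [hnn]
    exact this
  choose Bd hBd using hMd
  have hS : 0 < ∑ d ∈ (orderOf σ).divisors, a d := by
    have h1 := sum_pos σ
    have h2 : ((∑ d ∈ (orderOf σ).divisors, ArithmeticFunction.moebius d *
      (Nat.card (Subgroup.zpowers (σ ^ d)) : ℤ) : ℤ) : ℝ) = ∑ d ∈ (orderOf σ).divisors, a d := by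
      rw [Int.cast_sum]
      exact Finset.sum_congr rfl fun d _ => (ha d).symm
    rw [← h2]
    exact_mod_cast h1
  -- the sums over `Q`
  have hsum : ∀ n : ℕ, ∑ d ∈ (orderOf σ).divisors, a d * F d n =
      ∑ Q ∈ (fin_deg (k := k) n).toFinset,
        (Q.natDegree : ℝ) / (Nat.card k : ℝ) ^ Q.natDegree *
          ∑ d ∈ (orderOf σ).divisors, a d * nn d Q := by
    intro n
    have h1 : ∀ d, F d n = ∑ Q ∈ (fin_deg (k := k) n).toFinset,
        (Q.natDegree : ℝ) / (Nat.card k : ℝ) ^ Q.natDegree * nn d Q := by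
      intro d
      rw [hF, finsum_mem_eq_finite_toFinset_sum _ (fin_deg (k := k) n)]
    simp only [h1, Finset.mul_sum]
    rw [Finset.sum_comm]
    refine Finset.sum_congr rfl fun Q _ => Finset.sum_congr rfl fun d _ => ?_
    ring
  refine ana (orderOf σ).divisors a F Bd (fun d _ n => hBd d n) hS (max B D₀)
    (∑ Q ∈ (fin_deg (k := k) (max B D₀)).toFinset,
        (Q.natDegree : ℝ) / (Nat.card k : ℝ) ^ Q.natDegree *
          ∑ d ∈ (orderOf σ).divisors, a d * nn d Q) (fun n hn => ?_)
  rw [hsum]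
  symm
  refine Finset.sum_subset ?_ fun Q hQ hQ' => ?_
  · intro Q hQ
    rw [Set.Finite.mem_toFinset] at hQ ⊢
    exact ⟨hQ.1, hQ.2.1, hQ.2.2.trans hn⟩
  · rw [Set.Finite.mem_toFinset] at hQ hQ'
    rw [key Q hQ.1 hQ.2.1, mul_zero]
    by_contra hc
    exact hQ' ⟨hQ.1, hQ.2.1, not_lt.1 hc⟩

end Pool.Agent.Helper28H.FE
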