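import Pool.Agent.Helper28H.FE.Stm
import Pool.Agent.N769.PJ.Int
import Pool.Agent.H30T.Grp2

/-! # Piece E-GAL (helper51): the Galois closure over `k(t)` -/

set_option autoImplicit false
set_option linter.all false

open Polynomial IsDedekindDomain Matrix
open scoped Classical

namespace Pool.Agent.Helper28H.FE

open Pool.Agent.N352.PJ (Mt IsGen dsc Cg Crd res)

namespace Gal

/-- two separable extensions, a square root and the roots of a separable polynomial in a Galois
extension -/
theorem exists_closure {K : Type} [Field K] (h2 : (2 : K) ≠ 0) (L E : Type) [Field L] [Algebra K L]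
    [FiniteDimensional K L] [Algebra.IsSeparable K L] [Field E] [Algebra K E] [FiniteDimensional K E]
    [IsGalois K E] (α : L) (p : K[X]) (hp : p.Separable) :
    ∃ (N : Type) (_ : Field N) (_ : Algebra K N) (_ : FiniteDimensional K N) (_ : IsGalois K N)
      (ι : L →ₐ[K] N) (κ : E →ₐ[K] N) (β : N),
      β ^ 2 = ι α ∧ (p.map (algebraMap K N)).Splits := by
  let Ω := SeparableClosure K
  let ι₀ : L →ₐ[K] Ω := IsSepClosed.lift
  let κ₀ : E →ₐ[K] Ω := IsSepClosed.lift
  have h2Ω : (2 : Ω) ≠ 0 := by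
    intro h
    apply h2
    apply (algebraMap K Ω).injective
    rw [map_ofNat, h, map_zero]
  obtain ⟨b, hb⟩ : ∃ b : Ω, b ^ 2 = ι₀ α := by
    have : NeZero ((2 : ℕ) : Ω) := ⟨by exact_mod_cast h2Ω⟩
    exact IsSepClosed.exists_pow_nat_eq (ι₀ α) 2
  have f1 : FiniteDimensional K ι₀.fieldRange :=
    LinearEquiv.finiteDimensional (AlgEquiv.ofInjectiveField ι₀).toLinearEquiv
  have f2 : FiniteDimensional K κ₀.fieldRange :=
    LinearEquiv.finiteDimensional (AlgEquiv.ofInjectiveField κ₀).toLinearEquiv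
  have hfin : (insert b (p.rootSet Ω)).Finite := (p.rootSet_finite Ω).insert b
  let A : IntermediateField K Ω := IntermediateField.adjoin K (insert b (p.rootSet Ω))
  have f3 : FiniteDimensional K A := by
    haveI : Finite (insert b (p.rootSet Ω) : Set Ω) := hfin
    exact IntermediateField.finiteDimensional_adjoin fun x _ => Algebra.IsIntegral.isIntegral x
  have f4 : FiniteDimensional K (ι₀.fieldRange ⊔ κ₀.fieldRange : IntermediateField K Ω) :=
    IntermediateField.finiteDimensional_sup _ _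
  let F : IntermediateField K Ω := (ι₀.fieldRange ⊔ κ₀.fieldRange) ⊔ A
  have f5 : FiniteDimensional K F := IntermediateField.finiteDimensional_sup _ _
  let N : IntermediateField K Ω := IntermediateField.normalClosure K F Ω
  have hFN : F ≤ N := IntermediateField.le_normalClosure F
  have f6 : FiniteDimensional K N := inferInstance
  have hNn : Normal K N := inferInstance
  have hNs : Algebra.IsSeparable K N := Algebra.isSeparable_tower_bot_of_isSeparable K N Ω
  have hG : IsGalois K N := ⟨⟩
  have l1 : ι₀.fieldRange ≤ N := le_trans (le_trans le_sup_left le_sup_left) hFN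
  have l2 : κ₀.fieldRange ≤ N := le_trans (le_trans le_sup_right le_sup_left) hFN
  have l3 : ∀ x ∈ insert b (p.rootSet Ω), x ∈ N := fun x hx =>
    hFN ((le_sup_right : A ≤ F) (IntermediateField.subset_adjoin K _ hx))
  refine ⟨N, inferInstance, inferInstance, f6, hG,
    (IntermediateField.inclusion l1).comp ι₀.rangeRestrict,
    (IntermediateField.inclusion l2).comp κ₀.rangeRestrict, ⟨b, l3 b (Set.mem_insert _ _)⟩, ?_, ?_⟩
  · exact Subtype.ext hb
  · refine IntermediateField.splits_of_splits (IsSepClosed.splits_codomain _ hp) ?_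
    intro x hx
    exact l3 x (Set.mem_insert_of_mem _ hx)

/-- the image of a normal field is stable -/
theorem range_normal {K M N : Type} [Field K] [Field M] [Algebra K M] [IsGalois K M] [Field N]
    [Algebra K N] (κ : M →ₐ[K] N) (b : N ≃ₐ[K] N) (y : M) : ∃ z : M, κ z = b (κ y) := by
  let e : M ≃ₐ[K] κ.fieldRange := AlgEquiv.ofInjectiveField κ
  have hn := Normal.of_algEquiv e
  have h1 := @AlgHom.fieldRange_of_normal _ _ _ _ _ κ.fieldRange hn
    ((b : N →ₐ[K] N).comp κ.fieldRange.val)
  have h2 : b (κ y) ∈ κ.fieldRange := by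
    rw [← h1]
    exact ⟨⟨κ y, ⟨y, rfl⟩⟩, rfl⟩
  obtain ⟨z, hz⟩ := h2
  exact ⟨z, hz⟩

/-- the product over all conjugates is rational -/
theorem rat {K L N : Type} [Field K] [Field L] [Algebra K L] [FiniteDimensional K L]
    [Algebra.IsSeparable K L] [Field N] [Algebra K N] (ι : L →ₐ[K] N)
    {I : Type} [Fintype I] (hI : Fintype.card I = Module.finrank K L) (θ α : L) (β : N)
    (hβ : β ^ 2 = ι α)
    (hα : IsSquare (Algebra.norm K α)) (u : I → (N ≃ₐ[K] N))
    (hu : Function.Injective fun i => u i (ι θ)) :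
    ∃ r : K, ∏ i, u i β = algebraMap K N r := by
  let Ω := AlgebraicClosure N
  let e : I → (L →ₐ[K] Ω) := fun i =>
    (IsScalarTower.toAlgHom K N Ω).comp (((u i : N ≃ₐ[K] N) : N →ₐ[K] N).comp ι)
  have he : ∀ i x, e i x = algebraMap N Ω (u i (ι x)) := fun i x => rfl
  have hinj : Function.Injective e := by
    intro i j hij
    apply hu
    have h1 := DFunLike.congr_fun hij θ
    rw [he, he] at h1
    exact (algebraMap N Ω).injective h1
  have hbij : Function.Bijective e := by
    rw [Fintype.bijective_iff_injective_and_card]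
    refine ⟨hinj, ?_⟩
    rw [hI, AlgHom.card]
  obtain ⟨r, hr⟩ := hα
  have h1 := Algebra.norm_eq_prod_embeddings K Ω α
  have h2 : ∏ σ : L →ₐ[K] Ω, σ α = algebraMap N Ω ((∏ i, u i β) ^ 2) := by
    rw [← hbij.prod_comp (fun σ : L →ₐ[K] Ω => σ α), ← Finset.prod_pow, map_prod]
    refine Finset.prod_congr rfl fun i _ => ?_
    rw [he, ← hβ, map_pow]
  rw [h2, hr, IsScalarTower.algebraMap_apply K N Ω] at h1
  have h3 := (algebraMap N Ω).injective h1
  rw [map_mul, ← sq] at h3
  rcases sq_eq_sq_iff_eq_or_eq_neg.1 h3.symm with h4 | h4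
  · exact ⟨r, h4⟩
  · exact ⟨-r, by rw [h4, map_neg]⟩

/-- the roots -/
theorem prod_rootSet {K N : Type} [Field K] [Field N] [Algebra K N] (p : K[X]) (hm : p.Monic)
    (hs : p.Separable) (hsp : (p.map (algebraMap K N)).Splits) :
    Fintype.card (p.rootSet N) = p.natDegree ∧
    p.map (algebraMap K N) = ∏ s : p.rootSet N, (X - C (s : N)) := by
  refine ⟨card_rootSet_eq_natDegree hs hsp, ?_⟩
  have h1 : (p.map (algebraMap K N)).roots.Nodup := nodup_roots hs.map
  have h2 := hsp.eq_prod_roots_of_monic (hm.map _)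
  rw [h2]
  have h3 : ∏ s : p.rootSet N, (X - C (s : N)) = ∏ s ∈ (p.rootSet N).toFinset, (X - C s) := by
    rw [Finset.prod_subtype (p.rootSet N).toFinset (p := fun x => x ∈ p.rootSet N) (by simp)]
  rw [h3]
  have h4 : (p.rootSet N).toFinset = (p.map (algebraMap K N)).roots.toFinset := by
    ext x
    rw [Set.mem_toFinset, rootSet, Finset.mem_coe, Multiset.mem_toFinset]
  rw [h4, Finset.prod_eq_multiset_prod, Multiset.toFinset_val, h1.dedup]

/-- the action on the roots -/
theorem exists_action {K N : Type} [Field K] [Field N] [Algebra K N] [IsGalois K N] (p : K[X])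
    (hs : p.Separable)
    (hsp : (p.map (algebraMap K N)).Splits) (hc : Nat.card p.Gal = (p.natDegree).factorial) :
    ∃ ρ : (N ≃ₐ[K] N) →* Equiv.Perm (p.rootSet N), Function.Surjective ρ ∧
      ∀ a (x : p.rootSet N), ((ρ a x : p.rootSet N) : N) = a x := by
  have : Fact ((p.map (algebraMap K N)).Splits) := ⟨hsp⟩
  refine ⟨(Gal.galActionHom p N).comp (Gal.restrict p N), ?_,
    fun a x => Gal.galActionHom_restrict p N a x⟩
  rw [MonoidHom.coe_comp]
  refine Function.Surjective.comp ?_ (Gal.restrict_surjective p N)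
  have h1 := Gal.galActionHom_injective p N
  have h2 : Nat.card p.Gal = Nat.card (Equiv.Perm (p.rootSet N)) := by
    rw [hc, Nat.card_perm, Nat.card_eq_fintype_card, card_rootSet_eq_natDegree hs hsp]
  exact ((Nat.bijective_iff_injective_and_card _).2 ⟨h1, h2⟩).2

/-- `θ` generates `L` -/
theorem ext_hom {g : ℕ} {k K L N : Type} [Field k] [Field K] [Algebra k[X] K] [Field L]
    [Algebra K L] [Algebra k[X] L] [Field N] [Algebra K N] {f : k[X][X]} {θ : L}
    (h : IsGen g K f θ) (a b : L →ₐ[K] N) (hab : a θ = b θ) : a = b := by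
  ext x
  obtain ⟨c, rfl⟩ := h.gen x
  rw [map_sum, map_sum]
  refine Finset.sum_congr rfl fun i _ => ?_
  rw [map_mul, map_mul, map_pow, map_pow, hab, AlgHom.commutes, AlgHom.commutes]

end Gal

open Gal in
theorem gal (hO : E_ODD) : E_GAL := by
  intro g k K L E _ _ _ _ _ _ _ _ _ _ _ _ _ _ _ f P₀ θ hyp hgen hunr α hα hnorm hsq
  have hS := Pool.Agent.H30T.sn
  have hG := Pool.Agent.H30T.grp2
  have hd0 : dsc g f ≠ 0 := by
    intro h0
    exact hyp.ndvd (by rw [h0]; exact dvd_zero _)
  have h1g := hyp.one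
  have h2K : (2 : K) ≠ 0 := by
    have h1 : (2 : k[X]) ≠ 0 := by
      intro h
      apply hyp.two
      apply C_injective (R := k)
      rw [map_ofNat, h, map_zero]
    intro h
    apply h1
    apply IsFractionRing.injective k[X] K
    rw [map_ofNat, h, map_zero]
  have hsepL : Algebra.IsSeparable K L := Pool.Agent.N769.PJ.isSep hgen hd0
  have hfdL : FiniteDimensional K L := Module.Finite.of_basis hgen.basis
  set p : K[X] := f.map (algebraMap k[X] K) with hp
  have hmon : p.Monic := hyp.mon.map _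
  have hsep : p.Separable := Pool.Agent.N769.PJ.sep hgen hd0
  have hdeg : p.natDegree = 2 * g + 1 := by
    rw [hp, hyp.mon.natDegree_map, hyp.deg]
  have hθp : aeval θ p = 0 := by
    rw [hp, aeval_map_algebraMap, aeval_def, hgen.root]
  obtain ⟨N, iF, iA, iFD, iG, ι, κ, β₁, hβ, hsp⟩ := exists_closure h2K L E α p hsep
  have h2N : (2 : N) ≠ 0 := by
    intro h
    apply h2K
    apply (algebraMap K N).injective
    rw [map_ofNat, h, map_zero]
  obtain ⟨ρ, hρ, hρ2⟩ := exists_action (N := N) p hsep hsp (by rw [hdeg]; exact hyp.gal)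
  obtain ⟨hcard, hprod⟩ := prod_rootSet (N := N) p hmon hsep hsp
  rw [hdeg] at hcard
  have hi : ι θ ∈ p.rootSet N := by
    rw [mem_rootSet]
    refine ⟨hmon.ne_zero, ?_⟩
    rw [aeval_algHom_apply, hθp, map_zero]
  have hfN : f.map ((algebraMap K N).comp (algebraMap k[X] K)) =
      ∏ s : p.rootSet N, (X - C (s : N)) := by
    rw [← hprod, hp, Polynomial.map_map]
  set i₁ : p.rootSet N := ⟨ι θ, hi⟩ with hi₁
  have hβ0 : β₁ ≠ 0 := by
    intro h0
    rw [h0, zero_pow two_ne_zero] at hβ
    exact hα ((map_eq_zero ι).1 hβ.symm)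
  have hext : ∀ a : N ≃ₐ[K] N, ρ a i₁ = i₁ → ∀ x : L, a (ι x) = ι x := by
    intro a ha x
    have h1 := hρ2 a i₁
    rw [ha] at h1
    have h2 := ext_hom hgen ((a : N →ₐ[K] N).comp ι) ι h1.symm
    exact DFunLike.congr_fun h2 x
  have hun : ∀ e e' : ℤˣ, (((e : ℤˣ) : ℤ) : N) = (((e' : ℤˣ) : ℤ) : N) → e = e' := by
    intro e e' h
    rcases Int.units_eq_one_or e with rfl | rfl <;> rcases Int.units_eq_one_or e' with rfl | rfl
    · rfl
    · exfalso
      apply h2N
      simp only [Units.val_one, Int.cast_one, Units.val_neg, Int.cast_neg] at h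
      linear_combination h
    · exfalso
      apply h2N
      simp only [Units.val_one, Int.cast_one, Units.val_neg, Int.cast_neg] at h
      linear_combination -h
    · rfl
  set ψ : (N ≃ₐ[K] N) → ℤˣ := fun a => if a β₁ = β₁ then 1 else -1 with hψdef
  have hψ : ∀ a : N ≃ₐ[K] N, ρ a i₁ = i₁ → a β₁ = ((ψ a : ℤ) : N) * β₁ := by
    intro a ha
    have h1 : (a β₁) ^ 2 = β₁ ^ 2 := by
      rw [← map_pow, hβ, hext a ha]
    simp only [hψdef]
    rcases sq_eq_sq_iff_eq_or_eq_neg.1 h1 with h2 | h2
    · rw [if_pos h2]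
      simp [h2]
    · have h3 : ¬ a β₁ = β₁ := by
        rw [h2]
        intro h4
        have h5 : (2 : N) * β₁ = 0 := by linear_combination -h4
        rcases mul_eq_zero.1 h5 with h6 | h6
        · exact h2N h6
        · exact hβ0 h6
      rw [if_neg h3]
      simp [h2]
  have hmul : ∀ a b : N ≃ₐ[K] N, ρ a i₁ = i₁ → ρ b i₁ = i₁ → ψ (a * b) = ψ a * ψ b := by
    intro a b ha hb
    have hab : ρ (a * b) i₁ = i₁ := by
      rw [map_mul, Equiv.Perm.mul_apply, hb, ha]
    have h1 := hψ _ hab
    rw [AlgEquiv.mul_apply, hψ b hb, map_mul, map_intCast, hψ a ha, ← mul_assoc] at h1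
    have h2 := mul_right_cancel₀ hβ0 h1
    refine (hun _ _ ?_).symm
    rw [Units.val_mul, Int.cast_mul, mul_comm]
    exact h2
  have hnc : ∀ v : N ≃ₐ[K] N, ρ v = 1 → ∀ t : p.rootSet N → (N ≃ₐ[K] N), (∀ i, ρ (t i) i₁ = i) →
      ∏ i, ψ ((t i)⁻¹ * v * t i) = 1 := by
    intro v hv t ht
    have hval : ∀ i : p.rootSet N, t i (ι θ) = i := by
      intro i
      have h1 := hρ2 (t i) i₁
      rw [ht] at h1
      exact h1.symm
    obtain ⟨r, hr⟩ := rat ι (I := p.rootSet N) (by rw [hcard, hgen.rank]) θ α β₁ hβ hnorm t (by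
      intro i j hij
      simp only [hval] at hij
      exact Subtype.ext hij)
    have h1 : ∀ i, v (t i β₁) = ((ψ ((t i)⁻¹ * v * t i) : ℤ) : N) * t i β₁ := by
      intro i
      have h2 : ρ ((t i)⁻¹ * v * t i) i₁ = i₁ := by
        rw [map_mul, map_mul, hv, mul_one, map_inv, Equiv.Perm.mul_apply, ht, Equiv.Perm.inv_eq_iff_eq]
        exact (ht i).symm
      have h3 := congrArg (t i) (hψ _ h2)
      rw [map_mul, map_intCast] at h3
      rw [← h3]
      show v (t i β₁) = (t i * ((t i)⁻¹ * v * t i)) β₁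
      rw [← mul_assoc, ← mul_assoc, mul_inv_cancel, one_mul]
      rfl
    have h2 : v (∏ i, t i β₁) = ((∏ i, ψ ((t i)⁻¹ * v * t i) : ℤˣ) : ℤ) * ∏ i, t i β₁ := by
      rw [map_prod, Finset.prod_congr rfl fun i _ => h1 i, Finset.prod_mul_distrib, Units.coe_prod, Int.cast_prod]
    have h3 : (∏ i, t i β₁) ≠ 0 := by
      rw [Finset.prod_ne_zero_iff]
      intro i _ h0
      exact hβ0 ((map_eq_zero (t i)).1 h0)
    have h4 : v (∏ i, t i β₁) = ∏ i, t i β₁ := by
      rw [hr, AlgEquiv.commutes]
    rw [h4] at h2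
    refine hun _ _ ?_
    rw [Units.val_one, Int.cast_one]
    exact (mul_right_cancel₀ h3 (by rw [one_mul]; exact h2)).symm
  -- the subgroup fixing the field
  let H : Subgroup (N ≃ₐ[K] N) :=
    { carrier := {a | ∀ y : E, a (κ y) = κ y}
      mul_mem' := by
        intro a b ha hb y
        show a (b (κ y)) = κ y
        rw [hb y, ha y]
      one_mem' := fun y => rfl
      inv_mem' := by
        intro a ha y
        show a.symm (κ y) = κ y
        rw [AlgEquiv.symm_apply_eq]
        exact (ha y).symm }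
  have hH : ∀ a, a ∈ H ↔ ∀ y : E, a (κ y) = κ y := fun a => Iff.rfl
  have hHn : H.Normal := by
    refine ⟨fun a ha b => ?_⟩
    rw [hH]
    intro y
    obtain ⟨z, hz⟩ := range_normal κ b⁻¹ y
    show b (a (b⁻¹ (κ y))) = κ y
    rw [← hz, (hH a).1 ha, hz]
    exact AlgEquiv.apply_symm_apply b _
  have hodd : ∃ a ∈ H, Equiv.Perm.sign (ρ a) = -1 := by
    let e : p.rootSet N ≃ Fin (2 * g + 1) := Fintype.equivFinOfCardEq hcard
    letI iAkN : Algebra k[X] N := ((algebraMap K N).comp (algebraMap k[X] K)).toAlgebra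
    haveI iST : IsScalarTower k[X] K N := IsScalarTower.of_algebraMap_eq fun _ => rfl
    obtain ⟨σ, π, h1, h2, h3⟩ := hO g k K E N f P₀ (fun i => ((e.symm i : p.rootSet N) : N)) (by
      show f.map ((algebraMap K N).comp (algebraMap k[X] K)) = _
      rw [hfN]
      exact (Equiv.prod_comp e.symm fun s : p.rootSet N => (X - C (s : N))).symm) (by
      intro i j hij
      exact e.symm.injective (Subtype.ext hij)) hyp.prime hyp.dvd hyp.ndvd hunr κ
    refine ⟨σ, (hH σ).2 h1, ?_⟩
    have h4 : ρ σ = e.symm.permCongr π := by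
      ext s
      rw [hρ2]
      have h5 := h2 (e s)
      simp only [Equiv.symm_apply_apply] at h5
      rw [h5]
      simp [Equiv.permCongr_apply]
    rw [h4, Equiv.Perm.sign_permCongr, h3]
  have hsurj : ∀ π : Equiv.Perm (p.rootSet N), ∃ a ∈ H, ρ a = π := by
    have h1 : H.map ρ = ⊤ := by
      refine hS (p.rootSet N) g (H.map ρ) h1g hcard (hHn.map ρ hρ) ?_
      obtain ⟨a, ha, ha'⟩ := hodd
      exact ⟨ρ a, ⟨a, ha, rfl⟩, ha'⟩
    intro π
    have h2 : π ∈ H.map ρ := by
      rw [h1]
      exact Subgroup.mem_top _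
    exact h2
  rcases hG g (N ≃ₐ[K] N) (p.rootSet N) ρ H i₁ ψ h1g hcard hHn hsurj hmul hnc with
    ⟨σ, hσH, hσ1, hσc, hσs, hσψ⟩ | hall
  · -- the cycle
    have hv : ∀ (a : N ≃ₐ[K] N) (j : ℕ) (s : p.rootSet N), (((ρ a) ^ j) s : p.rootSet N) = ((a ^ j) (s : N) : N) := by
      intro a j s
      rw [← map_pow, hρ2]
    obtain ⟨s₂, hs₂⟩ : ∃ s : p.rootSet N, s ≠ i₁ := by
      have : Nontrivial (p.rootSet N) := by
        rw [← Fintype.one_lt_card_iff_nontrivial, hcard]
        omega
      exact exists_ne i₁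
    obtain ⟨t, ht⟩ := hρ (Equiv.swap i₁ s₂)
    have ht1 : ρ t i₁ = s₂ := by rw [ht, Equiv.swap_apply_left]
    have ht2 : t (ι θ) = s₂ := by
      have h1 := hρ2 t i₁
      rw [ht1] at h1
      exact h1.symm
    set c : Equiv.Perm (p.rootSet N) := ρ σ with hc
    have hsupp : s₂ ∈ c.support := by
      rw [hσs]
      exact Finset.mem_erase.2 ⟨hs₂, Finset.mem_univ _⟩
    have hcs : c.support.card = 2 * g := by
      rw [hσs, Finset.card_erase_of_mem (Finset.mem_univ _), Finset.card_univ, hcard]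
      omega
    have hord : orderOf c = 2 * g := by rw [hσc.orderOf, hcs]
    have himg : (Finset.range (2 * g)).image (fun j => (c ^ j) s₂) = c.support := by
      apply Finset.Subset.antisymm
      · intro y hy
        obtain ⟨j, _, rfl⟩ := Finset.mem_image.1 hy
        exact Equiv.Perm.pow_apply_mem_support.2 hsupp
      · intro y hy
        obtain ⟨i, hi⟩ := hσc.exists_pow_eq (Equiv.Perm.mem_support.1 hsupp) (Equiv.Perm.mem_support.1 hy)
        refine Finset.mem_image.2 ⟨i % (2 * g), Finset.mem_range.2 (Nat.mod_lt _ (by omega)), ?_⟩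
        show (c ^ (i % (2 * g))) s₂ = y
        rw [← hord, pow_mod_orderOf, hi]
    have hinjOn : Set.InjOn (fun j => (c ^ j) s₂) (Finset.range (2 * g)) := by
      rw [← Finset.card_image_iff, himg, hcs, Finset.card_range]
    have hσθ : σ (ι θ) = ι θ := by
      have h1 := hρ2 σ i₁
      rw [hσ1] at h1
      exact h1.symm
    have hfix : (σ ^ (2 * g)) (t (ι θ)) = t (ι θ) := by
      rw [ht2, ← hv, ← hc, ← hord, pow_orderOf_eq_one]
      rfl
    have hprod2 : f.map ((algebraMap K N).comp (algebraMap k[X] K)) =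
        (X - C (ι θ)) * ∏ j ∈ Finset.range (2 * g), (X - C ((σ ^ j) (t (ι θ)))) := by
      rw [hfN, ← Finset.mul_prod_erase Finset.univ _ (Finset.mem_univ i₁), ← hσs, ← himg, Finset.prod_image hinjOn]
      congr 1
      refine Finset.prod_congr rfl fun j _ => ?_
      rw [hv, ht2]
    have hneg : (σ ^ (2 * g)) (t β₁) = -(t β₁) := by
      let B : ℕ → N := fun j => (σ ^ j) (t β₁)
      let u : Fin (2 * g + 1) → (N ≃ₐ[K] N) := Fin.cons 1 fun j => σ ^ (j : ℕ) * t
      have hu0 : u 0 = 1 := rfl
      have hus : ∀ j : Fin (2 * g), u j.succ = σ ^ (j : ℕ) * t := fun j => rfl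
      have hus' : ∀ j : Fin (2 * g), u j.succ (ι θ) = (((c ^ (j : ℕ)) s₂ : p.rootSet N) : N) := by
        intro j
        rw [hus, hv, ← ht2]
        rfl
      have hne : ∀ j : Fin (2 * g), u j.succ (ι θ) ≠ u 0 (ι θ) := by
        intro j h0
        rw [hus', hu0] at h0
        have h1 : (c ^ (j : ℕ)) s₂ = i₁ := Subtype.ext h0
        have h2 : (c ^ (j : ℕ)) s₂ ∈ c.support := Equiv.Perm.pow_apply_mem_support.2 hsupp
        rw [h1, hσs] at h2
        exact (Finset.mem_erase.1 h2).1 rfl
      obtain ⟨r, hr⟩ := rat ι (I := Fin (2 * g + 1)) (by rw [Fintype.card_fin, hgen.rank]) θ α β₁ hβ hnorm u (by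
        intro i j hij
        simp only at hij
        induction i using Fin.cases with
        | zero =>
          induction j using Fin.cases with
          | zero => rfl
          | succ j => exact absurd hij.symm (hne j)
        | succ i =>
          induction j using Fin.cases with
          | zero => exact absurd hij (hne i)
          | succ j =>
            rw [hus', hus'] at hij
            have h1 := hinjOn (Finset.mem_coe.2 (Finset.mem_range.2 i.2)) (Finset.mem_coe.2 (Finset.mem_range.2 j.2))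
              (Subtype.ext hij)
            rw [Fin.ext h1])
      rw [Fin.prod_univ_succ, hu0] at hr
      have h1 : ∏ j : Fin (2 * g), u j.succ β₁ = ∏ j ∈ Finset.range (2 * g), B j := by
        rw [Finset.prod_range]
        rfl
      rw [h1] at hr
      have h2 := congrArg σ hr
      rw [AlgEquiv.commutes, ← hr, map_mul, map_prod] at h2
      have h3 : σ ((1 : N ≃ₐ[K] N) β₁) = - β₁ := by
        show σ β₁ = - β₁
        rw [hψ σ hσ1, hσψ]
        simp
      have h4 : ∀ j, σ (B j) = B (j + 1) := by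
        intro j
        show σ ((σ ^ j) (t β₁)) = (σ ^ (j + 1)) (t β₁)
        rw [pow_succ']
        rfl
      rw [h3, Finset.prod_congr rfl fun j _ => h4 j] at h2
      have h5 : (∏ j ∈ Finset.range (2 * g), B (j + 1)) * B 0 = (∏ j ∈ Finset.range (2 * g), B j) * B (2 * g) := by
        rw [← Finset.prod_range_succ', Finset.prod_range_succ]
      have hB : ∀ j, B j ≠ 0 := by
        intro j h0
        exact hβ0 ((map_eq_zero t).1 ((map_eq_zero (σ ^ j)).1 h0))
      have hQ : (∏ j ∈ Finset.range (2 * g), B j) ≠ 0 := Finset.prod_ne_zero_iff.2 fun j _ => hB j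
      have h6 : (∏ j ∈ Finset.range (2 * g), B (j + 1)) = - ∏ j ∈ Finset.range (2 * g), B j := by
        have h7 : β₁ * ∏ j ∈ Finset.range (2 * g), B (j + 1) = β₁ * - ∏ j ∈ Finset.range (2 * g), B j := by
          have h8 : (1 : N ≃ₐ[K] N) β₁ = β₁ := rfl
          rw [h8] at h2
          linear_combination (-1 : N) * h2
        exact mul_left_cancel₀ hβ0 h7
      rw [h6] at h5
      have h7 : (∏ j ∈ Finset.range (2 * g), B j) * B (2 * g) = (∏ j ∈ Finset.range (2 * g), B j) * -(B 0) := by
        rw [← h5]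
        ring
      have h8 := mul_left_cancel₀ hQ h7
      exact h8
    refine ⟨N, iF, iA, iFD, iG, σ, t β₁, ι, (t : N →ₐ[K] N).comp ι, κ,
      (hH σ).1 hσH, hσθ, hprod2, hfix, ?_, hneg⟩
    rw [← map_pow, hβ]
    rfl
  · exfalso
    apply hsq
    have h1 : β₁ ∈ IntermediateField.fixedField (ι.fieldRange).fixingSubgroup := by
      rw [IntermediateField.mem_fixedField_iff]
      intro a ha
      have h2 : a (ι θ) = ι θ := by
        rw [IntermediateField.mem_fixingSubgroup_iff] at ha
        exact ha _ ⟨θ, rfl⟩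
      have h3 : ρ a i₁ = i₁ := by
        apply Subtype.ext
        rw [hρ2]
        exact h2
      rw [hψ a h3, hall a h3]
      simp
    rw [IsGalois.fixedField_fixingSubgroup] at h1
    obtain ⟨b, hb⟩ := h1
    have hb' : ι b = β₁ := hb
    refine ⟨b, ?_⟩
    have h4 : ι α = ι (b * b) := by rw [← hβ, map_mul, hb', sq]
    exact ι.injective h4

end Pool.Agent.Helper28H.FE
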