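import Pool.Agent.Helper28H.FE.Stm2

/-!
# Project FE, third part: existence of the admissible twists and quadratic extensions
-/

set_option autoImplicit false
set_option linter.all false

open Polynomial IsDedekindDomain Matrix WithZero
open scoped Classical

namespace Pool.Agent.Helper28H.FE

open Pool.Agent.N352.PJ (Mt IsGen dsc Cg Crd res)
open Pool.Agent.N874.PP (Ov Ev Sq1 U0)

/-- Piece GALN (from `E_ODD`; the first half of `gal` in `FE/Gal.lean`): an element of the Galois group
which is trivial on `E` and permutes the roots of `f` cyclically. Proof: `exists_closure` (with `L = K`,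
`α = 1`), `exists_action`, `prod_rootSet` as in `FE/Gal.lean`; the image in `Perm (rootSet)` of the
subgroup fixing `E` is normal and contains an odd permutation by `E_ODD`, hence it is everything
(`H30T.sn`), so there is `σ` in it which acts as the cycle `finRotate (2 g + 1)`. -/
def F_GALN : Prop := ∀ (g : ℕ) (k K E : Type) [Field k] [Finite k] [Field K] [Algebra k[X] K]
  [IsFractionRing k[X] K] [Field E] [Algebra K E] [Algebra k[X] E] [IsScalarTower k[X] K E]
  [FiniteDimensional K E] [IsGalois K E] (f : k[X][X]) (P₀ : k[X]), Hyp K g f P₀ → UnrAt E P₀ →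
  ∃ (N : Type) (_ : Field N) (_ : Algebra K N) (_ : FiniteDimensional K N) (_ : IsGalois K N)
    (σ : N ≃ₐ[K] N) (x : N) (κ : E →ₐ[K] N), (∀ y : E, σ (κ y) = κ y) ∧
    f.map ((algebraMap K N).comp (algebraMap k[X] K)) =
      ∏ j ∈ Finset.range (2 * g + 1), (X - C ((σ ^ j) x)) ∧ (σ ^ (2 * g + 1)) x = x

/-- The prime: `f` is irreducible modulo `Q` and `Q` splits completely in `E`. -/
def F_PR : Prop := ∀ (g : ℕ) (k K E : Type) [Field k] [Finite k] [Field K] [Algebra k[X] K]
  [IsFractionRing k[X] K] [Field E] [Algebra K E] [Algebra k[X] E] [IsScalarTower k[X] K E]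
  [FiniteDimensional K E] [IsGalois K E] (f : k[X][X]) (P₀ : k[X]), Hyp K g f P₀ → UnrAt E P₀ →
  ∀ B : ℕ, ∃ Q : k[X], Q.Monic ∧ Irreducible Q ∧ B < Q.natDegree ∧ SplitsIn E Q ∧
    Irreducible (f.map (Ideal.Quotient.mk (Ideal.span {Q})))

/-- Piece DEL (the same proof as `E_RES`, simpler): take `N`, `σ` from `F_GALN` and `Q` of large degree,
`w` over `Q`, `a` prime to the order of `σ` from `E_FROB`. The order of `σ` is divisible by `2 g + 1` since the roots
are distinct, so `σ ^ a` also permutes the roots cyclically; `φ : O_N → O_N / w`; the elements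
`φ ((σ ^ a) ^ j x) = φ x ^ (|Q| ^ j)`, `j < 2 g + 1`, are distinct (`Q` does not divide the discriminant), they are the
roots of `f` modulo `Q`, and they are conjugate over `k[t] / Q`, so `f` is irreducible modulo `Q`. `Q` splits
completely in `E` as in `E_RES`. -/
def F_DEL : Prop := E_FROB → F_GALN → F_PR

/-- Piece QUAD (helper28): quadratic extensions are admissible. -/
def F_QUAD : Prop := ∀ (g : ℕ) (k K M : Type) [Field k] [Finite k] [Field K] [Algebra k[X] K]
  [IsFractionRing k[X] K] [Field M] [Algebra K M] [Algebra k[X] M] [IsScalarTower k[X] K M]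
  (R₁ : Type) [CommRing R₁] [IsDedekindDomain R₁] [Algebra R₁ K] [IsFractionRing R₁ K]
  (v₁ : HeightOneSpectrum R₁) (f : k[X][X]) (D δ : k[X]) (y : M), (2 : k) ≠ 0 →
  Module.finrank K M = 2 → y ^ 2 = algebraMap k[X] M δ → (∀ x : K, algebraMap K M x ≠ y) →
  (∀ P : k[X], Irreducible P → P ∣ δ → Irreducible (f.map (Ideal.Quotient.mk (Ideal.span {P})))) →
  (∀ P : k[X], Irreducible P → P ^ 2 ∣ dsc g f → ¬ P ∣ δ ∧ ∃ z : k[X], P ∣ δ - z ^ 2) →
  (∀ P : k[X], Irreducible P → P ∣ D → ¬ P ∣ δ ∧ ∃ z : k[X], P ∣ δ - z ^ 2) →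
  IsSquare (algebraMap K (v₁.adicCompletion K) (algebraMap k[X] K δ)) → AdmM g K M v₁ f D

end Pool.Agent.Helper28H.FE
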