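import Pool.Agent.Helper28H.FE.Gal
import Pool.Agent.Helper28H.FE.Stm3

/-!
# Project FE, piece GALN: an element of the Galois group over `E` which permutes the roots cyclically

By helper85, after `FE/Gal.lean`.
-/

set_option autoImplicit false
set_option linter.all false

open Polynomial IsDedekindDomain Matrix
open scoped Classical

namespace Pool.Agent.Helper28H.FE

open Pool.Agent.N352.PJ (Mt IsGen dsc Cg Crd res)

theorem Galn.sepK {g : ℕ} {k K : Type} [Field k] [Field K] [Algebra k[X] K]
    [IsFractionRing k[X] K]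
    {f : k[X][X]} (hm : f.Monic) (hd : f.natDegree = 2 * g + 1) (h0 : dsc g f ≠ 0) :
    (f.map (algebraMap k[X] K)).Separable := by
  set F := f.map (algebraMap k[X] K) with hF
  have hdeg : F.natDegree = 2 * g + 1 := by rw [hF, hm.natDegree_map, hd]
  have h1 : F.resultant (derivative F) (2 * g + 1) (2 * g) ≠ 0 := by
    rw [hF, derivative_map, resultant_map_map]
    intro h
    rw [IsFractionRing.to_map_eq_zero_iff (R := k[X])] at h
    exact h0 h
  have h2 : F.resultant (derivative F) ≠ 0 := by
    intro h3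
    apply h1
    have hle : (derivative F).natDegree ≤ 2 * g := by
      have := natDegree_derivative_le F
      omega
    obtain ⟨j, hj⟩ := Nat.exists_eq_add_of_le hle
    have h5 := resultant_add_right_deg F (derivative F) (2 * g + 1) (derivative F).natDegree j
      le_rfl
    rw [← hj, ← hdeg, h3, mul_zero] at h5
    rw [← hdeg, h5]
  have h3 := mt resultant_eq_zero_iff.2 h2
  rw [not_and, not_not] at h3
  exact h3 (Or.inl (hm.map _).ne_zero)

open Gal in
theorem galn (hO : E_ODD) : F_GALN := by
  intro g k K E _ _ _ _ _ _ _ _ _ _ _ f P₀ hyp hunr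
  have hS := Pool.Agent.H30T.sn
  have hd0 : dsc g f ≠ 0 := by
    intro h0
    exact hyp.ndvd (by rw [h0]; exact dvd_zero _)
  have h1g := hyp.one
  have h2K : (2 : K) ≠ 0 := by
    have h1 : (2 : k[X]) ≠ 0 := by
      intro h
      apply hyp.two
      apply C_injective (R := k)
      rw [map_ofNat, h, map_zero]
    intro h
    apply h1
    apply IsFractionRing.injective k[X] K
    rw [map_ofNat, h, map_zero]
  set p : K[X] := f.map (algebraMap k[X] K) with hp
  have hmon : p.Monic := hyp.mon.map _
  have hsep : p.Separable := Galn.sepK hyp.mon hyp.deg hd0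
  have hdeg : p.natDegree = 2 * g + 1 := by
    rw [hp, hyp.mon.natDegree_map, hyp.deg]
  obtain ⟨N, iF, iA, iFD, iG, ι, κ, β₁, hβ, hsp⟩ := exists_closure h2K K E 1 p hsep
  obtain ⟨ρ, hρ, hρ2⟩ := exists_action (N := N) p hsep hsp (by rw [hdeg]; exact hyp.gal)
  obtain ⟨hcard, hprod⟩ := prod_rootSet (N := N) p hmon hsep hsp
  rw [hdeg] at hcard
  have hfN : f.map ((algebraMap K N).comp (algebraMap k[X] K)) =
      ∏ s : p.rootSet N, (X - C (s : N)) := by
    rw [← hprod, hp, Polynomial.map_map]
  -- the subgroup fixing the field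
  let H : Subgroup (N ≃ₐ[K] N) :=
    { carrier := {a | ∀ y : E, a (κ y) = κ y}
      mul_mem' := by
        intro a b ha hb y
        show a (b (κ y)) = κ y
        rw [hb y, ha y]
      one_mem' := fun y => rfl
      inv_mem' := by
        intro a ha y
        show a.symm (κ y) = κ y
        rw [AlgEquiv.symm_apply_eq]
        exact (ha y).symm }
  have hH : ∀ a, a ∈ H ↔ ∀ y : E, a (κ y) = κ y := fun a => Iff.rfl
  have hHn : H.Normal := by
    refine ⟨fun a ha b => ?_⟩
    rw [hH]
    intro y
    obtain ⟨z, hz⟩ := range_normal κ b⁻¹ y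
    show b (a (b⁻¹ (κ y))) = κ y
    rw [← hz, (hH a).1 ha, hz]
    exact AlgEquiv.apply_symm_apply b _
  have hodd : ∃ a ∈ H, Equiv.Perm.sign (ρ a) = -1 := by
    let e : p.rootSet N ≃ Fin (2 * g + 1) := Fintype.equivFinOfCardEq hcard
    letI iAkN : Algebra k[X] N := ((algebraMap K N).comp (algebraMap k[X] K)).toAlgebra
    haveI iST : IsScalarTower k[X] K N := IsScalarTower.of_algebraMap_eq fun _ => rfl
    obtain ⟨σ, π, h1, h2, h3⟩ := hO g k K E N f P₀ (fun i => ((e.symm i : p.rootSet N) : N)) (by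
      show f.map ((algebraMap K N).comp (algebraMap k[X] K)) = _
      rw [hfN]
      exact (Equiv.prod_comp e.symm fun s : p.rootSet N => (X - C (s : N))).symm) (by
      intro i j hij
      exact e.symm.injective (Subtype.ext hij)) hyp.prime hyp.dvd hyp.ndvd hunr κ
    refine ⟨σ, (hH σ).2 h1, ?_⟩
    have h4 : ρ σ = e.symm.permCongr π := by
      ext s
      rw [hρ2]
      have h5 := h2 (e s)
      simp only [Equiv.symm_apply_apply] at h5
      rw [h5]
      simp [Equiv.permCongr_apply]
    rw [h4, Equiv.Perm.sign_permCongr, h3]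
  have hsurj : ∀ π : Equiv.Perm (p.rootSet N), ∃ a ∈ H, ρ a = π := by
    have h1 : H.map ρ = ⊤ := by
      refine hS (p.rootSet N) g (H.map ρ) h1g hcard (hHn.map ρ hρ) ?_
      obtain ⟨a, ha, ha'⟩ := hodd
      exact ⟨ρ a, ⟨a, ha, rfl⟩, ha'⟩
    intro π
    have h2 : π ∈ H.map ρ := by
      rw [h1]
      exact Subgroup.mem_top _
    exact h2
  -- the cycle
  let e : p.rootSet N ≃ Fin (2 * g + 1) := Fintype.equivFinOfCardEq hcard
  obtain ⟨σ, hσH, hσ⟩ := hsurj (e.symm.permCongr (finRotate (2 * g + 1)))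
  have hσe : ∀ i : Fin (2 * g + 1), σ ((e.symm i : p.rootSet N) : N) =
      ((e.symm (finRotate (2 * g + 1) i) : p.rootSet N) : N) := by
    intro i
    have h1 := hρ2 σ (e.symm i)
    rw [← h1, hσ]
    simp [Equiv.permCongr_apply]
  have hpow : ∀ j : ℕ, (σ ^ j) ((e.symm 0 : p.rootSet N) : N) =
      ((e.symm ((finRotate (2 * g + 1) ^ j) 0) : p.rootSet N) : N) := by
    intro j
    induction j with
    | zero => simp
    | succ j ih =>
      rw [pow_succ', AlgEquiv.mul_apply, ih, hσe, pow_succ', Equiv.Perm.mul_apply]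
  have hrot : ∀ j : ℕ, j < 2 * g + 1 → (((finRotate (2 * g + 1) ^ j) 0 : Fin (2 * g + 1)) : ℕ) = j := by
    intro j
    induction j with
    | zero => intro _; simp
    | succ j ih =>
      intro hj
      rw [pow_succ', Equiv.Perm.mul_apply]
      rw [coe_finRotate_of_ne_last, ih (by omega)]
      intro h
      have h2 := ih (by omega)
      rw [h] at h2
      simp only [Fin.val_last] at h2
      omega
  have hrot' : (finRotate (2 * g + 1) ^ (2 * g + 1)) 0 = 0 := by
    rw [pow_succ', Equiv.Perm.mul_apply]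
    have h1 : (finRotate (2 * g + 1) ^ (2 * g)) 0 = Fin.last (2 * g) := by
      apply Fin.ext
      rw [hrot _ (by omega), Fin.val_last]
    rw [h1, finRotate_last]
  refine ⟨N, iF, iA, iFD, iG, σ, ((e.symm 0 : p.rootSet N) : N), κ, (hH σ).1 hσH, ?_, ?_⟩
  · rw [hfN, Finset.prod_range]
    rw [← Equiv.prod_comp e.symm fun s : p.rootSet N => (X - C (s : N))]
    refine Finset.prod_congr rfl fun i _ => ?_
    rw [hpow]
    have h1 : (finRotate (2 * g + 1) ^ (i : ℕ)) 0 = i := Fin.ext (hrot i i.isLt)
    rw [h1]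
  · rw [hpow, hrot']

end Pool.Agent.Helper28H.FE
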