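import Pool.Agent.Helper28H.FE.Gl3
import Pool.Agent.N655.PJ.Gl

/-!
# Piece GL: the global Lagrangian
-/

set_option autoImplicit false
set_option linter.all false

open Polynomial IsDedekindDomain Matrix WithZero
open scoped Classical

namespace Pool.Agent.Helper28H.FE

open Pool.Agent.N352.PJ (Mt IsGen dsc Cg Crd res wtn)
open Pool.Agent.N874.PP (Ov Ev Sq1 U0)
open Pool.Agent.N655.PJ (inj algL)

namespace Gl

section loc

variable {k K L O : Type} [Field k] [Field K] [Algebra k[X] K] [IsFractionRing k[X] K]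
  [Field L] [Algebra K L] [Algebra k[X] L] [IsScalarTower k[X] K L] [CommRing O]
  [IsDedekindDomain O] [Algebra O L] [IsFractionRing O L] [Algebra k[X] O]
  [IsScalarTower k[X] O L] [IsIntegralClosure O k[X] L] {g : ℕ} {f : k[X][X]} {θ : L}

omit [IsIntegralClosure O k[X] L] in
theorem not_ov {Q : k[X]} {𝔓 : HeightOneSpectrum O} (h : ¬ Ov Q 𝔓) :
    𝔓.valuation L (algebraMap k[X] L Q) = 1 := by
  refine le_antisymm (Pool.Agent.N655.PJ.val_le_one 𝔓 Q) ?_
  by_contra hcon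
  apply h
  have h1 := not_le.1 hcon
  rw [IsScalarTower.algebraMap_apply k[X] O L] at h1
  exact (𝔓.valuation_lt_one_iff_mem _).1 h1

theorem int_gen (hG : IsGen g K f θ) : IsIntegral k[X] θ := ⟨f, hG.mon, hG.root⟩

theorem int_crd (hG : IsGen g K f θ) {v : Fin (2 * g + 1) → k[X]} {x : L} (h : Crd g θ v x) :
    IsIntegral k[X] x := by
  rw [Crd] at h
  rw [h]
  exact IsIntegral.sum _ fun i _ => isIntegral_algebraMap.mul ((int_gen hG).pow _)

omit [IsIntegralClosure O k[X] L] in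
theorem val_int [IsIntegralClosure O k[X] L] {x : L} (h : IsIntegral k[X] x)
    (𝔓 : HeightOneSpectrum O) : 𝔓.valuation L x ≤ 1 := by
  obtain ⟨y, rfl⟩ := (IsIntegralClosure.isIntegral_iff (A := O)).1 h
  exact 𝔓.valuation_le_one y

/-- The coefficient `top` of an element which is integral over `Q`. -/
theorem loc_top (h0 : A_INT) (hG : IsGen g K f θ) {Q : k[X]} (hQ : Irreducible Q)
    (hgd : Gd g f Q) {v : HeightOneSpectrum k[X]} (hv : v.asIdeal = Ideal.span {Q}) {z : L}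
    (hz : ∀ 𝔓 : HeightOneSpectrum O, Ov Q 𝔓 → 𝔓.valuation L z ≤ 1) :
    v.valuation K (hG.top z) ≤ 1 := by
  obtain ⟨c, hc0, hc⟩ := Pool.Agent.N655.PJ.exists_den hG (fun _ : Unit => z)
  obtain ⟨u, hu⟩ := hc ()
  have hfin : FiniteMultiplicity Q c := FiniteMultiplicity.of_not_isUnit hQ.not_isUnit hc0
  obtain ⟨c', hc', hcc⟩ := hfin.exists_eq_pow_mul_and_not_dvd
  have h2 : IsIntegral k[X] (algebraMap k[X] L c' * z) := by
    refine Pool.Agent.N655.PJ.isInt_of_val (O := O) fun 𝔓 => ?_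
    by_cases hov : Ov Q 𝔓
    · rw [map_mul]
      exact mul_le_one' (Pool.Agent.N655.PJ.val_le_one 𝔓 c') (hz 𝔓 hov)
    · have h3 := val_int (O := O) (int_crd hG hu) 𝔓
      rw [hc', map_mul (algebraMap k[X] L), map_pow (algebraMap k[X] L), mul_assoc,
        map_mul (𝔓.valuation L), map_pow (𝔓.valuation L), not_ov hov, one_pow, one_mul] at h3
      exact h3
  obtain ⟨s, u', hs, hu'⟩ := h0 g k K L f θ hG Q hQ hgd _ h2
  have h4 := Pool.Agent.N655.PJ.top_crd hG hu'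
  rw [Pool.Agent.N655.PJ.top_mul, Pool.Agent.N655.PJ.top_mul] at h4
  have hmem : ∀ p : k[X], ¬ Q ∣ p → v.valuation K (algebraMap k[X] K p) = 1 := by
    intro p hp
    refine v_one ?_
    rw [hv, Ideal.mem_span_singleton]
    exact hp
  have h5 := congrArg (v.valuation K) h4
  rw [map_mul, map_mul, hmem s hs, hmem c' hcc, one_mul, one_mul] at h5
  rw [h5]
  exact v.valuation_le_one _

/-- The extension of valuations. -/
theorem val_K {Q : k[X]} (hQ : Irreducible Q) {v : HeightOneSpectrum k[X]}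
    (hv : v.asIdeal = Ideal.span {Q}) {𝔓 : HeightOneSpectrum O} (hov : Ov Q 𝔓) {c : K}
    (hc : v.valuation K c ≤ 1) : 𝔓.valuation L (algebraMap K L c) ≤ 1 := by
  by_cases hc0 : c = 0
  · rw [hc0, map_zero, map_zero]
    exact zero_le
  obtain ⟨p, s, hs, rfl⟩ := IsFractionRing.div_surjective (A := k[X]) c
  have hs0 : s ≠ 0 := nonZeroDivisors.ne_zero hs
  have hp0 : p ≠ 0 := by
    rintro rfl
    apply hc0
    simp
  have hfs : FiniteMultiplicity Q s := FiniteMultiplicity.of_not_isUnit hQ.not_isUnit hs0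
  have hfp : FiniteMultiplicity Q p := FiniteMultiplicity.of_not_isUnit hQ.not_isUnit hp0
  obtain ⟨s', hs', hss⟩ := hfs.exists_eq_pow_mul_and_not_dvd
  obtain ⟨p', hp', hpp⟩ := hfp.exists_eq_pow_mul_and_not_dvd
  have hmem : ∀ p : k[X], ¬ Q ∣ p → v.valuation K (algebraMap k[X] K p) = 1 := by
    intro p hp
    refine v_one ?_
    rw [hv, Ideal.mem_span_singleton]
    exact hp
  have hmemL : ∀ p : k[X], ¬ Q ∣ p → 𝔓.valuation L (algebraMap k[X] L p) = 1 := by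
    intro p hp
    refine not_ov fun hovp => ?_
    have hco : IsCoprime Q p := (hQ.coprime_iff_not_dvd).2 hp
    obtain ⟨a, b, hab⟩ := hco
    apply 𝔓.isPrime.ne_top
    rw [Ideal.eq_top_iff_one]
    have h1 := congrArg (algebraMap k[X] O) hab
    rw [map_add, map_mul, map_mul, map_one] at h1
    rw [← h1]
    exact Ideal.add_mem _ (Ideal.mul_mem_left _ _ hov) (Ideal.mul_mem_left _ _ hovp)
  obtain ⟨m, hm⟩ : ∃ m, m = multiplicity Q s := ⟨_, rfl⟩
  obtain ⟨n, hn⟩ : ∃ n, n = multiplicity Q p := ⟨_, rfl⟩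
  rw [← hm] at hs'
  rw [← hn] at hp'
  have hmn : m ≤ n := by
    rw [map_div₀, hs', hp', map_mul, map_mul, map_mul, map_mul, hmem s' hss, hmem p' hpp, mul_one,
      mul_one, map_pow, map_pow, map_pow, map_pow, v_self hQ hv, ← WithZero.exp_nsmul,
      ← WithZero.exp_nsmul, ← exp_sub, ← exp_zero, exp_le_exp] at hc
    simp only [nsmul_eq_mul] at hc
    have h2 : (m : ℤ) ≤ n := by linarith
    exact_mod_cast h2
  obtain ⟨j, rfl⟩ := Nat.exists_eq_add_of_le hmn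
  have hQ0 : algebraMap k[X] L Q ≠ 0 := by
    intro h
    rw [algL (K := K)] at h
    exact hQ.ne_zero (inj (K := K) (((algebraMap K L).injective
      (h.trans (map_zero _).symm)).trans (map_zero _).symm))
  have e1 : algebraMap K L (algebraMap k[X] K p / algebraMap k[X] K s) =
      algebraMap k[X] L (Q ^ j) * (algebraMap k[X] L p' / algebraMap k[X] L s') := by
    rw [map_div₀, ← algL, ← algL, hs', hp']
    simp only [map_mul, map_pow, pow_add]
    have := pow_ne_zero m hQ0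
    field_simp
  rw [e1, map_mul, map_div₀, hmemL s' hss, hmemL p' hpp, div_one, mul_one]
  exact Pool.Agent.N655.PJ.val_le_one 𝔓 _

theorem cn_sum {Q : k[X]} {𝔮 : HeightOneSpectrum O} {α : L} {ι : Type} [Fintype ι]
    {c e : ι → L} (hc : ∀ i, ∀ 𝔓 : HeightOneSpectrum O, Ov Q 𝔓 → 𝔓.valuation L (c i) ≤ 1)
    (he : ∀ i, Cn Q 𝔮 α (e i)) : Cn Q 𝔮 α (∑ i, c i * e i) := by
  intro 𝔓 hov
  rcases isEmpty_or_nonempty ι with h | h
  · rw [Finset.univ_eq_empty, Finset.sum_empty, map_zero, zero_pow (by norm_num)]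
    exact zero_le
  · obtain ⟨i₀, -, hi₀⟩ := Finset.exists_max_image Finset.univ (fun i => 𝔓.valuation L (e i))
      Finset.univ_nonempty
    have h1 : 𝔓.valuation L (∑ i, c i * e i) ≤ 𝔓.valuation L (e i₀) := by
      refine Valuation.map_sum_le _ fun i _ => ?_
      rw [map_mul]
      calc _ ≤ 1 * 𝔓.valuation L (e i₀) := mul_le_mul' (hc i 𝔓 hov) (hi₀ i (Finset.mem_univ i))
        _ = _ := one_mul _
    exact (pow_le_pow_left' h1 2).trans (he i₀ 𝔓 hov)

end loc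

end Gl

open Gl

theorem gl (hI : A_INT) (hCS : A_CSQ) (hSD : B_SDG) (hGL : B_GLUE) : B_GL := by
  intro g k K L O _ _ _ _ _ _ _ _ _ _ _ _ _ _ _ _ f θ S₁ h R₁ _ _ _ _ v₁ hg hG hS hC hv₁ 𝔮 h𝔮
    α hα hsq hne hodd hsd hsd₁
  have hmi : ∀ Q ∈ S₁, Q.Monic ∧ Irreducible Q := fun Q hQ => ⟨(hS Q hQ).1, (hS Q hQ).2.1⟩
  obtain ⟨B, hB0, hloc⟩ := glob (O := O) hSD hGL hg hG hS hC h𝔮 hα hsq hodd hsd
  have hgd : ∀ Q ∈ S₁, Gd g f Q := fun Q hQ hd =>
    (hCS g k K L O f θ S₁ h hg hG hS Q hQ (hC Q hQ)).2.1 ((Dvd.intro _ (pow_two Q).symm).trans hd)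
  obtain ⟨P, hP⟩ : ∃ P : k[X], P = ∏ Q ∈ S₁, Q := ⟨_, rfl⟩
  rw [← hP] at hloc ⊢
  have hPm : P.Monic := by
    rw [hP]
    exact Polynomial.monic_prod_of_monic _ _ fun Q hQ => (hmi Q hQ).1
  have hP1 : 1 ≤ P.natDegree := by
    obtain ⟨Q, hQ⟩ := hne
    have h9 : Q.natDegree ≤ P.natDegree := by
      refine Polynomial.natDegree_le_of_dvd ?_ hPm.ne_zero
      rw [hP]
      exact Finset.dvd_prod_of_mem _ hQ
    have h10 : 0 < Q.natDegree := (hmi Q hQ).2.natDegree_pos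
    omega
  have hex : ∀ Q : k[X], Irreducible Q → ∃ v : HeightOneSpectrum k[X],
      v.asIdeal = Ideal.span {Q} := fun Q hQ =>
    ⟨⟨Ideal.span {Q}, (Ideal.span_singleton_prime hQ.ne_zero).2 hQ.prime,
      fun h => hQ.ne_zero (Ideal.span_singleton_eq_bot.1 h)⟩, rfl⟩
  obtain ⟨v₀, -⟩ : ∃ v : HeightOneSpectrum k[X], True := by
    obtain ⟨Q, hQ⟩ := hne
    obtain ⟨v, -⟩ := hex Q (hmi Q hQ).2
    exact ⟨v, trivial⟩
  obtain ⟨G, hGm, hG0, hGd⟩ := pG hG α P hPm.ne_zero (cmb B (pw g θ)) (fun v => by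
    obtain ⟨e, M, h1, h2, h3, h4, h5, -⟩ := hloc v
    exact ⟨e, M, h1, h2, h3, h4, h5⟩) v₀
  obtain ⟨U, w, hU, hw, hbd⟩ := reduc hv₁ hG hα hPm hB0 hGm hG0 hGd hsd₁
  obtain ⟨G', hG'⟩ : ∃ G' : Mt g k[X], G' = U * G * Uᵀ := ⟨_, rfl⟩
  rw [← hG'] at hbd
  have hG'0 : G'.det ≠ 0 := by
    rw [hG', Matrix.det_mul, Matrix.det_mul, Matrix.det_transpose]
    exact mul_ne_zero (mul_ne_zero hU.ne_zero hG0) hU.ne_zero
  obtain ⟨ξ, hres, hind⟩ := Pool.Agent.N738.PJ.lat (2 * g + 1) k G' P w (g * P.natDegree) hPm hP1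
    hG'0 hbd (by rw [hw, neg_neg])
  obtain ⟨b', hb'⟩ : ∃ b' : Fin (2 * g + 1) → L,
    b' = cmb (U.map (algebraMap k[X] K)) (cmb B (pw g θ)) := ⟨_, rfl⟩
  have hG'e : ∀ i j, algebraMap k[X] K (G' i j) =
      hG.top (algebraMap k[X] L P * (b' i * b' j) / α) := by
    have e1 : G'.map (algebraMap k[X] K) = algebraMap k[X] K P • Gr hG α b' := by
      rw [hG', hb', Gr_cmb, Matrix.map_mul, Matrix.map_mul, hGm, Matrix.transpose_map]
      simp only [Matrix.mul_smul, Matrix.smul_mul]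
    intro i j
    have := congrFun (congrFun e1 i) j
    rw [Matrix.map_apply, Matrix.smul_apply, smul_eq_mul] at this
    rw [this, mul_div_assoc, Pool.Agent.N655.PJ.top_mul]
    rfl
  -- the condition at the primes over `Q`
  have hcnb : ∀ Q ∈ S₁, ∀ i, Cn Q (𝔮 Q) α (b' i) := by
    intro Q hQ i
    obtain ⟨v, hv⟩ := hex Q (hmi Q hQ).2
    obtain ⟨e, M, h1, h2, -, -, -, h3⟩ := hloc v
    have e1 : b' i = ∑ j, algebraMap K L ((U.map (algebraMap k[X] K) * M) i j) * e j := by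
      rw [hb', h1, cmb_cmb]
      rfl
    rw [e1]
    refine cn_sum (fun j 𝔓 hov => val_K (hmi Q hQ).2 hv hov ?_) fun j => h3 Q hQ hv j
    refine mul_le1 _ (c := fun _ => 1) (fun i j => ?_) h2 i j
    rw [Matrix.map_apply]
    exact v.valuation_le_one _
  have hcnx : ∀ Q ∈ S₁, ∀ η : Fin (2 * g + 1) → k[X],
      Cn Q (𝔮 Q) α (∑ i, algebraMap k[X] L (η i) * b' i) := fun Q hQ η =>
    cn_sum (fun j 𝔓 _ => Pool.Agent.N655.PJ.val_le_one 𝔓 _) (hcnb Q hQ)
  refine ⟨fun a => ∑ i, algebraMap k[X] L (ξ a i) * b' i, fun a Q hQ => hcnx Q hQ (ξ a),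
    fun a b => ?_, fun c hc => ?_⟩
  · refine ⟨ξ a ⬝ᵥ (G' *ᵥ ξ b), ?_, hres a b⟩
    exact Pool.Agent.N655.PJ.gram_change hG P α b' G' hG'e (ξ a) (ξ b)
  · refine hind c fun i => ?_
    obtain ⟨η, hη⟩ : ∃ η : Fin (2 * g + 1) → k[X], η = ∑ a, C (c a) • ξ a := ⟨_, rfl⟩
    rw [← hη]
    obtain ⟨x, hx⟩ : ∃ x : L, x = ∑ a, algebraMap k[X] L (C (c a)) *
      ∑ i, algebraMap k[X] L (ξ a i) * b' i := ⟨_, rfl⟩
    have hxη : x = ∑ i, algebraMap k[X] L (η i) * b' i := by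
      rw [hx, hη]
      simp only [Finset.mul_sum, Finset.sum_apply, Pi.smul_apply, smul_eq_mul, map_sum, map_mul,
        Finset.sum_mul]
      rw [Finset.sum_comm]
      refine Finset.sum_congr rfl fun j _ => Finset.sum_congr rfl fun i _ => ?_
      ring
    have hc' : ∀ Q ∈ S₁, (𝔮 Q).valuation L x ^ 2 ≤ (𝔮 Q).valuation L α * exp (-1 : ℤ) := by
      intro Q hQ
      rw [hx]
      exact hc Q hQ
    have hy : algebraMap k[X] K ((G' *ᵥ η) i) =
        algebraMap k[X] K P * hG.top (b' i * x / α) := by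
      rw [← Pool.Agent.N655.PJ.gram_left hG P α b' G' hG'e i η, ← hxη, mul_div_assoc,
        Pool.Agent.N655.PJ.top_mul]
    have hdiv : ∀ Q ∈ S₁, Q ∣ (G' *ᵥ η) i := by
      intro Q hQ
      obtain ⟨v, hv⟩ := hex Q (hmi Q hQ).2
      have h1 : v.valuation K (hG.top (b' i * x / α)) ≤ 1 := by
        refine loc_top (O := O) hI hG (hmi Q hQ).2 (hgd Q hQ) hv fun 𝔓 hov => ?_
        have hα0 : 𝔓.valuation L α ≠ 0 := (Valuation.ne_zero_iff _).2 hα
        rw [map_div₀, map_mul, div_le_one₀ (zero_lt_iff.2 hα0)]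
        refine le_of_pow_le_pow_left₀ (n := 2) (by norm_num) zero_le ?_
        have t1 := hcnb Q hQ i 𝔓 hov
        by_cases hq : 𝔓 = 𝔮 Q
        · rw [if_pos hq] at t1
          have t2 := hc' Q hQ
          rw [← hq] at t2
          calc (𝔓.valuation L (b' i) * 𝔓.valuation L x) ^ 2
              = 𝔓.valuation L (b' i) ^ 2 * 𝔓.valuation L x ^ 2 := mul_pow _ _ _
            _ ≤ (𝔓.valuation L α * exp (1 : ℤ)) * (𝔓.valuation L α * exp (-1 : ℤ)) :=
                mul_le_mul' t1 t2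
            _ = 𝔓.valuation L α ^ 2 * (exp (1 : ℤ) * exp (-1 : ℤ)) :=
                Pool.Agent.N655.PJ.m4 _ _ _
            _ = _ := by rw [← exp_add]; norm_num
        · rw [if_neg hq, mul_one] at t1
          have t2 := hcnx Q hQ η 𝔓 hov
          rw [← hxη, if_neg hq, mul_one] at t2
          calc (𝔓.valuation L (b' i) * 𝔓.valuation L x) ^ 2
              = 𝔓.valuation L (b' i) ^ 2 * 𝔓.valuation L x ^ 2 := mul_pow _ _ _
            _ ≤ 𝔓.valuation L α * 𝔓.valuation L α := mul_le_mul' t1 t2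
            _ = _ := (pow_two _).symm
      have h2 : v.valuation K (algebraMap k[X] K ((G' *ᵥ η) i)) < 1 := by
        rw [hy, map_mul, hP, v_prod S₁ hmi v, if_pos ⟨Q, hQ, hv⟩]
        calc _ ≤ exp (-1 : ℤ) * 1 := mul_le_mul' le_rfl h1
          _ = exp (-1 : ℤ) := mul_one _
          _ < 1 := by rw [← exp_zero, exp_lt_exp]; norm_num
      have h3 := (v.valuation_lt_one_iff_mem _).1 h2
      rwa [hv, Ideal.mem_span_singleton] at h3
    rw [hP]
    refine Finset.prod_dvd_of_coprime ?_ hdiv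
    intro Q hQ Q' hQ' hne
    refine ((hmi Q hQ).2.coprime_iff_not_dvd).2 fun hd => hne ?_
    exact eq_of_monic_of_associated (hmi Q hQ).1 (hmi Q' hQ').1
      ((hmi Q hQ).2.associated_of_dvd (hmi Q' hQ').2 hd)

end Pool.Agent.Helper28H.FE
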