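import Pool.Agent.Helper28H.FE.Stm
import Pool.Agent.N655.PJ.Gl1
import Pool.Agent.N50.PJ.Red
import Pool.Agent.N738.PJ.Lat
import Pool.Agent.N262.PJ.Chi

/-!
# Piece GL: matrices, valuations
-/

set_option autoImplicit false
set_option linter.all false

open Polynomial IsDedekindDomain Matrix WithZero
open scoped Classical

namespace Pool.Agent.Helper28H.FE.Gl

open Pool.Agent.N352.PJ (Mt IsGen dsc Cg Crd res)
open Pool.Agent.N874.PP (Ov Ev Sq1 U0)

section mat

variable {F Γ : Type} [Field F] [LinearOrderedCommGroupWithZero Γ] (v : Valuation F Γ)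
  {n : ℕ}

theorem mul_le1 {M N : Matrix (Fin n) (Fin n) F} {c : Fin n → Γ} (hM : ∀ i j, v (M i j) ≤ c i)
    (hN : ∀ i j, v (N i j) ≤ 1) (i j : Fin n) : v ((M * N) i j) ≤ c i := by
  rw [Matrix.mul_apply]
  refine v.map_sum_le fun l _ => ?_
  rw [map_mul]
  calc _ ≤ c i * 1 := mul_le_mul' (hM i l) (hN l j)
    _ = _ := mul_one _

theorem mul_le2 {M N : Matrix (Fin n) (Fin n) F} {c d : Fin n → Γ} (hM : ∀ i j, v (M i j) ≤ c i)
    (hN : ∀ i j, v (N i j) ≤ d j) (i j : Fin n) : v ((M * N) i j) ≤ c i * d j := by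
  rw [Matrix.mul_apply]
  refine v.map_sum_le fun l _ => ?_
  rw [map_mul]
  exact mul_le_mul' (hM i l) (hN l j)

end mat

section gram

variable {k K L : Type} [Field k] [Field K] [Algebra k[X] K] [IsFractionRing k[X] K]
  [Field L] [Algebra K L] [Algebra k[X] L] [IsScalarTower k[X] K L] {g : ℕ} {f : k[X][X]} {θ : L}
  (hG : IsGen g K f θ)

/-- The Gram matrix. -/
noncomputable def Gr (α : L) (e : Fin (2 * g + 1) → L) : Mt g K :=
  Matrix.of fun i j => hG.top (e i * e j / α)

/-- The vectors with the coordinates given by the rows of `M` with respect to `e`. -/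
noncomputable def cmb (M : Mt g K) (e : Fin (2 * g + 1) → L) : Fin (2 * g + 1) → L :=
  fun i => ∑ j, algebraMap K L (M i j) * e j

theorem cmb_cmb (M N : Mt g K) (e : Fin (2 * g + 1) → L) : cmb M (cmb N e) = cmb (M * N) e := by
  funext i
  unfold cmb
  simp only [Matrix.mul_apply, map_sum, map_mul, Finset.mul_sum, Finset.sum_mul]
  rw [Finset.sum_comm]
  refine Finset.sum_congr rfl fun j _ => Finset.sum_congr rfl fun l _ => ?_
  ring

theorem cmb_one (e : Fin (2 * g + 1) → L) : cmb (1 : Mt g K) e = e := by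
  funext i
  unfold cmb
  rw [Finset.sum_eq_single i]
  · rw [Matrix.one_apply_eq, map_one, one_mul]
  · intro j _ hj
    rw [Matrix.one_apply_ne hj.symm, map_zero, zero_mul]
  · intro h
    exact absurd (Finset.mem_univ i) h

theorem Gr_cmb (α : L) (M : Mt g K) (e : Fin (2 * g + 1) → L) :
    Gr hG α (cmb M e) = M * Gr hG α e * Mᵀ := by
  refine Matrix.ext fun i j => ?_
  unfold Gr cmb
  rw [Matrix.of_apply, Matrix.mul_apply]
  simp only [Matrix.mul_apply, Matrix.of_apply, Matrix.transpose_apply]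
  have e1 : (∑ j, algebraMap K L (M i j) * e j) * (∑ l, algebraMap K L (M j l) * e l) / α =
      ∑ l, ∑ m, (M i m * M j l) • (e m * e l / α) := by
    rw [Finset.sum_mul_sum, Finset.sum_comm, Finset.sum_div]
    refine Finset.sum_congr rfl fun l _ => ?_
    rw [Finset.sum_div]
    refine Finset.sum_congr rfl fun m _ => ?_
    rw [Algebra.smul_def, map_mul]
    ring
  rw [e1, map_sum]
  refine Finset.sum_congr rfl fun l _ => ?_
  rw [map_sum, Finset.sum_mul]
  refine Finset.sum_congr rfl fun m _ => ?_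
  rw [map_smul, smul_eq_mul]
  ring

/-- The powers of `θ`. -/
noncomputable def pw (g : ℕ) (θ : L) : Fin (2 * g + 1) → L := fun i => θ ^ (i : ℕ)

theorem ex_co (hG : IsGen g K f θ) (e : Fin (2 * g + 1) → L) : ∃ A : Mt g K,
    e = cmb A (pw g θ) := by
  choose A hA using fun i => hG.gen (e i)
  exact ⟨Matrix.of A, funext hA⟩

theorem det_Gr (α : L) (hα : α ≠ 0) (A : Mt g K) :
    (Gr hG α (cmb A (pw g θ))).det = (-1) ^ g * A.det ^ 2 / Algebra.norm K α :=
  Pool.Agent.N262.PJ.det g k K L f θ hG α A hα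

theorem cmb_inv {A B : Mt g K} (hA : A.det ≠ 0) (e : Fin (2 * g + 1) → L) :
    cmb B e = cmb (B * A⁻¹) (cmb A e) := by
  rw [cmb_cmb, Matrix.mul_assoc, Matrix.nonsing_inv_mul _ (isUnit_iff_ne_zero.2 hA),
    Matrix.mul_one]

end gram

section vals

variable {R K : Type} [CommRing R] [IsDedekindDomain R] [Field K] [Algebra R K]
  [IsFractionRing R K]

theorem fin_gt (x : K) : {v : HeightOneSpectrum R | ¬ v.valuation K x ≤ 1}.Finite := by
  refine (HeightOneSpectrum.Support.finite R x).subset fun v hv => ?_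
  exact not_le.1 hv

theorem fin_ne {x : K} (hx : x ≠ 0) : {v : HeightOneSpectrum R | v.valuation K x ≠ 1}.Finite := by
  refine ((fin_gt (R := R) x).union (fin_gt (R := R) x⁻¹)).subset fun v hv => ?_
  by_contra hcon
  rw [Set.mem_union, not_or] at hcon
  have h1 : v.valuation K x ≤ 1 := not_not.1 hcon.1
  have h2 : v.valuation K x⁻¹ ≤ 1 := not_not.1 hcon.2
  apply hv
  have h0 : v.valuation K x ≠ 0 := (Valuation.ne_zero_iff _).2 hx
  refine le_antisymm h1 ?_
  rw [map_inv₀] at h2
  exact (inv_le_one₀ (zero_lt_iff.2 h0)).1 h2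

end vals

end Pool.Agent.Helper28H.FE.Gl
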