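import Pool.Agent.Helper28H.FE.Gl1

/-!
# Piece GL: the local data
-/

set_option autoImplicit false
set_option linter.all false

open Polynomial IsDedekindDomain Matrix WithZero
open scoped Classical

namespace Pool.Agent.Helper28H.FE.Gl

open Pool.Agent.N352.PJ (Mt IsGen dsc Cg Crd res)
open Pool.Agent.N874.PP (Ov Ev Sq1 U0)

section vals

variable {k K : Type} [Field k] [Field K] [Algebra k[X] K] [IsFractionRing k[X] K]

theorem v_self {Q : k[X]} (hQ : Irreducible Q) {v : HeightOneSpectrum k[X]}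
    (hv : v.asIdeal = Ideal.span {Q}) :
    v.valuation K (algebraMap k[X] K Q) = exp (-1 : ℤ) := by
  rw [HeightOneSpectrum.valuation_of_algebraMap]
  exact HeightOneSpectrum.intValuation_singleton v hQ.ne_zero hv

theorem v_one {p : k[X]} {v : HeightOneSpectrum k[X]} (hv : p ∉ v.asIdeal) :
    v.valuation K (algebraMap k[X] K p) = 1 := by
  refine le_antisymm (v.valuation_le_one p) ?_
  by_contra hcon
  exact hv ((v.valuation_lt_one_iff_mem p).1 (not_le.1 hcon))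

theorem v_other {Q : k[X]} (hQ : Irreducible Q) {v : HeightOneSpectrum k[X]}
    (hv : v.asIdeal ≠ Ideal.span {Q}) :
    v.valuation K (algebraMap k[X] K Q) = 1 := by
  refine v_one fun hmem => hv ?_
  haveI hmax : (Ideal.span {Q} : Ideal k[X]).IsMaximal :=
    PrincipalIdealRing.isMaximal_of_irreducible hQ
  exact (hmax.eq_of_le v.isPrime.ne_top ((Ideal.span_singleton_le_iff_mem _).2 hmem)).symm

theorem span_inj {Q Q' : k[X]} (hQ : Q.Monic) (hQ' : Q'.Monic)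
    (h : (Ideal.span {Q} : Ideal k[X]) = Ideal.span {Q'}) : Q = Q' :=
  eq_of_monic_of_associated hQ hQ' (Ideal.span_singleton_eq_span_singleton.1 h)

theorem v_prod (S : Finset k[X]) (hS : ∀ Q ∈ S, Q.Monic ∧ Irreducible Q)
    (v : HeightOneSpectrum k[X]) :
    v.valuation K (algebraMap k[X] K (∏ Q ∈ S, Q)) =
      if ∃ Q ∈ S, v.asIdeal = Ideal.span {Q} then exp (-1 : ℤ) else 1 := by
  rw [map_prod, map_prod]
  split_ifs with h
  · obtain ⟨Q, hQ, hv⟩ := h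
    rw [Finset.prod_eq_single Q]
    · exact v_self (hS Q hQ).2 hv
    · intro Q' hQ' hne
      refine v_other (hS Q' hQ').2 fun h => hne ?_
      exact span_inj (hS Q' hQ').1 (hS Q hQ).1 (h.symm.trans hv)
    · intro h
      exact absurd hQ h
  · push Not at h
    exact Finset.prod_eq_one fun Q hQ => v_other (hS Q hQ).2 (h Q hQ)

end vals

section loc

variable {k K L O : Type} [Field k] [Finite k] [Field K] [Algebra k[X] K] [IsFractionRing k[X] K]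
  [Field L] [Algebra K L] [Algebra k[X] L] [IsScalarTower k[X] K L] [CommRing O]
  [IsDedekindDomain O] [Algebra O L] [IsFractionRing O L] [Algebra k[X] O]
  [IsScalarTower k[X] O L] [IsIntegralClosure O k[X] L] {g : ℕ} {f : k[X][X]} {θ : L}

/-- The condition at the primes over `Q`. -/
def Cn (Q : k[X]) (𝔮 : HeightOneSpectrum O) (α x : L) : Prop :=
  ∀ 𝔓 : HeightOneSpectrum O, Ov Q 𝔓 → 𝔓.valuation L x ^ 2 ≤
    𝔓.valuation L α * (if 𝔓 = 𝔮 then exp (1 : ℤ) else 1)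

/-- The local bases. -/
theorem loc1 (h1 : B_SDG) (hg : 1 ≤ g) (hG : IsGen g K f θ) {S₁ : Finset k[X]}
    {h : k[X] → k[X][X]} (hS : GoodU g S₁ h) (hC : ∀ Q ∈ S₁, Cg Q f (X * h Q))
    {𝔮 : k[X] → HeightOneSpectrum O} (h𝔮 : ∀ Q ∈ S₁, Ov Q (𝔮 Q) ∧ (𝔮 Q).valuation L θ = 1)
    {α : L} (hα : α ≠ 0) (hsq : IsSquare (Algebra.norm K α))
    (hodd : ∀ Q ∈ S₁, ¬ Ev (𝔮 Q) α)
    (hsd : ∀ v : HeightOneSpectrum k[X], (∀ Q ∈ S₁, v.asIdeal ≠ Ideal.span {Q}) → SDL hG v α)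
    (v : HeightOneSpectrum k[X]) :
    ∃ e : Fin (2 * g + 1) → L,
      (∀ i j, v.valuation K (algebraMap k[X] K (∏ Q ∈ S₁, Q) * Gr hG α e i j) ≤ 1) ∧
      v.valuation K (Gr hG α e).det *
        v.valuation K (algebraMap k[X] K (∏ Q ∈ S₁, Q)) ^ (2 * g) = 1 ∧
      ∀ Q ∈ S₁, v.asIdeal = Ideal.span {Q} → ∀ i, Cn Q (𝔮 Q) α (e i) := by
  have hmi : ∀ Q ∈ S₁, Q.Monic ∧ Irreducible Q := fun Q hQ => ⟨(hS Q hQ).1, (hS Q hQ).2.1⟩
  by_cases hv : ∃ Q ∈ S₁, v.asIdeal = Ideal.span {Q}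
  · have hP := v_prod (K := K) S₁ hmi v
    rw [if_pos hv] at hP
    obtain ⟨Q, hQ, hvQ⟩ := hv
    obtain ⟨e, -, he1, he2, he3⟩ := (h1 g k K L O f θ hG α hg hα hsq).2 S₁ h hS Q hQ (hC Q hQ) v
      hvQ (𝔮 Q) (h𝔮 Q hQ).1 (h𝔮 Q hQ).2 (hodd Q hQ)
    refine ⟨e, fun i j => ?_, ?_, ?_⟩
    · rw [map_mul, hP, ← v_self (K := K) (hmi Q hQ).2 hvQ, ← map_mul]
      have := he1 i j
      rw [mul_div_assoc, Pool.Agent.N655.PJ.top_mul] at this
      exact this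
    · rw [hP]
      have e1 : v.valuation K (Gr hG α e).det = exp ((2 * g : ℕ) : ℤ) := he2
      rw [e1, ← WithZero.exp_nsmul, ← WithZero.exp_add, ← exp_zero]
      congr 1
      simp
    · intro Q' hQ' hvQ' i
      have : Q' = Q := span_inj (hmi Q' hQ').1 (hmi Q hQ).1 (hvQ'.symm.trans hvQ)
      subst this
      exact he3 i
  · have hP := v_prod (K := K) S₁ hmi v
    rw [if_neg hv] at hP
    push Not at hv
    obtain ⟨e, he1, he2⟩ := hsd v hv
    refine ⟨e, fun i j => ?_, ?_, ?_⟩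
    · rw [map_mul, hP, one_mul]
      exact he1 i j
    · rw [hP, one_pow, mul_one]
      exact he2
    · intro Q hQ h
      exact absurd h (hv Q hQ)

/-- The global basis. -/
theorem glob (h1 : B_SDG) (h2 : B_GLUE) (hg : 1 ≤ g) (hG : IsGen g K f θ) {S₁ : Finset k[X]}
    {h : k[X] → k[X][X]} (hS : GoodU g S₁ h) (hC : ∀ Q ∈ S₁, Cg Q f (X * h Q))
    {𝔮 : k[X] → HeightOneSpectrum O} (h𝔮 : ∀ Q ∈ S₁, Ov Q (𝔮 Q) ∧ (𝔮 Q).valuation L θ = 1)
    {α : L} (hα : α ≠ 0) (hsq : IsSquare (Algebra.norm K α))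
    (hodd : ∀ Q ∈ S₁, ¬ Ev (𝔮 Q) α)
    (hsd : ∀ v : HeightOneSpectrum k[X], (∀ Q ∈ S₁, v.asIdeal ≠ Ideal.span {Q}) → SDL hG v α) :
    ∃ B : Mt g K, B.det ≠ 0 ∧ ∀ v : HeightOneSpectrum k[X],
      ∃ (e : Fin (2 * g + 1) → L) (M : Mt g K), cmb B (pw g θ) = cmb M e ∧
      (∀ i j, v.valuation K (M i j) ≤ 1) ∧ v.valuation K M.det = 1 ∧
      (∀ i j, v.valuation K (algebraMap k[X] K (∏ Q ∈ S₁, Q) * Gr hG α e i j) ≤ 1) ∧
      v.valuation K (Gr hG α e).det *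
        v.valuation K (algebraMap k[X] K (∏ Q ∈ S₁, Q)) ^ (2 * g) = 1 ∧
      ∀ Q ∈ S₁, v.asIdeal = Ideal.span {Q} → ∀ i, Cn Q (𝔮 Q) α (e i) := by
  have hmi : ∀ Q ∈ S₁, Q.Monic ∧ Irreducible Q := fun Q hQ => ⟨(hS Q hQ).1, (hS Q hQ).2.1⟩
  obtain ⟨P, hP⟩ : ∃ P : k[X], P = ∏ Q ∈ S₁, Q := ⟨_, rfl⟩
  have hP0 : algebraMap k[X] K P ≠ 0 := by
    intro h0
    have : P = 0 := IsFractionRing.injective k[X] K (h0.trans (map_zero _).symm)
    rw [hP, Finset.prod_eq_zero_iff] at this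
    obtain ⟨Q, hQ, h0⟩ := this
    exact (hmi Q hQ).2.ne_zero h0
  have hloc := loc1 (O := O) h1 hg hG hS hC h𝔮 hα hsq hodd hsd
  rw [← hP] at hloc ⊢
  choose e he1 he2 he3 using hloc
  choose A hA using fun v => ex_co hG (e v)
  have hdG : ∀ v, (Gr hG α (e v)).det ≠ 0 := by
    intro v h0
    have := he2 v
    rw [h0, map_zero, zero_mul] at this
    exact zero_ne_one this
  have hdA : ∀ v, (A v).det ≠ 0 := by
    intro v h0
    apply hdG v
    rw [hA v, det_Gr hG α hα, h0]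
    simp
  -- the standard lattice
  have hs0 : (Gr hG α (pw g θ)).det ≠ 0 := by
    have e1 : pw g θ = cmb (1 : Mt g K) (pw g θ) := (cmb_one _).symm
    rw [e1, det_Gr hG α hα]
    simp only [det_one, one_pow, mul_one]
    exact div_ne_zero (pow_ne_zero _ (neg_ne_zero.2 one_ne_zero))
      (Pool.Agent.N655.PJ.norm_ne' hα)
  obtain ⟨T, hT⟩ : ∃ T : Finset (HeightOneSpectrum k[X]), ∀ v, v ∉ T →
      v.valuation K (algebraMap k[X] K P) = 1 ∧ v.valuation K (Gr hG α (pw g θ)).det = 1 ∧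
      ∀ i j, v.valuation K (Gr hG α (pw g θ) i j) ≤ 1 := by
    have f1 := fin_ne (R := k[X]) hP0
    have f2 := fin_ne (R := k[X]) hs0
    have f3 : (⋃ i, ⋃ j, {v : HeightOneSpectrum k[X] |
        ¬ v.valuation K (Gr hG α (pw g θ) i j) ≤ 1}).Finite :=
      Set.finite_iUnion fun i => Set.finite_iUnion fun j => fin_gt _
    refine ⟨(f1.union (f2.union f3)).toFinset, fun v hv => ?_⟩
    rw [Set.Finite.mem_toFinset, Set.mem_union, Set.mem_union, not_or, not_or] at hv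
    refine ⟨not_not.1 hv.1, not_not.1 hv.2.1, fun i j => ?_⟩
    by_contra hcon
    exact hv.2.2 (Set.mem_iUnion.2 ⟨i, Set.mem_iUnion.2 ⟨j, hcon⟩⟩)
  obtain ⟨B, hB0, hB1, hB2⟩ := h2 (2 * g + 1) k K T A hdA
  refine ⟨B, hB0, fun v => ?_⟩
  by_cases hv : v ∈ T
  · refine ⟨e v, B * (A v)⁻¹, ?_, (hB1 v hv).1, (hB1 v hv).2, he1 v, he2 v, he3 v⟩
    rw [cmb_inv (hdA v) (pw g θ), ← hA v]
  · obtain ⟨h3, h4, h5⟩ := hT v hv
    refine ⟨pw g θ, B, rfl, (hB2 v hv).1, (hB2 v hv).2, ?_, ?_, ?_⟩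
    · intro i j
      rw [map_mul, h3, one_mul]
      exact h5 i j
    · rw [h3, h4, one_pow, mul_one]
    · intro Q hQ hvQ
      exfalso
      have := v_prod (K := K) S₁ hmi v
      rw [if_pos ⟨Q, hQ, hvQ⟩, ← hP, h3, ← exp_zero, exp_inj] at this
      omega

end loc

end Pool.Agent.Helper28H.FE.Gl
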