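import Pool.Agent.Helper28H.FE.Gl2

/-!
# Piece GL: the polynomial Gram matrix, reduction
-/

set_option autoImplicit false
set_option linter.all false

open Polynomial IsDedekindDomain Matrix WithZero
open scoped Classical

namespace Pool.Agent.Helper28H.FE.Gl

open Pool.Agent.N352.PJ (Mt IsGen dsc Cg Crd res wtn)
open Pool.Agent.N874.PP (Ov Ev Sq1 U0)
open Pool.Agent.N655.PJ (inj)

section glob

variable {k K L : Type} [Field k] [Field K] [Algebra k[X] K] [IsFractionRing k[X] K]
  [Field L] [Algebra K L] [Algebra k[X] L] [IsScalarTower k[X] K L] {g : ℕ} {f : k[X][X]} {θ : L}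

theorem poly_of_val {x : K} (h : ∀ v : HeightOneSpectrum k[X], v.valuation K x ≤ 1) :
    ∃ y : k[X], algebraMap k[X] K y = x :=
  HeightOneSpectrum.mem_integers_of_valuation_le_one K x h

theorem assoc_of_val {x y : k[X]} (hx : x ≠ 0) (hy : y ≠ 0)
    (h : ∀ v : HeightOneSpectrum k[X], v.valuation K (algebraMap k[X] K x) =
      v.valuation K (algebraMap k[X] K y)) : x.natDegree = y.natDegree := by
  have h0 : ∀ {x y : k[X]}, x ≠ 0 → y ≠ 0 → (∀ v : HeightOneSpectrum k[X],
      v.valuation K (algebraMap k[X] K x) = v.valuation K (algebraMap k[X] K y)) → x ∣ y := by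
    intro x y hx hy h
    have hx' : algebraMap k[X] K x ≠ 0 := fun h => hx (inj (h.trans (map_zero _).symm))
    obtain ⟨z, hz⟩ := poly_of_val (K := K) (x := algebraMap k[X] K y / algebraMap k[X] K x)
      (fun v => by
        rw [map_div₀, h v, div_self]
        rw [← h v]
        exact (Valuation.ne_zero_iff _).2 hx')
    refine ⟨z, inj (K := K) ?_⟩
    rw [map_mul, hz]
    field_simp
  exact le_antisymm (natDegree_le_of_dvd (h0 hx hy h) hy)
    (natDegree_le_of_dvd (h0 hy hx fun v => (h v).symm) hx)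

theorem pG (hG : IsGen g K f θ) (α : L) (P : k[X]) (hP : P ≠ 0) (b : Fin (2 * g + 1) → L)
    (hloc : ∀ v : HeightOneSpectrum k[X],
      ∃ (e : Fin (2 * g + 1) → L) (M : Mt g K), b = cmb M e ∧
      (∀ i j, v.valuation K (M i j) ≤ 1) ∧ v.valuation K M.det = 1 ∧
      (∀ i j, v.valuation K (algebraMap k[X] K P * Gr hG α e i j) ≤ 1) ∧
      v.valuation K (Gr hG α e).det * v.valuation K (algebraMap k[X] K P) ^ (2 * g) = 1)
    (v₀ : HeightOneSpectrum k[X]) :
    ∃ G : Mt g k[X], G.map (algebraMap k[X] K) = algebraMap k[X] K P • Gr hG α b ∧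
      G.det ≠ 0 ∧ G.det.natDegree = P.natDegree := by
  have h1 : ∀ v : HeightOneSpectrum k[X], ∀ i j,
      v.valuation K ((algebraMap k[X] K P • Gr hG α b) i j) ≤ 1 := by
    intro v
    obtain ⟨e, M, hb, hM, -, he, -⟩ := hloc v
    have e1 : algebraMap k[X] K P • Gr hG α b = M * ((algebraMap k[X] K P • Gr hG α e) * Mᵀ) := by
      rw [hb, Gr_cmb, Matrix.smul_mul, Matrix.mul_smul, Matrix.mul_assoc]
    rw [e1]
    refine mul_le1 _ (c := fun _ => 1) hM ?_
    exact mul_le1 _ (c := fun _ => 1) (fun i j => he i j) fun i j => hM j i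
  choose G hGe using fun i j => poly_of_val (K := K)
    (x := (algebraMap k[X] K P • Gr hG α b) i j) fun v => h1 v i j
  have hGm : (Matrix.of G : Mt g k[X]).map (algebraMap k[X] K) = algebraMap k[X] K P • Gr hG α b :=
    Matrix.ext fun i j => hGe i j
  refine ⟨Matrix.of G, hGm, ?_⟩
  have hdet : algebraMap k[X] K (Matrix.of G : Mt g k[X]).det =
      algebraMap k[X] K P ^ (2 * g + 1) * (Gr hG α b).det := by
    rw [RingHom.map_det]
    have e2 : (algebraMap k[X] K).mapMatrix (Matrix.of G : Mt g k[X]) =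
      algebraMap k[X] K P • Gr hG α b := hGm
    rw [e2, Matrix.det_smul, Fintype.card_fin]
  have hv : ∀ v : HeightOneSpectrum k[X],
      v.valuation K (algebraMap k[X] K (Matrix.of G : Mt g k[X]).det) =
      v.valuation K (algebraMap k[X] K P) := by
    intro v
    obtain ⟨e, M, hb, -, hM, -, he⟩ := hloc v
    rw [hdet, hb, Gr_cmb, Matrix.det_mul, Matrix.det_mul, Matrix.det_transpose]
    simp only [map_mul, map_pow]
    rw [hM, one_mul, mul_one, pow_succ, mul_comm, ← mul_assoc, he, one_mul]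
  have hP' : algebraMap k[X] K P ≠ 0 := fun h => hP (inj (h.trans (map_zero _).symm))
  have hne : (Matrix.of G : Mt g k[X]).det ≠ 0 := by
    intro h0
    have := hv v₀
    rw [h0, map_zero, map_zero] at this
    exact hP' ((Valuation.zero_iff _).1 this.symm)
  exact ⟨hne, assoc_of_val (K := K) hne hP hv⟩

/-- Reduction at infinity. -/
theorem reduc {R₁ : Type} [CommRing R₁]
    [IsDedekindDomain R₁] [Algebra R₁ K] [IsFractionRing R₁ K] {v₁ : HeightOneSpectrum R₁}
    (hv₁ : IsInf k (K := K) v₁) (hG : IsGen g K f θ) {α : L} (hα : α ≠ 0) {P : k[X]} (hP : P.Monic)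
    {B : Mt g K} (hB : B.det ≠ 0) {G : Mt g k[X]}
    (hGm : G.map (algebraMap k[X] K) = algebraMap k[X] K P • Gr hG α (cmb B (pw g θ)))
    (hG0 : G.det ≠ 0) (hGd : G.det.natDegree = P.natDegree) (hsd : SDL hG v₁ α) :
    ∃ (U : Mt g k[X]) (w : Fin (2 * g + 1) → ℤ), IsUnit U.det ∧
      ∑ i, w i = -((g * P.natDegree : ℕ) : ℤ) ∧
      ∀ i j, (U * G * Uᵀ) i j = 0 ∨ (((U * G * Uᵀ) i j).natDegree : ℤ) ≤
        P.natDegree + w i + w j := by
  obtain ⟨e, he1, he2⟩ := hsd
  obtain ⟨A, hA⟩ := ex_co hG e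
  have hdG : (Gr hG α e).det ≠ 0 := by
    intro h0
    have he2' : v₁.valuation K (Gr hG α e).det = 1 := he2
    rw [h0, map_zero] at he2'
    exact zero_ne_one he2'
  have hdA : A.det ≠ 0 := by
    intro h0
    apply hdG
    rw [hA, det_Gr hG α hα, h0]
    simp
  obtain ⟨E, hE⟩ : ∃ E : Mt g K, E = B * A⁻¹ := ⟨_, rfl⟩
  have hb : cmb B (pw g θ) = cmb E e := by rw [hE, cmb_inv hdA (pw g θ), ← hA]
  have hE0 : E.det ≠ 0 := by
    rw [hE, Matrix.det_mul]
    refine mul_ne_zero hB ?_
    intro h0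
    have := congrArg Matrix.det (Matrix.mul_nonsing_inv A (isUnit_iff_ne_zero.2 hdA))
    rw [Matrix.det_mul, h0, mul_zero, Matrix.det_one] at this
    exact zero_ne_one this
  obtain ⟨c, hc⟩ := IsLocalization.exist_integer_multiples_of_finite (nonZeroDivisors k[X])
    (fun p : Fin (2 * g + 1) × Fin (2 * g + 1) => E p.1 p.2)
  have hc0 : (c : k[X]) ≠ 0 := nonZeroDivisors.ne_zero c.2
  choose E' hE' using fun i j => hc (i, j)
  have hE'm : (Matrix.of E' : Mt g k[X]).map (algebraMap k[X] K) =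
      algebraMap k[X] K (c : k[X]) • E := by
    refine Matrix.ext fun i j => ?_
    have := hE' i j
    rw [Algebra.smul_def] at this
    exact this
  have hdE' : algebraMap k[X] K (Matrix.of E' : Mt g k[X]).det =
      algebraMap k[X] K (c : k[X]) ^ (2 * g + 1) * E.det := by
    rw [RingHom.map_det]
    have e2 : (algebraMap k[X] K).mapMatrix (Matrix.of E' : Mt g k[X]) =
      algebraMap k[X] K (c : k[X]) • E := hE'm
    rw [e2, Matrix.det_smul, Fintype.card_fin]
  have hcK : algebraMap k[X] K (c : k[X]) ≠ 0 := fun h => hc0 (inj (h.trans (map_zero _).symm))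
  have hdE'0 : (Matrix.of E' : Mt g k[X]).det ≠ 0 := by
    intro h0
    rw [h0, map_zero] at hdE'
    exact mul_ne_zero (pow_ne_zero _ hcK) hE0 hdE'.symm
  obtain ⟨U, hU, -, hsum⟩ := Pool.Agent.N50.PJ.red (2 * g + 1) k (fun _ => 0) (Matrix.of E') hdE'0
  obtain ⟨w, hw⟩ : ∃ w : Fin (2 * g + 1) → ℤ, ∀ i, w i =
    (wtn (fun _ => 0) ((U * Matrix.of E') i) : ℤ) - (c : k[X]).natDegree := ⟨_, fun _ => rfl⟩
  refine ⟨U, w, hU, ?_, ?_⟩
  · have h1 : algebraMap k[X] K G.det = algebraMap k[X] K P ^ (2 * g + 1) *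
        (E.det ^ 2 * (Gr hG α e).det) := by
      rw [RingHom.map_det]
      have e2 : (algebraMap k[X] K).mapMatrix G =
        algebraMap k[X] K P • Gr hG α (cmb B (pw g θ)) := hGm
      rw [e2, Matrix.det_smul, Fintype.card_fin, hb, Gr_cmb, Matrix.det_mul, Matrix.det_mul,
        Matrix.det_transpose]
      ring
    have h2 := congrArg (v₁.valuation K) h1
    have he2' : v₁.valuation K (Gr hG α e).det = 1 := he2
    rw [map_mul, map_mul, map_pow, map_pow, he2', mul_one, hv₁ _ hG0, hv₁ _ hP.ne_zero, hGd] at h2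
    have h3 := congrArg (v₁.valuation K) hdE'
    rw [map_mul, map_pow, hv₁ _ hdE'0, hv₁ _ hc0] at h3
    obtain ⟨a, ha⟩ : ∃ a : ℤ, v₁.valuation K E.det = exp a :=
      ⟨log (v₁.valuation K E.det), (exp_log ((Valuation.ne_zero_iff _).2 hE0)).symm⟩
    rw [ha, ← WithZero.exp_nsmul, ← WithZero.exp_nsmul, ← WithZero.exp_add, exp_inj] at h2
    rw [ha, ← WithZero.exp_nsmul, ← WithZero.exp_add, exp_inj] at h3
    simp only [nsmul_eq_mul] at h2 h3
    simp only [hw]
    rw [Finset.sum_sub_distrib, Finset.sum_const, Finset.card_univ, Fintype.card_fin,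
      ← Nat.cast_sum, hsum]
    simp only [Finset.sum_const_zero, add_zero, nsmul_eq_mul]
    push_cast at h2 h3 ⊢
    have h4 : a = -((g : ℤ) * P.natDegree) := by linarith
    rw [h3, ← h4]
    ring
  · intro i j
    by_cases h0 : (U * G * Uᵀ) i j = 0
    · exact Or.inl h0
    right
    obtain ⟨M, hM⟩ : ∃ M : Mt g K, M = U.map (algebraMap k[X] K) * E := ⟨_, rfl⟩
    have hMc : (U * Matrix.of E').map (algebraMap k[X] K) = algebraMap k[X] K (c : k[X]) • M := by
      rw [Matrix.map_mul, hE'm, hM, Matrix.mul_smul]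
    have hMv : ∀ i j, v₁.valuation K (M i j) ≤ exp (w i) := by
      intro i j
      by_cases hm : (U * Matrix.of E') i j = 0
      · have : M i j = 0 := by
          have e3 := congrFun (congrFun hMc i) j
          rw [Matrix.map_apply, hm, map_zero, Matrix.smul_apply, smul_eq_mul] at e3
          exact (mul_eq_zero.1 e3.symm).resolve_left hcK
        rw [this, map_zero]
        exact zero_le
      · have e3 := congrArg (v₁.valuation K) (congrFun (congrFun hMc i) j)
        rw [Matrix.map_apply, Matrix.smul_apply, smul_eq_mul, map_mul, hv₁ _ hm, hv₁ _ hc0] at e3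
        have h5 := Pool.Agent.N655.PJ.le_wtn (fun _ => 0) ((U * Matrix.of E') i) j hm
        rw [add_zero] at h5
        have h6 : v₁.valuation K (M i j) =
            exp (-((c : k[X]).natDegree : ℤ)) * exp (((U * Matrix.of E') i j).natDegree : ℤ) := by
          rw [e3, ← mul_assoc, ← exp_add, neg_add_cancel, exp_zero, one_mul]
        rw [h6, ← exp_add, exp_le_exp, hw]
        have h7 : (((U * Matrix.of E') i j).natDegree : ℤ) ≤
            (wtn (fun _ => 0) ((U * Matrix.of E') i) : ℤ) := by exact_mod_cast h5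
        linarith
    have hN : (U * G * Uᵀ).map (algebraMap k[X] K) =
        algebraMap k[X] K P • (M * (Gr hG α e * Mᵀ)) := by
      rw [Matrix.map_mul, Matrix.map_mul, hGm, hb, Gr_cmb, hM, Matrix.transpose_mul,
        Matrix.transpose_map]
      simp only [Matrix.mul_smul, Matrix.smul_mul, Matrix.mul_assoc]
    have h8 := congrArg (v₁.valuation K) (congrFun (congrFun hN i) j)
    rw [Matrix.map_apply, Matrix.smul_apply, smul_eq_mul, map_mul, hv₁ _ h0,
      hv₁ _ hP.ne_zero] at h8
    have h9 : v₁.valuation K ((M * (Gr hG α e * Mᵀ)) i j) ≤ exp (w i) * exp (w j) := by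
      refine mul_le2 _ (c := fun i => exp (w i)) (d := fun j => exp (w j)) hMv ?_ i j
      intro i j
      rw [Matrix.mul_apply]
      refine Valuation.map_sum_le _ fun l _ => ?_
      rw [map_mul]
      calc _ ≤ 1 * exp (w j) := mul_le_mul' (he1 i l) (hMv j l)
        _ = _ := one_mul _
    have h10 : exp (((U * G * Uᵀ) i j).natDegree : ℤ) ≤
        exp ((P.natDegree : ℤ) + w i + w j) := by
      rw [h8, add_assoc, exp_add, exp_add]
      exact mul_le_mul' le_rfl h9
    exact exp_le_exp.1 h10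

end glob

end Pool.Agent.Helper28H.FE.Gl
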