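import Pool.Agent.Helper28H.FE.Stm

/-!
# Project FE, piece GLUE: gluing lattices over `k[t]` (by helper12)
-/

set_option autoImplicit false
set_option linter.all false

open Polynomial IsDedekindDomain Matrix WithZero
open scoped Classical

namespace Pool.Agent.Helper28H.FE

namespace Glue

section

variable {n : ℕ} {k K : Type} [Field k] [Field K] [Algebra k[X] K] [IsFractionRing k[X] K]

/-- the matrix is integral at `v` -/
def In (v : HeightOneSpectrum k[X]) (M : Matrix (Fin n) (Fin n) K) : Prop :=
  ∀ i j, v.valuation K (M i j) ≤ 1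

theorem int_det {v : HeightOneSpectrum k[X]} {M : Matrix (Fin n) (Fin n) K} (hM : In v M) :
    v.valuation K M.det ≤ 1 := by
  rw [Matrix.det_apply']
  refine Valuation.map_sum_le _ fun σ _ => ?_
  rw [map_mul]
  refine mul_le_one' ?_ ?_
  · have e : ((Equiv.Perm.sign σ : ℤ) : K) = algebraMap k[X] K ((Equiv.Perm.sign σ : ℤ) : k[X]) := by
      rw [map_intCast]
    rw [e]
    exact v.valuation_le_one _
  · rw [map_prod]
    exact Finset.prod_le_one' fun i _ => hM _ _

/-- the lattice -/
def Lat (A : HeightOneSpectrum k[X] → Matrix (Fin n) (Fin n) K) : Submodule k[X] (Fin n → K) where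
  carrier := {x | ∀ (v : HeightOneSpectrum k[X]) (i : Fin n), v.valuation K ((x ᵥ* (A v)⁻¹) i) ≤ 1}
  add_mem' := by
    intro x y hx hy v i
    rw [Matrix.add_vecMul, Pi.add_apply]
    exact (Valuation.map_add _ _ _).trans (max_le (hx v i) (hy v i))
  zero_mem' := by
    intro v i
    rw [Matrix.zero_vecMul]
    simp
  smul_mem' := by
    intro c x hx v i
    rw [Matrix.smul_vecMul, Pi.smul_apply, Algebra.smul_def, map_mul]
    exact mul_le_one' (v.valuation_le_one _) (hx v i)

theorem mem_Lat {A : HeightOneSpectrum k[X] → Matrix (Fin n) (Fin n) K} {x : Fin n → K} :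
    x ∈ Lat A ↔ ∀ (v : HeightOneSpectrum k[X]) (i : Fin n), v.valuation K ((x ᵥ* (A v)⁻¹) i) ≤ 1 :=
  Iff.rfl

/-- a finite basis -/
theorem exists_basis (A : HeightOneSpectrum k[X] → Matrix (Fin n) (Fin n) K)
    (hA : ∀ v, (A v).det ≠ 0) (c : k[X]) (hc : c ≠ 0)
    (h1 : ∀ v i j, IsLocalization.IsInteger k[X] (c • A v i j)) :
    ∃ (m : ℕ) (b : Fin m → Fin n → K), (∀ i, b i ∈ Lat A) ∧ LinearIndependent k[X] b ∧
      ∀ x ∈ Lat A, ∃ z : Fin m → k[X], x = ∑ i, z i • b i := by
  have hinj : Function.Injective (algebraMap k[X] K) := IsFractionRing.injective k[X] K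
  have hc' : algebraMap k[X] K c ≠ 0 := by
    rwa [Ne, map_eq_zero_iff _ hinj]
  let ψ : (Fin n → k[X]) →ₗ[k[X]] (Fin n → K) :=
    { toFun := fun y i => algebraMap k[X] K (y i) / algebraMap k[X] K c
      map_add' := by
        intro x y
        funext i
        simp only [Pi.add_apply, map_add, add_div]
      map_smul' := by
        intro r x
        funext i
        simp only [Pi.smul_apply, smul_eq_mul, map_mul, RingHom.id_apply, Algebra.smul_def]
        rw [mul_div_assoc] }
  have hψ : Function.Injective ψ := by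
    intro x y hxy
    funext i
    have h2 : algebraMap k[X] K (x i) / algebraMap k[X] K c = algebraMap k[X] K (y i) / algebraMap k[X] K c :=
      congrFun hxy i
    rw [div_left_inj' hc'] at h2
    exact hinj h2
  have hr : ∀ x ∈ Lat A, ∃ y, ψ y = x := by
    intro x hx
    have h3 : ∀ i, ∃ y : k[X], algebraMap k[X] K y = algebraMap k[X] K c * x i := by
      intro i
      have h4 : ∀ v : HeightOneSpectrum k[X], v.valuation K (algebraMap k[X] K c * x i) ≤ 1 := by
        intro v
        have e : algebraMap k[X] K c * x i = ∑ l, (x ᵥ* (A v)⁻¹) l * (c • A v l i) := by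
          have e1 : x = (x ᵥ* (A v)⁻¹) ᵥ* A v := by
            rw [Matrix.vecMul_vecMul, Matrix.nonsing_inv_mul _ (isUnit_iff_ne_zero.2 (hA v)),
              Matrix.vecMul_one]
          conv_lhs => rw [e1]
          rw [Matrix.vecMul, dotProduct, Finset.mul_sum]
          refine Finset.sum_congr rfl fun l _ => ?_
          rw [Algebra.smul_def]
          ring
        rw [e]
        refine Valuation.map_sum_le _ fun l _ => ?_
        rw [map_mul]
        refine mul_le_one' (hx v l) ?_
        obtain ⟨p, hp⟩ := h1 v l i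
        rw [← hp]
        exact v.valuation_le_one _
      obtain ⟨y, hy⟩ := HeightOneSpectrum.mem_integers_of_valuation_le_one K _ h4
      exact ⟨y, hy⟩
    choose y hy using h3
    refine ⟨y, ?_⟩
    funext i
    show algebraMap k[X] K (y i) / algebraMap k[X] K c = x i
    rw [hy]
    field_simp
  obtain ⟨m, b⟩ := Submodule.basisOfPid (Pi.basisFun k[X] (Fin n)) (Submodule.comap ψ (Lat A))
  refine ⟨m, fun i => ψ (b i : Fin n → k[X]), fun i => (b i).2, ?_, ?_⟩
  · have h2 : LinearIndependent k[X] fun i => ((b i : Submodule.comap ψ (Lat A)) : Fin n → k[X]) :=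
      b.linearIndependent.map' (Submodule.subtype _) (Submodule.ker_subtype _)
    exact h2.map' ψ (LinearMap.ker_eq_bot.2 hψ)
  · intro x hx
    obtain ⟨y, rfl⟩ := hr x hx
    refine ⟨fun i => b.repr ⟨y, hx⟩ i, ?_⟩
    have h2 := congrArg (fun z : Submodule.comap ψ (Lat A) => ψ (z : Fin n → k[X])) (b.sum_repr ⟨y, hx⟩)
    simp only [Submodule.coe_sum, Submodule.coe_smul, map_sum, map_smul] at h2
    exact h2.symm

theorem glue1 (A : HeightOneSpectrum k[X] → Matrix (Fin n) (Fin n) K)
    (hA : ∀ v, (A v).det ≠ 0) (c : k[X]) (hc : c ≠ 0)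
    (h1 : ∀ v i j, IsLocalization.IsInteger k[X] (c • A v i j))
    (h2 : ∀ v i j, IsLocalization.IsInteger k[X] (c • (A v)⁻¹ i j)) :
    ∃ B : Matrix (Fin n) (Fin n) K, B.det ≠ 0 ∧ ∀ v : HeightOneSpectrum k[X],
      (∀ i j, v.valuation K ((B * (A v)⁻¹) i j) ≤ 1) ∧ v.valuation K (B * (A v)⁻¹).det = 1 := by
  have hinj : Function.Injective (algebraMap k[X] K) := IsFractionRing.injective k[X] K
  have hc' : algebraMap k[X] K c ≠ 0 := by
    rwa [Ne, map_eq_zero_iff _ hinj]
  obtain ⟨m, b, hb1, hb2, hb3⟩ := exists_basis A hA c hc h1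
  have hb4 : LinearIndependent K b := (LinearIndependent.iff_fractionRing k[X] K).1 hb2
  have hb5 : ⊤ ≤ Submodule.span K (Set.range b) := by
    have h3 : ∀ i : Fin n, Pi.single i (1 : K) ∈ Submodule.span K (Set.range b) := by
      intro i
      have h4 : c • (Pi.single i (1 : K) : Fin n → K) ∈ Lat A := by
        intro v j
        rw [Matrix.smul_vecMul, Pi.smul_apply, Matrix.single_one_vecMul]
        obtain ⟨p, hp⟩ := h2 v i j
        have e : c • (A v)⁻¹.row i j = c • (A v)⁻¹ i j := rfl
        rw [e, ← hp]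
        exact v.valuation_le_one _
      obtain ⟨z, hz⟩ := hb3 _ h4
      have h5 : c • (Pi.single i (1 : K) : Fin n → K) ∈ Submodule.span K (Set.range b) := by
        rw [hz]
        refine Submodule.sum_mem _ fun j _ => ?_
        have e : z j • b j = (algebraMap k[X] K (z j)) • b j := by
          rw [algebraMap_smul]
        rw [e]
        exact Submodule.smul_mem _ _ (Submodule.subset_span ⟨j, rfl⟩)
      have e : (Pi.single i (1 : K) : Fin n → K) =
          (algebraMap k[X] K c)⁻¹ • (c • (Pi.single i (1 : K) : Fin n → K)) := by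
        have e2 : c • (Pi.single i (1 : K) : Fin n → K) = (algebraMap k[X] K c) • (Pi.single i (1 : K) : Fin n → K) := by
          rw [algebraMap_smul]
        rw [e2, smul_smul, inv_mul_cancel₀ hc', one_smul]
      rw [e]
      exact Submodule.smul_mem _ _ h5
    intro x _
    have e : x = ∑ i, x i • (Pi.single i (1 : K) : Fin n → K) := by
      funext j
      rw [Finset.sum_apply, Finset.sum_eq_single j]
      · simp
      · intro i _ hij
        simp [Pi.single_apply, Ne.symm hij]
      · intro h
        exact absurd (Finset.mem_univ j) h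
    rw [e]
    exact Submodule.sum_mem _ fun i _ => Submodule.smul_mem _ _ (h3 i)
  have hm : m = n := by
    have h3 := Module.finrank_eq_card_basis (Module.Basis.mk hb4 hb5)
    rw [Module.finrank_fin_fun, Fintype.card_fin] at h3
    exact h3.symm
  subst hm
  have hB : IsUnit (Matrix.of b).det := by
    rw [← Matrix.isUnit_iff_isUnit_det, ← Matrix.linearIndependent_rows_iff_isUnit]
    exact hb4
  refine ⟨Matrix.of b, hB.ne_zero, fun v => ?_⟩
  have hAv : IsUnit (A v).det := isUnit_iff_ne_zero.2 (hA v)
  have m1 : In v (Matrix.of b * (A v)⁻¹) := by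
    intro i j
    rw [Matrix.mul_apply_eq_vecMul]
    exact hb1 i v j
  have m2 : In v (A v * (Matrix.of b)⁻¹) := by
    intro i j
    obtain ⟨P, hP⟩ := (IsPrincipalIdealRing.principal v.asIdeal).principal
    have hP1 : v.asIdeal = Ideal.span {P} := hP
    have hP0 : P ≠ 0 := by
      rintro rfl
      apply v.ne_bot
      rw [hP1]
      simp
    have hPp : Prime P := (Ideal.span_singleton_prime hP0).1 (hP1 ▸ v.isPrime)
    have hfin : FiniteMultiplicity P (c ^ 2) :=
      FiniteMultiplicity.of_prime_left hPp (pow_ne_zero 2 hc)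
    obtain ⟨s, hs1, hs2⟩ := hfin.exists_eq_pow_mul_and_not_dvd
    set N := multiplicity P (c ^ 2) with hN
    have vs : v.valuation K (algebraMap k[X] K s) = 1 := by
      refine le_antisymm (v.valuation_le_one _) ?_
      rw [← not_lt, HeightOneSpectrum.valuation_lt_one_iff_mem, hP1, Ideal.mem_span_singleton]
      exact hs2
    have hmem : s • (A v i) ∈ Lat A := by
      intro w j
      rw [Matrix.smul_vecMul, Pi.smul_apply, ← Matrix.mul_apply_eq_vecMul]
      by_cases hw : w = v
      · rw [hw, Matrix.mul_nonsing_inv _ hAv, Algebra.smul_def, Matrix.one_apply]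
        split_ifs
        · rw [mul_one]
          exact v.valuation_le_one _
        · rw [mul_zero, map_zero]
          exact zero_le_one
      · have wP : w.valuation K (algebraMap k[X] K P) = 1 := by
          refine le_antisymm (w.valuation_le_one _) ?_
          rw [← not_lt, HeightOneSpectrum.valuation_lt_one_iff_mem]
          intro h
          apply hw
          have h3 : v.asIdeal ≤ w.asIdeal := by
            rw [hP1, Ideal.span_singleton_le_iff_mem]
            exact h
          have h4 : v.asIdeal = w.asIdeal := v.isMaximal.eq_of_le w.isPrime.ne_top h3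
          exact HeightOneSpectrum.ext h4.symm
        have ws : w.valuation K (algebraMap k[X] K s) = w.valuation K (algebraMap k[X] K (c ^ 2)) := by
          rw [hs1, map_mul, map_pow, map_mul, map_pow, wP, one_pow, one_mul]
        rw [Algebra.smul_def, map_mul, ws, ← map_mul, Matrix.mul_apply, Finset.mul_sum]
        refine Valuation.map_sum_le _ fun l _ => ?_
        obtain ⟨p, hp⟩ := h1 v i l
        obtain ⟨q, hq⟩ := h2 w l j
        have e : algebraMap k[X] K (c ^ 2) * (A v i l * (A w)⁻¹ l j) =
            algebraMap k[X] K p * algebraMap k[X] K q := by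
          rw [hp, hq, Algebra.smul_def, Algebra.smul_def, map_pow]
          ring
        rw [e, ← map_mul]
        exact w.valuation_le_one _
    obtain ⟨z, hz⟩ := hb3 _ hmem
    have e : algebraMap k[X] K s * (A v * (Matrix.of b)⁻¹) i j = algebraMap k[X] K (z j) := by
      have h3 : s • (A v i) = (fun l => algebraMap k[X] K (z l)) ᵥ* (Matrix.of b) := by
        rw [hz]
        funext l
        rw [Matrix.vecMul, dotProduct, Finset.sum_apply]
        refine Finset.sum_congr rfl fun q _ => ?_
        rw [Pi.smul_apply, Algebra.smul_def]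
        rfl
      have h4 := congrArg (fun y => (y ᵥ* (Matrix.of b)⁻¹) j) h3
      simp only [Matrix.vecMul_vecMul, Matrix.mul_nonsing_inv _ hB, Matrix.vecMul_one] at h4
      rw [← h4, Matrix.smul_vecMul, Pi.smul_apply, Algebra.smul_def, ← Matrix.mul_apply_eq_vecMul]
    have h5 := congrArg (v.valuation K) e
    rw [map_mul, vs, one_mul] at h5
    rw [h5]
    exact v.valuation_le_one _
  refine ⟨m1, le_antisymm (int_det m1) ?_⟩
  have h3 : (Matrix.of b * (A v)⁻¹) * (A v * (Matrix.of b)⁻¹) = 1 := by
    rw [Matrix.mul_assoc, ← Matrix.mul_assoc (A v)⁻¹, Matrix.nonsing_inv_mul _ hAv, Matrix.one_mul,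
      Matrix.mul_nonsing_inv _ hB]
  have h4 : v.valuation K (Matrix.of b * (A v)⁻¹).det * v.valuation K (A v * (Matrix.of b)⁻¹).det = 1 := by
    rw [← map_mul, ← Matrix.det_mul, h3, Matrix.det_one, map_one]
  by_contra h5
  rw [not_le] at h5
  have h6 := int_det m2
  have h7 : v.valuation K (Matrix.of b * (A v)⁻¹).det * v.valuation K (A v * (Matrix.of b)⁻¹).det < 1 :=
    mul_lt_one_of_lt_of_le h5 h6
  exact absurd h4 h7.ne

end

end Glue

/-- **Piece GLUE.** -/
theorem glue : B_GLUE := by
  intro n k K _ _ _ _ T A hA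
  let A' : HeightOneSpectrum k[X] → Matrix (Fin n) (Fin n) K := fun v => if v ∈ T then A v else 1
  let E : Finset K := T.biUnion fun v => (Finset.univ.image fun p : Fin n × Fin n => A v p.1 p.2) ∪
    (Finset.univ.image fun p : Fin n × Fin n => (A v)⁻¹ p.1 p.2)
  obtain ⟨c, hc⟩ := IsLocalization.exist_integer_multiples_of_finset (nonZeroDivisors k[X]) E
  have hint : ∀ (d : k[X]) (i j : Fin n), IsLocalization.IsInteger k[X] (d • (1 : Matrix (Fin n) (Fin n) K) i j) := by
    intro d i j
    rw [Matrix.one_apply]
    split_ifs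
    · exact ⟨d, by rw [Algebra.smul_def, mul_one]⟩
    · exact ⟨0, by rw [smul_zero, map_zero]⟩
  obtain ⟨B, hB1, hB2⟩ := Glue.glue1 A' (fun v => by
      show (if v ∈ T then A v else 1).det ≠ 0
      split_ifs with h
      · exact hA v
      · rw [Matrix.det_one]; exact one_ne_zero) (c : k[X]) (nonZeroDivisors.ne_zero c.2)
    (fun v i j => by
      show IsLocalization.IsInteger k[X] ((c : k[X]) • (if v ∈ T then A v else 1) i j)
      split_ifs with h
      · refine hc _ (Finset.mem_biUnion.2 ⟨v, h, Finset.mem_union_left _ ?_⟩)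
        exact Finset.mem_image.2 ⟨(i, j), Finset.mem_univ _, rfl⟩
      · exact hint _ _ _)
    (fun v i j => by
      show IsLocalization.IsInteger k[X] ((c : k[X]) • (if v ∈ T then A v else 1)⁻¹ i j)
      split_ifs with h
      · refine hc _ (Finset.mem_biUnion.2 ⟨v, h, Finset.mem_union_right _ ?_⟩)
        exact Finset.mem_image.2 ⟨(i, j), Finset.mem_univ _, rfl⟩
      · rw [inv_one]
        exact hint _ _ _)
  refine ⟨B, hB1, fun v hv => ?_, fun v hv => ?_⟩
  · have h := hB2 v
    have e : A' v = A v := if_pos hv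
    rw [e] at h
    exact h
  · have h := hB2 v
    have e : A' v = 1 := if_neg hv
    rw [e, inv_one, mul_one] at h
    exact h

end Pool.Agent.Helper28H.FE
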