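import Pool.Agent.Helper28H.FE.Stm
import Pool.Agent.N769.PJ.Int

/-!
# Project FE, piece INT: locally at `P` the ring of integers is `k[t][θ]`

Port of `Pool/Agent/N769/PJ/Int.lean` and `Pool/Agent/H30T/Int.lean`.
-/

set_option autoImplicit false
set_option linter.all false

open Polynomial IsDedekindDomain Matrix
open scoped Classical

namespace Pool.Agent.Helper28H.FE.Int

open Pool.Agent.N352.PJ
open Pool.Agent.N769.PJ (dis theta_int)

/-- A coefficient whose square times `D` is integral has a denominator prime to `P`. -/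
theorem den {k K : Type} [Field k] [Field K] [Algebra k[X] K] [IsFractionRing k[X] K]
    {P D : k[X]} (hD : ¬ P ^ 2 ∣ D) {t : K}
    (h : IsIntegral k[X] (t ^ 2 * algebraMap k[X] K D)) :
    ∃ s c : k[X], ¬ P ∣ s ∧ algebraMap k[X] K s * t = algebraMap k[X] K c := by
  obtain ⟨a, b, hab, rfl⟩ := IsFractionRing.exists_reduced_fraction (A := k[X]) t
  obtain ⟨n, hn⟩ := IsIntegrallyClosed.isIntegral_iff.1 h
  have hb0 : algebraMap k[X] K b ≠ 0 := by
    rw [Ne, IsFractionRing.to_map_eq_zero_iff (R := k[X])]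
    exact nonZeroDivisors.ne_zero b.2
  have hmk : algebraMap k[X] K b * IsLocalization.mk' K a b = algebraMap k[X] K a :=
    IsLocalization.mk'_spec' K a b
  refine ⟨b, a, fun hPb => hD ?_, hmk⟩
  have h1 : n * (b : k[X]) ^ 2 = a ^ 2 * D := by
    apply IsFractionRing.injective k[X] K
    rw [map_mul, map_mul, map_pow, map_pow, hn, ← hmk]
    ring
  have h2 : (b : k[X]) ^ 2 ∣ D := by
    have h3 : IsCoprime ((b : k[X]) ^ 2) (a ^ 2) := (isRelPrime_iff_isCoprime.1 hab).symm.pow
    exact h3.dvd_of_dvd_mul_left ⟨n, by rw [← h1]; ring⟩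
  exact (pow_dvd_pow_of_dvd hPb 2).trans h2

end Pool.Agent.Helper28H.FE.Int

namespace Pool.Agent.Helper28H.FE

open Pool.Agent.N352.PJ (Mt IsGen dsc Cg Crd res)
open Pool.Agent.N769.PJ (dis theta_int)

/-- **INT** -/
theorem a_int : A_INT := by
  intro g k K L _ _ _ _ _ _ _ _ f θ h P hP hD x hx
  have hθ := theta_int h
  have hfd : FiniteDimensional K L := Module.Finite.of_basis h.basis
  have hD0 : dsc g f ≠ 0 := fun h0 => hD (by rw [h0]; exact dvd_zero _)
  obtain ⟨c, hc⟩ := h.gen x
  have key : ∀ i₀, ∃ s d : k[X], ¬ P ∣ s ∧ algebraMap k[X] K s * c i₀ = algebraMap k[X] K d := by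
    intro i₀
    obtain ⟨m, hm⟩ := dis h hD0
    set M : Matrix (Fin (2 * g + 1)) (Fin (2 * g + 1)) K := (1 : Matrix _ _ K).updateCol i₀ c
      with hM
    have hdet : M.det = c i₀ := by
      rw [hM, ← cramer_apply, cramer_one]
      rfl
    have h1 : IsIntegral k[X] (Algebra.discr K
        ((fun i : Fin (2 * g + 1) => θ ^ (i : ℕ)) ᵥ* M.map (algebraMap K L))) := by
      apply Algebra.discr_isIntegral
      intro j
      have e : ((fun i : Fin (2 * g + 1) => θ ^ (i : ℕ)) ᵥ* M.map (algebraMap K L)) j =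
          if j = i₀ then x else θ ^ (j : ℕ) := by
        rw [Matrix.vecMul, dotProduct]
        simp only [Matrix.map_apply]
        split_ifs with hj
        · subst hj
          rw [hc]
          refine Finset.sum_congr rfl fun i _ => ?_
          rw [hM, updateCol_self, mul_comm]
        · rw [Finset.sum_eq_single j]
          · rw [hM, updateCol_ne hj, one_apply_eq, map_one, mul_one]
          · intro i _ hij
            rw [hM, updateCol_ne hj, one_apply_ne hij, map_zero, mul_zero]
          · intro h0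
            exact absurd (Finset.mem_univ _) h0
      rw [e]
      split_ifs
      · exact hx
      · exact hθ.pow _
    rw [Algebra.discr_of_matrix_vecMul, hdet, hm] at h1
    have h2 : IsIntegral k[X] ((-1 : K) ^ m) := (isIntegral_one.neg).pow m
    have h3 := h2.mul h1
    have e2 : (-1 : K) ^ m * (-1 : K) ^ m = 1 := by
      rw [← mul_pow, neg_one_mul, neg_neg, one_pow]
    have e : (-1 : K) ^ m * (c i₀ ^ 2 * ((-1) ^ m * algebraMap k[X] K (dsc g f))) =
        c i₀ ^ 2 * algebraMap k[X] K (dsc g f) := by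
      linear_combination (c i₀ ^ 2 * algebraMap k[X] K (dsc g f)) * e2
    rw [e] at h3
    exact Int.den hD h3
  choose s d hs hd using key
  refine ⟨∏ i, s i, fun i => (∏ j ∈ Finset.univ.erase i, s j) * d i, ?_, ?_⟩
  · intro hmem
    obtain ⟨i, -, hi⟩ := (hP.prime.dvd_finset_prod_iff s).1 hmem
    exact hs i hi
  · rw [Crd, hc, Finset.mul_sum]
    refine Finset.sum_congr rfl fun i _ => ?_
    rw [← mul_assoc]
    congr 1
    rw [← Finset.mul_prod_erase Finset.univ s (Finset.mem_univ i), IsScalarTower.algebraMap_apply k[X] K L,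
      IsScalarTower.algebraMap_apply k[X] K L, ← map_mul]
    congr 1
    beta_reduce
    rw [map_mul, map_mul, ← hd i]
    ring

end Pool.Agent.Helper28H.FE
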