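import Pool.Agent.Helper28H.FE.Stm
import Pool.Agent.N271.PQ.Him
import Pool.Agent.N488.PQ.Red
import Pool.Agent.N878.PQ.Hsp
import Pool.Agent.N352.PP.Loc

/-!
# Project FE, piece ISO: classes in the image of the Jacobian give isometric forms (by helper12)

Port of `N2/PQ/Cant.lean`, `N878/PQ/Hsp.lean`, `N591/PF/Iso1.lean` to characteristic different from two.
-/

set_option autoImplicit false
set_option linter.all false

open Polynomial IsDedekindDomain Matrix WithZero Topology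
open scoped Classical

namespace Pool.Agent.Helper28H.FE

namespace Iso

open Pool.Agent.N352.PJ (Mt)
open Pool.Agent.N783.PQ (LocIm tp sg)
open Pool.Agent.N874.JM (LocF)
open Pool.Agent.N271.PQ (tp_congr vc)
open Pool.Agent.N878.PQ (symm_dot)

section cant

variable {F : Type} [Field F] [Infinite F] [NeZero (2 : F)]

/-- the signed polynomial -/
noncomputable def sgn (u : F[X]) : F[X] := (-1) ^ u.natDegree * u

/-- avoiding finitely many values of the parameter -/
lemma exists_t (f u₁ v₁ w₀ h : F[X]) (hw : u₁ * w₀ = v₁ ^ 2 - f) (hc : IsCoprime u₁ f)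
    (hh : h ≠ 0) : ∃ t : F, t ≠ 0 ∧ IsCoprime (w₀ + C (2 * t) * v₁ + C (t ^ 2) * u₁) h := by
  classical
  let K := AlgebraicClosure F
  let q : K → K[X] := fun x => C (aeval x w₀) + C (2 * aeval x v₁) * X + C (aeval x u₁) * X ^ 2
  have hq : ∀ x : K, q x ≠ 0 := by
    intro x h0
    have h1 : aeval x w₀ = 0 := by
      have := congrArg (fun p => coeff p 0) h0
      simpa [q] using this
    have h2K : (2 : K) ≠ 0 := by
      have h5 := (_root_.map_ne_zero (algebraMap F K)).2 (two_ne_zero (α := F))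
      rwa [map_ofNat] at h5
    have h2 : aeval x v₁ = 0 := by
      have := congrArg (fun p => coeff p 1) h0
      simpa [q, coeff_X, coeff_C, h2K] using this
    have h3 : aeval x u₁ = 0 := by
      have := congrArg (fun p => coeff p 2) h0
      simpa [q, coeff_X, coeff_C] using this
    have h4 : aeval x f = 0 := by
      have := congrArg (aeval x) hw
      rw [map_mul, map_sub, map_pow, h3, h2] at this
      simpa using this
    obtain ⟨a, b, hab⟩ := hc
    have := congrArg (aeval x) hab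
    rw [map_add, map_mul, map_mul, h3, h4] at this
    simp at this
  let Z : Finset K := (h.aroots K).toFinset
  let Bd : Finset K := Z.biUnion fun x => (q x).roots.toFinset
  have hinf : (Set.range (algebraMap F K)).Infinite :=
    Set.infinite_range_of_injective (algebraMap F K).injective
  obtain ⟨_, ⟨t, rfl⟩, ht⟩ := hinf.exists_notMem_finset (insert 0 Bd)
  rw [Finset.mem_insert, not_or] at ht
  refine ⟨t, ?_, ?_⟩
  · rintro rfl
    exact ht.1 (map_zero _)
  · rw [Polynomial.isCoprime_iff_aeval_ne_zero_of_isAlgClosed F K]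
    intro x
    by_cases hx : aeval x h = 0
    · left
      intro h1
      apply ht.2
      rw [Finset.mem_biUnion]
      refine ⟨x, ?_, ?_⟩
      · rw [Multiset.mem_toFinset, mem_aroots]
        exact ⟨hh, hx⟩
      · rw [Multiset.mem_toFinset, mem_roots (hq x), IsRoot.def]
        rw [← h1]
        simp only [q, eval_add, eval_mul, eval_C, eval_X, eval_pow, map_add, map_mul, aeval_C,
          map_ofNat, map_pow, eval_ofNat]
        ring
    · exact Or.inr hx

/-- moving a divisor away from another one -/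
lemma move (g : ℕ) (f u₁ v₁ h : F[X]) (hf : f.Monic) (hd : f.natDegree = 2 * g + 1)
    (hu : u₁.Monic) (hc : IsCoprime u₁ f) (hdv : u₁ ∣ v₁ ^ 2 - f) (hh : h ≠ 0) :
    ∃ u v s : F[X], u.Monic ∧ u ∣ v ^ 2 - f ∧ IsCoprime u h ∧ f ∣ sgn u₁ * sgn u - s ^ 2 := by
  classical
  by_cases hm : u₁.natDegree = 0
  · have h1 : u₁ = 1 := hu.natDegree_eq_zero.1 hm
    refine ⟨1, 0, 1, monic_one, one_dvd _, isCoprime_one_left, ?_⟩
    rw [h1]
    simp [sgn]
  -- reduce
  obtain ⟨v₀, hv0, hv1⟩ : ∃ v₀ : F[X], v₀.degree < u₁.degree ∧ u₁ ∣ v₀ ^ 2 - f := by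
    refine ⟨v₁ %ₘ u₁, degree_modByMonic_lt _ hu, ?_⟩
    have h1 : v₁ %ₘ u₁ = v₁ - u₁ * (v₁ /ₘ u₁) := by
      rw [eq_sub_iff_add_eq]
      exact modByMonic_add_div v₁ u₁
    have h2 : (v₁ %ₘ u₁) ^ 2 - f =
        (v₁ ^ 2 - f) + u₁ * (- 2 * v₁ * (v₁ /ₘ u₁) + u₁ * (v₁ /ₘ u₁) ^ 2) := by
      rw [h1]; ring
    rw [h2]
    exact dvd_add hdv (dvd_mul_right _ _)
  obtain ⟨w₀, hw0⟩ := hv1
  obtain ⟨t, ht0, ht⟩ := exists_t f u₁ v₀ w₀ h hw0.symm hc hh
  set w : F[X] := w₀ + C (2 * t) * v₀ + C (t ^ 2) * u₁ with hw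
  set v : F[X] := v₀ + C t * u₁ with hv
  have huw : u₁ * w = v ^ 2 - f := by
    rw [hw, hv]
    have : C (2 * t) = 2 * (C t : F[X]) := by rw [C_mul]; rfl
    rw [this, C_pow]
    linear_combination -hw0
  have hu0 : u₁ ≠ 0 := hu.ne_zero
  have hvd : v.natDegree = u₁.natDegree ∧ v.leadingCoeff = t := by
    have h1 : (C t * u₁).degree = u₁.degree := by
      rw [degree_mul, degree_C ht0, zero_add]
    have h2 : v₀.degree < (C t * u₁).degree := by rw [h1]; exact hv0
    constructor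
    · apply natDegree_eq_of_degree_eq
      rw [hv, degree_add_eq_right_of_degree_lt h2, h1]
    · rw [hv, leadingCoeff_add_of_degree_lt h2, leadingCoeff_mul, leadingCoeff_C, hu.leadingCoeff,
        mul_one]
  have hv0' : v ≠ 0 := by
    rw [← leadingCoeff_ne_zero, hvd.2]; exact ht0
  have hv2 : (v ^ 2).natDegree = 2 * u₁.natDegree ∧ (v ^ 2).leadingCoeff = t ^ 2 := by
    rw [natDegree_pow, leadingCoeff_pow, hvd.1, hvd.2]
    exact ⟨rfl, rfl⟩
  have hv20 : v ^ 2 ≠ 0 := pow_ne_zero 2 hv0'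
  rcases lt_or_gt_of_ne (show (v ^ 2).natDegree ≠ f.natDegree by rw [hv2.1, hd]; omega) with hlt | hlt
  · -- `2 m < 2 g + 1`
    have hdeg : (v ^ 2).degree < f.degree := (natDegree_lt_natDegree_iff hv20).1 hlt
    have h1 : (v ^ 2 - f).natDegree = 2 * g + 1 := by
      rw [natDegree_sub_eq_right_of_natDegree_lt hlt, hd]
    have h2 : (v ^ 2 - f).leadingCoeff = -1 := by
      rw [leadingCoeff_sub_of_degree_lt' hdeg, hf.leadingCoeff]
    rw [← huw] at h1 h2
    rw [leadingCoeff_mul, hu.leadingCoeff, one_mul] at h2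
    have hw0' : w ≠ 0 := by
      rw [← leadingCoeff_ne_zero, h2]; norm_num
    rw [natDegree_mul hu0 hw0'] at h1
    refine ⟨-w, v, v, ?_, ?_, ?_, ?_⟩
    · rw [Monic, leadingCoeff_neg, h2, neg_neg]
    · rw [← huw, neg_dvd]
      exact dvd_mul_left _ _
    · exact ht.neg_left
    · have h3 : sgn u₁ * sgn (-w) - v ^ 2 = -f := by
        have h4 : sgn u₁ * sgn (-w) =
            (-1) ^ (u₁.natDegree + w.natDegree) * (-(u₁ * w)) := by
          rw [sgn, sgn, natDegree_neg, pow_add]; ring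
        rw [h4, h1, huw, Odd.neg_one_pow ⟨g, rfl⟩]
        ring
      rw [h3, dvd_neg]
  · have hdeg : f.degree < (v ^ 2).degree := (natDegree_lt_natDegree_iff hf.ne_zero).1 hlt
    have h1 : (v ^ 2 - f).natDegree = 2 * u₁.natDegree := by
      rw [natDegree_sub_eq_left_of_natDegree_lt hlt, hv2.1]
    have h2 : (v ^ 2 - f).leadingCoeff = t ^ 2 := by
      rw [leadingCoeff_sub_of_degree_lt hdeg, hv2.2]
    rw [← huw] at h1 h2
    rw [leadingCoeff_mul, hu.leadingCoeff, one_mul] at h2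
    have hw0' : w ≠ 0 := by
      rw [← leadingCoeff_ne_zero, h2]; exact pow_ne_zero 2 ht0
    rw [natDegree_mul hu0 hw0'] at h1
    have ht2 : (t ^ 2)⁻¹ ≠ 0 := inv_ne_zero (pow_ne_zero 2 ht0)
    refine ⟨C (t ^ 2)⁻¹ * w, v, C t⁻¹ * v, ?_, ?_, ?_, ?_⟩
    · rw [Monic, leadingCoeff_mul, leadingCoeff_C, h2, inv_mul_cancel₀ (pow_ne_zero 2 ht0)]
    · rw [← huw]
      have h5 : C (t ^ 2)⁻¹ * w * C (t ^ 2) = w := by
        rw [mul_right_comm, ← C_mul, inv_mul_cancel₀ (pow_ne_zero 2 ht0), C_1, one_mul]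
      exact (Dvd.intro _ h5).trans (dvd_mul_left _ _)
    · exact (isCoprime_mul_unit_left_left (isUnit_C.2 ht2.isUnit) _ _).2 ht
    · have h3 : sgn u₁ * sgn (C (t ^ 2)⁻¹ * w) - (C t⁻¹ * v) ^ 2 = C (t ^ 2)⁻¹ * (-f) := by
        have h4 : sgn u₁ * sgn (C (t ^ 2)⁻¹ * w) =
            (-1) ^ (u₁.natDegree + w.natDegree) * (C (t ^ 2)⁻¹ * (u₁ * w)) := by
          rw [sgn, sgn, natDegree_C_mul ht2, pow_add]; ring
        rw [h4, h1, huw, Even.neg_one_pow ⟨u₁.natDegree, by ring⟩, mul_pow, ← C_pow, inv_pow]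
        ring
      rw [h3]
      exact (dvd_neg.2 dvd_rfl).mul_left _

lemma mk_iff (f a b : F[X]) : f ∣ a - b ↔ AdjoinRoot.mk f a = AdjoinRoot.mk f b :=
  AdjoinRoot.mk_eq_mk.symm

/-- the composition of two divisors -/
lemma two (g : ℕ) (f u₁ v₁ u₂ v₂ : F[X]) (hf : f.Monic) (hd : f.natDegree = 2 * g + 1)
    (hu : u₁.Monic) (hc : IsCoprime u₁ f) (hdv : u₁ ∣ v₁ ^ 2 - f)
    (hu' : u₂.Monic) (hc' : IsCoprime u₂ f) (hdv' : u₂ ∣ v₂ ^ 2 - f) :
    ∃ u v s : F[X], u.Monic ∧ IsCoprime u f ∧ u ∣ v ^ 2 - f ∧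
      f ∣ sgn u₁ * sgn u₂ * sgn u - s ^ 2 := by
  obtain ⟨u, v, s, h1, h2, h3, h4⟩ := move g f u₁ v₁ (f * u₂) hf hd hu hc hdv
    (mul_ne_zero hf.ne_zero hu'.ne_zero)
  have h5 : IsCoprime u f := (IsCoprime.mul_right_iff.1 h3).1
  have h6 : IsCoprime u u₂ := (IsCoprime.mul_right_iff.1 h3).2
  obtain ⟨a, b, hab⟩ := h6
  refine ⟨u * u₂, v * (b * u₂) + v₂ * (a * u), s * u₂, h1.mul hu', h5.mul_left hc', ?_, ?_⟩
  · apply IsCoprime.mul_dvd ⟨a, b, hab⟩
    · have e : (v * (b * u₂) + v₂ * (a * u)) ^ 2 - f = (v ^ 2 - f) +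
          u * (a * (v₂ - v)) * (v * (b * u₂) + v₂ * (a * u) + v) := by
        have hb : b * u₂ = 1 - a * u := by rw [← hab]; ring
        rw [hb]; ring
      rw [e]
      exact dvd_add h2 (Dvd.intro _ (by ring : u * ((a * (v₂ - v)) *
        (v * (b * u₂) + v₂ * (a * u) + v)) = _))
    · have e : (v * (b * u₂) + v₂ * (a * u)) ^ 2 - f = (v₂ ^ 2 - f) +
          u₂ * (b * (v - v₂)) * (v * (b * u₂) + v₂ * (a * u) + v₂) := by
        have hb : a * u = 1 - b * u₂ := by rw [← hab]; ring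
        rw [hb]; ring
      rw [e]
      exact dvd_add hdv' (Dvd.intro _ (by ring : u₂ * ((b * (v - v₂)) *
        (v * (b * u₂) + v₂ * (a * u) + v₂)) = _))
  · have e : sgn u₁ * sgn u₂ * sgn (u * u₂) - (s * u₂) ^ 2 =
        u₂ ^ 2 * (sgn u₁ * sgn u - s ^ 2) := by
      have e1 : sgn (u * u₂) = sgn u * sgn u₂ := by
        rw [sgn, sgn, sgn, natDegree_mul h1.ne_zero hu'.ne_zero, pow_add]; ring
      have e2 : sgn u₂ ^ 2 = u₂ ^ 2 := by
        rw [sgn, mul_pow, ← pow_mul, mul_comm _ 2, pow_mul]; norm_num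
      rw [e1]
      linear_combination (sgn u₁ * sgn u) * e2
    rw [e]
    exact h4.mul_left _

lemma isCoprime_sgn {u f : F[X]} (h : IsCoprime u f) : IsCoprime (sgn u) f := by
  have hunit : IsUnit ((-1 : F[X]) ^ u.natDegree) := (isUnit_one.neg).pow _
  exact (isCoprime_mul_unit_left_left hunit _ _).2 h

lemma many (g : ℕ) (f : F[X]) (hf : f.Monic) (hd : f.natDegree = 2 * g + 1)
    (l : List (F[X] × F[X]))
    (hl : ∀ p ∈ l, p.1.Monic ∧ IsCoprime p.1 f ∧ p.1 ∣ p.2 ^ 2 - f) :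
    ∃ u v t : F[X], u.Monic ∧ IsCoprime u f ∧ u ∣ v ^ 2 - f ∧
      f ∣ (l.map fun p => (-1) ^ p.1.natDegree * p.1).prod * sgn u - t ^ 2 := by
  induction l with
  | nil => exact ⟨1, 0, 1, monic_one, isCoprime_one_left, one_dvd _, by simp [sgn]⟩
  | cons p l ih =>
    obtain ⟨u, v, t, h1, h2, h3, h4⟩ := ih fun p hp => hl p (List.mem_cons_of_mem _ hp)
    obtain ⟨k1, k2, k3⟩ := hl p List.mem_cons_self
    obtain ⟨u', v', s, h1', h2', h3', h4'⟩ := two g f p.1 p.2 u v hf hd k1 k2 k3 h1 h2 h3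
    obtain ⟨a, b, hab⟩ := isCoprime_sgn h2
    refine ⟨u', v', t * s * a, h1', h2', h3', ?_⟩
    rw [List.map_cons, List.prod_cons]
    rw [mk_iff] at h4 h4' ⊢
    have h5 : AdjoinRoot.mk f a * AdjoinRoot.mk f (sgn u) = 1 := by
      have := congrArg (AdjoinRoot.mk f) hab
      rw [map_add, map_mul, map_mul, AdjoinRoot.mk_self, mul_zero, add_zero, map_one] at this
      exact this
    simp only [map_mul, map_pow] at h4 h4' ⊢
    have h6 : AdjoinRoot.mk f (sgn p.1) =
        AdjoinRoot.mk f (-1) ^ p.1.natDegree * AdjoinRoot.mk f p.1 := by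
      rw [sgn, map_mul, map_pow]
    rw [h6] at h4'
    set P := AdjoinRoot.mk f (List.map (fun p => (-1) ^ p.1.natDegree * p.1) l).prod
    linear_combination (-(P * (AdjoinRoot.mk f (-1) ^ p.1.natDegree * AdjoinRoot.mk f p.1) *
      AdjoinRoot.mk f (sgn u')) * (1 + AdjoinRoot.mk f a * AdjoinRoot.mk f (sgn u))) * h5 +
      (AdjoinRoot.mk f a) ^ 2 * ((AdjoinRoot.mk f (-1) ^ p.1.natDegree * AdjoinRoot.mk f p.1) *
        AdjoinRoot.mk f (sgn u) * AdjoinRoot.mk f (sgn u')) * h4 +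
      (AdjoinRoot.mk f a) ^ 2 * (AdjoinRoot.mk f t) ^ 2 * h4'

theorem cant (g : ℕ) (f h : F[X]) (hf : f.Monic) (hd : f.natDegree = 2 * g + 1) (hL : LocIm F f h) :
    ∃ u v s : F[X], u.Monic ∧ IsCoprime u f ∧
    u ∣ v ^ 2 - f ∧ f ∣ h * ((-1) ^ u.natDegree * u) - s ^ 2 := by
  obtain ⟨l, s, hl, hs⟩ := hL
  obtain ⟨u, v, t, h1, h2, h3, h4⟩ := many g f hf hd l hl
  have hP : IsCoprime (l.map fun p => (-1) ^ p.1.natDegree * p.1).prod f := by
    apply IsCoprime.symm
    have : ∀ l : List (F[X] × F[X]), (∀ p ∈ l, IsCoprime p.1 f) →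
        IsCoprime f (l.map fun p => (-1) ^ p.1.natDegree * p.1).prod := by
      intro l
      induction l with
      | nil => intro _; exact isCoprime_one_right
      | cons p l ih =>
        intro hl
        rw [List.map_cons, List.prod_cons]
        exact IsCoprime.mul_right (isCoprime_sgn (hl p List.mem_cons_self)).symm
          (ih fun p hp => hl p (List.mem_cons_of_mem _ hp))
    exact this l fun p hp => (hl p hp).2.1
  obtain ⟨a, b, hab⟩ := hP
  refine ⟨u, v, s * t * a, h1, h2, h3, ?_⟩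
  set P := (l.map fun p => (-1) ^ p.1.natDegree * p.1).prod
  change f ∣ h * sgn u - _
  rw [mk_iff] at hs h4 ⊢
  have h5 : AdjoinRoot.mk f a * AdjoinRoot.mk f P = 1 := by
    have := congrArg (AdjoinRoot.mk f) hab
    rw [map_add, map_mul, map_mul, AdjoinRoot.mk_self, mul_zero, add_zero, map_one] at this
    exact this
  simp only [map_mul, map_pow] at hs h4 ⊢
  linear_combination (-(AdjoinRoot.mk f h * AdjoinRoot.mk f (sgn u)) *
      (1 + AdjoinRoot.mk f a * AdjoinRoot.mk f P)) * h5 +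
    (AdjoinRoot.mk f a) ^ 2 * (AdjoinRoot.mk f P * AdjoinRoot.mk f (sgn u)) * hs +
    (AdjoinRoot.mk f a) ^ 2 * (AdjoinRoot.mk f s) ^ 2 * h4


end cant

section hsp

open Module

variable {F : Type} [Field F] {m : ℕ}

/-- hyperbolic planes -/
lemma exists_dual [NeZero (2 : F)] {g : ℕ} {G : Matrix (Fin m) (Fin m) F} (hG : G.IsSymm)
    (hdet : G.det ≠ 0) (z : Fin g → Fin m → F) (hz : LinearIndependent F z)
    (hzz : ∀ i j, z i ⬝ᵥ (G *ᵥ z j) = 0) :
    ∃ y : Fin g → Fin m → F, (∀ i j, z i ⬝ᵥ (G *ᵥ y j) = if i = j then 1 else 0) ∧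
      ∀ i j, y i ⬝ᵥ (G *ᵥ y j) = 0 := by
  obtain ⟨Z, hZ⟩ : ∃ Z : Matrix (Fin m) (Fin g) F, Z = Matrix.of fun a i => z i a := ⟨_, rfl⟩
  have hcolZ : ∀ i, (fun a => Z a i) = z i := fun i => by rw [hZ]; rfl
  have hinj : LinearMap.ker (Matrix.toLin' Z) = ⊥ := by
    rw [LinearMap.ker_eq_bot']
    intro c hc
    rw [Matrix.toLin'_apply] at hc
    have h1 : ∑ i, c i • z i = 0 := by
      rw [← hc]
      ext a
      rw [Finset.sum_apply, Matrix.mulVec, dotProduct]
      refine Finset.sum_congr rfl fun i _ => ?_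
      rw [Pi.smul_apply, smul_eq_mul, hZ, Matrix.of_apply, mul_comm]
    exact funext (Fintype.linearIndependent_iff.1 hz c h1)
  obtain ⟨U', hU'⟩ := (Matrix.toLin' Z).exists_leftInverse_of_injective hinj
  obtain ⟨U, hU⟩ : ∃ U : Matrix (Fin g) (Fin m) F, U * Z = 1 := by
    refine ⟨LinearMap.toMatrix' U', ?_⟩
    have h1 := congrArg LinearMap.toMatrix' hU'
    rw [LinearMap.toMatrix'_comp, LinearMap.toMatrix'_toLin', LinearMap.toMatrix'_id] at h1
    exact h1
  have hGu : IsUnit G.det := isUnit_iff_ne_zero.2 hdet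
  have hZZ : Zᵀ * G * Z = 0 := by
    ext i j
    rw [Pool.Agent.N878.PQ.gram_apply, hcolZ, hcolZ, hzz, Matrix.zero_apply]
  have hZY : Zᵀ * G * (G⁻¹ * Uᵀ) = 1 := by
    rw [Matrix.mul_assoc, Matrix.mul_nonsing_inv_cancel_left _ _ hGu, ← Matrix.transpose_mul, hU,
      Matrix.transpose_one]
  obtain ⟨Y, hY⟩ : ∃ Y : Matrix (Fin m) (Fin g) F, Y = G⁻¹ * Uᵀ := ⟨_, rfl⟩
  rw [← hY] at hZY
  have hYZ : Yᵀ * G * Z = 1 := by
    have h1 := congrArg Matrix.transpose hZY
    rw [Matrix.transpose_mul, Matrix.transpose_mul, Matrix.transpose_transpose, hG.eq,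
      Matrix.transpose_one, ← Matrix.mul_assoc] at h1
    exact h1
  obtain ⟨S, hS⟩ : ∃ S, S = Yᵀ * G * Y := ⟨_, rfl⟩
  have hSt : Sᵀ = S := by
    rw [hS, Matrix.transpose_mul, Matrix.transpose_mul, Matrix.transpose_transpose, hG.eq,
      ← Matrix.mul_assoc]
  obtain ⟨Y', hY'⟩ : ∃ Y', Y' = Y - (2⁻¹ : F) • (Z * S) := ⟨_, rfl⟩
  have h1 : Zᵀ * G * Y' = 1 := by
    rw [hY', Matrix.mul_sub, hZY, Matrix.mul_smul, ← Matrix.mul_assoc, hZZ, Matrix.zero_mul,
      smul_zero, sub_zero]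
  have h2 : Y'ᵀ * G * Y' = 0 := by
    have h3 : Yᵀ * G * Y' = (2⁻¹ : F) • S := by
      rw [hY', Matrix.mul_sub, ← hS, Matrix.mul_smul, ← Matrix.mul_assoc, hYZ, Matrix.one_mul]
      rw [sub_eq_iff_eq_add, ← add_smul, ← two_mul, mul_inv_cancel₀ (two_ne_zero (α := F)), one_smul]
    have h4 : Y'ᵀ = Yᵀ - (2⁻¹ : F) • (S * Zᵀ) := by
      rw [hY', Matrix.transpose_sub, Matrix.transpose_smul, Matrix.transpose_mul, hSt]
    rw [h4, Matrix.sub_mul, Matrix.sub_mul, h3, Matrix.smul_mul, Matrix.smul_mul, Matrix.mul_assoc,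
      Matrix.mul_assoc, ← Matrix.mul_assoc Zᵀ, h1, Matrix.mul_one, sub_self]
  refine ⟨fun i a => Y' a i, fun i j => ?_, fun i j => ?_⟩
  · have h3 := congrFun (congrFun h1 i) j
    rw [Pool.Agent.N878.PQ.gram_apply, hcolZ, Matrix.one_apply] at h3
    exact h3
  · have h3 := congrFun (congrFun h2 i) j
    rw [Pool.Agent.N878.PQ.gram_apply, Matrix.zero_apply] at h3
    exact h3

/-- the vectors of the diagonal basis -/
def ww {g : ℕ} (z y : Fin g → Fin (2 * g + 1) → F) (e : Fin (2 * g + 1) → F)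
    (j : Fin (2 * g + 1)) : Fin (2 * g + 1) → F :=
  if h : (j : ℕ) < 2 * g then
    z ⟨(j : ℕ) / 2, by omega⟩ + ((-1) ^ (j : ℕ) / 2 : F) • y ⟨(j : ℕ) / 2, by omega⟩
  else e

/-- the diagonal entries -/
def dg (g : ℕ) (c : F) (j : Fin (2 * g + 1)) : F := if (j : ℕ) < 2 * g then (-1) ^ (j : ℕ) else c

lemma dg_prod (g : ℕ) (c : F) : ∏ j, dg g c j = (-1) ^ g * c := by
  rw [Fin.prod_univ_castSucc]
  have h1 : dg g c (Fin.last (2 * g)) = c := by
    unfold dg
    rw [Fin.val_last, if_neg (lt_irrefl _)]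
  have h2 : ∏ i : Fin (2 * g), dg g c i.castSucc = ∏ i : Fin (2 * g), (-1 : F) ^ (i : ℕ) := by
    refine Finset.prod_congr rfl fun i _ => ?_
    unfold dg
    rw [Fin.val_castSucc, if_pos i.2]
  have h3 : ∀ k : ℕ, ∏ i ∈ Finset.range (2 * k), (-1 : F) ^ i = (-1) ^ k := by
    intro k
    induction k with
    | zero => simp
    | succ k ih =>
      rw [show 2 * (k + 1) = 2 * k + 1 + 1 by ring, Finset.prod_range_succ,
        Finset.prod_range_succ, ih, pow_succ (-1 : F) (2 * k), pow_mul, neg_one_sq, one_pow,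
        pow_succ]
      ring
  rw [h1, h2, Fin.prod_univ_eq_prod_range (fun i => (-1 : F) ^ i) (2 * g), h3]

lemma ww_gram [NeZero (2 : F)] {g : ℕ} {G : Matrix (Fin (2 * g + 1)) (Fin (2 * g + 1)) F}
    (hG : G.IsSymm) {z y : Fin g → Fin (2 * g + 1) → F}
    (hzz : ∀ i j, z i ⬝ᵥ (G *ᵥ z j) = 0)
    (hzy : ∀ i j, z i ⬝ᵥ (G *ᵥ y j) = if i = j then 1 else 0)
    (hyy : ∀ i j, y i ⬝ᵥ (G *ᵥ y j) = 0) {e : Fin (2 * g + 1) → F}
    (hze : ∀ i, z i ⬝ᵥ (G *ᵥ e) = 0) (hye : ∀ i, y i ⬝ᵥ (G *ᵥ e) = 0)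
    (j k : Fin (2 * g + 1)) :
    ww z y e j ⬝ᵥ (G *ᵥ ww z y e k) = if j = k then dg g (e ⬝ᵥ (G *ᵥ e)) j else 0 := by
  have hyz : ∀ i j, y i ⬝ᵥ (G *ᵥ z j) = if i = j then 1 else 0 := by
    intro i j
    rw [symm_dot hG, hzy]
    simp only [eq_comm]
  have hez : ∀ i, e ⬝ᵥ (G *ᵥ z i) = 0 := fun i => by rw [symm_dot hG, hze]
  have hey : ∀ i, e ⬝ᵥ (G *ᵥ y i) = 0 := fun i => by rw [symm_dot hG, hye]
  unfold ww dg
  by_cases hj : (j : ℕ) < 2 * g <;> by_cases hk : (k : ℕ) < 2 * g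
  · rw [dif_pos hj, dif_pos hk, if_pos hj]
    simp only [Matrix.mulVec_add, Matrix.mulVec_smul, dotProduct_add, add_dotProduct,
      smul_dotProduct, dotProduct_smul, hzz, hzy, hyy, hyz, smul_eq_mul, mul_zero, add_zero,
      zero_add, Fin.mk.injEq]
    by_cases hjk : j = k
    · subst hjk
      simp only [if_true]
      have h2i : (2 : F)⁻¹ * 2 = 1 := inv_mul_cancel₀ (two_ne_zero (α := F))
      linear_combination ((-1 : F) ^ (j : ℕ)) * h2i
    · rw [if_neg hjk]
      have hjk' : (j : ℕ) ≠ k := fun h => hjk (Fin.ext h)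
      by_cases h2 : (j : ℕ) / 2 = (k : ℕ) / 2
      · rw [if_pos h2, mul_one, mul_one]
        rcases Nat.even_or_odd (j : ℕ) with h3 | h3
        · have h4 : Odd (k : ℕ) := by
            rw [Nat.even_iff] at h3
            rw [Nat.odd_iff]
            omega
          rw [h3.neg_one_pow, h4.neg_one_pow]
          ring
        · have h4 : Even (k : ℕ) := by
            rw [Nat.odd_iff] at h3
            rw [Nat.even_iff]
            omega
          rw [h3.neg_one_pow, h4.neg_one_pow]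
          ring
      · rw [if_neg h2]
        ring
  · have hjk : j ≠ k := fun h => hk (h ▸ hj)
    rw [dif_pos hj, dif_neg hk, if_neg hjk]
    simp only [add_dotProduct, smul_dotProduct, hze, hye, smul_zero, add_zero]
  · have hjk : j ≠ k := fun h => hj (h ▸ hk)
    rw [dif_neg hj, dif_pos hk, if_neg hjk]
    simp only [Matrix.mulVec_add, Matrix.mulVec_smul, dotProduct_add, dotProduct_smul, hez, hey,
      smul_zero, add_zero]
  · have hjk : j = k := by
      apply Fin.ext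
      have := j.2
      have := k.2
      omega
    rw [dif_neg hj, dif_neg hk, if_pos hjk, if_neg hj]

lemma exists_ker {g : ℕ} (G : Matrix (Fin (2 * g + 1)) (Fin (2 * g + 1)) F)
    (z y : Fin g → Fin (2 * g + 1) → F) :
    ∃ e : Fin (2 * g + 1) → F, e ≠ 0 ∧ (∀ i, z i ⬝ᵥ (G *ᵥ e) = 0) ∧
      ∀ i, y i ⬝ᵥ (G *ᵥ e) = 0 := by
  obtain ⟨A, hA⟩ : ∃ A : Matrix (Fin g ⊕ Fin g) (Fin (2 * g + 1)) F,
      A = Matrix.of (Sum.elim z y) * G := ⟨_, rfl⟩
  have h1 : LinearMap.ker (Matrix.toLin' A) ≠ ⊥ := by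
    apply LinearMap.ker_ne_bot_of_finrank_lt
    rw [Module.finrank_fintype_fun_eq_card, Module.finrank_fintype_fun_eq_card, Fintype.card_sum,
      Fintype.card_fin, Fintype.card_fin]
    omega
  obtain ⟨e, he, he0⟩ := (Submodule.ne_bot_iff _).1 h1
  rw [LinearMap.mem_ker, Matrix.toLin'_apply, hA, ← Matrix.mulVec_mulVec] at he
  refine ⟨e, he0, fun i => congrFun he (Sum.inl i), fun i => congrFun he (Sum.inr i)⟩

theorem hsp_core [NeZero (2 : F)] (g : ℕ) (G : Matrix (Fin (2 * g + 1)) (Fin (2 * g + 1)) F)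
    (hG : G.IsSymm) (hsq : IsSquare ((-1) ^ g * G.det)) (hdet : G.det ≠ 0)
    (z : Fin g → Fin (2 * g + 1) → F) (hz : LinearIndependent F z)
    (hzz : ∀ i j, z i ⬝ᵥ (G *ᵥ z j) = 0) :
    ∃ T : Matrix (Fin (2 * g + 1)) (Fin (2 * g + 1)) F,
      T * Matrix.diagonal (dg g (1 : F)) * Tᵀ = G := by
  obtain ⟨y, hzy, hyy⟩ := exists_dual hG hdet z hz hzz
  obtain ⟨e, he, hze, hye⟩ := exists_ker G z y
  obtain ⟨P, hP⟩ : ∃ P : Matrix (Fin (2 * g + 1)) (Fin (2 * g + 1)) F,
      P = Matrix.of fun a j => ww z y e j a := ⟨_, rfl⟩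
  have hcol : ∀ j, (fun a => P a j) = ww z y e j := fun j => by rw [hP]; rfl
  obtain ⟨c, hc⟩ : ∃ c, c = e ⬝ᵥ (G *ᵥ e) := ⟨_, rfl⟩
  have hPG : Pᵀ * G * P = Matrix.diagonal (dg g c) := by
    ext j k
    rw [Pool.Agent.N878.PQ.gram_apply, hcol, hcol, ww_gram hG hzz hzy hyy hze hye, Matrix.diagonal_apply, hc]
  have hdetP : P.det ≠ 0 := by
    intro h0
    obtain ⟨v, hv0, hv⟩ := Matrix.exists_mulVec_eq_zero_iff.2 h0
    have h1 : Matrix.diagonal (dg g c) *ᵥ v = 0 := by
      rw [← hPG, ← Matrix.mulVec_mulVec, hv, Matrix.mulVec_zero]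
    have h2 : ∀ j : Fin (2 * g + 1), (j : ℕ) < 2 * g → v j = 0 := by
      intro j hj
      have h3 := congrFun h1 j
      rw [Matrix.mulVec_diagonal, Pi.zero_apply] at h3
      rcases mul_eq_zero.1 h3 with h4 | h4
      · exfalso
        unfold dg at h4
        rw [if_pos hj] at h4
        exact pow_ne_zero _ (by norm_num) h4
      · exact h4
    have h3 : v (Fin.last (2 * g)) • e = 0 := by
      rw [← hv]
      ext a
      rw [Matrix.mulVec, dotProduct, Fin.sum_univ_castSucc]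
      have h4 : ∑ i : Fin (2 * g), P a i.castSucc * v i.castSucc = 0 := by
        refine Finset.sum_eq_zero fun i _ => ?_
        rw [h2 i.castSucc (by rw [Fin.val_castSucc]; exact i.2), mul_zero]
      have h5 : P a (Fin.last (2 * g)) = e a := by
        rw [hP, Matrix.of_apply, ww, dif_neg (by rw [Fin.val_last]; exact lt_irrefl _)]
      rw [h4, zero_add, h5, Pi.smul_apply, smul_eq_mul, mul_comm]
    have h4 : v (Fin.last (2 * g)) = 0 := (smul_eq_zero.1 h3).resolve_right he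
    apply hv0
    ext j
    by_cases hj : (j : ℕ) < 2 * g
    · exact h2 j hj
    · have : j = Fin.last (2 * g) := by
        apply Fin.ext
        rw [Fin.val_last]
        have := j.2
        omega
      rw [this, h4, Pi.zero_apply]
  obtain ⟨r, hr⟩ := hsq
  have hcs : c = (r * P.det) * (r * P.det) := by
    have h1 := congrArg Matrix.det hPG
    rw [Matrix.det_mul, Matrix.det_mul, Matrix.det_transpose, Matrix.det_diagonal, dg_prod] at h1
    have h2 : ((-1 : F) ^ g) * (-1) ^ g = 1 := by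
      rw [← mul_pow]
      norm_num
    calc c = ((-1 : F) ^ g * (-1) ^ g) * c := by rw [h2, one_mul]
      _ = (-1) ^ g * ((-1) ^ g * c) := by ring
      _ = (-1) ^ g * (P.det * G.det * P.det) := by rw [h1]
      _ = ((-1) ^ g * G.det) * (P.det * P.det) := by ring
      _ = _ := by rw [hr]; ring
  have hs0 : r * P.det ≠ 0 := by
    refine mul_ne_zero ?_ hdetP
    rintro rfl
    rw [mul_zero] at hr
    rcases mul_eq_zero.1 hr with h | h
    · exact pow_ne_zero _ (by norm_num) h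
    · exact hdet h
  obtain ⟨s, hs⟩ : ∃ s, s = r * P.det := ⟨_, rfl⟩
  rw [← hs] at hcs hs0
  obtain ⟨e', he'⟩ : ∃ e', e' = s⁻¹ • e := ⟨_, rfl⟩
  have hze' : ∀ i, z i ⬝ᵥ (G *ᵥ e') = 0 := fun i => by
    rw [he', Matrix.mulVec_smul, dotProduct_smul, hze, smul_zero]
  have hye' : ∀ i, y i ⬝ᵥ (G *ᵥ e') = 0 := fun i => by
    rw [he', Matrix.mulVec_smul, dotProduct_smul, hye, smul_zero]
  have hee' : e' ⬝ᵥ (G *ᵥ e') = 1 := by
    rw [he', Matrix.mulVec_smul, dotProduct_smul, smul_dotProduct, ← hc, hcs, smul_eq_mul,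
      smul_eq_mul]
    field_simp
  obtain ⟨Q, hQ⟩ : ∃ Q : Matrix (Fin (2 * g + 1)) (Fin (2 * g + 1)) F,
      Q = Matrix.of fun a j => ww z y e' j a := ⟨_, rfl⟩
  have hcolQ : ∀ j, (fun a => Q a j) = ww z y e' j := fun j => by rw [hQ]; rfl
  have hQG : Qᵀ * G * Q = Matrix.diagonal (dg g 1) := by
    ext j k
    rw [Pool.Agent.N878.PQ.gram_apply, hcolQ, hcolQ, ww_gram hG hzz hzy hyy hze' hye', Matrix.diagonal_apply, hee']
  have hQdet : IsUnit Q.det := by
    rw [isUnit_iff_ne_zero]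
    intro h0
    have h1 := congrArg Matrix.det hQG
    rw [Matrix.det_mul, h0, mul_zero, Matrix.det_diagonal, dg_prod, mul_one] at h1
    exact pow_ne_zero _ (by norm_num) h1.symm
  refine ⟨(Q⁻¹)ᵀ, ?_⟩
  rw [← hQG, Matrix.transpose_transpose, ← Matrix.mul_assoc, ← Matrix.mul_assoc,
    ← Matrix.transpose_mul, Matrix.mul_nonsing_inv _ hQdet, Matrix.transpose_one, Matrix.one_mul,
    Matrix.mul_assoc, Matrix.mul_nonsing_inv _ hQdet, Matrix.mul_one]


end hsp

theorem gram {F : Type} [Field F] {g : ℕ} {f h : F[X]} (hf : f.Monic) (hd : f.natDegree = 2 * g + 1)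
    (P Q : F[X]) : vc g f P ⬝ᵥ (Gm g f h *ᵥ vc g f Q) = tp g f (h * P * Q) :=
  Pool.Agent.N271.PQ.gram hf hd P Q

theorem det_Gm {F : Type} [Field F] {g : ℕ} {f h : F[X]} (hf : f.Monic) (hd : f.natDegree = 2 * g + 1) :
    (Gm g f h).det = (-1) ^ g * Algebra.norm F (AdjoinRoot.mk f h) :=
  Pool.Agent.N271.PQ.det_Gm hf hd

/-- A class in the image of the Jacobian gives the standard form. -/
theorem frm {F : Type} [Field F] [Infinite F] [NeZero (2 : F)] {g : ℕ} {f h : F[X]} (hf : f.Monic)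
    (hd : f.natDegree = 2 * g + 1) (hcop : IsCoprime h f)
    (hsq : IsSquare (Algebra.norm F (AdjoinRoot.mk f h))) (hloc : LocIm F f h) :
    ∃ T : Mt g F, T * Matrix.diagonal (sg g) * Tᵀ = Gm g f h := by
  obtain ⟨u, v, s, hu, huf, huv, hs⟩ := cant g f h hf hd hloc
  obtain ⟨z, hz1, hz2⟩ := Pool.Agent.N488.PQ.spl_main hf hd huf huv
  obtain ⟨u', hu'⟩ : ∃ u', u' = (-1) ^ u.natDegree * u := ⟨_, rfl⟩
  rw [← hu'] at hs
  have hz1' : ∀ i j, tp g f (u' * z i * z j) = 0 := by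
    intro i j
    rw [hu']
    exact hz1 i j
  have huf' : IsCoprime u' f := by
    rw [hu']
    apply IsCoprime.mul_left _ huf
    refine ⟨(-1) ^ u.natDegree, 0, ?_⟩
    rw [← mul_pow, neg_one_mul, neg_neg, one_pow, zero_mul, add_zero]
  obtain ⟨w, hw⟩ := hs
  -- `s` is prime to `f`
  have hsf : IsCoprime s f := by
    have e1 : IsCoprime (h * u') f := hcop.mul_left huf'
    have e2 : s ^ 2 = h * u' + f * (-w) := by linear_combination -hw
    have e3 : IsCoprime (s ^ 2) f := by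
      rw [e2]
      exact e1.add_mul_left_left (-w)
    exact (IsCoprime.pow_left_iff two_pos).1 e3
  obtain ⟨t, b, htb⟩ := hsf
  -- the unit
  have htf : IsCoprime t f := ⟨s, b, by linear_combination htb⟩
  have hnorm : (Gm g f h).det ≠ 0 := by
    rw [det_Gm hf hd]
    apply mul_ne_zero (pow_ne_zero _ (neg_ne_zero.2 one_ne_zero))
    obtain ⟨a, c, hac⟩ := hcop
    have e1 : AdjoinRoot.mk f a * AdjoinRoot.mk f h = 1 := by
      rw [← map_mul, ← map_one (AdjoinRoot.mk f), AdjoinRoot.mk_eq_mk]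
      exact ⟨-c, by linear_combination hac⟩
    have e2 : Algebra.norm F (AdjoinRoot.mk f a) * Algebra.norm F (AdjoinRoot.mk f h) = 1 := by
      rw [← map_mul, e1, map_one]
    exact right_ne_zero_of_mul_eq_one e2
  have hsym : (Gm g f h).IsSymm := by
    ext i j
    unfold Gm
    rw [Matrix.transpose_apply, Matrix.of_apply, Matrix.of_apply, add_comm (j : ℕ)]
  have hsq' : IsSquare ((-1) ^ g * (Gm g f h).det) := by
    rw [det_Gm hf hd, ← mul_assoc, ← mul_pow, neg_one_mul, neg_neg, one_pow, one_mul]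
    exact hsq
  have hlag : ∃ z : Fin g → Fin (2 * g + 1) → F, LinearIndependent F z ∧
      ∀ i j, z i ⬝ᵥ (Gm g f h *ᵥ z j) = 0 := by
    refine ⟨fun i => vc g f (z i * (u' * t)), ?_, ?_⟩
    · rw [Fintype.linearIndependent_iff]
      intro c hc i
      have e1 : (∑ i, C (c i) * (z i * (u' * t))) %ₘ f = 0 := by
        have e0 : ∀ P : F[X], P %ₘ f = modByMonicHom f P := fun P => rfl
        rw [e0, map_sum]
        have e4 : ∀ i, modByMonicHom f (C (c i) * (z i * (u' * t))) =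
            c i • ((z i * (u' * t)) %ₘ f) := by
          intro i
          rw [← smul_eq_C_mul, map_smul]
          rfl
        rw [Finset.sum_congr rfl fun i _ => e4 i]
        ext m
        rw [finset_sum_coeff, coeff_zero]
        by_cases hm : m < 2 * g + 1
        · have e5 := congrFun hc ⟨m, hm⟩
          rw [Finset.sum_apply] at e5
          rw [Pi.zero_apply] at e5
          rw [← e5]
          refine Finset.sum_congr rfl fun i _ => ?_
          rw [coeff_smul, Pi.smul_apply]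
          rfl
        · apply Finset.sum_eq_zero
          intro i _
          rw [coeff_smul]
          have e6 : ((z i * (u' * t)) %ₘ f).coeff m = 0 := by
            apply coeff_eq_zero_of_degree_lt
            refine lt_of_lt_of_le (degree_modByMonic_lt _ hf) ?_
            rw [degree_eq_natDegree hf.ne_zero, hd]
            exact_mod_cast (by omega : 2 * g + 1 ≤ m)
          rw [e6, smul_zero]
      have e2 : f ∣ (∑ i, C (c i) * z i) * (u' * t) := by
        rw [← modByMonic_eq_zero_iff_dvd hf, Finset.sum_mul, ← e1]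
        congr 1
        refine Finset.sum_congr rfl fun i _ => ?_
        ring
      have e3 : IsCoprime f (u' * t) := (huf'.mul_left htf).symm
      have e4 := hz2 c (e3.dvd_of_dvd_mul_right e2)
      rw [e4, Pi.zero_apply]
    · intro i j
      rw [gram hf hd, ← hz1' i j]
      apply tp_congr hf
      -- `h u' ^ 2 t ^ 2 z z' = u' z z'` modulo `f`
      refine ⟨u' * z i * z j * (w * t ^ 2 - b * (t * s + 1)), ?_⟩
      linear_combination (u' * z i * z j * t ^ 2) * hw + (u' * z i * z j * (t * s + 1)) * htb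
  obtain ⟨z', hz', hzz'⟩ := hlag
  exact hsp_core g (Gm g f h) hsym hsq' hnorm z' hz' hzz'


/-- A class in the image of the Jacobian gives a form which is isometric to that of `1`. -/
theorem isom {E : Type} [Field E] [Infinite E] [NeZero (2 : E)] {g : ℕ} {f h : E[X]} (hf : f.Monic)
    (hd : f.natDegree = 2 * g + 1) (hcop : IsCoprime h f)
    (hsq : IsSquare (Algebra.norm E (AdjoinRoot.mk f h))) (hloc : LocIm E f h) :
    ∃ T : Mt g E, T * Gm g f h * Tᵀ = Gm g f 1 := by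
  obtain ⟨T2, h2⟩ := frm hf hd hcop hsq hloc
  have hn1 : Algebra.norm E (AdjoinRoot.mk f 1) = 1 := by rw [map_one, map_one]
  obtain ⟨T1, h1⟩ := frm (h := 1) hf hd isCoprime_one_left
    (by rw [hn1]; exact ⟨1, (one_mul 1).symm⟩) ⟨[], 1, by simp, by simp⟩
  have hnorm : (Gm g f h).det ≠ 0 := by
    rw [det_Gm hf hd]
    apply mul_ne_zero (pow_ne_zero _ (neg_ne_zero.2 one_ne_zero))
    obtain ⟨a, c, hac⟩ := hcop
    have e1 : AdjoinRoot.mk f a * AdjoinRoot.mk f h = 1 := by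
      rw [← map_mul, ← map_one (AdjoinRoot.mk f), AdjoinRoot.mk_eq_mk]
      exact ⟨-c, by linear_combination hac⟩
    have e2 : Algebra.norm E (AdjoinRoot.mk f a) * Algebra.norm E (AdjoinRoot.mk f h) = 1 := by
      rw [← map_mul, e1, map_one]
    exact right_ne_zero_of_mul_eq_one e2
  have hdet : IsUnit T2.det := by
    have e := congrArg Matrix.det h2
    rw [Matrix.det_mul, Matrix.det_mul] at e
    rw [isUnit_iff_ne_zero]
    intro h0
    rw [h0, zero_mul, zero_mul] at e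
    exact hnorm e.symm
  refine ⟨T1 * T2⁻¹, ?_⟩
  rw [← h1, ← h2, Matrix.transpose_mul]
  have e1 : T2⁻¹ * T2 = 1 := Matrix.nonsing_inv_mul T2 hdet
  have e2 : T2ᵀ * T2⁻¹ᵀ = 1 := by rw [← Matrix.transpose_mul, e1, Matrix.transpose_one]
  calc T1 * T2⁻¹ * (T2 * diagonal (sg g) * T2ᵀ) * (T2⁻¹ᵀ * T1ᵀ)
      = T1 * (T2⁻¹ * T2) * diagonal (sg g) * (T2ᵀ * T2⁻¹ᵀ) * T1ᵀ := by
        simp only [Matrix.mul_assoc]
    _ = _ := by rw [e1, e2, Matrix.mul_one, Matrix.mul_one]

theorem Gm_map {K E : Type} [Field K] [Field E] (φ : K →+* E) (g : ℕ) {f : K[X]} (hf : f.Monic)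
    (h : K[X]) : Gm g (f.map φ) (h.map φ) = (Gm g f h).map φ := by
  ext i j
  rw [Matrix.map_apply]
  unfold Gm
  rw [Matrix.of_apply, Matrix.of_apply, ← Polynomial.coeff_map, Polynomial.map_modByMonic _ hf,
    Polynomial.map_mul, Polynomial.map_pow, Polynomial.map_X]

theorem isom_map {K E : Type} [Field K] [Field E] [Infinite E] [NeZero (2 : E)] (φ : K →+* E) {g : ℕ}
    {f h : K[X]} (hf : f.Monic) (hd : f.natDegree = 2 * g + 1) (hcop : IsCoprime h f)
    (hsq : IsSquare (Algebra.norm K (AdjoinRoot.mk f h))) (hloc : LocIm E (f.map φ) (h.map φ)) :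
    ∃ T : Mt g E, T * (Gm g f h).map φ * Tᵀ = (Gm g f 1).map φ := by
  have hf' : (f.map φ).Monic := hf.map φ
  have hd' : (f.map φ).natDegree = 2 * g + 1 := by rw [hf.natDegree_map, hd]
  have e : Algebra.norm E (AdjoinRoot.mk (f.map φ) (h.map φ)) =
      φ (Algebra.norm K (AdjoinRoot.mk f h)) := by
    have e1 := det_Gm (h := h.map φ) hf' hd'
    rw [Gm_map φ g hf, ← RingHom.mapMatrix_apply, ← RingHom.map_det, det_Gm hf hd, map_mul,
      map_pow, map_neg, map_one] at e1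
    exact (mul_left_cancel₀ (pow_ne_zero g (neg_ne_zero.2 one_ne_zero)) e1).symm
  have hcop' : IsCoprime (h.map φ) (f.map φ) := hcop.map (Polynomial.mapRingHom φ)
  obtain ⟨T, hT⟩ := isom hf' hd' hcop' (by rw [e]; exact hsq.map φ) hloc
  refine ⟨T, ?_⟩
  have e2 := Gm_map φ g hf 1
  rw [Polynomial.map_one] at e2
  rw [← e2, ← Gm_map φ g hf h, ← hT]

section apx

variable {R F : Type} [CommRing R] [IsDedekindDomain R] [Field F] [Algebra R F]
  [IsFractionRing R F] (w : HeightOneSpectrum R)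

theorem vx (x : F) : Valued.v (Γ₀ := WithZero (Multiplicative ℤ))
    (algebraMap F (w.adicCompletion F) x) = w.valuation F x :=
  HeightOneSpectrum.adicCompletion.valued_coe F w x

/-- Small balls are neighbourhoods of zero. -/
theorem ball (k : ℕ) : {x : w.adicCompletion F |
    Valued.v (Γ₀ := WithZero (Multiplicative ℤ)) x ≤ WithZero.exp (-(k : ℤ))} ∈
      𝓝 (0 : w.adicCompletion F) := by
  obtain ⟨π, hπ⟩ := w.valuation_exists_uniformizer F
  have hv : Valued.v (Γ₀ := WithZero (Multiplicative ℤ)) (algebraMap F (w.adicCompletion F) (π ^ k)) =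
      WithZero.exp (-(k : ℤ)) := by
    rw [vx, map_pow, hπ, ← WithZero.exp_nsmul]
    congr 1
    simp
  have hne : (Valued.v (R := w.adicCompletion F)).restrict
      (algebraMap F (w.adicCompletion F) (π ^ k)) ≠ 0 := by
    rw [Valuation.ne_zero_iff]
    intro h0
    rw [h0, map_zero] at hv
    exact WithZero.exp_ne_zero hv.symm
  rw [Valued.mem_nhds_zero]
  refine ⟨Units.mk0 _ hne, fun x hx => ?_⟩
  have hx' : Valued.v x < Valued.v (algebraMap F (w.adicCompletion F) (π ^ k)) :=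
    (Valuation.restrict_lt_iff _).1 hx
  rw [hv] at hx'
  exact hx'.le

/-- Approximation of an isometry. -/
theorem apx {ι : Type} [Fintype ι] (A B : Matrix ι ι F) (T : Matrix ι ι (w.adicCompletion F))
    (hT : T * A.map (algebraMap F (w.adicCompletion F)) * Tᵀ =
      B.map (algebraMap F (w.adicCompletion F))) (k : ℕ) :
    ∃ T : Matrix ι ι F, ∀ i j, w.valuation F ((T * A * Tᵀ) i j - B i j) ≤ exp (-(k : ℤ)) := by
  set φ := algebraMap F (w.adicCompletion F) with hφ
  have hU : {T' : Matrix ι ι (w.adicCompletion F) | ∀ i j,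
      (T' * A.map φ * T'ᵀ) i j - φ (B i j) ∈ {x : w.adicCompletion F |
        Valued.v (Γ₀ := WithZero (Multiplicative ℤ)) x ≤ WithZero.exp (-(k : ℤ))}} ∈ 𝓝 T := by
    refine Filter.eventually_all.2 fun i => Filter.eventually_all.2 fun j => ?_
    have hc : Continuous fun T' : Matrix ι ι (w.adicCompletion F) =>
        (T' * A.map φ * T'ᵀ) i j - φ (B i j) :=
      (((continuous_id.matrix_mul continuous_const).matrix_mul
        continuous_id.matrix_transpose).matrix_elem i j).sub continuous_const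
    refine hc.continuousAt.preimage_mem_nhds ?_
    rw [hT, Matrix.map_apply, sub_self]
    exact ball w k
  have hd : DenseRange (fun T₀ : Matrix ι ι F => T₀.map φ) :=
    DenseRange.piMap fun i => DenseRange.piMap fun j => HeightOneSpectrum.denseRange_algebraMap F w
  obtain ⟨T₀, hT₀⟩ := hd.mem_nhds hU
  refine ⟨T₀, fun i j => ?_⟩
  have e := hT₀ i j
  rw [← Matrix.transpose_map, ← Matrix.map_mul, ← Matrix.map_mul, Matrix.map_apply,
    ← map_sub] at e
  exact (vx w _).symm.le.trans e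

include w in
theorem infinite : Infinite F := by
  obtain ⟨π, hπ⟩ := w.valuation_exists_uniformizer F
  refine Infinite.of_injective (fun n : ℕ => π ^ n) fun m n hmn => ?_
  have h := congrArg (w.valuation F) (show π ^ m = π ^ n from hmn)
  rw [map_pow, map_pow, hπ, ← WithZero.exp_nsmul, ← WithZero.exp_nsmul, WithZero.exp_inj] at h
  simpa using h

end apx

end Iso

/-- **Piece ISO.** -/
theorem iso : B_ISO := by
  intro R K _ _ _ _ _ v g F h h2 hF hd hc hsq hloc n
  haveI : Infinite K := Iso.infinite v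
  haveI : Infinite (v.adicCompletion K) :=
    Infinite.of_injective _ (algebraMap K (v.adicCompletion K)).injective
  haveI : NeZero (2 : v.adicCompletion K) := ⟨by
    have h3 := (_root_.map_ne_zero (algebraMap K (v.adicCompletion K))).2 h2
    rwa [map_ofNat] at h3⟩
  obtain ⟨T, hT⟩ := Iso.isom_map (algebraMap K (v.adicCompletion K)) hF hd hc hsq hloc
  exact Iso.apx v _ _ T hT n

end Pool.Agent.Helper28H.FE
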