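import Pool.Agent.N352.PJ.Loc
import Pool.Agent.N874.JM.Stm
import Pool.Agent.N352.JB.Def

/-!
# Project FE (helper28): for EVERY odd hyperelliptic curve `y ^ 2 = f(x)` over `K = k(t)`, `k` finite of
odd characteristic, with Galois group `S_n` and a prime which divides the discriminant exactly once,
a quadratic twist without 2-part of `J` and `Sha` over all the admissible 2-extensions `M` of `K`.
Function field version of project ET (`H30T`). Definitions and statements of the pieces.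

`IsGen`, `Crd`, `dsc`, `Cg`, `Mt`, `top` are in `N352/PJ/Def.lean`, `N352/PJ/Lat.lean`; `Ov`, `Ev`,
`Sq1`, `U0` in `N874/PP/Def.lean`; the templates `S_..` of group A in `N352/PJ/Loc.lean`.
All fields have characteristic different from two where this is needed: `(2 : k) ≠ 0`.
-/

set_option autoImplicit false
set_option linter.all false

open Polynomial IsDedekindDomain Matrix WithZero
open scoped Classical

namespace Pool.Agent.Helper28H.FE

open Pool.Agent.N352.PJ (Mt IsGen dsc Cg Crd res)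
open Pool.Agent.N874.PP (Ov Ev Sq1 U0)
open Pool.Agent.N874.JM (LocF)

/-! ## Definitions -/

/-- `GoodS` without the condition on the trace: the `h Q` are irreducible modulo the primes `Q` in `S`. -/
def GoodU (g : ℕ) {k : Type} [Field k] (S : Finset k[X]) (h : k[X] → k[X][X]) : Prop :=
  ∀ Q ∈ S, Q.Monic ∧ Irreducible Q ∧ (h Q).Monic ∧ (h Q).natDegree = 2 * g ∧
    Irreducible ((h Q).map (Ideal.Quotient.mk (Ideal.span {Q})))

/-- `P` is good for `f`: its square does not divide the discriminant. -/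
def Gd (g : ℕ) {k : Type} [Field k] (f : k[X][X]) (P : k[X]) : Prop := ¬ P ^ 2 ∣ dsc g f

/-- The Gram matrix of the form `h(θ) x y` in the basis `1, θ, ..., θ ^ (2 g)`. -/
noncomputable def Gm {F : Type} [Field F] (g : ℕ) (f h : F[X]) : Mt g F :=
  Matrix.of fun i j => ((h * X ^ ((i : ℕ) + j)) %ₘ f).coeff (2 * g)

/-- The valuation `v` of `K = k(t)` is the place at infinity. (`R₁` is a Dedekind domain with field of
fractions `K`, for instance `k[1/t]`.) -/
def IsInf (k : Type) {K R₁ : Type} [Field k] [Field K] [Algebra k[X] K] [CommRing R₁]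
    [IsDedekindDomain R₁] [Algebra R₁ K] [IsFractionRing R₁ K] (v : HeightOneSpectrum R₁) : Prop :=
  ∀ p : k[X], p ≠ 0 → v.valuation K (algebraMap k[X] K p) = exp (p.natDegree : ℤ)

/-- There is a lattice over the local ring of `v`, with the basis `e`, on which the form
`top (x y / α)` is integral and unimodular. -/
def SDL {g : ℕ} {k K L : Type} [Field k] [Field K] [Algebra k[X] K] [Field L] [Algebra K L]
    [Algebra k[X] L] {f : k[X][X]} {θ : L} (hG : IsGen g K f θ) {R : Type} [CommRing R]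
    [IsDedekindDomain R] [Algebra R K] [IsFractionRing R K] (v : HeightOneSpectrum R) (α : L) : Prop :=
  ∃ e : Fin (2 * g + 1) → L, (∀ i j, v.valuation K (hG.top (e i * e j / α)) ≤ 1) ∧
    v.valuation K (Matrix.of fun i j => hG.top (e i * e j / α) : Mt g K).det = 1

/-- `P` is unramified in `E`. -/
def UnrAt (E : Type) {k : Type} [Field k] [Field E] [Algebra k[X] E] (P : k[X]) : Prop :=
  ∀ w : HeightOneSpectrum (integralClosure k[X] E),
    algebraMap k[X] (integralClosure k[X] E) P ∈ w.asIdeal →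
    algebraMap k[X] (integralClosure k[X] E) P ∉ w.asIdeal ^ 2

/-- `P` splits completely in `E`. -/
def SplitsIn (E : Type) {k : Type} [Field k] [Field E] [Algebra k[X] E] (P : k[X]) : Prop :=
  ∀ w : HeightOneSpectrum (integralClosure k[X] E),
    algebraMap k[X] (integralClosure k[X] E) P ∈ w.asIdeal →
    algebraMap k[X] (integralClosure k[X] E) P ∉ w.asIdeal ^ 2 ∧
    ∀ y : integralClosure k[X] E, ∃ c : k[X],
      y - algebraMap k[X] (integralClosure k[X] E) c ∈ w.asIdeal

/-- The hypotheses on the polynomial: monic of degree `2 g + 1`, the Galois group over `K = k(t)` is the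
full symmetric group, the prime `P₀` divides the discriminant exactly once. -/
structure Hyp (K : Type) {k : Type} [Field k] [Field K] [Algebra k[X] K] (g : ℕ) (f : k[X][X])
    (P₀ : k[X]) : Prop where
  one : 1 ≤ g
  two : (2 : k) ≠ 0
  mon : f.Monic
  deg : f.natDegree = 2 * g + 1
  gal : Nat.card (f.map (algebraMap k[X] K)).Gal = (2 * g + 1).factorial
  prime : Irreducible P₀
  dvd : P₀ ∣ dsc g f
  ndvd : ¬ P₀ ^ 2 ∣ dsc g f

/-! ## Group A: local statements (ports of existing files; the changes are: `GoodU` instead of `GoodS`,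
and `Squarefree (dsc g f)` is dropped or replaced by `Gd g f P` at the prime `P` considered; the number field
versions of these ports are `H30T/Int.lean`, `Exq.lean`, `Par.lean`) -/

/-- Piece A-INT (port of `N769/PJ/Int.lean`, cf. `H30T/Int.lean`): locally at `P` the ring of integers is
`k[t][θ]`. -/
def A_INT : Prop := ∀ (g : ℕ) (k K L : Type) [Field k] [Field K] [Algebra k[X] K]
  [IsFractionRing k[X] K] [Field L] [Algebra K L] [Algebra k[X] L] [IsScalarTower k[X] K L]
  (f : k[X][X]) (θ : L), IsGen g K f θ → ∀ P : k[X], Irreducible P → Gd g f P →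
  ∀ x : L, IsIntegral k[X] x → ∃ (s : k[X]) (v : Fin (2 * g + 1) → k[X]), ¬ P ∣ s ∧
    Crd g θ v (algebraMap k[X] L s * x)

/-- Piece A-EXQ, first part (port of `N765/PJ/Exq.lean`, with `A_INT`; cf. `H30T/Exq.lean`): the two primes
over `Q`. -/
def A_EXQ : Prop := ∀ (g : ℕ) (k K L O : Type) [Field k] [Finite k] [Field K] [Algebra k[X] K]
  [IsFractionRing k[X] K]
  [Field L] [Algebra K L] [Algebra k[X] L] [IsScalarTower k[X] K L] [CommRing O]
  [IsDedekindDomain O] [Algebra O L] [IsFractionRing O L] [Algebra k[X] O]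
  [IsScalarTower k[X] O L] [IsIntegralClosure O k[X] L] (f : k[X][X]) (θ : L)
  (S : Finset k[X]) (h : k[X] → k[X][X]), 1 ≤ g →
  IsGen g K f θ → GoodU g S h → ∀ Q ∈ S, Cg Q f (X * h Q) →
  ∃ 𝔓₁ 𝔮 : HeightOneSpectrum O, Ov Q 𝔓₁ ∧ Ov Q 𝔮 ∧ 𝔓₁.valuation L θ < 1 ∧ 𝔮.valuation L θ = 1 ∧
    𝔓₁.valuation L (algebraMap k[X] L Q) = exp (-1 : ℤ) ∧
    𝔮.valuation L (algebraMap k[X] L Q) = exp (-1 : ℤ) ∧
    ∀ 𝔓 : HeightOneSpectrum O, Ov Q 𝔓 → 𝔓 = 𝔓₁ ∨ 𝔓 = 𝔮

/-- Piece A-EXQ, second part (port of `N765/PJ/Exq.lean`, with `A_INT`); the last two assertions: the prime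
is good (`f` is separable modulo `Q`), `f'(θ)` is a unit. -/
def A_CSQ : Prop := ∀ (g : ℕ) (k K L O : Type) [Field k] [Finite k] [Field K] [Algebra k[X] K]
  [IsFractionRing k[X] K]
  [Field L] [Algebra K L] [Algebra k[X] L] [IsScalarTower k[X] K L] [CommRing O]
  [IsDedekindDomain O] [Algebra O L] [IsFractionRing O L] [Algebra k[X] O]
  [IsScalarTower k[X] O L] [IsIntegralClosure O k[X] L] (f : k[X][X]) (θ : L)
  (S : Finset k[X]) (h : k[X] → k[X][X]), 1 ≤ g →
  IsGen g K f θ → GoodU g S h → ∀ Q ∈ S, Cg Q f (X * h Q) →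
  (∀ 𝔮 : HeightOneSpectrum O, Ov Q 𝔮 → 𝔮.valuation L θ = 1 →
    (∀ c : k[X], ¬ Q ∣ c → Sq1 𝔮 (algebraMap k[X] L c)) ∧
    Nat.card (O ⧸ 𝔮.asIdeal) = Nat.card k ^ (2 * g * Q.natDegree)) ∧
  ¬ Q ∣ dsc g f ∧
  ∀ 𝔓 : HeightOneSpectrum O, Ov Q 𝔓 →
    𝔓.valuation L (eval₂ (algebraMap k[X] L) θ (derivative f)) = 1

/-- Piece A-PAR (port of `N227/PJ/Par.lean`, with `A_INT`; cf. `H30T/Par.lean`): the parity at a prime of
degree one from the norm. -/
def A_PAR : Prop := ∀ (g : ℕ) (k K L O : Type) [Field k] [Field K] [Algebra k[X] K]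
  [IsFractionRing k[X] K]
  [Field L] [Algebra K L] [Algebra k[X] L] [IsScalarTower k[X] K L] [CommRing O]
  [IsDedekindDomain O] [Algebra O L] [IsFractionRing O L] [Algebra k[X] O]
  [IsScalarTower k[X] O L] [IsIntegralClosure O k[X] L] (f : k[X][X]) (θ : L),
  IsGen g K f θ →
  ∀ P : k[X], Irreducible P → Gd g f P → ∀ (𝔓₀ : HeightOneSpectrum O) (c : k[X]), Ov P 𝔓₀ →
    𝔓₀.valuation L (θ - algebraMap k[X] L c) < 1 → ∀ x : L, x ≠ 0 → IsSquare (Algebra.norm K x) →
    (∀ 𝔓 : HeightOneSpectrum O, Ov P 𝔓 → 𝔓 ≠ 𝔓₀ → Ev 𝔓 x) → Ev 𝔓₀ x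

/-- Piece A-PAR, second part (port of `N227/PJ/Par.lean`, with `A_INT`, `A_EXQ`). -/
def A_PARQ : Prop := ∀ (g : ℕ) (k K L O : Type) [Field k] [Finite k] [Field K] [Algebra k[X] K]
  [IsFractionRing k[X] K]
  [Field L] [Algebra K L] [Algebra k[X] L] [IsScalarTower k[X] K L] [CommRing O]
  [IsDedekindDomain O] [Algebra O L] [IsFractionRing O L] [Algebra k[X] O]
  [IsScalarTower k[X] O L] [IsIntegralClosure O k[X] L] (f : k[X][X]) (θ : L)
  (S : Finset k[X]) (h : k[X] → k[X][X]), 1 ≤ g →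
  IsGen g K f θ → GoodU g S h → ∀ Q ∈ S, Cg Q f (X * h Q) →
  ∀ x : L, x ≠ 0 → IsSquare (Algebra.norm K x) →
    ∀ 𝔓 : HeightOneSpectrum O, Ov Q 𝔓 → 𝔓.valuation L θ < 1 → Ev 𝔓 x

/-- Piece A-PIN (port of `N738/JM/P3.lean`; no condition on the discriminant, cf. `T_PIN` in
`H30T/Par.lean`): the parity at the primes over `P` if `f` is irreducible modulo `P`. -/
def A_PIN : Prop := ∀ (g : ℕ) (k K L O : Type) [Field k] [Finite k] [Field K] [Algebra k[X] K]
  [IsFractionRing k[X] K]
  [Field L] [Algebra K L] [Algebra k[X] L] [IsScalarTower k[X] K L] [CommRing O]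
  [IsDedekindDomain O] [Algebra O L] [IsFractionRing O L] [Algebra k[X] O]
  [IsScalarTower k[X] O L] [IsIntegralClosure O k[X] L] (f : k[X][X]) (θ : L),
  IsGen g K f θ →
  ∀ P : k[X], Irreducible P → Irreducible (f.map (Ideal.Quotient.mk (Ideal.span {P}))) →
  ∀ x : L, x ≠ 0 → IsSquare (Algebra.norm K x) →
    ∀ 𝔓 : HeightOneSpectrum O, Ov P 𝔓 → Ev 𝔓 x

/-- Piece A-RAM (port of `ram` in `N874/JM/Core.lean` and of `deg_one`, `uniq` in `N704/PJ/One.lean`, with
`A_INT`; cf. `N459/PF/Ram.lean`): at most one prime over the good prime `P` divides `f'(θ)`, and it is of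
degree one. -/
def A_RAM : Prop := ∀ (g : ℕ) (k K L O : Type) [Field k] [Finite k] [Field K] [Algebra k[X] K]
  [IsFractionRing k[X] K]
  [Field L] [Algebra K L] [Algebra k[X] L] [IsScalarTower k[X] K L] [CommRing O]
  [IsDedekindDomain O] [Algebra O L] [IsFractionRing O L] [Algebra k[X] O]
  [IsScalarTower k[X] O L] [IsIntegralClosure O k[X] L] (f : k[X][X]) (θ : L),
  IsGen g K f θ →
  ∀ P : k[X], Irreducible P → Gd g f P → ∀ 𝔓₀ : HeightOneSpectrum O, Ov P 𝔓₀ →
    𝔓₀.valuation L (eval₂ (algebraMap k[X] L) θ (derivative f)) < 1 →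
    (∃ c : k[X], 𝔓₀.valuation L (θ - algebraMap k[X] L c) < 1) ∧
    ∀ 𝔓 : HeightOneSpectrum O, Ov P 𝔓 → 𝔓 ≠ 𝔓₀ →
      𝔓.valuation L (eval₂ (algebraMap k[X] L) θ (derivative f)) = 1

/-! ## Group B: reciprocity -/

/-- Piece B-GLUE (gluing lattices over `k[t]`; pure algebra). The rows of `B` are a basis of the lattice
`Λ = {x ∈ K ^ n | x ∈ O_v ^ n * A v for v ∈ T, x ∈ O_v ^ n for v ∉ T}`.
Proof: let `c ≠ 0` be a polynomial such that `c A_v` and `c A_v⁻¹` are matrices of polynomials for all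
`v ∈ T`. Then `c k[t] ^ n ⊆ Λ ⊆ c⁻¹ k[t] ^ n`, so `Λ` is a free `k[t]`-module of rank `n`; take a
basis. `B (A v)⁻¹` is integral at `v` by definition. The rows of `A v` are combinations of the rows of `B` with
coefficients integral at `v`: if `s` is the part of `c ^ 2` prime to `v` then `s` times a row of `A v` is in
`Λ`. So the inverse is integral as well and the determinant is a unit at `v`. -/
def B_GLUE : Prop := ∀ (n : ℕ) (k K : Type) [Field k] [Field K] [Algebra k[X] K]
  [IsFractionRing k[X] K] (T : Finset (HeightOneSpectrum k[X]))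
  (A : HeightOneSpectrum k[X] → Matrix (Fin n) (Fin n) K), (∀ v, (A v).det ≠ 0) →
  ∃ B : Matrix (Fin n) (Fin n) K, B.det ≠ 0 ∧
    (∀ v ∈ T, (∀ i j, v.valuation K ((B * (A v)⁻¹) i j) ≤ 1) ∧
      v.valuation K (B * (A v)⁻¹).det = 1) ∧
    ∀ v ∉ T, (∀ i j, v.valuation K (B i j) ≤ 1) ∧ v.valuation K B.det = 1

/-- Piece B-ISO (port to characteristic different from two of `isom`, `isom_map`, `apx` in
`N591/PF/Iso1.lean`, hence of `N2/PQ/Cant.lean`, `N488/PQ/SPL.lean`, `N878/PQ/Hsp.lean`,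
`N271/PQ/Him.lean`, where `CharZero` is only used for `2 ≠ 0`): a class which is locally in the image of the
Jacobian gives a form which is isometric to that of `1` over the completion, hence approximately over `K`.
(From `T * Gm 1 * Tᵀ = Gm h` over the completion take an approximation of `T⁻¹`.) -/
def B_ISO : Prop := ∀ (R K : Type) [CommRing R] [IsDedekindDomain R] [Field K] [Algebra R K]
  [IsFractionRing R K] (v : HeightOneSpectrum R) (g : ℕ) (F h : K[X]), (2 : K) ≠ 0 → F.Monic →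
  F.natDegree = 2 * g + 1 → IsCoprime h F → IsSquare (Algebra.norm K (AdjoinRoot.mk F h)) →
  LocF (v.adicCompletion K) F h → ∀ n : ℕ, ∃ T : Mt g K, ∀ i j,
    v.valuation K ((T * Gm g F h * Tᵀ) i j - Gm g F 1 i j) ≤ exp (-(n : ℤ))

/-- Piece B-SDB (from `B_ISO`): a lattice with a unimodular form at a place where the class is locally in the
image. Proof: for `v` with `v(p) ≤ 1` for all polynomials the matrix `Gm g F 1` is integral with determinant
`±1`. Let `T` be close; the rows of `T` are elements `y i` of `L` (coordinates in the basis `θ ^ j`) with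
`top (α y_i y_j) = (T * Gm g F h * Tᵀ) i j`; put `e i = α * y i`. At infinity multiply in addition
the `i`-th row by `t ^ (- c (i - g))`, where `deg f_j ≤ c (2 g + 1 - j)` for all `j`
(`t = algebraMap k[X] K X`): the entries of `Gm g F 1` are `0` for `i + j < 2 g`, `1` for `i + j = 2 g` and of degree at
most `c (i + j - 2 g)` otherwise. -/
def B_SDB : Prop := ∀ (g : ℕ) (k K L : Type) [Field k] [Field K] [Algebra k[X] K]
  [IsFractionRing k[X] K] [Field L] [Algebra K L] [Algebra k[X] L] [IsScalarTower k[X] K L]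
  (f : k[X][X]) (θ : L) (hG : IsGen g K f θ) (R : Type) [CommRing R] [IsDedekindDomain R]
  [Algebra R K] [IsFractionRing R K] (v : HeightOneSpectrum R), (2 : k) ≠ 0 →
  ((∀ p : k[X], v.valuation K (algebraMap k[X] K p) ≤ 1) ∨ IsInf k (K := K) v) →
  ∀ h : K[X], aeval θ h ≠ 0 → IsSquare (Algebra.norm K (aeval θ h)) →
  LocF (v.adicCompletion K) (f.map (algebraMap k[X] K)) h → SDL hG v (aeval θ h)

/-- Piece B-SDG (from `A_INT`): the lattices at the good primes. (1) At a good `P` over which all valuations of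
`α` are even there is a unimodular lattice: take `β` with `𝔓(β) ^ 2 = 𝔓(α)` for all `𝔓` over `P`
(approximation), `e i = β θ ^ i`. The form is integral because `β ^ 2 / α` is integral at all `𝔓` over `P`
(multiply by a polynomial prime to `P` to make it integral and use `A_INT`); for the determinant see
`S_DET` in `N352/PJ/Lat.lean` (proved in `N262/PJ/Chi.lean`). (2) For a prime `Q` as in `A_EXQ` (with the
primes `𝔭`, `𝔮` over it) and `α` of odd valuation at `𝔮` take `β` with `𝔮(β) ^ 2 = 𝔮(α) * exp 1` and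
`𝔭(β) ^ 2 = 𝔭(α)` (`𝔭(α)` is even by `A_PARQ`), again `e i = β θ ^ i`. The determinant of the form has
valuation `exp (2 g)` because `𝔮` is of degree `2 g` over `Q`. -/
def B_SDG : Prop := ∀ (g : ℕ) (k K L O : Type) [Field k] [Finite k] [Field K] [Algebra k[X] K]
  [IsFractionRing k[X] K]
  [Field L] [Algebra K L] [Algebra k[X] L] [IsScalarTower k[X] K L] [CommRing O]
  [IsDedekindDomain O] [Algebra O L] [IsFractionRing O L] [Algebra k[X] O]
  [IsScalarTower k[X] O L] [IsIntegralClosure O k[X] L] (f : k[X][X]) (θ : L)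
  (hG : IsGen g K f θ) (α : L), 1 ≤ g → α ≠ 0 → IsSquare (Algebra.norm K α) →
  (∀ (P : k[X]) (v : HeightOneSpectrum k[X]), Irreducible P → v.asIdeal = Ideal.span {P} →
    Gd g f P → (∀ 𝔓 : HeightOneSpectrum O, Ov P 𝔓 → Ev 𝔓 α) → SDL hG v α) ∧
  ∀ (S : Finset k[X]) (h : k[X] → k[X][X]), GoodU g S h → ∀ Q ∈ S, Cg Q f (X * h Q) →
    ∀ v : HeightOneSpectrum k[X], v.asIdeal = Ideal.span {Q} →
    ∀ 𝔮 : HeightOneSpectrum O, Ov Q 𝔮 → 𝔮.valuation L θ = 1 → ¬ Ev 𝔮 α →
    ∃ e : Fin (2 * g + 1) → L, LinearIndependent K e ∧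
      (∀ i j, v.valuation K (hG.top (algebraMap k[X] L Q * (e i * e j) / α)) ≤ 1) ∧
      v.valuation K (Matrix.of fun i j => hG.top (e i * e j / α) : Mt g K).det =
        exp ((2 * g : ℕ) : ℤ) ∧
      (∀ i, ∀ 𝔓 : HeightOneSpectrum O, Ov Q 𝔓 → 𝔓.valuation L (e i) ^ 2 ≤
        𝔓.valuation L α * (if 𝔓 = 𝔮 then exp (1 : ℤ) else 1))

/-- Piece B-GL (helper28): the global Lagrangian from the local lattices, with `N50/PJ/Red.lean` and
`N738/PJ/Lat.lean`. -/
def B_GL : Prop := ∀ (g : ℕ) (k K L O : Type) [Field k] [Finite k] [Field K] [Algebra k[X] K]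
  [IsFractionRing k[X] K]
  [Field L] [Algebra K L] [Algebra k[X] L] [IsScalarTower k[X] K L] [CommRing O]
  [IsDedekindDomain O] [Algebra O L] [IsFractionRing O L] [Algebra k[X] O]
  [IsScalarTower k[X] O L] [IsIntegralClosure O k[X] L] (f : k[X][X]) (θ : L)
  (S₁ : Finset k[X]) (h : k[X] → k[X][X]) (R₁ : Type) [CommRing R₁]
  [IsDedekindDomain R₁] [Algebra R₁ K] [IsFractionRing R₁ K] (v₁ : HeightOneSpectrum R₁), 1 ≤ g →
  ∀ hG : IsGen g K f θ, GoodU g S₁ h → (∀ Q ∈ S₁, Cg Q f (X * h Q)) → IsInf k (K := K) v₁ →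
  ∀ 𝔮 : k[X] → HeightOneSpectrum O, (∀ Q ∈ S₁, Ov Q (𝔮 Q) ∧ (𝔮 Q).valuation L θ = 1) →
  ∀ α : L, α ≠ 0 → IsSquare (Algebra.norm K α) → S₁.Nonempty →
    (∀ Q ∈ S₁, ¬ Ev (𝔮 Q) α) →
    (∀ v : HeightOneSpectrum k[X], (∀ Q ∈ S₁, v.asIdeal ≠ Ideal.span {Q}) → SDL hG v α) →
    SDL hG v₁ α →
    ∃ x : Fin (g * (∏ Q ∈ S₁, Q).natDegree) → L,
      (∀ a, ∀ Q ∈ S₁, ∀ 𝔓 : HeightOneSpectrum O, Ov Q 𝔓 → 𝔓.valuation L (x a) ^ 2 ≤
        𝔓.valuation L α * (if 𝔓 = 𝔮 Q then exp (1 : ℤ) else 1)) ∧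
      (∀ a b, ∃ y : k[X], hG.top (algebraMap k[X] L (∏ Q ∈ S₁, Q) * (x a * x b) / α) =
        algebraMap k[X] K y ∧ res (∏ Q ∈ S₁, Q) y = 0) ∧
      ∀ c : Fin (g * (∏ Q ∈ S₁, Q).natDegree) → k,
        (∀ Q ∈ S₁, (𝔮 Q).valuation L (∑ a, algebraMap k[X] L (C (c a)) * x a) ^ 2 ≤
            (𝔮 Q).valuation L α * exp (-1 : ℤ)) → c = 0

/-- Piece B-REC (from `A_INT`, `A_EXQ`, `A_CSQ`, `N434.PJ.pry` and `B_GL`; port of `N622/PJ/RecA..RecE`,
`Rec.lean`): the reciprocity law. The changes: choose a polynomial `c` with `P ∣ c - 1` (`P` the product of the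
`Q ∈ S₁`) such that `c z` has polynomial coordinates in the basis `θ ^ i` for all `z` in `O`
(exists by `A_INT` at the `Q ∈ S₁`, since `O` is a finitely generated module or since the discriminant
times `O` is in `k[t][θ]`), and use the coordinates `co z` of `c z` instead of those of `z` (linear in `z`, everything
is only needed modulo `P`); the lattice conditions of `B_GL` are only those at the primes over `S₁` (in
`first_iso` one needs that `P x x' / α` is integral at the primes over `S₁` and that `top` of it is a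
polynomial `y`: multiply by a polynomial `d`, `P ∣ d - 1`, to make it integral everywhere). -/
def B_REC : Prop := ∀ (g : ℕ) (k K L O : Type) [Field k] [Finite k] [Field K] [Algebra k[X] K]
  [IsFractionRing k[X] K]
  [Field L] [Algebra K L] [Algebra k[X] L] [IsScalarTower k[X] K L] [CommRing O]
  [IsDedekindDomain O] [Algebra O L] [IsFractionRing O L] [Algebra k[X] O]
  [IsScalarTower k[X] O L] [IsIntegralClosure O k[X] L] (f : k[X][X]) (θ : L)
  (S : Finset k[X]) (h : k[X] → k[X][X]) (R₁ : Type) [CommRing R₁]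
  [IsDedekindDomain R₁] [Algebra R₁ K] [IsFractionRing R₁ K] (v₁ : HeightOneSpectrum R₁),
  1 ≤ g → (2 : k) ≠ 0 →
  ∀ hG : IsGen g K f θ, GoodU g S h → (∀ Q ∈ S, Cg Q f (X * h Q)) → IsInf k (K := K) v₁ →
  ∀ 𝔮 : k[X] → HeightOneSpectrum O, (∀ Q ∈ S, Ov Q (𝔮 Q) ∧ (𝔮 Q).valuation L θ = 1) →
  ∀ α : L, α ≠ 0 → IsSquare (Algebra.norm K α) →
    (∀ v : HeightOneSpectrum k[X],
      (∀ Q ∈ S, v.asIdeal = Ideal.span {Q} → Ev (𝔮 Q) α) → SDL hG v α) →
    SDL hG v₁ α →
    Even (S.filter fun Q => ¬ Ev (𝔮 Q) α ∧ ¬ Sq1 (𝔮 Q) (α * (algebraMap k[X] L Q * θ))).card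

/-! ## Group D: completions -/

/-- Piece D-BACK (port of `val_eq_iso`, `exists_back` in `H30H/Back.lean` to arbitrary Dedekind domains):
at a completely split prime there is a map of the completions in the other direction. -/
def D_BACK : Prop := ∀ (K M R R' : Type) [Field K] [Field M] [Algebra K M] [CommRing R]
  [IsDedekindDomain R] [Algebra R K] [IsFractionRing R K] [CommRing R'] [IsDedekindDomain R']
  [Algebra R' M] [IsFractionRing R' M] (v : HeightOneSpectrum R) (w : HeightOneSpectrum R'),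
  (∀ x : K, w.valuation M (algebraMap K M x) = v.valuation K x) →
  (∀ s : M, s ≠ 0 → ∃ s₀ : K, w.valuation M (s - algebraMap K M s₀) < w.valuation M s) →
  ∃ j : w.adicCompletion M →+* v.adicCompletion K,
    ∀ x : K, j (algebraMap M (w.adicCompletion M) (algebraMap K M x)) =
      algebraMap K (v.adicCompletion K) x

/-- Piece D-SQL: local squares. (1) A monic polynomial of even degree is a square in the completion at
infinity; (2) a polynomial which is a nonzero square modulo `P` is a square in the completion at `P`. Proof: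
one-units are squares in the completion, see `CV.sq` and `S_EXT` in `N352/PJ/Loc.lean` (proved in
`N787/PJ/Ext.lean`). -/
def D_SQL : Prop := ∀ (k K : Type) [Field k] [Field K] [Algebra k[X] K] [IsFractionRing k[X] K],
  (2 : k) ≠ 0 →
  (∀ (R₁ : Type) [CommRing R₁] [IsDedekindDomain R₁] [Algebra R₁ K] [IsFractionRing R₁ K]
    (v₁ : HeightOneSpectrum R₁), IsInf k (K := K) v₁ → ∀ D : k[X], D.Monic → Even D.natDegree →
    IsSquare (algebraMap K (v₁.adicCompletion K) (algebraMap k[X] K D))) ∧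
  ∀ (P D z : k[X]) (v : HeightOneSpectrum k[X]), Irreducible P → v.asIdeal = Ideal.span {P} →
    ¬ P ∣ D → P ∣ D - z ^ 2 →
    IsSquare (algebraMap K (v.adicCompletion K) (algebraMap k[X] K D))

/-- Piece D-INF: existence of the place at infinity. Proof: `R₁ = k[X]` with the algebra structure given by
`X ↦ t⁻¹` on `K`, `v₁ = (X)`; or the valuation ring of the degree valuation. -/
def D_INF : Prop := ∀ (k K : Type) [Field k] [Field K] [Algebra k[X] K] [IsFractionRing k[X] K],
  ∃ (R₁ : Type) (_ : CommRing R₁) (_ : IsDedekindDomain R₁) (_ : Algebra R₁ K)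
    (_ : IsFractionRing R₁ K) (v₁ : HeightOneSpectrum R₁), IsInf k (K := K) v₁

/-- Piece D-TRL, first part (port of `H30T/Trl.lean`): translation of the polynomial. -/
def D_TRL : Prop := ∀ (K : Type) [Field K] (Pl : ∀ (E : Type) [Field E] [Algebra K E], Prop)
  (f : K[X]) (c : K), f.Monic → Pool.Agent.N352.JB.SelTriv Pl (f.comp (X + C c)) →
  Pool.Agent.N352.JB.SelTriv Pl f

/-- Piece D-TRL, second part (port of `H30T/Trl.lean`): the discriminant is invariant under translation and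
multiplied by a power of `D` for the twist by `D`. -/
def D_DSC : Prop := ∀ (g : ℕ) (k : Type) [Field k] (f : k[X][X]), f.Monic →
  f.natDegree = 2 * g + 1 → (∀ c : k[X], dsc g (f.comp (X + C c)) = dsc g f) ∧
  ∀ D : k[X], D ≠ 0 → dsc g (f.scaleRoots D) = D ^ ((2 * g + 1) * (2 * g)) * dsc g f

/-! ## Group E: Galois theory and Chebotarev's theorem over `k(t)` -/

/-- `w` is a prime of degree one over `Q`. -/
def One {k O : Type} [Field k] [CommRing O] [IsDedekindDomain O] [Algebra k[X] O] (Q : k[X])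
    (w : HeightOneSpectrum O) : Prop :=
  Ov Q w ∧ ∀ y : O, ∃ c : k[X], y - algebraMap k[X] O c ∈ w.asIdeal

/-- Piece E-MERT (helper28): the theorem of Mertens for the primes of degree one over `k(t)` of a finite
separable extension. -/
def E_MERT : Prop := ∀ (k K L O : Type) [Field k] [Finite k] [Field K] [Algebra k[X] K]
  [IsFractionRing k[X] K] [Field L] [Algebra K L] [Algebra k[X] L] [IsScalarTower k[X] K L]
  [FiniteDimensional K L] [Algebra.IsSeparable K L] [CommRing O] [IsDedekindDomain O]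
  [Algebra O L] [IsFractionRing O L] [Algebra k[X] O] [IsScalarTower k[X] O L]
  [IsIntegralClosure O k[X] L], ∃ B : ℝ, ∀ n : ℕ,
  |(∑ᶠ Q ∈ {Q : k[X] | Q.Monic ∧ Irreducible Q ∧ Q.natDegree ≤ n},
    (Q.natDegree : ℝ) / (Nat.card k : ℝ) ^ Q.natDegree *
      ({w : HeightOneSpectrum O | One Q w}.ncard : ℝ)) - n| ≤ B

/-- Piece E-FROB (from `E_MERT`): the theorem of Frobenius: there are infinitely many primes with a Frobenius
element which generates the same group as `σ`. Proof: let `G = Gal(N / K)`, `C = ⟨σ⟩` of order `c`, `F_d` the fixed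
field of `σ ^ d` for `d ∣ c` (`C_d = ⟨σ ^ d⟩` is of order `c / d`). Let `Q` be of large degree (so
unramified in `N`); for a prime `w` of `N` over `Q` let `φ_w` be the Frobenius element
(`φ_w x = x ^ |Q|` modulo `w`; see `Mathlib.RingTheory.Frobenius`) and `e(Q)` its order, which is the
order of the decomposition group. A prime of `F_d` over `Q` below `w` is of degree one if and only if `φ_w` is
in `C_d`, and then there are `|C_d| / e(Q)` primes `w` over it; so
`|C_d| #{primes of degree one of F_d over Q} = e(Q) #{w | φ_w ∈ C_d}`. By Moebius inversion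
`∑_{d ∣ c} μ(d) |C_d| #{..F_d..} = e(Q) #{w over Q | ⟨φ_w⟩ = C}`. Sum over `Q` with the weights
`deg Q / q ^ deg Q`: by `E_MERT` the left side is `(∑ μ(d) c / d) n + O(1) = φ(c) n + O(1)`, unbounded, while it
would be bounded if there were no `w` over primes of degree `> B` with `⟨φ_w⟩ = C`. -/
def E_FROB : Prop := ∀ (k K N : Type) [Field k] [Finite k] [Field K] [Algebra k[X] K]
  [IsFractionRing k[X] K] [Field N] [Algebra K N] [Algebra k[X] N] [IsScalarTower k[X] K N]
  [FiniteDimensional K N] [IsGalois K N] (σ : N ≃ₐ[K] N) (B : ℕ),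
  ∃ (Q : k[X]) (a : ℕ) (w : HeightOneSpectrum (integralClosure k[X] N)), Q.Monic ∧
    Irreducible Q ∧ B < Q.natDegree ∧
    algebraMap k[X] (integralClosure k[X] N) Q ∈ w.asIdeal ∧ a.Coprime (orderOf σ) ∧
    ∀ x y : integralClosure k[X] N, (σ ^ a) (x : N) = y →
      y - x ^ (Nat.card k ^ Q.natDegree) ∈ w.asIdeal

/-- Piece E-ODD (port of `H30T/Odd2.lean`). Proof: let `δ = ∏_{i<j} (x i - x j)`, `δ ^ 2` is up to sign the
discriminant. If all elements of the Galois group of `N` over `E` acted by even permutations they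
would fix `δ`, so `δ` would be in `E`, and the valuation of `δ ^ 2` at a prime of `E` over `P₀` would be even; but
it is one since `P₀` is unramified in `E`. -/
def E_ODD : Prop := ∀ (g : ℕ) (k K E N : Type) [Field k] [Field K] [Algebra k[X] K]
  [IsFractionRing k[X] K] [Field E] [Algebra K E] [Algebra k[X] E] [IsScalarTower k[X] K E]
  [FiniteDimensional K E] [Algebra.IsSeparable K E] [Field N] [Algebra K N] [Algebra k[X] N]
  [IsScalarTower k[X] K N] [FiniteDimensional K N] [IsGalois K N] (f : k[X][X]) (P₀ : k[X])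
  (x : Fin (2 * g + 1) → N), f.map (algebraMap k[X] N) = ∏ i, (X - C (x i)) →
  Function.Injective x → Irreducible P₀ → P₀ ∣ dsc g f → ¬ P₀ ^ 2 ∣ dsc g f → UnrAt E P₀ →
  ∀ κ : E →ₐ[K] N, ∃ (σ : N ≃ₐ[K] N) (π : Equiv.Perm (Fin (2 * g + 1))),
    (∀ y : E, σ (κ y) = κ y) ∧ (∀ i, σ (x i) = x (π i)) ∧ Equiv.Perm.sign π = -1

/-- Piece E-GAL (from `E_ODD` and the group theory `U_GRP`, `U_SN` of `H30T/Stm3.lean`, proved in
`H30T/Grp2.lean`; port of `H30T/Gal2.lean`, where there is no arithmetic besides ODD; the field is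
separable since `f` is separable). -/
def E_GAL : Prop := ∀ (g : ℕ) (k K L E : Type) [Field k] [Finite k] [Field K] [Algebra k[X] K]
  [IsFractionRing k[X] K] [Field L] [Algebra K L] [Algebra k[X] L] [IsScalarTower k[X] K L]
  [Field E] [Algebra K E] [Algebra k[X] E] [IsScalarTower k[X] K E] [FiniteDimensional K E]
  [IsGalois K E] (f : k[X][X]) (P₀ : k[X]) (θ : L), Hyp K g f P₀ → IsGen g K f θ → UnrAt E P₀ →
  ∀ α : L, α ≠ 0 → IsSquare (Algebra.norm K α) → ¬ IsSquare α →
  ∃ (N : Type) (_ : Field N) (_ : Algebra K N) (_ : FiniteDimensional K N) (_ : IsGalois K N)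
    (σ : N ≃ₐ[K] N) (β₂ : N) (ι₁ ι₂ : L →ₐ[K] N) (κ : E →ₐ[K] N), (∀ y : E, σ (κ y) = κ y) ∧
    σ (ι₁ θ) = ι₁ θ ∧
    f.map ((algebraMap K N).comp (algebraMap k[X] K)) =
      (X - C (ι₁ θ)) * ∏ j ∈ Finset.range (2 * g), (X - C ((σ ^ j) (ι₂ θ))) ∧
    (σ ^ (2 * g)) (ι₂ θ) = ι₂ θ ∧ β₂ ^ 2 = ι₂ α ∧ (σ ^ (2 * g)) β₂ = -β₂

/-- The prime. -/
def E_CHEB : Prop := ∀ (g : ℕ) (k K L E O : Type) [Field k] [Finite k] [Field K] [Algebra k[X] K]
  [IsFractionRing k[X] K] [Field L] [Algebra K L] [Algebra k[X] L] [IsScalarTower k[X] K L]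
  [Field E] [Algebra K E] [Algebra k[X] E] [IsScalarTower k[X] K E] [FiniteDimensional K E]
  [IsGalois K E] [CommRing O] [IsDedekindDomain O] [Algebra O L] [IsFractionRing O L]
  [Algebra k[X] O] [IsScalarTower k[X] O L] [IsIntegralClosure O k[X] L]
  (f : k[X][X]) (P₀ : k[X]) (θ : L), Hyp K g f P₀ → IsGen g K f θ → UnrAt E P₀ →
  ∀ α : L, α ≠ 0 → IsSquare (Algebra.norm K α) → ¬ IsSquare α → ∀ B : ℕ,
  ∃ (Q e : k[X]) (h : k[X][X]), Q.Monic ∧ Irreducible Q ∧ B < Q.natDegree ∧ h.Monic ∧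
    h.natDegree = 2 * g ∧ Irreducible (h.map (Ideal.Quotient.mk (Ideal.span {Q}))) ∧
    Cg Q f ((X - C e) * h) ∧ SplitsIn E Q ∧
    ∀ 𝔓 : HeightOneSpectrum O, Ov Q 𝔓 → 𝔓.valuation L (θ - algebraMap k[X] L e) = 1 → ¬ Sq1 𝔓 α

/-- Piece E-RES (port of `H30T/Res2.lean`, `H30T/Res.lean`, `H30T/ResA.lean`). Proof: take `N`, `σ`, ... from
GAL and a prime `Q` of large degree, `w` over `Q` and `a` from FROB; `a` is prime to the order of `σ`, hence odd
and prime to `2 g`, and `σ ^ a` has the same properties as `σ`. Let `φ : O_N → O_N / w`,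
`φ (σ ^ a x) = φ x ^ |Q|`. The element `φ (ι₁ θ)` is in `k[t] / Q`, it is the class of `e`; the elements
`φ ((σ ^ a) ^ j (ι₂ θ)) = u ^ (|Q| ^ j)`, `j < 2 g`, are distinct (`Q` does not divide the discriminant), they are
the roots of the irreducible polynomial `h` modulo `Q`. If `𝔓` is over `Q` and `θ - e` is a unit at `𝔓`,
then `O → O / 𝔓 → (alg. closure)` sends `θ` to some `u ^ (|Q| ^ j)`, so it is `φ ∘ σ ^ (a j) ∘ ι₂` (they
agree on `k[t][θ]`, whose index is prime to `Q`). If `α = s ^ 2` modulo `𝔓` then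
`φ (σ ^ (a j) β₂) = ± φ (σ ^ (a j) (ι₂ s))` is fixed by the power `|Q| ^ (2 g)`, but
`φ ((σ ^ a) ^ (2 g) σ ^ (a j) β₂) = - φ (σ ^ (a j) β₂)`. `Q` splits completely in `E`: all the primes of `E` over
`Q` are conjugate and `φ (κ y) ^ |Q| = φ (κ y)`. -/
def E_RES : Prop := E_FROB → E_GAL → E_CHEB

/-- Piece E-FIN: the elements whose valuations are even outside a finite set of primes, modulo squares.
Proof: the class group of `O` is finite (Mathlib: `ClassGroup.fintypeOfAdmissibleOfFinite` or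
`FunctionField.RingOfIntegers...`), so it suffices that the units modulo squares are finite. `O` is a free
`k[t]`-module with a basis; let `O'` be the integral closure of `k[1/t]` in `L`, a Dedekind domain with
finitely many primes `w` over `1/t`. The map `u ↦ (w(u))_w` from the units of `O` to `ℤ ^ r` has
finite kernel: the elements of the kernel are integral over `k[t]` and over `k[1/t]`, so their
characteristic polynomials over `K` have coefficients in `k[t] ∩ k[1/t] = k`. Hence the group of units is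
finitely generated. -/
def E_FIN : Prop := ∀ (k K L O : Type) [Field k] [Finite k] [Field K] [Algebra k[X] K]
  [IsFractionRing k[X] K] [Field L] [Algebra K L] [Algebra k[X] L] [IsScalarTower k[X] K L]
  [FiniteDimensional K L] [Algebra.IsSeparable K L] [CommRing O] [IsDedekindDomain O]
  [Algebra O L] [IsFractionRing O L] [Algebra k[X] O] [IsScalarTower k[X] O L]
  [IsIntegralClosure O k[X] L] (T : Set (HeightOneSpectrum O)), T.Finite →
  ∃ R : Finset L, (∀ r ∈ R, r ≠ 0) ∧ ∀ α : L, α ≠ 0 →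
    (∀ 𝔓 : HeightOneSpectrum O, 𝔓 ∉ T → Ev 𝔓 α) → ∃ r ∈ R, ∃ s : L, s ≠ 0 ∧ α = r * s ^ 2

/-- The set of primes. -/
def E_SELECT : Prop := ∀ (g : ℕ) (k K L E O : Type) [Field k] [Finite k] [Field K]
  [Algebra k[X] K]
  [IsFractionRing k[X] K] [Field L] [Algebra K L] [Algebra k[X] L] [IsScalarTower k[X] K L]
  [Field E] [Algebra K E] [Algebra k[X] E] [IsScalarTower k[X] K E] [FiniteDimensional K E]
  [IsGalois K E] [CommRing O] [IsDedekindDomain O] [Algebra O L] [IsFractionRing O L]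
  [Algebra k[X] O] [IsScalarTower k[X] O L] [IsIntegralClosure O k[X] L]
  (f : k[X][X]) (P₀ : k[X]) (θ : L), Hyp K g f P₀ → IsGen g K f θ → UnrAt E P₀ → ∀ B : ℕ,
  ∃ (S : Finset k[X]) (e : k[X] → k[X]) (h : k[X] → k[X][X]),
    (∀ Q ∈ S, Q.Monic ∧ Irreducible Q ∧ B < Q.natDegree ∧ (h Q).Monic ∧
      (h Q).natDegree = 2 * g ∧ Irreducible ((h Q).map (Ideal.Quotient.mk (Ideal.span {Q}))) ∧
      Cg Q f ((X - C (e Q)) * h Q) ∧ SplitsIn E Q) ∧
    ∀ α : L, α ≠ 0 → IsSquare (Algebra.norm K α) →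
      (∀ 𝔓 : HeightOneSpectrum O, ¬ Ov (dsc g f) 𝔓 → Ev 𝔓 α) →
      (∀ Q ∈ S, ∀ 𝔓 : HeightOneSpectrum O, Ov Q 𝔓 →
        𝔓.valuation L (θ - algebraMap k[X] L (e Q)) = 1 → Sq1 𝔓 α) → IsSquare α

/-- Piece E-SEL (port of `H30T/Select2.lean`): `E_FIN` for the set of primes which contain the discriminant
gives a finite set `R`; for every `r` in `R` which is not a square and whose norm is a square choose by
`E_CHEB` a prime `Q` of degree larger than the degrees of the primes chosen before (induction over `R`); if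
`α = r * s ^ 2` then `Sq1 𝔓 α` implies `Sq1 𝔓 r`. -/
def E_SEL : Prop := E_FIN → E_CHEB → E_SELECT

/-- Piece E-CYC (cf. `H30T/Cyc2.lean`; for compositums `H30H/Comp.lean`): adjoining square roots of
polynomials prime to `P₀` (constants are allowed) to a Galois extension in which `P₀` is unramified.
Proof: by induction on `T` (adjoin one square root, take Galois closures: `E₀(√P)` is Galois over `K`
since `P ∈ K`); `P₀` stays unramified in `E₀(√P)` since `2 P` is a unit at the primes over `P₀`. -/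
def E_CYC : Prop := ∀ (k K E₀ : Type) [Field k] [Finite k] [Field K] [Algebra k[X] K]
  [IsFractionRing k[X] K] [Field E₀] [Algebra K E₀] [Algebra k[X] E₀] [IsScalarTower k[X] K E₀]
  [FiniteDimensional K E₀] [IsGalois K E₀] (P₀ : k[X]) (T : Finset k[X]), (2 : k) ≠ 0 →
  Irreducible P₀ → UnrAt E₀ P₀ → (∀ P ∈ T, ¬ P₀ ∣ P) →
  ∃ (E : Type) (_ : Field E) (_ : Algebra K E) (_ : Algebra k[X] E) (_ : IsScalarTower k[X] K E)
    (_ : FiniteDimensional K E) (_ : IsGalois K E), Nonempty (E₀ →ₐ[K] E) ∧ UnrAt E P₀ ∧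
    ∀ P ∈ T, IsSquare (algebraMap k[X] E P)

/-- Piece E-SPL: consequences of complete splitting. (1) A completely split prime splits completely in the
subextensions; (2) if `Q` splits completely in `E` and `P` is a square in `E`, then `P` is a square modulo `Q`. -/
def E_SPL : Prop := ∀ (k K E : Type) [Field k] [Finite k] [Field K] [Algebra k[X] K]
  [IsFractionRing k[X] K] [Field E] [Algebra K E] [Algebra k[X] E] [IsScalarTower k[X] K E]
  [FiniteDimensional K E] [IsGalois K E] (Q : k[X]), Irreducible Q → SplitsIn E Q →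
  (∀ (E₀ : Type) [Field E₀] [Algebra K E₀] [Algebra k[X] E₀] [IsScalarTower k[X] K E₀]
    [FiniteDimensional K E₀] [IsGalois K E₀] (κ : E₀ →ₐ[K] E), SplitsIn E₀ Q) ∧
  ∀ P : k[X], IsSquare (algebraMap k[X] E P) → ∃ z : k[X], Q ∣ P - z ^ 2

/-- Piece E-QR: (1) quadratic reciprocity in `k[t]` (`H341R2`, `Y164/PS/Sym.lean`, `N368/PP/Hp.lean`) for
`Q` of even degree; (2) a constant which is not a square in `k` and is a square modulo `Q` forces the degree to be
even. -/
def E_QR : Prop := ∀ (k : Type) [Field k] [Finite k], (2 : k) ≠ 0 → ∀ Q : k[X], Q.Monic →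
  Irreducible Q →
  (∀ P : k[X], P.Monic → Irreducible P → P ≠ Q → Even Q.natDegree →
    (∃ z : k[X], Q ∣ P - z ^ 2) → ∃ z : k[X], P ∣ Q - z ^ 2) ∧
  ∀ a : k, ¬ IsSquare a → (∃ z : k[X], Q ∣ C a - z ^ 2) → Even Q.natDegree

end Pool.Agent.Helper28H.FE
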