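import Pool.Agent.Helper28H.FE.Mert2
import Pool.Agent.Helper28H.FE.Stm

/-!
# Piece MERT: the theorem of Mertens for the primes of degree one over `k(t)`
-/

set_option autoImplicit false
set_option linter.all false

open Polynomial Module IsDedekindDomain
open scoped Classical

namespace Pool.Agent.Helper28H.FE

theorem mert : E_MERT := by
  intro k K L O _ _ _ _ _ _ _ _ _ _ _ _ _ _ _ _ _ _
  letI : Algebra k O := ((algebraMap k[X] O).comp C).toAlgebra
  haveI : IsScalarTower k k[X] O := IsScalarTower.of_algebraMap_eq fun c => rfl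
  haveI : IsNoetherian k[X] O := IsIntegralClosure.isNoetherian k[X] K L O
  haveI : Module.Finite k[X] O := Module.IsNoetherian.finite k[X] O
  haveI : IsTorsionFree k[X] L := by
    have : Function.Injective (algebraMap k[X] L) := by
      rw [IsScalarTower.algebraMap_eq k[X] K L]
      exact (algebraMap K L).injective.comp (IsFractionRing.injective k[X] K)
    exact Module.isTorsionFree_iff_algebraMap_injective.2 this
  haveI : Module.Free k[X] O := IsIntegralClosure.module_free k[X] K L O
  obtain ⟨B, hB⟩ := Mert.mertens (k := k) (Module.Free.chooseBasis k[X] O)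
  refine ⟨B, fun n => ?_⟩
  have e : ∑ᶠ Q ∈ {Q : k[X] | Q.Monic ∧ Irreducible Q ∧ Q.natDegree ≤ n},
      (Q.natDegree : ℝ) / (Nat.card k : ℝ) ^ Q.natDegree *
        ({w : HeightOneSpectrum O | One Q w}.ncard : ℝ) = Mert.S (k := k) O n := by
    have e1 : {Q : k[X] | Q.Monic ∧ Irreducible Q ∧ Q.natDegree ≤ n} =
        ((SP.Un k n : Finset k[X]) : Set k[X]) := by
      ext Q
      rw [Finset.mem_coe, SP.mem_Un]
      exact Iff.rfl
    rw [e1, finsum_mem_coe_finset]
    rfl
  rw [e]
  exact hB n

end Pool.Agent.Helper28H.FE
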