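import Pool.Agent.Helper28H.FE.Stm

/-!
# Piece ODD of project FE (helper28), by helper85 (port of `H30T/Odd2.lean`, `H30T/OddP.lean`)
-/

set_option autoImplicit false
set_option linter.all false

open Polynomial IsDedekindDomain Matrix

namespace Pool.Agent.Helper28H.FE

open Pool.Agent.N352.PJ (Mt IsGen dsc Cg Crd res)
open Pool.Agent.N874.PP (Ov Ev Sq1 U0)

namespace Odd

/-- The square of the Vandermonde determinant of the roots is the discriminant up to sign. -/
theorem det_sq {k : Type} [Field k] {N : Type} [Field N] [Algebra k[X] N] {g : ℕ} {f : k[X][X]}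
    {x : Fin (2 * g + 1) → N} (hf : f.map (algebraMap k[X] N) = ∏ i, (X - C (x i))) :
    (Matrix.vandermonde x).det ^ 2 = algebraMap k[X] N (dsc g f) ∨
      (Matrix.vandermonde x).det ^ 2 = -(algebraMap k[X] N (dsc g f)) := by
  have h2 : algebraMap k[X] N (dsc g f) =
      resultant (f.map (algebraMap k[X] N)) (derivative (f.map (algebraMap k[X] N)))
        (2 * g + 1) (2 * g) := by
    rw [dsc, derivative_map, resultant_map_map]
  have h3 : (∏ i, (X - C (x i))).natDegree = 2 * g + 1 := by
    rw [natDegree_prod_of_monic _ _ fun i _ => monic_X_sub_C _]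
    simp
  have h4 : resultant (f.map (algebraMap k[X] N)) (derivative (f.map (algebraMap k[X] N)))
      (2 * g + 1) (2 * g) = ∏ i, ∏ j ∈ Finset.univ.erase i, (x i - x j) := by
    rw [hf]
    have h5 := resultant_prod_left Finset.univ (fun i : Fin (2 * g + 1) => X - C (x i))
      (derivative (∏ i, (X - C (x i)))) (2 * g) (by simp) (by
        refine (natDegree_derivative_le _).trans ?_
        rw [h3]
        omega)
    rw [h3] at h5
    rw [h5]
    refine Finset.prod_congr rfl fun i _ => ?_
    rw [natDegree_X_sub_C, resultant_X_sub_C_left]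
    · rw [derivative_prod_finset, eval_finset_sum, Finset.sum_eq_single i]
      · simp [eval_prod]
      · intro j _ hji
        rw [eval_mul, eval_prod, Finset.prod_eq_zero (i := i)]
        · simp
        · exact Finset.mem_erase.2 ⟨fun h => hji h.symm, Finset.mem_univ _⟩
        · simp
      · simp
    · refine (natDegree_derivative_le _).trans ?_
      rw [h3]
      omega
  rw [h4] at h2
  have h6 : ∏ i, ∏ j ∈ Finset.univ.erase i, (x i - x j) =
      (∏ i : Fin (2 * g + 1), ∏ j ∈ Finset.Ioi i, (-1 : N)) *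
        (Matrix.vandermonde x).det ^ 2 := by
    rw [Matrix.det_vandermonde, pow_two, ← mul_assoc, ← Finset.prod_mul_distrib]
    have h7 : ∀ i : Fin (2 * g + 1), ∏ j ∈ Finset.univ.erase i, (x i - x j) =
        (∏ j ∈ Finset.Ioi i, (x i - x j)) * ∏ j ∈ Finset.Iio i, (x i - x j) := by
      intro i
      rw [← Finset.prod_union]
      · refine Finset.prod_congr ?_ fun _ _ => rfl
        ext j
        simp only [Finset.mem_erase, Finset.mem_univ, and_true, Finset.mem_union, Finset.mem_Ioi,
          Finset.mem_Iio]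
        exact ⟨fun h => (lt_or_gt_of_ne h).symm, fun h => h.elim (fun h => h.ne') fun h => h.ne⟩
      · rw [Finset.disjoint_left]
        intro j hj hj'
        exact absurd (Finset.mem_Ioi.1 hj) (not_lt.2 (Finset.mem_Iio.1 hj').le)
    rw [Finset.prod_congr rfl fun i _ => h7 i, Finset.prod_mul_distrib]
    have h8 : ∏ i : Fin (2 * g + 1), ∏ j ∈ Finset.Iio i, (x i - x j) =
        ∏ i : Fin (2 * g + 1), ∏ j ∈ Finset.Ioi i, (x j - x i) := by
      rw [Finset.prod_comm' (t' := Finset.univ) (s' := fun j => Finset.Ioi j)]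
      intro i j
      simp
    rw [h8]
    congr 1
    refine Finset.prod_congr rfl fun i _ => ?_
    rw [← Finset.prod_mul_distrib]
    refine Finset.prod_congr rfl fun j _ => ?_
    ring
  rw [h6] at h2
  have h10 : (∏ i : Fin (2 * g + 1), ∏ j ∈ Finset.Ioi i, (-1 : N)) = 1 ∨
      (∏ i : Fin (2 * g + 1), ∏ j ∈ Finset.Ioi i, (-1 : N)) = -1 := by
    rw [Finset.prod_sigma', Finset.prod_const]
    exact neg_one_pow_eq_or N _
  rcases h10 with h | h <;> rw [h] at h2
  · left; rw [h2]; ring
  · right; rw [h2]; ring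

/-- In a field in which `P₀` is unramified a square cannot be an element of `k[t]` divisible by `P₀` exactly
once. -/
theorem not_sq (k K E : Type) [Field k] [Field K] [Algebra k[X] K]
    [IsFractionRing k[X] K] [Field E] [Algebra K E] [Algebra k[X] E] [IsScalarTower k[X] K E]
    [FiniteDimensional K E] [Algebra.IsSeparable K E] (P₀ : k[X]) (hP₀ : Irreducible P₀)
    (hE : UnrAt E P₀) (a : integralClosure k[X] E) (d : k[X]) (hd : P₀ ∣ d)
    (hd2 : ¬ P₀ ^ 2 ∣ d) (h : a ^ 2 = algebraMap k[X] (integralClosure k[X] E) d) :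
    False := by
  haveI : IsDedekindDomain (integralClosure k[X] E) := integralClosure.isDedekindDomain k[X] K E
  have hinjE : Function.Injective (algebraMap k[X] E) := by
    rw [IsScalarTower.algebraMap_eq k[X] K E]
    exact (algebraMap K E).injective.comp (IsFractionRing.injective k[X] K)
  have hinj : Function.Injective (algebraMap k[X] (integralClosure k[X] E)) := by
    intro x y hxy
    apply hinjE
    have := congrArg (algebraMap (integralClosure k[X] E) E) hxy
    rwa [← IsScalarTower.algebraMap_apply, ← IsScalarTower.algebraMap_apply] at this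
  haveI : FaithfulSMul k[X] (integralClosure k[X] E) :=
    (faithfulSMul_iff_algebraMap_injective _ _).2 hinj
  let pI : Ideal k[X] := Ideal.span {P₀}
  haveI hpI : Ideal.IsMaximal pI := PrincipalIdealRing.isMaximal_of_irreducible hP₀
  obtain ⟨P, hP1, hP2⟩ := Ideal.exists_maximal_ideal_liesOver_of_isIntegral pI
    (S := integralClosure k[X] E)
  have hmem : ∀ c : k[X], algebraMap k[X] (integralClosure k[X] E) c ∈ P ↔ P₀ ∣ c := by
    intro c
    rw [← Ideal.mem_span_singleton]
    have h1 : pI = P.under k[X] := hP2.over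
    change _ ↔ c ∈ pI
    rw [h1, Ideal.mem_comap]
  have hpP : algebraMap k[X] (integralClosure k[X] E) P₀ ∈ P := (hmem P₀).2 dvd_rfl
  have hp0 : algebraMap k[X] (integralClosure k[X] E) P₀ ≠ 0 := by
    rw [Ne, map_eq_zero_iff _ hinj]
    exact hP₀.ne_zero
  have hPne : P ≠ ⊥ := by
    intro h0
    rw [h0, Ideal.mem_bot] at hpP
    exact hp0 hpP
  let w : HeightOneSpectrum (integralClosure k[X] E) := ⟨P, hP1.isPrime, hPne⟩
  have hw : algebraMap k[X] (integralClosure k[X] E) P₀ ∉ P ^ 2 := hE w hpP
  obtain ⟨u, hu⟩ := hd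
  have hu2 : algebraMap k[X] (integralClosure k[X] E) u ∉ P := by
    rw [hmem]
    rintro ⟨v, hv⟩
    apply hd2
    exact ⟨v, by rw [hu, hv]; ring⟩
  have ha : a ∈ P := by
    apply hP1.isPrime.mem_of_pow_mem 2
    rw [h, hmem]
    exact ⟨u, hu⟩
  have ha2 : algebraMap k[X] (integralClosure k[X] E) P₀ *
      algebraMap k[X] (integralClosure k[X] E) u ∈ P ^ 2 := by
    have h1 : algebraMap k[X] (integralClosure k[X] E) P₀ *
      algebraMap k[X] (integralClosure k[X] E) u = a ^ 2 := by rw [h, hu, map_mul]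
    rw [h1]
    exact Ideal.pow_mem_pow ha 2
  haveI := hP1.isPrime
  have h3 := Ideal.IsPrime.mem_pow_mul P ha2
  rcases h3 with h3 | h3
  · exact hw h3
  · exact absurd h3 hu2

/-- An automorphism which permutes the roots multiplies the Vandermonde determinant by the sign. -/
theorem perm_sign {k K N : Type} [Field k] [Field K] [Algebra k[X] K] [Field N] [Algebra K N]
    [Algebra k[X] N] [IsScalarTower k[X] K N] {n : ℕ} {f : k[X][X]} {x : Fin n → N}
    (hf : f.map (algebraMap k[X] N) = ∏ i, (X - C (x i))) (hx : Function.Injective x)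
    (σ : N ≃ₐ[K] N) : ∃ π : Equiv.Perm (Fin n), (∀ i, σ (x i) = x (π i)) ∧
      σ (Matrix.vandermonde x).det = (Equiv.Perm.sign π : ℤ) * (Matrix.vandermonde x).det := by
  have h1 : ∀ i, ∃ j, σ (x i) = x j := by
    intro i
    have h2 : eval (x i) (f.map (algebraMap k[X] N)) = 0 := by
      rw [hf, eval_prod]
      exact Finset.prod_eq_zero (Finset.mem_univ i) (by simp)
    have h3 : eval (σ (x i)) (f.map (algebraMap k[X] N)) = 0 := by
      have h4 := congrArg σ h2
      rw [map_zero, eval_map, ← RingHom.coe_coe, hom_eval₂] at h4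
      rw [eval_map]
      have h5 : ((σ : N →+* N)).comp (algebraMap k[X] N) = algebraMap k[X] N := by
        refine RingHom.ext fun c => ?_
        rw [RingHom.comp_apply, IsScalarTower.algebraMap_apply k[X] K N]
        exact σ.commutes _
      rw [h5] at h4
      exact h4
    rw [hf, eval_prod, Finset.prod_eq_zero_iff] at h3
    obtain ⟨j, _, hj⟩ := h3
    refine ⟨j, ?_⟩
    simpa [sub_eq_zero] using hj
  choose π hπ using h1
  have hinj : Function.Injective π := by
    intro i j hij
    apply hx
    apply σ.injective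
    rw [hπ, hπ, hij]
  refine ⟨Equiv.ofBijective π (Finite.injective_iff_bijective.1 hinj), hπ, ?_⟩
  rw [← AlgEquiv.coe_ringEquiv, ← RingEquiv.coe_toRingHom, RingHom.map_det]
  have h5 : ((σ.toRingEquiv : N ≃+* N) : N →+* N).mapMatrix (Matrix.vandermonde x) =
      (Matrix.vandermonde x).submatrix (Equiv.ofBijective π (Finite.injective_iff_bijective.1 hinj))
        id := by
    ext i j
    simp [Matrix.vandermonde_apply, hπ]
  rw [h5, Matrix.det_permute]

end Odd

theorem odd : E_ODD := by
  intro g k K E N _ _ _ _ _ _ _ _ _ _ _ _ _ _ _ _ f P₀ x hf hx hP hd hd2 hE κ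
  let δ : N := (Matrix.vandermonde x).det
  have hδ2 : ∃ e : k[X], δ ^ 2 = algebraMap k[X] N e ∧ P₀ ∣ e ∧ ¬ P₀ ^ 2 ∣ e := by
    rcases Odd.det_sq hf with h | h
    · exact ⟨_, h, hd, hd2⟩
    · exact ⟨-dsc g f, by rw [map_neg]; exact h, (dvd_neg).2 hd, fun h => hd2 ((dvd_neg).1 h)⟩
  obtain ⟨e, he, he1, he2⟩ := hδ2
  have hδK : δ ∉ κ.fieldRange := by
    intro hK'
    obtain ⟨b, hb⟩ := hK'
    have hb' : κ b = δ := hb
    have hb2 : b ^ 2 = algebraMap k[X] E e := by
      apply (κ : E →+* N).injective
      change κ (b ^ 2) = κ (algebraMap k[X] E e)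
      rw [map_pow, hb', he, IsScalarTower.algebraMap_apply k[X] K N,
        IsScalarTower.algebraMap_apply k[X] K E, κ.commutes]
    have hint : IsIntegral k[X] b := by
      apply IsIntegral.of_pow (n := 2) (by norm_num)
      rw [hb2]
      exact isIntegral_algebraMap
    refine Odd.not_sq k K E P₀ hP hE (⟨b, hint⟩ : integralClosure k[X] E) e he1 he2 ?_
    apply Subtype.ext
    exact hb2
  have h1 : ∃ σ ∈ κ.fieldRange.fixingSubgroup, σ δ ≠ δ := by
    by_contra hcon
    push Not at hcon
    apply hδK
    rw [← IsGalois.fixedField_fixingSubgroup κ.fieldRange, IntermediateField.mem_fixedField_iff]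
    exact hcon
  obtain ⟨σ, hσ, hσδ⟩ := h1
  obtain ⟨π, hπ, hπ2⟩ := Odd.perm_sign hf hx σ
  refine ⟨σ, π, ?_, hπ, ?_⟩
  · intro y
    exact (IntermediateField.mem_fixingSubgroup_iff κ.fieldRange σ).1 hσ (κ y) ⟨y, rfl⟩
  · rcases Int.units_eq_one_or (Equiv.Perm.sign π) with h | h
    · exfalso
      apply hσδ
      have h2 := hπ2
      rw [h] at h2
      simpa using h2
    · exact h

end Pool.Agent.Helper28H.FE
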