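import Pool.Agent.Helper28H.FE.BasA

/-!
# Project FE, piece PAR: parities from the norm

Port of `Pool/Agent/N227/PJ/Par.lean`; the ring of integers has a power basis only locally.
-/

set_option autoImplicit false
set_option linter.all false

open Polynomial IsDedekindDomain WithZero UniqueFactorizationMonoid
open scoped Classical

namespace Pool.Agent.Helper28H.FE.Par

open Pool.Agent.N352.PJ
open Pool.Agent.N874.PP (Ov Ev Sq1 U0)
open Pool.Agent.N862.PP (algL_inj algO_inj isInt ov_iff val_eq ev_iff_count ev_mul_sq cn cn_sum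
  cn_zero cn_one not_ev_of_exp)
open Pool.Agent.N227.PJ (exists_t sum_t fd minp norm_lin parity inj crd_co smul_alg)
open BasA

section bas

variable {k K L O : Type} [Field k] [Field K] [Algebra k[X] K] [IsFractionRing k[X] K]
  [Field L] [Algebra K L] [Algebra k[X] L] [IsScalarTower k[X] K L] [CommRing O]
  [IsDedekindDomain O] [Algebra O L] [IsFractionRing O L] [Algebra k[X] O]
  [IsScalarTower k[X] O L] [IsIntegralClosure O k[X] L] {g : ℕ} {f : k[X][X]} {θ : L}

theorem sqf_root (h : IsGen g K f θ)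
    {P : k[X]} (hI : LI g θ P)
    {t : O} (ht : algebraMap O L t = θ) (hP : Irreducible P) (c : k[X]) :
    ∃ c', P ∣ c' - c ∧ ¬ P ^ 2 ∣ f.eval c' := by
  by_contra hno
  push Not at hno
  obtain ⟨e, he⟩ := hno c (by simp)
  obtain ⟨e', he'⟩ := hno (c + P) (by simp)
  set q := f /ₘ (X - C c) with hq
  have hfq : f = C (f.eval c) + (X - C c) * q := by
    have := modByMonic_add_div f (X - C c)
    rw [modByMonic_X_sub_C_eq_C_eval] at this
    exact this.symm
  set q2 := q /ₘ (X - C (c + P)) with hq2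
  have hqq : q = C (q.eval (c + P)) + (X - C (c + P)) * q2 := by
    have := modByMonic_add_div q (X - C (c + P))
    rw [modByMonic_X_sub_C_eq_C_eval] at this
    exact this.symm
  have h1 : q.eval (c + P) = P * (e' - e) := by
    have h2 := congrArg (Polynomial.eval (c + P)) hfq
    simp only [eval_add, eval_C, eval_mul, eval_sub, eval_X] at h2
    rw [he, he'] at h2
    refine mul_left_cancel₀ hP.ne_zero ?_
    linear_combination -h2
  have hdeg : f.natDegree = 2 * g + 1 := h.deg
  have hqd : q.natDegree = 2 * g := by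
    rw [hq, natDegree_divByMonic f (monic_X_sub_C c), hdeg, natDegree_X_sub_C]
    omega
  have hqm : q.coeff (2 * g) = 1 := by
    have h2 : q.leadingCoeff = f.leadingCoeff := by
      refine leadingCoeff_divByMonic_of_monic (monic_X_sub_C c) ?_
      rw [degree_X_sub_C, degree_eq_natDegree h.mon.ne_zero, hdeg]
      exact_mod_cast (by omega : 1 ≤ 2 * g + 1)
    rw [h.mon.leadingCoeff] at h2
    rw [← hqd]
    exact h2
  have hPL : algebraMap k[X] L P ≠ 0 := fun h0 =>
    hP.ne_zero (algL_inj (K := K) (by rw [h0, map_zero]))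
  -- the values at `θ`
  have hroot : aeval θ f = 0 := h.root
  have e1 : algebraMap k[X] L (P ^ 2 * e) + (θ - algebraMap k[X] L c) * aeval θ q = 0 := by
    rw [← hroot]
    conv_rhs => rw [hfq]
    rw [he]
    simp only [map_add, map_mul, map_sub, aeval_C, aeval_X]
  have e2 : aeval θ q = algebraMap k[X] L (P * (e' - e)) +
      (θ - algebraMap k[X] L (c + P)) * aeval θ q2 := by
    conv_lhs => rw [hqq]
    rw [h1]
    simp only [map_add, map_mul, map_sub, aeval_C, aeval_X]
  have hA : ∃ A : O, algebraMap O L A = aeval θ q2 := by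
    refine ⟨aeval t q2, ?_⟩
    rw [← ht, aeval_algebraMap_apply]
  obtain ⟨A, hA⟩ := hA
  obtain ⟨y, hy⟩ : ∃ y : L, aeval θ q = algebraMap k[X] L P * y :=
    ⟨aeval θ q / algebraMap k[X] L P, by field_simp⟩
  have hyint : IsIntegral O y := by
    refine ⟨X ^ 2 + C (A - algebraMap k[X] O (e' - e)) * X + C (algebraMap k[X] O e * A), ?_, ?_⟩
    · monicity!
    · simp only [eval₂_add, eval₂_mul, eval₂_pow, eval₂_sub, eval₂_X, eval₂_C, map_sub, map_mul, hA,
        ← IsScalarTower.algebraMap_apply k[X] O L]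
      rw [hy] at e1 e2
      simp only [map_mul, map_sub, map_add, map_pow] at e1 e2
      set p := algebraMap k[X] L P
      set θc := algebraMap k[X] L c
      set εe := algebraMap k[X] L e
      set εe' := algebraMap k[X] L e'
      set B := aeval θ q2
      have e3 : (θ - θc) * y = - (p * εe) := by
        refine mul_left_cancel₀ hPL ?_
        linear_combination e1
      refine mul_left_cancel₀ hPL ?_
      linear_combination y * e2 + B * e3
  obtain ⟨y', hy'⟩ := IsIntegrallyClosed.isIntegral_iff.mp hyint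
  obtain ⟨s, v, hs, hv⟩ := hI _ (isInt (L := L) y')
  rw [hy'] at hv
  have hcq : Crd g θ (fun i : Fin (2 * g + 1) => q.coeff i) (aeval θ q) := by
    unfold Crd
    rw [aeval_eq_sum_range' (n := 2 * g + 1) (by omega), Finset.sum_range]
    refine Finset.sum_congr rfl fun i _ => ?_
    rw [Algebra.smul_def]
  have h3 := crd_co h hcq (Fin.last (2 * g))
  have h5 := crd_co h hv (Fin.last (2 * g))
  rw [smul_alg (K := K), map_smul, smul_eq_mul] at h5
  rw [hy, smul_alg (K := K), map_smul, smul_eq_mul] at h3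
  apply hs
  refine ⟨v (Fin.last (2 * g)), ?_⟩
  apply inj (k := k) (K := K)
  simp only [Fin.val_last, hqm, map_one] at h3
  rw [map_mul, ← h5]
  linear_combination -(algebraMap k[X] K s) * h3

/-- primes of degree one -/
theorem cn_deg_one [Module.Finite k[X] O] [Module.IsTorsionFree k[X] O] (h : IsGen g K f θ)
    {P : k[X]} (hI : LI g θ P) (hP : Irreducible P) {𝔓 : HeightOneSpectrum O}
    (hov : Ov P 𝔓) {t : O} (ht : algebraMap O L t = θ) {c : k[X]}
    (hc : t - algebraMap k[X] O c ∈ 𝔓.asIdeal) :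
    cn k[X] (Ideal.span {P}) 𝔓.asIdeal = 1 := by
  have hfd := fd h
  have hpp : (Ideal.span {P} : Ideal k[X]).IsPrime :=
    (Ideal.span_singleton_prime hP.ne_zero).mpr hP.prime
  have hpb : (Ideal.span {P} : Ideal k[X]) ≠ ⊥ := by
    rw [Ne, Ideal.span_singleton_eq_bot]
    exact hP.ne_zero
  obtain ⟨c', ⟨d, hd⟩, hc'⟩ := sqf_root (K := K) h hI ht hP c
  refine cn_one hpp hpb 𝔓.isPrime ?_ (z := algebraMap k[X] O c' - t) ?_ ?_
  · ext x
    rw [Ideal.mem_comap, ov_iff hP hov, Ideal.mem_span_singleton]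
  · have h1 : algebraMap k[X] O c' - t = algebraMap k[X] O d * algebraMap k[X] O P -
        (t - algebraMap k[X] O c) := by
      have hd' : c' = c + P * d := by linear_combination hd
      rw [hd', map_add, map_mul]
      ring
    rw [h1]
    exact 𝔓.asIdeal.sub_mem (𝔓.asIdeal.mul_mem_left _ hov) hc
  · have h1 : Algebra.intNorm k[X] O (algebraMap k[X] O c' - t) = f.eval c' := by
      apply inj (k := k) (K := K)
      rw [Algebra.algebraMap_intNorm (L := L), map_sub, ht,
        ← IsScalarTower.algebraMap_apply k[X] O L, norm_lin h]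
    rw [h1, Ideal.span_singleton_pow, Ideal.mem_span_singleton]
    exact hc'

end bas

end Pool.Agent.Helper28H.FE.Par

namespace Pool.Agent.Helper28H.FE

open Pool.Agent.N352.PJ (Mt IsGen dsc Cg Crd res)
open Pool.Agent.N874.PP (Ov Ev Sq1 U0)
open Pool.Agent.N862.PP (algL_inj algO_inj isInt ov_iff val_eq cn cn_sum)
open Pool.Agent.N227.PJ (exists_t fd parity)

/-- **PAR.** -/
theorem a_par (hInt : A_INT) : A_PAR := by
  intro g k K L O _ _ _ _ _ _ _ _ _ _ _ _ _ _ _ f θ h P hP hD 𝔓₀ c hov hθ x hx hnx hoth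
  have hI : BasA.LI g θ P := hInt g k K L f θ h P hP hD
  have hD0 : dsc g f ≠ 0 := fun h0 => hD (by rw [h0]; exact dvd_zero _)
  obtain ⟨t, ht⟩ := exists_t (O := O) h
  have hfin : Module.Finite k[X] O := BasA.fin_O O h hD0
  have htf : Module.IsTorsionFree k[X] O := Pool.Agent.N862.PP.tf_O (K := K) (L := L)
  have hc : t - algebraMap k[X] O c ∈ 𝔓₀.asIdeal := by
    rw [← 𝔓₀.valuation_lt_one_iff_mem (K := L)]
    change 𝔓₀.valuation L (algebraMap O L (t - algebraMap k[X] O c)) < 1
    rw [map_sub, ht, ← IsScalarTower.algebraMap_apply k[X] O L]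
    exact hθ
  have h1 := Par.cn_deg_one h hI hP hov ht hc
  exact parity h hP 𝔓₀ hov (by rw [h1]; exact odd_one) hx hnx
    fun 𝔓 ho hne => Or.inl (hoth 𝔓 ho hne)

/-- **PARQ.** -/
theorem a_parq (hInt : A_INT) (hE : A_EXQ) : A_PARQ := by
  intro g k K L O _ _ _ _ _ _ _ _ _ _ _ _ _ _ _ _ f θ S hh hg h hS Q hQS hCg x hx hnx 𝔓 hov hθ
  have hQ : Irreducible Q := (hS Q hQS).2.1
  have hQd : ¬ Q ∣ dsc g f := BasA.not_dvd_dsc_Q hg h.mon h.deg hS hQS hCg
  have hI : BasA.LI g θ Q := hInt g k K L f θ h Q hQ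
    fun h0 => hQd ((dvd_pow_self Q two_ne_zero).trans h0)
  have hD0 : dsc g f ≠ 0 := fun h0 => hQd (by rw [h0]; exact dvd_zero _)
  obtain ⟨t, ht⟩ := exists_t (O := O) h
  have hfin : Module.Finite k[X] O := BasA.fin_O O h hD0
  have htf : Module.IsTorsionFree k[X] O := Pool.Agent.N862.PP.tf_O (K := K) (L := L)
  obtain ⟨𝔓₁, 𝔮, ov1, ov2, hv1, hv2, hQ1, hQ2, hall⟩ := hE g k K L O f θ S hh hg h hS Q hQS hCg
  have h𝔓 : 𝔓 = 𝔓₁ := by
    rcases hall 𝔓 hov with h' | h'
    · exact h'
    · rw [h', hv2] at hθ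
      exact absurd hθ (lt_irrefl _)
  have hne : 𝔓₁ ≠ 𝔮 := by
    intro h0
    rw [h0, hv2] at hv1
    exact absurd hv1 (lt_irrefl _)
  have ht1 : t ∈ 𝔓₁.asIdeal := by
    rw [← 𝔓₁.valuation_lt_one_iff_mem (K := L)]
    change 𝔓₁.valuation L (algebraMap O L t) < 1
    rw [ht]
    exact hv1
  have hc1 : cn k[X] (Ideal.span {Q}) 𝔓₁.asIdeal = 1 :=
    Par.cn_deg_one (c := 0) h hI hQ ov1 ht (by rw [map_zero, sub_zero]; exact ht1)
  have hQ0 : algebraMap k[X] O Q ≠ 0 := by
    intro h0
    exact hQ.ne_zero (algO_inj (K := K) (L := L) (by rw [h0, map_zero]))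
  have hcnt : ∀ 𝔓' : HeightOneSpectrum O, 𝔓'.valuation L (algebraMap k[X] L Q) = exp (-1 : ℤ) →
      (normalizedFactors (Ideal.span {algebraMap k[X] O Q})).count 𝔓'.asIdeal = 1 := by
    intro 𝔓' h'
    have h1 := val_eq (L := L) 𝔓' hQ0
    rw [← IsScalarTower.algebraMap_apply k[X] O L, h', exp_inj] at h1
    omega
  have hn : cn k[X] (Ideal.span {Q}) (Ideal.span {algebraMap k[X] O Q} : Ideal O) = 2 * g + 1 :=
    BasA.cn_P O h hQ
  have hQI : (Ideal.span {algebraMap k[X] O Q} : Ideal O) ≠ ⊥ := by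
    rw [Ne, Ideal.span_singleton_eq_bot]
    exact hQ0
  have hset : (normalizedFactors (Ideal.span {algebraMap k[X] O Q} : Ideal O)).toFinset =
      {𝔓₁.asIdeal, 𝔮.asIdeal} := by
    ext J
    simp only [Multiset.mem_toFinset, Finset.mem_insert, Finset.mem_singleton]
    constructor
    · intro hJ
      have hJp := prime_of_normalized_factor J hJ
      have hJ3 : J.IsPrime := Ideal.isPrime_of_prime hJp
      let 𝔓' : HeightOneSpectrum O := ⟨J, hJ3, hJp.ne_zero⟩
      have hov' : Ov Q 𝔓' := by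
        have h1 := dvd_of_mem_normalizedFactors hJ
        rw [Ideal.dvd_iff_le, Ideal.span_singleton_le_iff_mem] at h1
        exact h1
      rcases hall 𝔓' hov' with h' | h'
      · left
        rw [← h']
      · right
        rw [← h']
    · rintro (rfl | rfl)
      · rw [← Multiset.one_le_count_iff_mem, hcnt 𝔓₁ hQ1]
      · rw [← Multiset.one_le_count_iff_mem, hcnt 𝔮 hQ2]
  have hc2 : cn k[X] (Ideal.span {Q}) 𝔮.asIdeal = 2 * g := by
    rw [cn_sum _ hQI, hset, Finset.sum_pair (fun h0 => hne (HeightOneSpectrum.ext h0)),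
      hcnt 𝔓₁ hQ1, hcnt 𝔮 hQ2, hc1] at hn
    omega
  rw [h𝔓]
  refine parity h hQ 𝔓₁ ov1 (by rw [hc1]; exact odd_one) hx hnx fun 𝔓' ho hne' => Or.inr ?_
  rcases hall 𝔓' ho with h' | h'
  · exact absurd h' hne'
  · rw [h', hc2]
    exact even_two_mul g

end Pool.Agent.Helper28H.FE
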