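import Pool.Agent.Helper28H.FE.BasA

/-!
# Project FE, piece PIN: parity at an inert prime

Port of `Pool/Agent/N738/JM/P3.lean`. The reduction is separable since the residue field is finite,
so the prime does not divide the discriminant.
-/

set_option autoImplicit false
set_option linter.all false

open Polynomial IsDedekindDomain WithZero UniqueFactorizationMonoid
open scoped Classical

namespace Pool.Agent.Helper28H.FE.Pin

open Pool.Agent.N352.PJ
open Pool.Agent.N227.PJ
open Pool.Agent.N874.PP (Ov Ev Sq1 U0)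
open Pool.Agent.N862.PP (algL_inj algO_inj isInt cn)
open BasA

section

variable {k K L O : Type} [Field k] [Field K] [Algebra k[X] K] [IsFractionRing k[X] K]
  [Field L] [Algebra K L] [Algebra k[X] L] [IsScalarTower k[X] K L] [CommRing O]
  [IsDedekindDomain O] [Algebra O L] [IsFractionRing O L] [Algebra k[X] O]
  [IsScalarTower k[X] O L] [IsIntegralClosure O k[X] L] {g : ℕ} {f : k[X][X]} {θ : L}

/-- The only prime over `P` is `P O`. -/
theorem eq_span (h : IsGen g K f θ) {P : k[X]} (hI : LI g θ P)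
    {t : O} (ht : algebraMap O L t = θ) (hP : Irreducible P)
    (hirr : Irreducible (f.map (Ideal.Quotient.mk (Ideal.span {P}))))
    {𝔓 : HeightOneSpectrum O} (hov : Ov P 𝔓) :
    𝔓.asIdeal = Ideal.span {algebraMap k[X] O P} := by
  have hmax : (Ideal.span {P} : Ideal k[X]).IsMaximal :=
    PrincipalIdealRing.isMaximal_of_irreducible hP
  letI : Field (k[X] ⧸ Ideal.span {P}) := Ideal.Quotient.field _
  have hpr : 𝔓.asIdeal.IsPrime := 𝔓.isPrime
  haveI : Nontrivial (O ⧸ 𝔓.asIdeal) := Ideal.Quotient.nontrivial_iff.mpr hpr.ne_top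
  have hle : (Ideal.span {P} : Ideal k[X]) ≤ 𝔓.asIdeal.comap (algebraMap k[X] O) := by
    rw [Ideal.span_singleton_le_iff_mem]
    exact hov
  let ι : (k[X] ⧸ Ideal.span {P}) →+* (O ⧸ 𝔓.asIdeal) :=
    Ideal.quotientMap 𝔓.asIdeal (algebraMap k[X] O) hle
  have hι : ι.comp (Ideal.Quotient.mk (Ideal.span {P})) =
      (Ideal.Quotient.mk 𝔓.asIdeal).comp (algebraMap k[X] O) := by
    ext x <;> simp [ι, Ideal.quotientMap_mk]
  -- evaluation at `t`
  have hev : ∀ p : k[X][X], (p.map (Ideal.Quotient.mk (Ideal.span {P}))).eval₂ ι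
      (Ideal.Quotient.mk 𝔓.asIdeal t) = Ideal.Quotient.mk 𝔓.asIdeal (aeval t p) := by
    intro p
    rw [eval₂_map, hι, aeval_def, hom_eval₂]
  have hft : aeval t f = 0 := by
    apply IsFractionRing.injective O L
    rw [map_zero, ← aeval_algebraMap_apply, ht]
    exact h.root
  refine le_antisymm ?_ ?_
  · intro z hz
    obtain ⟨s, v, hs, hv⟩ := hI _ (isInt (L := L) z)
    have h1 : algebraMap k[X] O s * z = ∑ i, v i • t ^ (i : ℕ) := by
      apply IsFractionRing.injective O L
      rw [sum_t ht, map_mul, ← IsScalarTower.algebraMap_apply k[X] O L]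
      exact hv
    set p : k[X][X] := ∑ i : Fin (2 * g + 1), C (v i) * X ^ (i : ℕ) with hp
    have hpt : aeval t p = algebraMap k[X] O s * z := by
      rw [hp, map_sum, h1]
      refine Finset.sum_congr rfl fun i _ => ?_
      rw [map_mul, map_pow, aeval_C, aeval_X, Algebra.smul_def]
    have hpd : p.natDegree < 2 * g + 1 := by
      refine lt_of_le_of_lt (natDegree_sum_le_of_forall_le (n := 2 * g) _ _ fun i _ => ?_) (by omega)
      refine (natDegree_C_mul_X_pow_le _ _).trans ?_
      have := i.2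
      omega
    have hsz : algebraMap k[X] O s * z ∈ 𝔓.asIdeal := 𝔓.asIdeal.mul_mem_left _ hz
    have hdvd : f.map (Ideal.Quotient.mk (Ideal.span {P})) ∣
        p.map (Ideal.Quotient.mk (Ideal.span {P})) := by
      by_contra hnd
      obtain ⟨a, b, hab⟩ := (hirr.coprime_iff_not_dvd).2 hnd
      have h2 := congrArg (fun q => q.eval₂ ι (Ideal.Quotient.mk 𝔓.asIdeal t)) hab
      simp only [eval₂_add, eval₂_mul, eval₂_one, hev, hft, hpt, map_zero, mul_zero, zero_add] at h2
      rw [Ideal.Quotient.eq_zero_iff_mem.mpr hsz, mul_zero] at h2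
      exact zero_ne_one h2
    have hz0 : p.map (Ideal.Quotient.mk (Ideal.span {P})) = 0 := by
      refine eq_zero_of_dvd_of_natDegree_lt hdvd ?_
      rw [h.mon.natDegree_map, h.deg]
      exact lt_of_le_of_lt natDegree_map_le hpd
    have hPv : ∀ i, P ∣ v i := by
      intro i
      have h3 := congrArg (fun q => q.coeff (i : ℕ)) hz0
      simp only [coeff_map, coeff_zero] at h3
      have h4 : p.coeff (i : ℕ) = v i := by
        rw [hp, finset_sum_coeff]
        rw [Finset.sum_eq_single i]
        · rw [coeff_C_mul, coeff_X_pow, if_pos rfl, mul_one]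
        · intro j _ hj
          rw [coeff_C_mul, coeff_X_pow, if_neg, mul_zero]
          exact fun h5 => hj (Fin.ext h5.symm)
        · intro h5
          exact absurd (Finset.mem_univ _) h5
      rw [h4, Ideal.Quotient.eq_zero_iff_mem, Ideal.mem_span_singleton] at h3
      exact h3
    have h5 : algebraMap k[X] O s * z ∈ Ideal.span {algebraMap k[X] O P} := by
      rw [h1]
      refine Ideal.sum_mem _ fun i _ => ?_
      obtain ⟨c, hc⟩ := hPv i
      rw [hc, Algebra.smul_def, map_mul, mul_assoc]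
      exact Ideal.mul_mem_right _ _ (Ideal.mem_span_singleton_self _)
    obtain ⟨s', d, hd⟩ := exists_inv hP hs
    have h6 : z = algebraMap k[X] O s' * (algebraMap k[X] O s * z) -
        algebraMap k[X] O P * (algebraMap k[X] O d * z) := by
      have h7 := congrArg (algebraMap k[X] O) hd
      rw [map_sub, map_mul, map_mul, map_one] at h7
      linear_combination (-z) * h7
    rw [h6]
    exact Ideal.sub_mem _ (Ideal.mul_mem_left _ _ h5)
      (Ideal.mul_mem_right _ _ (Ideal.mem_span_singleton_self _))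
  · rw [Ideal.span_singleton_le_iff_mem]
    exact hov

end

end Pool.Agent.Helper28H.FE.Pin

namespace Pool.Agent.Helper28H.FE

open Pool.Agent.N352.PJ (Mt IsGen dsc Cg Crd res)
open Pool.Agent.N874.PP (Ov Ev Sq1 U0)
open Pool.Agent.N862.PP (cn)
open Pool.Agent.N227.PJ (exists_t fd parity)

/-- **PIN.** -/
theorem a_pin (hInt : A_INT) : A_PIN := by
  intro g k K L O _ _ _ _ _ _ _ _ _ _ _ _ _ _ _ _ f θ h P hP hirr x hx hnx 𝔓 hov
  have hPd : ¬ P ∣ dsc g f := BasA.not_dvd_dsc h.mon h.deg hP (BasA.sep_of_irr hP hirr)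
  have hI : BasA.LI g θ P := hInt g k K L f θ h P hP
    fun h0 => hPd ((dvd_pow_self P two_ne_zero).trans h0)
  have hD0 : dsc g f ≠ 0 := fun h0 => hPd (by rw [h0]; exact dvd_zero _)
  obtain ⟨t, ht⟩ := exists_t (O := O) h
  have hfin : Module.Finite k[X] O := BasA.fin_O O h hD0
  have htf : Module.IsTorsionFree k[X] O := Pool.Agent.N862.PP.tf_O (K := K) (L := L)
  have hspan : ∀ 𝔮 : HeightOneSpectrum O, Ov P 𝔮 →
      𝔮.asIdeal = Ideal.span {algebraMap k[X] O P} :=
    fun 𝔮 hq => Pin.eq_span h hI ht hP hirr hq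
  refine parity h hP 𝔓 hov ?_ hx hnx fun 𝔮 ho hne => ?_
  · rw [hspan 𝔓 hov, BasA.cn_P O h hP]
    exact odd_two_mul_add_one g
  · exact absurd (HeightOneSpectrum.ext ((hspan 𝔮 ho).trans (hspan 𝔓 hov).symm)) hne

end Pool.Agent.Helper28H.FE
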