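import Pool.Agent.Helper28H.FE.SelM3
import Pool.Agent.N874.JM.Final

/-!
# Piece SELM: the fields
-/

set_option autoImplicit false
set_option linter.all false

open Polynomial IsDedekindDomain
open scoped Classical IntermediateField

namespace Pool.Agent.Helper28H.FE.SelM

open Pool.Agent.N352.PJ (IsGen dsc Cg)
open Pool.Agent.N783.PQ (LocIm)
open Pool.Agent.N874.JM (LocF Parts exists_field irr_up)
open Pool.Agent.N874.TW
open Pool.Agent.N874.PP (Ov Ev Sq1 U0 S_CLS exists_below below_unique)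
open Pool.Agent.N352.JB (SelTriv)

/-- The polynomial is the minimal polynomial of `θ`. -/
theorem gen_top {g : ℕ} {k K L : Type} [Field k] [Field K] [Algebra k[X] K] [Field L]
    [Algebra K L] [Algebra k[X] L] {f : k[X][X]} {θ : L} (hc : IsGen g K f θ) : K⟮θ⟯ = ⊤ := by
  rw [eq_top_iff]
  intro x _
  obtain ⟨c, rfl⟩ := hc.gen x
  refine sum_mem fun i _ => mul_mem (IntermediateField.algebraMap_mem _ _)
    (pow_mem (IntermediateField.mem_adjoin_simple_self K θ) _)

theorem gen_min {g : ℕ} {k K L : Type} [Field k] [Field K] [Algebra k[X] K] [Field L]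
    [Algebra K L] [Algebra k[X] L] [IsScalarTower k[X] K L] {f : k[X][X]} {θ : L}
    (hc : IsGen g K f θ) : minpoly K θ = f.map (algebraMap k[X] K) := by
  have h1 : aeval θ (f.map (algebraMap k[X] K)) = 0 := by
    rw [aeval_map_algebraMap, aeval_def]
    exact hc.root
  have hm : (f.map (algebraMap k[X] K)).Monic := hc.mon.map _
  have hint : IsIntegral K θ := ⟨_, hm, by rw [← aeval_def]; exact h1⟩
  have h2 := minpoly.dvd K θ h1
  have h3 : Module.finrank K K⟮θ⟯ = (minpoly K θ).natDegree :=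
    IntermediateField.adjoin.finrank hint
  rw [gen_top hc, IntermediateField.finrank_top', hc.rank] at h3
  refine (eq_of_monic_of_dvd_of_natDegree_le (minpoly.monic hint) hm h2 ?_).symm
  rw [hc.mon.natDegree_map, hc.deg, h3]

theorem gen_irr {g : ℕ} {k K L : Type} [Field k] [Field K] [Algebra k[X] K] [Field L]
    [Algebra K L] [Algebra k[X] L] [IsScalarTower k[X] K L] {f : k[X][X]} {θ : L}
    (hc : IsGen g K f θ) : Irreducible (f.map (algebraMap k[X] K)) := by
  rw [← gen_min hc]
  have hm : (f.map (algebraMap k[X] K)).Monic := hc.mon.map _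
  exact minpoly.irreducible ⟨_, hm, by
    rw [← aeval_def, aeval_map_algebraMap, aeval_def]
    exact hc.root⟩

/-- Unramified primes in terms of ideals. -/
theorem val_iff {k M R : Type} [Field k] [Field M] [Algebra k[X] M] [CommRing R]
    [IsDedekindDomain R] [Algebra R M] [IsFractionRing R M] [Algebra k[X] R]
    [IsScalarTower k[X] R M] (P : k[X]) (w : HeightOneSpectrum R)
    (hP : algebraMap k[X] R P ∈ w.asIdeal) :
    w.valuation M (algebraMap k[X] M P) = WithZero.exp (-1 : ℤ) ↔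
      algebraMap k[X] R P ∉ w.asIdeal ^ 2 := by
  rw [IsScalarTower.algebraMap_apply k[X] R M, HeightOneSpectrum.valuation_of_algebraMap]
  have h1 := (w.intValuation_le_pow_iff_mem (algebraMap k[X] R P) 1).2 (by rwa [pow_one])
  have h2 := w.intValuation_le_pow_iff_mem (algebraMap k[X] R P) 2
  rw [← h2]
  constructor
  · intro h
    rw [h, WithZero.exp_le_exp]
    norm_num
  · intro h
    rw [not_le] at h
    have h0 : w.intValuation (algebraMap k[X] R P) ≠ 0 := by
      intro h0
      rw [h0] at h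
      exact not_lt_zero' h
    rw [← WithZero.exp_log h0, WithZero.exp_le_exp] at h1
    rw [← WithZero.exp_log h0, WithZero.exp_lt_exp] at h
    rw [← WithZero.exp_log h0]
    congr 1
    push_cast at h1 h
    omega

section tr

variable {k M : Type} [Field k] [Field M] [Algebra k[X] M] (R : Type)
  [CommRing R] [IsDedekindDomain R] [Algebra R M] [IsFractionRing R M] [Algebra k[X] R]
  [IsScalarTower k[X] R M] [IsIntegralClosure R k[X] M]

/-- Change of the integral closure. -/
theorem chg (w : HeightOneSpectrum R) :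
    ∃ (w' : HeightOneSpectrum (integralClosure k[X] M)) (e : integralClosure k[X] M ≃ₐ[k[X]] R),
      ∀ (n : ℕ) (x : integralClosure k[X] M), x ∈ w'.asIdeal ^ n ↔ e x ∈ w.asIdeal ^ n := by
  let e : integralClosure k[X] M ≃ₐ[k[X]] R :=
    IsIntegralClosure.equiv k[X] (integralClosure k[X] M) M R
  have h1 : ∀ I : Ideal R, I.comap e.toRingEquiv = I.map e.toRingEquiv.symm := fun I =>
    (Ideal.map_symm e.toRingEquiv).symm
  refine ⟨⟨w.asIdeal.comap e.toRingEquiv, inferInstance, ?_⟩, e, fun n x => ?_⟩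
  · intro h0
    apply w.ne_bot
    rw [eq_bot_iff]
    intro y hy
    have h2 : e.symm y ∈ w.asIdeal.comap e.toRingEquiv := by
      rw [Ideal.mem_comap]
      have : e.toRingEquiv (e.symm y) = y := e.apply_symm_apply y
      rw [this]
      exact hy
    rw [h0, Ideal.mem_bot] at h2
    rw [Ideal.mem_bot, ← e.apply_symm_apply y, h2, map_zero]
  · change x ∈ (w.asIdeal.comap e.toRingEquiv) ^ n ↔ _
    rw [h1, ← Ideal.map_pow, ← h1]
    exact Iff.rfl

theorem split_iff {P : k[X]} (h : SplitsIn M P) (w : HeightOneSpectrum R) (hw : Ov P w) :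
    w.valuation M (algebraMap k[X] M P) = WithZero.exp (-1 : ℤ) ∧
      Function.Surjective ((Ideal.Quotient.mk w.asIdeal).comp (algebraMap k[X] R)) := by
  obtain ⟨w', e, he⟩ := chg (k := k) (M := M) R w
  have he1 : ∀ x : integralClosure k[X] M, x ∈ w'.asIdeal ↔ e x ∈ w.asIdeal := by
    intro x
    have := he 1 x
    rwa [pow_one, pow_one] at this
  obtain ⟨h1, h2⟩ := h w' ((he1 _).2 (by rw [e.commutes]; exact hw))
  refine ⟨?_, ?_⟩
  · rw [val_iff P w hw]
    intro h3
    exact h1 ((he 2 _).2 (by rw [e.commutes]; exact h3))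
  · intro y
    obtain ⟨y, rfl⟩ := Ideal.Quotient.mk_surjective y
    obtain ⟨c, hc⟩ := h2 (e.symm y)
    refine ⟨c, ?_⟩
    rw [RingHom.comp_apply, Ideal.Quotient.eq, ← neg_mem_iff, neg_sub]
    have := (he1 _).1 hc
    rwa [map_sub, e.apply_symm_apply, e.commutes] at this

theorem unr_iff {P : k[X]} (h : UnrAt M P) (w : HeightOneSpectrum R) (hw : Ov P w) :
    w.valuation M (algebraMap k[X] M P) = WithZero.exp (-1 : ℤ) := by
  obtain ⟨w', e, he⟩ := chg (k := k) (M := M) R w
  have he1 : ∀ x : integralClosure k[X] M, x ∈ w'.asIdeal ↔ e x ∈ w.asIdeal := by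
    intro x
    have := he 1 x
    rwa [pow_one, pow_one] at this
  have h1 := h w' ((he1 _).2 (by rw [e.commutes]; exact hw))
  rw [val_iff P w hw]
  intro h3
  exact h1 ((he 2 _).2 (by rw [e.commutes]; exact h3))

end tr

theorem selm (hCSQ : A_CSQ) (hPIN : A_PIN) (hPAR : A_PAR) (hPARQ : A_PARQ)
    (hRAM : A_RAM) (hBACK : D_BACK) : C_SELM := by
  intro g k K L O _ _ _ _ _ _ _ _ _ _ _ _ _ _ _ _ _ _ _ f θ S J s R₁ _ _ _ _ v₁ hg h2 hc hS
    hcon hJ htr hbJ hiJ δ hδ M R _ _ _ _ _ _ _ _ _ _ _ _ hadm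
  have H : Parts := Pool.Agent.N874.JM.parts
  obtain ⟨n, hM⟩ := hadm.deg
  haveI := hadm.gal
  have hm := hc.mon
  have hd := hc.deg
  have hirr := gen_irr hc
  set pK : K[X] := f.map (algebraMap k[X] K) with hpK
  have hmK : pK.Monic := hm.map _
  have hdK : pK.natDegree = 2 * g + 1 := by rw [hpK, hm.natDegree_map, hd]
  have hirrM : Irreducible (pK.map (algebraMap K M)) :=
    irr_up hM hirr hmK (by rw [hdK]; exact odd_two_mul_add_one g)
  have hmM : (pK.map (algebraMap K M)).Monic := hmK.map _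
  have hdM : (pK.map (algebraMap K M)).natDegree = 2 * g + 1 := by
    rw [hmK.natDegree_map, hdK]
  have hJ0 : (∏ Q ∈ J, Q) ≠ 0 := by
    rw [Finset.prod_ne_zero_iff]
    exact fun Q hQ => (hS Q (hJ hQ)).2.1.ne_zero
  have hD0 : (∏ Q ∈ J, Q) * δ ≠ 0 := mul_ne_zero hJ0 hδ.ne
  have hsc : ∀ D : k[X], (f.scaleRoots D).map (algebraMap k[X] M) =
      (pK.map (algebraMap K M)).scaleRoots (algebraMap k[X] M D) := by
    intro D
    rw [hpK, Polynomial.map_map, ← IsScalarTower.algebraMap_eq k[X] K M]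
    apply map_scaleRoots
    rw [hm.leadingCoeff, map_one]
    exact one_ne_zero
  have hDM : ∀ D : k[X], D ≠ 0 → algebraMap k[X] M D ≠ 0 := by
    intro D hD
    rw [IsScalarTower.algebraMap_apply k[X] K M, Ne, map_eq_zero,
      IsFractionRing.to_map_eq_zero_iff]
    exact hD
  have hirrD : Irreducible ((f.scaleRoots ((∏ Q ∈ J, Q) * δ)).map (algebraMap k[X] M)) := by
    rw [hsc]
    exact irr_scale' (hDM _ hD0) hirrM
  refine ⟨hirrD, ?_⟩
  have hsep : pK.Separable := by
    rw [hpK, ← gen_min hc]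
    exact Algebra.IsSeparable.isSeparable K θ
  obtain ⟨Ω, instF, instA, t, ht, hrk, htop, hfin, hmin⟩ := exists_field hirrM hmM
  rw [hdM] at hrk
  letI : Algebra K Ω := ((algebraMap M Ω).comp (algebraMap K M)).toAlgebra
  haveI : IsScalarTower K M Ω := IsScalarTower.of_algebraMap_eq fun x => rfl
  letI : Algebra k[X] Ω := ((algebraMap M Ω).comp (algebraMap k[X] M)).toAlgebra
  haveI : IsScalarTower k[X] M Ω := IsScalarTower.of_algebraMap_eq fun x => rfl
  -- the embedding of `L`
  haveI : Fact (Irreducible pK) := ⟨hirr⟩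
  have htf : aeval t pK = 0 := by
    rw [aeval_map_algebraMap] at ht
    exact ht
  haveI : FiniteDimensional K (AdjoinRoot pK) := hmK.finite_adjoinRoot
  obtain ⟨φ₁, hφ₁⟩ : ∃ φ : AdjoinRoot pK →ₐ[K] L, φ (AdjoinRoot.root pK) = θ := by
    refine ⟨AdjoinRoot.liftAlgHom pK (Algebra.ofId K L) θ ?_, ?_⟩
    · rw [Algebra.toRingHom_ofId, ← aeval_def, hpK, aeval_map_algebraMap, aeval_def]
      exact hc.root
    · rw [AdjoinRoot.liftAlgHom_root]
  obtain ⟨φ₂, hφ₂⟩ : ∃ φ : AdjoinRoot pK →ₐ[K] Ω, φ (AdjoinRoot.root pK) = t := by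
    refine ⟨AdjoinRoot.liftAlgHom pK (Algebra.ofId K Ω) t ?_, ?_⟩
    · rw [Algebra.toRingHom_ofId, ← aeval_def]
      exact htf
    · rw [AdjoinRoot.liftAlgHom_root]
  have hrk1 : Module.finrank K (AdjoinRoot pK) = Module.finrank K L := by
    rw [hc.rank, (AdjoinRoot.powerBasis hmK.ne_zero).finrank, AdjoinRoot.powerBasis_dim, hdK]
  have hsur : Function.Surjective φ₁ :=
    (LinearMap.injective_iff_surjective_of_finrank_eq_finrank (f := φ₁.toLinearMap) hrk1).1
      φ₁.toRingHom.injective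
  obtain ⟨e, he⟩ : ∃ e : AdjoinRoot pK ≃ₐ[K] L, ∀ x, e x = φ₁ x :=
    ⟨AlgEquiv.ofBijective φ₁ ⟨φ₁.toRingHom.injective, hsur⟩, fun _ => rfl⟩
  obtain ⟨ψ, hψ⟩ : ∃ ψ : L →ₐ[K] Ω, ψ θ = t := by
    refine ⟨φ₂.comp e.symm.toAlgHom, ?_⟩
    have h1 : e.symm θ = AdjoinRoot.root pK := by
      rw [AlgEquiv.symm_apply_eq, he, hφ₁]
    change φ₂ (e.symm θ) = t
    rw [h1, hφ₂]
  letI : Algebra L Ω := ψ.toRingHom.toAlgebra
  have hL : ∀ x : L, algebraMap L Ω x = ψ x := fun x => rfl
  haveI : IsScalarTower K L Ω := by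
    refine IsScalarTower.of_algebraMap_eq fun x => ?_
    rw [hL, ψ.commutes]
  haveI : IsScalarTower k[X] L Ω := by
    refine IsScalarTower.of_algebraMap_eq fun x => ?_
    rw [IsScalarTower.algebraMap_apply k[X] K L,
      ← IsScalarTower.algebraMap_apply K L Ω,
      IsScalarTower.algebraMap_apply k[X] M Ω, IsScalarTower.algebraMap_apply k[X] K M,
      ← IsScalarTower.algebraMap_apply K M Ω]
  haveI : FiniteDimensional K Ω := FiniteDimensional.trans K M Ω
  haveI : Algebra.IsSeparable M Ω := by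
    have hs : (pK.map (algebraMap K M)).Separable := hsep.map
    have hsep' : IsSeparable M t := by
      unfold IsSeparable
      rw [hmin]
      exact hs
    haveI := (IntermediateField.isSeparable_adjoin_simple_iff_isSeparable M Ω).2 hsep'
    rw [htop] at this
    exact AlgEquiv.Algebra.isSeparable (IntermediateField.topEquiv (F := M) (E := Ω))
  haveI : Algebra.IsSeparable K Ω := Algebra.IsSeparable.trans K M Ω
  haveI : IsScalarTower k[X] K Ω := by
    refine IsScalarTower.of_algebraMap_eq fun x => ?_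
    rw [IsScalarTower.algebraMap_apply k[X] M Ω, IsScalarTower.algebraMap_apply k[X] K M,
      ← IsScalarTower.algebraMap_apply K M Ω]
  haveI : Module.Finite k[X] R := IsIntegralClosure.finite k[X] K M R
  haveI : IsDedekindDomain (integralClosure k[X] Ω) := integralClosure.isDedekindDomain k[X] K Ω
  haveI : IsFractionRing (integralClosure k[X] Ω) Ω :=
    integralClosure.isFractionRing_of_finite_extension K Ω
  haveI : Module.Finite k[X] (integralClosure k[X] Ω) := IsIntegralClosure.finite k[X] K Ω _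
  haveI : FiniteDimensional M Ω := FiniteDimensional.right K M Ω
  haveI : FiniteDimensional L Ω := FiniteDimensional.right K L Ω
  haveI : Algebra.IsSeparable L Ω := Algebra.isSeparable_tower_top_of_isSeparable K L Ω
  have hθt : algebraMap L Ω θ = t := by rw [hL, hψ]
  have hsel := selU (K := K) (M := M) (Ω := Ω) (δ := δ) O (integralClosure k[X] Ω) R v₁ H hCSQ
    hPIN hPAR hPARQ hRAM hBACK h2 hg hc hS hcon hJ htr (by rw [hθt]; exact htop)
    (by rw [hθt]; exact hmin)
    (fun Q hQ w hw => split_iff R (hadm.spl Q (hS Q (hJ hQ)).2.1 (Finset.dvd_prod_of_mem _ hQ)) w hw)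
    (fun P hP hP2 w hw => split_iff R (hadm.bad P hP hP2) w hw) hadm.inf
    (fun P h1 h2 h3 => by
      rcases h3 with ⟨w, hw, hne⟩ | h3
      · exact hadm.ram P h2 fun h4 => hne (unr_iff R h4 w hw)
      · exact hδ.irr P h2 h3)
    hD0
    (fun P v hP hv hP2 => by
      rw [map_mul, map_mul]
      exact (hbJ P v hP hv hP2).mul (hδ.bad P v hP hv hP2))
    (by
      rw [map_mul, map_mul]
      exact hiJ.mul hδ.inf) hM hrk
  rw [hθt] at hsel
  generalize (∏ Q ∈ J, Q) * δ = D at hD0 hirrD hsel ⊢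
  intro h hcop hnorm hloc
  set F' : M[X] := (f.scaleRoots D).map (algebraMap k[X] M) with hF'
  haveI hfact' : Fact (Irreducible F') := ⟨hirrD⟩
  set Θ : Ω := algebraMap k[X] Ω D * t with hΘ
  have hrootD : aeval Θ F' = 0 := by
    rw [hF', aeval_map_algebraMap]
    have h1 := scaleRoots_eval₂_mul (p := f) (algebraMap k[X] Ω) t D
    have h3 : eval₂ (algebraMap k[X] Ω) t f = 0 := by
      rw [hpK, aeval_map_algebraMap, aeval_def] at htf
      exact htf
    rw [h3, mul_zero] at h1
    rw [aeval_def]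
    exact h1
  have hmF' : F'.Monic := ((monic_scaleRoots_iff D).2 hm).map _
  let φ : AdjoinRoot F' →ₐ[M] Ω := AdjoinRoot.liftAlgHom F' (Algebra.ofId M _) Θ hrootD
  have hφmk : ∀ p : M[X], φ (AdjoinRoot.mk F' p) = aeval Θ p := by
    intro p
    have h1 := AdjoinRoot.liftAlgHom_mk F' (Algebra.ofId M Ω) Θ hrootD p
    rw [Algebra.toRingHom_ofId, ← Polynomial.aeval_def] at h1
    exact h1
  have hφinj : Function.Injective φ := φ.toRingHom.injective
  haveI : FiniteDimensional M (AdjoinRoot F') := hmF'.finite_adjoinRoot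
  have hrk' : Module.finrank M (AdjoinRoot F') = Module.finrank M Ω := by
    rw [hrk, (AdjoinRoot.powerBasis hmF'.ne_zero).finrank, AdjoinRoot.powerBasis_dim, hF',
      ((monic_scaleRoots_iff D).2 hm).natDegree_map, natDegree_scaleRoots, hd]
  have hφsurj : Function.Surjective φ :=
    (LinearMap.injective_iff_surjective_of_finrank_eq_finrank (f := φ.toLinearMap) hrk').1 hφinj
  let e' : AdjoinRoot F' ≃ₐ[M] Ω := AlgEquiv.ofBijective φ ⟨hφinj, hφsurj⟩
  have hemk : ∀ p : M[X], e' (AdjoinRoot.mk F' p) = aeval Θ p := hφmk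
  have hne : aeval Θ h ≠ 0 := by
    intro h0
    obtain ⟨u, v, huv⟩ := hcop
    have := congrArg (aeval Θ) huv
    rw [map_add, map_mul, map_mul, hrootD, h0, mul_zero, mul_zero, add_zero, map_one] at this
    exact zero_ne_one this
  have hnorm' : IsSquare (Algebra.norm M (aeval Θ h)) := by
    rw [← hemk, Algebra.norm_eq_of_algEquiv]
    exact hnorm
  obtain ⟨y, hy⟩ := hsel h hne hnorm' hloc
  obtain ⟨z, rfl⟩ := hφsurj y
  obtain ⟨s', rfl⟩ := AdjoinRoot.mk_surjective z
  refine ⟨s', ?_⟩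
  rw [← AdjoinRoot.mk_eq_zero]
  apply hφinj
  rw [map_zero, hφmk, map_sub, map_pow, sub_eq_zero]
  rw [hφmk] at hy
  rw [pow_two]
  exact hy

end Pool.Agent.Helper28H.FE.SelM
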