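import Pool.Agent.Helper28H.FE.Stm3
import Pool.Agent.Helper28H.FE.SelM4

/-!
# Piece QUAD: quadratic extensions are admissible
-/

set_option autoImplicit false
set_option linter.all false

open Polynomial IsDedekindDomain
open scoped Classical IntermediateField

namespace Pool.Agent.Helper28H.FE.Quad

open Pool.Agent.N352.PJ (IsGen dsc Cg)
open Pool.Agent.N874.PP (Ov exists_below below_unique)
open Pool.Agent.N874.PM (ov_val val_le val_eq_of)
open Pool.Agent.Helper28H.FE.SelM (val_iff)

/-- the prime `v = (P)` -/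
theorem v_eq {k : Type} [Field k] {P : k[X]} (hP : Irreducible P) (v : HeightOneSpectrum k[X])
    (h : P ∈ v.asIdeal) : v.asIdeal = Ideal.span {P} := by
  haveI hmax : (Ideal.span {P}).IsMaximal := PrincipalIdealRing.isMaximal_of_irreducible hP
  refine (hmax.eq_of_le v.isPrime.ne_top ?_).symm
  rw [Ideal.span_le, Set.singleton_subset_iff]
  exact h

theorem not_sq {k : Type} [Field k] {P : k[X]} (hP : Irreducible P) (v : HeightOneSpectrum k[X])
    (h : P ∈ v.asIdeal) : P ∉ v.asIdeal ^ 2 := by
  intro h2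
  rw [v_eq hP v h, Ideal.span_singleton_pow, Ideal.mem_span_singleton] at h2
  have h4 : P * P ∣ P * 1 := by rwa [mul_one, ← pow_two]
  exact hP.not_isUnit (isUnit_of_dvd_one ((mul_dvd_mul_iff_left hP.ne_zero).1 h4))

section quad

variable {k K M : Type} [Field k] [Field K] [Algebra k[X] K]
  [IsFractionRing k[X] K] [Field M] [Algebra K M] [Algebra k[X] M] [IsScalarTower k[X] K M]
  {δ : k[X]} {y : M}

/-- the basis `1, y` -/
theorem gen (hM : Module.finrank K M = 2) (hy : ∀ x : K, algebraMap K M x ≠ y) (x : M) :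
    ∃ a b : K, x = algebraMap K M a + algebraMap K M b * y := by
  have hli : LinearIndependent K ![(1 : M), y] := by
    rw [LinearIndependent.pair_iff]
    intro s t hst
    by_cases ht : t = 0
    · subst ht
      rw [zero_smul, add_zero, smul_eq_zero] at hst
      exact ⟨hst.resolve_right one_ne_zero, rfl⟩
    · exfalso
      apply hy (-(s / t))
      rw [Algebra.smul_def, Algebra.smul_def, mul_one] at hst
      have ht' : algebraMap K M t ≠ 0 := (_root_.map_ne_zero (algebraMap K M)).2 ht
      rw [map_neg, map_div₀]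
      field_simp
      linear_combination -hst
  have h1 := hli.span_eq_top_of_card_eq_finrank (by rw [hM, Fintype.card_fin])
  have h2 : x ∈ Submodule.span K (Set.range ![(1 : M), y]) := by
    rw [h1]
    exact Submodule.mem_top
  rw [Matrix.range_cons, Matrix.range_cons, Matrix.range_empty, Set.union_empty,
    Set.singleton_union, Submodule.mem_span_pair] at h2
  obtain ⟨a, b, hab⟩ := h2
  refine ⟨a, b, ?_⟩
  rw [← hab, Algebra.smul_def, Algebra.smul_def, mul_one]

/-- splitting field -/
theorem spf (hM : Module.finrank K M = 2) (h : y ^ 2 = algebraMap k[X] M δ)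
    (hy : ∀ x : K, algebraMap K M x ≠ y) :
    IsSplittingField K M (X ^ 2 - C (algebraMap k[X] K δ)) := by
  have e : (X ^ 2 - C (algebraMap k[X] K δ) : K[X]).map (algebraMap K M) =
      (X - C y) * (X - C (-y)) := by
    rw [Polynomial.map_sub, Polynomial.map_pow, map_X, map_C, ← IsScalarTower.algebraMap_apply,
      ← h, C_pow, C_neg]
    ring
  refine ⟨?_, ?_⟩
  · rw [e]
    exact (Splits.X_sub_C _).mul (Splits.X_sub_C _)
  · rw [eq_top_iff]
    intro x _
    obtain ⟨a, b, rfl⟩ := gen hM hy x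
    have hy' : y ∈ Algebra.adjoin K ((X ^ 2 - C (algebraMap k[X] K δ) : K[X]).rootSet M) := by
      apply Algebra.subset_adjoin
      rw [mem_rootSet]
      refine ⟨(monic_X_pow_sub_C _ two_ne_zero).ne_zero, ?_⟩
      rw [map_sub, map_pow, aeval_X, aeval_C, ← IsScalarTower.algebraMap_apply, h, sub_self]
    exact add_mem (Subalgebra.algebraMap_mem _ _) (mul_mem (Subalgebra.algebraMap_mem _ _) hy')

theorem two_ne (h2 : (2 : k) ≠ 0) : (2 : K) ≠ 0 := by
  have e : algebraMap k[X] K (C (2 : k)) = 2 := by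
    rw [show (C (2 : k) : k[X]) = 2 from rfl, map_ofNat]
  rw [← e, Ne, IsFractionRing.to_map_eq_zero_iff, C_eq_zero]
  exact h2

theorem galois (h2 : (2 : k) ≠ 0) (hM : Module.finrank K M = 2)
    (h : y ^ 2 = algebraMap k[X] M δ) (hy : ∀ x : K, algebraMap K M x ≠ y) : IsGalois K M := by
  haveI := spf hM h hy
  have hδ : algebraMap k[X] K δ ≠ 0 := by
    intro h0
    rw [IsScalarTower.algebraMap_apply k[X] K M, h0, map_zero, sq_eq_zero_iff] at h
    exact hy 0 (by rw [h, map_zero])
  exact IsGalois.of_separable_splitting_field (p := X ^ 2 - C (algebraMap k[X] K δ))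
    (separable_X_pow_sub_C _ (by exact_mod_cast two_ne h2) hδ)

/-- the conjugation -/
theorem conj (h2 : (2 : k) ≠ 0) (hM : Module.finrank K M = 2)
    (h : y ^ 2 = algebraMap k[X] M δ) (hy : ∀ x : K, algebraMap K M x ≠ y) :
    ∃ σ : M ≃ₐ[K] M, σ y = -y := by
  haveI := galois h2 hM h hy
  haveI : FiniteDimensional K M := Module.finite_of_finrank_pos (by rw [hM]; norm_num)
  obtain ⟨σ, hσ⟩ : ∃ σ : M ≃ₐ[K] M, σ y ≠ y := by
    by_contra hc
    push Not at hc
    obtain ⟨x, hx⟩ := (IsGalois.mem_range_algebraMap_iff_fixed y).2 hc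
    exact hy x hx
  refine ⟨σ, ?_⟩
  have h3 : (σ y) ^ 2 = y ^ 2 := by
    rw [← map_pow, h, IsScalarTower.algebraMap_apply k[X] K M, σ.commutes]
  rcases sq_eq_sq_iff_eq_or_eq_neg.1 h3 with h4 | h4
  · exact absurd h4 hσ
  · exact h4

/-- The primes which do not divide `δ` are unramified. -/
theorem unr (h2 : (2 : k) ≠ 0) (hM : Module.finrank K M = 2)
    (h : y ^ 2 = algebraMap k[X] M δ) (hy : ∀ x : K, algebraMap K M x ≠ y) {P : k[X]}
    (hP : Irreducible P) (hPδ : ¬ P ∣ δ) : UnrAt M P := by
  haveI := galois h2 hM h hy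
  haveI : FiniteDimensional K M := Module.finite_of_finrank_pos (by rw [hM]; norm_num)
  haveI : IsDedekindDomain (integralClosure k[X] M) := integralClosure.isDedekindDomain k[X] K M
  haveI : IsFractionRing (integralClosure k[X] M) M :=
    integralClosure.isFractionRing_of_finite_extension K M
  intro w hw
  have hm : (X ^ 2 - C δ : k[X][X]).Monic := monic_X_pow_sub_C _ two_ne_zero
  have hval : ∀ c : k[X], ¬ P ∣ c → w.valuation M (algebraMap k[X] M c) = 1 := by
    intro c hc
    refine val_eq_of c w fun h => ?_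
    obtain ⟨a, b, hab⟩ := (hP.coprime_iff_not_dvd).2 hc
    apply w.isPrime.ne_top
    rw [Ideal.eq_top_iff_one, ← map_one (algebraMap k[X] (integralClosure k[X] M)), ← hab,
      map_add, map_mul, map_mul]
    exact Ideal.add_mem _ (Ideal.mul_mem_left _ _ hw) (Ideal.mul_mem_left _ _ h)
  have hv2 : w.valuation M 2 = 1 := by
    have e : (2 : M) = algebraMap k[X] M (C 2) := by
      rw [show (C (2 : k) : k[X]) = 2 from rfl, map_ofNat]
    rw [e]
    refine hval _ fun hd => hP.not_isUnit (isUnit_of_dvd_unit hd (isUnit_C.2 h2.isUnit))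
  have hvy : w.valuation M y = 1 := by
    have h3 := hval δ hPδ
    rw [← h, map_pow] at h3
    exact (pow_eq_one_iff.1 h3).resolve_right two_ne_zero
  obtain ⟨v, hv⟩ := Pool.Agent.N874.TW.unr_top k[X] (integralClosure k[X] M) (F := K) (F' := M)
    (f := X ^ 2 - C δ) (θ := y) hm
    (by rw [map_sub, map_pow, aeval_X, aeval_C, h, sub_self])
    (by
      rw [eq_top_iff]
      intro x _
      obtain ⟨a, b, rfl⟩ := gen hM hy x
      exact add_mem (IntermediateField.algebraMap_mem _ _)
        (mul_mem (IntermediateField.algebraMap_mem _ _)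
          (IntermediateField.mem_adjoin_simple_self K y))) w
    (by
      have e : aeval y (derivative (X ^ 2 - C δ : k[X][X])) = 2 * y := by
        rw [derivative_sub, derivative_X_pow, derivative_C, sub_zero, map_mul, aeval_C, map_pow,
          aeval_X, Nat.cast_ofNat, map_ofNat]
        norm_num
      rw [e, map_mul, hv2, hvy, one_mul])
  rw [← val_iff (M := M) P w hw, IsScalarTower.algebraMap_apply k[X] K M, hv]
  have hPv : P ∈ v.asIdeal := by
    rw [← HeightOneSpectrum.valuation_lt_one_iff_mem (K := K), ← hv,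
      ← IsScalarTower.algebraMap_apply k[X] K M]
    exact (ov_val (L := M) P w).1 hw
  exact (val_iff (M := K) (R := k[X]) P v hPv).2 (not_sq hP v hPv)

theorem splits (h2 : (2 : k) ≠ 0) (hM : Module.finrank K M = 2)
    (h : y ^ 2 = algebraMap k[X] M δ) (hy : ∀ x : K, algebraMap K M x ≠ y) {P : k[X]}
    (hP : Irreducible P) (hPδ : ¬ P ∣ δ) (hz : ∃ z : k[X], P ∣ δ - z ^ 2) : SplitsIn M P := by
  obtain ⟨z, hz⟩ := hz
  have hinj : Function.Injective (algebraMap k[X] M) := by
    rw [IsScalarTower.algebraMap_eq k[X] K M]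
    exact (algebraMap K M).injective.comp (IsFractionRing.injective k[X] K)
  have hyi : IsIntegral k[X] y := by
    refine IsIntegral.of_pow (n := 2) two_pos ?_
    rw [h]
    exact isIntegral_algebraMap
  have hδ0 : algebraMap k[X] M δ ≠ 0 := by
    intro h0
    rw [h0, sq_eq_zero_iff] at h
    exact hy 0 (by rw [h, map_zero])
  obtain ⟨σ, hσ⟩ := conj h2 hM h hy
  have hKint : ∀ c : K, IsIntegral k[X] (algebraMap K M c) → ∃ d : k[X], algebraMap k[X] K d = c := by
    intro c hc
    have h3 : IsIntegral k[X] c :=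
      (isIntegral_algHom_iff (IsScalarTower.toAlgHom k[X] K M) (algebraMap K M).injective).1 hc
    exact IsIntegrallyClosed.isIntegral_iff.1 h3
  intro w hw
  refine ⟨unr h2 hM h hy hP hPδ w hw, fun x => ?_⟩
  have hwp : w.asIdeal.IsPrime := w.isPrime
  obtain ⟨a, b, hab⟩ := gen hM hy (x : M)
  have hσx : σ (x : M) = algebraMap K M a - algebraMap K M b * y := by
    rw [hab, map_add, map_mul, σ.commutes, σ.commutes, hσ]
    ring
  have hσi : IsIntegral k[X] (σ (x : M)) :=
    x.2.map ((σ : M →ₐ[K] M).restrictScalars k[X])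
  obtain ⟨t, ht⟩ := hKint (2 * a) (by
    have e : algebraMap K M (2 * a) = (x : M) + σ (x : M) := by
      rw [hσx, hab, map_mul, map_ofNat]
      ring
    rw [e]
    exact x.2.add hσi)
  obtain ⟨u, hu⟩ := hKint (2 * b * algebraMap k[X] K δ) (by
    have e : algebraMap K M (2 * b * algebraMap k[X] K δ) = ((x : M) - σ (x : M)) * y := by
      rw [hσx, hab, map_mul, map_mul, map_ofNat, ← IsScalarTower.algebraMap_apply, ← h]
      ring
    rw [e]
    exact (x.2.sub hσi).mul hyi)
  obtain ⟨Y, hY⟩ : ∃ Y : integralClosure k[X] M, (Y : M) = y := ⟨⟨y, hyi⟩, rfl⟩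
  have hc : ∀ c : k[X], ((algebraMap k[X] (integralClosure k[X] M) c : integralClosure k[X] M) : M) =
    algebraMap k[X] M c := fun c => rfl
  have key : algebraMap k[X] (integralClosure k[X] M) (C 2 * δ) * x =
      algebraMap k[X] _ (δ * t) + algebraMap k[X] _ u * Y := by
    apply Subtype.ext
    show algebraMap k[X] M (C 2 * δ) * (x : M) =
      algebraMap k[X] M (δ * t) + algebraMap k[X] M u * (Y : M)
    have e2 : algebraMap k[X] M (C 2) = 2 := by
      rw [show (C (2 : k) : k[X]) = 2 from rfl, map_ofNat]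
    have ht' : algebraMap k[X] M t = 2 * algebraMap K M a := by
      rw [IsScalarTower.algebraMap_apply k[X] K M, ht, map_mul, map_ofNat]
    have hu' : algebraMap k[X] M u = 2 * algebraMap K M b * algebraMap k[X] M δ := by
      rw [IsScalarTower.algebraMap_apply k[X] K M, hu, map_mul, map_mul, map_ofNat,
        ← IsScalarTower.algebraMap_apply]
    rw [map_mul, map_mul, e2, ht', hu', hab, hY]
    ring
  -- `2 δ` is invertible modulo `P`
  have hnd : ¬ P ∣ C 2 * δ := by
    intro hd
    rcases hP.prime.dvd_or_dvd hd with h3 | h3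
    · exact hP.not_isUnit (isUnit_of_dvd_unit h3 (isUnit_C.2 h2.isUnit))
    · exact hPδ h3
  obtain ⟨p, q, hpq⟩ := (hP.coprime_iff_not_dvd).2 hnd
  have hzz : (Y - algebraMap k[X] _ z) * (Y + algebraMap k[X] _ z) ∈ w.asIdeal := by
    have e : (Y - algebraMap k[X] (integralClosure k[X] M) z) * (Y + algebraMap k[X] _ z) =
        algebraMap k[X] (integralClosure k[X] M) (δ - z ^ 2) := by
      apply Subtype.ext
      show ((Y : M) - algebraMap k[X] M z) * ((Y : M) + algebraMap k[X] M z) =
        algebraMap k[X] M (δ - z ^ 2)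
      rw [hY, map_sub, map_pow, ← h]
      ring
    rw [e]
    obtain ⟨r, hr⟩ := hz
    rw [hr, map_mul]
    exact Ideal.mul_mem_right _ _ hw
  obtain ⟨z', hz'⟩ : ∃ z' : k[X], Y - algebraMap k[X] _ z' ∈ w.asIdeal := by
    rcases hwp.mem_or_mem hzz with h3 | h3
    · exact ⟨z, h3⟩
    · refine ⟨-z, ?_⟩
      rwa [map_neg, sub_neg_eq_add]
  refine ⟨q * (δ * t + u * z'), ?_⟩
  have e : x - algebraMap k[X] (integralClosure k[X] M) (q * (δ * t + u * z')) =
      algebraMap k[X] _ p * x * algebraMap k[X] _ P +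
      algebraMap k[X] _ q * algebraMap k[X] _ u * (Y - algebraMap k[X] _ z') := by
    have e1 : (1 : integralClosure k[X] M) = algebraMap k[X] _ p * algebraMap k[X] _ P +
        algebraMap k[X] _ q * algebraMap k[X] _ (C 2 * δ) := by
      rw [← map_mul, ← map_mul, ← map_add, hpq, map_one]
    rw [map_mul, map_add, map_mul _ u z']
    linear_combination x * e1 + algebraMap k[X] (integralClosure k[X] M) q * key
  rw [e]
  exact Ideal.add_mem _ (Ideal.mul_mem_left _ _ hw) (Ideal.mul_mem_left _ _ hz')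

end quad

end Pool.Agent.Helper28H.FE.Quad

namespace Pool.Agent.Helper28H.FE

open Quad in
theorem quad : F_QUAD := by
  intro g k K M _ _ _ _ _ _ _ _ _ R₁ _ _ _ _ v₁ f D δ y h2 hM h hy hirr hbad hspl hinf
  haveI := galois h2 hM h hy
  haveI := spf hM h hy
  refine ⟨inferInstance, ⟨1, by rw [hM, pow_one]⟩, fun P hP hP2 => ?_, fun P hP hPD => ?_,
    fun P hP hu => ?_, ?_⟩
  · exact splits h2 hM h hy hP (hbad P hP hP2).1 (hbad P hP hP2).2
  · exact splits h2 hM h hy hP (hspl P hP hPD).1 (hspl P hP hPD).2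
  · by_cases hPδ : P ∣ δ
    · exact hirr P hP hPδ
    · exact absurd (unr h2 hM h hy hP hPδ) hu
  · refine ⟨IsSplittingField.lift M (X ^ 2 - C (algebraMap k[X] K δ)) ?_⟩
    obtain ⟨r, hr⟩ := hinf
    have e : (X ^ 2 - C (algebraMap k[X] K δ) : K[X]).map (algebraMap K (v₁.adicCompletion K)) =
        (X - C r) * (X - C (-r)) := by
      rw [Polynomial.map_sub, Polynomial.map_pow, map_X, map_C, hr, C_mul, C_neg]
      ring
    rw [e]
    exact (Splits.X_sub_C _).mul (Splits.X_sub_C _)

end Pool.Agent.Helper28H.FE
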