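import Pool.Agent.Helper28H.FE.BasA
import Pool.Agent.N704.PJ.One

/-!
# Project FE, piece RAM: the primes dividing the different have degree one

Port of `Pool/Agent/N704/PJ/One.lean` and of `ram` in `Pool/Agent/N874/JM/Core.lean`.
-/

set_option autoImplicit false
set_option linter.all false

open Polynomial IsDedekindDomain WithZero Matrix
open Pool.Agent.N874.PP (Ov Ev Sq1 U0)
open Pool.Agent.N352.PJ
open scoped Classical

namespace Pool.Agent.Helper28H.FE.Ram

open BasA

section ov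

variable {g : ℕ} {k K L O : Type} [Field k] [Field K] [Algebra k[X] K] [IsFractionRing k[X] K]
  [Field L] [Algebra K L] [Algebra k[X] L] [IsScalarTower k[X] K L] [CommRing O]
  [IsDedekindDomain O] [Algebra O L] [IsFractionRing O L] [Algebra k[X] O]
  [IsScalarTower k[X] O L] [IsIntegralClosure O k[X] L] {f : k[X][X]} {θ : L}

open Pool.Agent.N704.PP (val_int valO_lt_one valO_le_one valO_eq_one exists_inv_mod)

/-- polynomials in `θ` have coordinates in `k[t]` -/
theorem crd_poly (h : IsGen g K f θ) (p : k[X][X]) :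
    ∃ v : Fin (2 * g + 1) → k[X], Crd g θ v (eval₂ (algebraMap k[X] L) θ p) := by
  refine ⟨fun i => (p %ₘ f).coeff i, ?_⟩
  have h1 : eval₂ (algebraMap k[X] L) θ p = eval₂ (algebraMap k[X] L) θ (p %ₘ f) := by
    conv_lhs => rw [← modByMonic_add_div p f]
    rw [eval₂_add, eval₂_mul, h.root, zero_mul, add_zero]
  have h2 : (p %ₘ f).natDegree < 2 * g + 1 := by
    have h3 := natDegree_modByMonic_lt p h.mon (by
      intro h4
      have h5 := h.deg
      rw [h4, natDegree_one] at h5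
      omega)
    rwa [h.deg] at h3
  rw [h1, Crd, eval₂_eq_sum_range' (algebraMap k[X] L) h2, Finset.sum_range]

/-- The determinant of the multiplication by `f'(θ)`. -/
theorem det_der (h : IsGen g K f θ) (hd0 : dsc g f ≠ 0) :
    ∃ A : Mt g k[X], A.det = dsc g f ∧ ∀ i : Fin (2 * g + 1),
      eval₂ (algebraMap k[X] L) θ (derivative f) * θ ^ (i : ℕ) =
        ∑ j, algebraMap k[X] L (A i j) * θ ^ (j : ℕ) := by
  have hex : ∀ i : Fin (2 * g + 1), ∃ v : Fin (2 * g + 1) → k[X],
      Crd g θ v (eval₂ (algebraMap k[X] L) θ (derivative f) * θ ^ (i : ℕ)) := by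
    intro i
    obtain ⟨v, hv⟩ := crd_poly h (derivative f * X ^ (i : ℕ))
    rw [eval₂_mul, eval₂_pow, eval₂_X] at hv
    exact ⟨v, hv⟩
  choose A hA using hex
  refine ⟨Matrix.of A, ?_, hA⟩
  apply IsFractionRing.injective k[X] K
  have h1 : Algebra.norm K (eval₂ (algebraMap k[X] L) θ (derivative f)) =
      algebraMap k[X] K (dsc g f) := by
    rw [Pool.Agent.N769.PJ.dsc_map h, ← Pool.Agent.N769.PJ.nrm h hd0 _ _
      (Pool.Agent.N769.PJ.deg_der h), derivative_map, aeval_map_algebraMap, aeval_def]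
  have : FiniteDimensional K L := Module.Finite.of_basis h.basis
  rw [← h1, Algebra.norm_eq_matrix_det h.basis, RingHom.map_det, ← Matrix.det_transpose]
  congr 1
  ext i j
  rw [Algebra.leftMulMatrix_eq_repr_mul, h.basis_apply, hA j]
  have e : ∑ l, algebraMap k[X] L (A j l) * θ ^ (l : ℕ) =
      ∑ l, (algebraMap k[X] K (A j l)) • h.basis l := by
    refine Finset.sum_congr rfl fun l _ => ?_
    rw [h.basis_apply, Algebra.smul_def, ← IsScalarTower.algebraMap_apply k[X] K L]
  rw [e, h.basis.repr_sum_self]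
  rfl

/-- The primes over `P` which divide `f'(θ)` contain `θ - c`. -/
theorem deg_one (h : IsGen g K f θ) {P : k[X]} (hP : Irreducible P) (hD : Gd g f P) : ∃ c : k[X], ∀ 𝔮 : HeightOneSpectrum O, Ov P 𝔮 →
      𝔮.valuation L (eval₂ (algebraMap k[X] L) θ (derivative f)) < 1 →
      𝔮.valuation L (θ - algebraMap k[X] L c) < 1 := by
  rcases Nat.eq_zero_or_pos g with hg | hg
  · refine ⟨0, fun 𝔮 _ h1 => ?_⟩
    exfalso
    have h2 : f.natDegree = 1 := by rw [h.deg, hg]
    rw [h.mon.eq_X_add_C h2, derivative_add, derivative_X, derivative_C, add_zero, eval₂_one,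
      map_one] at h1
    exact lt_irrefl _ h1
  obtain ⟨A, hA, hAe⟩ := det_der h (fun h0 => hD (by rw [h0]; exact dvd_zero _))
  have hnd : ¬ P ^ 2 ∣ A.det := by
    rw [hA]
    exact hD
  obtain ⟨j, i, hji⟩ := Pool.Agent.N704.PJ.adj_ne hP.prime A hnd
  obtain ⟨θ', hθ'⟩ := (IsIntegralClosure.isIntegral_iff (A := O)).1
    (Pool.Agent.N769.PJ.theta_int h)
  set d' : O := eval₂ (algebraMap k[X] O) θ' (derivative f) with hd'
  have hd : algebraMap O L d' = eval₂ (algebraMap k[X] L) θ (derivative f) := by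
    rw [hd', hom_eval₂, hθ', ← IsScalarTower.algebraMap_eq]
  have hO : ∀ i : Fin (2 * g + 1), d' * θ' ^ (i : ℕ) =
        ∑ j, algebraMap k[X] O (A i j) * θ' ^ (j : ℕ) := by
    intro i
    apply IsFractionRing.injective O L
    rw [map_mul, hd, map_pow, hθ', hAe, map_sum]
    refine Finset.sum_congr rfl fun j _ => ?_
    rw [map_mul, map_pow, hθ', ← IsScalarTower.algebraMap_apply k[X] O L]
  have key : ∀ 𝔮 : HeightOneSpectrum O, Ov P 𝔮 →
      𝔮.valuation L (eval₂ (algebraMap k[X] L) θ (derivative f)) < 1 →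
      ∀ l : Fin (2 * g + 1), algebraMap k[X] O (A.adjugate l i) -
        θ' ^ (l : ℕ) * algebraMap k[X] O (A.adjugate 0 i) ∈ 𝔮.asIdeal := by
    intro 𝔮 hq hlt l
    rw [← hd, HeightOneSpectrum.valuation_lt_one_iff_mem] at hlt
    letI := Ideal.Quotient.field 𝔮.asIdeal
    set φ := Ideal.Quotient.mk 𝔮.asIdeal with hφ
    have h1 : (A.map (φ.comp (algebraMap k[X] O))) *ᵥ
        (fun l : Fin (2 * g + 1) => φ θ' ^ (l : ℕ)) = 0 := by
      funext a
      rw [Matrix.mulVec, dotProduct]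
      have h2 := congrArg φ (hO a)
      rw [map_mul, Ideal.Quotient.eq_zero_iff_mem.2 hlt, zero_mul, map_sum] at h2
      rw [Pi.zero_apply, h2]
      refine Finset.sum_congr rfl fun b _ => ?_
      rw [map_mul, map_pow]
      rfl
    have h3 := Pool.Agent.N704.PJ.adj_prop _ _ (0 : Fin (2 * g + 1)) h1 (by simp) l i
    have h4 : (A.map (φ.comp (algebraMap k[X] O))).adjugate =
        A.adjugate.map (φ.comp (algebraMap k[X] O)) := by
      have := RingHom.map_adjugate (φ.comp (algebraMap k[X] O)) A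
      rw [RingHom.mapMatrix_apply, RingHom.mapMatrix_apply] at this
      exact this.symm
    rw [h4, Matrix.map_apply, Matrix.map_apply, RingHom.comp_apply, RingHom.comp_apply] at h3
    rw [← Ideal.Quotient.eq_zero_iff_mem, map_sub, map_mul, map_pow, ← hφ, h3, sub_self]
  by_cases hu : P ∣ A.adjugate 0 i
  · refine ⟨0, fun 𝔮 hq hlt => ?_⟩
    exfalso
    apply hji
    rw [← Pool.Agent.N704.PP.mem_iff hP hq]
    have h1 := key 𝔮 hq hlt j
    have h2 := 𝔮.asIdeal.mul_mem_left (θ' ^ (j : ℕ)) ((Pool.Agent.N704.PP.mem_iff hP hq _).2 hu)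
    have h3 := 𝔮.asIdeal.add_mem h1 h2
    rwa [sub_add_cancel] at h3
  · obtain ⟨u', hu'⟩ := exists_inv_mod hP hu
    have h1l : 1 < 2 * g + 1 := by omega
    refine ⟨A.adjugate ⟨1, h1l⟩ i * u', fun 𝔮 hq hlt => ?_⟩
    have h1 := key 𝔮 hq hlt ⟨1, h1l⟩
    have h2 : 𝔮.valuation L (algebraMap O L (algebraMap k[X] O (A.adjugate ⟨1, h1l⟩ i) -
        θ' ^ 1 * algebraMap k[X] O (A.adjugate 0 i))) < 1 :=
      (HeightOneSpectrum.valuation_lt_one_iff_mem (K := L) 𝔮 _).2 h1
    rw [pow_one, map_sub, map_mul, hθ', ← IsScalarTower.algebraMap_apply k[X] O L,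
      ← IsScalarTower.algebraMap_apply k[X] O L] at h2
    have e : θ - algebraMap k[X] L (A.adjugate ⟨1, h1l⟩ i * u') =
        θ * algebraMap k[X] L (1 - A.adjugate 0 i * u') -
        algebraMap k[X] L u' * (algebraMap k[X] L (A.adjugate ⟨1, h1l⟩ i) -
          θ * algebraMap k[X] L (A.adjugate 0 i)) := by
      rw [map_sub, map_mul, map_mul, map_one]; ring
    rw [e]
    refine lt_of_le_of_lt (Valuation.map_sub _ _ _) (max_lt ?_ ?_)
    · rw [map_mul]
      exact lt_of_le_of_lt (mul_le_mul' (Pool.Agent.N704.PJ.theta_le h 𝔮) le_rfl)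
        (by rw [one_mul]; exact (valO_lt_one hP hq _).2 hu')
    · rw [map_mul]
      exact lt_of_le_of_lt (mul_le_mul' (valO_le_one 𝔮 _) le_rfl) (by rw [one_mul]; exact h2)

/-- There is at most one prime over `P` which contains `θ - c`. -/
theorem uniq (h : IsGen g K f θ) {P : k[X]} (hI : LI g θ P) (hP : Irreducible P) {𝔓 𝔓' : HeightOneSpectrum O} (h1 : Ov P 𝔓) (h1' : Ov P 𝔓')
    {c : k[X]} (hc : 𝔓.valuation L (θ - algebraMap k[X] L c) < 1)
    (hc' : 𝔓'.valuation L (θ - algebraMap k[X] L c) < 1) : 𝔓 = 𝔓' := by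
  have hle : 𝔓.asIdeal ≤ 𝔓'.asIdeal := by
    intro z hz
    obtain ⟨s, u, hs, hu⟩ := hI (algebraMap O L z)
      ((IsIntegralClosure.isIntegral_iff (A := O)).2 ⟨z, rfl⟩)
    set p : k[X][X] := ∑ i : Fin (2 * g + 1), C (u i) * X ^ (i : ℕ) with hp
    have e1 : algebraMap k[X] L s * algebraMap O L z = eval₂ (algebraMap k[X] L) θ p := by
      rw [hu, hp, eval₂_finset_sum]
      refine Finset.sum_congr rfl fun i _ => ?_
      rw [eval₂_mul, eval₂_C, eval₂_pow, eval₂_X]
    obtain ⟨q, hq⟩ : (X - C c) ∣ p - C (p.eval c) := X_sub_C_dvd_sub_C_eval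
    have e2 : algebraMap k[X] L s * algebraMap O L z = algebraMap k[X] L (p.eval c) +
        (θ - algebraMap k[X] L c) * eval₂ (algebraMap k[X] L) θ q := by
      have := congrArg (eval₂ (algebraMap k[X] L) θ) hq
      rw [eval₂_sub, eval₂_C, eval₂_mul, eval₂_sub, eval₂_X, eval₂_C] at this
      rw [e1]
      linear_combination this
    have small : ∀ 𝔮 : HeightOneSpectrum O, 𝔮.valuation L (θ - algebraMap k[X] L c) < 1 →
        𝔮.valuation L ((θ - algebraMap k[X] L c) * eval₂ (algebraMap k[X] L) θ q) < 1 := by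
      intro 𝔮 hq
      have h1 : 𝔮.valuation L (eval₂ (algebraMap k[X] L) θ q) ≤ 1 := by
        refine val_int (k := k) 𝔮 ?_
        rw [eval₂_eq_sum_range]
        exact IsIntegral.sum _ fun i _ => isIntegral_algebraMap.mul
          ((Pool.Agent.N769.PJ.theta_int h).pow _)
      rw [map_mul]
      exact mul_lt_one_of_lt_of_le hq h1
    have h3 : 𝔓.valuation L (algebraMap k[X] L s * algebraMap O L z) < 1 := by
      rw [map_mul]
      exact lt_of_le_of_lt (mul_le_mul' (valO_le_one 𝔓 s) le_rfl) (by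
        rw [one_mul]
        exact (HeightOneSpectrum.valuation_lt_one_iff_mem 𝔓 z).2 hz)
    have h2 : P ∣ p.eval c := by
      rw [← valO_lt_one (L := L) hP h1]
      have e3 : algebraMap k[X] L (p.eval c) = algebraMap k[X] L s * algebraMap O L z -
        (θ - algebraMap k[X] L c) * eval₂ (algebraMap k[X] L) θ q := by rw [e2]; ring
      rw [e3]
      exact lt_of_le_of_lt (Valuation.map_sub _ _ _) (max_lt h3 (small 𝔓 hc))
    have h4 : 𝔓'.valuation L (algebraMap k[X] L s * algebraMap O L z) < 1 := by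
      rw [e2]
      exact lt_of_le_of_lt (Valuation.map_add _ _ _)
        (max_lt ((valO_lt_one (L := L) hP h1' _).2 h2) (small 𝔓' hc'))
    have h5 : 𝔓'.valuation L (algebraMap k[X] L s) = 1 :=
      le_antisymm (valO_le_one 𝔓' s) (not_lt.1 fun hlt => hs ((valO_lt_one (L := L) hP h1' s).1 hlt))
    rw [map_mul, h5, one_mul] at h4
    exact (HeightOneSpectrum.valuation_lt_one_iff_mem 𝔓' z).1 h4
  exact HeightOneSpectrum.ext (𝔓.isMaximal.eq_of_le 𝔓'.isPrime.ne_top hle)

end ov

end Pool.Agent.Helper28H.FE.Ram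

namespace Pool.Agent.Helper28H.FE

open Pool.Agent.N704.PP (val_int)

/-- **RAM.** -/
theorem a_ram (hInt : A_INT) : A_RAM := by
  intro g k K L O _ _ _ _ _ _ _ _ _ _ _ _ _ _ _ _ f θ h P hP hD 𝔓₀ hov hlt
  have hI : BasA.LI g θ P := hInt g k K L f θ h P hP hD
  obtain ⟨c, hc⟩ := Ram.deg_one (O := O) h hP hD
  refine ⟨⟨c, hc 𝔓₀ hov hlt⟩, fun 𝔓 ho hne => ?_⟩
  refine le_antisymm ?_ (not_lt.1 fun hlt' => hne ?_)
  · refine val_int (k := k) 𝔓 ?_
    rw [eval₂_eq_sum_range]
    exact IsIntegral.sum _ fun i _ => isIntegral_algebraMap.mul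
      ((Pool.Agent.N769.PJ.theta_int h).pow _)
  · exact Ram.uniq h hI hP ho hov (hc 𝔓 ho hlt') (hc 𝔓₀ hov hlt)

end Pool.Agent.Helper28H.FE
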