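import Pool.Agent.Helper28H.FE.ResB

/-!
# Project FE, piece RES: the prime from the theorem of Frobenius
-/

set_option autoImplicit false
set_option linter.all false

open Polynomial IsDedekindDomain

namespace Pool.Agent.Helper28H.FE

open Pool.Agent.N352.PJ (IsGen dsc Cg Crd)
open Pool.Agent.N874.PP (Ov Ev Sq1)

namespace ResA

/-- The prime for given data. -/
theorem core {k K L N O : Type} [Field k] [Finite k] [Field K] [Algebra k[X] K]
    [IsFractionRing k[X] K] [Field L] [Algebra K L] [Algebra k[X] L] [IsScalarTower k[X] K L]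
    [Field N] [Algebra K N] [Algebra k[X] N] [IsScalarTower k[X] K N] [FiniteDimensional K N]
    [IsGalois K N]
    [CommRing O] [IsDedekindDomain O] [Algebra O L] [IsFractionRing O L]
    [Algebra k[X] O] [IsScalarTower k[X] O L] [IsIntegralClosure O k[X] L]
    (g : ℕ) (f : k[X][X]) (P₀ : k[X]) (θ : L) (hyp : Hyp K g f P₀) (hG : IsGen g K f θ)
    (α : L) (hα : α ≠ 0) (σ : N ≃ₐ[K] N) (β₂ : N) (ι₁ ι₂ : L →ₐ[K] N)
    (hσθ : σ (ι₁ θ) = ι₁ θ)
    (hf : f.map (algebraMap k[X] N) =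
      (X - C (ι₁ θ)) * ∏ j ∈ Finset.range (2 * g), (X - C ((σ ^ j) (ι₂ θ))))
    (hσ2 : (σ ^ (2 * g)) (ι₂ θ) = ι₂ θ) (hβ : β₂ ^ 2 = ι₂ α) (hσβ : (σ ^ (2 * g)) β₂ = -β₂) :
    ∃ M : ℕ, ∀ (Q : k[X]) (a : ℕ) (w : HeightOneSpectrum (integralClosure k[X] N)),
      Irreducible Q → M < Q.natDegree → algebraMap k[X] (integralClosure k[X] N) Q ∈ w.asIdeal →
      a.Coprime (orderOf σ) →
      (∀ x y : integralClosure k[X] N, (σ ^ a) (x : N) = y →
        y - x ^ (Nat.card k ^ Q.natDegree) ∈ w.asIdeal) →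
      ∃ (e : k[X]) (h : k[X][X]), h.Monic ∧ h.natDegree = 2 * g ∧
        Irreducible (h.map (Ideal.Quotient.mk (Ideal.span {Q}))) ∧
        Cg Q f ((X - C e) * h) ∧
        ∀ 𝔓 : HeightOneSpectrum O, Ov Q 𝔓 → 𝔓.valuation L (θ - algebraMap k[X] L e) = 1 →
          ¬ Sq1 𝔓 α := by
  classical
  have hg := hyp.one
  set A := integralClosure k[X] N with hA
  have hjinj : Function.Injective (algebraMap k[X] N) := by
    rw [IsScalarTower.algebraMap_eq k[X] K N]
    exact (algebraMap K N).injective.comp (IsFractionRing.injective k[X] K)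
  have hdisc : dsc g f ≠ 0 := fun h => hyp.ndvd (by rw [h]; exact dvd_zero _)
  have hsep := separable_of_dsc (algebraMap k[X] N) hjinj g f hyp.deg hdisc
  rw [hf] at hsep
  have hinj : ∀ i < 2 * g, ∀ j < 2 * g, (σ ^ i) (ι₂ θ) = (σ ^ j) (ι₂ θ) → i = j := by
    have h1 := separable_prod_X_sub_C_iff'.1 hsep.of_mul_right
    intro i hi j hj hij
    exact h1 i (Finset.mem_range.2 hi) j (Finset.mem_range.2 hj) hij
  have hfixτ : ∀ τ : N ≃ₐ[K] N, τ (ι₂ θ) = ι₂ θ → ∀ x : L, τ (ι₂ x) = ι₂ x := by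
    intro τ hτ x
    obtain ⟨c, rfl⟩ := hG.gen x
    rw [map_sum, map_sum]
    refine Finset.sum_congr rfl fun i _ => ?_
    rw [map_mul, map_mul, map_pow, map_pow, hτ, AlgHom.commutes, AlgEquiv.commutes]
  have hper1 : ∀ m : ℕ, ((σ ^ (2 * g)) ^ m) (ι₂ θ) = ι₂ θ := by
    intro m
    induction m with
    | zero => rfl
    | succ m ih => rw [pow_succ, AlgEquiv.mul_apply, hσ2, ih]
  have hper : ∀ n : ℕ, (σ ^ n) (ι₂ θ) = (σ ^ (n % (2 * g))) (ι₂ θ) := by
    intro n
    conv_lhs => rw [← Nat.mod_add_div n (2 * g), pow_add, pow_mul, AlgEquiv.mul_apply, hper1]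
  have hord : 2 * g ∣ orderOf σ := by
    have h1 := hper (orderOf σ)
    rw [pow_orderOf_eq_one] at h1
    have h2 := hinj (orderOf σ % (2 * g)) (Nat.mod_lt _ (by omega)) 0 (by omega) (by
      rw [← h1, pow_zero])
    exact Nat.dvd_of_mod_eq_zero h2
  -- the integral elements
  have hfdL : FiniteDimensional K L := Module.finite_of_finrank_pos (by rw [hG.rank]; omega)
  have hsepL : Algebra.IsSeparable K L := Algebra.IsSeparable.of_algHom K N ι₂
  have hfinO : Module.Finite k[X] O := IsIntegralClosure.finite k[X] K L O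
  have hOinj : Function.Injective (algebraMap O L) := IsFractionRing.injective O L
  have hθint : IsIntegral k[X] θ := ⟨f, hyp.mon, hG.root⟩
  obtain ⟨t₁, ht₁⟩ : ∃ t₁ : O, algebraMap O L t₁ = θ :=
    (IsIntegralClosure.isIntegral_iff (A := O)).1 hθint
  obtain ⟨D, hD0, hD⟩ := exists_index (k := k) (K := K) (L := L) t₁ (fun x => by
    obtain ⟨c, hc⟩ := hG.gen x
    refine ⟨∑ i, C (c i) * X ^ (i : ℕ), ?_⟩
    rw [hc, map_sum]
    refine Finset.sum_congr rfl fun i _ => ?_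
    rw [map_mul, aeval_C, map_pow, aeval_X, ht₁])
  obtain ⟨a₀, b₀, hb, hab⟩ := IsFractionRing.div_surjective (A := O) α
  have hb0 : b₀ ≠ 0 := nonZeroDivisors.ne_zero hb
  have ha0 : a₀ ≠ 0 := by
    intro h
    rw [h, map_zero, zero_div] at hab
    exact hα hab.symm
  let i1 : O →ₐ[k[X]] A := galRestrict' k[X] O A ι₁
  let i2 : O →ₐ[k[X]] A := galRestrict' k[X] O A ι₂
  let s : A ≃ₐ[k[X]] A := galRestrict k[X] K N A σ
  have hc1 : ∀ x : O, algebraMap A N (i1 x) = ι₁ (algebraMap O L x) := fun x =>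
    algebraMap_galRestrict'_apply k[X] O A ι₁ x
  have hc2 : ∀ x : O, algebraMap A N (i2 x) = ι₂ (algebraMap O L x) := fun x =>
    algebraMap_galRestrict'_apply k[X] O A ι₂ x
  have hs : ∀ x : A, algebraMap A N (s x) = σ (algebraMap A N x) := fun x =>
    algebraMap_galRestrict_apply k[X] σ x
  have hAinj : Function.Injective (algebraMap A N) :=
    IsIntegralClosure.algebraMap_injective A k[X] N
  have hi2inj : Function.Injective i2 := by
    intro x y hxy
    apply hOinj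
    apply ι₂.injective
    change ι₂ (algebraMap O L x) = ι₂ (algebraMap O L y)
    rw [← hc2, ← hc2, hxy]
  -- the product of the elements which have to be units
  set E : A := algebraMap k[X] A D * i2 (a₀ * b₀) *
    ∏ i ∈ Finset.range (2 * g), ∏ j ∈ Finset.range (2 * g),
      (if i = j then 1 else (s ^ i) (i2 t₁) - (s ^ j) (i2 t₁)) with hE
  have hE0 : E ≠ 0 := by
    rw [hE]
    refine mul_ne_zero (mul_ne_zero ?_ ?_) ?_
    · intro h
      apply hD0
      apply hjinj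
      rw [IsScalarTower.algebraMap_apply k[X] A N, h, map_zero, map_zero]
    · rw [Ne, map_eq_zero_iff _ hi2inj]
      exact mul_ne_zero ha0 hb0
    · rw [Finset.prod_ne_zero_iff]
      intro i hi
      rw [Finset.prod_ne_zero_iff]
      intro j hj
      split_ifs with hij
      · exact one_ne_zero
      · intro h
        apply hij
        have h1 := congrArg (algebraMap A N) (sub_eq_zero.1 h)
        rw [s_pow σ s hs, s_pow σ s hs, hc2, ht₁] at h1
        exact hinj i (Finset.mem_range.1 hi) j (Finset.mem_range.1 hj) h1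
  obtain ⟨c, hc0, hEc⟩ := exists_dvd (k := k) E hE0
  refine ⟨c.natDegree, fun Q a w hQ hdeg hQw hcop hfrob => ?_⟩
  have hcQ : ¬ Q ∣ c := fun h => by
    have := natDegree_le_of_dvd h hc0
    omega
  obtain ⟨hF1, hF2⟩ := card_quot hQ
  have hmax := isMaximal_span hQ
  let _ : Field (k[X] ⧸ Ideal.span {Q}) := Ideal.Quotient.field _
  have hwmax : w.asIdeal.IsMaximal := isMaximal_of_mem hQ w.asIdeal hQw
  have hker : ∀ c : k[X], Ideal.Quotient.mk (Ideal.span {Q}) c = 0 ↔ Q ∣ c := fun c => by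
    rw [Ideal.Quotient.eq_zero_iff_mem, Ideal.mem_span_singleton]
  set r := Ideal.Quotient.mk (Ideal.span {Q}) with hr
  have hrs : Function.Surjective r := Ideal.Quotient.mk_surjective
  obtain ⟨φ, hφ, hφc⟩ := exists_residue r hrs hker w.asIdeal hwmax hQw
  set q := Nat.card (k[X] ⧸ Ideal.span {Q}) with hq
  -- the automorphism
  have hev : Even (orderOf σ) := (even_iff_two_dvd.2 ((dvd_mul_right 2 g).trans hord))
  have haodd : Odd a := by
    rcases Nat.even_or_odd a with h | h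
    · exfalso
      have h1 := Nat.dvd_gcd (even_iff_two_dvd.1 h) (even_iff_two_dvd.1 hev)
      rw [hcop] at h1
      omega
    · exact h
  have hcop2 : a.Coprime (2 * g) := hcop.coprime_dvd_right hord
  let s' : A ≃ₐ[k[X]] A := s ^ a
  have hs' : ∀ x : A, algebraMap A N (s' x) = (σ ^ a) (algebraMap A N x) := fun x =>
    s_pow σ s hs a x
  have hφs : ∀ x : A, φ (s' x) = φ x ^ q := by
    intro x
    have h1 := (hφ _).2 (hfrob x (s' x) (hs' x).symm)
    rwa [map_sub, map_pow, sub_eq_zero, ← hF2] at h1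
  have hσ2' : ((σ ^ a) ^ (2 * g)) (ι₂ θ) = ι₂ θ := by
    rw [← pow_mul, mul_comm, pow_mul, hper1]
  have hσβ' : ((σ ^ a) ^ (2 * g)) β₂ = -β₂ := by
    have h1 : ∀ m : ℕ, ((σ ^ (2 * g)) ^ m) β₂ = (-1) ^ m * β₂ := by
      intro m
      induction m with
      | zero => rw [pow_zero, pow_zero, one_mul]; rfl
      | succ m ih =>
        rw [pow_succ, AlgEquiv.mul_apply, hσβ, map_neg, ih]
        ring
    rw [← pow_mul, mul_comm, pow_mul, h1, haodd.neg_one_pow]
    ring
  have hσθ' : ((σ ^ a)) (ι₁ θ) = ι₁ θ := by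
    have h1 : ∀ m : ℕ, (σ ^ m) (ι₁ θ) = ι₁ θ := by
      intro m
      induction m with
      | zero => rfl
      | succ m ih => rw [pow_succ, AlgEquiv.mul_apply, hσθ, ih]
    exact h1 a
  have hmodinj : ∀ i < 2 * g, ∀ j < 2 * g, (a * i) % (2 * g) = (a * j) % (2 * g) → i = j := by
    intro i hi j hj hij
    have h1 : i ≡ j [MOD 2 * g] := Nat.ModEq.cancel_left_of_coprime (c := a) (by
      rw [Nat.gcd_comm]; exact hcop2) hij
    have h2 : i % (2 * g) = j % (2 * g) := h1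
    rwa [Nat.mod_eq_of_lt hi, Nat.mod_eq_of_lt hj] at h2
  have hsj : ∀ j : ℕ, (s' ^ j) (i2 t₁) = (s ^ ((a * j) % (2 * g))) (i2 t₁) := by
    intro j
    apply hAinj
    rw [s_pow σ s hs, s_pow (σ ^ a) s' hs', hc2, ht₁, ← pow_mul, hper]
  have hprod : ∏ j ∈ Finset.range (2 * g), (X - C ((s ^ j) (i2 t₁))) =
      ∏ j ∈ Finset.range (2 * g), (X - C ((s' ^ j) (i2 t₁))) := by
    symm
    have hmaps : Set.MapsTo (fun j => (a * j) % (2 * g)) (Finset.range (2 * g) : Set ℕ)
        (Finset.range (2 * g) : Set ℕ) := fun j _ =>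
      Finset.mem_coe.2 (Finset.mem_range.2 (Nat.mod_lt _ (by omega)))
    have hinjOn : Set.InjOn (fun j => (a * j) % (2 * g)) (Finset.range (2 * g) : Set ℕ) :=
      fun i hi j hj hij => hmodinj i (Finset.mem_range.1 (Finset.mem_coe.1 hi)) j
        (Finset.mem_range.1 (Finset.mem_coe.1 hj)) hij
    refine Finset.prod_nbij (fun j => (a * j) % (2 * g)) (fun j hj => hmaps hj) hinjOn ?_
      (fun j _ => by rw [hsj])
    exact Finset.surjOn_of_injOn_of_card_le _ hmaps hinjOn le_rfl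
  -- the units
  have hφE : φ E ≠ 0 := by
    intro h
    have h1 : φ (algebraMap k[X] A c) = 0 := by
      obtain ⟨e, he⟩ := hEc
      rw [he, map_mul, h, zero_mul]
    rw [hφc, rho_zero r hker] at h1
    exact hcQ h1
  rw [hE, map_mul, map_mul, map_prod] at hφE
  have hu2 := right_ne_zero_of_mul hφE
  have hu3 := left_ne_zero_of_mul hφE
  have hcΩ := right_ne_zero_of_mul hu3
  have hDΩ := left_ne_zero_of_mul hu3
  rw [Finset.prod_ne_zero_iff] at hu2
  have hv1 : ∀ j, φ ((s' ^ j) (i2 t₁)) = φ (i2 t₁) ^ (q ^ j) := fun j => frob_pow hφs j _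
  have hv2 : ∀ i < 2 * g, ∀ j < 2 * g, φ (i2 t₁) ^ (q ^ i) = φ (i2 t₁) ^ (q ^ j) → i = j := by
    intro i hi j hj hij
    apply hmodinj i hi j hj
    by_contra hne
    have h1 := hu2 ((a * i) % (2 * g)) (Finset.mem_range.2 (Nat.mod_lt _ (by omega)))
    rw [map_prod, Finset.prod_ne_zero_iff] at h1
    have h2 := h1 ((a * j) % (2 * g)) (Finset.mem_range.2 (Nat.mod_lt _ (by omega)))
    rw [if_neg hne, map_sub, ← hsj, ← hsj, hv1, hv1, hij, sub_self] at h2
    exact h2 rfl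
  -- the factorization
  have hfO : f.map (algebraMap k[X] A) = (X - C (i1 t₁)) *
      ∏ j ∈ Finset.range (2 * g), (X - C ((s' ^ j) (i2 t₁))) := by
    rw [← hprod]
    apply Polynomial.map_injective (algebraMap A N) hAinj
    rw [Polynomial.map_map, Polynomial.map_mul, Polynomial.map_prod]
    simp only [Polynomial.map_sub, map_X, map_C, s_pow σ s hs, hc1, hc2, ht₁]
    rw [← hf, ← IsScalarTower.algebraMap_eq]
  have hcompΩ : (φ.comp (algebraMap k[X] A)) = rho r := RingHom.ext hφc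
  have hfΩ : f.map (rho r) = (X - C (φ (i1 t₁))) *
      ∏ j ∈ Finset.range (2 * g), (X - C (φ (i2 t₁) ^ (q ^ j))) := by
    have h1 := congrArg (Polynomial.map φ) hfO
    rw [Polynomial.map_map, Polynomial.map_mul, Polynomial.map_prod, hcompΩ] at h1
    simp only [Polynomial.map_sub, map_X, map_C, hv1] at h1
    exact h1
  have he₀ : φ (i1 t₁) ^ q = φ (i1 t₁) := by
    rw [← hφs]
    congr 1
    apply hAinj
    rw [hs', hc1, ht₁, hσθ']
  obtain ⟨e, h, he, hh1, hh2, hh3, hh4⟩ := poly_part r g hrs hker f hyp.mon hyp.deg (φ (i1 t₁))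
    (φ (i2 t₁)) he₀ hfΩ hv2 hg
  refine ⟨e, h, hh1, hh2, hh3, hh4, fun 𝔓 hq𝔓 hval => ?_⟩
  have : Algebra.IsIntegral k[X] O := IsIntegralClosure.isIntegral_algebra k[X] L
  have h𝔓max : 𝔓.asIdeal.IsMaximal := isMaximal_of_mem hQ 𝔓.asIdeal hq𝔓
  obtain ⟨ψ, hψ, hψc⟩ := exists_residue r hrs hker 𝔓.asIdeal h𝔓max hq𝔓
  have hψroot : ∃ j < 2 * g, ψ t₁ = φ (i2 t₁) ^ (q ^ j) := by
    have h1 : eval (ψ t₁) (f.map (rho r)) = 0 := by
      have h2 : eval₂ (algebraMap k[X] O) t₁ f = 0 := by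
        apply hOinj
        rw [hom_eval₂, ht₁, map_zero, ← IsScalarTower.algebraMap_eq]
        exact hG.root
      have h3 := congrArg ψ h2
      rw [map_zero, hom_eval₂, show ψ.comp (algebraMap k[X] O) = rho r from RingHom.ext hψc] at h3
      rw [eval_map]
      exact h3
    rw [hfΩ, eval_mul, eval_prod, mul_eq_zero, Finset.prod_eq_zero_iff] at h1
    rcases h1 with h1 | ⟨j, hj, h1⟩
    · exfalso
      rw [eval_sub, eval_X, eval_C, ← he, sub_eq_zero] at h1
      have h2 : ψ (t₁ - algebraMap k[X] O e) = 0 := by rw [map_sub, hψc, h1, sub_self]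
      have h3 := (hψ _).1 h2
      have h4 := (𝔓.valuation_lt_one_iff_mem (K := L) _).2 h3
      have h5 : algebraMap O L (t₁ - algebraMap k[X] O e) = θ - algebraMap k[X] L e := by
        rw [map_sub, ht₁, ← IsScalarTower.algebraMap_apply]
      have h6 : 𝔓.valuation L (algebraMap O L (t₁ - algebraMap k[X] O e)) < 1 := h4
      rw [h5, hval] at h6
      exact lt_irrefl _ h6
    · rw [eval_sub, eval_X, eval_C, sub_eq_zero] at h1
      exact ⟨j, Finset.mem_range.1 hj, h1⟩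
  obtain ⟨j, hj, hψj⟩ := hψroot
  have hψeq : ψ = (φ.comp ((s' ^ j : A ≃ₐ[k[X]] A) : A →+* A)).comp (i2 : O →+* A) := by
    refine hom_eq t₁ D hD ψ _ ?_ (fun c => ?_) ?_
    · rw [hψc, ← hφc]
      exact hDΩ
    · rw [hψc, ← hφc]
      change _ = φ ((s' ^ j) (i2 (algebraMap k[X] O c)))
      rw [AlgHom.commutes, AlgEquiv.commutes]
    · rw [hψj, ← hv1]
      rfl
  have hψφ : ∀ x, ψ x = φ ((s' ^ j) (i2 x)) := by
    intro x
    rw [hψeq]
    rfl
  have hk2 : (2 : k) ≠ 0 := hyp.two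
  have h2Ω : (2 : AlgebraicClosure (k[X] ⧸ Ideal.span {Q})) ≠ 0 := by
    intro h
    apply hk2
    have h1 : ((rho r).comp (C : k →+* k[X])) 2 = 0 := by rw [map_ofNat]; exact h
    rwa [map_eq_zero] at h1
  have hqodd : Odd q := by
    rw [hF2]
    apply Odd.pow
    have := Fintype.ofFinite k
    rw [Nat.card_eq_fintype_card, Nat.odd_iff]
    apply FiniteField.odd_card_of_char_ne_two
    intro h
    apply hk2
    have h1 := (ringChar.spec k 2).2 (by rw [h])
    exact_mod_cast h1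
  exact sq_part g q j hqodd (σ ^ a) ι₂ β₂ s' hs' i2 hc2 φ hφs h2Ω (hfixτ _ hσ2') α hβ hσβ' a₀ b₀
    hb0 hab.symm hcΩ 𝔓 ψ hψ hψφ

end ResA

open ResA

/-- **RES.** -/
theorem t_res : E_RES := by
  intro hFROB hGAL g k K L E O _ _ _ _ _ _ _ _ _ _ _ _ _ _ _ _ _ _ _ _ _ _ f P₀ θ hyp hG hunr
    α hα hnorm hns B
  obtain ⟨N, _, _, _, _, σ, β₂, ι₁, ι₂, κ, hκ, hσθ, hf, hσ2, hβ, hσβ⟩ :=
    hGAL g k K L E f P₀ θ hyp hG hunr α hα hnorm hns
  let _ : Algebra k[X] N := ((algebraMap K N).comp (algebraMap k[X] K)).toAlgebra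
  have : IsScalarTower k[X] K N := IsScalarTower.of_algebraMap_eq' rfl
  obtain ⟨M₁, hM₁⟩ := splits_part (k := k) κ σ hκ
  obtain ⟨M₂, hM₂⟩ := core (k := k) (O := O) g f P₀ θ hyp hG α hα σ β₂ ι₁ ι₂ hσθ hf hσ2 hβ hσβ
  obtain ⟨Q, a, w, c1, c2, c3, c4, c5, c6⟩ := hFROB k K N σ (max B (max M₁ M₂))
  obtain ⟨e, h, d1, d2, d3, d4, d5⟩ := hM₂ Q a w c2
    (lt_of_le_of_lt ((le_max_right _ _).trans (le_max_right _ _)) c3) c4 c5 c6
  exact ⟨Q, e, h, c1, c2, lt_of_le_of_lt (le_max_left _ _) c3, d1, d2, d3, d4,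
    hM₁ Q a w c2 (lt_of_le_of_lt ((le_max_left _ _).trans (le_max_right _ _)) c3) c4 c6, d5⟩

end Pool.Agent.Helper28H.FE
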