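import Pool.Agent.Helper28H.FE.Stm
import Pool.Agent.N271.PQ.Him

/-!
# Project FE, piece SDB: unimodular lattices where the class is locally in the image (by helper12)
-/

set_option autoImplicit false
set_option linter.all false

open Polynomial IsDedekindDomain Matrix WithZero
open scoped Classical

namespace Pool.Agent.Helper28H.FE

open Pool.Agent.N352.PJ (Mt IsGen)
open Pool.Agent.N874.JM (LocF)

namespace Sdb

/-! ### Powers of `x` modulo `F` -/

section pow

variable {K : Type} [Field K] {g : ℕ} {F : K[X]}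

theorem mod_succ (hF : F.Monic) (hd : F.natDegree = 2 * g + 1) (m : ℕ) :
    (X ^ (m + 1) %ₘ F) = X * (X ^ m %ₘ F) - C ((X ^ m %ₘ F).coeff (2 * g)) * F := by
  refine (div_modByMonic_unique (X * (X ^ m /ₘ F) + C ((X ^ m %ₘ F).coeff (2 * g))) _ hF ⟨?_, ?_⟩).2
  · have h1 := modByMonic_add_div (X ^ m : K[X]) F
    rw [pow_succ]
    linear_combination X * h1
  · rw [degree_eq_natDegree hF.ne_zero, hd, degree_lt_iff_coeff_zero]
    intro j hj
    have hlt : (X ^ m %ₘ F).degree < ((2 * g + 1 : ℕ) : WithBot ℕ) := by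
      have h2 := degree_modByMonic_lt (X ^ m : K[X]) hF
      rwa [degree_eq_natDegree hF.ne_zero, hd] at h2
    obtain ⟨i, rfl⟩ : ∃ i, j = i + 1 := ⟨j - 1, by omega⟩
    rw [coeff_sub, coeff_X_mul, coeff_C_mul]
    by_cases hi : i = 2 * g
    · have h3 : F.coeff (2 * g + 1) = 1 := by
        rw [← hd]
        exact hF.coeff_natDegree
      rw [hi, h3, mul_one, sub_self]
    · have h3 : F.coeff (i + 1) = 0 := by
        apply coeff_eq_zero_of_natDegree_lt
        rw [hd]
        omega
      have h4 : (X ^ m %ₘ F).coeff i = 0 := by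
        apply coeff_eq_zero_of_degree_lt
        refine lt_of_lt_of_le hlt ?_
        exact_mod_cast (by omega : 2 * g + 1 ≤ i)
      rw [h3, h4, mul_zero, sub_zero]

theorem mod_coeff_zero (hF : F.Monic) (hd : F.natDegree = 2 * g + 1) (P : K[X]) {j : ℕ} (hj : 2 * g + 1 ≤ j) :
    (P %ₘ F).coeff j = 0 := by
  apply coeff_eq_zero_of_degree_lt
  refine lt_of_lt_of_le (degree_modByMonic_lt P hF) ?_
  rw [degree_eq_natDegree hF.ne_zero, hd]
  exact_mod_cast hj

end pow

section val

variable {R K : Type} [CommRing R] [IsDedekindDomain R] [Field K] [Algebra R K]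
  [IsFractionRing R K] (v : HeightOneSpectrum R)

theorem val_mod {g : ℕ} {F : K[X]} (hF : F.Monic) (hd : F.natDegree = 2 * g + 1) (c : ℤ)
    (hc : ∀ j ≤ 2 * g, v.valuation K (F.coeff j) ≤ exp (c * ((2 * g + 1 : ℕ) - (j : ℕ)))) :
    ∀ m j : ℕ, v.valuation K ((X ^ m %ₘ F).coeff j) ≤ exp (c * ((m : ℤ) - j)) := by
  intro m
  induction m with
  | zero =>
    intro j
    have h1 : (X ^ 0 : K[X]) %ₘ F = 1 := by
      rw [pow_zero, (modByMonic_eq_self_iff hF).2]
      rw [degree_one, degree_eq_natDegree hF.ne_zero, hd]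
      exact_mod_cast Nat.succ_pos _
    rw [h1, coeff_one]
    split_ifs with h
    · rw [h, map_one]
      simp
    · rw [map_zero]
      exact zero_le'
  | succ m ih =>
    intro j
    by_cases hj : 2 * g + 1 ≤ j
    · rw [mod_coeff_zero hF hd _ hj, map_zero]
      exact zero_le'
    rw [not_le] at hj
    rw [mod_succ hF hd, coeff_sub, coeff_C_mul]
    refine (Valuation.map_sub _ _ _).trans (max_le ?_ ?_)
    · rcases j with _ | i
      · rw [coeff_X_mul_zero, map_zero]
        exact zero_le'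
      · rw [coeff_X_mul]
        refine (ih i).trans (le_of_eq ?_)
        congr 1
        push_cast
        ring
    · rw [map_mul]
      refine (mul_le_mul' (ih (2 * g)) (hc j (by omega))).trans (le_of_eq ?_)
      rw [← WithZero.exp_add]
      congr 1
      push_cast
      ring

theorem prod_sub {ι : Type} (s : Finset ι) (a b : ι → K)
    (h1 : ∀ i ∈ s, v.valuation K (a i - b i) < 1) (h2 : ∀ i ∈ s, v.valuation K (b i) ≤ 1) :
    v.valuation K (∏ i ∈ s, a i - ∏ i ∈ s, b i) < 1 ∧ v.valuation K (∏ i ∈ s, a i) ≤ 1 := by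
  induction s using Finset.induction_on with
  | empty => simp
  | insert i s hi ih =>
    obtain ⟨ih1, ih2⟩ := ih (fun j hj => h1 j (Finset.mem_insert_of_mem hj))
      fun j hj => h2 j (Finset.mem_insert_of_mem hj)
    have h3 := h1 i (Finset.mem_insert_self i s)
    have h4 := h2 i (Finset.mem_insert_self i s)
    have h5 : v.valuation K (a i) ≤ 1 := by
      have e : a i = (a i - b i) + b i := by ring
      rw [e]
      exact (Valuation.map_add _ _ _).trans (max_le h3.le h4)
    rw [Finset.prod_insert hi, Finset.prod_insert hi]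
    constructor
    · have e : a i * ∏ x ∈ s, a x - b i * ∏ x ∈ s, b x =
          (a i - b i) * ∏ x ∈ s, a x + b i * (∏ x ∈ s, a x - ∏ x ∈ s, b x) := by ring
      rw [e]
      refine lt_of_le_of_lt (Valuation.map_add _ _ _) (max_lt ?_ ?_)
      · rw [map_mul]
        exact mul_lt_one_of_lt_of_le h3 ih2
      · rw [map_mul]
        exact lt_of_le_of_lt (mul_le_of_le_one_left' h4) ih1
    · rw [map_mul]
      exact mul_le_one' h5 ih2

theorem det_sub {n : ℕ} (M N : Matrix (Fin n) (Fin n) K)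
    (h1 : ∀ i j, v.valuation K (M i j - N i j) < 1) (h2 : ∀ i j, v.valuation K (N i j) ≤ 1) :
    v.valuation K (M.det - N.det) < 1 := by
  rw [Matrix.det_apply', Matrix.det_apply', ← Finset.sum_sub_distrib]
  refine Valuation.map_sum_lt _ one_ne_zero fun σ _ => ?_
  rw [← mul_sub, map_mul]
  refine lt_of_le_of_lt (mul_le_of_le_one_left' ?_) (prod_sub v Finset.univ (fun i => M (σ i) i)
    (fun i => N (σ i) i) (fun i _ => h1 _ _) fun i _ => h2 _ _).1
  have e : ((Equiv.Perm.sign σ : ℤ) : K) = algebraMap R K ((Equiv.Perm.sign σ : ℤ) : R) := by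
    rw [map_intCast]
  rw [e]
  exact v.valuation_le_one _

theorem prod_zpow' (τ : K) (hτ : τ ≠ 0) (n : ℕ) (e : ℕ → ℤ) :
    ∏ i ∈ Finset.range n, τ ^ (e i) = τ ^ (∑ i ∈ Finset.range n, e i) := by
  induction n with
  | zero => simp
  | succ n ih => rw [Finset.prod_range_succ, Finset.sum_range_succ, ih, zpow_add₀ hτ]

theorem sum_zero (g : ℕ) : ∑ i ∈ Finset.range (2 * g + 1), ((i : ℤ) - g) = 0 := by
  have h : ∀ n : ℕ, 2 * ∑ i ∈ Finset.range n, (i : ℤ) = n * (n - 1) := by
    intro n
    induction n with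
    | zero => simp
    | succ n ih =>
      rw [Finset.sum_range_succ, mul_add, ih]
      push_cast
      ring
  rw [Finset.sum_sub_distrib, Finset.sum_const, Finset.card_range]
  have h2 := h (2 * g + 1)
  push_cast at h2
  rw [nsmul_eq_mul]
  push_cast
  linarith

theorem core (hiso : B_ISO) (h2 : (2 : K) ≠ 0) {g : ℕ} {F h : K[X]} (hF : F.Monic)
    (hd : F.natDegree = 2 * g + 1) (hcop : IsCoprime h F)
    (hsq : IsSquare (Algebra.norm K (AdjoinRoot.mk F h))) (hloc : LocF (v.adicCompletion K) F h)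
    (τ : K) (c : ℤ) (hτ : v.valuation K τ = exp (-c))
    (hc : ∀ j ≤ 2 * g, v.valuation K (F.coeff j) ≤ exp (c * ((2 * g + 1 : ℕ) - (j : ℕ)))) :
    ∃ T : Mt g K, (∀ i j, v.valuation K ((T * Gm g F h * Tᵀ) i j) ≤ 1) ∧
      v.valuation K (T * Gm g F h * Tᵀ).det = 1 := by
  have hτ0 : τ ≠ 0 := by
    rintro rfl
    rw [map_zero] at hτ
    exact WithZero.exp_ne_zero hτ.symm
  obtain ⟨T, hT⟩ := hiso R K v g F h h2 hF hd hcop hsq hloc (c.natAbs * (2 * g) + 1)
  obtain ⟨d, hd'⟩ : ∃ d : Fin (2 * g + 1) → K, d = fun i : Fin (2 * g + 1) => τ ^ (((i : ℕ) : ℤ) - g) := ⟨_, rfl⟩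
  have hdv : ∀ i, v.valuation K (d i) = exp (-c * ((i : ℤ) - g)) := by
    intro i
    rw [hd', map_zpow₀, hτ, ← WithZero.exp_zsmul]
    congr 1
    simp only [smul_eq_mul]
    ring
  have hprod : ∏ i, d i = 1 := by
    rw [hd']
    have h3 := prod_zpow' τ hτ0 (2 * g + 1) fun i => (i : ℤ) - g
    rw [sum_zero, zpow_zero] at h3
    rw [← h3, Finset.prod_range]
  set N : Mt g K := Matrix.diagonal d * Gm g F 1 * Matrix.diagonal d with hN
  set M : Mt g K := Matrix.diagonal d * (T * Gm g F h * Tᵀ) * Matrix.diagonal d with hM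
  have hNij : ∀ i j, N i j = d i * Gm g F 1 i j * d j := by
    intro i j
    rw [hN, Matrix.mul_diagonal, Matrix.diagonal_mul]
  have hMij : ∀ i j, M i j = d i * (T * Gm g F h * Tᵀ) i j * d j := by
    intro i j
    rw [hM, Matrix.mul_diagonal, Matrix.diagonal_mul]
  have hN1 : ∀ i j, v.valuation K (N i j) ≤ 1 := by
    intro i j
    have h3 : v.valuation K (Gm g F 1 i j) ≤ exp (c * (((i : ℕ) + (j : ℕ) : ℕ) - (2 * g : ℕ))) := by
      unfold Gm
      rw [Matrix.of_apply, one_mul]
      exact val_mod v hF hd c hc _ _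
    rw [hNij, map_mul, map_mul, hdv, hdv]
    refine (mul_le_mul' (mul_le_mul' le_rfl h3) le_rfl).trans ?_
    rw [← WithZero.exp_add, ← WithZero.exp_add, ← WithZero.exp_zero, WithZero.exp_le_exp]
    push_cast
    ring_nf
    exact le_refl _
  have hMN : ∀ i j, v.valuation K (M i j - N i j) < 1 := by
    intro i j
    rw [hMij, hNij]
    have e : d i * (T * Gm g F h * Tᵀ) i j * d j - d i * Gm g F 1 i j * d j =
        d i * ((T * Gm g F h * Tᵀ) i j - Gm g F 1 i j) * d j := by ring
    rw [e, map_mul, map_mul, hdv, hdv]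
    refine lt_of_le_of_lt (mul_le_mul' (mul_le_mul' le_rfl (hT i j)) le_rfl) ?_
    rw [← WithZero.exp_add, ← WithZero.exp_add, ← WithZero.exp_zero, WithZero.exp_lt_exp]
    have hi : |(i : ℤ) - g| ≤ g := by
      have := i.2
      rw [abs_le]
      constructor <;> push_cast <;> omega
    have hj : |(j : ℤ) - g| ≤ g := by
      have := j.2
      rw [abs_le]
      constructor <;> push_cast <;> omega
    have h4 : -c * ((i : ℤ) - g) ≤ |c| * g := by
      refine (le_abs_self _).trans ?_
      rw [abs_mul, abs_neg]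
      exact mul_le_mul_of_nonneg_left hi (abs_nonneg c)
    have h5 : -c * ((j : ℤ) - g) ≤ |c| * g := by
      refine (le_abs_self _).trans ?_
      rw [abs_mul, abs_neg]
      exact mul_le_mul_of_nonneg_left hj (abs_nonneg c)
    push_cast [Int.natCast_natAbs]
    linarith
  have hNdet : v.valuation K N.det = 1 := by
    have h3 := Pool.Agent.N271.PQ.det_Gm (h := (1 : K[X])) hF hd
    have h4 : (Gm g F 1).det = (-1) ^ g * Algebra.norm K (AdjoinRoot.mk F 1) := h3
    rw [hN, Matrix.det_mul, Matrix.det_mul, Matrix.det_diagonal, hprod, one_mul, mul_one, h4, map_one,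
      map_one, mul_one, map_pow, Valuation.map_neg, map_one, one_pow]
  have hM1 : ∀ i j, v.valuation K (M i j) ≤ 1 := by
    intro i j
    have e : M i j = (M i j - N i j) + N i j := by ring
    rw [e]
    exact (Valuation.map_add _ _ _).trans (max_le (hMN i j).le (hN1 i j))
  have hMdet : v.valuation K M.det = 1 := by
    have h3 := det_sub v M N hMN hN1
    have e : M.det = (M.det - N.det) + N.det := by ring
    rw [e, Valuation.map_add_eq_of_lt_right _ (by rw [hNdet]; exact h3), hNdet]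
  have hT' : (Matrix.diagonal d * T) * Gm g F h * (Matrix.diagonal d * T)ᵀ = M := by
    rw [hM, Matrix.transpose_mul, Matrix.diagonal_transpose]
    simp only [Matrix.mul_assoc]
  refine ⟨Matrix.diagonal d * T, ?_, ?_⟩
  · rw [hT']
    exact hM1
  · rw [hT']
    exact hMdet

end val

section fin

variable {g : ℕ} {k K L : Type} [Field k] [Field K] [Algebra k[X] K] [IsFractionRing k[X] K]
  [Field L] [Algebra K L] [Algebra k[X] L] [IsScalarTower k[X] K L] {f : k[X][X]} {θ : L}

theorem top_aeval (hG : IsGen g K f θ) (p : K[X]) :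
    hG.top (aeval θ p) = (p %ₘ (f.map (algebraMap k[X] K))).coeff (2 * g) := by
  have hF : (f.map (algebraMap k[X] K)).Monic := hG.mon.map _
  have hd : (f.map (algebraMap k[X] K)).natDegree = 2 * g + 1 := by
    rw [hG.mon.natDegree_map, hG.deg]
  set F := f.map (algebraMap k[X] K) with hFd
  have h1 : aeval θ p = aeval θ (p %ₘ F) := by
    conv_lhs => rw [← modByMonic_add_div p F]
    rw [map_add, map_mul, Pool.Agent.N262.PJ.root_map hG, zero_mul, add_zero]
  have h2 : aeval θ (p %ₘ F) = ∑ a : Fin (2 * g + 1), (p %ₘ F).coeff a • hG.basis a := by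
    conv_lhs => rw [Pool.Agent.N271.PQ.red_sum hF hd p]
    rw [map_sum]
    refine Finset.sum_congr rfl fun a _ => ?_
    rw [map_mul, map_pow, aeval_C, aeval_X, hG.basis_apply, Algebra.smul_def]
  rw [h1, h2, IsGen.top, Module.Basis.coord_apply, Module.Basis.repr_sum_self, Fin.val_last]

theorem top_gram (hG : IsGen g K f θ) (h : K[X]) (T : Mt g K) (hh : aeval θ h ≠ 0) (i j : Fin (2 * g + 1)) :
    hG.top ((aeval θ h * ∑ a, T i a • θ ^ (a : ℕ)) * (aeval θ h * ∑ a, T j a • θ ^ (a : ℕ)) / aeval θ h) =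
      (T * Gm g (f.map (algebraMap k[X] K)) h * Tᵀ) i j := by
  have e1 : (aeval θ h * ∑ a, T i a • θ ^ (a : ℕ)) * (aeval θ h * ∑ a, T j a • θ ^ (a : ℕ)) / aeval θ h =
      ∑ a, ∑ b, (T i a * T j b) • aeval θ (h * X ^ ((a : ℕ) + b)) := by
    have e2 : (aeval θ h * ∑ a, T i a • θ ^ (a : ℕ)) * (aeval θ h * ∑ a, T j a • θ ^ (a : ℕ)) / aeval θ h =
        aeval θ h * ((∑ a, T i a • θ ^ (a : ℕ)) * ∑ a, T j a • θ ^ (a : ℕ)) := by
      field_simp
    rw [e2, Finset.sum_mul_sum, Finset.mul_sum]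
    refine Finset.sum_congr rfl fun a _ => ?_
    rw [Finset.mul_sum]
    refine Finset.sum_congr rfl fun b _ => ?_
    rw [map_mul, map_pow, aeval_X, smul_mul_smul_comm, mul_smul_comm, pow_add]
  rw [e1, map_sum, Matrix.mul_apply]
  simp only [map_sum, map_smul, top_aeval]
  rw [Finset.sum_comm]
  refine Finset.sum_congr rfl fun b _ => ?_
  rw [Matrix.mul_apply, Finset.sum_mul]
  refine Finset.sum_congr rfl fun a _ => ?_
  rw [Matrix.transpose_apply, smul_eq_mul]
  unfold Gm
  rw [Matrix.of_apply]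
  ring

theorem coprime (hG : IsGen g K f θ) (h : K[X]) (hh : aeval θ h ≠ 0) :
    IsCoprime h (f.map (algebraMap k[X] K)) := by
  haveI := Pool.Agent.N262.PJ.fin_dim hG
  rw [← Pool.Agent.N262.PJ.minpoly_eq hG]
  refine IsCoprime.symm ((minpoly.irreducible (IsIntegral.of_finite K θ)).coprime_iff_not_dvd.2 ?_)
  intro h1
  exact hh ((minpoly.dvd_iff).1 h1)

theorem norm_eq (hG : IsGen g K f θ) (h : K[X]) :
    Algebra.norm K (AdjoinRoot.mk (f.map (algebraMap k[X] K)) h) = Algebra.norm K (aeval θ h) := by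
  haveI := Pool.Agent.N262.PJ.fin_dim hG
  have hd : (f.map (algebraMap k[X] K)).natDegree = 2 * g + 1 := by
    rw [hG.mon.natDegree_map, hG.deg]
  have hF : (f.map (algebraMap k[X] K)).Monic := hG.mon.map _
  let φ : AdjoinRoot (f.map (algebraMap k[X] K)) →ₐ[K] L :=
    AdjoinRoot.liftAlgHom _ (Algebra.ofId K L) θ (Pool.Agent.N262.PJ.root_map hG)
  have hφ : ∀ p : K[X], φ (AdjoinRoot.mk _ p) = aeval θ p := by
    intro p
    exact AdjoinRoot.liftAlgHom_mk ..
  have hirr : Irreducible (f.map (algebraMap k[X] K)) := by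
    rw [← Pool.Agent.N262.PJ.minpoly_eq hG]
    exact minpoly.irreducible (IsIntegral.of_finite K θ)
  haveI : Fact (Irreducible (f.map (algebraMap k[X] K))) := ⟨hirr⟩
  have hinj : Function.Injective φ := φ.toRingHom.injective
  have hsur : Function.Surjective φ := by
    intro x
    obtain ⟨c, hc⟩ := hG.gen x
    refine ⟨AdjoinRoot.mk _ (∑ i, C (c i) * X ^ (i : ℕ)), ?_⟩
    rw [hφ, hc, map_sum]
    refine Finset.sum_congr rfl fun i _ => ?_
    rw [map_mul, map_pow, aeval_C, aeval_X]
  have h1 := Algebra.norm_eq_of_algEquiv (AlgEquiv.ofBijective φ ⟨hinj, hsur⟩) (AdjoinRoot.mk _ h)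
  rw [← h1]
  exact congrArg _ (hφ h)

end fin

end Sdb

/-- **Piece SDB.** -/
theorem sdb (hiso : B_ISO) : B_SDB := by
  intro g k K L _ _ _ _ _ _ _ _ f θ hG R _ _ _ _ v h2 hv h hh hsq hloc
  have hinj : Function.Injective (algebraMap k[X] K) := IsFractionRing.injective k[X] K
  have h2K : (2 : K) ≠ 0 := by
    have h3 : (C (2 : k) : k[X]) ≠ 0 := by simpa using h2
    have h4 := (map_ne_zero_iff _ hinj).2 h3
    rwa [map_ofNat, map_ofNat] at h4
  have hF : (f.map (algebraMap k[X] K)).Monic := hG.mon.map _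
  have hd : (f.map (algebraMap k[X] K)).natDegree = 2 * g + 1 := by
    rw [hG.mon.natDegree_map, hG.deg]
  obtain ⟨τ, c, hτ, hc⟩ : ∃ (τ : K) (c : ℤ), v.valuation K τ = exp (-c) ∧
      ∀ j ≤ 2 * g, v.valuation K ((f.map (algebraMap k[X] K)).coeff j) ≤
        exp (c * ((2 * g + 1 : ℕ) - (j : ℕ))) := by
    rcases hv with hv | hv
    · refine ⟨1, 0, by rw [map_one]; simp, fun j _ => ?_⟩
      rw [coeff_map, zero_mul, WithZero.exp_zero]
      exact hv _
    · refine ⟨(algebraMap k[X] K X)⁻¹ ^ (∑ j ∈ Finset.range (2 * g + 1), (f.coeff j).natDegree),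
        ((∑ j ∈ Finset.range (2 * g + 1), (f.coeff j).natDegree : ℕ) : ℤ), ?_, fun j hj => ?_⟩
      · rw [map_pow, map_inv₀, hv X X_ne_zero, natDegree_X, ← WithZero.exp_neg, ← WithZero.exp_nsmul]
        congr 1
        simp
      · rw [coeff_map]
        rcases eq_or_ne (f.coeff j) 0 with h0 | h0
        · rw [h0, map_zero, map_zero]
          exact zero_le'
        · rw [hv _ h0, WithZero.exp_le_exp]
          have h3 : (f.coeff j).natDegree ≤ ∑ j ∈ Finset.range (2 * g + 1), (f.coeff j).natDegree :=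
            Finset.single_le_sum (f := fun j => (f.coeff j).natDegree) (fun _ _ => Nat.zero_le _)
              (Finset.mem_range.2 (by omega))
          have h4 : (1 : ℤ) ≤ ((2 * g + 1 : ℕ) : ℤ) - (j : ℕ) := by push_cast; omega
          have h5 : (0 : ℤ) ≤ ((∑ j ∈ Finset.range (2 * g + 1), (f.coeff j).natDegree : ℕ) : ℤ) :=
            Int.natCast_nonneg _
          have h6 : (((f.coeff j).natDegree : ℕ) : ℤ) ≤
              ((∑ j ∈ Finset.range (2 * g + 1), (f.coeff j).natDegree : ℕ) : ℤ) := by exact_mod_cast h3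
          nlinarith
  have hcop := Sdb.coprime hG h hh
  obtain ⟨T, hT1, hT2⟩ := Sdb.core v hiso h2K hF hd hcop (by rw [Sdb.norm_eq hG]; exact hsq) hloc τ c hτ hc
  refine ⟨fun i => aeval θ h * ∑ a, T i a • θ ^ (a : ℕ), fun i j => ?_, ?_⟩
  · rw [Sdb.top_gram hG h T hh]
    exact hT1 i j
  · have e : (Matrix.of fun i j => hG.top ((aeval θ h * ∑ a, T i a • θ ^ (a : ℕ)) *
        (aeval θ h * ∑ a, T j a • θ ^ (a : ℕ)) / aeval θ h) : Mt g K) =
        T * Gm g (f.map (algebraMap k[X] K)) h * Tᵀ := by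
      ext i j
      rw [Matrix.of_apply, Sdb.top_gram hG h T hh]
    rw [e]
    exact hT2

end Pool.Agent.Helper28H.FE
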