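import Pool.Agent.Helper28H.FE.Stm
import Pool.Agent.N644.PQ.HunC
import Pool.Agent.N262.PJ.Chi

/-!
# Piece SDG of project FE (helper28), by helper85
-/

set_option autoImplicit false
set_option linter.all false

open Polynomial IsDedekindDomain Matrix WithZero
open scoped Classical

namespace Pool.Agent.Helper28H.FE

open Pool.Agent.N352.PJ (Mt IsGen dsc Cg Crd res)
open Pool.Agent.N874.PP (Ov Ev Sq1 U0)

namespace Sdg

section bas

variable {k K L : Type} [Field k] [Field K] [Algebra k[X] K] [IsFractionRing k[X] K]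
  [Field L] [Algebra K L] [Algebra k[X] L] [IsScalarTower k[X] K L] (O : Type) [CommRing O]
  [IsDedekindDomain O] [Algebra O L] [IsFractionRing O L] [Algebra k[X] O]
  [IsScalarTower k[X] O L] [IsIntegralClosure O k[X] L] {g : ℕ} {f : k[X][X]} {θ : L}

theorem inj_L (k K L : Type) [Field k] [Field K] [Algebra k[X] K] [IsFractionRing k[X] K]
    [Field L] [Algebra K L] [Algebra k[X] L] [IsScalarTower k[X] K L] :
    Function.Injective (algebraMap k[X] L) := by
  rw [IsScalarTower.algebraMap_eq k[X] K L]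
  exact (algebraMap K L).injective.comp (IsFractionRing.injective k[X] K)

theorem inj_O (k K L O : Type) [Field k] [Field K] [Algebra k[X] K] [IsFractionRing k[X] K]
    [Field L] [Algebra K L] [Algebra k[X] L] [IsScalarTower k[X] K L] [CommRing O]
    [Algebra O L] [Algebra k[X] O] [IsScalarTower k[X] O L] :
    Function.Injective (algebraMap k[X] O) := by
  intro x y hxy
  apply inj_L k K L
  rw [IsScalarTower.algebraMap_apply k[X] O L, hxy, ← IsScalarTower.algebraMap_apply k[X] O L]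

include O in
theorem exists_den (K : Type) [Field K] [Algebra k[X] K] [IsFractionRing k[X] K] [Algebra K L]
    [IsScalarTower k[X] K L] {P : k[X]} (hP : Irreducible P) (x : L)
    (hx : ∀ 𝔓 : HeightOneSpectrum O, Ov P 𝔓 → 𝔓.valuation L x ≤ 1) :
    ∃ s : k[X], ¬ P ∣ s ∧ IsIntegral k[X] (algebraMap k[X] L s * x) := by
  haveI hint : Algebra.IsIntegral k[X] O := IsIntegralClosure.isIntegral_algebra k[X] L
  haveI hpp : (Ideal.span {P} : Ideal k[X]).IsPrime :=
    (Ideal.span_singleton_prime hP.ne_zero).mpr hP.prime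
  by_contra hcon
  push Not at hcon
  let J : Ideal O :=
    { carrier := {o | ∃ z : O, algebraMap O L o * x = algebraMap O L z}
      add_mem' := by
        rintro a b ⟨z, hz⟩ ⟨w, hw⟩
        exact ⟨z + w, by rw [map_add, map_add, add_mul, hz, hw]⟩
      zero_mem' := ⟨0, by rw [map_zero, zero_mul]⟩
      smul_mem' := by
        rintro c a ⟨z, hz⟩
        exact ⟨c * z, by rw [smul_eq_mul, map_mul, map_mul, mul_assoc, hz]⟩ }
  have hJ : J.comap (algebraMap k[X] O) ≤ Ideal.span {P} := by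
    intro s hs
    obtain ⟨z, hz⟩ := hs
    rw [Ideal.mem_span_singleton]
    by_contra hns
    apply hcon s hns
    rw [← IsScalarTower.algebraMap_apply k[X] O L] at hz
    rw [hz]
    exact (IsIntegralClosure.isIntegral_iff (R := k[X]) (A := O)).2 ⟨z, rfl⟩
  obtain ⟨𝔓, h1, h2, h3⟩ := Ideal.exists_ideal_over_prime_of_isIntegral (Ideal.span {P}) J hJ
  have h4 : algebraMap k[X] O P ∈ 𝔓 := by
    have : P ∈ 𝔓.comap (algebraMap k[X] O) := by
      rw [h3]
      exact Ideal.mem_span_singleton_self P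
    exact this
  have h5 : 𝔓 ≠ ⊥ := by
    intro h0
    rw [h0, Ideal.mem_bot, map_eq_zero_iff _ (inj_O k K L O)] at h4
    exact hP.ne_zero h4
  let w : HeightOneSpectrum O := ⟨𝔓, h2, h5⟩
  obtain ⟨n, d, hd⟩ := w.exists_primeCompl_mul_eq_of_integer x (hx w h4)
  have h6 : (d : O) ∈ J := ⟨n, by rw [mul_comm]; exact hd⟩
  exact d.2 (h1 h6)

theorem norm_inv' {K L : Type} [Field K] [Field L] [Algebra K L] {x : L} (hx : x ≠ 0) :
    Algebra.norm K x⁻¹ = (Algebra.norm K x)⁻¹ := by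
  apply eq_inv_of_mul_eq_one_left
  rw [← map_mul, inv_mul_cancel₀ hx, map_one]

theorem norm_div' {K L : Type} [Field K] [Field L] [Algebra K L] (x : L) {y : L} (hy : y ≠ 0) :
    Algebra.norm K (x / y) = Algebra.norm K x / Algebra.norm K y := by
  rw [div_eq_mul_inv, map_mul, norm_inv' hy, div_eq_mul_inv]

theorem val_unit {P : k[X]} {v : HeightOneSpectrum k[X]} (hv : v.asIdeal = Ideal.span {P})
    {s : k[X]} (hs : ¬ P ∣ s) : v.valuation K (algebraMap k[X] K s) = 1 := by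
  rw [v.valuation_eq_one_iff_notMem, hv, Ideal.mem_span_singleton]
  exact hs

include O in
theorem val_norm_le (hG : IsGen g K f θ) {P : k[X]} (hP : Irreducible P)
    {v : HeightOneSpectrum k[X]} (hv : v.asIdeal = Ideal.span {P}) (x : L)
    (hx : ∀ 𝔓 : HeightOneSpectrum O, Ov P 𝔓 → 𝔓.valuation L x ≤ 1) :
    v.valuation K (Algebra.norm K x) ≤ 1 := by
  obtain ⟨s, hs, hint⟩ := exists_den O K hP x hx
  have hfd : FiniteDimensional K L := Pool.Agent.N262.PJ.fin_dim hG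
  have h1 : IsIntegral k[X] (Algebra.norm K (algebraMap k[X] L s * x)) :=
    Algebra.isIntegral_norm K hint
  obtain ⟨n, hn⟩ := IsIntegrallyClosed.isIntegral_iff.1 h1
  have h2 : Algebra.norm K (algebraMap k[X] L s * x) =
      (algebraMap k[X] K s) ^ (2 * g + 1) * Algebra.norm K x := by
    rw [map_mul, IsScalarTower.algebraMap_apply k[X] K L, Algebra.norm_algebraMap, hG.rank]
  have h4 : v.valuation K (Algebra.norm K x) = v.valuation K (algebraMap k[X] K n) := by
    rw [hn, h2, map_mul, map_pow, val_unit hv hs, one_pow, one_mul]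
  rw [h4]
  exact v.valuation_le_one n

include O in
theorem val_norm_eq (hG : IsGen g K f θ) {P : k[X]} (hP : Irreducible P)
    {v : HeightOneSpectrum k[X]} (hv : v.asIdeal = Ideal.span {P}) (x : L)
    (hx : ∀ 𝔓 : HeightOneSpectrum O, Ov P 𝔓 → 𝔓.valuation L x = 1) (hx0 : x ≠ 0) :
    v.valuation K (Algebra.norm K x) = 1 := by
  have hfd : FiniteDimensional K L := Pool.Agent.N262.PJ.fin_dim hG
  have h1 := val_norm_le O hG hP hv x (fun 𝔓 h => (hx 𝔓 h).le)
  have h2 := val_norm_le O hG hP hv x⁻¹ (fun 𝔓 h => by rw [map_inv₀, hx 𝔓 h, inv_one])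
  have h3 : Algebra.norm K x⁻¹ = (Algebra.norm K x)⁻¹ := norm_inv' hx0
  have h0 : Algebra.norm K x ≠ 0 := Algebra.norm_ne_zero_iff.2 hx0
  rw [h3, map_inv₀] at h2
  have h4 : v.valuation K (Algebra.norm K x) ≠ 0 := (Valuation.ne_zero_iff _).2 h0
  exact le_antisymm h1 ((inv_le_one₀ (zero_lt_iff.2 h4)).1 h2)

theorem top_crd (hG : IsGen g K f θ) {w : Fin (2 * g + 1) → k[X]} {x : L} (h : Crd g θ w x) :
    hG.top x = algebraMap k[X] K (w (Fin.last (2 * g))) := by
  rw [h, map_sum, Finset.sum_eq_single (Fin.last (2 * g))]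
  · have e : algebraMap k[X] L (w (Fin.last (2 * g))) * θ ^ ((Fin.last (2 * g) : Fin _) : ℕ) =
        (algebraMap k[X] K (w (Fin.last (2 * g)))) • hG.basis (Fin.last (2 * g)) := by
      rw [Algebra.smul_def, hG.basis_apply, IsScalarTower.algebraMap_apply k[X] K L]
    rw [e, map_smul, IsGen.top, Module.Basis.coord_apply, Module.Basis.repr_self,
      Finsupp.single_eq_same, smul_eq_mul, mul_one]
  · intro i _ hi
    have e : algebraMap k[X] L (w i) * θ ^ (i : ℕ) =
        (algebraMap k[X] K (w i)) • hG.basis i := by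
      rw [Algebra.smul_def, hG.basis_apply, IsScalarTower.algebraMap_apply k[X] K L]
    rw [e, map_smul, IsGen.top, Module.Basis.coord_apply, Module.Basis.repr_self,
      Finsupp.single_eq_of_ne (Ne.symm hi), smul_zero]
  · intro h; exact absurd (Finset.mem_univ _) h

include O in
theorem int_top (hI : A_INT) (hG : IsGen g K f θ) {P : k[X]} (hP : Irreducible P)
    (hgd : Gd g f P) {v : HeightOneSpectrum k[X]} (hv : v.asIdeal = Ideal.span {P}) (x : L)
    (hx : ∀ 𝔓 : HeightOneSpectrum O, Ov P 𝔓 → 𝔓.valuation L x ≤ 1) :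
    v.valuation K (hG.top x) ≤ 1 := by
  obtain ⟨s, hs, hint⟩ := exists_den O K hP x hx
  obtain ⟨s', w, hs', hw⟩ := hI g k K L f θ hG P hP hgd _ hint
  have h1 := top_crd hG hw
  have h2 : algebraMap k[X] L s' * (algebraMap k[X] L s * x) =
      (algebraMap k[X] K s' * algebraMap k[X] K s) • x := by
    rw [Algebra.smul_def, map_mul, ← IsScalarTower.algebraMap_apply,
      ← IsScalarTower.algebraMap_apply, mul_assoc]
  rw [h2, map_smul, smul_eq_mul] at h1
  have h3 := congrArg (v.valuation K) h1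
  rw [map_mul, map_mul, val_unit hv hs, val_unit hv hs', one_mul, one_mul] at h3
  rw [h3]
  exact v.valuation_le_one _

theorem det_gram (hG : IsGen g K f θ) (α β : L) (hα : α ≠ 0) :
    (Matrix.of fun i j : Fin (2 * g + 1) =>
      hG.top ((β * θ ^ (i : ℕ)) * (β * θ ^ (j : ℕ)) / α) : Mt g K).det =
    (-1) ^ g * Algebra.norm K β ^ 2 / Algebra.norm K α := by
  have h1 := Pool.Agent.N262.PJ.det g k K L f θ hG α (Algebra.leftMulMatrix hG.basis β)ᵀ hα
  rw [Matrix.det_transpose, ← Algebra.norm_eq_matrix_det] at h1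
  rw [← h1]
  have e : ∀ i : Fin (2 * g + 1), β * θ ^ (i : ℕ) =
      ∑ a, algebraMap K L ((Algebra.leftMulMatrix hG.basis β)ᵀ i a) * θ ^ (a : ℕ) := by
    intro i
    have h2 := hG.basis.sum_repr (β * hG.basis i)
    rw [hG.basis_apply] at h2
    rw [← h2]
    refine Finset.sum_congr rfl fun a _ => ?_
    rw [Matrix.transpose_apply, Algebra.leftMulMatrix_eq_repr_mul, hG.basis_apply,
      hG.basis_apply, Algebra.smul_def]
  congr 1
  ext i j
  rw [Matrix.of_apply, Matrix.of_apply, ← e i, ← e j]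

theorem norm_lin (hG : IsGen g K f θ) (c : k[X]) :
    Algebra.norm K (algebraMap k[X] L c - θ) = algebraMap k[X] K (f.eval c) := by
  have h1 := Pool.Agent.N262.PJ.charpoly_mulMatrix hG hG.basis
  have h2 := congrArg (Polynomial.eval (algebraMap k[X] K c)) h1
  rw [Matrix.eval_charpoly] at h2
  have h3 : (f.map (algebraMap k[X] K)).eval (algebraMap k[X] K c) =
      algebraMap k[X] K (f.eval c) := Polynomial.eval_map_apply (algebraMap k[X] K) c
  rw [h3] at h2
  rw [← h2, Algebra.norm_eq_matrix_det hG.basis, map_sub]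
  congr 2
  rw [IsScalarTower.algebraMap_apply k[X] K L, AlgHom.commutes]
  rfl

include K in
theorem theta_le (hG : IsGen g K f θ) (𝔓 : HeightOneSpectrum O) : 𝔓.valuation L θ ≤ 1 := by
  have h1 : IsIntegral k[X] θ := ⟨f, hG.mon, hG.root⟩
  obtain ⟨t, ht⟩ := (IsIntegralClosure.isIntegral_iff (R := k[X]) (A := O)).mp h1
  rw [← ht]
  exact 𝔓.valuation_le_one t

include K in
/-- approximation -/
theorem exists_beta {P : k[X]} (hP : Irreducible P) (z : HeightOneSpectrum O → L)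
    (hz : ∀ 𝔓 : HeightOneSpectrum O, Ov P 𝔓 → z 𝔓 ≠ 0) :
    ∃ β : L, β ≠ 0 ∧ ∀ 𝔓 : HeightOneSpectrum O, Ov P 𝔓 →
      𝔓.valuation L β = 𝔓.valuation L (z 𝔓) := by
  have hne : algebraMap k[X] O P ≠ 0 := by
    rw [Ne, map_eq_zero_iff _ (inj_O k K L O)]
    exact hP.ne_zero
  have hfin := Pool.Agent.N644.PQ.HunC.finite_over (algebraMap k[X] O P) hne
  obtain ⟨β, hβ0, hβ⟩ := Pool.Agent.N644.PQ.HunC.approx (L := L) hfin.toFinset z
    (fun 𝔓 h => hz 𝔓 (hfin.mem_toFinset.1 h))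
  exact ⟨β, hβ0, fun 𝔓 h => hβ 𝔓 (hfin.mem_toFinset.2 h)⟩

theorem val_neg_one_pow {R F : Type} [CommRing R] [IsDedekindDomain R] [Field F] [Algebra R F]
    [IsFractionRing R F] (v : HeightOneSpectrum R) (n : ℕ) :
    v.valuation F ((-1) ^ n) = 1 := by
  rw [map_pow, Valuation.map_neg, map_one, one_pow]

include O in
/-- the first part -/
theorem part1 (hI : A_INT) (hG : IsGen g K f θ) (α : L) (hα : α ≠ 0) {P : k[X]}
    (hP : Irreducible P) (hgd : Gd g f P) {v : HeightOneSpectrum k[X]}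
    (hv : v.asIdeal = Ideal.span {P})
    (hev : ∀ 𝔓 : HeightOneSpectrum O, Ov P 𝔓 → Ev 𝔓 α) : SDL hG v α := by
  have hfd : FiniteDimensional K L := Pool.Agent.N262.PJ.fin_dim hG
  have h1 : ∀ 𝔓 : HeightOneSpectrum O, ∃ y : L, Ov P 𝔓 →
      𝔓.valuation L α = 𝔓.valuation L y ^ 2 := by
    intro 𝔓
    by_cases h : Ov P 𝔓
    · obtain ⟨y, hy⟩ := hev 𝔓 h
      exact ⟨y, fun _ => hy⟩
    · exact ⟨0, fun h' => absurd h' h⟩
  choose z hz using h1
  obtain ⟨β, hβ0, hβ⟩ := exists_beta (K := K) O hP z (fun 𝔓 h h0 => by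
    have h2 := hz 𝔓 h
    rw [h0, map_zero, zero_pow two_ne_zero] at h2
    exact (Valuation.ne_zero_iff _).2 hα h2)
  have hx : ∀ 𝔓 : HeightOneSpectrum O, Ov P 𝔓 → 𝔓.valuation L (β ^ 2 / α) = 1 := by
    intro 𝔓 h
    rw [map_div₀, map_pow, hβ 𝔓 h, ← hz 𝔓 h]
    exact div_self ((Valuation.ne_zero_iff _).2 hα)
  refine ⟨fun i => β * θ ^ (i : ℕ), fun i j => ?_, ?_⟩
  · refine int_top O hI hG hP hgd hv _ fun 𝔓 h => ?_
    have e : β * θ ^ (i : ℕ) * (β * θ ^ (j : ℕ)) / α =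
        (β ^ 2 / α) * θ ^ ((i : ℕ) + j) := by
      rw [pow_add]; ring
    rw [e, map_mul, hx 𝔓 h, one_mul, map_pow]
    exact pow_le_one' (theta_le (K := K) O hG 𝔓) _
  · rw [det_gram hG α β hα]
    have e : (-1) ^ g * Algebra.norm K β ^ 2 / Algebra.norm K α =
        (-1) ^ g * Algebra.norm K (β ^ 2 / α) := by
      rw [norm_div' _ hα, map_pow, mul_div_assoc]
    rw [e, map_mul, val_neg_one_pow, one_mul]
    exact val_norm_eq O hG hP hv _ hx (div_ne_zero (pow_ne_zero 2 hβ0) hα)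

/-- a value with exactly one factor `Q` -/
theorem exists_c {g : ℕ} (hg : 1 ≤ g) {f h : k[X][X]} {Q : k[X]} (hQ : Irreducible Q)
    (hmon : h.Monic) (hdeg : h.natDegree = 2 * g)
    (hirr : Irreducible (h.map (Ideal.Quotient.mk (Ideal.span {Q})))) (hcg : Cg Q f (X * h)) :
    ∃ c : k[X], Q ∣ f.eval (Q * c) ∧ ¬ Q ^ 2 ∣ f.eval (Q * c) := by
  have h0 : Q ∣ f.coeff 0 := by
    have := hcg 0
    rwa [mul_coeff_zero, coeff_X_zero, zero_mul, sub_zero] at this
  have h1 : ¬ Q ∣ f.coeff 1 := by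
    intro h1
    have h2 := hcg 1
    rw [coeff_X_mul] at h2
    have h3 : Q ∣ h.coeff 0 := by
      have := dvd_sub h1 h2
      rwa [sub_sub_cancel] at this
    haveI hmax : (Ideal.span {Q} : Ideal k[X]).IsMaximal :=
      PrincipalIdealRing.isMaximal_of_irreducible hQ
    have h4 : (h.map (Ideal.Quotient.mk (Ideal.span {Q}))).coeff 0 = 0 := by
      rw [coeff_map, Ideal.Quotient.eq_zero_iff_mem, Ideal.mem_span_singleton]
      exact h3
    rw [← X_dvd_iff] at h4
    obtain ⟨q, hq⟩ := h4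
    have h5 : (h.map (Ideal.Quotient.mk (Ideal.span {Q}))).natDegree = 2 * g := by
      rw [hmon.natDegree_map, hdeg]
    rcases hirr.isUnit_or_isUnit hq with h6 | h6
    · exact Polynomial.not_isUnit_X h6
    · have h7 := Polynomial.natDegree_eq_zero_of_isUnit h6
      rw [hq, natDegree_mul X_ne_zero h6.ne_zero, h7, natDegree_X] at h5
      omega
  have e1 : f.eval Q = ((f.divX.divX.eval Q) * Q + f.coeff 1) * Q + f.coeff 0 := by
    conv_lhs => rw [← divX_mul_X_add f, ← divX_mul_X_add f.divX]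
    simp only [eval_add, eval_mul, eval_X, eval_C, coeff_divX, zero_add]
  have e0 : f.eval 0 = f.coeff 0 := (coeff_zero_eq_eval_zero f).symm
  by_cases h2 : Q ^ 2 ∣ f.coeff 0
  · refine ⟨1, ?_, ?_⟩
    · rw [mul_one, e1]
      exact dvd_add (dvd_mul_left _ _) h0
    · rw [mul_one, e1]
      intro h3
      have h4 := (dvd_sub h3 h2)
      rw [add_sub_cancel_right] at h4
      have h5 : Q ∣ (f.divX.divX.eval Q) * Q + f.coeff 1 := by
        rw [pow_two] at h4
        exact (mul_dvd_mul_iff_right hQ.ne_zero).1 h4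
      exact h1 ((dvd_add_right (dvd_mul_left _ _)).1 h5)
  · refine ⟨0, ?_, ?_⟩
    · rw [mul_zero, e0]; exact h0
    · rw [mul_zero, e0]; exact h2

theorem exp_pow_nat (a : ℤ) (n : ℕ) : (exp a : ℤᵐ⁰) ^ n = exp ((n : ℤ) * a) := by
  rw [← WithZero.exp_nsmul, nsmul_eq_mul]

end bas

end Sdg

theorem sdg (hI : A_INT) (hE : A_EXQ) (hC : A_CSQ) (hPQ : A_PARQ) : B_SDG := by
  intro g k K L O _ _ _ _ _ _ _ _ _ _ _ _ _ _ _ _ f θ hG α hg hα hsq
  refine ⟨fun P v hP hv hgd hev => Sdg.part1 O hI hG α hα hP hgd hv hev, ?_⟩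
  intro S h hS Q hQS hcg v hv 𝔮 hov h𝔮θ hodd
  have hfd : FiniteDimensional K L := Pool.Agent.N262.PJ.fin_dim hG
  obtain ⟨hQm, hQ, hhm, hhd, hhi⟩ := hS Q hQS
  obtain ⟨𝔓₁, 𝔮', o1, o2, t1, t2, q1, q2, hall⟩ := hE g k K L O f θ S h hg hG hS Q hQS hcg
  obtain ⟨-, hnd, -⟩ := hC g k K L O f θ S h hg hG hS Q hQS hcg
  have hgd : Gd g f Q := fun h2 => hnd ((dvd_pow_self Q two_ne_zero).trans h2)
  have hqq : 𝔮' = 𝔮 := by
    rcases hall 𝔮 hov with h1 | h1
    · rw [h1] at h𝔮θ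
      exact absurd h𝔮θ t1.ne
    · exact h1.symm
  subst hqq
  have hne1 : 𝔓₁ ≠ 𝔮' := by
    rintro rfl
    exact absurd t2 t1.ne
  -- the valuations of α
  have hev1 : Ev 𝔓₁ α := hPQ g k K L O f θ S h hg hG hS Q hQS hcg α hα hsq 𝔓₁ o1 t1
  obtain ⟨y1, hy1⟩ := hev1
  have hα' : 𝔮'.valuation L α ≠ 0 := (Valuation.ne_zero_iff _).2 hα
  obtain ⟨n, hn⟩ : ∃ n : ℤ, 𝔮'.valuation L α = exp n := ⟨log _, (exp_log hα').symm⟩
  have hnodd : Odd n := by
    by_contra hno
    rw [Int.not_odd_iff_even] at hno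
    obtain ⟨m, hm⟩ := hno
    apply hodd
    obtain ⟨y, hy⟩ := HeightOneSpectrum.valuation_surjective L 𝔮' (exp m)
    exact ⟨y, by rw [hy, hn, hm, Sdg.exp_pow_nat]; congr 1; push_cast; ring⟩
  obtain ⟨m, hm⟩ := hnodd
  obtain ⟨y2, hy2⟩ := HeightOneSpectrum.valuation_surjective L 𝔮' (exp (m + 1))
  have hy20 : y2 ≠ 0 := by
    rintro rfl
    rw [map_zero] at hy2
    exact exp_ne_zero hy2.symm
  have hy10 : y1 ≠ 0 := by
    rintro rfl
    rw [map_zero, zero_pow two_ne_zero] at hy1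
    exact (Valuation.ne_zero_iff _).2 hα hy1
  obtain ⟨β, hβ0, hβ⟩ := Sdg.exists_beta (K := K) O hQ
    (fun 𝔓 => if 𝔓 = 𝔮' then y2 else y1) (fun 𝔓 _ => by
      show (if 𝔓 = 𝔮' then y2 else y1) ≠ 0
      split_ifs
      · exact hy20
      · exact hy10)
  have hβq : 𝔮'.valuation L β ^ 2 = 𝔮'.valuation L α * exp (1 : ℤ) := by
    rw [hβ 𝔮' o2, if_pos rfl, hy2, Sdg.exp_pow_nat, hn, ← exp_add, hm]
    congr 1
    push_cast
    ring
  have hβ1 : 𝔓₁.valuation L β ^ 2 = 𝔓₁.valuation L α := by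
    rw [hβ 𝔓₁ o1, if_neg hne1, hy1]
  have hα1 : 𝔓₁.valuation L α ≠ 0 := (Valuation.ne_zero_iff _).2 hα
  have hxq : 𝔮'.valuation L (β ^ 2 / α) = exp (1 : ℤ) := by
    rw [map_div₀, map_pow, hβq]
    field_simp
  have hx1 : 𝔓₁.valuation L (β ^ 2 / α) = 1 := by
    rw [map_div₀, map_pow, hβ1, div_self hα1]
  have hx0 : β ^ 2 / α ≠ 0 := div_ne_zero (pow_ne_zero 2 hβ0) hα
  refine ⟨fun i => β * θ ^ (i : ℕ), ?_, ?_, ?_, ?_⟩
  · -- linear independence
    have h1 := hG.basis.linearIndependent.map' (LinearMap.mulLeft K β)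
      (LinearMap.ker_eq_bot.2 (fun a b hab => mul_left_cancel₀ hβ0 hab))
    refine (linearIndependent_equiv' (Equiv.refl _) ?_).1 h1
    funext i
    simp only [Equiv.refl_apply, Function.comp_apply, LinearMap.mulLeft_apply, hG.basis_apply,
      Equiv.coe_refl, id]
  · intro i j
    refine Sdg.int_top O hI hG hQ hgd hv _ fun 𝔓 h1 => ?_
    have e : algebraMap k[X] L Q * (β * θ ^ (i : ℕ) * (β * θ ^ (j : ℕ))) / α =
        (algebraMap k[X] L Q * (β ^ 2 / α)) * θ ^ ((i : ℕ) + j) := by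
      rw [pow_add]; ring
    rw [e, map_mul, map_pow]
    refine mul_le_one' ?_ (pow_le_one' (Sdg.theta_le (K := K) O hG 𝔓) _)
    rcases hall 𝔓 h1 with rfl | rfl
    · rw [map_mul, q1, hx1, mul_one, ← exp_zero, exp_le_exp]
      norm_num
    · rw [map_mul, q2, hxq, ← exp_add]
      norm_num
  · rw [Sdg.det_gram hG α β hα]
    have e : (-1) ^ g * Algebra.norm K β ^ 2 / Algebra.norm K α =
        (-1) ^ g * Algebra.norm K (β ^ 2 / α) := by
      rw [Sdg.norm_div' _ hα, map_pow, mul_div_assoc]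
    rw [e, map_mul, Sdg.val_neg_one_pow, one_mul]
    -- the valuation of the norm
    obtain ⟨c, hc1, hc2⟩ := Sdg.exists_c hg hQ hhm hhd hhi hcg
    obtain ⟨u, hu⟩ := hc1
    have hQv : v.valuation K (algebraMap k[X] K Q) = exp (-1 : ℤ) := by
      rw [v.valuation_of_algebraMap, v.intValuation_singleton hQ.ne_zero hv]
    have hqv : v.valuation K (algebraMap k[X] K (f.eval (Q * c))) = exp (-1 : ℤ) := by
      rw [hu, map_mul, map_mul, hQv, Sdg.val_unit hv, mul_one]
      rintro ⟨w, hw⟩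
      exact hc2 ⟨w, by rw [hu, hw]; ring⟩
    set y : L := algebraMap k[X] L (Q * c) - θ with hy
    have hNy : v.valuation K (Algebra.norm K y) = exp (-1 : ℤ) := by
      rw [hy, Sdg.norm_lin hG, hqv]
    have hy0 : y ≠ 0 := by
      intro h0
      rw [h0, Algebra.norm_zero, map_zero] at hNy
      exact exp_ne_zero hNy.symm
    have hQc : ∀ 𝔓 : HeightOneSpectrum O, 𝔓.valuation L (algebraMap k[X] L Q) = exp (-1 : ℤ) →
        𝔓.valuation L (algebraMap k[X] L (Q * c)) < 1 := by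
      intro 𝔓 h1
      have h2 : 𝔓.valuation L (algebraMap k[X] L c) ≤ 1 := by
        rw [IsScalarTower.algebraMap_apply k[X] O L]
        exact 𝔓.valuation_le_one _
      rw [map_mul, map_mul, h1]
      refine lt_of_le_of_lt (mul_le_mul_right h2 _) ?_
      rw [mul_one, ← exp_zero, exp_lt_exp]
      norm_num
    have hyq : 𝔮'.valuation L y = 1 := by
      have h3 : 𝔮'.valuation L (algebraMap k[X] L (Q * c)) < 𝔮'.valuation L θ := by
        rw [t2]; exact hQc 𝔮' q2
      rw [hy, Valuation.map_sub_eq_of_lt_right _ h3, t2]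
    have hy1' : 𝔓₁.valuation L y < 1 := by
      rw [hy]
      exact Valuation.map_sub_lt _ (hQc 𝔓₁ q1) t1
    have hyne : 𝔓₁.valuation L y ≠ 0 := (Valuation.ne_zero_iff _).2 hy0
    obtain ⟨b, hb⟩ : ∃ b : ℤ, 𝔓₁.valuation L y = exp b := ⟨log _, (exp_log hyne).symm⟩
    have hb0 : b < 0 := by
      rw [hb, ← exp_zero, exp_lt_exp] at hy1'
      exact hy1'
    obtain ⟨a, ha⟩ : ∃ a : ℕ, b = -(a : ℤ) := ⟨b.natAbs, by omega⟩
    have hQ0 : algebraMap k[X] L Q ≠ 0 := by
      rw [Ne, map_eq_zero_iff _ (Sdg.inj_L k K L)]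
      exact hQ.ne_zero
    have hw0 : (β ^ 2 / α) ^ a * algebraMap k[X] L Q ^ a / y ≠ 0 :=
      div_ne_zero (mul_ne_zero (pow_ne_zero _ hx0) (pow_ne_zero _ hQ0)) hy0
    have hw := Sdg.val_norm_eq O hG hQ hv ((β ^ 2 / α) ^ a * algebraMap k[X] L Q ^ a / y)
      (fun 𝔓 h1 => by
        rcases hall 𝔓 h1 with rfl | rfl
        · rw [map_div₀, map_mul, map_pow, map_pow, hx1, q1, hb, ha, one_pow, one_mul,
            Sdg.exp_pow_nat, ← exp_sub]
          rw [show (a : ℤ) * -1 - -(a : ℤ) = 0 by ring, exp_zero]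
        · rw [map_div₀, map_mul, map_pow, map_pow, hxq, q2, hyq, div_one, Sdg.exp_pow_nat,
            Sdg.exp_pow_nat, ← exp_add]
          rw [show (a : ℤ) * 1 + (a : ℤ) * -1 = 0 by ring, exp_zero]) hw0
    have hNx0 : Algebra.norm K (β ^ 2 / α) ≠ 0 := Algebra.norm_ne_zero_iff.2 hx0
    have hNx : v.valuation K (Algebra.norm K (β ^ 2 / α)) ≠ 0 :=
      (Valuation.ne_zero_iff _).2 hNx0
    obtain ⟨r, hr⟩ : ∃ r : ℤ, v.valuation K (Algebra.norm K (β ^ 2 / α)) = exp r :=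
      ⟨log _, (exp_log hNx).symm⟩
    have hNQ : Algebra.norm K (algebraMap k[X] L Q) = (algebraMap k[X] K Q) ^ (2 * g + 1) := by
      rw [IsScalarTower.algebraMap_apply k[X] K L, Algebra.norm_algebraMap, hG.rank]
    rw [Sdg.norm_div' _ hy0, map_mul, map_pow, map_pow, hNQ, map_div₀, map_mul, map_pow, map_pow,
      map_pow, hr, hQv, hNy, Sdg.exp_pow_nat, Sdg.exp_pow_nat, Sdg.exp_pow_nat, ← exp_add, ← exp_sub,
      ← exp_zero, exp_inj] at hw
    rw [hr]
    congr 1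
    have h1 : (a : ℤ) * ((2 * g + 1 : ℕ) - r) = 1 := by
      push_cast at hw ⊢
      linarith
    have h2 : ((2 * g + 1 : ℕ) : ℤ) - r = 1 := by
      rcases Int.eq_one_or_neg_one_of_mul_eq_one' h1 with ⟨h3, h4⟩ | ⟨h3, h4⟩
      · exact h4
      · omega
    push_cast at h2 ⊢
    linarith
  · intro i 𝔓 h1
    have h2 : 𝔓.valuation L (β * θ ^ (i : ℕ)) ^ 2 ≤ 𝔓.valuation L β ^ 2 := by
      rw [map_mul, map_pow, mul_pow]
      refine mul_le_of_le_one_right' (pow_le_one' (pow_le_one' (Sdg.theta_le (K := K) O hG 𝔓) _) _)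
    refine h2.trans (le_of_eq ?_)
    rcases hall 𝔓 h1 with rfl | rfl
    · rw [if_neg hne1, mul_one, hβ1]
    · rw [if_pos rfl, hβq]

end Pool.Agent.Helper28H.FE
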