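import Pool.Agent.Helper28H.FE.Stm
import Pool.Agent.N765.PJ.Exq
import Pool.Agent.N769.PJ.Int

/-!
# Project FE, piece E-SEL: finitely many primes which detect the squares (function field version of
`H30T/Select2.lean`)

By helper86.
-/

set_option autoImplicit false
set_option linter.all false

open Polynomial IsDedekindDomain WithZero
open scoped Classical

namespace Pool.Agent.Helper28H.FE.Sel

open Pool.Agent.N352.PJ (Mt IsGen dsc Cg Crd res)
open Pool.Agent.N874.PP (Ov Ev Sq1 U0)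
open Pool.Agent.N765.PJ (rd ev theta_ex ev_f ev_ker map_eq_of_cg field_adj)

variable {k K L O : Type} [Field k] [Field K] [Algebra k[X] K] [IsFractionRing k[X] K]
  [Field L] [Algebra K L] [Algebra k[X] L] [IsScalarTower k[X] K L] [CommRing O]
  [IsDedekindDomain O] [Algebra O L] [IsFractionRing O L] [Algebra k[X] O]
  [IsScalarTower k[X] O L] [IsIntegralClosure O k[X] L] {g : ℕ} {f : k[X][X]} {θ : L}

/-- The prime over `Q` which corresponds to the factor `h` of `f`. -/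
theorem exists_prime (hg : 1 ≤ g) (hG : IsGen g K f θ) {Q e : k[X]} {h : k[X][X]}
    (hQ : Irreducible Q) (hh : h.Monic) (hdeg : h.natDegree = 2 * g)
    (hirr : Irreducible (h.map (Ideal.Quotient.mk (Ideal.span {Q}))))
    (hcg : Cg Q f ((X - C e) * h)) :
    ∃ 𝔓 : HeightOneSpectrum O, Ov Q 𝔓 ∧ 𝔓.valuation L (θ - algebraMap k[X] L e) = 1 := by
  obtain ⟨t, ht⟩ := theta_ex (k := k) (K := K) O hG
  have hfac : f.map (rd Q) = ((X - C e) * h).map (rd Q) := map_eq_of_cg hcg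
  have hmax : (Ideal.span {Q} : Ideal k[X]).IsMaximal :=
    PrincipalIdealRing.isMaximal_of_irreducible hQ
  let i1 : Field (k[X] ⧸ Ideal.span {Q}) := Ideal.Quotient.field _
  have i2 : Fact (Irreducible (h.map (rd Q))) := ⟨hirr⟩
  let m := h.map (rd Q)
  have hdm : m.natDegree = 2 * g := by
    show (h.map (rd Q)).natDegree = 2 * g
    rw [hh.natDegree_map, hdeg]
  have hdom : IsDomain (AdjoinRoot m) := (field_adj hQ hirr).isDomain
  have hrf : eval₂ ((AdjoinRoot.of m).comp (rd Q)) (AdjoinRoot.root m) f = 0 := by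
    rw [← eval₂_map, hfac, Polynomial.map_mul, eval₂_mul]
    have : eval₂ (AdjoinRoot.of m) (AdjoinRoot.root m) (h.map (rd Q)) = 0 :=
      AdjoinRoot.eval₂_root m
    rw [this, mul_zero]
  let ψ₀ : AdjoinRoot f →+* AdjoinRoot m :=
    AdjoinRoot.lift ((AdjoinRoot.of m).comp (rd Q)) (AdjoinRoot.root m) hrf
  have ht0 : eval₂ (algebraMap k[X] O) t f = 0 := ev_f hG ht
  let i : AdjoinRoot f →+* O := AdjoinRoot.lift (algebraMap k[X] O) t ht0
  have hi : Function.Injective i := by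
    rw [injective_iff_map_eq_zero]
    intro x hx
    obtain ⟨P, rfl⟩ := AdjoinRoot.mk_surjective x
    have h1 : i (AdjoinRoot.mk f P) = ev t P := AdjoinRoot.lift_mk _ _
    rw [h1] at hx
    exact AdjoinRoot.mk_eq_zero.2 (ev_ker hG ht hx)
  let _ : Algebra (AdjoinRoot f) O := i.toAlgebra
  have htower : IsScalarTower k[X] (AdjoinRoot f) O := by
    refine IsScalarTower.of_algebraMap_eq fun p => ?_
    show algebraMap k[X] O p = i (AdjoinRoot.of f p)
    exact (AdjoinRoot.lift_of _).symm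
  have hint0 : Algebra.IsIntegral k[X] O := IsIntegralClosure.isIntegral_algebra k[X] L
  have hint : Algebra.IsIntegral (AdjoinRoot f) O := Algebra.IsIntegral.tower_top (R := k[X])
  have hP0 : (RingHom.ker ψ₀).IsPrime := RingHom.ker_isPrime ψ₀
  obtain ⟨I, -, hI, hIP⟩ := Ideal.exists_ideal_over_prime_of_isIntegral (RingHom.ker ψ₀)
    (⊥ : Ideal O) (by
      intro x hx
      rw [Ideal.mem_comap, Ideal.mem_bot] at hx
      have : x = 0 := hi (by rw [map_zero]; exact hx)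
      rw [this]
      exact Ideal.zero_mem _)
  have hQI : algebraMap k[X] O Q ∈ I := by
    have h1 : AdjoinRoot.of f Q ∈ Ideal.comap (algebraMap (AdjoinRoot f) O) I := by
      rw [hIP, RingHom.mem_ker]
      have h2 : ψ₀ (AdjoinRoot.of f Q) = AdjoinRoot.of m (rd Q Q) := AdjoinRoot.lift_of _
      have h3 : rd Q Q = 0 := Ideal.Quotient.eq_zero_iff_mem.2 (Ideal.mem_span_singleton_self Q)
      rw [h2, h3, map_zero]
    rw [Ideal.mem_comap] at h1
    have h2 : algebraMap (AdjoinRoot f) O (AdjoinRoot.of f Q) = algebraMap k[X] O Q :=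
      AdjoinRoot.lift_of _
    rwa [h2] at h1
  have hI0 : I ≠ ⊥ := by
    intro h0
    rw [h0, Ideal.mem_bot] at hQI
    exact hQ.ne_zero (Pool.Agent.N765.PJ.injO K L O (by rw [hQI, map_zero]))
  refine ⟨⟨I, hI, hI0⟩, hQI, ?_⟩
  have h1 : θ - algebraMap k[X] L e = algebraMap O L (t - algebraMap k[X] O e) := by
    rw [map_sub, ht, ← IsScalarTower.algebraMap_apply k[X] O L]
  rw [h1, HeightOneSpectrum.valuation_eq_one_iff_notMem]
  intro h2
  have h3 : AdjoinRoot.mk f (X - C e) ∈ Ideal.comap (algebraMap (AdjoinRoot f) O) I := by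
    rw [Ideal.mem_comap]
    have h4 : algebraMap (AdjoinRoot f) O (AdjoinRoot.mk f (X - C e)) = t - algebraMap k[X] O e := by
      have : algebraMap (AdjoinRoot f) O (AdjoinRoot.mk f (X - C e)) =
        eval₂ (algebraMap k[X] O) t (X - C e) := AdjoinRoot.lift_mk _ _
      rw [this, eval₂_sub, eval₂_X, eval₂_C]
    rw [h4]
    exact h2
  rw [hIP, RingHom.mem_ker] at h3
  have h4 : ψ₀ (AdjoinRoot.mk f (X - C e)) = AdjoinRoot.mk m (X - C (rd Q e)) := by
    have : ψ₀ (AdjoinRoot.mk f (X - C e)) =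
      eval₂ ((AdjoinRoot.of m).comp (rd Q)) (AdjoinRoot.root m) (X - C e) := AdjoinRoot.lift_mk _ _
    rw [this, eval₂_sub, eval₂_X, eval₂_C, map_sub, AdjoinRoot.mk_X, AdjoinRoot.mk_C]
    rfl
  rw [h4, AdjoinRoot.mk_eq_zero] at h3
  have h6 := natDegree_le_of_dvd h3 (X_sub_C_ne_zero _)
  rw [natDegree_X_sub_C, hdm] at h6
  omega

/-- squares at a prime -/
theorem sq1_of_mul (𝔓 : HeightOneSpectrum O) (r s : L)
    (hs : s ≠ 0) (h : Sq1 𝔓 (r * s ^ 2)) : Sq1 𝔓 r := by
  obtain ⟨u, hu⟩ := h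
  refine ⟨u / s, ?_⟩
  have h1 : r - (u / s) ^ 2 = (r * s ^ 2 - u ^ 2) * (s ^ 2)⁻¹ := by
    field_simp
  have h2 : r = (r * s ^ 2) * (s ^ 2)⁻¹ := by
    field_simp
  rw [h1, map_mul]
  nth_rewrite 2 [h2]
  rw [map_mul]
  refine (mul_lt_mul_iff_left₀ ?_).2 hu
  rw [zero_lt_iff, Valuation.ne_zero_iff]
  exact inv_ne_zero (pow_ne_zero _ hs)

end Pool.Agent.Helper28H.FE.Sel

namespace Pool.Agent.Helper28H.FE

open Pool.Agent.N352.PJ (Mt IsGen dsc Cg Crd res)
open Pool.Agent.N874.PP (Ov Ev Sq1 U0)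

/-- **SEL.** -/
theorem e_sel : E_SEL := by
  intro hF hC g k K L E O _ _ _ _ _ _ _ _ _ _ _ _ _ _ _ _ _ _ _ _ _ _ f P₀ θ hyp hG hunr B
  have hdisc : dsc g f ≠ 0 := by
    intro h
    apply hyp.ndvd
    rw [h]
    exact dvd_zero _
  have hfd : FiniteDimensional K L := Module.Finite.of_basis hG.basis
  have hsep : Algebra.IsSeparable K L := Pool.Agent.N769.PJ.isSep hG hdisc
  have hfin : {𝔓 : HeightOneSpectrum O | Ov (dsc g f) 𝔓}.Finite := by
    have h1 := Ideal.finite_factors (I := Ideal.span {algebraMap k[X] O (dsc g f)}) (by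
      rw [Ne, Ideal.zero_eq_bot, Ideal.span_singleton_eq_bot]
      intro h0
      exact hdisc (Pool.Agent.N765.PJ.injO K L O (by rw [h0, map_zero])))
    refine h1.subset fun 𝔓 h𝔓 => ?_
    show 𝔓.asIdeal ∣ Ideal.span {algebraMap k[X] O (dsc g f)}
    rw [Ideal.dvd_span_singleton]
    exact h𝔓
  obtain ⟨R, hR0, hR⟩ := hF k K L O _ hfin
  -- the choice of the primes
  have key : ∀ R' : Finset L, (∀ r ∈ R', r ≠ 0 ∧ IsSquare (Algebra.norm K r) ∧ ¬ IsSquare r) →
      ∃ (S : Finset k[X]) (e : k[X] → k[X]) (h : k[X] → k[X][X]),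
      (∀ Q ∈ S, Q.Monic ∧ Irreducible Q ∧ B < Q.natDegree ∧ (h Q).Monic ∧
        (h Q).natDegree = 2 * g ∧ Irreducible ((h Q).map (Ideal.Quotient.mk (Ideal.span {Q}))) ∧
        Cg Q f ((X - C (e Q)) * h Q) ∧ SplitsIn E Q) ∧
      ∀ r ∈ R', ∃ Q ∈ S, ∀ 𝔓 : HeightOneSpectrum O, Ov Q 𝔓 →
        𝔓.valuation L (θ - algebraMap k[X] L (e Q)) = 1 → ¬ Sq1 𝔓 r := by
    intro R'
    induction R' using Finset.induction_on with
    | empty => exact fun _ => ⟨∅, fun _ => 0, fun _ => 0, by simp, by simp⟩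
    | insert r R' hr ih =>
      intro hR'
      obtain ⟨S, e, h, h1, h2⟩ := ih fun x hx => hR' x (Finset.mem_insert_of_mem hx)
      obtain ⟨hr1, hr2, hr3⟩ := hR' r (Finset.mem_insert_self _ _)
      obtain ⟨Q, e₀, h₀, c1, c2, c3, c4, c5, c6, c7, c9, c8⟩ := hC g k K L E O f P₀ θ hyp hG hunr
        r hr1 hr2 hr3 (max B (S.sup natDegree))
      have hqS : Q ∉ S := by
        intro hq
        have h3 : Q.natDegree ≤ S.sup natDegree := Finset.le_sup (f := natDegree) hq
        have h4 := lt_of_le_of_lt (le_max_right B (S.sup natDegree)) c3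
        omega
      refine ⟨insert Q S, Function.update e Q e₀, Function.update h Q h₀, ?_, ?_⟩
      · intro Q' hq'
        rcases Finset.mem_insert.1 hq' with rfl | hq''
        · rw [Function.update_self, Function.update_self]
          exact ⟨c1, c2, lt_of_le_of_lt (le_max_left _ _) c3, c4, c5, c6, c7, c9⟩
        · have hne : Q' ≠ Q := fun h => hqS (h ▸ hq'')
          rw [Function.update_of_ne hne, Function.update_of_ne hne]
          exact h1 Q' hq''
      · intro x hx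
        rcases Finset.mem_insert.1 hx with rfl | hx'
        · refine ⟨Q, Finset.mem_insert_self _ _, ?_⟩
          rw [Function.update_self]
          exact c8
        · obtain ⟨Q', hq', h3⟩ := h2 x hx'
          have hne : Q' ≠ Q := fun h => hqS (h ▸ hq')
          refine ⟨Q', Finset.mem_insert_of_mem hq', ?_⟩
          rw [Function.update_of_ne hne]
          exact h3
  obtain ⟨S, e, h, h1, h2⟩ := key (R.filter fun r => IsSquare (Algebra.norm K r) ∧ ¬ IsSquare r)
    (fun r hr => ⟨hR0 r (Finset.mem_filter.1 hr).1, (Finset.mem_filter.1 hr).2⟩)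
  refine ⟨S, e, h, h1, fun α hα hN hEv hSq => ?_⟩
  by_contra hns
  obtain ⟨r, hr, s, hs, hrs⟩ := hR α hα fun 𝔓 h𝔓 => hEv 𝔓 h𝔓
  have hr0 := hR0 r hr
  have hrns : ¬ IsSquare r := by
    rintro ⟨u, hu⟩
    exact hns ⟨u * s, by rw [hrs, hu]; ring⟩
  have hrN : IsSquare (Algebra.norm K r) := by
    obtain ⟨c, hc⟩ := hN
    have hsN : Algebra.norm K s ≠ 0 := Algebra.norm_ne_zero_iff.2 hs
    refine ⟨c / Algebra.norm K s, ?_⟩
    rw [hrs, map_mul, map_pow] at hc
    field_simp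
    linear_combination hc
  obtain ⟨Q, hq, h3⟩ := h2 r (Finset.mem_filter.2 ⟨hr, hrN, hrns⟩)
  obtain ⟨c1, c2, -, c4, c5, c6, c7, -⟩ := h1 Q hq
  obtain ⟨𝔓, h𝔓1, h𝔓2⟩ := Sel.exists_prime (O := O) hyp.one hG c2 c4 c5 c6 c7
  have h4 := hSq Q hq 𝔓 h𝔓1 h𝔓2
  rw [hrs] at h4
  exact h3 𝔓 h𝔓1 h𝔓2 (Sel.sq1_of_mul 𝔓 r s hs h4)

end Pool.Agent.Helper28H.FE
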