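import Pool.Agent.Helper28H.FE.Stm
import Pool.Agent.N368.PP.Hp

/-! Pieces E-SPL and E-QR of project FE (helper6). -/

set_option autoImplicit false
set_option linter.all false

open Polynomial IsDedekindDomain

namespace Pool.Agent.Helper28H.FE

theorem t_QR : E_QR := by
  classical
  intro k _ _ h2 Q hQm hQi
  haveI : Fintype k := Fintype.ofFinite k
  have hk : ringChar k ≠ 2 := fun h => h2 (by
    have := ringChar.Nat.cast_ringChar (R := k)
    rwa [h] at this)
  constructor
  · intro P hPm hPi hne hev ⟨z, hz⟩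
    have hQP : ¬ Q ∣ P := fun h => hne (eq_of_monic_of_associated hPm hQm
      ((hQi.associated_of_dvd hPi h).symm))
    have hPQ : ¬ P ∣ Q := fun h => hne (eq_of_monic_of_associated hPm hQm
      (hPi.associated_of_dvd hQi h))
    have hc : IsCoprime P Q := Pool.Agent.Y164.PS.coprime_of_not_dvd hQi hQP
    have h1 : Pool.Agent.Y164.PS.L P Q = 0 := by
      rw [Pool.Agent.Y164.PS.L_eq_zero_iff hk hQm hQi hQP]
      refine ⟨z, ?_⟩
      rw [← dvd_neg, neg_sub]
      exact hz
    have h3 := Pool.Agent.N368.PP.L_recip hPm.ne_zero hQm.ne_zero hc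
    rw [h1, zero_add, (ZMod.natCast_eq_zero_iff_even).2 hev, mul_zero, zero_mul] at h3
    obtain ⟨y, hy⟩ := (Pool.Agent.Y164.PS.L_eq_zero_iff hk hPm hPi hPQ).1 h3
    refine ⟨y, ?_⟩
    rw [← dvd_neg, neg_sub]
    exact hy
  · intro a ha ⟨z, hz⟩
    have ha0 : a ≠ 0 := by
      rintro rfl
      exact ha ⟨0, by simp⟩
    have hQC : ¬ Q ∣ C a := fun h => hQi.not_isUnit
      (isUnit_of_dvd_unit h (isUnit_C.2 (isUnit_iff_ne_zero.2 ha0)))
    have h1 : Pool.Agent.Y164.PS.L (C a) Q = 0 := by
      rw [Pool.Agent.Y164.PS.L_eq_zero_iff hk hQm hQi hQC]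
      refine ⟨z, ?_⟩
      rw [← dvd_neg, neg_sub]
      exact hz
    rw [Pool.Agent.Y164.PS.L_C ha0] at h1
    have h3 : Pool.Agent.Y164.PS.ch a = 1 := by
      have h4 : Pool.Agent.Y164.PS.ch a ≠ 0 := fun h => ha
        ((Pool.Agent.Y164.PS.ch_eq_zero_iff ha0).1 h)
      generalize Pool.Agent.Y164.PS.ch a = t at h4
      revert t
      decide
    rw [h3, mul_one] at h1
    exact (ZMod.natCast_eq_zero_iff_even).1 h1

theorem t_SPL : E_SPL := by
  classical
  intro k K E _ _ _ _ _ _ _ _ _ _ _ Q hQ hs
  have hinj : Function.Injective (algebraMap k[X] E) := by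
    rw [IsScalarTower.algebraMap_eq k[X] K E]
    exact (algebraMap K E).injective.comp (IsFractionRing.injective k[X] K)
  have hQ0 : algebraMap k[X] (integralClosure k[X] E) Q ≠ 0 := by
    intro h
    apply hQ.ne_zero
    apply hinj
    rw [map_zero]
    exact congrArg (algebraMap (integralClosure k[X] E) E) h
  constructor
  · intro E₀ _ _ _ _ _ _ κ w₀ hw₀
    let φ : integralClosure k[X] E₀ →ₐ[k[X]] integralClosure k[X] E :=
      (κ.restrictScalars k[X]).mapIntegralClosure
    letI : Algebra (integralClosure k[X] E₀) (integralClosure k[X] E) := φ.toRingHom.toAlgebra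
    haveI : IsScalarTower k[X] (integralClosure k[X] E₀) (integralClosure k[X] E) :=
      IsScalarTower.of_algebraMap_eq fun x => (φ.commutes x).symm
    haveI : Algebra.IsIntegral (integralClosure k[X] E₀) (integralClosure k[X] E) :=
      Algebra.IsIntegral.tower_top k[X]
    haveI := w₀.isPrime
    have hφ : Function.Injective φ := by
      intro x y hxy
      apply Subtype.ext
      exact κ.injective (congrArg (algebraMap (integralClosure k[X] E) E) hxy)
    obtain ⟨w, hw, hwc⟩ := Ideal.exists_ideal_over_prime_of_isIntegral_of_isDomain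
      (S := integralClosure k[X] E) w₀.asIdeal (by
        intro x hx
        have h0 : x = 0 := hφ ((RingHom.mem_ker.1 hx).trans (map_zero φ).symm)
        rw [h0]
        exact zero_mem _)
    have hmem : ∀ x, φ x ∈ w ↔ x ∈ w₀.asIdeal := by
      intro x
      rw [← hwc]
      rfl
    have hQw : algebraMap k[X] (integralClosure k[X] E) Q ∈ w := by
      rw [← φ.commutes]
      exact (hmem _).2 hw₀
    let W : HeightOneSpectrum (integralClosure k[X] E) := ⟨w, hw, fun h => by
      rw [h] at hQw
      exact hQ0 hQw⟩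
    obtain ⟨h1, h2⟩ := hs W hQw
    constructor
    · intro h
      apply h1
      have h3 := Ideal.mem_map_of_mem φ.toRingHom h
      have h4 : Ideal.map φ.toRingHom (w₀.asIdeal ^ 2) ≤ w ^ 2 := by
        rw [Ideal.map_pow]
        refine Ideal.pow_right_mono ?_ 2
        rw [Ideal.map_le_iff_le_comap]
        intro x hx
        exact (hmem x).2 hx
      have h5 := h4 h3
      rw [← φ.commutes]
      exact h5
    · intro y
      obtain ⟨c, hc⟩ := h2 (φ y)
      refine ⟨c, (hmem _).1 ?_⟩
      rw [map_sub, φ.commutes]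
      exact hc
  · intro P ⟨s, hs'⟩
    have hsi : IsIntegral k[X] s := by
      refine IsIntegral.of_pow (n := 2) two_pos ?_
      rw [pow_two, ← hs']
      exact isIntegral_algebraMap
    let s₁ : integralClosure k[X] E := ⟨s, hsi⟩
    have hs₁ : algebraMap k[X] (integralClosure k[X] E) P = s₁ * s₁ := Subtype.ext hs'
    haveI : (Ideal.span {Q}).IsPrime := (Ideal.span_singleton_prime hQ.ne_zero).2 hQ.prime
    obtain ⟨w, hw, hwc⟩ := Ideal.exists_ideal_over_prime_of_isIntegral_of_isDomain
      (S := integralClosure k[X] E) (Ideal.span {Q}) (by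
        intro x hx
        have h0 : x = 0 := hinj (by
          rw [map_zero]
          exact congrArg (algebraMap (integralClosure k[X] E) E) (RingHom.mem_ker.1 hx))
        rw [h0]
        exact zero_mem _)
    have hmem : ∀ x, algebraMap k[X] (integralClosure k[X] E) x ∈ w ↔ Q ∣ x := by
      intro x
      rw [← Ideal.mem_span_singleton, ← hwc]
      rfl
    let W : HeightOneSpectrum (integralClosure k[X] E) := ⟨w, hw, fun h => by
      have h1 := (hmem Q).2 dvd_rfl
      rw [h] at h1
      exact hQ0 h1⟩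
    obtain ⟨h1, h2⟩ := hs W ((hmem Q).2 dvd_rfl)
    obtain ⟨c, hc⟩ := h2 s₁
    refine ⟨c, (hmem _).1 ?_⟩
    rw [map_sub, hs₁, map_pow]
    have h3 : s₁ * s₁ - (algebraMap k[X] (integralClosure k[X] E) c) ^ 2 =
      (s₁ + algebraMap k[X] (integralClosure k[X] E) c) *
        (s₁ - algebraMap k[X] (integralClosure k[X] E) c) := by ring
    rw [h3]
    exact Ideal.mul_mem_left _ _ hc

end Pool.Agent.Helper28H.FE
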