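import Pool.Agent.Helper28H.FE.Stm
import Pool.Agent.N352.PP.Loc

/-!
# Project FE, pieces SQL and INF: local squares and the place at infinity (by helper12)
-/

set_option autoImplicit false
set_option linter.all false

open Polynomial IsDedekindDomain Matrix WithZero
open scoped Classical nonZeroDivisors

namespace Pool.Agent.Helper28H.FE

namespace SQL

open Pool.Agent.N352.PP (vv vv_coe sqrt_one em sq_of_res)

section inf

variable {k K : Type} [Field k] [Field K] [Algebra k[X] K] [IsFractionRing k[X] K]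
  {R₁ : Type} [CommRing R₁] [IsDedekindDomain R₁] [Algebra R₁ K] [IsFractionRing R₁ K]
  {v₁ : HeightOneSpectrum R₁}

theorem sq_inf (hv : IsInf k (K := K) v₁) (h2 : (2 : k) ≠ 0) {D : k[X]} (hD : D.Monic)
    (he : Even D.natDegree) :
    IsSquare (algebraMap K (v₁.adicCompletion K) (algebraMap k[X] K D)) := by
  obtain ⟨m, hm⟩ := he
  have hinj : Function.Injective (algebraMap k[X] K) := IsFractionRing.injective k[X] K
  have hX : algebraMap k[X] K X ≠ 0 := by
    rw [Ne, map_eq_zero_iff _ hinj]
    exact X_ne_zero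
  have v2 : v₁.valuation K 2 = 1 := by
    have h3 : (C (2 : k) : k[X]) ≠ 0 := by simpa using h2
    have h4 := hv (C (2 : k)) h3
    rw [natDegree_C] at h4
    have e : (C (2 : k) : k[X]) = 2 := map_ofNat C 2
    rw [e, map_ofNat] at h4
    rw [h4]
    rfl
  set y : K := algebraMap k[X] K D / algebraMap k[X] K X ^ (m + m) with hy
  have hy1 : v₁.valuation K (y - 1) < 1 := by
    have e : y - 1 = algebraMap k[X] K (D - X ^ (m + m)) / algebraMap k[X] K X ^ (m + m) := by
      rw [map_sub, map_pow, hy]
      field_simp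
    rcases eq_or_ne (D - X ^ (m + m)) 0 with h0 | h0
    · rw [e, h0]
      simp
    · have h3 : (D - X ^ (m + m)).natDegree < m + m := by
        have h4 : (D - X ^ (m + m)).degree < D.degree := by
          refine degree_sub_lt ?_ hD.ne_zero ?_
          · rw [degree_X_pow, degree_eq_natDegree hD.ne_zero, hm]
          · rw [hD.leadingCoeff, (monic_X_pow _).leadingCoeff]
        rw [degree_eq_natDegree hD.ne_zero, hm, degree_eq_natDegree h0] at h4
        exact_mod_cast h4
      have hX1 := hv X X_ne_zero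
      rw [natDegree_X] at hX1
      rw [e, map_div₀, map_pow, hv _ h0, hX1, ← WithZero.exp_nsmul]
      rw [div_lt_one₀ (exp_pos), exp_lt_exp]
      simp only [nsmul_eq_mul]
      push_cast
      omega
  have hy1' : vv v₁ (algebraMap K (v₁.adicCompletion K) y - 1) < 1 := by
    rw [← map_one (algebraMap K (v₁.adicCompletion K)), ← map_sub, vv_coe]
    exact hy1
  obtain ⟨z, hz, -⟩ := sqrt_one v₁ v2 _ hy1'
  refine ⟨z * algebraMap K (v₁.adicCompletion K) (algebraMap k[X] K X ^ m), ?_⟩
  have e2 : algebraMap k[X] K D = y * (algebraMap k[X] K X ^ m * algebraMap k[X] K X ^ m) := by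
    rw [hy, ← pow_add]
    field_simp
  rw [e2, map_mul, map_mul, ← hz]
  ring

end inf

/-- a copy of `k[X]` -/
def R1 (k : Type) [Field k] : Type := k[X]

noncomputable instance (k : Type) [Field k] : CommRing (R1 k) := inferInstanceAs (CommRing k[X])

instance (k : Type) [Field k] : IsDomain (R1 k) := inferInstanceAs (IsDomain k[X])

instance (k : Type) [Field k] : IsDedekindDomain (R1 k) := inferInstanceAs (IsDedekindDomain k[X])

section ex

variable (k K : Type) [Field k] [Field K] [Algebra k[X] K] [IsFractionRing k[X] K]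

/-- the inclusion of the constants -/
noncomputable def ic : k →+* K := (algebraMap k[X] K).comp C

theorem X0 : algebraMap k[X] K X ≠ 0 := by
  rw [Ne, map_eq_zero_iff _ (IsFractionRing.injective k[X] K)]
  exact X_ne_zero

noncomputable instance : Invertible (algebraMap k[X] K X) := invertibleOfNonzero (X0 k K)

theorem inv_eq : (algebraMap k[X] K X)⁻¹ = ⅟(algebraMap k[X] K X) := (invOf_eq_inv _).symm

/-- `X` goes to `1 / t` -/
noncomputable def fi : R1 k →+* K := eval₂RingHom (ic k K) (⅟(algebraMap k[X] K X))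

theorem eval_t (p : k[X]) : eval₂ (ic k K) (algebraMap k[X] K X) p = algebraMap k[X] K p := by
  have h : eval₂RingHom (ic k K) (algebraMap k[X] K X) = algebraMap k[X] K := by
    apply Polynomial.ringHom_ext
    · intro a
      simp [ic]
    · simp
  exact congrArg (fun f : k[X] →+* K => f p) h

theorem fi_reverse (p : k[X]) :
    fi k K (reverse p : k[X]) * algebraMap k[X] K X ^ p.natDegree = algebraMap k[X] K p := by
  exact (eval₂_reverse_mul_pow (ic k K) (algebraMap k[X] K X) p).trans (eval_t k K p)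

theorem fi_inj : Function.Injective (fi k K) := by
  rw [injective_iff_map_eq_zero]
  intro p hp
  have h1 : eval₂ (ic k K) (⅟(algebraMap k[X] K X)) (p : k[X]) = 0 := hp
  have h2 : eval₂ (ic k K) (⅟(⅟(algebraMap k[X] K X))) (reverse (p : k[X])) = 0 :=
    (eval₂_reverse_eq_zero_iff (ic k K) (⅟(algebraMap k[X] K X)) (p : k[X])).2 h1
  rw [invOf_invOf, eval_t, map_eq_zero_iff _ (IsFractionRing.injective k[X] K),
    reverse_eq_zero] at h2
  exact h2

theorem fi_X : fi k K (X : k[X]) = (algebraMap k[X] K X)⁻¹ := by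
  rw [inv_eq]
  exact eval₂_X _ _

theorem inf_exists : ∃ (R₁ : Type) (_ : CommRing R₁) (_ : IsDedekindDomain R₁) (_ : Algebra R₁ K)
    (_ : IsFractionRing R₁ K) (v₁ : HeightOneSpectrum R₁), IsInf k (K := K) v₁ := by
  letI : Algebra (R1 k) K := (fi k K).toAlgebra
  have ha : ∀ x : R1 k, algebraMap (R1 k) K x = fi k K x := fun x => rfl
  haveI : FaithfulSMul (R1 k) K := (faithfulSMul_iff_algebraMap_injective (R1 k) K).2 (fi_inj k K)
  have hX0 : fi k K (X : k[X]) ≠ 0 := by
    rw [fi_X]
    exact inv_ne_zero (X0 k K)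
  have hp : ∀ p : k[X], algebraMap k[X] K p =
      algebraMap (R1 k) K (reverse p : k[X]) / algebraMap (R1 k) K ((X : k[X]) ^ p.natDegree : k[X]) := by
    intro p
    have e : algebraMap (R1 k) K ((X : k[X]) ^ p.natDegree : k[X]) =
        ((algebraMap k[X] K X) ^ p.natDegree)⁻¹ := by
      rw [← inv_pow, ← fi_X]
      exact map_pow (fi k K) (X : k[X]) _
    rw [e, ha, div_inv_eq_mul, fi_reverse]
  haveI : IsFractionRing (R1 k) K := by
    refine IsFractionRing.of_field (R1 k) K fun z => ?_
    obtain ⟨a, b, hb, rfl⟩ := IsFractionRing.div_surjective (A := k[X]) z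
    have hb0 : b ≠ 0 := nonZeroDivisors.ne_zero hb
    refine ⟨(reverse a * X ^ b.natDegree : k[X]), (reverse b * X ^ a.natDegree : k[X]), ?_⟩
    rw [hp a, hp b]
    have m1 : ∀ x y : k[X], algebraMap (R1 k) K (x * y : k[X]) =
        algebraMap (R1 k) K (x : k[X]) * algebraMap (R1 k) K (y : k[X]) :=
      fun x y => map_mul (fi k K) x y
    rw [m1, m1]
    have h1 : algebraMap (R1 k) K ((X : k[X]) ^ a.natDegree : k[X]) ≠ 0 := by
      have : algebraMap (R1 k) K ((X : k[X]) ^ a.natDegree : k[X]) = (fi k K (X : k[X])) ^ a.natDegree :=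
        map_pow (fi k K) (X : k[X]) _
      rw [this]
      exact pow_ne_zero _ hX0
    have h2 : algebraMap (R1 k) K ((X : k[X]) ^ b.natDegree : k[X]) ≠ 0 := by
      have : algebraMap (R1 k) K ((X : k[X]) ^ b.natDegree : k[X]) = (fi k K (X : k[X])) ^ b.natDegree :=
        map_pow (fi k K) (X : k[X]) _
      rw [this]
      exact pow_ne_zero _ hX0
    have h3 : algebraMap (R1 k) K (reverse b : k[X]) ≠ 0 := by
      intro h
      have h4 := fi_inj k K (h.trans (map_zero (fi k K)).symm)
      exact hb0 (reverse_eq_zero.1 h4)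
    field_simp
  have hXp : Prime (X : k[X]) := prime_X
  let v₁ : HeightOneSpectrum (R1 k) := ⟨Ideal.span {(X : k[X])},
    (Ideal.span_singleton_prime (p := (X : k[X])) X_ne_zero).2 hXp, by
      intro h
      exact X_ne_zero (Ideal.span_singleton_eq_bot.1 h)⟩
  refine ⟨R1 k, inferInstance, inferInstance, inferInstance, inferInstance, v₁, fun p hp0 => ?_⟩
  have vX : v₁.valuation K (algebraMap (R1 k) K (X : k[X])) = exp (-1 : ℤ) := by
    rw [HeightOneSpectrum.valuation_of_algebraMap]
    exact v₁.intValuation_singleton (r := (X : k[X])) X_ne_zero rfl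
  have vr : v₁.valuation K (algebraMap (R1 k) K (reverse p : k[X])) = 1 := by
    refine le_antisymm (v₁.valuation_le_one _) ?_
    rw [← not_lt, HeightOneSpectrum.valuation_lt_one_iff_mem]
    intro h
    have h1 : (X : k[X]) ∣ reverse p := Ideal.mem_span_singleton.1 h
    rw [X_dvd_iff, coeff_zero_reverse, leadingCoeff_eq_zero] at h1
    exact hp0 h1
  have vXn : v₁.valuation K (algebraMap (R1 k) K ((X : k[X]) ^ p.natDegree : k[X])) =
      exp (-(p.natDegree : ℤ)) := by
    have e : algebraMap (R1 k) K ((X : k[X]) ^ p.natDegree : k[X]) =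
        (algebraMap (R1 k) K (X : k[X])) ^ p.natDegree := map_pow (fi k K) (X : k[X]) _
    rw [e, map_pow, vX, ← WithZero.exp_nsmul]
    simp
  rw [hp p, map_div₀, vr, vXn, one_div, ← WithZero.exp_neg, neg_neg]

end ex

end SQL

/-- **Piece SQL.** -/
theorem sql : D_SQL := by
  intro k K _ _ _ _ h2
  refine ⟨fun R₁ _ _ _ _ v₁ hv D hD he => SQL.sq_inf hv h2 hD he, fun P D z v hP hv hD hz => ?_⟩
  obtain ⟨w, hw, -⟩ := Pool.Agent.N352.PP.sq_of_res (K := K) hP hv h2 (g := D) (z := z) hD (by
    have := dvd_neg.2 hz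
    rwa [neg_sub] at this)
  refine ⟨w, ?_⟩
  rw [← sq, hw]
  rfl

/-- **Piece INF.** -/
theorem inf : D_INF := fun k K _ _ _ _ => SQL.inf_exists k K

end Pool.Agent.Helper28H.FE
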