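import Pool.Agent.Helper28H.FE.Stm

/-!
# Project FE, pieces TRL and DSC: translation of the polynomial (port of `H30T/Trl.lean`)
-/

set_option autoImplicit false
set_option linter.all false

open Polynomial IsDedekindDomain Matrix
open scoped Classical

namespace Pool.Agent.Helper28H.FE

open Pool.Agent.N352.PJ (Mt IsGen dsc Cg Crd)
open Pool.Agent.N352.JB (LocIm SelTriv)

section trl

/-- Translation of the class. -/
theorem locIm_comp {E : Type} [Field E] (f h : E[X]) (a : E) (H : LocIm E f h) :
    LocIm E (f.comp (X + C a)) (h.comp (X + C a)) := by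
  obtain ⟨l, s, h1, h2⟩ := H
  refine ⟨l.map fun p => (p.1.comp (X + C a), p.2.comp (X + C a)), s.comp (X + C a), ?_, ?_⟩
  · intro p hp
    rw [List.mem_map] at hp
    obtain ⟨p', hp', rfl⟩ := hp
    obtain ⟨hm, hc, hd⟩ := h1 p' hp'
    refine ⟨hm.comp_X_add_C a, ?_, ?_⟩
    · have := hc.map (compRingHom (X + C a))
      simpa using this
    · have := map_dvd (compRingHom (X + C a)) hd
      simpa using this
  · have h3 := map_dvd (compRingHom (X + C a)) h2
    have e : (compRingHom (X + C a)) (l.map fun p => (-1) ^ p.1.natDegree * p.1).prod =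
        ((l.map fun p => (p.1.comp (X + C a), p.2.comp (X + C a))).map
          fun p => (-1) ^ p.1.natDegree * p.1).prod := by
      rw [map_list_prod, List.map_map, List.map_map]
      congr 1
      apply List.map_congr_left
      intro p _
      have e1 : (p.1.comp (X + C a)).natDegree = p.1.natDegree := by
        rw [natDegree_comp, natDegree_X_add_C, mul_one]
      simp only [Function.comp_apply, e1]
      rw [map_mul, map_pow, map_neg, map_one]
      rfl
    rw [map_sub, map_mul, map_pow, e] at h3
    simpa using h3

/-- The translation of the quotient ring. -/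
noncomputable def trEquiv {F : Type} [Field F] (f : F[X]) (a : F) :
    AdjoinRoot f ≃ₐ[F] AdjoinRoot (f.comp (X + C a)) :=
  Ideal.quotientEquivAlg (Ideal.span {f}) (Ideal.span {f.comp (X + C a)}) (algEquivAevalXAddC a)
    (by
      rw [Ideal.map_span, Set.image_singleton]
      congr 2)

theorem trEquiv_mk {F : Type} [Field F] (f h : F[X]) (a : F) :
    trEquiv f a (AdjoinRoot.mk f h) = AdjoinRoot.mk (f.comp (X + C a)) (h.comp (X + C a)) := by
  rfl

theorem trl : D_TRL := by
  intro K _ Pl f c hf hS h hc hn hl
  have key := hS (h.comp (X + C c)) ?_ ?_ ?_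
  · obtain ⟨s, hs⟩ := key
    refine ⟨s.comp (X + C (-c)), ?_⟩
    have h3 := map_dvd (compRingHom (X + C (-c))) hs
    have e2 : ∀ p : K[X], (p.comp (X + C c)).comp (X + C (-c)) = p := by
      intro p
      rw [comp_assoc]
      simp
    rw [map_sub, map_pow] at h3
    simp only [coe_compRingHom] at h3
    rw [e2, e2] at h3
    exact h3
  · have := hc.map (compRingHom (X + C c))
    simpa using this
  · rw [← trEquiv_mk, Algebra.norm_eq_of_algEquiv (trEquiv f c)]
    exact hn
  · intro E _ _ hE
    have h1 := hl E hE
    have h2 := locIm_comp _ _ (algebraMap K E c) h1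
    have e3 : ∀ p : K[X], (p.map (algebraMap K E)).comp (X + C (algebraMap K E c)) =
        (p.comp (X + C c)).map (algebraMap K E) := by
      intro p
      rw [Polynomial.map_comp]
      simp
    rw [e3, e3] at h2
    exact h2

end trl

/-- The discriminant with the natural degrees. -/
theorem dsc_eq (g : ℕ) {k : Type} [Field k] (f : k[X][X]) (hf : f.Monic)
    (hd : f.natDegree = 2 * g + 1) : dsc g f = f.resultant (derivative f) := by
  have hn : (derivative f).natDegree ≤ 2 * g := by
    have := natDegree_derivative_le f
    omega
  have h1 := resultant_add_right_deg f (derivative f) (2 * g + 1) (derivative f).natDegree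
    (2 * g - (derivative f).natDegree) le_rfl
  rw [Nat.add_sub_cancel' hn] at h1
  have h2 : f.coeff (2 * g + 1) = 1 := by
    rw [← hd]
    exact hf
  rw [h2, one_pow, one_mul] at h1
  rw [dsc, h1, hd]

theorem dscInv : D_DSC := by
  intro g k _ f hf hd
  have hn : (derivative f).natDegree ≤ 2 * g := by
    have := natDegree_derivative_le f
    omega
  refine ⟨fun c => ?_, fun D hD => ?_⟩
  · have h1 := resultant_taylor f (derivative f) c
    have e1 : taylor c f = f.comp (X + C c) := taylor_apply c f
    have e2 : taylor c (derivative f) = derivative (f.comp (X + C c)) := by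
      rw [taylor_apply, derivative_comp]
      simp
    rw [e1, e2] at h1
    rw [dsc_eq g f hf hd, dsc_eq g _ (hf.comp_X_add_C c), h1]
    rw [natDegree_comp, natDegree_X_add_C, mul_one, hd]
  · have h1 := resultant_scaleRoots f (derivative f) D
    have hk : 2 * g = (derivative f).natDegree + (2 * g - (derivative f).natDegree) := by omega
    set m : ℕ := 2 * g - (derivative f).natDegree with hm
    have e2 : derivative (f.scaleRoots D) = C (D ^ m) * (derivative f).scaleRoots D := by
      ext1 i
      rw [coeff_C_mul, coeff_scaleRoots, coeff_derivative, coeff_derivative, coeff_scaleRoots, hd]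
      by_cases hi : i ≤ (derivative f).natDegree
      · have e3 : 2 * g + 1 - (i + 1) = m + ((derivative f).natDegree - i) := by omega
        rw [e3, pow_add]
        ring
      · have h3 : (derivative f).coeff i = 0 := coeff_eq_zero_of_natDegree_lt (by omega)
        rw [coeff_derivative] at h3
        rw [h3, zero_mul, mul_zero]
        calc f.coeff (i + 1) * D ^ (2 * g + 1 - (i + 1)) * ((i : k[X]) + 1) =
            (f.coeff (i + 1) * ((i : k[X]) + 1)) * D ^ (2 * g + 1 - (i + 1)) := by ring
          _ = 0 := by rw [h3, zero_mul]
    have hc : (f.scaleRoots D).coeff (2 * g + 1) = 1 := by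
      rw [coeff_scaleRoots, hd, Nat.sub_self, pow_zero, mul_one, ← hd]
      exact hf
    rw [natDegree_scaleRoots, natDegree_scaleRoots, hd] at h1
    have h4 := resultant_add_right_deg (f.scaleRoots D) ((derivative f).scaleRoots D) (2 * g + 1)
      (derivative f).natDegree m (by rw [natDegree_scaleRoots])
    rw [hc, one_pow, one_mul, h1, ← hk] at h4
    rw [dsc, e2, resultant_C_mul_right, h4, dsc_eq g f hf hd, hd, ← mul_assoc]
    congr 1
    rw [← pow_mul, ← pow_add]
    congr 1
    rw [hm]
    have : 2 * g = 2 * g - (derivative f).natDegree + (derivative f).natDegree := by omega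
    calc (2 * g - (derivative f).natDegree) * (2 * g + 1) + (2 * g + 1) * (derivative f).natDegree
        = (2 * g + 1) * (2 * g - (derivative f).natDegree + (derivative f).natDegree) := by ring
      _ = (2 * g + 1) * (2 * g) := by rw [← this]

end Pool.Agent.Helper28H.FE
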