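import Pool.Agent.Helper28H.FE.Asm
import Pool.Agent.Helper28H.FE.Core
import Pool.Agent.Helper28H.FE.Res
import Pool.Agent.Helper28H.FE.Sel
import Pool.Agent.Helper28H.FE.Cyc
import Pool.Agent.Helper28H.FE.Spl
import Pool.Agent.Helper28H.FE.Sql
import Pool.Agent.Helper28H.FE.Trl
import Pool.Agent.Helper28H.FE.Back
import Pool.Agent.Helper28H.FE.Exq
import Pool.Agent.Helper28H.FE.Par
import Pool.Agent.Helper28H.FE.Pin
import Pool.Agent.Helper28H.FE.Ram
import Pool.Agent.Helper28H.FE.Int
import Pool.Agent.Helper28H.FE.Rec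
import Pool.Agent.Helper28H.FE.Iso
import Pool.Agent.Helper28H.FE.Sdb
import Pool.Agent.Helper28H.FE.Sdg
import Pool.Agent.Helper28H.FE.Odd
import Pool.Agent.Helper28H.FE.Gal
import Pool.Agent.Helper28H.FE.Galn
import Pool.Agent.Helper28H.FE.Del
import Pool.Agent.Helper28H.FE.Fin
import Pool.Agent.Helper28H.FE.Frob
import Pool.Agent.Helper28H.FE.Glue
import Pool.Agent.Helper28H.FE.Gl
import Pool.Agent.Helper28H.FE.Mert
import Pool.Agent.Helper28H.FE.SelM4
import Pool.Agent.Helper28H.FE.Quad
import Pool.Agent.N352.JB.All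

/-!
# Project FE: the main theorems
-/

set_option autoImplicit false
set_option linter.all false

open Polynomial IsDedekindDomain
open scoped Classical

namespace Pool.Agent.Helper28H.FE.MainE

open Pool.Agent.N352.PJ (dsc)
open Pool.Agent.N352.JB (SelTriv)
open Pool.Agent.N352.Sha (ShaTrivialAt UniquelyDivisible)

theorem exqT : A_EXQ := a_exq a_int
theorem csqT : A_CSQ := a_csq a_int
theorem parT : A_PAR := a_par a_int
theorem parqT : A_PARQ := a_parq a_int exqT
theorem pinT : A_PIN := a_pin a_int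
theorem ramT : A_RAM := a_ram a_int
theorem sdgT : B_SDG := sdg a_int exqT csqT parqT
theorem sdbT : B_SDB := sdb iso
theorem glT : B_GL := gl a_int csqT sdgT glue
theorem recT : B_REC := rec exqT csqT glT
theorem coreT : C_CORE := core exqT csqT sdbT sdgT recT
theorem selmT : C_SELM := SelM.selm csqT pinT parT parqT ramT back
theorem frobT : E_FROB := frob mert
theorem galT : E_GAL := gal odd
theorem chebT : E_CHEB := t_res frobT galT
theorem selectT : E_SELECT := e_sel fin chebT
theorem mainT : C_MAIN := asm coreT selmT selectT cyc t_SPL t_QR sql trl dscInv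
theorem prT : F_PR := t_del frobT (galn odd)

/-- The primes of `k[t]` split completely in `K`. -/
theorem split_base {k K : Type} [Field k] [Field K] [Algebra k[X] K] [IsFractionRing k[X] K]
    {P : k[X]} (hP : Irreducible P) : SplitsIn K P := by
  have hs : Function.Surjective (algebraMap k[X] (integralClosure k[X] K)) := by
    intro x
    obtain ⟨y, hy⟩ := IsIntegrallyClosed.isIntegral_iff.1 x.2
    exact ⟨y, Subtype.ext hy⟩
  have hi : Function.Injective (algebraMap k[X] (integralClosure k[X] K)) := by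
    intro x y hxy
    have := congrArg (fun z : integralClosure k[X] K => (z : K)) hxy
    exact IsFractionRing.injective k[X] K this
  intro w hw
  haveI := w.isPrime
  refine ⟨fun h2' => ?_, fun y => ?_⟩
  · let v : HeightOneSpectrum k[X] := ⟨w.asIdeal.comap (algebraMap k[X] (integralClosure k[X] K)),
      Ideal.comap_isPrime _ _, by
        intro h0
        have h3 : P ∈ w.asIdeal.comap (algebraMap k[X] (integralClosure k[X] K)) := hw
        rw [h0, Ideal.mem_bot] at h3
        exact hP.ne_zero h3⟩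
    have hv : P ∈ v.asIdeal := hw
    apply Quad.not_sq hP v hv
    have e1 : w.asIdeal = v.asIdeal.map (algebraMap k[X] (integralClosure k[X] K)) :=
      (Ideal.map_comap_of_surjective _ hs _).symm
    rw [e1, ← Ideal.map_pow] at h2'
    obtain ⟨y, hy, hy'⟩ := (Ideal.mem_map_iff_of_surjective _ hs).1 h2'
    rw [← hi hy']
    exact hy
  · obtain ⟨c, rfl⟩ := hs y
    exact ⟨c, by rw [sub_self]; exact zero_mem _⟩

/-- A prime which is a square modulo the elements of `T` and modulo which `f` is irreducible. -/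
theorem exists_prime {g : ℕ} {k K : Type} [Field k] [Finite k] [Field K] [Algebra k[X] K]
    [IsFractionRing k[X] K] {f : k[X][X]} {P₀ : k[X]} (hyp : Hyp K g f P₀) (T : Finset k[X])
    (hT : ∀ P ∈ T, P.Monic ∧ Irreducible P ∧ ¬ P₀ ∣ P) (B : ℕ) :
    ∃ Q : k[X], Q.Monic ∧ Irreducible Q ∧ B < Q.natDegree ∧ Even Q.natDegree ∧
      Irreducible (f.map (Ideal.Quotient.mk (Ideal.span {Q}))) ∧
      ∀ P ∈ T, ¬ P ∣ Q ∧ ∃ z : k[X], P ∣ Q - z ^ 2 := by
  have h2 := hyp.two
  obtain ⟨a, ha⟩ : ∃ a : k, ¬ IsSquare a := by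
    haveI : Fintype k := Fintype.ofFinite k
    refine FiniteField.exists_nonsquare ?_
    intro h
    apply h2
    have := (ringChar.spec k 2).2 (by rw [h])
    exact_mod_cast this
  have ha0 : a ≠ 0 := by
    rintro rfl
    exact ha (IsSquare.zero)
  have hunrK : UnrAt K P₀ := fun w hw => (split_base (K := K) hyp.prime w hw).1
  obtain ⟨E, iF, iA, iX, iT, iFD, iG, -, hu, hsq⟩ := cyc k K K P₀ (insert (C a) T) h2 hyp.prime
    hunrK (by
      intro P hP
      rcases Finset.mem_insert.1 hP with rfl | hP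
      · intro hd
        exact hyp.prime.not_isUnit (isUnit_of_dvd_unit hd (isUnit_C.2 ha0.isUnit))
      · exact (hT P hP).2.2)
  obtain ⟨Q, hQm, hQi, hQB, hQs, hQf⟩ := prT g k K E f P₀ hyp hu
    (max B (∑ P ∈ T, P.natDegree))
  obtain ⟨-, hspl⟩ := t_SPL k K E Q hQi hQs
  obtain ⟨hqr1, hqr2⟩ := t_QR k h2 Q hQm hQi
  have hev : Even Q.natDegree := hqr2 a ha (hspl _ (hsq _ (Finset.mem_insert_self _ _)))
  refine ⟨Q, hQm, hQi, lt_of_le_of_lt (le_max_left _ _) hQB, hev, hQf, fun P hP => ?_⟩
  have hne : P ≠ Q := by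
    rintro rfl
    have h3 : P.natDegree ≤ ∑ P ∈ T, P.natDegree :=
      Finset.single_le_sum (f := fun P : k[X] => P.natDegree) (fun _ _ => Nat.zero_le _) hP
    have := lt_of_le_of_lt (le_max_right B (∑ P ∈ T, P.natDegree)) hQB
    omega
  refine ⟨fun hd => ?_, hqr1 P (hT P hP).1 (hT P hP).2.1 hne hev
    (hspl _ (hsq _ (Finset.mem_insert_of_mem hP)))⟩
  exact hne (eq_of_monic_of_associated (hT P hP).1 hQm ((hT P hP).2.1.associated_of_dvd hQi hd))

end Pool.Agent.Helper28H.FE.MainE
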