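import Pool.Agent.Helper28H.SP.Pr

/-!
# The exact number of the elements of bounded size in the ideals of small degree
-/

set_option autoImplicit false
set_option linter.all false

open Polynomial Module IsDedekindDomain
open scoped Classical

namespace Pool.Agent.Helper28H.FE.Mert

open Pool.Agent.Helper28H.SP

variable {k : Type} [Field k] [Finite k]

section abs

variable {M W : Type} [AddCommGroup M] [Module k M] [AddCommGroup W] [Module k W]

omit [Finite k] in
theorem abs1 (N : Submodule k M) [Module.Finite k N] (T : M →ₗ[k] W) :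
    finrank k (N.map T) + finrank k (N ⊓ LinearMap.ker T : Submodule k M) = finrank k N := by
  have h := LinearMap.finrank_range_add_finrank_ker (T.domRestrict N)
  rw [LinearMap.range_domRestrict, LinearMap.ker_domRestrict] at h
  rw [← h]
  congr 1
  have e : (LinearMap.ker T).comap N.subtype = (N ⊓ LinearMap.ker T).comap N.subtype := by
    ext x
    simp
  rw [e]
  exact (Submodule.comapSubtypeEquivOfLe inf_le_left).finrank_eq.symm

omit [Finite k] in
theorem abs2 (N : Submodule k M) (T : M →ₗ[k] W) {v₀ : M} (h₀ : v₀ ∈ N) :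
    Nat.card {v : M // v ∈ N ∧ T v = T v₀} =
      Nat.card (N ⊓ LinearMap.ker T : Submodule k M) := by
  refine Nat.card_congr ⟨fun v => ⟨v.1 - v₀, ?_, ?_⟩, fun y => ⟨y.1 + v₀, ?_, ?_⟩, ?_, ?_⟩
  · exact N.sub_mem v.2.1 h₀
  · show T (v.1 - v₀) = 0
    rw [map_sub, v.2.2, sub_self]
  · exact N.add_mem y.2.1 h₀
  · have h : T y.1 = 0 := y.2.2
    rw [map_add, h, zero_add]
  · intro v
    apply Subtype.ext
    show v.1 - v₀ + v₀ = v.1
    exact sub_add_cancel _ _
  · intro y
    apply Subtype.ext
    show y.1 + v₀ - v₀ = y.1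
    exact add_sub_cancel_right _ _

end abs

/-- The space of the vectors of polynomials of degree smaller than `n`. -/
noncomputable def V (k : Type) [Field k] (ι : Type) (n : ℕ) : Submodule k (ι → k[X]) :=
  Submodule.pi Set.univ fun _ => degreeLT k n

omit [Finite k] in
theorem mem_V {ι : Type} {n : ℕ} {v : ι → k[X]} : v ∈ V k ι n ↔ ∀ i, (v i).degree < n := by
  unfold V
  rw [Submodule.mem_pi]
  simp only [Set.mem_univ, true_implies, mem_degreeLT]

theorem mem_V_bx {ι : Type} [Fintype ι] {n : ℕ} {v : ι → k[X]} : v ∈ V k ι n ↔ v ∈ bx k ι n := by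
  rw [mem_V, mem_bx]

section ext

variable {O : Type} [CommRing O] [IsDedekindDomain O] [Algebra k[X] O] [Algebra k O]
  [IsScalarTower k k[X] O] [Module.Finite k[X] O] {ι : Type} [Fintype ι] (b : Basis ι k[X] O)

/-- The residue class. -/
noncomputable def T (I : Ideal O) : (ι → k[X]) →ₗ[k] (O ⧸ I) where
  toFun v := Ideal.Quotient.mk I (val b v)
  map_add' v v' := by
    rw [← map_add]
    congr 1
    unfold val
    rw [← Finset.sum_add_distrib]
    refine Finset.sum_congr rfl fun i _ => ?_
    rw [Pi.add_apply, add_smul]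
  map_smul' c v := by
    rw [RingHom.id_apply, ← Ideal.Quotient.mkₐ_eq_mk k, ← map_smul]
    congr 1
    unfold val
    rw [Finset.smul_sum]
    refine Finset.sum_congr rfl fun i _ => ?_
    rw [Pi.smul_apply, smul_assoc]

theorem T_zero (I : Ideal O) (v : ι → k[X]) : T b I v = 0 ↔ val b v ∈ I :=
  Ideal.Quotient.eq_zero_iff_mem

theorem V_X {n : ℕ} {v : ι → k[X]} (h : v ∈ V k ι n) : (fun i => X * v i) ∈ V k ι (n + 1) := by
  rw [mem_V] at h ⊢
  intro i
  rw [degree_mul, degree_X, add_comm, Nat.cast_add, Nat.cast_one]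
  have h1 := h i
  by_cases h0 : v i = 0
  · rw [h0, degree_zero, WithBot.bot_add]
    exact_mod_cast WithBot.bot_lt_coe (n + 1)
  · rw [degree_eq_natDegree h0] at h1 ⊢
    have h2 : (v i).natDegree < n := by exact_mod_cast h1
    exact_mod_cast (by omega : (v i).natDegree + 1 < n + 1)

theorem V_mono {n n' : ℕ} (h : n ≤ n') : V k ι n ≤ V k ι n' := by
  intro v hv
  rw [mem_V] at hv ⊢
  exact fun i => (hv i).trans_le (by exact_mod_cast h)

theorem T_X (I : Ideal O) (v : ι → k[X]) : T b I (fun i => X * v i) =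
    Ideal.Quotient.mk I (algebraMap k[X] O X) * T b I v := by
  show Ideal.Quotient.mk I (val b _) = _ * Ideal.Quotient.mk I (val b v)
  rw [← map_mul]
  congr 1
  unfold val
  rw [Finset.mul_sum]
  refine Finset.sum_congr rfl fun i _ => ?_
  rw [mul_smul, Algebra.smul_def]

/-- If the image is stable then it is everything. -/
theorem stable (I : Ideal O) {n : ℕ} (hn : 1 ≤ n)
    (h : (V k ι n).map (T b I) = (V k ι (n + 1)).map (T b I)) : (V k ι n).map (T b I) = ⊤ := by
  have hX : ∀ z ∈ (V k ι n).map (T b I),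
      Ideal.Quotient.mk I (algebraMap k[X] O X) * z ∈ (V k ι n).map (T b I) := by
    rintro _ ⟨v, hv, rfl⟩
    rw [h, ← T_X]
    exact Submodule.mem_map_of_mem (V_X hv)
  have hp : ∀ p : k[X], ∀ z ∈ (V k ι n).map (T b I),
      Ideal.Quotient.mk I (algebraMap k[X] O p) * z ∈ (V k ι n).map (T b I) := by
    intro p
    induction p using Polynomial.induction_on' with
    | add p q hp hq =>
      intro z hz
      rw [map_add, map_add, add_mul]
      exact Submodule.add_mem _ (hp z hz) (hq z hz)
    | monomial n' c =>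
      intro z hz
      have e : ∀ j : ℕ, Ideal.Quotient.mk I (algebraMap k[X] O X) ^ j * z ∈
          (V k ι n).map (T b I) := by
        intro j
        induction j with
        | zero => rwa [pow_zero, one_mul]
        | succ j ih =>
          rw [pow_succ', mul_assoc]
          exact hX _ ih
      have e2 : Ideal.Quotient.mk I (algebraMap k[X] O (monomial n' c)) * z =
          c • (Ideal.Quotient.mk I (algebraMap k[X] O X) ^ n' * z) := by
        rw [← C_mul_X_pow_eq_monomial, map_mul, map_mul, map_pow, map_pow, mul_assoc]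
        have e3 : algebraMap k[X] O (C c) = algebraMap k O c :=
          (IsScalarTower.algebraMap_apply k k[X] O c).symm
        rw [e3, ← Ideal.Quotient.algebraMap_eq, ← IsScalarTower.algebraMap_apply k O (O ⧸ I),
          ← Algebra.smul_def]
      rw [e2]
      exact Submodule.smul_mem _ _ (e _)
  rw [Submodule.eq_top_iff']
  intro z
  obtain ⟨y, rfl⟩ := Ideal.Quotient.mk_surjective z
  obtain ⟨v, hv⟩ : ∃ v, val b v = y := ⟨_, val_repr b y⟩
  rw [← hv]
  unfold val
  rw [map_sum]
  refine Submodule.sum_mem _ fun i _ => ?_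
  rw [Algebra.smul_def, map_mul]
  refine hp _ _ ?_
  refine ⟨Pi.single i 1, ?_, ?_⟩
  · show Pi.single i 1 ∈ V k ι n
    rw [mem_V]
    intro j
    by_cases hij : j = i
    · subst hij
      rw [Pi.single_eq_same, degree_one]
      exact_mod_cast hn
    · rw [Pi.single_eq_of_ne hij, degree_zero]
      exact_mod_cast WithBot.bot_lt_coe n
  · show Ideal.Quotient.mk I (val b _) = _
    congr 1
    unfold val
    rw [Finset.sum_eq_single i]
    · rw [Pi.single_eq_same, one_smul]
    · intro j _ hij
      rw [Pi.single_eq_of_ne hij, zero_smul]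
    · intro h
      exact absurd (Finset.mem_univ i) h

theorem grow {I : Ideal O} (hI : I ≠ ⊥) {n : ℕ} (hn : 1 ≤ n) {c : ℕ}
    (h : D k I ≤ finrank k ((V k ι n).map (T b I)) + c) : (V k ι (n + c)).map (T b I) = ⊤ := by
  haveI := fin_quot (k := k) hI
  haveI : Module.Finite k (O ⧸ I) := Module.Finite.of_finite
  have h1 : ∀ j, (V k ι (n + j)).map (T b I) = ⊤ ∨
      finrank k ((V k ι n).map (T b I)) + j ≤ finrank k ((V k ι (n + j)).map (T b I)) := by
    intro j
    induction j with
    | zero => exact Or.inr le_rfl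
    | succ j ih =>
      have hle : (V k ι (n + j)).map (T b I) ≤ (V k ι (n + (j + 1))).map (T b I) :=
        Submodule.map_mono (V_mono (by omega))
      rcases ih with h2 | h2
      · left
        rw [eq_top_iff, ← h2]
        exact hle
      · by_cases h3 : (V k ι (n + j)).map (T b I) = (V k ι (n + (j + 1))).map (T b I)
        · left
          rw [← h3]
          exact stable b I (by omega) h3
        · right
          have h4 := Submodule.finrank_lt_finrank_of_lt (lt_of_le_of_ne hle h3)
          omega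
  rcases h1 c with h2 | h2
  · exact h2
  · apply Submodule.eq_top_of_finrank_eq
    refine le_antisymm (Submodule.finrank_le _) ?_
    exact h.trans h2

theorem card_V (n : ℕ) : finrank k (V k ι n) = Fintype.card ι * n ∧ Finite (V k ι n) := by
  have h1 : Finite (V k ι n) := by
    have : ((bx k ι n : Finset (ι → k[X])) : Set (ι → k[X])).Finite := Finset.finite_toSet _
    refine (this.subset fun v hv => ?_).to_subtype
    exact mem_V_bx.1 hv
  refine ⟨?_, h1⟩
  have h2 : Nat.card (V k ι n) = Nat.card k ^ (Fintype.card ι * n) := by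
    rw [← card_bx (k := k) (ι := ι) n, ← Nat.card_eq_finsetCard]
    exact Nat.card_congr (Equiv.subtypeEquivRight fun v => mem_V_bx)
  have h3 : Nat.card (V k ι n) = Nat.card k ^ finrank k (V k ι n) := by
    haveI : Module.Finite k (V k ι n) := Module.Finite.of_finite
    exact Module.natCard_eq_pow_finrank
  rw [h3] at h2
  exact Nat.pow_right_injective q_gt h2

/-- The image is large. -/
theorem large {C : ℕ} (hC : ∀ (n : ℕ) (v : ι → k[X]), (∀ i, (v i).natDegree ≤ n) →
      (Algebra.norm k[X] (val b v)).natDegree ≤ Fintype.card ι * (n + C))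
    {I : Ideal O} (hI : I ≠ ⊥) {n : ℕ} (hn : D k I ≤ Fintype.card ι * n) :
    D k I ≤ finrank k ((V k ι n).map (T b I)) + Fintype.card ι * (C + 1) := by
  rcases Nat.lt_or_ge (Fintype.card ι * (C + 1)) (D k I) with h | h
  swap
  · exact h.trans (Nat.le_add_left _ _)
  have hm : 0 < Fintype.card ι := by
    rcases Nat.eq_zero_or_pos (Fintype.card ι) with h0 | h0
    · rw [h0, zero_mul] at hn h
      omega
    · exact h0
  obtain ⟨m, hm'⟩ : ∃ m, m = Fintype.card ι := ⟨_, rfl⟩
  obtain ⟨s, hs⟩ : ∃ s, s = (D k I - 1) / m - C := ⟨_, rfl⟩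
  rw [← hm'] at h hm hn ⊢
  have h1 : m * ((D k I - 1) / m) ≤ D k I - 1 := Nat.mul_div_le _ _
  have h2 : D k I - 1 < m * ((D k I - 1) / m) + m := by
    have := Nat.lt_mul_div_succ (D k I - 1) hm
    rwa [mul_add, mul_one] at this
  have h3 : C ≤ (D k I - 1) / m := by
    rw [Nat.le_div_iff_mul_le hm, mul_comm]
    rw [mul_add] at h
    omega
  have hsC : s + C = (D k I - 1) / m := by omega
  have h4 : m * (s + C) < D k I := by
    rw [hsC]
    omega
  have h5 : D k I ≤ m * s + m * (C + 1) := by
    have : m * s + m * (C + 1) = m * ((D k I - 1) / m) + m := by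
      rw [← hsC]
      ring
    omega
  have h6 : s ≤ n := by
    by_contra hcon
    push Not at hcon
    have : m * n ≤ m * (s + C) := Nat.mul_le_mul_left _ (by omega)
    omega
  have h7 := lat (k := k) b hC hI (n := n) (j := n - s) (by omega) (by
    rw [← hm']
    have e : n - (n - s) + C = s + C := by omega
    rw [e]
    exact h4)
  rw [← hm'] at h7
  obtain ⟨hV, hVf⟩ := card_V (k := k) (ι := ι) n
  haveI := hVf
  haveI : Module.Finite k (V k ι n) := Module.Finite.of_finite
  have h9 := abs1 (V k ι n) (T b I)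
  rw [hV, ← hm'] at h9
  have h10 : finrank k (V k ι n ⊓ LinearMap.ker (T b I) : Submodule k (ι → k[X])) ≤ m * (n - s) := by
    haveI : Finite (V k ι n ⊓ LinearMap.ker (T b I) : Submodule k (ι → k[X])) :=
      Finite.of_injective (Submodule.inclusion (inf_le_left : V k ι n ⊓ LinearMap.ker (T b I) ≤ _))
        (Submodule.inclusion_injective _)
    have h11 : Nat.card (V k ι n ⊓ LinearMap.ker (T b I) : Submodule k (ι → k[X])) =
        Nat.card k ^ finrank k (V k ι n ⊓ LinearMap.ker (T b I) : Submodule k (ι → k[X])) := by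
      haveI : Module.Finite k (V k ι n ⊓ LinearMap.ker (T b I) : Submodule k (ι → k[X])) :=
        Module.Finite.of_finite
      exact Module.natCard_eq_pow_finrank
    have h12 : Nat.card (V k ι n ⊓ LinearMap.ker (T b I) : Submodule k (ι → k[X])) =
        ((bx k ι n).filter fun v => val b v ∈ I).card := by
      rw [← Nat.card_eq_finsetCard]
      refine Nat.card_congr (Equiv.subtypeEquivRight fun v => ?_)
      rw [Finset.mem_filter, ← mem_V_bx, ← T_zero (b := b)]
      exact Iff.rfl
    rw [← h12, h11] at h7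
    exact (Nat.pow_le_pow_iff_right q_gt).1 h7
  have h11 : m * (n - s) + m * s = m * n := by
    rw [← mul_add]
    congr 1
    omega
  omega

/-- The exact number. -/
theorem exact_count {C : ℕ} (hC : ∀ (n : ℕ) (v : ι → k[X]), (∀ i, (v i).natDegree ≤ n) →
      (Algebra.norm k[X] (val b v)).natDegree ≤ Fintype.card ι * (n + C))
    {I : Ideal O} (hI : I ≠ ⊥) {n : ℕ} (hn : 1 ≤ n) (hD : D k I ≤ Fintype.card ι * n) (x : O) :
    ((bx k ι (n + Fintype.card ι * (C + 1))).filter fun v => x + val b v ∈ I).card *
      Nat.card k ^ D k I = Nat.card k ^ (Fintype.card ι * (n + Fintype.card ι * (C + 1))) := by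
  obtain ⟨N, hN⟩ : ∃ N, N = n + Fintype.card ι * (C + 1) := ⟨_, rfl⟩
  have hsurj := grow b hI hn (large b hC hI hD)
  rw [← hN] at hsurj ⊢
  obtain ⟨hV, hVf⟩ := card_V (k := k) (ι := ι) N
  haveI := hVf
  haveI := fin_quot (k := k) hI
  haveI : Module.Finite k (V k ι N) := Module.Finite.of_finite
  have h9 := abs1 (V k ι N) (T b I)
  rw [hsurj, hV, finrank_top] at h9
  obtain ⟨v₀, hv₀, hv₀'⟩ : Ideal.Quotient.mk I (-x) ∈ (V k ι N).map (T b I) := by
    rw [hsurj]
    exact Submodule.mem_top
  haveI : Finite (V k ι N ⊓ LinearMap.ker (T b I) : Submodule k (ι → k[X])) :=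
    Finite.of_injective (Submodule.inclusion (inf_le_left : V k ι N ⊓ LinearMap.ker (T b I) ≤ _))
      (Submodule.inclusion_injective _)
  have h11 : Nat.card (V k ι N ⊓ LinearMap.ker (T b I) : Submodule k (ι → k[X])) =
      Nat.card k ^ finrank k (V k ι N ⊓ LinearMap.ker (T b I) : Submodule k (ι → k[X])) := by
    haveI : Module.Finite k (V k ι N ⊓ LinearMap.ker (T b I) : Submodule k (ι → k[X])) :=
      Module.Finite.of_finite
    exact Module.natCard_eq_pow_finrank
  have h10 : ((bx k ι N).filter fun v => x + val b v ∈ I).card =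
      Nat.card (V k ι N ⊓ LinearMap.ker (T b I) : Submodule k (ι → k[X])) := by
    rw [← abs2 (V k ι N) (T b I) hv₀, ← Nat.card_eq_finsetCard]
    refine Nat.card_congr (Equiv.subtypeEquivRight fun v => ?_)
    rw [Finset.mem_filter, ← mem_V_bx, hv₀']
    refine and_congr_right fun _ => ?_
    show _ ↔ Ideal.Quotient.mk I (val b v) = _
    rw [Ideal.Quotient.eq, sub_neg_eq_add, add_comm]
  rw [h10, h11, ← pow_add, add_comm, ← h9]
  rfl

end ext

end Pool.Agent.Helper28H.FE.Mert
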