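import Pool.Agent.Helper28H.FE.Mert1

/-!
# The theorem of Mertens for the primes of degree one: double counting
-/

set_option autoImplicit false
set_option linter.all false

open Polynomial Module IsDedekindDomain
open scoped Classical

namespace Pool.Agent.Helper28H.FE.Mert

open Pool.Agent.Helper28H.SP
open Pool.Agent.N874.PP (Ov exists_below)
open Pool.Agent.N490.PP.Fam (Irr Irr_finite Irr_mul_le)

variable {k : Type} [Field k] [Finite k]

theorem sum_range (M L : ℕ) (h : M ≤ L) : ∑ Q ∈ (Un k L).filter (fun Q => M < Q.natDegree),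
    (Q.natDegree : ℝ) / (Nat.card k : ℝ) ^ Q.natDegree ≤ (L : ℝ) - M := by
  have hq0 : (0 : ℝ) < Nat.card k := by exact_mod_cast (zero_lt_one.trans (q_gt (k := k)))
  have e := FF.sum_irr (k := k) L fun d => if M < d then (d : ℝ) / (Nat.card k : ℝ) ^ d else 0
  have e' : ∑ Q ∈ Un k L, (if M < Q.natDegree then (Q.natDegree : ℝ) /
      (Nat.card k : ℝ) ^ Q.natDegree else 0) =
    ∑ d ∈ Finset.Icc 1 L, ((Irr k d).ncard : ℝ) *
      (if M < d then (d : ℝ) / (Nat.card k : ℝ) ^ d else 0) := e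
  rw [Finset.sum_filter, e']
  have h5 : ∀ d ∈ Finset.Icc 1 L, ((Irr k d).ncard : ℝ) *
      (if M < d then (d : ℝ) / (Nat.card k : ℝ) ^ d else 0) ≤ if M < d then 1 else 0 := by
    intro d hd
    split_ifs with h1
    · have hd1 := (Finset.mem_Icc.1 hd).1
      have h6 := Irr_mul_le (k := k) hd1
      have h7 : (d : ℝ) * (Irr k d).ncard ≤ (Nat.card k : ℝ) ^ d := by exact_mod_cast h6
      rw [← mul_div_assoc, div_le_one (by positivity)]
      linarith
    · rw [mul_zero]
  refine (Finset.sum_le_sum h5).trans ?_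
  rw [← Finset.sum_filter, Finset.sum_const, nsmul_eq_mul, mul_one]
  have h6 : ((Finset.Icc 1 L).filter fun d => M < d) ⊆ Finset.Ioc M L := by
    intro d hd
    rw [Finset.mem_filter, Finset.mem_Icc] at hd
    exact Finset.mem_Ioc.2 ⟨hd.2, hd.1.2⟩
  have h7 := Finset.card_le_card h6
  rw [Nat.card_Ioc] at h7
  have h8 : (((Finset.Icc 1 L).filter fun d => M < d).card : ℝ) ≤ ((L - M : ℕ) : ℝ) := by
    exact_mod_cast h7
  rwa [Nat.cast_sub h] at h8

theorem geo2 {x : ℝ} (h0 : 0 ≤ x) (h1 : x ≤ 1 / 2) (L : ℕ) :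
    ∑ j ∈ Finset.Icc 2 L, x ^ j ≤ 2 * x ^ 2 := by
  have h2 : ∑ j ∈ Finset.Icc 2 L, x ^ j ≤ x * ∑ j ∈ Finset.Icc 1 L, x ^ j := by
    rw [Finset.mul_sum]
    have e : ∑ j ∈ Finset.Icc 2 L, x ^ j = ∑ j ∈ (Finset.Icc 2 L).image (fun j => j - 1),
        x * x ^ j := by
      rw [Finset.sum_image]
      · refine Finset.sum_congr rfl fun j hj => ?_
        have := (Finset.mem_Icc.1 hj).1
        rw [← pow_succ']
        congr 1
        omega
      · intro i hi j hj h
        have h3 := (Finset.mem_Icc.1 hi).1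
        have h4 := (Finset.mem_Icc.1 hj).1
        have h5 : i - 1 = j - 1 := h
        omega
    rw [e]
    refine Finset.sum_le_sum_of_subset_of_nonneg (fun j hj => ?_) fun j _ _ => by positivity
    obtain ⟨i, hi, rfl⟩ := Finset.mem_image.1 hj
    have h3 := Finset.mem_Icc.1 hi
    exact Finset.mem_Icc.2 ⟨by omega, by omega⟩
  refine h2.trans ?_
  have := geo h0 h1 L
  nlinarith

section ext

variable {O : Type} [CommRing O] [IsDedekindDomain O] [Algebra k[X] O] [Algebra k O]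
  [IsScalarTower k k[X] O] [Module.Finite k[X] O] {ι : Type} [Fintype ι] (b : Basis ι k[X] O)

include b in
theorem one_fin {Q : k[X]} (hQ : Irreducible Q) :
    {w : HeightOneSpectrum O | One Q w}.Finite ∧
      {w : HeightOneSpectrum O | One Q w}.ncard ≤ Fintype.card ι := by
  have h0 : ∀ V : Finset (HeightOneSpectrum O), (∀ w ∈ V, One Q w) → V.card ≤ Fintype.card ι := by
    intro V hV
    have h1 := sum_over b hQ.ne_zero V fun w hw => (hV w hw).1
    have h2 : ∀ w ∈ V, Q.natDegree ≤ D k w.asIdeal := by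
      intro w hw
      obtain ⟨f, hf1, hf2, -⟩ := D_over hQ w (hV w hw).1
      rw [hf2]
      exact Nat.le_mul_of_pos_right _ hf1
    have h3 := Finset.card_nsmul_le_sum V _ _ h2
    rw [smul_eq_mul] at h3
    exact Nat.le_of_mul_le_mul_right (h3.trans h1) hQ.natDegree_pos
  have h1 : {w : HeightOneSpectrum O | One Q w}.Finite := by
    by_contra hcon
    obtain ⟨V, hV, hc⟩ := Set.Infinite.exists_subset_card_eq hcon (Fintype.card ι + 1)
    have := h0 V fun w hw => hV hw
    omega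
  refine ⟨h1, ?_⟩
  rw [Set.ncard_eq_toFinset_card _ h1]
  exact h0 _ fun w hw => h1.mem_toFinset.1 hw

/-- The sum. -/
noncomputable def S (O : Type) [CommRing O] [IsDedekindDomain O] [Algebra k[X] O] (n : ℕ) : ℝ :=
  ∑ Q ∈ Un k n, (Q.natDegree : ℝ) / (Nat.card k : ℝ) ^ Q.natDegree *
    ({w : HeightOneSpectrum O | One Q w}.ncard : ℝ)

omit [Algebra k O] [IsScalarTower k k[X] O] [Module.Finite k[X] O] in
theorem S_mono {n n' : ℕ} (h : n ≤ n') : S (k := k) O n ≤ S (k := k) O n' := by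
  unfold S
  refine Finset.sum_le_sum_of_subset_of_nonneg (fun Q hQ => ?_) fun Q _ _ => by positivity
  rw [mem_Un] at hQ ⊢
  exact ⟨hQ.1, hQ.2.1, hQ.2.2.trans h⟩

include b in
/-- A product of distinct primes which divide a principal ideal. -/
theorem sum_div {a : O} (ha : a ≠ 0) (W : Finset (HeightOneSpectrum O)) :
    ∑ w ∈ W, (if a ∈ w.asIdeal then D k w.asIdeal else 0) ≤ D k (Ideal.span {a}) := by
  haveI := inf_O b
  rw [← Finset.sum_filter]
  obtain ⟨V, hV⟩ : ∃ V, V = W.filter fun w => a ∈ w.asIdeal := ⟨_, rfl⟩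
  rw [← hV]
  have h2 : ∏ I ∈ V.image (fun w => w.asIdeal), I ∣ Ideal.span {a} := by
    refine Finset.prod_primes_dvd _ (fun I hI => ?_) fun I hI => ?_
    · obtain ⟨w, -, rfl⟩ := Finset.mem_image.1 hI
      exact Ideal.prime_of_isPrime w.ne_bot w.isPrime
    · obtain ⟨w, hw, rfl⟩ := Finset.mem_image.1 hI
      rw [Ideal.dvd_span_singleton]
      rw [hV, Finset.mem_filter] at hw
      exact hw.2
  rw [Finset.prod_image (fun w _ w' _ e => HeightOneSpectrum.ext e)] at h2
  have h3 := D_prod (k := k) (V.val.map fun w => w.asIdeal) (by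
    intro I hI
    obtain ⟨w, -, rfl⟩ := Multiset.mem_map.1 hI
    exact w.ne_bot)
  have h4 : (V.val.map fun w => w.asIdeal).prod = ∏ w ∈ V, w.asIdeal := rfl
  rw [h4, Multiset.map_map] at h3
  have h5 : (Multiset.map (D k ∘ fun w : HeightOneSpectrum O => w.asIdeal) V.val).sum =
      ∑ w ∈ V, D k w.asIdeal := rfl
  rw [h5] at h3
  rw [← h3.2]
  exact D_le_of_le (Ideal.dvd_iff_le.1 h2) fun h0 => ha (Ideal.span_singleton_eq_bot.1 h0)

include b in
theorem D_one_eq {Q : k[X]} (hQ : Irreducible Q) {w : HeightOneSpectrum O} (h : One Q w) :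
    D k w.asIdeal = Q.natDegree := by
  haveI hmax : (Ideal.span {Q} : Ideal k[X]).IsMaximal :=
    PrincipalIdealRing.isMaximal_of_irreducible hQ
  haveI := fin_quot (k := k) w.ne_bot
  obtain ⟨hfin, hcard⟩ := FF.card_quot hQ
  haveI := hfin
  obtain ⟨f, hf1, hf2, -⟩ := D_over hQ w h.1
  refine le_antisymm ?_ (by rw [hf2]; exact Nat.le_mul_of_pos_right _ hf1)
  let ψ : (k[X] ⧸ Ideal.span {Q}) →+* (O ⧸ w.asIdeal) :=
    Ideal.Quotient.lift (Ideal.span {Q}) ((Ideal.Quotient.mk w.asIdeal).comp (algebraMap k[X] O))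
      (fun a ha => by
        obtain ⟨c, rfl⟩ := Ideal.mem_span_singleton.1 ha
        rw [RingHom.comp_apply, Ideal.Quotient.eq_zero_iff_mem, map_mul]
        exact w.asIdeal.mul_mem_right _ h.1)
  have hψ : Function.Surjective ψ := by
    intro z
    obtain ⟨y, rfl⟩ := Ideal.Quotient.mk_surjective z
    obtain ⟨c, hc⟩ := h.2 y
    refine ⟨Ideal.Quotient.mk _ c, ?_⟩
    show Ideal.Quotient.mk w.asIdeal (algebraMap k[X] O c) = _
    rw [eq_comm, Ideal.Quotient.eq]
    exact hc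
  have h1 := Nat.card_le_card_of_surjective ψ hψ
  have h2 := card_eq (k := k) w.ne_bot
  rw [Submodule.cardQuot_apply] at h2
  rw [h2, hcard, Pool.Agent.N874.PP.nm] at h1
  exact (Nat.pow_le_pow_iff_right q_gt).1 h1

/-- The upper bound. -/
theorem upper {C : ℕ} {n : ℕ}
    (hA : ∀ v ∈ bx k ι n, algebraMap k[X] O (X ^ (n + C)) + val b v ≠ 0 ∧
      D k (Ideal.span {algebraMap k[X] O (X ^ (n + C)) + val b v}) = Fintype.card ι * (n + C))
    {M : ℕ} (hE : ∀ I : Ideal O, I ≠ ⊥ → D k I ≤ M →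
      ((bx k ι n).filter fun v => algebraMap k[X] O (X ^ (n + C)) + val b v ∈ I).card *
        Nat.card k ^ D k I = Nat.card k ^ (Fintype.card ι * n)) :
    S (k := k) O M ≤ ((Fintype.card ι * (n + C) : ℕ) : ℝ) := by
  have hq0 : (0 : ℝ) < Nat.card k := by exact_mod_cast (zero_lt_one.trans (q_gt (k := k)))
  have hfin : ∀ Q ∈ Un k M, {w : HeightOneSpectrum O | One Q w}.Finite := fun Q hQ =>
    (one_fin b (mem_Un.1 hQ).2.1).1
  let W1 : k[X] → Finset (HeightOneSpectrum O) := fun Q =>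
    if hQ : Q ∈ Un k M then (hfin Q hQ).toFinset else ∅
  have hW1 : ∀ Q ∈ Un k M, ∀ w, w ∈ W1 Q ↔ One Q w := by
    intro Q hQ w
    have e : W1 Q = (hfin Q hQ).toFinset := dif_pos hQ
    rw [e, Set.Finite.mem_toFinset]
    exact Iff.rfl
  have hcard : ∀ Q ∈ Un k M, ({w : HeightOneSpectrum O | One Q w}.ncard : ℝ) = (W1 Q).card := by
    intro Q hQ
    have e : W1 Q = (hfin Q hQ).toFinset := dif_pos hQ
    rw [e, Set.ncard_eq_toFinset_card _ (hfin Q hQ)]
  obtain ⟨W, hW⟩ : ∃ W, W = (Un k M).biUnion W1 := ⟨_, rfl⟩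
  have hdisj : ∀ Q ∈ Un k M, ∀ Q' ∈ Un k M, Q ≠ Q' → Disjoint (W1 Q) (W1 Q') := by
    intro Q hQ Q' hQ' hne
    rw [Finset.disjoint_left]
    intro w hw hw'
    rw [hW1 Q hQ] at hw
    rw [hW1 Q' hQ'] at hw'
    exact hne (Pool.Agent.N874.PP.below_unique (mem_Un.1 hQ).1 (mem_Un.1 hQ).2.1
      (mem_Un.1 hQ').1 (mem_Un.1 hQ').2.1 hw.1 hw'.1)
  have h1 : S (k := k) O M = ∑ w ∈ W, (D k w.asIdeal : ℝ) / (Nat.card k : ℝ) ^ D k w.asIdeal := by
    rw [hW, Finset.sum_biUnion fun Q hQ Q' hQ' hne => hdisj Q hQ Q' hQ' hne]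
    unfold S
    refine Finset.sum_congr rfl fun Q hQ => ?_
    rw [hcard Q hQ, mul_comm, ← nsmul_eq_mul, ← Finset.sum_const]
    refine Finset.sum_congr rfl fun w hw => ?_
    rw [D_one_eq b (mem_Un.1 hQ).2.1 ((hW1 Q hQ w).1 hw)]
  have h2 : ∀ w ∈ W, (D k w.asIdeal : ℝ) / (Nat.card k : ℝ) ^ D k w.asIdeal *
      (Nat.card k : ℝ) ^ (Fintype.card ι * n) = (D k w.asIdeal : ℝ) *
      ((bx k ι n).filter fun v => algebraMap k[X] O (X ^ (n + C)) + val b v ∈ w.asIdeal).card := by
    intro w hw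
    rw [hW, Finset.mem_biUnion] at hw
    obtain ⟨Q, hQ, hw⟩ := hw
    have h3 : D k w.asIdeal ≤ M := by
      rw [D_one_eq b (mem_Un.1 hQ).2.1 ((hW1 Q hQ w).1 hw)]
      exact (mem_Un.1 hQ).2.2
    have h4 := hE w.asIdeal w.ne_bot h3
    have h5 : (((bx k ι n).filter fun v =>
        algebraMap k[X] O (X ^ (n + C)) + val b v ∈ w.asIdeal).card : ℝ) *
        (Nat.card k : ℝ) ^ D k w.asIdeal = (Nat.card k : ℝ) ^ (Fintype.card ι * n) := by
      exact_mod_cast h4
    rw [← h5]
    field_simp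
  have h3 : S (k := k) O M * (Nat.card k : ℝ) ^ (Fintype.card ι * n) ≤
      ((Fintype.card ι * (n + C) : ℕ) : ℝ) * (Nat.card k : ℝ) ^ (Fintype.card ι * n) := by
    rw [h1, Finset.sum_mul, Finset.sum_congr rfl h2]
    have h4 : ∑ v ∈ bx k ι n, ∑ w ∈ W,
        (if algebraMap k[X] O (X ^ (n + C)) + val b v ∈ w.asIdeal then D k w.asIdeal else 0) ≤
        (bx k ι n).card * (Fintype.card ι * (n + C)) := by
      rw [← smul_eq_mul, ← Finset.sum_const]
      refine Finset.sum_le_sum fun v hv => ?_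
      obtain ⟨h5, h6⟩ := hA v hv
      rw [← h6]
      exact sum_div b h5 W
    rw [Finset.sum_comm, card_bx] at h4
    have h5 : ∀ w ∈ W, ∑ v ∈ bx k ι n,
        (if algebraMap k[X] O (X ^ (n + C)) + val b v ∈ w.asIdeal then D k w.asIdeal else 0) =
        D k w.asIdeal * ((bx k ι n).filter fun v =>
          algebraMap k[X] O (X ^ (n + C)) + val b v ∈ w.asIdeal).card := by
      intro w _
      rw [← Finset.sum_filter, Finset.sum_const, smul_eq_mul, mul_comm]
    rw [Finset.sum_congr rfl h5] at h4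
    rw [mul_comm ((Fintype.card ι * (n + C) : ℕ) : ℝ)]
    exact_mod_cast h4
  exact le_of_mul_le_mul_right h3 (by positivity)

include b in
/-- The lower bound. -/
theorem lower {C : ℕ} {n : ℕ}
    (hA : ∀ v ∈ bx k ι n, algebraMap k[X] O (X ^ (n + C)) + val b v ≠ 0 ∧
      D k (Ideal.span {algebraMap k[X] O (X ^ (n + C)) + val b v}) = Fintype.card ι * (n + C))
    (hU : ∀ I : Ideal O, I ≠ ⊥ →
      ((bx k ι n).filter fun v => algebraMap k[X] O (X ^ (n + C)) + val b v ∈ I).card *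
        Nat.card k ^ D k I ≤ Nat.card k ^ (Fintype.card ι * (n + C) + Fintype.card ι))
    {M : ℕ} (hM : M ≤ Fintype.card ι * (n + C)) (hE : ∀ I : Ideal O, I ≠ ⊥ → D k I ≤ M →
      ((bx k ι n).filter fun v => algebraMap k[X] O (X ^ (n + C)) + val b v ∈ I).card *
        Nat.card k ^ D k I = Nat.card k ^ (Fintype.card ι * n)) :
    ((Fintype.card ι * (n + C) : ℕ) : ℝ) ≤ S (k := k) O M +
      (Nat.card k : ℝ) ^ (Fintype.card ι * C + Fintype.card ι) * Fintype.card ι *
        (3 + (((Fintype.card ι * (n + C) : ℕ) : ℝ) - M)) := by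
  haveI := inf_O b
  have hq := q_gt (k := k)
  have hq2 : (2 : ℝ) ≤ Nat.card k := by exact_mod_cast hq
  have hq0 : (0 : ℝ) < Nat.card k := by linarith
  obtain ⟨m, hm⟩ : ∃ m, m = Fintype.card ι := ⟨_, rfl⟩
  rw [← hm] at hA hU hM hE ⊢
  obtain ⟨L, hL⟩ : ∃ L, L = m * (n + C) := ⟨_, rfl⟩
  rw [← hL] at hA hU hM ⊢
  let a : (ι → k[X]) → O := fun v => algebraMap k[X] O (X ^ (n + C)) + val b v
  have hfin : ∀ v ∈ bx k ι n, {w : HeightOneSpectrum O | a v ∈ w.asIdeal}.Finite := by
    intro v hv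
    haveI := hfq (k := k)
    haveI := Ring.HasFiniteQuotients.of_module_finite k[X] O
    have h3 := Ring.HasFiniteQuotients.finite_setOfPred_mem (a v) (hA v hv).1
    exact h3.of_injOn (f := fun w : HeightOneSpectrum O => w.asIdeal) (fun w hw => hw)
      (fun w _ w' _ h => HeightOneSpectrum.ext h)
  let Wv : (ι → k[X]) → Finset (HeightOneSpectrum O) := fun v =>
    if hv : v ∈ bx k ι n then (hfin v hv).toFinset else ∅
  have hWv : ∀ v ∈ bx k ι n, ∀ w, w ∈ Wv v ↔ a v ∈ w.asIdeal := by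
    intro v hv w
    have e : Wv v = (hfin v hv).toFinset := dif_pos hv
    rw [e, Set.Finite.mem_toFinset]
    exact Iff.rfl
  obtain ⟨W, hW⟩ : ∃ W, W = (bx k ι n).biUnion Wv := ⟨_, rfl⟩
  have hspan : ∀ (I : Ideal O) (v : ι → k[X]), Ideal.span {a v} ≤ I ↔ a v ∈ I := by
    intro I v
    rw [Ideal.span_le, Set.singleton_subset_iff]
    exact Iff.rfl
  have hdec : ∀ v ∈ bx k ι n, L ≤ ∑ w ∈ W, D k w.asIdeal *
      ((Finset.Icc 1 L).filter fun j => a v ∈ w.asIdeal ^ j).card := by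
    intro v hv
    obtain ⟨h3, h4⟩ := hA v hv
    have h5 := D_fac (k := k) (I := Ideal.span {a v}) (L := L)
      (fun h => h3 (Ideal.span_singleton_eq_bot.1 h)) h4.le W (fun w hw => ?_)
    · rw [h4] at h5
      refine h5.trans (le_of_eq ?_)
      refine Finset.sum_congr rfl fun w _ => ?_
      congr 2
      ext j
      simp only [Finset.mem_filter, hspan]
    · rw [hW, Finset.mem_biUnion]
      exact ⟨v, hv, (hWv v hv w).2 ((hspan _ _).1 hw)⟩
  have hcw : ∀ (w : HeightOneSpectrum O) (j : ℕ),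
      (((bx k ι n).filter fun v => a v ∈ w.asIdeal ^ j).card : ℝ) ≤
        (Nat.card k : ℝ) ^ (L + m) * ((1 / (Nat.card k : ℝ) ^ D k w.asIdeal) ^ j) := by
    intro w j
    have h3 := hU (w.asIdeal ^ j) (by
      have := w.ne_bot
      rw [← Ideal.zero_eq_bot] at this ⊢
      exact pow_ne_zero j this)
    rw [D_pow w.ne_bot] at h3
    have h4 : (((bx k ι n).filter fun v => a v ∈ w.asIdeal ^ j).card : ℝ) *
        (Nat.card k : ℝ) ^ (j * D k w.asIdeal) ≤ (Nat.card k : ℝ) ^ (L + m) := by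
      exact_mod_cast h3
    rw [one_div, inv_pow, ← pow_mul, mul_comm (D k w.asIdeal) j, ← div_eq_mul_inv,
      le_div_iff₀ (by positivity)]
    exact h4
  have hDL : ∀ w ∈ W, D k w.asIdeal ≤ L := by
    intro w hw
    rw [hW, Finset.mem_biUnion] at hw
    obtain ⟨v, hv, hw⟩ := hw
    rw [hWv v hv] at hw
    obtain ⟨h3, h4⟩ := hA v hv
    rw [← h4]
    exact D_le_of_le ((hspan _ _).2 hw) fun h => h3 (Ideal.span_singleton_eq_bot.1 h)
  obtain ⟨A, hAd⟩ : ∃ A : ℝ, A = (Nat.card k : ℝ) ^ (m * C + m) := ⟨_, rfl⟩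
  have hA1 : 0 ≤ A := by rw [hAd]; positivity
  have h6 : (Nat.card k : ℝ) ^ (L + m) = (Nat.card k : ℝ) ^ (m * n) * A := by
    rw [hAd, ← pow_add, hL]
    congr 1
    ring
  -- the double counting
  have h3 : ((bx k ι n).card : ℝ) * L ≤ ∑ w ∈ W, (D k w.asIdeal : ℝ) *
      ∑ j ∈ Finset.Icc 1 L, (((bx k ι n).filter fun v => a v ∈ w.asIdeal ^ j).card : ℝ) := by
    have h4 : (bx k ι n).card * L ≤ ∑ v ∈ bx k ι n, ∑ w ∈ W, D k w.asIdeal *
        ((Finset.Icc 1 L).filter fun j => a v ∈ w.asIdeal ^ j).card := by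
      rw [← smul_eq_mul, ← Finset.sum_const]
      exact Finset.sum_le_sum hdec
    rw [Finset.sum_comm] at h4
    have h5 : ∀ w ∈ W, ∑ v ∈ bx k ι n, D k w.asIdeal *
        ((Finset.Icc 1 L).filter fun j => a v ∈ w.asIdeal ^ j).card =
        D k w.asIdeal * ∑ j ∈ Finset.Icc 1 L,
          ((bx k ι n).filter fun v => a v ∈ w.asIdeal ^ j).card := by
      intro w _
      rw [← Finset.mul_sum]
      congr 1
      simp only [Finset.card_filter]
      rw [Finset.sum_comm]
    rw [Finset.sum_congr rfl h5] at h4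
    exact_mod_cast h4
  haveI : Algebra.IsIntegral k[X] O := Algebra.IsIntegral.of_finite _ _
  choose Qf hQf using fun w : HeightOneSpectrum O => exists_below (k := k) w
  have hDge : ∀ w ∈ W, (Qf w).natDegree ≤ D k w.asIdeal := by
    intro w _
    obtain ⟨f, hf1, hf2, -⟩ := D_over (hQf w).2.1 w (hQf w).2.2
    rw [hf2]
    exact Nat.le_mul_of_pos_right _ hf1
  have hmaps : ∀ w ∈ W, Qf w ∈ Un k L := by
    intro w hw
    exact mem_Un.2 ⟨(hQf w).1, (hQf w).2.1, (hDge w hw).trans (hDL w hw)⟩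
  -- the estimate of one term
  have h4 : ∀ w ∈ W, (D k w.asIdeal : ℝ) * ∑ j ∈ Finset.Icc 1 L,
      (((bx k ι n).filter fun v => a v ∈ w.asIdeal ^ j).card : ℝ) ≤
      (Nat.card k : ℝ) ^ (m * n) *
        ((if One (Qf w) w then ((Qf w).natDegree : ℝ) / (Nat.card k : ℝ) ^ (Qf w).natDegree *
          (if M < (Qf w).natDegree then A else 1) else 0) +
        (D k w.asIdeal : ℝ) * (3 * A / (Nat.card k : ℝ) ^ (2 * (Qf w).natDegree))) := by
    intro w hw
    obtain ⟨D', hD'⟩ : ∃ D', D' = D k w.asIdeal := ⟨_, rfl⟩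
    obtain ⟨d, hd⟩ : ∃ d, d = (Qf w).natDegree := ⟨_, rfl⟩
    obtain ⟨x, hx⟩ : ∃ x : ℝ, x = 1 / (Nat.card k : ℝ) ^ D' := ⟨_, rfl⟩
    have hD1 : 1 ≤ D' := by
      rw [hD']
      exact D_pos (k := k) w.ne_bot w.isPrime.ne_top
    have hL1 : 1 ≤ L := hD1.trans (by rw [hD']; exact hDL w hw)
    have hx0 : (0 : ℝ) ≤ x := by rw [hx]; positivity
    have hx1 : x ≤ 1 / 2 := by
      rw [hx]
      refine div_le_div_of_nonneg_left (by norm_num) (by norm_num) ?_
      calc (2 : ℝ) ≤ (Nat.card k : ℝ) ^ 1 := by rw [pow_one]; exact hq2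
        _ ≤ _ := pow_le_pow_right₀ (by linarith) hD1
    obtain ⟨c, hc⟩ : ∃ c : ℕ → ℝ, c = fun j =>
      (((bx k ι n).filter fun v => a v ∈ w.asIdeal ^ j).card : ℝ) := ⟨_, rfl⟩
    have hcj : ∀ j, c j ≤ (Nat.card k : ℝ) ^ (m * n) * (A * x ^ j) := by
      intro j
      have := hcw w j
      rw [h6, ← hD', ← hx] at this
      rw [hc, ← mul_assoc]
      exact this
    have e0 : ∑ j ∈ Finset.Icc 1 L, (((bx k ι n).filter fun v => a v ∈ w.asIdeal ^ j).card : ℝ) =
        c 1 + ∑ j ∈ Finset.Icc 2 L, c j := by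
      have e1 : Finset.Icc 1 L = insert 1 (Finset.Icc 2 L) := by
        ext j
        rw [Finset.mem_insert, Finset.mem_Icc, Finset.mem_Icc]
        omega
      rw [e1, Finset.sum_insert (by rw [Finset.mem_Icc]; omega), hc]
    have h2s : ∑ j ∈ Finset.Icc 2 L, c j ≤ (Nat.card k : ℝ) ^ (m * n) * (A * (2 * x ^ 2)) := by
      refine (Finset.sum_le_sum fun j _ => hcj j).trans ?_
      rw [← Finset.mul_sum, ← Finset.mul_sum]
      have := geo2 hx0 hx1 L
      gcongr
    rw [e0, ← hD', ← hd]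
    have hDd : (Nat.card k : ℝ) ^ (m * n) * (A * x ^ 2) ≤
        (Nat.card k : ℝ) ^ (m * n) * (A / (Nat.card k : ℝ) ^ (2 * d)) := by
      rw [hx, one_div, inv_pow, ← pow_mul, div_eq_mul_inv]
      have h7 : (Nat.card k : ℝ) ^ (2 * d) ≤ (Nat.card k : ℝ) ^ (D' * 2) := by
        refine pow_le_pow_right₀ (by linarith) ?_
        rw [hD', hd, mul_comm]
        exact Nat.mul_le_mul_right _ (hDge w hw)
      gcongr
    obtain ⟨q', hq'⟩ : ∃ q' : ℝ, q' = (Nat.card k : ℝ) ^ (m * n) := ⟨_, rfl⟩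
    have hq'0 : 0 < q' := by rw [hq']; positivity
    rw [← hq'] at hcj h2s hDd ⊢
    have hD0 : (0 : ℝ) ≤ D' := Nat.cast_nonneg _
    have h3A : (3 * A / (Nat.card k : ℝ) ^ (2 * d)) = 3 * (A / (Nat.card k : ℝ) ^ (2 * d)) := by
      ring
    have hAq : 0 ≤ A / (Nat.card k : ℝ) ^ (2 * d) := by positivity
    rw [h3A]
    obtain ⟨Y, hY⟩ : ∃ Y : ℝ, Y = A / (Nat.card k : ℝ) ^ (2 * d) := ⟨_, rfl⟩
    rw [← hY] at hDd hAq ⊢
    have h2s' : ∑ j ∈ Finset.Icc 2 L, c j ≤ q' * (2 * Y) := by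
      refine h2s.trans ?_
      nlinarith
    by_cases hone : One (Qf w) w
    · rw [if_pos hone]
      have hDe : D' = d := by
        rw [hD', hd]
        exact D_one_eq b (hQf w).2.1 hone
      rw [← hDe]
      split_ifs with hMd
      · have h8 := hcj 1
        rw [pow_one] at h8
        have h9 : c 1 + ∑ j ∈ Finset.Icc 2 L, c j ≤ q' * (A * x) + q' * (3 * Y) := by
          nlinarith [mul_nonneg hq'0.le hAq]
        refine (mul_le_mul_of_nonneg_left h9 hD0).trans (le_of_eq ?_)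
        rw [hx]
        ring
      · have h8 := hE w.asIdeal w.ne_bot (by
          rw [← hD']
          exact not_lt.1 hMd)
        have h9 : c 1 * (Nat.card k : ℝ) ^ D' = q' := by
          rw [hc, hq', hD']
          simp only [pow_one]
          exact_mod_cast h8
        have h10 : c 1 = q' * x := by
          rw [hx, ← h9]
          field_simp
        have h9 : c 1 + ∑ j ∈ Finset.Icc 2 L, c j ≤ q' * x + q' * (3 * Y) := by
          rw [h10]
          nlinarith [mul_nonneg hq'0.le hAq]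
        refine (mul_le_mul_of_nonneg_left h9 hD0).trans (le_of_eq ?_)
        rw [hx]
        ring
    · rw [if_neg hone, zero_add]
      obtain ⟨f, hf1, hf2, hf3⟩ := D_over (hQf w).2.1 w (hQf w).2.2
      have hf : 2 ≤ f := by
        by_contra hcon
        exact hone ⟨(hQf w).2.2, hf3 (by omega)⟩
      have h8 : c 1 + ∑ j ∈ Finset.Icc 2 L, c j ≤ q' * (A * (2 * x)) := by
        have h9 : c 1 + ∑ j ∈ Finset.Icc 2 L, c j ≤ ∑ j ∈ Finset.Icc 1 L, q' * (A * x ^ j) := by
          have e1 : Finset.Icc 1 L = insert 1 (Finset.Icc 2 L) := by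
            ext j
            rw [Finset.mem_insert, Finset.mem_Icc, Finset.mem_Icc]
            omega
          rw [e1, Finset.sum_insert (by rw [Finset.mem_Icc]; omega)]
          exact add_le_add (hcj 1) (Finset.sum_le_sum fun j _ => hcj j)
        refine h9.trans ?_
        rw [← Finset.mul_sum, ← Finset.mul_sum]
        have := geo hx0 hx1 L
        gcongr
      have h9 : A * x ≤ Y := by
        have e9 : A / (Nat.card k : ℝ) ^ (2 * d) = A * (1 / (Nat.card k : ℝ) ^ (2 * d)) := by ring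
        rw [hY, hx, e9]
        refine mul_le_mul_of_nonneg_left ?_ hA1
        refine div_le_div_of_nonneg_left (by norm_num) (by positivity) ?_
        refine pow_le_pow_right₀ (by linarith) ?_
        rw [hD', hf2, hd, mul_comm]
        exact Nat.mul_le_mul_left _ hf
      have h10 : q' * (A * (2 * x)) ≤ q' * (3 * Y) := by
        have h11 : A * (2 * x) ≤ 3 * Y := by linarith
        exact mul_le_mul_of_nonneg_left h11 hq'0.le
      refine (mul_le_mul_of_nonneg_left (h8.trans h10) hD0).trans (le_of_eq ?_)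
      ring
  have h5 := h3.trans (Finset.sum_le_sum h4)
  rw [← Finset.mul_sum, card_bx, ← hm] at h5
  push_cast at h5
  have h7 := le_of_mul_le_mul_left h5 (by positivity)
  refine h7.trans ?_
  rw [← Finset.sum_fiberwise_of_maps_to hmaps]
  have h8 : ∀ Q ∈ Un k L, ∑ w ∈ W.filter (fun w => Qf w = Q),
      ((if One (Qf w) w then ((Qf w).natDegree : ℝ) / (Nat.card k : ℝ) ^ (Qf w).natDegree *
          (if M < (Qf w).natDegree then A else 1) else 0) +
        (D k w.asIdeal : ℝ) * (3 * A / (Nat.card k : ℝ) ^ (2 * (Qf w).natDegree))) ≤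
      ((if M < Q.natDegree then 0 else (Q.natDegree : ℝ) / (Nat.card k : ℝ) ^ Q.natDegree *
        ({w : HeightOneSpectrum O | One Q w}.ncard : ℝ)) +
        (if M < Q.natDegree then A * m * ((Q.natDegree : ℝ) / (Nat.card k : ℝ) ^ Q.natDegree)
          else 0)) +
        3 * A * m * ((Q.natDegree : ℝ) / (Nat.card k : ℝ) ^ (2 * Q.natDegree)) := by
    intro Q hQ
    obtain ⟨hQm, hQi, -⟩ := mem_Un.1 hQ
    obtain ⟨F, hF⟩ : ∃ F, F = W.filter (fun w => Qf w = Q) := ⟨_, rfl⟩
    have hFQ : ∀ w ∈ F, Qf w = Q := fun w hw => by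
      rw [hF] at hw
      exact (Finset.mem_filter.1 hw).2
    rw [← hF]
    rw [Finset.sum_congr rfl fun w hw => by rw [hFQ w hw], Finset.sum_add_distrib]
    refine add_le_add ?_ ?_
    · rw [← Finset.sum_filter, Finset.sum_const, nsmul_eq_mul]
      obtain ⟨h12, h13⟩ := one_fin (O := O) b hQi
      have h14 : ((F.filter fun w => One Q w).card : ℝ) ≤
          ({w : HeightOneSpectrum O | One Q w}.ncard : ℝ) := by
        rw [Set.ncard_eq_toFinset_card _ h12]
        have : (F.filter fun w => One Q w) ⊆ h12.toFinset := fun w hw =>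
          h12.mem_toFinset.2 (Finset.mem_filter.1 hw).2
        exact_mod_cast Finset.card_le_card this
      have h15 : ({w : HeightOneSpectrum O | One Q w}.ncard : ℝ) ≤ m := by
        rw [hm]
        exact_mod_cast h13
      have h16 : (0 : ℝ) ≤ (Q.natDegree : ℝ) / (Nat.card k : ℝ) ^ Q.natDegree := by positivity
      split_ifs with hMd
      · rw [zero_add]
        have h17 := h14.trans h15
        have h18 : 0 ≤ (Q.natDegree : ℝ) / (Nat.card k : ℝ) ^ Q.natDegree * A :=
          mul_nonneg h16 hA1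
        refine (mul_le_mul_of_nonneg_right h17 h18).trans (le_of_eq ?_)
        ring
      · rw [add_zero, mul_one, mul_comm]
        exact mul_le_mul_of_nonneg_left h14 h16
    · rw [← Finset.sum_mul]
      have h12 : (∑ w ∈ F, (D k w.asIdeal : ℝ)) ≤ m * Q.natDegree := by
        have := sum_over b hQi.ne_zero F (fun w hw => by
          rw [← hFQ w hw]
          exact (hQf w).2.2)
        rw [← hm] at this
        exact_mod_cast this
      have h13 : 0 ≤ 3 * A / (Nat.card k : ℝ) ^ (2 * Q.natDegree) := by positivity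
      refine (mul_le_mul_of_nonneg_right h12 h13).trans (le_of_eq ?_)
      ring
  refine (Finset.sum_le_sum h8).trans ?_
  rw [Finset.sum_add_distrib, Finset.sum_add_distrib]
  have h9 : ∑ Q ∈ Un k L, (if M < Q.natDegree then 0 else (Q.natDegree : ℝ) /
      (Nat.card k : ℝ) ^ Q.natDegree * ({w : HeightOneSpectrum O | One Q w}.ncard : ℝ)) ≤
      S (k := k) O M := by
    unfold S
    have e : ∀ Q : k[X], (if M < Q.natDegree then 0 else (Q.natDegree : ℝ) /
        (Nat.card k : ℝ) ^ Q.natDegree * ({w : HeightOneSpectrum O | One Q w}.ncard : ℝ)) =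
        (if ¬ M < Q.natDegree then (Q.natDegree : ℝ) /
        (Nat.card k : ℝ) ^ Q.natDegree * ({w : HeightOneSpectrum O | One Q w}.ncard : ℝ) else 0) :=
      fun Q => by split_ifs <;> rfl
    simp only [e]
    rw [← Finset.sum_filter]
    refine Finset.sum_le_sum_of_subset_of_nonneg (fun Q hQ => ?_) fun Q _ _ => by positivity
    rw [Finset.mem_filter, mem_Un] at hQ
    exact mem_Un.2 ⟨hQ.1.1, hQ.1.2.1, not_lt.1 hQ.2⟩
  have h10 : ∑ Q ∈ Un k L, (if M < Q.natDegree then A * m * ((Q.natDegree : ℝ) /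
      (Nat.card k : ℝ) ^ Q.natDegree) else 0) ≤ A * m * ((L : ℝ) - M) := by
    rw [← Finset.sum_filter, ← Finset.mul_sum]
    exact mul_le_mul_of_nonneg_left (sum_range M L hM) (by positivity)
  have h11 : ∑ Q ∈ Un k L, 3 * A * m * ((Q.natDegree : ℝ) / (Nat.card k : ℝ) ^ (2 * Q.natDegree)) ≤
      3 * A * m := by
    rw [← Finset.mul_sum]
    have := sum_sq (k := k) L
    have h0 : 0 ≤ 3 * A * m := by positivity
    nlinarith
  have h12 : S (k := k) O M + A * m * ((L : ℝ) - M) + 3 * A * m =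
      S (k := k) O M + A * m * (3 + ((L : ℝ) - M)) := by ring
  rw [← hAd, ← h12]
  exact add_le_add (add_le_add h9 h10) h11

include b in
/-- The theorem of Mertens. -/
theorem mertens : ∃ B : ℝ, ∀ x : ℕ, |S (k := k) O x - x| ≤ B := by
  obtain ⟨C, hfam⟩ := fam_count b
  obtain ⟨C1, hC1, -⟩ := norm_val b
  obtain ⟨m, hm⟩ : ∃ m, m = Fintype.card ι := ⟨_, rfl⟩
  have hm0 : 0 < m := by
    rw [hm, Fintype.card_pos_iff]
    by_contra hcon
    rw [not_nonempty_iff] at hcon
    have h1 : (1 : O) = 0 := by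
      rw [← val_repr b (1 : O), ← val_repr b (0 : O)]
      congr 1
      funext i
      exact hcon.elim i
    exact one_ne_zero h1
  obtain ⟨c, hc⟩ : ∃ c, c = m * (C1 + 1) := ⟨_, rfl⟩
  have hE : ∀ n : ℕ, 1 ≤ n → ∀ I : Ideal O, I ≠ ⊥ → D k I ≤ m * n →
      ((bx k ι (n + c)).filter fun v =>
        algebraMap k[X] O (X ^ (n + c + C)) + val b v ∈ I).card *
        Nat.card k ^ D k I = Nat.card k ^ (m * (n + c)) := by
    intro n hn I hI hD
    have := exact_count b hC1 hI hn (by rw [← hm]; exact hD) (algebraMap k[X] O (X ^ (n + c + C)))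
    rw [← hm, ← hc] at this
    exact this
  obtain ⟨K, hK⟩ : ∃ K : ℝ, K = (Nat.card k : ℝ) ^ (m * C + m) * m * (3 + (m * (c + C) : ℕ)) :=
    ⟨_, rfl⟩
  have hK0 : 0 ≤ K := by
    rw [hK]
    positivity
  have hup : ∀ n : ℕ, 1 ≤ n → S (k := k) O (m * n) ≤ ((m * n : ℕ) : ℝ) + (m * (c + C) : ℕ) := by
    intro n hn
    have h1 := upper (k := k) b (C := C) (n := n + c) (hfam (n + c)).1 (M := m * n)
      (fun I hI hD => by
        rw [← hm]
        exact hE n hn I hI hD)
    rw [← hm] at h1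
    refine h1.trans (le_of_eq ?_)
    rw [← Nat.cast_add]
    congr 1
    ring
  have hlo : ∀ n : ℕ, 1 ≤ n → ((m * n : ℕ) : ℝ) + (m * (c + C) : ℕ) ≤
      S (k := k) O (m * n) + K := by
    intro n hn
    have h1 := lower (k := k) b (C := C) (n := n + c) (hfam (n + c)).1 (hfam (n + c)).2
      (M := m * n) (by
        rw [← hm]
        exact Nat.mul_le_mul_left _ (by omega))
      (fun I hI hD => by
        rw [← hm]
        exact hE n hn I hI hD)
    rw [← hm] at h1
    have e : ((m * (n + c + C) : ℕ) : ℝ) = ((m * n : ℕ) : ℝ) + (m * (c + C) : ℕ) := by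
      rw [← Nat.cast_add]
      congr 1
      ring
    rw [e] at h1
    refine h1.trans (le_of_eq ?_)
    rw [hK]
    congr 2
    ring
  have hmc : (0 : ℝ) ≤ (m * (c + C) : ℕ) := Nat.cast_nonneg _
  refine ⟨K + m + (m * (c + C) : ℕ), fun x => ?_⟩
  have hm1 : (0 : ℝ) ≤ m := Nat.cast_nonneg _
  rw [abs_le]
  constructor
  · rcases Nat.lt_or_ge x m with hx | hx
    · have h0 : 0 ≤ S (k := k) O x := by
        unfold S
        exact Finset.sum_nonneg fun Q _ => by positivity
      have h1 : (x : ℝ) ≤ m := by exact_mod_cast hx.le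
      linarith
    · have h1 : 1 ≤ x / m := by
        rw [Nat.le_div_iff_mul_le hm0, one_mul]
        exact hx
      have h2 := hlo (x / m) h1
      have h3 : m * (x / m) ≤ x := Nat.mul_div_le _ _
      have h4 : x < m * (x / m) + m := by
        have := Nat.lt_mul_div_succ x hm0
        rwa [mul_add, mul_one] at this
      have h5 := S_mono (k := k) (O := O) h3
      have h6 : (x : ℝ) ≤ ((m * (x / m) : ℕ) : ℝ) + m := by exact_mod_cast h4.le
      linarith
  · have h2 := hup (x / m + 1) (Nat.le_add_left 1 _)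
    have h3 : m * (x / m) ≤ x := Nat.mul_div_le _ _
    have h4 : x < m * (x / m + 1) := by
      have := Nat.lt_mul_div_succ x hm0
      exact this
    have h5 := S_mono (k := k) (O := O) h4.le
    have h6 : ((m * (x / m + 1) : ℕ) : ℝ) ≤ (x : ℝ) + m := by
      have : m * (x / m + 1) ≤ x + m := by
        rw [mul_add, mul_one]
        omega
      exact_mod_cast this
    linarith

end ext

end Pool.Agent.Helper28H.FE.Mert
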