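import Pool.Agent.Helper28H.FE.MainE

/-!
# Project FE: towers of admissible extensions
-/

set_option autoImplicit false
set_option linter.all false

open Polynomial IsDedekindDomain
open scoped Classical

namespace Pool.Agent.Helper28H.FE.Quad2

open Pool.Agent.N352.PJ (dsc)
open Pool.Agent.Helper28H.FE.Cyc (two_unit root_sq map_q neg_root)

section main

variable {k K E₁ E₂ : Type} [Field k] [Field K] [Algebra k[X] K] [IsFractionRing k[X] K]
  [Field E₁] [Algebra K E₁] [Algebra k[X] E₁] [IsScalarTower k[X] K E₁]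
  [FiniteDimensional K E₁] [Algebra.IsSeparable K E₁]
  [Field E₂] [Algebra K E₂] [Algebra k[X] E₂] [IsScalarTower k[X] K E₂]
  [FiniteDimensional K E₂] [Algebra.IsSeparable K E₂]

/-- one more square root: complete splitting -/
theorem splits (h2 : (2 : k) ≠ 0) {P δ : k[X]} (hP : Irreducible P) (hPδ : ¬ P ∣ δ)
    (hz : ∃ z : k[X], P ∣ δ - z ^ 2)
    (φ : E₁ →ₐ[K] E₂) (σ : E₂ →ₐ[K] E₂) (hσ : ∀ a : E₁, σ (φ a) = φ a) (s : E₂)
    (hs : s ^ 2 = algebraMap k[X] E₂ δ)
    (hσs : σ s = -s) (hgen : ∀ x : E₂, ∃ a b : E₁, x = φ a + φ b * s) (hu : SplitsIn E₁ P) :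
    SplitsIn E₂ P := by
  obtain ⟨z, hz⟩ := hz
  let φ' : E₁ →ₐ[k[X]] E₂ := φ.restrictScalars k[X]
  let σ' : E₂ →ₐ[k[X]] E₂ := σ.restrictScalars k[X]
  have hφ' : ∀ x, φ' x = φ x := fun x => rfl
  let j : integralClosure k[X] E₁ →ₐ[k[X]] integralClosure k[X] E₂ :=
    { toFun := fun x => ⟨φ' x, x.2.map φ'⟩
      map_one' := Subtype.ext (map_one φ')
      map_mul' := fun x y => Subtype.ext (map_mul φ' _ _)
      map_zero' := Subtype.ext (map_zero φ')
      map_add' := fun x y => Subtype.ext (map_add φ' _ _)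
      commutes' := fun r => Subtype.ext (φ'.commutes r) }
  have hj : ∀ x, ((j x : integralClosure k[X] E₂) : E₂) = φ (x : E₁) := fun x => rfl
  intro w hw
  refine ⟨Cyc.unr h2 hP hPδ φ σ hσ s hs hσs hgen (fun w hw => (hu w hw).1) w hw, fun x => ?_⟩
  have hwp : w.asIdeal.IsPrime := w.isPrime
  -- the prime below
  have hinj : Function.Injective (algebraMap k[X] (integralClosure k[X] E₁)) := by
    intro a b hab
    have h3 := congrArg (fun x : integralClosure k[X] E₁ => (x : E₁)) hab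
    have h4 : algebraMap k[X] E₁ a = algebraMap k[X] E₁ b := h3
    rw [IsScalarTower.algebraMap_apply k[X] K E₁, IsScalarTower.algebraMap_apply k[X] K E₁] at h4
    exact IsFractionRing.injective k[X] K ((algebraMap K E₁).injective h4)
  let w₁ : HeightOneSpectrum (integralClosure k[X] E₁) := ⟨w.asIdeal.comap j.toRingHom,
    Ideal.comap_isPrime _ _, by
      intro h
      have h3 : algebraMap k[X] (integralClosure k[X] E₁) P ∈ w.asIdeal.comap j.toRingHom := by
        rw [Ideal.mem_comap]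
        have : j.toRingHom (algebraMap k[X] (integralClosure k[X] E₁) P) =
            algebraMap k[X] (integralClosure k[X] E₂) P := j.commutes P
        rw [this]
        exact hw
      rw [h, Ideal.mem_bot, map_eq_zero_iff _ hinj] at h3
      exact hP.ne_zero h3⟩
  have hw1 : ∀ x, x ∈ w₁.asIdeal ↔ j x ∈ w.asIdeal := fun x => Iff.rfl
  have hP1 : algebraMap k[X] (integralClosure k[X] E₁) P ∈ w₁.asIdeal := by
    rw [hw1, AlgHom.commutes]
    exact hw
  have hres : ∀ y : integralClosure k[X] E₁, ∃ c : k[X], j y - algebraMap k[X] _ c ∈ w.asIdeal := by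
    intro y
    obtain ⟨c, hc⟩ := (hu w₁ hP1).2 y
    refine ⟨c, ?_⟩
    rwa [hw1, map_sub, AlgHom.commutes] at hc
  obtain ⟨a, b', hab⟩ := hgen (x : E₂)
  obtain ⟨c2, hc2⟩ := two_unit (A := E₂) h2
  have hinjφ : Function.Injective φ := φ.toRingHom.injective
  have hsi : IsIntegral k[X] s := by
    refine IsIntegral.of_pow (n := 2) two_pos ?_
    rw [hs]
    exact isIntegral_algebraMap
  have hσx : IsIntegral k[X] (σ (x : E₂)) := x.2.map σ'
  have hσx' : σ (x : E₂) = φ a - φ b' * s := by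
    rw [hab, map_add, map_mul, hσ, hσ, hσs]
    ring
  have hai : IsIntegral k[X] a := by
    have h3 : IsIntegral k[X] (φ' a) := by
      have e : φ' a = algebraMap k[X] E₂ c2 * ((x : E₂) + σ (x : E₂)) := by
        rw [hσx', hab, hφ']
        linear_combination (-φ a) * hc2
      rw [e]
      exact isIntegral_algebraMap.mul (x.2.add hσx)
    exact (isIntegral_algHom_iff φ' hinjφ).1 h3
  have hbi : IsIntegral k[X] (algebraMap k[X] E₁ δ * b') := by
    have h3 : IsIntegral k[X] (φ' (algebraMap k[X] E₁ δ * b')) := by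
      have e : φ' (algebraMap k[X] E₁ δ * b') = algebraMap k[X] E₂ c2 * (((x : E₂) - σ (x : E₂)) * s) := by
        rw [map_mul, AlgHom.commutes, hσx', hab, hφ', ← hs]
        linear_combination (-φ b' * s ^ 2) * hc2
      rw [e]
      exact isIntegral_algebraMap.mul ((x.2.sub hσx).mul hsi)
    exact (isIntegral_algHom_iff φ' hinjφ).1 h3
  obtain ⟨S, hSs⟩ : ∃ S : integralClosure k[X] E₂, (S : E₂) = s := ⟨⟨s, hsi⟩, rfl⟩
  obtain ⟨α, β, hy⟩ : ∃ α β : integralClosure k[X] E₁,
      algebraMap k[X] (integralClosure k[X] E₂) δ * x =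
        algebraMap k[X] (integralClosure k[X] E₂) δ * j α + j β * S := by
    refine ⟨⟨a, hai⟩, ⟨algebraMap k[X] E₁ δ * b', hbi⟩, ?_⟩
    apply Subtype.ext
    show algebraMap k[X] E₂ δ * (x : E₂) =
      algebraMap k[X] E₂ δ * φ' a + φ' (algebraMap k[X] E₁ δ * b') * (S : E₂)
    rw [map_mul, AlgHom.commutes, hab, hφ', hφ', hSs]
    ring
  obtain ⟨cα, hα⟩ := hres α
  obtain ⟨cβ, hβ⟩ := hres β
  have hzz : (S - algebraMap k[X] _ z) * (S + algebraMap k[X] _ z) ∈ w.asIdeal := by
    have e : (S - algebraMap k[X] (integralClosure k[X] E₂) z) * (S + algebraMap k[X] _ z) =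
        algebraMap k[X] (integralClosure k[X] E₂) (δ - z ^ 2) := by
      apply Subtype.ext
      show ((S : E₂) - algebraMap k[X] E₂ z) * ((S : E₂) + algebraMap k[X] E₂ z) =
        algebraMap k[X] E₂ (δ - z ^ 2)
      rw [hSs, map_sub, map_pow, ← hs]
      ring
    rw [e]
    obtain ⟨r, hr⟩ := hz
    rw [hr, map_mul]
    exact Ideal.mul_mem_right _ _ hw
  obtain ⟨z', hz'⟩ : ∃ z' : k[X], S - algebraMap k[X] _ z' ∈ w.asIdeal := by
    rcases hwp.mem_or_mem hzz with h3 | h3
    · exact ⟨z, h3⟩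
    · refine ⟨-z, ?_⟩
      rwa [map_neg, sub_neg_eq_add]
  obtain ⟨p, q, hpq⟩ := (hP.coprime_iff_not_dvd).2 hPδ
  refine ⟨q * (δ * cα + cβ * z'), ?_⟩
  have e : x - algebraMap k[X] (integralClosure k[X] E₂) (q * (δ * cα + cβ * z')) =
      algebraMap k[X] _ p * x * algebraMap k[X] _ P +
      (algebraMap k[X] _ q * algebraMap k[X] _ δ * (j α - algebraMap k[X] _ cα) +
      (algebraMap k[X] _ q * S * (j β - algebraMap k[X] _ cβ) +
      algebraMap k[X] _ q * algebraMap k[X] _ cβ * (S - algebraMap k[X] _ z'))) := by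
    have e1 : (1 : integralClosure k[X] E₂) = algebraMap k[X] _ p * algebraMap k[X] _ P +
        algebraMap k[X] _ q * algebraMap k[X] _ δ := by
      rw [← map_mul, ← map_mul, ← map_add, hpq, map_one]
    rw [map_mul, map_add, map_mul _ δ, map_mul _ cβ z']
    linear_combination x * e1 + algebraMap k[X] (integralClosure k[X] E₂) q * hy
  rw [e]
  exact Ideal.add_mem _ (Ideal.mul_mem_left _ _ hw) (Ideal.add_mem _ (Ideal.mul_mem_left _ _ hα)
    (Ideal.add_mem _ (Ideal.mul_mem_left _ _ hβ) (Ideal.mul_mem_left _ _ hz')))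

end main

/-- adjoining one square root to an admissible field -/
theorem step {g : ℕ} {k K : Type} (E₁ : Type) [Field k] [Field K] [Algebra k[X] K]
    [IsFractionRing k[X] K]
    [Field E₁] [Algebra K E₁] [Algebra k[X] E₁] [IsScalarTower k[X] K E₁]
    [FiniteDimensional K E₁] {R₁ : Type} [CommRing R₁] [IsDedekindDomain R₁] [Algebra R₁ K]
    [IsFractionRing R₁ K] {v₁ : HeightOneSpectrum R₁} {f : k[X][X]} {D δ : k[X]}
    (h2 : (2 : k) ≠ 0) (hδ0 : δ ≠ 0) (hadm : AdmM g K E₁ v₁ f D)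
    (hsq : ¬ IsSquare (algebraMap k[X] E₁ δ))
    (hirr : ∀ P : k[X], Irreducible P → P ∣ δ →
      Irreducible (f.map (Ideal.Quotient.mk (Ideal.span {P}))))
    (hbad : ∀ P : k[X], Irreducible P → P ^ 2 ∣ dsc g f → ¬ P ∣ δ ∧ ∃ z : k[X], P ∣ δ - z ^ 2)
    (hspl : ∀ P : k[X], Irreducible P → P ∣ D → ¬ P ∣ δ ∧ ∃ z : k[X], P ∣ δ - z ^ 2)
    (hinf : IsSquare (algebraMap K (v₁.adicCompletion K) (algebraMap k[X] K δ))) :
    ∃ (E : Type) (_ : Field E) (_ : Algebra K E) (_ : Algebra k[X] E) (_ : IsScalarTower k[X] K E)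
      (_ : FiniteDimensional K E), Nonempty (E₁ →ₐ[K] E) ∧
      Module.finrank K E = Module.finrank K E₁ * 2 ∧ AdmM g K E v₁ f D := by
  haveI := hadm.gal
  set P : k[X] := δ with hPδ
  have hinj : Function.Injective (algebraMap k[X] E₁) := by
    rw [IsScalarTower.algebraMap_eq k[X] K E₁]
    exact (algebraMap K E₁).injective.comp (IsFractionRing.injective k[X] K)
  set p : E₁ := algebraMap k[X] E₁ P with hp
  have hp0 : p ≠ 0 := by
    rwa [hp, Ne, map_eq_zero_iff _ hinj]
  have h2E : (2 : E₁) ≠ 0 := by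
    obtain ⟨c, hc⟩ := two_unit (A := E₁) h2
    intro h
    rw [h, mul_zero] at hc
    exact zero_ne_one hc
  set q : E₁[X] := X ^ 2 - C p with hq
  have hqm : q.Monic := monic_X_pow_sub_C p two_ne_zero
  have hqd : q.natDegree = 2 := natDegree_X_pow_sub_C
  have hqi : Irreducible q := X_pow_sub_C_irreducible_of_prime Nat.prime_two fun b hb =>
    hsq ⟨b, by rw [← hb, sq]⟩
  haveI : Fact (Irreducible q) := ⟨hqi⟩
  let E := AdjoinRoot q
  have hfin1 : FiniteDimensional E₁ E := hqm.finite_adjoinRoot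
  have hfin : FiniteDimensional K E := FiniteDimensional.trans K E₁ E
  have hroot : (AdjoinRoot.root q) ^ 2 = AdjoinRoot.of q p := root_sq q p hq
  have hsplit : IsSplittingField E₁ E q := by
    refine ⟨?_, ?_⟩
    · have e : q.map (algebraMap E₁ E) = (X - C (AdjoinRoot.root q)) * (X - C (-AdjoinRoot.root q)) :=
        map_q q p hq
      rw [e]
      exact (Splits.X_sub_C _).mul (Splits.X_sub_C _)
    · rw [eq_top_iff, ← AdjoinRoot.adjoinRoot_eq_top (f := q)]
      refine Algebra.adjoin_mono ?_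
      intro x hx
      rw [Set.mem_singleton_iff] at hx
      rw [hx, mem_rootSet]
      refine ⟨hqi.ne_zero, ?_⟩
      rw [AdjoinRoot.aeval_eq]
      exact AdjoinRoot.mk_self
  have hsep : q.Separable := separable_X_pow_sub_C p (by exact_mod_cast h2E) hp0
  have hgal1 : IsGalois E₁ E := IsGalois.of_separable_splitting_field hsep
  haveI : Algebra.IsSeparable E₁ E := hgal1.to_isSeparable
  haveI : Algebra.IsSeparable K E := Algebra.IsSeparable.trans K E₁ E
  obtain ⟨f', hfs, hf⟩ := IsGalois.is_separable_splitting_field K E₁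
  have hqK : q = (X ^ 2 - C (algebraMap k[X] K P) : K[X]).map (algebraMap K E₁) := by
    rw [hq, Polynomial.map_sub, Polynomial.map_pow, map_X, map_C, hp, ← IsScalarTower.algebraMap_apply]
  haveI : IsSplittingField E₁ E ((X ^ 2 - C (algebraMap k[X] K P) : K[X]).map (algebraMap K E₁)) := by
    rw [← hqK]
    exact hsplit
  have hmul : IsSplittingField K E (f' * (X ^ 2 - C (algebraMap k[X] K P))) :=
    IsSplittingField.mul (K := E₁) E f' _ hfs.ne_zero (monic_X_pow_sub_C _ two_ne_zero).ne_zero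
  haveI : Normal K E := Normal.of_isSplittingField (f' * (X ^ 2 - C (algebraMap k[X] K P)))
  have hgal : IsGalois K E := {}
  let σ : E →ₐ[E₁] E := AdjoinRoot.liftAlgHom q (Algebra.ofId E₁ E) (-AdjoinRoot.root q) (neg_root q p hq)
  have hσs : (σ.restrictScalars K) (AdjoinRoot.root q) = -AdjoinRoot.root q := by
    show σ (AdjoinRoot.root q) = _
    exact AdjoinRoot.liftAlgHom_root ..
  have hgen : ∀ x : E, ∃ a b : E₁, x = (IsScalarTower.toAlgHom K E₁ E) a +
      (IsScalarTower.toAlgHom K E₁ E) b * AdjoinRoot.root q := by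
    intro x
    obtain ⟨u, rfl⟩ := AdjoinRoot.mk_surjective x
    have h3 : AdjoinRoot.mk q u = AdjoinRoot.mk q (u %ₘ q) := by
      rw [AdjoinRoot.mk_eq_mk]
      exact ⟨u /ₘ q, by rw [sub_eq_iff_eq_add']; exact (modByMonic_add_div u q).symm⟩
    have h4 : (u %ₘ q).natDegree ≤ 1 := by
      have h5 := natDegree_modByMonic_lt u hqm (by
        intro h
        rw [h, natDegree_one] at hqd
        omega)
      omega
    obtain ⟨a, b, hab⟩ := exists_eq_X_add_C_of_natDegree_le_one h4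
    refine ⟨b, a, ?_⟩
    rw [h3, hab, map_add, map_mul, AdjoinRoot.mk_C, AdjoinRoot.mk_C, AdjoinRoot.mk_X, add_comm]
    rfl
  have hrk : Module.finrank E₁ E = 2 := by
    rw [(AdjoinRoot.powerBasis hqi.ne_zero).finrank, AdjoinRoot.powerBasis_dim, hqd]
  have hrk2 : Module.finrank K E = Module.finrank K E₁ * 2 := by
    rw [← hrk, Module.finrank_mul_finrank]
  refine ⟨E, inferInstance, inferInstance, inferInstance, inferInstance, hfin,
    ⟨IsScalarTower.toAlgHom K E₁ E⟩, hrk2, hgal, ?_, fun P' hP' hb => ?_, fun P' hP' hb => ?_,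
    fun P' hP' hu => ?_, ?_⟩
  · obtain ⟨n, hn⟩ := hadm.deg
    exact ⟨n + 1, by rw [hrk2, hn, pow_succ]⟩
  · exact splits h2 hP' (hbad P' hP' hb).1 (hbad P' hP' hb).2 (IsScalarTower.toAlgHom K E₁ E)
      (σ.restrictScalars K) (fun a => σ.commutes a) (AdjoinRoot.root q) hroot hσs hgen
      (hadm.bad P' hP' hb)
  · exact splits h2 hP' (hspl P' hP' hb).1 (hspl P' hP' hb).2 (IsScalarTower.toAlgHom K E₁ E)
      (σ.restrictScalars K) (fun a => σ.commutes a) (AdjoinRoot.root q) hroot hσs hgen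
      (hadm.spl P' hP' hb)
  · by_cases hd : P' ∣ δ
    · exact hirr P' hP' hd
    · by_cases hu1 : UnrAt E₁ P'
      · exact absurd (Cyc.unr h2 hP' hd (IsScalarTower.toAlgHom K E₁ E)
          (σ.restrictScalars K) (fun a => σ.commutes a) (AdjoinRoot.root q) hroot hσs hgen hu1) hu
      · exact hadm.ram P' hP' hu1
  · obtain ⟨φ₀⟩ := hadm.inf
    obtain ⟨r, hr⟩ := hinf
    have e : eval₂ (φ₀ : E₁ →+* v₁.adicCompletion K) r q = 0 := by
      rw [hq, eval₂_sub, eval₂_pow, eval₂_X, eval₂_C, hp, IsScalarTower.algebraMap_apply k[X] K E₁]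
      have : (φ₀ : E₁ →+* v₁.adicCompletion K) (algebraMap K E₁ (algebraMap k[X] K P)) =
        algebraMap K (v₁.adicCompletion K) (algebraMap k[X] K P) := φ₀.commutes _
      rw [this, hr]
      ring
    refine ⟨{ AdjoinRoot.lift (φ₀ : E₁ →+* v₁.adicCompletion K) r e with
      commutes' := fun c => ?_ }⟩
    show AdjoinRoot.lift (φ₀ : E₁ →+* v₁.adicCompletion K) r e (algebraMap K E c) = _
    have h3 : algebraMap K E c = AdjoinRoot.of q (algebraMap K E₁ c) := rfl
    rw [h3, AdjoinRoot.lift_of]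
    exact φ₀.commutes c

/-- In an admissible field the prime `P₀` is unramified. -/
theorem unr_P₀ {g : ℕ} {k K : Type} [Field k] [Finite k] [Field K] [Algebra k[X] K]
    [IsFractionRing k[X] K] {f : k[X][X]} {P₀ : k[X]} (hyp : Hyp K g f P₀) {M R₁ : Type}
    [Field M] [Algebra K M] [Algebra k[X] M] [CommRing R₁] [IsDedekindDomain R₁] [Algebra R₁ K]
    [IsFractionRing R₁ K] {v₁ : HeightOneSpectrum R₁} {D : k[X]} (h : AdmM g K M v₁ f D) :
    UnrAt M P₀ := by
  by_contra hc
  exact BasA.not_dvd_dsc hyp.mon hyp.deg hyp.prime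
    (BasA.sep_of_irr hyp.prime (h.ram P₀ hyp.prime hc)) hyp.dvd

/-- A prime which splits completely in `E₀`, is a square modulo the elements of `T` and modulo which `f`
is irreducible. -/
theorem exists_prime {g : ℕ} {k K : Type} (E₀ : Type) [Field k] [Finite k] [Field K]
    [Algebra k[X] K] [IsFractionRing k[X] K] [Field E₀] [Algebra K E₀] [Algebra k[X] E₀]
    [IsScalarTower k[X] K E₀] [FiniteDimensional K E₀] [IsGalois K E₀] {f : k[X][X]} {P₀ : k[X]}
    (hyp : Hyp K g f P₀) (hu₀ : UnrAt E₀ P₀) (T : Finset k[X])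
    (hT : ∀ P ∈ T, P.Monic ∧ Irreducible P ∧ ¬ P₀ ∣ P) (B : ℕ) :
    ∃ Q : k[X], Q.Monic ∧ Irreducible Q ∧ B < Q.natDegree ∧ Even Q.natDegree ∧ SplitsIn E₀ Q ∧
      Irreducible (f.map (Ideal.Quotient.mk (Ideal.span {Q}))) ∧
      ∀ P ∈ T, ¬ P ∣ Q ∧ ∃ z : k[X], P ∣ Q - z ^ 2 := by
  have h2 := hyp.two
  obtain ⟨a, ha⟩ : ∃ a : k, ¬ IsSquare a := by
    haveI : Fintype k := Fintype.ofFinite k
    refine FiniteField.exists_nonsquare ?_
    intro h
    apply h2
    have := (ringChar.spec k 2).2 (by rw [h])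
    exact_mod_cast this
  have ha0 : a ≠ 0 := by
    rintro rfl
    exact ha (IsSquare.zero)
  obtain ⟨E, iF, iA, iX, iT, iFD, iG, ⟨κ⟩, hu, hsq⟩ := cyc k K E₀ P₀ (insert (C a) T) h2 hyp.prime
    hu₀ (by
      intro P hP
      rcases Finset.mem_insert.1 hP with rfl | hP
      · intro hd
        exact hyp.prime.not_isUnit (isUnit_of_dvd_unit hd (isUnit_C.2 ha0.isUnit))
      · exact (hT P hP).2.2)
  obtain ⟨Q, hQm, hQi, hQB, hQs, hQf⟩ := MainE.prT g k K E f P₀ hyp hu
    (max B (∑ P ∈ T, P.natDegree))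
  obtain ⟨hsub, hspl⟩ := t_SPL k K E Q hQi hQs
  obtain ⟨hqr1, hqr2⟩ := t_QR k h2 Q hQm hQi
  have hev : Even Q.natDegree := hqr2 a ha (hspl _ (hsq _ (Finset.mem_insert_self _ _)))
  refine ⟨Q, hQm, hQi, lt_of_le_of_lt (le_max_left _ _) hQB, hev, hsub E₀ κ, hQf,
    fun P hP => ?_⟩
  have hne : P ≠ Q := by
    rintro rfl
    have h3 : P.natDegree ≤ ∑ P ∈ T, P.natDegree :=
      Finset.single_le_sum (f := fun P : k[X] => P.natDegree) (fun _ _ => Nat.zero_le _) hP
    have := lt_of_le_of_lt (le_max_right B (∑ P ∈ T, P.natDegree)) hQB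
    omega
  refine ⟨fun hd => ?_, hqr1 P (hT P hP).1 (hT P hP).2.1 hne hev
    (hspl _ (hsq _ (Finset.mem_insert_of_mem hP)))⟩
  exact hne (eq_of_monic_of_associated (hT P hP).1 hQm ((hT P hP).2.1.associated_of_dvd hQi hd))

/-- An unramified prime has no square root. -/
theorem not_sq_of_unr {k K M : Type} [Field k] [Field K] [Algebra k[X] K] [IsFractionRing k[X] K]
    [Field M] [Algebra K M] [Algebra k[X] M] [IsScalarTower k[X] K M] [FiniteDimensional K M]
    [Algebra.IsSeparable K M] {Q : k[X]} (hQ : Irreducible Q) (h : UnrAt M Q) :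
    ¬ IsSquare (algebraMap k[X] M Q) := by
  rintro ⟨y, hy⟩
  haveI : IsDedekindDomain (integralClosure k[X] M) := integralClosure.isDedekindDomain k[X] K M
  have hinj : Function.Injective (algebraMap k[X] (integralClosure k[X] M)) := by
    intro a b hab
    have h3 := congrArg (fun x : integralClosure k[X] M => (x : M)) hab
    have h4 : algebraMap k[X] M a = algebraMap k[X] M b := h3
    rw [IsScalarTower.algebraMap_apply k[X] K M, IsScalarTower.algebraMap_apply k[X] K M] at h4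
    exact IsFractionRing.injective k[X] K ((algebraMap K M).injective h4)
  have hyi : IsIntegral k[X] y := by
    refine IsIntegral.of_pow (n := 2) two_pos ?_
    rw [pow_two, ← hy]
    exact isIntegral_algebraMap
  obtain ⟨Y, hY⟩ : ∃ Y : integralClosure k[X] M, (Y : M) = y := ⟨⟨y, hyi⟩, rfl⟩
  have hYY : algebraMap k[X] (integralClosure k[X] M) Q = Y * Y := by
    apply Subtype.ext
    show algebraMap k[X] M Q = (Y : M) * (Y : M)
    rw [hY, hy]
  -- a prime over `Q`
  haveI : (Ideal.span {Q}).IsMaximal := PrincipalIdealRing.isMaximal_of_irreducible hQ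
  obtain ⟨I, hI, hI2⟩ := Ideal.exists_ideal_over_maximal_of_isIntegral (S := integralClosure k[X] M)
    (Ideal.span {Q}) (by
      intro x hx
      have h1 : algebraMap k[X] (integralClosure k[X] M) x = 0 := RingHom.mem_ker.1 hx
      have h2 : x = 0 := hinj (by rw [h1, map_zero])
      rw [h2]
      exact zero_mem _)
  have hQI : algebraMap k[X] (integralClosure k[X] M) Q ∈ I := by
    have : Q ∈ I.comap (algebraMap k[X] (integralClosure k[X] M)) := by
      rw [hI2]
      exact Ideal.mem_span_singleton_self Q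
    exact this
  have hbot : I ≠ ⊥ := by
    rintro rfl
    rw [Ideal.mem_bot, map_eq_zero_iff _ hinj] at hQI
    exact hQ.ne_zero hQI
  let w : HeightOneSpectrum (integralClosure k[X] M) := ⟨I, hI.isPrime, hbot⟩
  refine h w hQI ?_
  have hYI : Y ∈ I := by
    rw [hYY] at hQI
    rcases hI.isPrime.mem_or_mem hQI with h3 | h3 <;> exact h3
  rw [hYY, ← pow_two]
  exact Ideal.pow_mem_pow hYI 2

/-- the tower -/
theorem tower {g : ℕ} {k K : Type} [Field k] [Finite k] [Field K] [Algebra k[X] K]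
    [IsFractionRing k[X] K] {R₁ : Type} [CommRing R₁] [IsDedekindDomain R₁] [Algebra R₁ K]
    [IsFractionRing R₁ K] {v₁ : HeightOneSpectrum R₁} (hv : IsInf k (K := K) v₁) {f : k[X][X]}
    {P₀ : k[X]} (hyp : Hyp K g f P₀) {D : k[X]} {T : Finset k[X]}
    (hT : ∀ P ∈ T, P.Monic ∧ Irreducible P ∧ ¬ P₀ ∣ P)
    (hTP : ∀ P : k[X], Irreducible P → P ^ 2 ∣ dsc g f ∨ P ∣ D → ∃ P' ∈ T, Associated P P')
    (L : Type) [Field L] [Algebra K L] [Algebra k[X] L] [IsScalarTower k[X] K L]
    [FiniteDimensional K L] (hL : AdmM g K L v₁ f D) (n : ℕ) :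
    ∃ (E : Type) (_ : Field E) (_ : Algebra K E) (_ : Algebra k[X] E) (_ : IsScalarTower k[X] K E)
      (_ : FiniteDimensional K E), Nonempty (L →ₐ[K] E) ∧
      Module.finrank K E = Module.finrank K L * 2 ^ n ∧ AdmM g K E v₁ f D := by
  induction n with
  | zero => exact ⟨L, inferInstance, inferInstance, inferInstance, inferInstance, inferInstance,
      ⟨AlgHom.id K L⟩, by rw [pow_zero, mul_one], hL⟩
  | succ n ih =>
    obtain ⟨E₁, _, _, _, _, _, ⟨φ⟩, hd, hadm⟩ := ih
    haveI := hadm.gal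
    obtain ⟨δ, b1, b2, -, b4, b4', b5, b6⟩ := exists_prime E₁ hyp (unr_P₀ hyp hadm) T hT 0
    have hloc : ∀ P : k[X], Irreducible P → P ^ 2 ∣ dsc g f ∨ P ∣ D →
        ¬ P ∣ δ ∧ ∃ z : k[X], P ∣ δ - z ^ 2 := by
      intro P hP hb
      obtain ⟨P', hP', ha⟩ := hTP P hP hb
      obtain ⟨c1, z, c2⟩ := b6 P' hP'
      exact ⟨fun hd => c1 (ha.symm.dvd.trans hd), z, ha.dvd.trans c2⟩
    obtain ⟨E, iF, iA, iX, iT, iFD, ⟨ψ⟩, he, hE⟩ := step E₁ hyp.two b2.ne_zero hadm
      (not_sq_of_unr (K := K) b2 fun w hw => (b4' w hw).1)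
      (fun P hP hd => by
        have e : Ideal.span {P} = Ideal.span {δ} :=
          Ideal.span_singleton_eq_span_singleton.2 (hP.associated_of_dvd b2 hd)
        rw [e]
        exact b5)
      (fun P hP h => hloc P hP (Or.inl h)) (fun P hP h => hloc P hP (Or.inr h))
      ((sql k K hyp.two).1 R₁ v₁ hv δ b1 b4)
    exact ⟨E, iF, iA, iX, iT, iFD, ⟨ψ.comp φ⟩, by rw [he, hd, pow_succ, mul_assoc], hE⟩

end Pool.Agent.Helper28H.FE.Quad2
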