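import Pool.Agent.Helper28H.FE.RecA
import Pool.Agent.N434.PJ.HP

/-!
# Project FE, piece REC: the first Lagrangian and the reciprocity law

Port of `N622/PJ/RecE.lean`, `Rec.lean`.
-/

set_option autoImplicit false
set_option linter.all false

open Polynomial IsDedekindDomain Matrix WithZero
open scoped Classical

namespace Pool.Agent.Helper28H.FE

open Pool.Agent.N352.PJ (Mt IsGen dsc Cg Crd res)
open Pool.Agent.N874.PP (Ov Ev Sq1 U0)
open Pool.Agent.N622.PJ (resL resL_apply res_dvd res_congr dvd_of_res mapO mapK theta_ex Dat FF red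
  red_zero red_eq red_surj redA redA_apply redA_smul redA_surj algF mem_iff_val yO poly_zero ov_iff
  val_ne val_le le_of_mul_le le_of_sq_le approx_mul crtL finrank_prod class_iff lt_one_iff)

section lag

variable {k K L O : Type} [Field k] [Field K] [Algebra k[X] K] [IsFractionRing k[X] K]
  [Field L] [Algebra K L] [Algebra k[X] L] [IsScalarTower k[X] K L] [CommRing O]
  [IsDedekindDomain O] [Algebra O L] [IsFractionRing O L] [Algebra k[X] O]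
  [IsScalarTower k[X] O L] [IsIntegralClosure O k[X] L] {g : ℕ} {f : k[X][X]} {θ : L} {c : k[X]}
  {S₁ : Finset k[X]} {𝔮 𝔭 : k[X] → HeightOneSpectrum O}

attribute [local instance] algF

/-- An element of `L` has a polynomial denominator. -/
theorem exists_den (hG : IsGen g K f θ) (y : L) : ∃ e : k[X], e ≠ 0 ∧
    IsIntegral k[X] (algebraMap k[X] L e * y) := by
  haveI : FiniteDimensional K L := Module.Finite.of_basis hG.basis
  haveI : Algebra.IsAlgebraic k[X] L := (IsFractionRing.comap_isAlgebraic_iff (K := K)).2 inferInstance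
  obtain ⟨e, he, h⟩ := (Algebra.IsAlgebraic.isAlgebraic (R := k[X]) y).exists_integral_multiple
  refine ⟨e, he, ?_⟩
  rwa [Algebra.smul_def] at h

/-- A polynomial prime to `S₁` which makes an element integral. -/
theorem exists_clear (hG : IsGen g K f θ) (D : Dat θ S₁ 𝔮 𝔭) {y : L}
    (hy : ∀ Q ∈ S₁, ∀ 𝔓 : HeightOneSpectrum O, Ov Q 𝔓 → 𝔓.valuation L y ≤ 1) :
    ∃ (d : k[X]) (w : O), (∏ Q ∈ S₁, Q) ∣ d - 1 ∧ algebraMap O L w = algebraMap k[X] L d * y := by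
  -- the ideal of the denominators
  let I : Ideal k[X] :=
    { carrier := {d | ∃ w : O, algebraMap O L w = algebraMap k[X] L d * y}
      add_mem' := by
        rintro a b ⟨v, hv⟩ ⟨w, hw⟩
        exact ⟨v + w, by rw [map_add, map_add, hv, hw]; ring⟩
      zero_mem' := ⟨0, by rw [map_zero, map_zero, zero_mul]⟩
      smul_mem' := by
        rintro a b ⟨w, hw⟩
        exact ⟨algebraMap k[X] O a * w, by
          rw [map_mul, hw, smul_eq_mul, map_mul, mapO, mul_assoc]⟩ }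
  obtain ⟨s, hs⟩ : ∃ s : k[X], I = Ideal.span {s} := (IsPrincipalIdealRing.principal I).principal
  have hcop : ∀ Q ∈ S₁, IsCoprime Q s := by
    intro Q hQ
    rw [(D.irr Q hQ).coprime_iff_not_dvd]
    intro hd
    obtain ⟨e, he, hint⟩ := exists_den hG y
    obtain ⟨w, hw⟩ := (IsIntegralClosure.isIntegral_iff (A := O)).1 hint
    obtain ⟨s', hs1, hs'⟩ := (FiniteMultiplicity.of_not_isUnit (D.irr Q hQ).not_isUnit
      he).exists_eq_pow_mul_and_not_dvd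
    set n := multiplicity Q e with hn
    have hmem : s' ∈ I := by
      have key : ∀ 𝔓 : HeightOneSpectrum O, 𝔓.valuation L (algebraMap k[X] L s' * y) ≤ 1 := by
        intro 𝔓
        by_cases hov : Ov Q 𝔓
        · rw [map_mul]
          refine mul_le_one' ?_ (hy Q hQ 𝔓 hov)
          rw [IsScalarTower.algebraMap_apply k[X] O L]
          exact 𝔓.valuation_le_one _
        · have h1 : 𝔓.valuation L (algebraMap k[X] L Q) = 1 := by
            rw [IsScalarTower.algebraMap_apply k[X] O L, 𝔓.valuation_eq_one_iff_notMem]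
            exact hov
          have h2 : 𝔓.valuation L (algebraMap O L w) ≤ 1 := 𝔓.valuation_le_one (K := L) w
          rw [hw, hs1, map_mul, map_mul, map_mul, map_pow, map_pow, h1, one_pow, one_mul] at h2
          rw [map_mul]
          exact h2
      exact HeightOneSpectrum.mem_integers_of_valuation_le_one L _ key
    rw [hs, Ideal.mem_span_singleton] at hmem
    exact hs' (hd.trans hmem)
  have hcopP : IsCoprime (∏ Q ∈ S₁, Q) s := IsCoprime.prod_left hcop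
  obtain ⟨u, v, huv⟩ := hcopP
  have hmem : v * s ∈ I := by
    rw [hs]
    exact Ideal.mul_mem_left _ _ (Ideal.mem_span_singleton_self s)
  obtain ⟨w, hw⟩ := hmem
  refine ⟨v * s, w, ⟨-u, ?_⟩, hw⟩
  linear_combination huv

variable (hG : IsGen g K f θ) (hC : CI g θ c)

/-- the first Lagrangian is isotropic -/
theorem first_iso (D : Dat θ S₁ 𝔮 𝔭) (hP : (∏ Q ∈ S₁, Q) ∣ c - 1) {η : O}
    (hη : ∀ Q ∈ S₁, η - 1 ∈ (𝔮 Q).asIdeal ∧ η ∈ (𝔭 Q).asIdeal) {α β : L} (hα : α ≠ 0) (hβ0 : β ≠ 0)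
    (hβ : ∀ Q ∈ S₁, (𝔮 Q).valuation L β ^ 2 = (𝔮 Q).valuation L α * exp (1 : ℤ)) {κ : O}
    (hκ : ∀ Q ∈ S₁, (𝔮 Q).valuation L
      (algebraMap O L κ - algebraMap k[X] L (∏ Q ∈ S₁, Q) * β ^ 2 / α) < 1) {x x' : L} {ζ ζ' : O}
    (hx : ∀ Q ∈ S₁, ∀ 𝔓 : HeightOneSpectrum O, Ov Q 𝔓 → 𝔓.valuation L x ^ 2 ≤
        𝔓.valuation L α * (if 𝔓 = 𝔮 Q then exp (1 : ℤ) else 1))
    (hx' : ∀ Q ∈ S₁, ∀ 𝔓 : HeightOneSpectrum O, Ov Q 𝔓 → 𝔓.valuation L x' ^ 2 ≤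
        𝔓.valuation L α * (if 𝔓 = 𝔮 Q then exp (1 : ℤ) else 1))
    (hζ : ∀ Q ∈ S₁, (𝔮 Q).valuation L (algebraMap O L ζ - x / β) < 1)
    (hζ' : ∀ Q ∈ S₁, (𝔮 Q).valuation L (algebraMap O L ζ' - x' / β) < 1)
    (hy : ∃ y : k[X], hG.top (algebraMap k[X] L (∏ Q ∈ S₁, Q) * (x * x') / α) =
        algebraMap k[X] K y ∧ res (∏ Q ∈ S₁, Q) y = 0) :
    sL hG hC D hη (redA S₁ 𝔮 κ * redA S₁ 𝔮 ζ * redA S₁ 𝔮 ζ') = 0 := by
  rw [← map_mul, ← map_mul, sL_redA]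
  have hva : ∀ 𝔓 : HeightOneSpectrum O, 0 < 𝔓.valuation L α := fun 𝔓 => zero_lt_iff.2 (val_ne 𝔓 hα)
  have hY : ∀ Q ∈ S₁, ∀ 𝔓 : HeightOneSpectrum O, Ov Q 𝔓 → 𝔓.valuation L
      (algebraMap k[X] L (∏ Q ∈ S₁, Q) * (x * x') / α) ≤
        exp (-1 : ℤ) * (if 𝔓 = 𝔮 Q then exp (1 : ℤ) else 1) := by
    intro Q hQ 𝔓 hov
    rw [map_div₀, map_mul, map_mul, div_le_iff₀ (hva 𝔓), mul_assoc, D.valP hQ hov]
    refine mul_le_mul_right ?_ _
    rw [mul_comm _ (𝔓.valuation L α)]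
    exact le_of_mul_le (hx Q hQ 𝔓 hov) (hx' Q hQ 𝔓 hov)
  have hY1 : ∀ Q ∈ S₁, ∀ 𝔓 : HeightOneSpectrum O, Ov Q 𝔓 → 𝔓.valuation L
      (algebraMap k[X] L (∏ Q ∈ S₁, Q) * (x * x') / α) ≤ 1 := by
    intro Q hQ 𝔓 hov
    refine (hY Q hQ 𝔓 hov).trans ?_
    by_cases h : 𝔓 = 𝔮 Q
    · rw [if_pos h, ← exp_add]
      simp
    · rw [if_neg h, mul_one]
      exact (lt_one_iff.2 le_rfl).le
  obtain ⟨d, w, hd, hw⟩ := exists_clear hG D hY1
  obtain ⟨y, hy1, hy2⟩ := hy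
  have htw : tp hG hC w = (c * d) * y := by
    apply IsFractionRing.injective k[X] K
    rw [tp_spec, hw, map_mul (algebraMap k[X] K), ← hy1, ← mul_assoc,
      ← map_mul (algebraMap k[X] L), ← mapK (K := K) (L := L), ← Algebra.smul_def, map_smul,
      smul_eq_mul]
  have hres : res (∏ Q ∈ S₁, Q) ((c * d) * y) = 0 := by
    rw [← hy2]
    apply res_congr D.monP
    have e : c * d * y - y = (c - 1) * (d * y) + (d - 1) * y := by ring
    rw [e]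
    exact dvd_add (Dvd.dvd.mul_right hP _) (Dvd.dvd.mul_right hd _)
  have hdm : ∀ Q ∈ S₁, ∀ 𝔓 : HeightOneSpectrum O, Ov Q 𝔓 → 𝔓.valuation L (algebraMap O L w -
      algebraMap k[X] L (∏ Q ∈ S₁, Q) * (x * x') / α) < 1 := by
    intro Q hQ 𝔓 hov
    have e : algebraMap O L w - algebraMap k[X] L (∏ Q ∈ S₁, Q) * (x * x') / α =
        algebraMap k[X] L (d - 1) * (algebraMap k[X] L (∏ Q ∈ S₁, Q) * (x * x') / α) := by
      rw [hw, map_sub, map_one]; ring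
    rw [e, map_mul]
    refine mul_lt_one_of_nonneg_of_lt_one_left zero_le' ?_ (hY1 Q hQ 𝔓 hov)
    rw [IsScalarTower.algebraMap_apply k[X] O L, ← mem_iff_val]
    exact (ov_iff (D.irr Q hQ) hov _).2 ((Finset.dvd_prod_of_mem _ hQ).trans hd)
  rw [lam_congr hG hC D (w := w), htw, hres]
  apply D.dvd
  intro Q hQ
  constructor
  · have h1 : η * (κ * ζ * ζ') - w = (η - 1) * (κ * ζ * ζ') + (κ * ζ * ζ' - w) := by ring
    rw [h1]
    refine Ideal.add_mem _ (Ideal.mul_mem_right _ _ (hη Q hQ).1) ?_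
    rw [mem_iff_val (L := L), map_sub, map_mul, map_mul]
    have h2 : algebraMap k[X] L (∏ Q ∈ S₁, Q) * (x * x') / α =
        (algebraMap k[X] L (∏ Q ∈ S₁, Q) * β ^ 2 / α) * (x / β) * (x' / β) := by
      field_simp
    have hvb : 0 < (𝔮 Q).valuation L β := zero_lt_iff.2 (val_ne _ hβ0)
    have hu : ∀ z : L, (∀ Q ∈ S₁, ∀ 𝔓 : HeightOneSpectrum O, Ov Q 𝔓 → 𝔓.valuation L z ^ 2 ≤
        𝔓.valuation L α * (if 𝔓 = 𝔮 Q then exp (1 : ℤ) else 1)) →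
        (𝔮 Q).valuation L (z / β) ≤ 1 := by
      intro z hz
      rw [map_div₀, div_le_one₀ hvb]
      apply le_of_sq_le
      rw [hβ Q hQ]
      have h3 := hz Q hQ (𝔮 Q) (D.ovq Q hQ)
      rwa [if_pos rfl] at h3
    have hk1 : (𝔮 Q).valuation L (algebraMap k[X] L (∏ Q ∈ S₁, Q) * β ^ 2 / α) = 1 := by
      rw [map_div₀, map_mul, map_pow, hβ Q hQ, D.valP hQ (D.ovq Q hQ),
        div_eq_one_iff_eq (val_ne _ hα), mul_left_comm, ← exp_add]
      simp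
    have h3 := approx_mul hk1.le (hu x hx) (hκ Q hQ) (hζ Q hQ)
    have h4 : (𝔮 Q).valuation L (algebraMap k[X] L (∏ Q ∈ S₁, Q) * β ^ 2 / α * (x / β)) ≤ 1 := by
      rw [map_mul, hk1, one_mul]
      exact hu x hx
    have h5 := approx_mul h4 (hu x' hx') h3 (hζ' Q hQ)
    have h6 := hdm Q hQ (𝔮 Q) (D.ovq Q hQ)
    rw [← h2] at h5
    have e : algebraMap O L κ * algebraMap O L ζ * algebraMap O L ζ' - algebraMap O L w =
        (algebraMap O L κ * algebraMap O L ζ * algebraMap O L ζ' -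
          algebraMap k[X] L (∏ Q ∈ S₁, Q) * (x * x') / α) -
        (algebraMap O L w - algebraMap k[X] L (∏ Q ∈ S₁, Q) * (x * x') / α) := by ring
    rw [e]
    exact lt_of_le_of_lt (Valuation.map_sub _ _ _) (max_lt h5 h6)
  · refine Ideal.sub_mem _ (Ideal.mul_mem_right _ _ (hη Q hQ).2) ?_
    rw [mem_iff_val (L := L)]
    have h6 := hdm Q hQ (𝔭 Q) (D.ovp Q hQ)
    have hne : 𝔭 Q ≠ 𝔮 Q := by
      intro h
      have h7 := D.tq Q hQ
      rw [← h] at h7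
      exact absurd h7 (D.tp Q hQ).ne
    have h8 := hY Q hQ (𝔭 Q) (D.ovp Q hQ)
    rw [if_neg hne, mul_one, ← lt_one_iff] at h8
    have e : algebraMap O L w = (algebraMap O L w -
        algebraMap k[X] L (∏ Q ∈ S₁, Q) * (x * x') / α) +
        algebraMap k[X] L (∏ Q ∈ S₁, Q) * (x * x') / α := by ring
    rw [e]
    exact Valuation.map_add_lt _ h6 h8

/-- the first Lagrangian is independent -/
theorem first_ind {α β : L} (hβ0 : β ≠ 0)
    (hβ : ∀ Q ∈ S₁, (𝔮 Q).valuation L β ^ 2 = (𝔮 Q).valuation L α * exp (1 : ℤ)) {d : ℕ}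
    {x : Fin d → L} {ζ : Fin d → O}
    (hζ : ∀ a, ∀ Q ∈ S₁, (𝔮 Q).valuation L (algebraMap O L (ζ a) - x a / β) < 1)
    (hc : ∀ c : Fin d → k,
        (∀ Q ∈ S₁, (𝔮 Q).valuation L (∑ a, algebraMap k[X] L (C (c a)) * x a) ^ 2 ≤
            (𝔮 Q).valuation L α * exp (-1 : ℤ)) → c = 0) :
    LinearIndependent k (fun a => redA S₁ 𝔮 (ζ a)) := by
  rw [Fintype.linearIndependent_iff]
  intro b h0
  simp only [redA_smul] at h0
  rw [← map_sum] at h0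
  refine fun a => congrFun (hc b fun Q hQ => ?_) a
  have hC : ∀ a, (𝔮 Q).valuation L (algebraMap k[X] L (C (b a))) ≤ 1 := by
    intro a
    rw [IsScalarTower.algebraMap_apply k[X] O L]
    exact (𝔮 Q).valuation_le_one _
  have h1 := congrFun h0 ⟨Q, hQ⟩
  rw [redA_apply, Pi.zero_apply, red_zero, mem_iff_val (L := L), map_sum] at h1
  have h2 : (𝔮 Q).valuation L (∑ a, algebraMap k[X] L (C (b a)) * (x a / β)) < 1 := by
    have h3 : (∑ a, algebraMap k[X] L (C (b a)) * (x a / β)) =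
        (∑ a, algebraMap O L (algebraMap k[X] O (C (b a)) * ζ a)) -
          ∑ a, algebraMap k[X] L (C (b a)) * (algebraMap O L (ζ a) - x a / β) := by
      rw [← Finset.sum_sub_distrib]
      refine Finset.sum_congr rfl fun a _ => ?_
      rw [map_mul, mapO]
      ring
    rw [h3]
    refine lt_of_le_of_lt (Valuation.map_sub _ _ _) (max_lt h1 ?_)
    refine Valuation.map_sum_lt _ one_ne_zero fun a _ => ?_
    rw [map_mul, mul_comm]
    exact mul_lt_one_of_nonneg_of_lt_one_left zero_le' (hζ a Q hQ) (hC a)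
  have h4 : (∑ a, algebraMap k[X] L (C (b a)) * x a) =
      (∑ a, algebraMap k[X] L (C (b a)) * (x a / β)) * β := by
    rw [Finset.sum_mul]
    refine Finset.sum_congr rfl fun a _ => ?_
    field_simp
  rw [h4, map_mul, mul_pow, hβ Q hQ]
  rw [lt_one_iff] at h2
  have h5 : (𝔮 Q).valuation L (∑ a, algebraMap k[X] L (C (b a)) * (x a / β)) ^ 2 ≤
      exp (-1 : ℤ) ^ 2 := pow_le_pow_left₀ zero_le' h2 2
  calc _ ≤ exp (-1 : ℤ) ^ 2 * ((𝔮 Q).valuation L α * exp (1 : ℤ)) := mul_le_mul_left h5 _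
    _ = (𝔮 Q).valuation L α * exp (-1 : ℤ) := by
      rw [mul_left_comm, ← WithZero.exp_nsmul, ← exp_add]
      congr 2

end lag

attribute [local instance] algF

/-- **The reciprocity law.** -/
theorem rec (h1 : A_EXQ) (h2 : A_CSQ) (h4 : B_GL) : B_REC := by
  intro g k K L O _ _ _ _ _ _ _ _ _ _ _ _ _ _ _ _ f θ S h R₁ _ _ _ _ v₁ hg h2k hG hS hcg hinf
    𝔮 h𝔮 α hα hsqn hev hev₁
  have hinj : Function.Injective (algebraMap k[X] L) := by
    rw [IsScalarTower.algebraMap_eq k[X] K L]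
    exact (algebraMap K L).injective.comp (IsFractionRing.injective k[X] K)
  -- the other primes
  have hex : ∀ Q : k[X], ∃ 𝔓₁ : HeightOneSpectrum O, Q ∈ S → (Ov Q 𝔓₁ ∧ 𝔓₁.valuation L θ < 1 ∧
      𝔓₁.valuation L (algebraMap k[X] L Q) = exp (-1 : ℤ) ∧
      (𝔮 Q).valuation L (algebraMap k[X] L Q) = exp (-1 : ℤ) ∧
      ∀ 𝔓 : HeightOneSpectrum O, Ov Q 𝔓 → 𝔓 = 𝔮 Q ∨ 𝔓 = 𝔓₁) := by
    intro Q
    by_cases hQ : Q ∈ S
    · obtain ⟨𝔓₁, 𝔮', o1, o2, v1, v2, w1, w2, hall⟩ :=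
        h1 g k K L O f θ S h hg hG hS Q hQ (hcg Q hQ)
      have e1 : 𝔮 Q = 𝔮' := by
        rcases hall (𝔮 Q) (h𝔮 Q hQ).1 with h5 | h5
        · exfalso
          have h6 := (h𝔮 Q hQ).2
          rw [h5] at h6
          exact absurd h6 v1.ne
        · exact h5
      refine ⟨𝔓₁, fun _ => ⟨o1, v1, w1, by rw [e1]; exact w2, fun 𝔓 h5 => ?_⟩⟩
      rcases hall 𝔓 h5 with h6 | h6
      · exact Or.inr h6
      · exact Or.inl (by rw [e1]; exact h6)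
    · exact ⟨𝔮 Q, fun h5 => absurd h5 hQ⟩
  choose 𝔭 h𝔭 using hex
  set S₁ := S.filter fun Q => ¬ Ev (𝔮 Q) α with hS₁
  have hsub : S₁ ⊆ S := Finset.filter_subset _ _
  have D : Dat θ S₁ 𝔮 𝔭 :=
    { inj := hinj
      mon := fun Q hQ => (hS Q (hsub hQ)).1
      irr := fun Q hQ => (hS Q (hsub hQ)).2.1
      ovq := fun Q hQ => (h𝔮 Q (hsub hQ)).1
      ovp := fun Q hQ => (h𝔭 Q (hsub hQ)).1
      tq := fun Q hQ => (h𝔮 Q (hsub hQ)).2
      tp := fun Q hQ => (h𝔭 Q (hsub hQ)).2.1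
      vq := fun Q hQ => (h𝔭 Q (hsub hQ)).2.2.2.1
      vp := fun Q hQ => (h𝔭 Q (hsub hQ)).2.2.1
      two := fun Q hQ => (h𝔭 Q (hsub hQ)).2.2.2.2 }
  have hfil : (S.filter fun Q => ¬ Ev (𝔮 Q) α ∧ ¬ Sq1 (𝔮 Q) (α * (algebraMap k[X] L Q * θ))) =
      S₁.filter fun Q => ¬ Sq1 (𝔮 Q) (α * (algebraMap k[X] L Q * θ)) := by
    rw [hS₁, Finset.filter_filter]
  rw [hfil]
  by_cases hne : S₁.Nonempty
  swap
  · rw [Finset.not_nonempty_iff_eq_empty] at hne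
    rw [hne]
    simp
  have hodd : ∀ Q ∈ S₁, ¬ Ev (𝔮 Q) α := fun Q hQ => (Finset.mem_filter.1 hQ).2
  have hCS := fun (Q : k[X]) (hQ : Q ∈ S₁) => h2 g k K L O f θ S h hg hG hS Q (hsub hQ)
    (hcg Q (hsub hQ))
  -- the conductor
  obtain ⟨c, hP, hC⟩ : ∃ c : k[X], (∏ Q ∈ S₁, Q) ∣ c - 1 ∧ CI g θ c := by
    have hnd : ∀ Q ∈ S₁, ¬ Q ∣ dsc g f := fun Q hQ => (hCS Q hQ).2.1
    obtain ⟨Q₀, hQ₀⟩ := hne
    have hd0 : dsc g f ≠ 0 := fun h0 => hnd Q₀ hQ₀ (by rw [h0]; exact dvd_zero _)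
    have hcop : IsCoprime (∏ Q ∈ S₁, Q) (dsc g f) := IsCoprime.prod_left fun Q hQ =>
      (D.irr Q hQ).coprime_iff_not_dvd.2 (hnd Q hQ)
    obtain ⟨u, v, huv⟩ := hcop
    refine ⟨v * dsc g f, ⟨-u, ?_⟩, (ci_dsc hG hd0).mul v⟩
    linear_combination huv
  obtain ⟨x, hx1, hx2, hx3⟩ := h4 g k K L O f θ S₁ h R₁ v₁ hg hG (fun Q hQ => hS Q (hsub hQ))
    (fun Q hQ => hcg Q (hsub hQ)) hinf 𝔮 (fun Q hQ => h𝔮 Q (hsub hQ)) α hα hsqn hne hodd
    (fun v hv => hev v fun Q hQ hvQ => by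
      by_contra h6
      exact hv Q (Finset.mem_filter.2 ⟨hQ, h6⟩) hvQ) hev₁
  obtain ⟨β, hβ0, hβ⟩ := D.exists_beta hα hodd
  obtain ⟨η, hη⟩ := D.exists_eta
  obtain ⟨t, ht⟩ := theta_ex (O := O) hG
  have hvb : ∀ Q, 0 < (𝔮 Q).valuation L β := fun Q => zero_lt_iff.2 (val_ne _ hβ0)
  -- approximations
  obtain ⟨κ, hκ⟩ : ∃ κ : O, ∀ Q ∈ S₁, (𝔮 Q).valuation L
      (algebraMap O L κ - algebraMap k[X] L (∏ Q ∈ S₁, Q) * β ^ 2 / α) < 1 := by
    obtain ⟨κ, h5⟩ := crtL (S₁.image 𝔮) (algebraMap k[X] L (∏ Q ∈ S₁, Q) * β ^ 2 / α) (by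
      intro 𝔓 h6
      obtain ⟨Q, hQ, rfl⟩ := Finset.mem_image.1 h6
      apply le_of_eq
      rw [map_div₀, map_mul, map_pow, hβ Q hQ, D.valP hQ (D.ovq Q hQ),
        div_eq_one_iff_eq (val_ne _ hα), mul_left_comm, ← exp_add]
      simp)
    exact ⟨κ, fun Q hQ => h5 _ (Finset.mem_image_of_mem 𝔮 hQ)⟩
  have hζe : ∀ a, ∃ ζ : O, ∀ Q ∈ S₁, (𝔮 Q).valuation L (algebraMap O L ζ - x a / β) < 1 := by
    intro a
    obtain ⟨ζ, h5⟩ := crtL (S₁.image 𝔮) (x a / β) (by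
      intro 𝔓 h6
      obtain ⟨Q, hQ, rfl⟩ := Finset.mem_image.1 h6
      rw [map_div₀, div_le_one₀ (hvb Q)]
      apply le_of_sq_le
      rw [hβ Q hQ]
      have h7 := hx1 a Q hQ (𝔮 Q) (D.ovq Q hQ)
      rwa [if_pos rfl] at h7)
    exact ⟨ζ, fun Q hQ => h5 _ (Finset.mem_image_of_mem 𝔮 hQ)⟩
  choose ζ hζ using hζe
  obtain ⟨hfin, hrank⟩ := finrank_prod g S₁ 𝔮 D.mon fun Q hQ =>
    ((hCS Q hQ).1 (𝔮 Q) (D.ovq Q hQ) (D.tq Q hQ)).2
  have hcl := fun (Q : k[X]) (hQ : Q ∈ S₁) => class_iff D hα hβ0 hβ ht hκ hQ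
    ((hCS Q hQ).1 (𝔮 Q) (D.ovq Q hQ) (D.tq Q hQ)).1
  have key := Pool.Agent.N434.PJ.pry k S₁ (fun i : S₁ => FF (𝔮 i)) (sL hG hC D hη) (redA S₁ 𝔮 κ)
    (redA S₁ 𝔮 t)
    (g * (∏ Q ∈ S₁, Q).natDegree) (fun a => redA S₁ 𝔮 (ζ a))
    (fun a => redA S₁ 𝔮 (yO (k := k) g (∏ Q ∈ S₁, Q).natDegree t a)) h2k
    (fun i h5 => (hcl i i.2).1 ((red_zero _ _).1 h5))
    (fun i h5 => D.t_notMem ht i.2 ((red_zero _ _).1 h5)) hrank
    (sL_nondeg hG hC D hP hη)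
    (first_ind hβ0 hβ hζ hx3)
    (second_ind hG hC D hP ht)
    (fun a b => first_iso hG hC D hP hη hα hβ0 hβ hκ (hx1 a) (hx1 b) (hζ a) (hζ b) (hx2 a b))
    (fun a b => second_iso hG hC D hη ht _ a b)
  have hcard : (Finset.univ.filter fun i : S₁ => ¬ IsSquare (redA S₁ 𝔮 κ i * redA S₁ 𝔮 t i)).card =
      (S₁.filter fun Q => ¬ Sq1 (𝔮 Q) (α * (algebraMap k[X] L Q * θ))).card := by
    rw [← Finset.card_map (Function.Embedding.subtype fun Q => Q ∈ S₁)]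
    congr 1
    ext Q
    simp only [Finset.mem_map, Finset.mem_filter, Finset.mem_univ, true_and]
    constructor
    · rintro ⟨⟨Q', hQ'⟩, h5, rfl⟩
      exact ⟨hQ', fun h6 => h5 ((hcl Q' hQ').2.2 h6)⟩
    · rintro ⟨hQ, h5⟩
      exact ⟨⟨Q, hQ⟩, fun h6 => h5 ((hcl Q hQ).2.1 h6), rfl⟩
  rw [← hcard]
  exact key

end Pool.Agent.Helper28H.FE
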