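import Pool.Agent.Helper28H.FE.Stm
import Pool.Agent.N622.PJ.Rec
import Pool.Agent.N769.PJ.Int

/-!
# Project FE, piece REC: coordinates with a conductor and the functional on the residue fields

Port of `N622/PJ/RecA.lean`, `RecC.lean`, `RecD.lean`. `c` is a polynomial such that `c x` has polynomial
coordinates for all the integral `x`; `co z` are the coordinates of `c z`.
-/

set_option autoImplicit false
set_option linter.all false

open Polynomial IsDedekindDomain Matrix WithZero
open scoped Classical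

namespace Pool.Agent.Helper28H.FE

open Pool.Agent.N352.PJ (Mt IsGen dsc Cg Crd res)
open Pool.Agent.N874.PP (Ov Ev Sq1 U0)
open Pool.Agent.N622.PJ (resL resL_apply res_dvd res_congr dvd_of_res mapO mapK repr_crd top_crd
  crd_uniq crd_add crd_smul theta_ex Dat FF red red_zero red_eq red_surj redA redA_apply redA_smul
  redA_surj algF mem_iff_val yO poly_zero)

section ci

variable {k K L : Type} [Field k] [Field K] [Algebra k[X] K] [IsFractionRing k[X] K]
  [Field L] [Algebra K L] [Algebra k[X] L] [IsScalarTower k[X] K L] {g : ℕ} {f : k[X][X]} {θ : L}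

/-- The conductor: `c x` has polynomial coordinates for all the integral `x`. -/
def CI (g : ℕ) {k L : Type} [Field k] [Field L] [Algebra k[X] L] (θ : L) (c : k[X]) : Prop :=
  ∀ x : L, IsIntegral k[X] x → ∃ v : Fin (2 * g + 1) → k[X],
    Crd g θ v (algebraMap k[X] L c * x)

theorem CI.mul {c : k[X]} (h : CI g θ c) (d : k[X]) : CI g θ (d * c) := by
  intro x hx
  obtain ⟨v, hv⟩ := h x hx
  refine ⟨d • v, ?_⟩
  rw [map_mul, mul_assoc]
  exact crd_smul d hv

/-- The discriminant is a conductor. -/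
theorem ci_dsc (h : IsGen g K f θ) (hd : dsc g f ≠ 0) : CI g θ (dsc g f) := by
  intro x hx
  have hθ := Pool.Agent.N769.PJ.theta_int h
  have : FiniteDimensional K L := Module.Finite.of_basis h.basis
  obtain ⟨c, hc⟩ := h.gen x
  have key : ∀ i₀, ∃ d : k[X], algebraMap k[X] K d = algebraMap k[X] K (dsc g f) * c i₀ := by
    intro i₀
    obtain ⟨m, hm⟩ := Pool.Agent.N769.PJ.dis h hd
    set P : Matrix (Fin (2 * g + 1)) (Fin (2 * g + 1)) K := (1 : Matrix _ _ K).updateCol i₀ c
      with hP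
    have hdet : P.det = c i₀ := by
      rw [hP, ← cramer_apply, cramer_one]
      rfl
    have h1 : IsIntegral k[X] (Algebra.discr K
        ((fun i : Fin (2 * g + 1) => θ ^ (i : ℕ)) ᵥ* P.map (algebraMap K L))) := by
      apply Algebra.discr_isIntegral
      intro j
      have e : ((fun i : Fin (2 * g + 1) => θ ^ (i : ℕ)) ᵥ* P.map (algebraMap K L)) j =
          if j = i₀ then x else θ ^ (j : ℕ) := by
        rw [Matrix.vecMul, dotProduct]
        simp only [Matrix.map_apply]
        split_ifs with hj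
        · subst hj
          rw [hc]
          refine Finset.sum_congr rfl fun i _ => ?_
          rw [hP, updateCol_self, mul_comm]
        · rw [Finset.sum_eq_single j]
          · rw [hP, updateCol_ne hj, one_apply_eq, map_one, mul_one]
          · intro i _ hij
            rw [hP, updateCol_ne hj, one_apply_ne hij, map_zero, mul_zero]
          · intro h0
            exact absurd (Finset.mem_univ _) h0
      rw [e]
      split_ifs
      · exact hx
      · exact hθ.pow _
    rw [Algebra.discr_of_matrix_vecMul, hdet, hm] at h1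
    have h2 : IsIntegral k[X] ((-1 : K) ^ m) := (isIntegral_one.neg).pow m
    have h3 := h2.mul h1
    have e2 : (-1 : K) ^ m * (-1 : K) ^ m = 1 := by
      rw [← mul_pow, neg_one_mul, neg_neg, one_pow]
    have e : (-1 : K) ^ m * (c i₀ ^ 2 * ((-1) ^ m * algebraMap k[X] K (dsc g f))) =
        c i₀ ^ 2 * algebraMap k[X] K (dsc g f) := by
      linear_combination (c i₀ ^ 2 * algebraMap k[X] K (dsc g f)) * e2
    rw [e] at h3
    have h4 : IsIntegral k[X] (algebraMap k[X] K (dsc g f) * c i₀) := by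
      refine IsIntegral.of_pow (n := 2) (by norm_num) ?_
      have : (algebraMap k[X] K (dsc g f) * c i₀) ^ 2 =
          c i₀ ^ 2 * algebraMap k[X] K (dsc g f) * algebraMap k[X] K (dsc g f) := by
        ring
      rw [this]
      exact h3.mul isIntegral_algebraMap
    exact IsIntegrallyClosed.isIntegral_iff.1 h4
  choose v hv using key
  refine ⟨v, ?_⟩
  rw [Crd, hc, Finset.mul_sum]
  refine Finset.sum_congr rfl fun i _ => ?_
  rw [IsScalarTower.algebraMap_apply k[X] K L (v i), hv, map_mul,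
    ← IsScalarTower.algebraMap_apply k[X] K L, mul_assoc]

end ci

section co

variable {k K L O : Type} [Field k] [Field K] [Algebra k[X] K] [IsFractionRing k[X] K]
  [Field L] [Algebra K L] [Algebra k[X] L] [IsScalarTower k[X] K L] [CommRing O]
  [IsDedekindDomain O] [Algebra O L] [IsFractionRing O L] [Algebra k[X] O]
  [IsScalarTower k[X] O L] [IsIntegralClosure O k[X] L] {g : ℕ} {f : k[X][X]} {θ : L} {c : k[X]}

theorem exO (hC : CI g θ c) (z : O) :
    ∃ v : Fin (2 * g + 1) → k[X], Crd g θ v (algebraMap k[X] L c * algebraMap O L z) :=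
  hC _ ((IsIntegralClosure.isIntegral_iff (A := O)).2 ⟨z, rfl⟩)

/-- the coordinates of `c` times an integral element -/
noncomputable def co (hG : IsGen g K f θ) (hC : CI g θ c) :
    O →ₗ[k[X]] (Fin (2 * g + 1) → k[X]) where
  toFun z := (exO hC z).choose
  map_add' x y := by
    apply crd_uniq hG (exO hC (x + y)).choose_spec
    rw [map_add, mul_add]
    exact crd_add (exO hC x).choose_spec (exO hC y).choose_spec
  map_smul' d x := by
    apply crd_uniq hG (exO hC (d • x)).choose_spec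
    have h1 : algebraMap k[X] L c * algebraMap O L (d • x) =
        algebraMap k[X] L d * (algebraMap k[X] L c * algebraMap O L x) := by
      rw [Algebra.smul_def, map_mul, mapO]
      ring
    rw [h1]
    exact crd_smul d (exO hC x).choose_spec

variable (hG : IsGen g K f θ) (hC : CI g θ c)

theorem co_spec (z : O) : Crd g θ (co hG hC z) (algebraMap k[X] L c * algebraMap O L z) :=
  (exO hC z).choose_spec

/-- the coefficient of `θ ^ (2 g)` -/
noncomputable def tp : O →ₗ[k[X]] k[X] := (LinearMap.proj (Fin.last (2 * g))) ∘ₗ co hG hC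

theorem tp_apply (z : O) : tp hG hC z = co hG hC z (Fin.last (2 * g)) := rfl

theorem tp_spec (z : O) : algebraMap k[X] K (tp hG hC z) =
    hG.top (algebraMap k[X] L c * algebraMap O L z) := by
  rw [top_crd hG (co_spec hG hC z)]; rfl

/-- divisibility by a polynomial -/
theorem dvd_co {P : k[X]} {z : O} (h : algebraMap k[X] O P ∣ z) (i : Fin (2 * g + 1)) :
    P ∣ co hG hC z i := by
  obtain ⟨w, rfl⟩ := h
  rw [← Algebra.smul_def, map_smul]
  exact Dvd.intro _ rfl

theorem dvd_tp {P : k[X]} {z : O} (h : algebraMap k[X] O P ∣ z) : P ∣ tp hG hC z :=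
  dvd_co hG hC h _

theorem co_sum {t : O} (ht : algebraMap O L t = θ) (z : O) :
    algebraMap k[X] O c * z = ∑ i, algebraMap k[X] O (co hG hC z i) * t ^ (i : ℕ) := by
  apply IsFractionRing.injective O L
  rw [map_sum, map_mul, mapO]
  conv_lhs => rw [co_spec hG hC z]
  refine Finset.sum_congr rfl fun i _ => ?_
  rw [map_mul, map_pow, mapO, ht]

theorem dvd_of_co {t : O} (ht : algebraMap O L t = θ) {P : k[X]} (hP : P ∣ c - 1) {z : O}
    (h : ∀ i, P ∣ co hG hC z i) : algebraMap k[X] O P ∣ z := by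
  have h1 : algebraMap k[X] O P ∣ algebraMap k[X] O c * z := by
    rw [co_sum hG hC ht z]
    refine Finset.dvd_sum fun i _ => ?_
    exact Dvd.dvd.mul_right (_root_.map_dvd _ (h i)) _
  have h2 : algebraMap k[X] O P ∣ algebraMap k[X] O (c - 1) * z :=
    Dvd.dvd.mul_right (_root_.map_dvd _ hP) _
  have h3 : z = algebraMap k[X] O c * z - algebraMap k[X] O (c - 1) * z := by
    rw [map_sub, map_one]; ring
  rw [h3]
  exact dvd_sub h1 h2

/-- the coordinates of a combination of the powers -/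
theorem co_low {t : O} (ht : algebraMap O L t = θ) (v : Fin (2 * g + 1) → k[X]) :
    co hG hC (∑ i, algebraMap k[X] O (v i) * t ^ (i : ℕ)) = c • v := by
  apply crd_uniq hG (co_spec hG hC _)
  apply crd_smul
  rw [map_sum, Crd]
  refine Finset.sum_congr rfl fun i _ => ?_
  rw [map_mul, map_pow, mapO, ht]

theorem co_pow {t : O} (ht : algebraMap O L t = θ) {m : ℕ} (hm : m < 2 * g + 1) :
    co hG hC (t ^ m) = c • Pi.single (⟨m, hm⟩ : Fin (2 * g + 1)) 1 := by
  have h1 := co_low hG hC ht (Pi.single (⟨m, hm⟩ : Fin (2 * g + 1)) 1)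
  have h2 : (∑ i : Fin (2 * g + 1), algebraMap k[X] O
      ((Pi.single (⟨m, hm⟩ : Fin (2 * g + 1)) (1 : k[X]) : Fin (2 * g + 1) → k[X]) i) *
        t ^ (i : ℕ)) = t ^ m := by
    rw [Finset.sum_eq_single (⟨m, hm⟩ : Fin (2 * g + 1))]
    · simp
    · intro b _ hb
      rw [Pi.single_eq_of_ne hb, map_zero, zero_mul]
    · intro h; exact absurd (Finset.mem_univ _) h
  rw [h2] at h1
  exact h1

/-- the coordinates of a power of `θ` -/
theorem tp_pow {t : O} (ht : algebraMap O L t = θ) {m : ℕ} (hm : m ≤ 2 * g) :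
    tp hG hC (t ^ m) = if m = 2 * g then c else 0 := by
  rw [tp_apply, co_pow hG hC ht (by omega), Pi.smul_apply, Pi.single_apply, smul_eq_mul]
  by_cases h : m = 2 * g
  · rw [if_pos h, if_pos (by rw [Fin.ext_iff, Fin.val_last]; exact h.symm), mul_one]
  · rw [if_neg h, if_neg (by rw [Fin.ext_iff, Fin.val_last]; exact fun h' => h h'.symm), mul_zero]

/-- divisibility from the top coefficients -/
theorem dvd_of_top {t : O} (ht : algebraMap O L t = θ) {P : k[X]} (hP : P ∣ c - 1) {z : O}
    (h : ∀ m ≤ 2 * g, P ∣ tp hG hC (z * t ^ m)) : algebraMap k[X] O P ∣ z := by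
  apply dvd_of_co hG hC ht hP
  have key : ∀ n : ℕ, ∀ i : Fin (2 * g + 1), 2 * g - (i : ℕ) = n → P ∣ co hG hC z i := by
    intro n
    induction n using Nat.strong_induction_on with
    | _ n ih =>
      intro i hi
      have hi2 := i.2
      have h1 : P ∣ tp hG hC (c • (z * t ^ (2 * g - (i : ℕ)))) := by
        rw [map_smul, smul_eq_mul]
        exact Dvd.dvd.mul_left (h (2 * g - i) (by omega)) _
      have h2 : c • (z * t ^ (2 * g - (i : ℕ))) = ∑ j : Fin (2 * g + 1),
          (co hG hC z j) • t ^ ((j : ℕ) + (2 * g - (i : ℕ))) := by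
        rw [Algebra.smul_def, ← mul_assoc, co_sum hG hC ht z, Finset.sum_mul]
        refine Finset.sum_congr rfl fun j _ => ?_
        rw [Algebra.smul_def, pow_add, mul_assoc]
      rw [h2, map_sum, ← Finset.add_sum_erase _ _ (Finset.mem_univ i)] at h1
      have h3 : P ∣ ∑ j ∈ Finset.univ.erase i, tp hG hC
          ((co hG hC z j) • t ^ ((j : ℕ) + (2 * g - (i : ℕ)))) := by
        refine Finset.dvd_sum fun j hj => ?_
        rw [map_smul, smul_eq_mul]
        rcases lt_trichotomy (j : ℕ) (i : ℕ) with hlt | heq | hgt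
        · rw [tp_pow hG hC ht (by omega), if_neg (by omega), mul_zero]
          exact dvd_zero _
        · exact absurd (Fin.ext heq) (Finset.ne_of_mem_erase hj)
        · have hj2 := j.2
          exact Dvd.dvd.mul_right (ih (2 * g - (j : ℕ)) (by omega) j rfl) _
      rw [dvd_add_left h3, map_smul, smul_eq_mul,
        show (i : ℕ) + (2 * g - (i : ℕ)) = 2 * g by omega, tp_pow hG hC ht le_rfl,
        if_pos rfl] at h1
      have h4 : co hG hC z i = co hG hC z i * c - co hG hC z i * (c - 1) := by ring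
      rw [h4]
      exact dvd_sub h1 (Dvd.dvd.mul_left hP _)
  exact fun i => key _ i rfl

end co

section lam

variable {k K L O : Type} [Field k] [Field K] [Algebra k[X] K] [IsFractionRing k[X] K]
  [Field L] [Algebra K L] [Algebra k[X] L] [IsScalarTower k[X] K L] [CommRing O]
  [IsDedekindDomain O] [Algebra O L] [IsFractionRing O L] [Algebra k[X] O]
  [IsScalarTower k[X] O L] [IsIntegralClosure O k[X] L] {g : ℕ} {f : k[X][X]} {θ : L} {c : k[X]}
  {S₁ : Finset k[X]} {𝔮 𝔭 : k[X] → HeightOneSpectrum O}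

/-- `res (top (c η z))` -/
noncomputable def lam (hG : IsGen g K f θ) (hC : CI g θ c)
    (S₁ : Finset k[X]) (η z : O) : k := res (∏ Q ∈ S₁, Q) (tp hG hC (η * z))

variable (hG : IsGen g K f θ) (hC : CI g θ c)

theorem lam_add (η z w : O) : lam hG hC S₁ η (z + w) =
    lam hG hC S₁ η z + lam hG hC S₁ η w := by
  rw [lam, lam, lam, mul_add, map_add, ← resL_apply, ← resL_apply, ← resL_apply, map_add]

theorem lam_smul (η z : O) (a : k) : lam hG hC S₁ η (algebraMap k[X] O (C a) * z) =
    a * lam hG hC S₁ η z := by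
  rw [lam, lam, mul_left_comm, ← Algebra.smul_def, map_smul, ← resL_apply, ← resL_apply,
    smul_eq_mul, ← smul_eq_C_mul, map_smul, smul_eq_mul]

/-- congruences modulo `P` -/
theorem lam_congr (D : Dat θ S₁ 𝔮 𝔭) {η z w : O} (h : algebraMap k[X] O (∏ Q ∈ S₁, Q) ∣ η * z - w) :
    lam hG hC S₁ η z = res (∏ Q ∈ S₁, Q) (tp hG hC w) := by
  rw [lam]
  apply res_congr D.monP
  rw [← map_sub]
  exact dvd_tp hG hC h

/-- the functional depends only on the classes modulo the `𝔮 Q` -/
theorem lam_well (D : Dat θ S₁ 𝔮 𝔭) {η : O}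
    (hη : ∀ Q ∈ S₁, η - 1 ∈ (𝔮 Q).asIdeal ∧ η ∈ (𝔭 Q).asIdeal) {z w : O}
    (h : redA S₁ 𝔮 z = redA S₁ 𝔮 w) : lam hG hC S₁ η z = lam hG hC S₁ η w := by
  rw [lam_congr hG hC D (w := η * w), lam]
  rw [← mul_sub]
  apply D.dvd
  intro Q hQ
  constructor
  · apply Ideal.mul_mem_left
    have h1 := congrFun h ⟨Q, hQ⟩
    rw [redA_apply, redA_apply, red_eq] at h1
    exact h1
  · exact Ideal.mul_mem_right _ _ (hη Q hQ).2

attribute [local instance] algF

/-- the functional -/
noncomputable def sL (D : Dat θ S₁ 𝔮 𝔭) {η : O}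
    (hη : ∀ Q ∈ S₁, η - 1 ∈ (𝔮 Q).asIdeal ∧ η ∈ (𝔭 Q).asIdeal) :
    (∀ i : S₁, FF (𝔮 i)) →ₗ[k] k where
  toFun z := lam hG hC S₁ η (redA_surj D z).choose
  map_add' x y := by
    rw [← lam_add]
    apply lam_well hG hC D hη
    rw [(redA_surj D (x + y)).choose_spec, map_add, (redA_surj D x).choose_spec,
      (redA_surj D y).choose_spec]
  map_smul' a x := by
    rw [RingHom.id_apply, smul_eq_mul, ← lam_smul]
    apply lam_well hG hC D hη
    rw [(redA_surj D (a • x)).choose_spec, ← redA_smul, (redA_surj D x).choose_spec]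

theorem sL_redA (D : Dat θ S₁ 𝔮 𝔭) {η : O}
    (hη : ∀ Q ∈ S₁, η - 1 ∈ (𝔮 Q).asIdeal ∧ η ∈ (𝔭 Q).asIdeal) (z : O) :
    sL hG hC D hη (redA S₁ 𝔮 z) = lam hG hC S₁ η z :=
  lam_well hG hC D hη (redA_surj D (redA S₁ 𝔮 z)).choose_spec

/-- the functional is nondegenerate -/
theorem sL_nondeg (D : Dat θ S₁ 𝔮 𝔭) (hP : (∏ Q ∈ S₁, Q) ∣ c - 1) {η : O}
    (hη : ∀ Q ∈ S₁, η - 1 ∈ (𝔮 Q).asIdeal ∧ η ∈ (𝔭 Q).asIdeal) (z : ∀ i : S₁, FF (𝔮 i))
    (h : ∀ t, sL hG hC D hη (z * t) = 0) : z = 0 := by
  obtain ⟨y, rfl⟩ := redA_surj D z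
  obtain ⟨t, ht⟩ := theta_ex (O := O) hG
  have h1 : algebraMap k[X] O (∏ Q ∈ S₁, Q) ∣ η * y := by
    apply dvd_of_top hG hC ht hP
    intro m _
    apply dvd_of_res D.monP
    intro a
    have h2 := h (redA S₁ 𝔮 (algebraMap k[X] O a * t ^ m))
    rw [← map_mul, sL_redA, lam] at h2
    rw [← h2]
    congr 1
    rw [← smul_eq_mul, ← map_smul, Algebra.smul_def]
    congr 1
    ring
  funext i
  rw [redA_apply, Pi.zero_apply, red_zero]
  have h3 := D.mem_of_dvd h1 i.2
  have h4 : y = η * y - (η - 1) * y := by ring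
  rw [h4]
  exact Ideal.sub_mem _ h3 (Ideal.mul_mem_right _ _ (hη i i.2).1)

/-- the second Lagrangian is isotropic -/
theorem second_iso (D : Dat θ S₁ 𝔮 𝔭) {η : O}
    (hη : ∀ Q ∈ S₁, η - 1 ∈ (𝔮 Q).asIdeal ∧ η ∈ (𝔭 Q).asIdeal) {t : O}
    (ht : algebraMap O L t = θ) (d : ℕ) (a b : Fin (g * d)) :
    sL hG hC D hη (redA S₁ 𝔮 t * redA S₁ 𝔮 (yO (k := k) g d t a) *
      redA S₁ 𝔮 (yO (k := k) g d t b)) = 0 := by
  rw [← map_mul, ← map_mul, sL_redA]
  set i := (finProdFinEquiv.symm a).1 with hi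
  set l := (finProdFinEquiv.symm a).2 with hl
  set i' := (finProdFinEquiv.symm b).1 with hi'
  set l' := (finProdFinEquiv.symm b).2 with hl'
  have e1 : t * yO (k := k) g d t a * yO (k := k) g d t b =
      (X ^ ((l : ℕ) + (l' : ℕ)) : k[X]) • t ^ (1 + (i : ℕ) + (i' : ℕ)) := by
    rw [yO, yO, ← hi, ← hl, ← hi', ← hl', Algebra.smul_def, pow_add, map_mul, pow_add, pow_add,
      pow_one]
    ring
  rw [lam_congr hG hC D (w := t * yO (k := k) g d t a * yO (k := k) g d t b)]
  · rw [e1, map_smul, tp_pow hG hC ht (by have := i.2; have := i'.2; omega),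
      if_neg (by have := i.2; have := i'.2; omega), smul_zero, ← resL_apply, map_zero]
  · apply D.dvd
    intro Q hQ
    have h1 : η * (t * yO (k := k) g d t a * yO (k := k) g d t b) -
        t * yO (k := k) g d t a * yO (k := k) g d t b =
        (η - 1) * (t * yO (k := k) g d t a * yO (k := k) g d t b) := by ring
    rw [h1]
    refine ⟨Ideal.mul_mem_right _ _ (hη Q hQ).1, ?_⟩
    rw [mul_assoc t]
    exact Ideal.mul_mem_left _ _ (Ideal.mul_mem_right _ _ (D.t_mem ht hQ))

include hG hC in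
/-- the second Lagrangian is independent -/
theorem second_ind (D : Dat θ S₁ 𝔮 𝔭) (hP : (∏ Q ∈ S₁, Q) ∣ c - 1) {t : O}
    (ht : algebraMap O L t = θ) :
    LinearIndependent k (fun a : Fin (g * (∏ Q ∈ S₁, Q).natDegree) =>
      redA S₁ 𝔮 (yO (k := k) g (∏ Q ∈ S₁, Q).natDegree t a)) := by
  set d := (∏ Q ∈ S₁, Q).natDegree with hd
  rw [Fintype.linearIndependent_iff]
  intro b hb
  simp only [redA_smul] at hb
  rw [← map_sum] at hb
  set w := ∑ a, algebraMap k[X] O (C (b a)) * yO (k := k) g d t a with hw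
  have h1 : algebraMap k[X] O (∏ Q ∈ S₁, Q) ∣ t * w := by
    apply D.dvd
    intro Q hQ
    refine ⟨Ideal.mul_mem_left _ _ ?_, Ideal.mul_mem_right _ _ (D.t_mem ht hQ)⟩
    have h2 := congrFun hb ⟨Q, hQ⟩
    rw [redA_apply, Pi.zero_apply, red_zero] at h2
    exact h2
  have h2 : t * w = ∑ p : Fin g × Fin d, (C (b (finProdFinEquiv p)) * X ^ (p.2 : ℕ)) •
      t ^ ((p.1 : ℕ) + 1) := by
    rw [hw, ← finProdFinEquiv.sum_comp, Finset.mul_sum]
    refine Finset.sum_congr rfl fun p _ => ?_
    rw [yO, Equiv.symm_apply_apply, Algebra.smul_def, map_mul, pow_succ]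
    ring
  have h3 : ∀ i : Fin g, (∏ Q ∈ S₁, Q) ∣ ∑ l : Fin d, C (b (finProdFinEquiv (i, l))) * X ^ (l : ℕ) := by
    intro i
    have h4 := dvd_co hG hC h1 (⟨(i : ℕ) + 1, by have := i.2; omega⟩ : Fin (2 * g + 1))
    rw [h2, map_sum, Finset.sum_apply, Fintype.sum_prod_type, Finset.sum_eq_single i] at h4
    · have h5 : (∑ l : Fin d, (co hG hC ((C (b (finProdFinEquiv (i, l))) * X ^ (l : ℕ)) •
            t ^ ((i : ℕ) + 1))) (⟨(i : ℕ) + 1, by have := i.2; omega⟩ : Fin (2 * g + 1))) =
          (∑ l : Fin d, C (b (finProdFinEquiv (i, l))) * X ^ (l : ℕ)) * c := by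
        rw [Finset.sum_mul]
        refine Finset.sum_congr rfl fun l _ => ?_
        rw [map_smul, Pi.smul_apply, co_pow hG hC ht (by have := i.2; omega), Pi.smul_apply,
          Pi.single_eq_same, smul_eq_mul, smul_eq_mul, mul_one]
      rw [h5] at h4
      have h6 : (∑ l : Fin d, C (b (finProdFinEquiv (i, l))) * X ^ (l : ℕ)) =
          (∑ l : Fin d, C (b (finProdFinEquiv (i, l))) * X ^ (l : ℕ)) * c -
          (∑ l : Fin d, C (b (finProdFinEquiv (i, l))) * X ^ (l : ℕ)) * (c - 1) := by ring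
      rw [h6]
      exact dvd_sub h4 (Dvd.dvd.mul_left hP _)
    · intro j _ hj
      refine Finset.sum_eq_zero fun l _ => ?_
      rw [map_smul, Pi.smul_apply, co_pow hG hC ht (by have := j.2; omega), Pi.smul_apply,
        Pi.single_apply, if_neg, smul_zero, smul_zero]
      intro h
      rw [Fin.ext_iff] at h
      apply hj
      apply Fin.ext
      simpa using h.symm
    · intro h; exact absurd (Finset.mem_univ _) h
  intro a
  obtain ⟨⟨i, l⟩, rfl⟩ := finProdFinEquiv.surjective a
  exact congrFun (poly_zero D.monP (fun l => b (finProdFinEquiv (i, l))) (h3 i)) l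

end lam

end Pool.Agent.Helper28H.FE
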