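import Pool.Agent.Helper28H.FE.Stm

/-!
# Project FE, piece RES: auxiliary statements
-/

set_option autoImplicit false
set_option linter.all false

open Polynomial IsDedekindDomain

namespace Pool.Agent.Helper28H.FE.ResA

open Pool.Agent.N352.PJ (IsGen dsc Cg Crd)
open Pool.Agent.N874.PP (Ov Ev Sq1)

section residue

variable {k : Type} [Field k] {F : Type} [Field F] [Finite F] (r : k[X] →+* F)

/-- The composition `k[X] → F → Ω`. -/
noncomputable def rho : k[X] →+* AlgebraicClosure F := (algebraMap F (AlgebraicClosure F)).comp r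

theorem rho_zero {Q : k[X]} (hker : ∀ c, r c = 0 ↔ Q ∣ c) (c : k[X]) : rho r c = 0 ↔ Q ∣ c := by
  rw [rho, RingHom.comp_apply, map_eq_zero, hker]

/-- The residue field at a prime over `Q`. -/
theorem exists_residue {A : Type} [CommRing A] [Algebra k[X] A] [Algebra.IsIntegral k[X] A]
    (hr : Function.Surjective r) {Q : k[X]} (hker : ∀ c, r c = 0 ↔ Q ∣ c) (p : Ideal A)
    (hp : p.IsMaximal) (hQ : algebraMap k[X] A Q ∈ p) :
    ∃ ψ : A →+* AlgebraicClosure F, (∀ x, ψ x = 0 ↔ x ∈ p) ∧
      ∀ c, ψ (algebraMap k[X] A c) = rho r c := by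
  let _ : Field (A ⧸ p) := Ideal.Quotient.field p
  have hle : RingHom.ker r ≤ RingHom.ker ((Ideal.Quotient.mk p).comp (algebraMap k[X] A)) := by
    intro c hc
    obtain ⟨d, rfl⟩ := (hker c).1 hc
    rw [RingHom.mem_ker, RingHom.comp_apply, Ideal.Quotient.eq_zero_iff_mem, map_mul]
    exact p.mul_mem_right _ hQ
  let j : F →+* A ⧸ p := RingHom.liftOfSurjective r hr ⟨_, hle⟩
  have hj : ∀ c, j (r c) = Ideal.Quotient.mk p (algebraMap k[X] A c) := fun c =>
    RingHom.liftOfRightInverse_comp_apply _ _ _ ⟨_, hle⟩ c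
  let _ : Algebra F (A ⧸ p) := j.toAlgebra
  have : Algebra.IsAlgebraic F (A ⧸ p) := by
    constructor
    intro y
    obtain ⟨b, rfl⟩ := Ideal.Quotient.mk_surjective y
    obtain ⟨P, hP, hP'⟩ := Algebra.IsIntegral.isIntegral (R := k[X]) b
    apply IsIntegral.isAlgebraic
    refine ⟨P.map r, hP.map _, ?_⟩
    rw [eval₂_map]
    have h3 : (algebraMap F (A ⧸ p)).comp r =
        (Ideal.Quotient.mk p).comp (algebraMap k[X] A) := RingHom.ext hj
    rw [h3, ← hom_eval₂, hP', map_zero]
  let ℓ : (A ⧸ p) →ₐ[F] AlgebraicClosure F := IsAlgClosed.lift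
  refine ⟨(ℓ : (A ⧸ p) →+* AlgebraicClosure F).comp (Ideal.Quotient.mk p), fun x => ?_,
    fun c => ?_⟩
  · rw [RingHom.comp_apply, map_eq_zero, Ideal.Quotient.eq_zero_iff_mem]
  · rw [RingHom.comp_apply, ← hj]
    exact ℓ.commutes (r c)

/-- The elements fixed by the Frobenius automorphism. -/
theorem frob_fixed (z : AlgebraicClosure F) (hz : z ^ Nat.card F = z) :
    ∃ c : F, algebraMap F (AlgebraicClosure F) c = z := by
  classical
  have := Fintype.ofFinite F
  rw [Nat.card_eq_fintype_card] at hz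
  have hne : (X ^ Fintype.card F - X : F[X]) ≠ 0 :=
    FiniteField.X_pow_card_sub_X_ne_zero F Fintype.one_lt_card
  have hmon : (X ^ Fintype.card F - X : F[X]).Monic := by
    apply monic_X_pow_sub
    rw [degree_X]
    exact_mod_cast Fintype.one_lt_card (α := F)
  have hspl : (X ^ Fintype.card F - X : F[X]) = ∏ a : F, (X - C a) := by
    have h1 : (X ^ Fintype.card F - X : F[X]).roots.card = (X ^ Fintype.card F - X : F[X]).natDegree := by
      rw [FiniteField.roots_X_pow_card_sub_X,
        FiniteField.X_pow_card_sub_X_natDegree_eq F Fintype.one_lt_card]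
      rfl
    have h2 := prod_multiset_X_sub_C_of_monic_of_roots_card_eq hmon h1
    rw [FiniteField.roots_X_pow_card_sub_X] at h2
    exact h2.symm
  have h3 : aeval z (X ^ Fintype.card F - X : F[X]) = 0 := by
    rw [map_sub, map_pow, aeval_X, hz, sub_self]
  rw [hspl, map_prod, Finset.prod_eq_zero_iff] at h3
  obtain ⟨a, -, ha⟩ := h3
  rw [map_sub, aeval_X, aeval_C, sub_eq_zero] at ha
  exact ⟨a, ha.symm⟩

theorem aeval_frob (p : F[X]) (t : AlgebraicClosure F) :
    aeval (t ^ Nat.card F) p = (aeval t p) ^ Nat.card F := by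
  have := Fintype.ofFinite F
  rw [Nat.card_eq_fintype_card, ← expand_aeval, FiniteField.expand_card, map_pow]

/-- The polynomial modulo `Q`. -/
theorem poly_part (g : ℕ) {Q : k[X]} (hr : Function.Surjective r) (hker : ∀ c, r c = 0 ↔ Q ∣ c)
    (f : k[X][X]) (hmon : f.Monic)
    (hdeg : f.natDegree = 2 * g + 1) (e₀ t : AlgebraicClosure F) (he₀ : e₀ ^ Nat.card F = e₀)
    (hf : f.map (rho r) =
      (X - C e₀) * ∏ j ∈ Finset.range (2 * g), (X - C (t ^ (Nat.card F ^ j))))
    (hinj : ∀ i < 2 * g, ∀ j < 2 * g, t ^ (Nat.card F ^ i) = t ^ (Nat.card F ^ j) → i = j)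
    (hg : 1 ≤ g) :
    ∃ (e : k[X]) (h : k[X][X]), rho r e = e₀ ∧ h.Monic ∧ h.natDegree = 2 * g ∧
      Irreducible (h.map r) ∧ Cg Q f ((X - C e) * h) := by
  classical
  obtain ⟨z, hz⟩ := frob_fixed e₀ he₀
  obtain ⟨e, he⟩ := hr z
  set fF := f.map r with hfF
  have hmap : fF.map (algebraMap F (AlgebraicClosure F)) = f.map (rho r) := by
    rw [hfF, Polynomial.map_map]
    rfl
  have hfm : fF.Monic := hmon.map _
  have hroot : fF.IsRoot z := by
    rw [IsRoot.def]
    apply (algebraMap F (AlgebraicClosure F)).injective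
    rw [map_zero, ← eval_map_apply, hmap, hf, hz, eval_mul, eval_sub, eval_X, eval_C, sub_self,
      zero_mul]
  obtain ⟨hF, hhF⟩ := dvd_iff_isRoot.2 hroot
  have hhm : hF.Monic := (monic_X_sub_C z).of_mul_monic_left (hhF ▸ hfm)
  have hfd : fF.natDegree = 2 * g + 1 := by rw [hfF, hmon.natDegree_map, hdeg]
  have hhd : hF.natDegree = 2 * g := by
    rw [hhF, (monic_X_sub_C z).natDegree_mul hhm, natDegree_X_sub_C] at hfd
    omega
  have hprod : hF.map (algebraMap F (AlgebraicClosure F)) =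
      ∏ j ∈ Finset.range (2 * g), (X - C (t ^ (Nat.card F ^ j))) := by
    have h1 := hmap
    rw [hf, hhF, Polynomial.map_mul, Polynomial.map_sub, map_X, map_C, hz] at h1
    exact mul_left_cancel₀ (X_sub_C_ne_zero e₀) h1
  have hint : IsIntegral F t := (Algebra.IsAlgebraic.isAlgebraic t).isIntegral
  have hroots : ∀ j, aeval (t ^ (Nat.card F ^ j)) (minpoly F t) = 0 := by
    intro j
    induction j with
    | zero => rw [pow_zero, pow_one, minpoly.aeval]
    | succ j ih =>
      rw [pow_succ, pow_mul, aeval_frob, ih, zero_pow Nat.card_pos.ne']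
  have hdvd : minpoly F t ∣ hF := by
    apply minpoly.dvd
    rw [← eval_map_algebraMap, hprod, eval_prod]
    apply Finset.prod_eq_zero (Finset.mem_range.2 (show 0 < 2 * g by omega))
    rw [pow_zero, pow_one, eval_sub, eval_X, eval_C, sub_self]
  have hcard : 2 * g ≤ (minpoly F t).natDegree := by
    have h0 : (minpoly F t).map (algebraMap F (AlgebraicClosure F)) ≠ 0 :=
      ((minpoly.monic hint).map _).ne_zero
    have h1 : ((Finset.range (2 * g)).image fun j => t ^ (Nat.card F ^ j)).card = 2 * g := by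
      rw [Finset.card_image_of_injOn, Finset.card_range]
      intro i hi j hj hij
      exact hinj i (Finset.mem_range.1 hi) j (Finset.mem_range.1 hj) hij
    have h2 : ((Finset.range (2 * g)).image fun j => t ^ (Nat.card F ^ j)) ⊆
        ((minpoly F t).map (algebraMap F (AlgebraicClosure F))).roots.toFinset := by
      intro y hy
      obtain ⟨j, -, rfl⟩ := Finset.mem_image.1 hy
      rw [Multiset.mem_toFinset, mem_roots h0, IsRoot.def, eval_map_algebraMap]
      exact hroots j
    have h3 := Finset.card_le_card h2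
    rw [h1] at h3
    refine h3.trans ((Multiset.toFinset_card_le _).trans ((card_roots' _).trans ?_))
    rw [(minpoly.monic hint).natDegree_map]
  have heq : hF = minpoly F t :=
    eq_of_monic_of_dvd_of_natDegree_le (minpoly.monic hint) hhm hdvd (by rw [hhd]; exact hcard)
  obtain ⟨h, hh1, hh2, hh3⟩ := lifts_and_natDegree_eq_and_monic (f := r)
    (p := hF) (by
      rw [lifts_iff_coeff_lifts]
      intro i
      exact hr _) hhm
  refine ⟨e, h, ?_, hh3, hh2.trans hhd, ?_, ?_⟩
  · rw [← hz, ← he]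
    rfl
  · rw [hh1, heq]
    exact minpoly.irreducible hint
  · intro j
    rw [← hker, map_sub, sub_eq_zero, ← coeff_map, ← coeff_map]
    congr 1
    rw [Polynomial.map_mul, hh1, ← hfF, hhF, Polynomial.map_sub, map_X, map_C, he]

end residue

/-- Nonzero integral elements divide a nonzero polynomial. -/
theorem exists_dvd {k A : Type} [Field k] [CommRing A] [IsDomain A] [Algebra k[X] A]
    [Algebra.IsIntegral k[X] A] (z : A) (hz : z ≠ 0) :
    ∃ c : k[X], c ≠ 0 ∧ z ∣ algebraMap k[X] A c := by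
  have h1 := Ideal.comap_ne_bot_of_integral_mem (R := k[X]) (I := Ideal.span {z}) hz
    (Ideal.mem_span_singleton_self z) (Algebra.IsIntegral.isIntegral z)
  obtain ⟨c, hc, hc0⟩ := Submodule.exists_mem_ne_zero_of_ne_bot h1
  exact ⟨c, hc0, Ideal.mem_span_singleton.1 hc⟩

/-- The powers of the Frobenius automorphism. -/
theorem frob_pow {k A Ω : Type} [Field k] [CommRing A] [Algebra k[X] A] [Field Ω] {q : ℕ}
    {φ : A →+* Ω} {s : A ≃ₐ[k[X]] A} (h : ∀ x, φ (s x) = φ x ^ q) (i : ℕ) (x : A) :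
    φ ((s ^ i) x) = φ x ^ (q ^ i) := by
  induction i generalizing x with
  | zero => rw [pow_zero, pow_zero, pow_one]; rfl
  | succ i ih =>
    rw [pow_succ', AlgEquiv.mul_apply, h, ih, ← pow_mul, pow_succ]

/-- The index. -/
theorem exists_index {k K L O : Type} [Field k] [Field K] [Algebra k[X] K] [IsFractionRing k[X] K]
    [Field L] [Algebra K L] [Algebra k[X] L] [IsScalarTower k[X] K L] [CommRing O]
    [Algebra O L] [Algebra k[X] O] [IsScalarTower k[X] O L] [IsIntegralClosure O k[X] L]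
    [Module.Finite k[X] O] (t : O)
    (ht : ∀ x : L, ∃ P : K[X], x = aeval (algebraMap O L t) P) :
    ∃ D : k[X], D ≠ 0 ∧ ∀ x : O, ∃ P : k[X][X], algebraMap k[X] O D * x = aeval t P := by
  classical
  have h1 : ∀ x : O, ∃ D : k[X], D ≠ 0 ∧ ∃ P : k[X][X], algebraMap k[X] O D * x = aeval t P := by
    intro x
    obtain ⟨P, hP⟩ := ht (algebraMap O L x)
    obtain ⟨b, hb, hbP⟩ := IsLocalization.integerNormalization_spec (nonZeroDivisors k[X]) P
    have hb0 : b ≠ 0 := nonZeroDivisors.ne_zero hb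
    refine ⟨b, hb0, IsLocalization.integerNormalization (nonZeroDivisors k[X]) P, ?_⟩
    apply IsIntegralClosure.algebraMap_injective O k[X] L
    rw [← aeval_algebraMap_apply L t, ← aeval_map_algebraMap K, hbP, ← algebraMap_smul K b P,
      map_smul, ← hP, map_mul, Algebra.smul_def, ← IsScalarTower.algebraMap_apply,
      ← IsScalarTower.algebraMap_apply]
  choose D hD P hP using h1
  obtain ⟨s, hs⟩ := Module.Finite.fg_top (R := k[X]) (M := O)
  refine ⟨∏ x ∈ s, D x, Finset.prod_ne_zero_iff.2 fun x _ => hD x, fun x => ?_⟩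
  have hx : x ∈ Submodule.span k[X] (s : Set O) := hs ▸ Submodule.mem_top
  induction hx using Submodule.span_induction with
  | mem x hx =>
    rw [← Finset.mul_prod_erase s D hx]
    refine ⟨C (∏ y ∈ s.erase x, D y) * P x, ?_⟩
    rw [map_mul (aeval t), ← hP, aeval_C, map_mul (algebraMap k[X] O)]
    ring
  | zero => exact ⟨0, by simp⟩
  | add x y _ _ hx hy =>
    obtain ⟨P, hP⟩ := hx
    obtain ⟨Q, hQ⟩ := hy
    exact ⟨P + Q, by rw [map_add, ← hP, ← hQ, mul_add]⟩
  | smul a x _ hx =>
    obtain ⟨P, hP⟩ := hx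
    refine ⟨C a * P, ?_⟩
    rw [map_mul (aeval t), ← hP, aeval_C, Algebra.smul_def]
    ring

/-- Homomorphisms which agree at a generator. -/
theorem hom_eq {k O Ω : Type} [Field k] [CommRing O] [Algebra k[X] O] [Field Ω] (t : O) (D : k[X])
    (hD : ∀ x : O, ∃ P : k[X][X], algebraMap k[X] O D * x = aeval t P)
    (ψ ψ' : O →+* Ω) (hk : ψ (algebraMap k[X] O D) ≠ 0)
    (hc : ∀ c, ψ (algebraMap k[X] O c) = ψ' (algebraMap k[X] O c)) (h : ψ t = ψ' t) : ψ = ψ' := by
  ext x
  obtain ⟨P, hP⟩ := hD x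
  have hcc : ψ.comp (algebraMap k[X] O) = ψ'.comp (algebraMap k[X] O) := RingHom.ext hc
  have h1 := congrArg ψ hP
  have h2 := congrArg ψ' hP
  rw [aeval_def, hom_eval₂, map_mul] at h1 h2
  rw [h, hcc, ← h2, ← hc] at h1
  exact mul_left_cancel₀ hk h1

/-- The roots are simple. -/
theorem separable_of_dsc {k N : Type} [Field k] [Field N] (j : k[X] →+* N) (hj : Function.Injective j)
    (g : ℕ) (f : k[X][X]) (hdeg : f.natDegree = 2 * g + 1)
    (hdisc : dsc g f ≠ 0) : (f.map j).Separable := by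
  obtain ⟨p, r, -, -, h⟩ := exists_mul_add_mul_eq_C_resultant f (derivative f)
    (m := 2 * g + 1) (n := 2 * g) hdeg.le
    ((natDegree_derivative_le f).trans (by rw [hdeg]; simp)) (Or.inl (by omega))
  change f * p + derivative f * r = C (dsc g f) at h
  set c := dsc g f with hc
  have hcN : j c ≠ 0 := fun h0 => hdisc (hj (by rw [h0, map_zero]))
  have h1 := congrArg (Polynomial.map j) h
  rw [Polynomial.map_add, Polynomial.map_mul, Polynomial.map_mul, map_C] at h1
  refine ⟨C ((j c)⁻¹) * p.map j, C ((j c)⁻¹) * r.map j, ?_⟩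
  rw [derivative_map]
  have h2 : C ((j c)⁻¹) * (f.map j * p.map j + (derivative f).map j * r.map j) = 1 := by
    rw [h1, ← C_mul, inv_mul_cancel₀ hcN, C_1]
  rw [← h2]
  ring

end Pool.Agent.Helper28H.FE.ResA
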