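import Pool.Agent.Helper28H.FE.Stm2
import Pool.Agent.H30H.Two
import Pool.Agent.N457.PQ.Sqt
import Pool.Agent.N874.TW.Fld
import Pool.Agent.N874.JM.Par

/-!
# Piece SELM: the conditions at the bad places
-/

set_option autoImplicit false
set_option linter.all false

open Polynomial IsDedekindDomain
open scoped Classical IntermediateField

namespace Pool.Agent.Helper28H.FE.SelM

open Pool.Agent.N352.PJ (IsGen dsc Cg)
open Pool.Agent.N783.PQ (LocIm)
open Pool.Agent.N874.JM (LocF)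
open Pool.Agent.N874.PP (Ov Ev Sq1 U0 exists_below below_unique)
open Pool.Agent.N874.PM (Lies)
open Pool.Agent.H30H (CE ce_of ce_sq ce_mul ce_sig ce_base)
open Pool.Agent.N457.PQ (scale_comp deg_comp monic_comp tr prod_tr)

/-- Twists by squares; as `N457.PQ.sqt` without the assumption on the characteristic. -/
theorem sqt (F : Type) [Field F] (g : ℕ) (f h : F[X]) (δ : F) (hf : f.Monic)
    (hdeg : f.natDegree = 2 * g + 1) (hδ : δ ≠ 0) (H : LocIm F (f.scaleRoots (δ ^ 2)) h) :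
    LocIm F f (h.comp (C (δ ^ 2) * X)) := by
  obtain ⟨l, s0, hl, hdvd⟩ := H
  have hs : δ ^ 2 ≠ 0 := pow_ne_zero 2 hδ
  set n := 2 * g + 1 with hn
  set φ : F[X] →+* F[X] := compRingHom (C (δ ^ 2) * X) with hφ
  have hφa : ∀ p : F[X], φ p = p.comp (C (δ ^ 2) * X) := fun p => rfl
  have hf2 : φ (f.scaleRoots (δ ^ 2)) = C ((δ ^ 2) ^ n) * f := by
    rw [hφa, scale_comp, hdeg]
  have hsn : (δ ^ 2) ^ n ≠ 0 := pow_ne_zero _ hs
  obtain ⟨c, hc, hprod⟩ := prod_tr hδ n l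
  refine ⟨l.map (tr δ n), C c * φ s0, ?_, ?_⟩
  · intro p hp
    obtain ⟨⟨u, v⟩, hq, rfl⟩ := List.mem_map.1 hp
    obtain ⟨h1, h2, h3⟩ := hl _ hq
    simp only at h1 h2 h3
    have hk : ((δ ^ 2) ^ u.natDegree)⁻¹ ≠ 0 := inv_ne_zero (pow_ne_zero _ hs)
    refine ⟨monic_comp hs h1, ?_, ?_⟩
    · have h4 := h2.map φ
      rw [hf2] at h4
      have h5 : IsCoprime (φ u) f := IsCoprime.of_mul_right_right h4
      show IsCoprime (C (((δ ^ 2) ^ u.natDegree)⁻¹) * u.comp (C (δ ^ 2) * X)) f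
      exact (isCoprime_mul_unit_left_left (isUnit_C.2 (isUnit_iff_ne_zero.2 hk)) _ _).2 h5
    · show C (((δ ^ 2) ^ u.natDegree)⁻¹) * u.comp (C (δ ^ 2) * X) ∣
        (C ((δ ^ n)⁻¹) * v.comp (C (δ ^ 2) * X)) ^ 2 - f
      rw [C_mul_dvd hk]
      have h4 := map_dvd φ h3
      rw [map_sub, map_pow, hf2] at h4
      have h5 : (C ((δ ^ n)⁻¹) * v.comp (C (δ ^ 2) * X)) ^ 2 - f =
          C (((δ ^ 2) ^ n)⁻¹) * ((φ v) ^ 2 - C ((δ ^ 2) ^ n) * f) := by
        have h6 : C (((δ ^ 2) ^ n)⁻¹) * C ((δ ^ 2) ^ n) = (1 : F[X]) := by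
          rw [← C_mul, inv_mul_cancel₀ hsn, C_1]
        have h7 : (C ((δ ^ n)⁻¹) : F[X]) ^ 2 = C (((δ ^ 2) ^ n)⁻¹) := by
          rw [← C_pow]
          congr 1
          rw [inv_pow, ← pow_mul, ← pow_mul, mul_comm]
        rw [mul_sub, ← mul_assoc, h6, one_mul, mul_pow, h7, hφa]
      rw [h5]
      exact Dvd.dvd.mul_left h4 _
  · rw [hprod]
    have h4 := map_dvd φ hdvd
    rw [hf2, map_sub, map_mul, map_pow φ s0] at h4
    set G : F[X] := (l.map fun p : F[X] × F[X] => (-1) ^ p.1.natDegree * p.1).prod with hG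
    have h5 : f ∣ φ h * φ G - φ s0 ^ 2 := (Dvd.intro_left _ rfl).trans h4
    have h6 : h.comp (C (δ ^ 2) * X) * (C (c ^ 2) * G.comp (C (δ ^ 2) * X)) -
        (C c * φ s0) ^ 2 = C (c ^ 2) * (φ h * φ G - φ s0 ^ 2) := by
      rw [← hφa h, ← hφa G, C_pow]
      ring
    rw [h6]
    exact Dvd.dvd.mul_left h5 _

/-- The twist by an element which becomes a square. -/
theorem sq_map {M E : Type} [Field M] [Field E] (φ : M →+* E) {g : ℕ} {f h : M[X]} {D : M}
    (hm : f.Monic) (hd : f.natDegree = 2 * g + 1) (hD0 : D ≠ 0) (hD : IsSquare (φ D))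
    (H : LocIm E ((f.scaleRoots D).map φ) (h.map φ)) :
    LocIm E (f.map φ) ((h.comp (C D * X)).map φ) := by
  obtain ⟨δ, hδ⟩ := hD
  have hδ0 : δ ≠ 0 := by
    rintro rfl
    rw [mul_zero] at hδ
    exact hD0 ((map_eq_zero φ).1 hδ)
  rw [← pow_two] at hδ
  have e1 : (f.scaleRoots D).map φ = (f.map φ).scaleRoots (δ ^ 2) := by
    rw [← hδ]
    apply map_scaleRoots
    rw [hm.leadingCoeff, map_one]
    exact one_ne_zero
  have e2 : (h.comp (C D * X)).map φ = (h.map φ).comp (C (δ ^ 2) * X) := by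
    rw [Polynomial.map_comp, Polynomial.map_mul, map_C, map_X, hδ]
  rw [e1] at H
  rw [e2]
  exact sqt E g _ _ δ (hm.map _) (by rw [hm.natDegree_map, hd]) hδ0 H

theorem locF_iff {M E : Type} [Field M] [Field E] [Algebra M E] (f h : M[X]) :
    LocF E f h ↔ LocIm E (f.map (algebraMap M E)) (h.map (algebraMap M E)) := Iff.rfl

/-- Automorphisms and completions. -/
theorem ext_val {M R : Type} [Field M] [CommRing R] [IsDedekindDomain R] [Algebra R M]
    [IsFractionRing R M] (σ : M ≃+* M) (w w' : HeightOneSpectrum R)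
    (hv : ∀ x : M, w'.valuation M x = w.valuation M (σ x)) :
    ∃ s : w'.adicCompletion M →+* w.adicCompletion M,
      ∀ x : M, s (algebraMap M (w'.adicCompletion M) x) =
        algebraMap M (w.adicCompletion M) (σ x) := by
  refine ⟨(HeightOneSpectrum.adicCompletion.equiv M w).symm.toRingHom.comp
    ((UniformSpace.Completion.mapRingHom (Pool.Agent.N667.PV.gg σ w w')
      (Pool.Agent.N667.PV.gg_cont σ w w' hv)).comp
      (HeightOneSpectrum.adicCompletion.equiv M w').toRingHom), fun x => ?_⟩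
  have h1 := UniformSpace.Completion.mapRingHom_coe (Pool.Agent.N667.PV.gg_cont σ w w' hv)
    (WithVal.toVal _ x)
  exact congrArg (HeightOneSpectrum.adicCompletion.equiv M w).symm h1

section cb

variable {k K L M Ω : Type} [Field k] [Field K] [Field L] [Field M] [Field Ω]
  [Algebra k[X] K] [IsFractionRing k[X] K]
  [Algebra K L] [Algebra k[X] L] [IsScalarTower k[X] K L]
  [Algebra K M] [Algebra k[X] M] [IsScalarTower k[X] K M]
  [Algebra L Ω] [Algebra M Ω] [Algebra K Ω] [IsScalarTower K L Ω] [IsScalarTower K M Ω]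
  (R : Type) [CommRing R] [IsDedekindDomain R] [Algebra R M] [IsFractionRing R M] [Algebra k[X] R]
  [IsScalarTower k[X] R M] [IsIntegralClosure R k[X] M]
  {R₁ : Type} [CommRing R₁] [IsDedekindDomain R₁] [Algebra R₁ K] [IsFractionRing R₁ K]
  (v₁ : HeightOneSpectrum R₁)

variable (K M) in
/-- The conditions at the bad places and at infinity. -/
structure CB (g : ℕ) (f : k[X][X]) (θ x : Ω) : Prop where
  bad : ∀ w : HeightOneSpectrum R, (∃ P : k[X], Irreducible P ∧ P ^ 2 ∣ dsc g f ∧ Ov P w) →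
    CE (f.map (algebraMap k[X] K)) θ (algebraMap M (w.adicCompletion M)) x
  inf : ∀ φ : M →ₐ[K] v₁.adicCompletion K, CE (f.map (algebraMap k[X] K)) θ (φ : M →+* v₁.adicCompletion K) x

variable {R v₁} {g : ℕ} {f : k[X][X]} {θ : Ω} [Algebra.IsAlgebraic M Ω]

theorem cb_sq (htop : M⟮θ⟯ = ⊤)
    (hmin : minpoly M θ = (f.map (algebraMap k[X] K)).map (algebraMap K M)) (x : Ω) :
    CB K M R v₁ g f θ (x ^ 2) :=
  ⟨fun w hw => ce_sq htop hmin x, fun ρ => ce_sq htop hmin x⟩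

theorem cb_mul (htop : M⟮θ⟯ = ⊤)
    (hmin : minpoly M θ = (f.map (algebraMap k[X] K)).map (algebraMap K M)) {x y : Ω}
    (hx : CB K M R v₁ g f θ x) (hy : CB K M R v₁ g f θ y) : CB K M R v₁ g f θ (x * y) :=
  ⟨fun w hw => ce_mul htop hmin (hx.bad w hw) (hy.bad w hw),
    fun ρ => ce_mul htop hmin (hx.inf ρ) (hy.inf ρ)⟩

theorem cb_sig [Normal K M] [Algebra.IsAlgebraic K M] (htop : M⟮θ⟯ = ⊤)
    (hmin : minpoly M θ = (f.map (algebraMap k[X] K)).map (algebraMap K M)) {θ₀ : L}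
    (hθ : θ = algebraMap L Ω θ₀) (σ : Ω ≃ₐ[L] Ω) {x : Ω} (hx : CB K M R v₁ g f θ x) :
    CB K M R v₁ g f θ (σ x) := by
  obtain ⟨τ, hτ⟩ : ∃ τ : M ≃ₐ[K] M, ∀ m : M, algebraMap M Ω (τ m) = σ (algebraMap M Ω m) :=
    ⟨(σ.restrictScalars K).restrictNormal M, fun m =>
      AlgEquiv.restrictNormal_commutes (σ.restrictScalars K) M m⟩
  have hσθ : (σ : Ω →+* Ω) θ = θ := by
    rw [hθ]
    exact σ.commutes θ₀
  refine ⟨fun w hw => ?_, fun ρ => ?_⟩
  · obtain ⟨w', hv, hO⟩ := Pool.Agent.N55.PM.sig k M R (τ.restrictScalars k[X]) w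
    obtain ⟨s, hs⟩ := ext_val (τ : M ≃+* M) w w' hv
    exact ce_sig htop hmin s (σ : Ω →+* Ω) (τ : M →+* M) hτ hσθ (fun a => τ.commutes a) hs
      (hx.bad w' (by
        obtain ⟨P, h1, h2, h3⟩ := hw
        exact ⟨P, h1, h2, (hO P).2 h3⟩))
  · exact ce_sig (φ' := ((ρ.comp (τ : M →ₐ[K] M) : M →ₐ[K] v₁.adicCompletion K) : M →+* v₁.adicCompletion K))
      htop hmin (RingHom.id _) (σ : Ω →+* Ω)
      (τ : M →+* M) hτ hσθ (fun a => τ.commutes a) (fun m => rfl) (hx.inf _)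

/-- At a completely split prime. -/
theorem base_bad (hB : D_BACK) [IsScalarTower k[X] K M] {θ₀ : L} {h₀ : K[X]}
    (hx : CB K M R v₁ g f (algebraMap L Ω θ₀) (algebraMap L Ω (aeval θ₀ h₀))) {P : k[X]}
    (hP : Irreducible P) (hP2 : P ^ 2 ∣ dsc g f) (v : HeightOneSpectrum k[X])
    (w : HeightOneSpectrum R) (hw : Ov P w)
    (hvw : ∀ x : K, w.valuation M (algebraMap K M x) = v.valuation K x)
    (hd : ∀ s : M, s ≠ 0 → ∃ s₀ : K, w.valuation M (s - algebraMap K M s₀) < w.valuation M s) :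
    LocF (v.adicCompletion K) (f.map (algebraMap k[X] K)) h₀ := by
  obtain ⟨j, hj⟩ := hB K M k[X] R v w hvw hd
  exact ce_base j _ hj (hx.bad w ⟨P, hP, hP2, hw⟩)

theorem base_inf {θ₀ : L} {h₀ : K[X]}
    (hx : CB K M R v₁ g f (algebraMap L Ω θ₀) (algebraMap L Ω (aeval θ₀ h₀)))
    (φ : M →ₐ[K] v₁.adicCompletion K) :
    LocF (v₁.adicCompletion K) (f.map (algebraMap k[X] K)) h₀ :=
  ce_base (RingHom.id _) _ (fun a => φ.commutes a) (hx.inf φ)

end cb

end Pool.Agent.Helper28H.FE.SelM
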