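import Pool.Agent.Helper28H.FE.SelM2

/-!
# Piece SELM: the descent
-/

set_option autoImplicit false
set_option linter.all false

open Polynomial IsDedekindDomain
open scoped Classical IntermediateField

namespace Pool.Agent.Helper28H.FE.SelM

open Pool.Agent.N352.PJ (IsGen dsc Cg)
open Pool.Agent.N783.PQ (LocIm)
open Pool.Agent.N874.JM (LocF Parts)
open Pool.Agent.N874.TW
open Pool.Agent.Helper28H.FF (dvd_of_ov ov_mul)
open Pool.Agent.N874.PP (Ov Ev Sq1 U0 S_CLS exists_below below_unique)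
open Pool.Agent.N874.PM (ov_val val_le val_eq_of ov_down ev_down sq_down ev_sq ev_mul S_SIG
  S_LIE ov_prod Lies)
open Pool.Agent.H30H (CE ce_of ce_sq ce_mul ce_sig ce_base)

/-- Elements as polynomials in `θ`. -/
theorem exists_poly {g : ℕ} {k K L : Type} [Field k] [Field K] [Algebra k[X] K] [Field L]
    [Algebra K L] [Algebra k[X] L] {f : k[X][X]} {θ : L} (hc : IsGen g K f θ) (x : L) :
    ∃ h₀ : K[X], aeval θ h₀ = x := by
  obtain ⟨c, rfl⟩ := hc.gen x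
  refine ⟨∑ i, C (c i) * X ^ (i : ℕ), ?_⟩
  rw [map_sum]
  refine Finset.sum_congr rfl fun i _ => ?_
  rw [map_mul, aeval_C, map_pow, aeval_X]

/-- A prime over a given prime of `k[t]`. -/
theorem over_bad {k K M : Type} [Field k] [Field K] [Field M]
    [Algebra k[X] K] [IsFractionRing k[X] K] [Algebra K M] [Algebra k[X] M]
    [IsScalarTower k[X] K M] [FiniteDimensional K M] [Algebra.IsSeparable K M] (R : Type)
    [CommRing R] [IsDedekindDomain R] [Algebra R M] [IsFractionRing R M] [Algebra k[X] R]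
    [IsScalarTower k[X] R M] [IsIntegralClosure R k[X] M] {P : k[X]} (hP : Irreducible P)
    (v : HeightOneSpectrum k[X]) (hv : v.asIdeal = Ideal.span {P})
    (hs : ∀ w : HeightOneSpectrum R, Ov P w →
      w.valuation M (algebraMap k[X] M P) = WithZero.exp (-1 : ℤ)) :
    ∃ w : HeightOneSpectrum R, Ov P w ∧
      ∀ x : K, w.valuation M (algebraMap K M x) = v.valuation K x := by
  obtain ⟨w, e, he⟩ := exists_over k k[X] R (F := K) (F' := M) v
  haveI : Algebra.IsIntegral k[X] R := IsIntegralClosure.isIntegral_algebra k[X] M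
  have hPv : v.valuation K (algebraMap k[X] K P) < 1 := by
    rw [HeightOneSpectrum.valuation_lt_one_iff_mem, hv]
    exact Ideal.mem_span_singleton_self P
  have e0 : e ≠ 0 := by
    rintro rfl
    obtain ⟨P₁, a1, a2, a3⟩ := exists_below (k := k) w
    have h3 := (ov_val (L := M) P₁ w).1 a3
    rw [IsScalarTower.algebraMap_apply k[X] K M, he, pow_zero] at h3
    exact lt_irrefl _ h3
  have hwP : Ov P w := by
    rw [ov_val (L := M), IsScalarTower.algebraMap_apply k[X] K M, he]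
    exact pow_lt_one' hPv e0
  have h4 := hs w hwP
  rw [IsScalarTower.algebraMap_apply k[X] K M, he] at h4
  have h5 := exp_pow h4
  subst h5
  exact ⟨w, hwP, fun x => by rw [he, pow_one]⟩

section abs

variable {k K L M Ω : Type} (O O' R : Type) [Field k] [Finite k] [Field K] [Field L] [Field M]
  [Field Ω]
  [Algebra k[X] K] [IsFractionRing k[X] K]
  [Algebra K L] [Algebra k[X] L] [IsScalarTower k[X] K L]
  [Algebra K M] [Algebra k[X] M] [IsScalarTower k[X] K M]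
  [Algebra L Ω] [Algebra M Ω] [Algebra K Ω] [IsScalarTower K L Ω] [IsScalarTower K M Ω]
  [Algebra k[X] Ω] [IsScalarTower k[X] L Ω] [IsScalarTower k[X] M Ω]
  [CommRing O] [IsDedekindDomain O] [Algebra O L] [IsFractionRing O L] [Algebra k[X] O]
  [IsScalarTower k[X] O L] [IsIntegralClosure O k[X] L] [Module.Finite k[X] O]
  [CommRing O'] [IsDedekindDomain O'] [Algebra O' Ω] [IsFractionRing O' Ω] [Algebra k[X] O']
  [IsScalarTower k[X] O' Ω] [IsIntegralClosure O' k[X] Ω] [Module.Finite k[X] O']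
  [CommRing R] [IsDedekindDomain R] [Algebra R M] [IsFractionRing R M] [Algebra k[X] R]
  [IsScalarTower k[X] R M] [IsIntegralClosure R k[X] M] [Module.Finite k[X] R] [IsGalois K M]
  [FiniteDimensional K M]
  [FiniteDimensional M Ω] [Algebra.IsSeparable M Ω] [FiniteDimensional L Ω]
  [Algebra.IsSeparable L Ω]
  {R₁ : Type} [CommRing R₁] [IsDedekindDomain R₁] [Algebra R₁ K] [IsFractionRing R₁ K]
  (v₁ : HeightOneSpectrum R₁)

include O O' in
theorem baseU (hCSQ : A_CSQ) (hPIN : A_PIN) (hPAR : A_PAR) (hPARQ : A_PARQ) (hRAM : A_RAM)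
    (hBACK : D_BACK) {g : ℕ} {f : k[X][X]} {θ : L} {S J : Finset k[X]}
    {s : k[X] → k[X][X]} {δ : k[X]} (h2 : (2 : k) ≠ 0) (hg : 1 ≤ g) (hc : IsGen g K f θ)
    (hS : GoodU g S s) (hcon : ∀ Q ∈ S, Cg Q f (X * s Q)) (hJ : J ⊆ S)
    (htr : Triv g K O f θ v₁ J)
    (hθ : M⟮algebraMap L Ω θ⟯ = ⊤)
    (hQs : ∀ Q ∈ J, ∀ w : HeightOneSpectrum R, Ov Q w →
      w.valuation M (algebraMap k[X] M Q) = WithZero.exp (-1 : ℤ) ∧
      Function.Surjective ((Ideal.Quotient.mk w.asIdeal).comp (algebraMap k[X] R)))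
    (hbad : ∀ P : k[X], Irreducible P → P ^ 2 ∣ dsc g f → ∀ w : HeightOneSpectrum R, Ov P w →
      w.valuation M (algebraMap k[X] M P) = WithZero.exp (-1 : ℤ) ∧
      Function.Surjective ((Ideal.Quotient.mk w.asIdeal).comp (algebraMap k[X] R)))
    (hinf : Nonempty (M →ₐ[K] v₁.adicCompletion K))
    {T : Set k[X]} (hTm : ∀ P ∈ T, P.Monic ∧ Irreducible P)
    (hT : ∀ P ∈ T, Irreducible (f.map (Ideal.Quotient.mk (Ideal.span {P}))))
    (hTr : ∀ P : k[X], P.Monic → Irreducible P → P ∉ T → ∀ w : HeightOneSpectrum R, Ov P w →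
      w.valuation M (algebraMap k[X] M P) = WithZero.exp (-1 : ℤ))
    {x : L} (hx : x ≠ 0) (hN : IsSquare (Algebra.norm K x))
    (hC : Cnd O' J T (algebraMap L Ω θ)
      (algebraMap L Ω (eval₂ (algebraMap k[X] L) θ (derivative f))) (algebraMap L Ω x))
    (hB : CB K M R v₁ g f (algebraMap L Ω θ) (algebraMap L Ω x)) : IsSquare x := by
  haveI : Algebra.IsIntegral k[X] R := IsIntegralClosure.isIntegral_algebra k[X] M
  haveI : Algebra.IsIntegral k[X] O' := IsIntegralClosure.isIntegral_algebra k[X] Ω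
  haveI : Algebra.IsIntegral k[X] O := IsIntegralClosure.isIntegral_algebra k[X] L
  have hJm : ∀ Q ∈ J, Q.Monic ∧ Irreducible Q := fun Q hQ => ⟨(hS Q (hJ hQ)).1, (hS Q (hJ hQ)).2.1⟩
  have hηle : ∀ 𝔓 : HeightOneSpectrum O,
      𝔓.valuation L (eval₂ (algebraMap k[X] L) θ (derivative f)) ≤ 1 := by
    intro 𝔮
    refine Pool.Agent.N704.PP.val_int (k := k) 𝔮 ?_
    rw [eval₂_eq_sum_range]
    exact IsIntegral.sum _ fun i _ => isIntegral_algebraMap.mul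
      ((Pool.Agent.N769.PJ.theta_int hc).pow _)
  have hθle : ∀ 𝔓 : HeightOneSpectrum O, 𝔓.valuation L θ ≤ 1 := fun 𝔭 =>
    Pool.Agent.N704.PP.val_int (k := k) 𝔭 (Pool.Agent.N769.PJ.theta_int hc)
  have key : ∀ 𝔓 : HeightOneSpectrum O, (∀ P ∈ T, ¬ Ov P 𝔓) → (∀ Q ∈ J, ¬ Ov Q 𝔓) →
      𝔓.valuation L (eval₂ (algebraMap k[X] L) θ (derivative f)) = 1 → Ev 𝔓 x := by
    intro 𝔓 h1 h2 h3
    obtain ⟨P, hPm, hPi, hP𝔓⟩ := exists_below (k := k) 𝔓
    have hPT : P ∉ T := fun hP => h1 P hP hP𝔓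
    obtain ⟨𝔓', hv, -⟩ := up_prime (K := K) (M := M) (Ω := Ω) O O' R hc hθ hPm hPi
      (hTr P hPm hPi hPT) 𝔓 hP𝔓 h3
    rw [← ev_down hv]
    exact hC.ev 𝔓' (fun P hPT h => h1 P hPT ((ov_down hv P).1 h))
      (fun Q hQ h => h2 Q hQ ((ov_down hv Q).1 h)) (by rw [hv]; exact h3)
  obtain ⟨h₀, rfl⟩ := exists_poly hc x
  refine htr h₀ hx hN (fun 𝔓 h𝔓 h𝔓J => ?_) (fun Q hQ 𝔓 h1 h3 => ?_) (fun P v hP hv hPb => ?_) ?_
  · by_cases hP : ∃ P ∈ T, Ov P 𝔓
    · obtain ⟨P, hPT, hP𝔓⟩ := hP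
      exact hPIN g k K L O f θ hc P (hTm P hPT).2 (hT P hPT) _ hx hN 𝔓 hP𝔓
    · by_cases hQ : ∃ Q ∈ J, Ov Q 𝔓
      · obtain ⟨Q, hQJ, hQ𝔓⟩ := hQ
        exact hPARQ g k K L O f θ S s hg hc hS Q (hJ hQJ) (hcon Q (hJ hQJ)) _ hx hN 𝔓 hQ𝔓
          (lt_of_le_of_ne (hθle 𝔓) (h𝔓J Q hQJ hQ𝔓))
      · push Not at hP hQ
        by_cases h1 : 𝔓.valuation L (eval₂ (algebraMap k[X] L) θ (derivative f)) = 1
        · exact key 𝔓 hP hQ h1
        · obtain ⟨P, hPm, hPi, hP𝔓⟩ := exists_below (k := k) 𝔓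
          obtain ⟨⟨c, hc'⟩, huniq⟩ := hRAM g k K L O f θ hc P hPi (h𝔓 P hPi hP𝔓) 𝔓 hP𝔓
            (lt_of_le_of_ne (hηle 𝔓) h1)
          refine hPAR g k K L O f θ hc P hPi (h𝔓 P hPi hP𝔓) 𝔓 c hP𝔓 hc' _ hx hN fun 𝔮 hq hne => ?_
          refine key 𝔮 (fun P' hP' h => ?_) (fun Q' hQ' h => ?_) (huniq 𝔮 hq hne)
          · have := below_unique (hTm P' hP').1 (hTm P' hP').2 hPm hPi h hq
            exact hP P' hP' (this ▸ hP𝔓)
          · have := below_unique (hJm Q' hQ').1 (hJm Q' hQ').2 hPm hPi h hq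
            exact hQ Q' hQ' (this ▸ hP𝔓)
  · have hQS := hJ hQ
    obtain ⟨-, -, hB'⟩ := hCSQ g k K L O f θ S s hg hc hS Q hQS (hcon Q hQS)
    obtain ⟨𝔓', hv, w, hw, hwQ⟩ := up_prime (K := K) (M := M) (Ω := Ω) O O' R hc hθ
      (hS Q hQS).1 (hS Q hQS).2.1 (fun w hw => (hQs Q hQ w hw).1) 𝔓 h1 (hB' 𝔓 h1)
    have hd := dens3 (K := K) O' R hθ 𝔓' w hw (by rw [hv, h3])
        (dens1 R w (hQs Q hQ w hwQ).1 (hQs Q hQ w hwQ).2)
    have hQ' : Ov Q 𝔓' := (ov_down hv Q).2 h1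
    have h4 := hC.u0 Q hQ 𝔓' hQ' (by rw [hv]; exact h3)
    refine ⟨fun h5 => sq_down hv hd (h4.1 ((ev_down hv _).2 h5)), fun h5 => ?_⟩
    have h6 := h4.2 fun h7 => h5 ((ev_down hv _).1 h7)
    have e : algebraMap L Ω (aeval θ h₀) * (algebraMap k[X] Ω Q * algebraMap L Ω θ) =
        algebraMap L Ω (aeval θ h₀ * (algebraMap k[X] L Q * θ)) := by
      rw [map_mul, map_mul, ← IsScalarTower.algebraMap_apply k[X] L Ω]
    rw [e] at h6
    exact sq_down hv hd h6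
  · have hP2 : P ^ 2 ∣ dsc g f := not_not.1 hPb
    obtain ⟨w, hwP, hvw⟩ := over_bad (K := K) (M := M) R hP v hv
      (fun w hw => (hbad P hP hP2 w hw).1)
    exact base_bad hBACK hB hP hP2 v w hwP hvw
      (dens1 R w (hbad P hP hP2 w hwP).1 (hbad P hP hP2 w hwP).2)
  · obtain ⟨φ⟩ := hinf
    exact base_inf hB φ

include O O' in
theorem selU (H : Parts) (hCSQ : A_CSQ) (hPIN : A_PIN) (hPAR : A_PAR) (hPARQ : A_PARQ)
    (hRAM : A_RAM) (hBACK : D_BACK) {g : ℕ} {f : k[X][X]} {θ : L} {S J : Finset k[X]}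
    {s : k[X] → k[X][X]} {δ : k[X]} (h2 : (2 : k) ≠ 0) (hg : 1 ≤ g) (hc : IsGen g K f θ)
    (hS : GoodU g S s) (hcon : ∀ Q ∈ S, Cg Q f (X * s Q)) (hJ : J ⊆ S)
    (htr : Triv g K O f θ v₁ J)
    (hθ : M⟮algebraMap L Ω θ⟯ = ⊤)
    (hmin : minpoly M (algebraMap L Ω θ) = (f.map (algebraMap k[X] K)).map (algebraMap K M))
    (hQs : ∀ Q ∈ J, ∀ w : HeightOneSpectrum R, Ov Q w →
      w.valuation M (algebraMap k[X] M Q) = WithZero.exp (-1 : ℤ) ∧
      Function.Surjective ((Ideal.Quotient.mk w.asIdeal).comp (algebraMap k[X] R)))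
    (hbad : ∀ P : k[X], Irreducible P → P ^ 2 ∣ dsc g f → ∀ w : HeightOneSpectrum R, Ov P w →
      w.valuation M (algebraMap k[X] M P) = WithZero.exp (-1 : ℤ) ∧
      Function.Surjective ((Ideal.Quotient.mk w.asIdeal).comp (algebraMap k[X] R)))
    (hinf : Nonempty (M →ₐ[K] v₁.adicCompletion K))
    (hPr : ∀ P : k[X], P.Monic → Irreducible P → ((∃ w : HeightOneSpectrum R, Ov P w ∧
      w.valuation M (algebraMap k[X] M P) ≠ WithZero.exp (-1 : ℤ)) ∨ P ∣ δ) →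
      Irreducible (f.map (Ideal.Quotient.mk (Ideal.span {P}))))
    (hD : (∏ Q ∈ J, Q) * δ ≠ 0)
    (hb : ∀ (P : k[X]) (v : HeightOneSpectrum k[X]), Irreducible P → v.asIdeal = Ideal.span {P} →
      P ^ 2 ∣ dsc g f →
      IsSquare (algebraMap K (v.adicCompletion K) (algebraMap k[X] K ((∏ Q ∈ J, Q) * δ))))
    (hi : IsSquare (algebraMap K (v₁.adicCompletion K) (algebraMap k[X] K ((∏ Q ∈ J, Q) * δ))))
    {n : ℕ} (hM : Module.finrank K M = 2 ^ n) (hΩ : Module.finrank M Ω = 2 * g + 1) :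
    ∀ h : M[X], aeval (algebraMap k[X] Ω ((∏ Q ∈ J, Q) * δ) * algebraMap L Ω θ) h ≠ 0 →
      IsSquare (Algebra.norm M (aeval (algebraMap k[X] Ω ((∏ Q ∈ J, Q) * δ) *
        algebraMap L Ω θ) h)) →
      (∀ (E : Type) [Field E] [Algebra M E], Plc K (M := M) R v₁ E →
        LocIm E (((f.scaleRoots ((∏ Q ∈ J, Q) * δ)).map (algebraMap k[X] M)).map
          (algebraMap M E)) (h.map (algebraMap M E))) →
      IsSquare (aeval (algebraMap k[X] Ω ((∏ Q ∈ J, Q) * δ) * algebraMap L Ω θ) h) := by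
  haveI : Algebra.IsIntegral k[X] R := IsIntegralClosure.isIntegral_algebra k[X] M
  haveI : Algebra.IsIntegral k[X] O' := IsIntegralClosure.isIntegral_algebra k[X] Ω
  haveI : Algebra.IsIntegral k[X] O := IsIntegralClosure.isIntegral_algebra k[X] L
  have h2K : (2 : K) ≠ 0 := by
    have e : algebraMap k[X] K (C (2 : k)) = 2 := by
      rw [show (C (2 : k) : k[X]) = 2 from rfl, map_ofNat]
    rw [← e, Ne, IsFractionRing.to_map_eq_zero_iff, C_eq_zero]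
    exact h2
  -- the ramified primes and the divisors of `δ`
  let T : Set k[X] := {P | P.Monic ∧ Irreducible P ∧ ((∃ w : HeightOneSpectrum R, Ov P w ∧
      w.valuation M (algebraMap k[X] M P) ≠ WithZero.exp (-1 : ℤ)) ∨ P ∣ δ)}
  have hδJ : ∀ Q ∈ J, ¬ Q ∣ δ := by
    intro Q hQ hd
    have hQS := hS Q (hJ hQ)
    exact not_irr hg hS (hJ hQ) (hcon Q (hJ hQ)) (hPr Q hQS.1 hQS.2.1 (Or.inr hd))
  intro h hne hN hloc
  have hcnd := cnd_topU (T := T) O O' R hCSQ H.lie H.loc1 H.loc2 h2 hg hc hS hcon hθ hJ hQs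
    (fun P h1 h2 h3 => ⟨h1, h2, Or.inr h3⟩) hδJ
    (fun w => hloc (w.adicCompletion M) (Or.inl ⟨w, ⟨AlgEquiv.refl⟩⟩)) hne
  have hcb := cb_topU (K := K) (M := M) (Ω := Ω) R v₁ H.lie hc.mon hc.deg hD hmin hb hi hloc
  refine H.tow n K L M Ω h2K hM (by rw [hc.rank]; exact odd_two_mul_add_one g)
    (by rw [hΩ, hc.rank])
    (fun x => Cnd O' J T (algebraMap L Ω θ)
      (algebraMap L Ω (eval₂ (algebraMap k[X] L) θ (derivative f))) x ∧
      CB K M R v₁ g f (algebraMap L Ω θ) x)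
    (fun x hx => ⟨cnd_sq hx, cb_sq hθ hmin x⟩)
    (fun x y hx hy h h' => ⟨cnd_mul H.cls h2 (fun Q hQ => (hS Q (hJ hQ)).2.1)
      (fun Q hQ 𝔓 h1 h3 => ?_) hx hy h.1 h'.1, cb_mul hθ hmin h.2 h'.2⟩)
    (fun σ x h => ⟨cnd_sig H.sig rfl rfl σ h.1, cb_sig hθ hmin rfl σ h.2⟩)
    (fun x hx hC hN => ?_) _ hne ⟨hcnd, hcb⟩ hN
  · have h4 := (q_topU (K := K) O O' R hCSQ H.lie hg hc hS hθ (hJ hQ)
      (hcon Q (hJ hQ)) (fun w hw => (hQs Q hQ w hw).1) 𝔓 h1 h3).1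
    apply Pool.Agent.N352.PJ.not_ev_exp
    rw [map_mul, h4, h3, mul_one]
  · exact baseU (T := T) O O' R v₁ hCSQ hPIN hPAR hPARQ hRAM hBACK (δ := δ) h2 hg hc hS hcon hJ
      htr hθ hQs hbad hinf (fun P hP => ⟨hP.1, hP.2.1⟩) (fun P hP => hPr P hP.1 hP.2.1 hP.2.2)
      (fun P h1 h2 h3 w hw => by
        by_contra hne
        exact h3 ⟨h1, h2, Or.inl ⟨w, hw, hne⟩⟩) hx hN hC.1 hC.2

end abs

end Pool.Agent.Helper28H.FE.SelM
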