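import Pool.Agent.Helper28H.FE.Stm

/-!
# Project FE, second part: the twist, the Selmer group over all admissible extensions, assembly
-/

set_option autoImplicit false
set_option linter.all false

open Polynomial IsDedekindDomain Matrix WithZero
open scoped Classical

namespace Pool.Agent.Helper28H.FE

open Pool.Agent.N352.PJ (Mt IsGen dsc Cg Crd res)
open Pool.Agent.N874.PP (Ov Ev Sq1 U0)
open Pool.Agent.N874.JM (LocF)
open Pool.Agent.N352.JB (SelTriv)

/-- The conclusion of the choice of the twist: a class which satisfies the local conditions for the twist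
by the product of the primes in `J` is trivial. -/
def Triv (g : ℕ) {k : Type} (K : Type) {L : Type} (O : Type) [Field k] [Field K] [Algebra k[X] K]
    [IsFractionRing k[X] K] [Field L] [Algebra K L] [Algebra k[X] L] [CommRing O]
    [IsDedekindDomain O] [Algebra O L] [IsFractionRing O L] [Algebra k[X] O] (f : k[X][X]) (θ : L)
    {R₁ : Type} [CommRing R₁] [IsDedekindDomain R₁] [Algebra R₁ K] [IsFractionRing R₁ K]
    (v₁ : HeightOneSpectrum R₁) (J : Finset k[X]) : Prop :=
  ∀ h₀ : K[X], aeval θ h₀ ≠ 0 → IsSquare (Algebra.norm K (aeval θ h₀)) →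
    (∀ 𝔓 : HeightOneSpectrum O, (∀ P : k[X], Irreducible P → Ov P 𝔓 → Gd g f P) →
      (∀ Q ∈ J, Ov Q 𝔓 → 𝔓.valuation L θ ≠ 1) → Ev 𝔓 (aeval θ h₀)) →
    (∀ Q ∈ J, ∀ 𝔓 : HeightOneSpectrum O, Ov Q 𝔓 → 𝔓.valuation L θ = 1 →
      U0 𝔓 (algebraMap k[X] L Q * θ) (aeval θ h₀)) →
    (∀ (P : k[X]) (v : HeightOneSpectrum k[X]), Irreducible P → v.asIdeal = Ideal.span {P} →
      ¬ Gd g f P → LocF (v.adicCompletion K) (f.map (algebraMap k[X] K)) h₀) →
    LocF (v₁.adicCompletion K) (f.map (algebraMap k[X] K)) h₀ → IsSquare (aeval θ h₀)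

/-- Piece CORE (from `A_EXQ`, `A_CSQ`, `A_PARQ`, `B_SDB`, `B_SDG`, `B_REC`, `S_CLS`, `S_LIN`; port of
`H30T/Core.lean`, function field template `N874/JM/Core.lean`, `core2`): the choice of the twist. The
class set is `{α | α ≠ 0, norm a square, even at the 𝔓 over good primes with 𝔓 ≠ 𝔮 Q for all Q ∈ S, and
α = h₀(θ) with LocF at the bad v and at v₁}`. For `B_REC`: `SDL hG v α` for `v` over a bad `P` by `B_SDB`
(first alternative of its hypothesis), at `v₁` by `B_SDB` (second alternative), for `v` over a good `P` by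
`B_SDG` (1), where at `Q ∈ S` with `Ev (𝔮 Q) α` the evenness at the other prime follows from `A_PARQ`. -/
def C_CORE : Prop := ∀ (g : ℕ) (k K L O : Type) [Field k] [Finite k] [Field K] [Algebra k[X] K]
  [IsFractionRing k[X] K] [Field L] [Algebra K L] [Algebra k[X] L] [IsScalarTower k[X] K L]
  [CommRing O] [IsDedekindDomain O] [Algebra O L] [IsFractionRing O L] [Algebra k[X] O]
  [IsScalarTower k[X] O L] [IsIntegralClosure O k[X] L] [Module.Finite k[X] O] (f : k[X][X]) (θ : L)
  (S : Finset k[X]) (h : k[X] → k[X][X]) (R₁ : Type) [CommRing R₁]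
  [IsDedekindDomain R₁] [Algebra R₁ K] [IsFractionRing R₁ K] (v₁ : HeightOneSpectrum R₁),
  1 ≤ g → (2 : k) ≠ 0 → IsGen g K f θ → GoodU g S h → (∀ Q ∈ S, Cg Q f (X * h Q)) →
  IsInf k (K := K) v₁ →
  (∀ α : L, α ≠ 0 → IsSquare (Algebra.norm K α) →
    (∀ 𝔓 : HeightOneSpectrum O, (∀ P : k[X], Irreducible P → Ov P 𝔓 → Gd g f P) → Ev 𝔓 α) →
    (∀ Q ∈ S, ∀ 𝔓 : HeightOneSpectrum O, Ov Q 𝔓 → 𝔓.valuation L θ = 1 → Sq1 𝔓 α) →
    IsSquare α) →
  ∃ J ⊆ S, Triv g K O f θ v₁ J

/-- The completions of `M`: those at the maximal ideals of `R` (the integral closure of `k[t]` in `M`)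
and the completion of `K` at infinity with the embeddings of `M` over `K`. -/
def Plc (K : Type) {M : Type} (R : Type) {R₁ : Type} [Field K] [Field M] [Algebra K M]
    [CommRing R] [IsDedekindDomain R] [Algebra R M] [IsFractionRing R M] [CommRing R₁]
    [IsDedekindDomain R₁] [Algebra R₁ K] [IsFractionRing R₁ K] (v₁ : HeightOneSpectrum R₁) :
    ∀ (E : Type) [Field E] [Algebra M E], Prop := fun E _ _ =>
  (∃ w : HeightOneSpectrum R, Nonempty (E ≃ₐ[M] w.adicCompletion M)) ∨
  ∃ (φ : M →ₐ[K] v₁.adicCompletion K) (e : E ≃+* v₁.adicCompletion K),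
    ∀ x : M, e (algebraMap M E x) = φ x

/-- The extension `M` is admissible for `f` and the polynomial `D`: Galois of degree a power of two, the
bad primes, the primes dividing `D` and the place at infinity split completely, `f` is irreducible modulo
the ramified primes. -/
structure AdmM (g : ℕ) {k : Type} (K M : Type) {R₁ : Type} [Field k] [Field K] [Algebra k[X] K]
    [IsFractionRing k[X] K] [Field M] [Algebra K M] [Algebra k[X] M] [CommRing R₁]
    [IsDedekindDomain R₁] [Algebra R₁ K] [IsFractionRing R₁ K] (v₁ : HeightOneSpectrum R₁)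
    (f : k[X][X]) (D : k[X]) : Prop where
  gal : IsGalois K M
  deg : ∃ n : ℕ, Module.finrank K M = 2 ^ n
  bad : ∀ P : k[X], Irreducible P → P ^ 2 ∣ dsc g f → SplitsIn M P
  spl : ∀ P : k[X], Irreducible P → P ∣ D → SplitsIn M P
  ram : ∀ P : k[X], Irreducible P → ¬ UnrAt M P →
    Irreducible (f.map (Ideal.Quotient.mk (Ideal.span {P})))
  inf : Nonempty (M →ₐ[K] v₁.adicCompletion K)

/-- The polynomial `δ` by which we twist in addition. -/
structure AdmD (g : ℕ) {k : Type} (K : Type) {R₁ : Type} [Field k] [Field K] [Algebra k[X] K]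
    [IsFractionRing k[X] K] [CommRing R₁]
    [IsDedekindDomain R₁] [Algebra R₁ K] [IsFractionRing R₁ K] (v₁ : HeightOneSpectrum R₁)
    (f : k[X][X]) (δ : k[X]) : Prop where
  ne : δ ≠ 0
  irr : ∀ P : k[X], Irreducible P → P ∣ δ →
    Irreducible (f.map (Ideal.Quotient.mk (Ideal.span {P})))
  bad : ∀ (P : k[X]) (v : HeightOneSpectrum k[X]), Irreducible P → v.asIdeal = Ideal.span {P} →
    P ^ 2 ∣ dsc g f → IsSquare (algebraMap K (v.adicCompletion K) (algebraMap k[X] K δ))
  inf : IsSquare (algebraMap K (v₁.adicCompletion K) (algebraMap k[X] K δ))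

/-- Piece SELM (port of `H30T/Sel.lean`; function field templates `Helper28H/FF/Top.lean`,
`N874/TW/*.lean`): the Selmer group over all admissible extensions. -/
def C_SELM : Prop := ∀ (g : ℕ) (k K L O : Type) [Field k] [Finite k] [Field K] [Algebra k[X] K]
  [IsFractionRing k[X] K] [Field L] [Algebra K L] [Algebra k[X] L] [IsScalarTower k[X] K L]
  [FiniteDimensional K L] [Algebra.IsSeparable K L]
  [CommRing O] [IsDedekindDomain O] [Algebra O L] [IsFractionRing O L] [Algebra k[X] O]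
  [IsScalarTower k[X] O L] [IsIntegralClosure O k[X] L] [Module.Finite k[X] O] (f : k[X][X]) (θ : L)
  (S J : Finset k[X]) (h : k[X] → k[X][X]) (R₁ : Type) [CommRing R₁]
  [IsDedekindDomain R₁] [Algebra R₁ K] [IsFractionRing R₁ K] (v₁ : HeightOneSpectrum R₁),
  1 ≤ g → (2 : k) ≠ 0 → IsGen g K f θ → GoodU g S h → (∀ Q ∈ S, Cg Q f (X * h Q)) → J ⊆ S →
  Triv g K O f θ v₁ J →
  (∀ (P : k[X]) (v : HeightOneSpectrum k[X]), Irreducible P → v.asIdeal = Ideal.span {P} →
    P ^ 2 ∣ dsc g f →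
    IsSquare (algebraMap K (v.adicCompletion K) (algebraMap k[X] K (∏ Q ∈ J, Q)))) →
  IsSquare (algebraMap K (v₁.adicCompletion K) (algebraMap k[X] K (∏ Q ∈ J, Q))) →
  ∀ δ : k[X], AdmD g K v₁ f δ →
  ∀ (M R : Type) [Field M] [Algebra K M] [Algebra k[X] M] [IsScalarTower k[X] K M]
    [FiniteDimensional K M] [CommRing R] [IsDedekindDomain R]
    [Algebra R M] [IsFractionRing R M] [Algebra k[X] R] [IsScalarTower k[X] R M]
    [IsIntegralClosure R k[X] M], AdmM g K M v₁ f (∏ Q ∈ J, Q) →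
    Irreducible ((f.scaleRoots ((∏ Q ∈ J, Q) * δ)).map (algebraMap k[X] M)) ∧
    SelTriv (Plc K R v₁) ((f.scaleRoots ((∏ Q ∈ J, Q) * δ)).map (algebraMap k[X] M))

/-- Piece ASM (port of `H30T/Asm.lean`, `Asm2.lean`): the assembly. Proof: `f` is irreducible over `K`
because of the order of the Galois group; `L = AdjoinRoot`, `O = integralClosure k[X] L`. Let `a` be a constant
which is not a square in `k`, `E` from `E_CYC` for `E₀` and the set of `C a` and of the monic primes `P` with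
`P ^ 2 ∣ dsc`; `S`, `e`, `h` from `E_SELECT` for `E` and a bound larger than `B` and the degree of `dsc`; `c`
with `Q ∣ c - e Q` for `Q ∈ S` (Chinese remainder theorem); `f' = f.comp (X + C c)`, `θ' = θ - c`,
`h' Q = (h Q).comp (X + C c)`; `J` from `C_CORE`. The degrees of the `Q ∈ J` are even by `E_SPL` (2) and
`E_QR` (2), hence the product is a square at infinity (`D_SQL`); for bad `P` the polynomial `P` is a square
modulo `Q` (`E_SPL`), so `Q` is a square modulo `P` (`E_QR`) and the product is a square in the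
completion (`D_SQL`). Then `C_SELM` for `f'` and back to `f` by `D_TRL`
(`f'.scaleRoots D = (f.scaleRoots D).comp (X + C (D * c))`) and `D_DSC`. -/
def C_MAIN : Prop := ∀ (g : ℕ) (k K : Type) [Field k] [Finite k] [Field K] [Algebra k[X] K]
  [IsFractionRing k[X] K] (f : k[X][X]) (P₀ : k[X]) (R₁ : Type) [CommRing R₁]
  [IsDedekindDomain R₁] [Algebra R₁ K] [IsFractionRing R₁ K] (v₁ : HeightOneSpectrum R₁)
  (E₀ : Type) [Field E₀] [Algebra K E₀] [Algebra k[X] E₀] [IsScalarTower k[X] K E₀]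
  [FiniteDimensional K E₀] [IsGalois K E₀] (B : ℕ), Hyp K g f P₀ → IsInf k (K := K) v₁ →
  UnrAt E₀ P₀ →
  ∃ J : Finset k[X], (∀ Q ∈ J, Q.Monic ∧ Irreducible Q ∧ B < Q.natDegree ∧ Even Q.natDegree ∧
    SplitsIn E₀ Q) ∧
  (∀ (P : k[X]) (v : HeightOneSpectrum k[X]), Irreducible P → v.asIdeal = Ideal.span {P} →
    P ^ 2 ∣ dsc g f →
    IsSquare (algebraMap K (v.adicCompletion K) (algebraMap k[X] K (∏ Q ∈ J, Q)))) ∧
  ∀ δ : k[X], AdmD g K v₁ f δ →
  ∀ (M R : Type) [Field M] [Algebra K M] [Algebra k[X] M] [IsScalarTower k[X] K M]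
    [FiniteDimensional K M] [CommRing R] [IsDedekindDomain R]
    [Algebra R M] [IsFractionRing R M] [Algebra k[X] R] [IsScalarTower k[X] R M]
    [IsIntegralClosure R k[X] M], AdmM g K M v₁ f (∏ Q ∈ J, Q) →
    Irreducible ((f.scaleRoots ((∏ Q ∈ J, Q) * δ)).map (algebraMap k[X] M)) ∧
    SelTriv (Plc K R v₁) ((f.scaleRoots ((∏ Q ∈ J, Q) * δ)).map (algebraMap k[X] M))

end Pool.Agent.Helper28H.FE
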